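import Mathlib

/-! Weak limits along ultrafilters in Hilbert spaces. -/

namespace Pool.Agent.Lib.MP_45cb44_an

open Metric Set Filter Topology
open scoped InnerProductSpace

lemma exists_weak_limit {𝕜 H ι : Type*} [RCLike 𝕜] [NormedAddCommGroup H] [InnerProductSpace 𝕜 H]
    [CompleteSpace H] (U : Ultrafilter ι) (x : ι → H) (C : ℝ) (h : ∀ i, ‖x i‖ ≤ C) :
    ∃ y : H, ∀ v, Tendsto (fun i => ⟪x i, v⟫_𝕜) U (𝓝 ⟪y, v⟫_𝕜) := by
  have hc := WeakDual.isCompact_closedBall (𝕜 := 𝕜) (E := H) 0 C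
  let X : ι → WeakDual 𝕜 H := fun i => StrongDual.toWeakDual (InnerProductSpace.toDual 𝕜 H (x i))
  obtain ⟨l, -, hl⟩ := hc.ultrafilter_le_nhds (U.map X) (by
    rw [le_principal_iff, Ultrafilter.coe_map, mem_map]
    refine univ_mem' fun i => ?_
    simpa [X] using h i)
  refine ⟨(InnerProductSpace.toDual 𝕜 H).symm (WeakDual.toStrongDual l), fun v => ?_⟩
  rw [InnerProductSpace.toDual_symm_apply]
  exact ((WeakDual.eval_continuous v).tendsto l).comp hl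

lemma exists_weak_limit' {𝕜 H ι : Type*} [RCLike 𝕜] [NormedAddCommGroup H]
    [InnerProductSpace 𝕜 H] [CompleteSpace H] (U : Ultrafilter ι) (x : ι → H) (C : ℝ)
    (h : ∀ i, ‖x i‖ ≤ C) :
    ∃ y : H, ∀ v, Tendsto (fun i => ⟪v, x i⟫_𝕜) U (𝓝 ⟪v, y⟫_𝕜) := by
  obtain ⟨y, hy⟩ := exists_weak_limit (𝕜 := 𝕜) U x C h
  refine ⟨y, fun v => ?_⟩
  have := (RCLike.continuous_conj.tendsto _).comp (hy v)
  simpa [Function.comp_def] using this

end Pool.Agent.Lib.MP_45cb44_an
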