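import Pool.Agent.Lib.MP_45cb44_an.Resolvent
import Pool.Agent.Lib.MP_45cb44_an.Weak

/-! Existence of the principal function of an operator with rank one self-commutator. -/

namespace Pool.Agent.Lib.MP_45cb44_an

open MeasureTheory Metric Set Filter Topology
open scoped InnerProductSpace ComplexConjugate ENNReal

lemma exists_measure_limit (ν : Measure ℂ) [IsFiniteMeasure ν] (U : Ultrafilter ℕ)
    (g : ℕ → ℂ → ℝ) (hm : ∀ n, Measurable (g n)) (h0 : ∀ n z, 0 ≤ g n z) (h1 : ∀ n z, g n z ≤ 1) :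
    ∃ μ : Measure ℂ, μ ≤ ν ∧ ∀ (k : ℂ → ℝ) (C : ℝ), Measurable k → (∀ᵐ z ∂ν, ‖k z‖ ≤ C) →
      Tendsto (fun n => ∫ z, k z * g n z ∂ν) U (𝓝 (∫ z, k z ∂μ)) := by
  have hb : ∀ n z, ‖g n z‖ ≤ 1 := fun n z => by rw [Real.norm_of_nonneg (h0 n z)]; exact h1 n z
  have hL : ∀ n, MemLp (g n) 2 ν := fun n =>
    MemLp.of_bound (hm n).aestronglyMeasurable 1 (.of_forall (hb n))
  obtain ⟨y, hy⟩ := exists_weak_limit' (𝕜 := ℝ) U (fun n => (hL n).toLp) _ fun n =>
    Lp.norm_le_of_ae_bound zero_le_one (by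
      filter_upwards [(hL n).coeFn_toLp] with z hz using hz ▸ hb n z)
  have key : ∀ (k : ℂ → ℝ) (C : ℝ), Measurable k → (∀ᵐ z ∂ν, ‖k z‖ ≤ C) →
      Tendsto (fun n => ∫ z, k z * g n z ∂ν) U (𝓝 (∫ z, k z * y z ∂ν)) := by
    intro k C hk hC
    have hkL : MemLp k 2 ν := MemLp.of_bound hk.aestronglyMeasurable C hC
    have := hy hkL.toLp
    simp only [L2.inner_def] at this
    convert this using 2
    · rename_i n
      apply integral_congr_ae
      filter_upwards [hkL.coeFn_toLp, (hL n).coeFn_toLp] with z a b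
      simp [a, b, mul_comm]
    · apply integral_congr_ae
      filter_upwards [hkL.coeFn_toLp] with z a
      simp [a, mul_comm]
  have hyi : Integrable y ν := (Lp.memLp y).integrable one_le_two
  have hset : ∀ s, MeasurableSet s →
      Tendsto (fun n => ∫ z in s, g n z ∂ν) U (𝓝 (∫ z in s, y z ∂ν)) := by
    intro s hs
    have := key (indicator s 1) 1 (measurable_one.indicator hs)
      (.of_forall fun z => by by_cases h : z ∈ s <;> simp [h])
    simpa only [← integral_indicator hs, ← indicator_mul_left, Pi.one_apply, one_mul] using this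
  have y0 : 0 ≤ᵐ[ν] y := ae_nonneg_of_forall_setIntegral_nonneg hyi fun s hs _ =>
    ge_of_tendsto' (hset s hs) fun n => integral_nonneg (h0 n)
  have y1 : y ≤ᵐ[ν] fun _ => (1 : ℝ) := ae_le_of_forall_setIntegral_le hyi (integrable_const _)
    fun s hs _ => le_of_tendsto' (hset s hs) fun n =>
      integral_mono ((hL n).integrable one_le_two).integrableOn (integrable_const _) (h1 n)
  have hym : Measurable y := (Lp.stronglyMeasurable y).measurable
  refine ⟨ν.withDensity fun z => ENNReal.ofReal (y z), ?_, fun k C hk hC => ?_⟩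
  · conv_rhs => rw [← withDensity_one (μ := ν)]
    apply withDensity_mono
    filter_upwards [y1] with z hz
    simpa using hz
  · rw [integral_withDensity_eq_integral_toReal_smul hym.ennreal_ofReal (by simp)]
    convert key k C hk hC using 2
    apply integral_congr_ae
    filter_upwards [y0] with z hz
    rw [ENNReal.toReal_ofReal hz, smul_eq_mul, mul_comm]

variable {H : Type*} [NormedAddCommGroup H] [InnerProductSpace ℂ H] [CompleteSpace H]
variable {T : H →L[ℂ] H} {φ : H}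

open InnerProductSpace in
lemma SS_comm {ε : ℂ} (hc : star T * T = T * star T + ε • rankOne ℂ φ φ) (z : ℂ) :
    star (SS T z) * SS T z = SS T z * star (SS T z) + ε • rankOne ℂ φ φ := by
  rw [star_SS, SS]
  simp only [mul_sub, sub_mul, hc, mul_smul_comm, smul_mul_assoc, mul_one, one_mul]
  module

lemma b0_eq {z : ℂ} {s : ℝ} (hu : IsUnit (PP T z s)) :
    b0 T φ z s = ‖star (SS T z) (RR T z s φ)‖ ^ 2 + s * ‖RR T z s φ‖ ^ 2 := by
  have e : PP T z s (RR T z s φ) = φ := by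
    rw [← mul_apply_eq_comp, RR, Ring.mul_inverse_cancel _ hu]; rfl
  have := inner_PP T z s (RR T z s φ)
  rw [e] at this
  rw [b0, om_apply, this, Complex.ofReal_re]

lemma b0_nonneg {z : ℂ} {s : ℝ} (hs : 0 ≤ s) (hu : IsUnit (PP T z s)) : 0 ≤ b0 T φ z s := by
  rw [b0_eq hu]; positivity

lemma bs_eq (z : ℂ) (s : ℝ) : bs T φ z s = -‖RR T z s φ‖ ^ 2 := by
  rw [bs, om_apply, mul_apply_eq_comp, ← ContinuousLinearMap.adjoint_inner_left,
    ← ContinuousLinearMap.star_eq_adjoint, (RR_sa T z s).star_eq, inner_self_eq_norm_sq_to_K]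
  simp [← Complex.ofReal_pow]

open InnerProductSpace in
lemma pde_b {ε : ℝ} (hε : 0 ≤ ε) (hc : star T * T = T * star T + (ε : ℂ) • rankOne ℂ φ φ) (z : ℂ)
    {s : ℝ} (hs : 0 < s) :
    (1 + ε * b0 T φ z s) * (b2 T φ 1 z s + b2 T φ Complex.I z s) -
      ε * (b1 T φ 1 z s ^ 2 + b1 T φ Complex.I z s ^ 2) +
      4 * ((1 + ε * b0 T φ z s) * (bs T φ z s + s * bss T φ z s) - ε * s * bs T φ z s ^ 2) = 0 := by
  have hu := (unit_PP_pos T z hs).1
  have hR := RR_sa T z s
  have r0 : (b0 T φ z s : ℂ) = om φ (RR T z s) := om_real φ hR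
  have r1 : ∀ v, (b1 T φ v z s : ℂ) = -om φ (RR T z s * EE T v z * RR T z s) := fun v => by
    rw [b1, Complex.neg_re, Complex.ofReal_neg, om_real]
    simp [isSelfAdjoint_iff, hR.star_eq, (EE_sa T v z).star_eq, mul_assoc]
  have r3 : (((om φ (RR T z s * RR T z s)).re : ℝ) : ℂ) = om φ (RR T z s * RR T z s) := by
    rw [om_real]
    simp [isSelfAdjoint_iff, hR.star_eq]
  have r2 : ∀ v, (b2 T φ v z s : ℂ) =
      2 * om φ (RR T z s * EE T v z * RR T z s * EE T v z * RR T z s) -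
        2 * om φ (RR T z s * RR T z s) := fun v => by
    simp only [b2, Complex.sub_re, Complex.mul_re, Complex.re_ofNat, Complex.im_ofNat, zero_mul,
      sub_zero, Complex.ofReal_sub, Complex.ofReal_mul, Complex.ofReal_ofNat, r3]
    rw [om_real]
    simp [isSelfAdjoint_iff, hR.star_eq, (EE_sa T v z).star_eq, mul_assoc]
  have r4 : (bs T φ z s : ℂ) = -om φ (RR T z s * RR T z s) := by
    rw [bs, Complex.neg_re, Complex.ofReal_neg, r3]
  have r5 : (bss T φ z s : ℂ) = 2 * om φ (RR T z s * RR T z s * RR T z s) := by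
    simp only [bss, Complex.mul_re, Complex.re_ofNat, Complex.im_ofNat, zero_mul,
      sub_zero, Complex.ofReal_mul, Complex.ofReal_ofNat]
    rw [om_real]
    simp [isSelfAdjoint_iff, hR.star_eq, mul_assoc]
  have hb : (1 : ℂ) + ε * om φ (RR T z s) ≠ 0 := by
    rw [← r0]
    have := b0_nonneg (φ := φ) hs.le hu
    exact_mod_cast (by positivity : (1 : ℝ) + ε * b0 T φ z s ≠ 0)
  have key := pde_alg (om φ).toLinearMap (rankOne ℂ φ φ) (SS T z) (star (SS T z)) (RR T z s) s ε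
    (fun X Y => by simp [om_apply, mul_comm]) (fun X => by ext x; simp [om_apply, smul_smul, mul_comm])
    (Ring.mul_inverse_cancel _ hu) (Ring.inverse_mul_cancel _ hu) (SS_comm hc z) hb
  simp only [ContinuousLinearMap.coe_coe] at key
  apply Complex.ofReal_injective
  push_cast
  rw [r0, r1, r1, r2, r2, r4, r5]
  simp only [EE, map_one, one_smul, Complex.conj_I, mul_neg, neg_mul, mul_add, add_mul,
    mul_smul_comm, smul_mul_assoc, map_neg, map_add, map_smul, smul_eq_mul, neg_smul, smul_add,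
    smul_neg] at key ⊢
  linear_combination (exp := 1) 4 * key + (Complex.I_mul_I) * (2 * (1 + ε * om φ (RR T z s)) *
    (om φ (RR T z s * SS T z * RR T z s * SS T z * RR T z s)
      - om φ (RR T z s * SS T z * RR T z s * star (SS T z) * RR T z s)
      - om φ (RR T z s * star (SS T z) * RR T z s * SS T z * RR T z s)
      + om φ (RR T z s * star (SS T z) * RR T z s * star (SS T z) * RR T z s))
    - ε * (om φ (RR T z s * SS T z * RR T z s) - om φ (RR T z s * star (SS T z) * RR T z s)) ^ 2)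

open InnerProductSpace in
lemma harm_log (hc : star T * T = T * star T + rankOne ℂ φ φ) :
    Harm (fun z s => Real.log (1 + b0 T φ z s)) (fun v z s => b1 T φ v z s / (1 + b0 T φ z s))
      (fun v z s => b2 T φ v z s / (1 + b0 T φ z s) - b1 T φ v z s ^ 2 / (1 + b0 T φ z s) ^ 2)
      (fun z s => bs T φ z s / (1 + b0 T φ z s))
      (fun z s => bss T φ z s / (1 + b0 T φ z s) - bs T φ z s ^ 2 / (1 + b0 T φ z s) ^ 2) := by
  refine ⟨(data_b T φ).log fun z s hs => b0_nonneg hs.le (unit_PP_pos T z hs).1, fun z s hs => ?_⟩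
  have h := pde_b (T := T) (φ := φ) (ε := 1) zero_le_one (by simpa using hc) z hs
  have h0 := b0_nonneg (φ := φ) hs.le (unit_PP_pos T z hs).1
  field_simp
  linear_combination h

lemma RR_scalar (u z : ℂ) {s : ℝ} (hs : 0 < s) :
    RR (u • 1 : ℂ →L[ℂ] ℂ) z s = (((‖z - u‖ ^ 2 + s)⁻¹ : ℝ) : ℂ) • 1 := by
  have e : PP (u • 1 : ℂ →L[ℂ] ℂ) z s = ((‖z - u‖ ^ 2 + s : ℝ) : ℂ) • 1 := by
    rw [PP, SS, ← sub_smul, star_smul, star_one, smul_mul_smul_comm, one_mul, ← add_smul,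
      norm_sub_rev]
    congr 1
    rw [Complex.star_def, Complex.mul_conj, Complex.normSq_eq_norm_sq]
    simp
  have h1 := Ring.inverse_mul_cancel _ (unit_PP_pos (u • 1 : ℂ →L[ℂ] ℂ) z hs).1
  rw [← RR, e, mul_smul_comm, mul_one] at h1
  conv_rhs => rw [← h1, smul_smul, ← Complex.ofReal_mul, inv_mul_cancel₀ (by positivity)]
  simp

lemma harm_ker (u : ℂ) : ∃ k k1 k2 ks kss, Harm k k1 k2 ks kss ∧ ∀ z s, 0 < s →
    k z s = (‖z - u‖ ^ 2 + s)⁻¹ ∧ ks z s = -((‖z - u‖ ^ 2 + s) ^ 2)⁻¹ := by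
  refine ⟨_, _, _, _, _, ⟨data_b (u • 1 : ℂ →L[ℂ] ℂ) 1, fun z s hs => ?_⟩, fun z s hs => ?_⟩
  · have h := pde_b (T := (u • 1 : ℂ →L[ℂ] ℂ)) (φ := 1) (ε := 0) le_rfl
      (by simp [star_smul, smul_smul, mul_comm]) z hs
    linear_combination h
  · constructor
    · rw [b0, RR_scalar u z hs, om_apply]
      simp [-Complex.ofReal_inv]
    · rw [bs_eq, RR_scalar u z hs]
      simp [-Complex.ofReal_inv]

/-- Approximate principal function. -/
noncomputable def gs (T : H →L[ℂ] H) (φ : H) (z : ℂ) (s : ℝ) : ℝ :=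
  s * ‖RR T z s φ‖ ^ 2 / (1 + b0 T φ z s)

lemma gs_nonneg (z : ℂ) {s : ℝ} (hs : 0 < s) : 0 ≤ gs T φ z s := by
  have := b0_nonneg (φ := φ) hs.le (unit_PP_pos T z hs).1
  unfold gs; positivity

lemma gs_le_one (z : ℂ) {s : ℝ} (hs : 0 < s) : gs T φ z s ≤ 1 := by
  have h0 := b0_nonneg (φ := φ) hs.le (unit_PP_pos T z hs).1
  have h1 := b0_eq (φ := φ) (unit_PP_pos T z hs).1
  rw [gs, div_le_one (by positivity)]
  nlinarith [sq_nonneg ‖star (SS T z) (RR T z s φ)‖]

lemma gs_le (z : ℂ) {s : ℝ} (hs : 0 < s) : gs T φ z s ≤ s * (‖RR T z s‖ * ‖φ‖) ^ 2 := by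
  have h0 := b0_nonneg (φ := φ) hs.le (unit_PP_pos T z hs).1
  refine (div_le_self (by positivity) (by linarith)).trans ?_
  gcongr
  exact (RR T z s).le_opNorm φ

lemma continuous_gs {s : ℝ} (hs : 0 < s) : Continuous fun z => gs T φ z s := by
  have h1 := continuous_RR T hs
  have h2 := (data_b T φ).c0 s hs
  refine Continuous.div (by fun_prop) (by fun_prop) fun z => ?_
  have := b0_nonneg (φ := φ) hs.le (unit_PP_pos T z hs).1
  positivity

open InnerProductSpace in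
lemma green_gs (hc : star T * T = T * star T + rankOne ℂ φ φ) (u : ℂ) {s : ℝ} (hs : 0 < s) :
    Integrable (fun z => (‖z - u‖ ^ 2 + s)⁻¹ * gs T φ z s) mm ∧
    Integrable (fun z => Real.log (1 + b0 T φ z s) * (s / (‖z - u‖ ^ 2 + s) ^ 2)) mm ∧
    ∫ z, (‖z - u‖ ^ 2 + s)⁻¹ * gs T φ z s ∂mm =
      ∫ z, Real.log (1 + b0 T φ z s) * (s / (‖z - u‖ ^ 2 + s) ^ 2) ∂mm := by
  obtain ⟨k, k1, k2, ks, kss, hk, e⟩ := harm_ker u
  have hf := harm_log hc
  obtain ⟨C, hC⟩ := hf.bd s hs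
  obtain ⟨D, hD⟩ := hk.bd s hs
  have i1 := (integrable_mul_decay (hf.cs s hs) (hk.c0 s hs)
    (fun z => (hC s le_rfl z 1 norm_one).2.2.2.1) (fun z => (hD s le_rfl z 1 norm_one).1)).const_mul (-s)
  have i2 := (integrable_mul_decay (hk.cs s hs) (hf.c0 s hs)
    (fun z => (hD s le_rfl z 1 norm_one).2.2.2.1) (fun z => (hC s le_rfl z 1 norm_one).1)).const_mul (-s)
  have e1 : (fun z => (‖z - u‖ ^ 2 + s)⁻¹ * gs T φ z s) =
      fun z => -s * (bs T φ z s / (1 + b0 T φ z s) * k z s) := by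
    ext z; rw [(e z s hs).1, gs, bs_eq]; ring
  have e2 : (fun z => Real.log (1 + b0 T φ z s) * (s / (‖z - u‖ ^ 2 + s) ^ 2)) =
      fun z => -s * (ks z s * Real.log (1 + b0 T φ z s)) := by
    ext z; rw [(e z s hs).2]; ring
  rw [e1, e2]
  refine ⟨i1, i2, ?_⟩
  rw [← sub_eq_zero, ← integral_sub i1 i2, ← neg_eq_zero, ← integral_neg, ← hf.green hk hs]
  congr 1
  ext z
  ring

open InnerProductSpace in
lemma tendsto_rhs (hc : star T * T = T * star T + rankOne ℂ φ φ) {u : ℂ} (hu : ‖T‖ < ‖u‖) :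
    Tendsto (fun s => ∫ z, Real.log (1 + b0 T φ z s) * (s / (‖z - u‖ ^ 2 + s) ^ 2) ∂mm)
      (𝓝[>] 0) (𝓝 (Real.log (1 + b0 T φ u 0))) := by
  have hunit := (unit_PP_far T (z := u) le_rfl (sub_pos.2 hu) (by linarith)).1
  have h0 := b0_nonneg (φ := φ) le_rfl hunit
  set F0 := Real.log (1 + b0 T φ u 0) with hF0
  have hF : 0 ≤ F0 := Real.log_nonneg (by linarith)
  have hcont : ContinuousAt (fun x : ℂ × ℝ => Real.log (1 + b0 T φ x.1 x.2)) (u, 0) := by
    have := continuousAt_RR T (x := (u, 0)) hunit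
    refine ContinuousAt.log ?_ (by positivity)
    unfold b0; fun_prop
  rw [Metric.tendsto_nhds]
  intro η hη
  obtain ⟨d, hd, hd2⟩ := Metric.continuousAt_iff.1 hcont (η / 2) (by positivity)
  set K := (1 + (d ^ 2)⁻¹) ^ 2
  have hlim : Tendsto (fun s => η / 2 + (F0 * s + 2 * √(s ^ 2 + ‖φ‖ ^ 2 * s)) * K) (𝓝[>] 0)
      (𝓝 (η / 2)) := by
    refine tendsto_nhdsWithin_of_tendsto_nhds (Continuous.tendsto' (by fun_prop) _ _ (by simp))
  filter_upwards [hlim.eventually (gt_mem_nhds (half_lt_self hη)), Ioo_mem_nhdsGT hd]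
    with s h1 hs
  refine lt_of_le_of_lt ?_ h1
  obtain ⟨p1, p2⟩ := poisson_int u hs.1
  obtain ⟨q1, q2⟩ := poisson_int u one_pos
  have hs0 := hs.1
  have e0 : ∫ z, Real.log (1 + b0 T φ z s) * (s / (‖z - u‖ ^ 2 + s) ^ 2) ∂mm - F0 =
      ∫ z, (Real.log (1 + b0 T φ z s) * (s / (‖z - u‖ ^ 2 + s) ^ 2) -
        F0 * (s / (‖z - u‖ ^ 2 + s) ^ 2)) ∂mm := by
    rw [integral_sub (green_gs hc u hs.1).2.1 (p1.const_mul _), integral_const_mul, p2, mul_one]
  rw [dist_eq_norm, e0]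
  refine (norm_integral_le_of_norm_le ((p1.const_mul (η / 2)).add
    (q1.const_mul ((F0 * s + 2 * √(s ^ 2 + ‖φ‖ ^ 2 * s)) * K))) (.of_forall fun z => ?_)).trans ?_
  · rw [← sub_mul, norm_mul, Real.norm_of_nonneg (by positivity : 0 ≤ s / (‖z - u‖ ^ 2 + s) ^ 2),
      Pi.add_apply]
    by_cases hz : ‖z - u‖ < d
    · have := hd2 (x := (z, s)) (by
        rw [Prod.dist_eq, dist_eq_norm, Real.dist_eq, sub_zero, abs_of_pos hs.1]
        exact max_lt hz hs.2)
      rw [dist_eq_norm] at this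
      refine le_add_of_le_of_nonneg ?_ (by positivity)
      gcongr
    · refine le_add_of_nonneg_of_le (by positivity) ?_
      rw [not_lt] at hz
      have b1 := b0_nonneg (φ := φ) hs.1.le (unit_PP_pos T z hs.1).1
      have b2 : b0 T φ z s ≤ ‖φ‖ ^ 2 * s⁻¹ := ((le_abs_self _).trans (abs_re_om_le φ _)).trans
        (mul_le_mul_of_nonneg_left (unit_PP_pos T z hs.1).2 (by positivity))
      have b3 : s * Real.log (1 + b0 T φ z s) ≤ 2 * √(s ^ 2 + ‖φ‖ ^ 2 * s) := by
        have c1 := Real.log_le_sub_one_of_pos (Real.sqrt_pos.2 (by positivity : 0 < 1 + b0 T φ z s))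
        rw [Real.log_sqrt (by positivity)] at c1
        have c2 : s * √(1 + b0 T φ z s) ≤ √(s ^ 2 + ‖φ‖ ^ 2 * s) := by
          apply Real.le_sqrt_of_sq_le
          rw [mul_pow, Real.sq_sqrt (by positivity)]
          have : s ^ 2 * b0 T φ z s ≤ s ^ 2 * (‖φ‖ ^ 2 * s⁻¹) := by gcongr
          have e : s ^ 2 * (‖φ‖ ^ 2 * s⁻¹) = ‖φ‖ ^ 2 * s := by field_simp
          linarith
        nlinarith
      have b4 : ‖Real.log (1 + b0 T φ z s) - F0‖ * s ≤ F0 * s + 2 * √(s ^ 2 + ‖φ‖ ^ 2 * s) := by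
        have := norm_sub_le (Real.log (1 + b0 T φ z s)) F0
        rw [Real.norm_of_nonneg hF, Real.norm_of_nonneg (Real.log_nonneg (by linarith))] at this
        nlinarith
      have b5 : 1 / (‖z - u‖ ^ 2 + s) ^ 2 ≤ K * (1 / (‖z - u‖ ^ 2 + 1) ^ 2) := by
        have c1 : d ^ 2 ≤ ‖z - u‖ ^ 2 := by gcongr
        have c2 : 1 ≤ (d ^ 2)⁻¹ * ‖z - u‖ ^ 2 := by
          rwa [← div_eq_inv_mul, one_le_div (by positivity)]
        rw [mul_one_div, div_le_div_iff₀ (by positivity) (by positivity), one_mul, ← mul_pow]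
        gcongr
        have : 0 ≤ (d ^ 2)⁻¹ * s := by positivity
        nlinarith
      calc _ = ‖Real.log (1 + b0 T φ z s) - F0‖ * s * (1 / (‖z - u‖ ^ 2 + s) ^ 2) := by ring
        _ ≤ (F0 * s + 2 * √(s ^ 2 + ‖φ‖ ^ 2 * s)) * (K * (1 / (‖z - u‖ ^ 2 + 1) ^ 2)) := by gcongr
        _ = _ := by ring
  · simp only [Pi.add_apply]
    rw [integral_add (p1.const_mul _) (q1.const_mul _), integral_const_mul, integral_const_mul,
      p2, q2, mul_one, mul_one]

lemma tendsto_outside (hT : ‖T‖ ≤ 1 / 4) (u : ℂ) :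
    Tendsto (fun s => ∫ z in (ball 0 (1 / 2))ᶜ, (‖z - u‖ ^ 2 + s)⁻¹ * gs T φ z s ∂mm)
      (𝓝[>] 0) (𝓝 0) := by
  have hb : ∀ s, 0 < s → ∀ z ∈ (ball (0 : ℂ) (1 / 2))ᶜ, ‖(‖z - u‖ ^ 2 + s)⁻¹ * gs T φ z s‖ ≤
      s * (‖z - u‖ ^ 2 + s)⁻¹ * (400 * ‖φ‖ ^ 2 * ((‖z‖ ^ 2 + 1) ^ 2)⁻¹) := by
    intro s hs z hz
    rw [mem_compl_iff, mem_ball_zero_iff, not_lt] at hz
    have h1 := (unit_PP_far T (z := z) (d := ‖z‖ / 2) hs.le (by linarith) (by linarith)).2
    have h2 : ((‖z‖ / 2) ^ 2)⁻¹ ≤ 20 * (‖z‖ ^ 2 + 1)⁻¹ := by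
      rw [← div_eq_mul_inv, inv_eq_one_div, div_le_div_iff₀ (by positivity) (by positivity)]
      nlinarith
    have h3 := gs_nonneg (T := T) (φ := φ) z hs
    rw [Real.norm_of_nonneg (by positivity)]
    calc _ ≤ (‖z - u‖ ^ 2 + s)⁻¹ * (s * (20 * (‖z‖ ^ 2 + 1)⁻¹ * ‖φ‖) ^ 2) := by
          refine mul_le_mul_of_nonneg_left ((gs_le z hs).trans ?_) (by positivity)
          gcongr
          exact h1.trans h2
      _ = _ := by rw [← inv_pow]; ring
  have := tendsto_integral_filter_of_dominated_convergence (l := 𝓝[>] (0 : ℝ))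
    (μ := mm.restrict (ball 0 (1 / 2))ᶜ) (F := fun s z => (‖z - u‖ ^ 2 + s)⁻¹ * gs T φ z s)
    (f := fun _ => 0) (fun z => 400 * ‖φ‖ ^ 2 * ((‖z‖ ^ 2 + 1) ^ 2)⁻¹) ?_ ?_
    (integrable_decay.const_mul _).integrableOn ?_
  · simpa using this
  · filter_upwards [self_mem_nhdsWithin] with s hs
    have := (continuous_gs (T := T) (φ := φ) hs).measurable
    exact Measurable.aestronglyMeasurable (by fun_prop)
  · filter_upwards [self_mem_nhdsWithin] with s hs
    have hs : 0 < s := hs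
    filter_upwards [ae_restrict_mem measurableSet_ball.compl] with z hz
    refine (hb s hs z hz).trans (mul_le_of_le_one_left (by positivity) ?_)
    rw [← div_eq_mul_inv, div_le_one (by positivity)]
    nlinarith [sq_nonneg ‖z - u‖]
  · filter_upwards [ae_restrict_mem measurableSet_ball.compl,
      ae_ne_of_le Measure.restrict_le_self u] with z hz hzu
    refine squeeze_zero_norm' (by
      filter_upwards [self_mem_nhdsWithin] with s hs using hb s hs z hz) ?_
    have h1 : 0 < ‖z - u‖ := norm_pos_iff.2 (sub_ne_zero.2 hzu)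
    refine tendsto_nhdsWithin_of_tendsto_nhds (ContinuousAt.tendsto ?_ |>.congr' EventuallyEq.rfl
      |>.trans (le_of_eq (by simp)))
    exact (continuousAt_id.mul (ContinuousAt.inv₀ (by fun_prop) (by positivity))).mul
      continuousAt_const

open InnerProductSpace in
theorem exists_principal (hc : star T * T = T * star T + rankOne ℂ φ φ) (hT : ‖T‖ ≤ 1 / 4) :
    ∃ μ : Measure ℂ, μ ≤ mm.restrict (ball 0 (1 / 2)) ∧ ∀ u : ℂ, 1 ≤ ‖u‖ → ∀ X : H,
      star T X - conj u • X = φ → ‖X‖ ^ 2 = 1 - Real.exp (-∫ z, (‖z - u‖ ^ 2)⁻¹ ∂μ) := by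
  have : IsFiniteMeasure (mm.restrict (ball 0 (1 / 2))) :=
    ⟨by simp [measure_ball_lt_top]⟩
  let sq : ℕ → ℝ := fun n => 1 / ((n : ℝ) + 1)
  have hsq : ∀ n, 0 < sq n := fun n => Nat.one_div_pos_of_nat
  have hlim : Tendsto sq (hyperfilter ℕ) (𝓝[>] 0) :=
    (tendsto_nhdsWithin_iff.2 ⟨tendsto_one_div_add_atTop_nhds_zero_nat,
      .of_forall hsq⟩).mono_left Nat.hyperfilter_le_atTop
  obtain ⟨μ, hμ, hk⟩ := exists_measure_limit (mm.restrict (ball 0 (1 / 2))) (hyperfilter ℕ)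
    (fun n z => gs T φ z (sq n)) (fun n => (continuous_gs (hsq n)).measurable)
    (fun n z => gs_nonneg z (hsq n)) (fun n z => gs_le_one z (hsq n))
  refine ⟨μ, hμ, fun u hu X hX => ?_⟩
  have hfar : ∀ᵐ z ∂mm.restrict (ball (0 : ℂ) (1 / 2)), 1 / 2 ≤ ‖z - u‖ := by
    filter_upwards [ae_restrict_mem measurableSet_ball] with z hz
    rw [mem_ball_zero_iff] at hz
    linarith [norm_sub_norm_le u z, norm_sub_rev u z]
  have hb : ∀ᵐ z ∂mm.restrict (ball (0 : ℂ) (1 / 2)), ‖(‖z - u‖ ^ 2)⁻¹‖ ≤ 4 := by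
    filter_upwards [hfar] with z hz
    rw [Real.norm_of_nonneg (by positivity), inv_le_comm₀ (by positivity) (by positivity)]
    nlinarith
  have t1 := hk (fun z => (‖z - u‖ ^ 2)⁻¹) 4 (by fun_prop) hb
  have t2 : Tendsto (fun s => ∫ z in ball 0 (1 / 2), (‖z - u‖ ^ 2 + s)⁻¹ * gs T φ z s ∂mm -
      ∫ z in ball 0 (1 / 2), (‖z - u‖ ^ 2)⁻¹ * gs T φ z s ∂mm) (𝓝[>] 0) (𝓝 0) := by
    refine squeeze_zero_norm' (a := fun s => 16 * s * mm.real (ball 0 (1 / 2))) ?_
      (tendsto_nhdsWithin_of_tendsto_nhds (Continuous.tendsto' (by fun_prop) _ _ (by simp)))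
    filter_upwards [self_mem_nhdsWithin] with s hs
    have hs : 0 < s := hs
    have hg := (continuous_gs (T := T) (φ := φ) hs).measurable
    rw [← integral_sub (green_gs hc u hs).1.integrableOn]
    · refine (norm_integral_le_of_norm_le_const (C := 16 * s) ?_).trans (by simp)
      filter_upwards [hfar] with z hz
      have g0 := gs_nonneg (T := T) (φ := φ) z hs
      have g1 := gs_le_one (T := T) (φ := φ) z hs
      rw [← sub_mul, norm_mul, Real.norm_of_nonneg g0]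
      refine (mul_le_of_le_one_right (norm_nonneg _) g1).trans ?_
      have h1 : 1 / 4 ≤ ‖z - u‖ ^ 2 := by nlinarith
      rw [norm_sub_rev, inv_sub_inv (by positivity) (by positivity), add_sub_cancel_left,
        Real.norm_of_nonneg (by positivity), div_le_iff₀ (by positivity)]
      have : 1 / 16 ≤ ‖z - u‖ ^ 2 * (‖z - u‖ ^ 2 + s) := by nlinarith
      nlinarith
    · refine (integrable_const (4 : ℝ)).mono' (Measurable.aestronglyMeasurable (by fun_prop)) ?_
      filter_upwards [hb] with z hz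
      rw [norm_mul, Real.norm_of_nonneg (gs_nonneg z hs)]
      exact (mul_le_of_le_one_right (norm_nonneg _) (gs_le_one z hs)).trans hz
  have t3 := (t1.add (t2.comp hlim)).add ((tendsto_outside (φ := φ) hT u).comp hlim)
  have t4 := (tendsto_rhs hc (u := u) (by linarith)).comp hlim
  have e : Real.log (1 + b0 T φ u 0) = ∫ z, (‖z - u‖ ^ 2)⁻¹ ∂μ := by
    refine tendsto_nhds_unique t4 ?_
    simp only [add_zero] at t3
    refine t3.congr fun n => ?_
    simp only [Function.comp_apply, add_sub_cancel]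
    rw [integral_add_compl measurableSet_ball (green_gs hc u (hsq n)).1, (green_gs hc u (hsq n)).2.2]
  have hunit := (unit_PP_far T (z := u) (d := 1 / 2) le_rfl (by norm_num) (by linarith)).1
  have h0 := b0_nonneg (φ := φ) le_rfl hunit
  rw [← e, Real.exp_neg, Real.exp_log (by positivity)]
  set ψ := RR T u 0 φ
  have e1 : SS T u (star (SS T u) ψ) = φ := by
    have : PP T u 0 ψ = φ := by
      rw [← mul_apply_eq_comp, RR, Ring.mul_inverse_cancel _ hunit]; rfl
    simpa [PP] using this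
  have e2 : ⟪φ, ψ⟫_ℂ = b0 T φ u 0 := (om_real φ (RR_sa T u 0)).symm
  have e3 : star (SS T u) (SS T u ψ) = (1 + b0 T φ u 0 : ℂ) • φ := by
    rw [← mul_apply_eq_comp, SS_comm (ε := 1) (by simpa using hc), add_apply, mul_apply_eq_comp, e1]
    simp [e2, add_smul]
  have e4 : star (SS T u) X = φ := by simpa [star_SS] using hX
  have e5 : SS T u ψ = (1 + b0 T φ u 0 : ℂ) • X := by
    have h1 := lower_SS T u (SS T u ψ - (1 + b0 T φ u 0 : ℂ) • X)
    rw [map_sub, map_smul, e3, e4, sub_self, norm_zero] at h1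
    rw [← sub_eq_zero, ← norm_eq_zero]
    nlinarith [norm_nonneg (SS T u ψ - (1 + b0 T φ u 0 : ℂ) • X)]
  have e6 : ⟪X, SS T u ψ⟫_ℂ = b0 T φ u 0 := by
    rw [← ContinuousLinearMap.adjoint_inner_left, ← ContinuousLinearMap.star_eq_adjoint, e4, e2]
  rw [e5, inner_smul_right, inner_self_eq_norm_sq_to_K] at e6
  have e7 : (1 + b0 T φ u 0) * ‖X‖ ^ 2 = b0 T φ u 0 := by
    apply Complex.ofReal_injective
    push_cast
    exact e6
  field_simp
  linarith

end Pool.Agent.Lib.MP_45cb44_an
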