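import Pool.Agent.Lib.MP_45cb44_an.Ident

-- part Pool.Agent.Lib.MP_45cb44_an.Seg
section

/-! Regularity of Cauchy transforms, and smoothed segments. -/

namespace Pool.Agent.Lib.MP_45cb44_an

open MeasureTheory Metric Set Filter Topology
open scoped ENNReal NNReal Real ComplexConjugate

variable {ν : Measure ℂ} {p : ℂ → ℂ}

lemma continuous_CT (hν : ν ≤ mD) (hp : Bd p) : Continuous (CT ν p) := by
  obtain ⟨-, K, hK, hb⟩ := id hp
  refine continuous_iff_continuousAt.2 fun z => Metric.continuousAt_iff'.2 fun ε hε => ?_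
  obtain ⟨r, r0, r1⟩ : ∃ r : ℝ, 0 < r ∧ K * (3 * r) ≤ ε / 3 :=
    ⟨ε / (9 * (K + 1)), by positivity, by
      rw [show K * (3 * (ε / (9 * (K + 1)))) = ε / 3 * (K / (K + 1)) by field_simp; ring]
      exact mul_le_of_le_one_right (by positivity) ((div_le_one (by positivity)).2 (by linarith))⟩
  have h1 := hp.indicator (measurableSet_ball (x := z) (ε := r))
  have h2 := hp.indicator (measurableSet_ball (x := z) (ε := r)).compl
  have e : ∀ w, CT ν p w = CT ν (indicator (ball z r) p) w + CT ν (indicator (ball z r)ᶜ p) w :=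
    fun w => by rw [← CT_add hν h1 h2]; simp only [indicator_self_add_compl_apply]
  have n : ∀ w, ‖CT ν (indicator (ball z r) p) w‖ ≤ K * (3 * r) := fun w =>
    norm_CT_le' hν r0 (((hν.trans mD_le) _).trans_eq (mm_ball z r0.le)) hK
      (fun ζ hζ => indicator_of_notMem hζ _)
      (fun ζ hζ => (norm_indicator_le_norm_self _ _).trans (hb ζ hζ)) w
  set L := (∫ ζ, ‖indicator (ball z r)ᶜ p ζ‖ ∂ν) / (r / 2) ^ 2
  have t : Tendsto (fun w => L * ‖w - z‖) (𝓝 z) (𝓝 0) :=
    Continuous.tendsto' (by fun_prop) _ _ (by simp)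
  filter_upwards [ball_mem_nhds z (half_pos r0), t.eventually (gt_mem_nhds (show 0 < ε / 3 by
    positivity))] with w hw h3
  rw [mem_ball, dist_eq_norm] at hw
  have far : ∀ ζ, indicator (ball z r)ᶜ p ζ ≠ 0 → r ≤ ‖ζ - z‖ := fun ζ hζ => by
    simpa [dist_eq_norm] using mem_of_indicator_ne_zero hζ
  have h4 := norm_CT_sub hν h2 (half_pos r0) (z := w) (w := z)
    (fun ζ hζ => by linarith [far ζ hζ, norm_sub_le_norm_sub_add_norm_sub ζ w z])
    fun ζ hζ => by linarith [far ζ hζ]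
  rw [dist_eq_norm, e w, e z, add_sub_add_comm]
  linarith [norm_add_le (CT ν (indicator (ball z r) p) w - CT ν (indicator (ball z r) p) z)
    (CT ν (indicator (ball z r)ᶜ p) w - CT ν (indicator (ball z r)ᶜ p) z), n w, n z,
    norm_sub_le (CT ν (indicator (ball z r) p) w) (CT ν (indicator (ball z r) p) z)]

lemma Bd.div_sub (hp : Bd p) {w : ℂ} {d : ℝ} (hd : 0 < d) (h : ∀ ζ, p ζ ≠ 0 → d ≤ ‖ζ - w‖) :
    Bd fun ζ => p ζ * (ζ - w)⁻¹ := by
  obtain ⟨m, K, hK, hb⟩ := hp
  refine .of_bound (by fun_prop) (K * d⁻¹) fun ζ hζ => ?_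
  by_cases h0 : p ζ = 0
  · simp only [h0, zero_mul, norm_zero]; positivity
  · rw [norm_mul, norm_inv]
    exact mul_le_mul (hb ζ hζ) (inv_anti₀ hd (h ζ h0)) (by positivity) hK

lemma CT_div_sub (hν : ν ≤ mD) (hp : Bd p) {w : ℂ} {d : ℝ} (hd : 0 < d)
    (h : ∀ ζ, p ζ ≠ 0 → d ≤ ‖ζ - w‖) (z : ℂ) :
    (z - w) * CT ν (fun ζ => p ζ * (ζ - w)⁻¹) z = CT ν p z - CT ν p w := by
  refine eq_sub_iff_add_eq.2 ((CT_mul_sub hν (hp.div_sub hd h) w z).symm.trans ?_)
  congr 1
  ext ζ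
  by_cases h0 : p ζ = 0
  · simp [h0]
  · have : ζ - w ≠ 0 := norm_pos_iff.1 (hd.trans_le (h ζ h0))
    field_simp

lemma differentiableAt_CT (hν : ν ≤ mD) (hp : Bd p) {w : ℂ} {d : ℝ} (hd : 0 < d)
    (h : ∀ ζ, p ζ ≠ 0 → d ≤ ‖ζ - w‖) : DifferentiableAt ℂ (CT ν p) w := by
  refine (hasDerivAt_iff_tendsto_slope.2 (Tendsto.congr' ?_ (tendsto_nhdsWithin_of_tendsto_nhds
    (continuous_CT hν (hp.div_sub hd h)).continuousAt.tendsto))).differentiableAt
  filter_upwards [self_mem_nhdsWithin] with z hz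
  rw [slope_def_field, ← CT_div_sub hν hp hd h, mul_div_cancel_left₀ _ (sub_ne_zero.2 hz)]

lemma tendsto_CT (hν : ν ≤ mD) (hp : Bd p) : Tendsto (CT ν p) (Bornology.cobounded ℂ) (𝓝 0) := by
  have h1 := hp.indicator (measurableSet_ball (x := (0 : ℂ)) (ε := 1))
  have t : Tendsto (fun z : ℂ => ‖z‖ - 1) (Bornology.cobounded ℂ) atTop :=
    tendsto_atTop_add_const_right _ (-1) tendsto_norm_cobounded_atTop
  refine squeeze_zero_norm' ?_ (t.const_div_atTop (∫ ζ, ‖indicator (ball 0 1) p ζ‖ ∂ν))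
  filter_upwards [t.eventually_gt_atTop 0] with z hz
  rw [CT_congr hν fun ζ hζ => (indicator_of_mem hζ p).symm]
  refine norm_CT_far hν h1 hz fun ζ hζ => ?_
  have := norm_sub_norm_le z ζ
  rw [norm_sub_rev] at this
  linarith [mem_ball_zero_iff.1 (mem_of_indicator_ne_zero hζ)]

lemma tendsto_mul_CT (hν : ν ≤ mD) (hp : Bd p) (b : ℂ) :
    Tendsto (fun z => (z - b) * CT ν p z) (Bornology.cobounded ℂ) (𝓝 (-∫ ζ, p ζ ∂ν)) := by
  have := (tendsto_CT hν ((Bd.id.sub (Bd.const b)).mul hp)).sub_const (∫ ζ, p ζ ∂ν)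
  simpa [CT_mul_sub hν hp] using this

/-- Profile of the smoothed logarithm. -/
noncomputable def Lam (δ x : ℝ) : ℝ := Real.log δ + ∫ y in δ ^ 2..x, (2 * max y (δ ^ 2))⁻¹

lemma hasDerivAt_Lam {δ : ℝ} (hδ : 0 < δ) (x : ℝ) :
    HasDerivAt (Lam δ) (2 * max x (δ ^ 2))⁻¹ x := by
  have hc : Continuous fun y : ℝ => (2 * max y (δ ^ 2))⁻¹ :=
    Continuous.inv₀ (by fun_prop) fun y => by positivity
  exact (hc.integral_hasStrictDerivAt _ _).hasDerivAt.const_add _

lemma Lam_out {δ t : ℝ} (hδ : 0 < δ) (h : δ ≤ t) : Lam δ (t ^ 2) = Real.log t := by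
  have h1 : δ ^ 2 ≤ t ^ 2 := by gcongr
  have ht := hδ.trans_le h
  rw [Lam, intervalIntegral.integral_congr (g := fun y => 2⁻¹ * y⁻¹) fun y hy => by
    rw [uIcc_of_le h1] at hy
    simp only [max_eq_left hy.1, mul_inv], intervalIntegral.integral_const_mul,
    integral_inv_of_pos (by positivity) (by positivity), Real.log_div (by positivity)
    (by positivity), Real.log_pow, Real.log_pow]
  push_cast
  ring

lemma Lam_in {δ x : ℝ} (h : x ≤ δ ^ 2) : Lam δ x = Real.log δ + (x - δ ^ 2) * (2 * δ ^ 2)⁻¹ := by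
  rw [Lam, intervalIntegral.integral_congr (g := fun _ => (2 * δ ^ 2)⁻¹) fun y hy => by
    rw [uIcc_of_ge h] at hy
    simp only [max_eq_right hy.2], intervalIntegral.integral_const, smul_eq_mul]

lemma Lam_le {δ t : ℝ} (hδ : 0 < δ) (ht : 0 ≤ t) : Lam δ (t ^ 2) ≤ Real.log (t + δ) := by
  rcases le_total δ t with h | h
  · rw [Lam_out hδ h]; exact Real.log_le_log (by linarith) (by linarith)
  · have h1 : t ^ 2 ≤ δ ^ 2 := by gcongr
    rw [Lam_in h1]
    have := Real.log_le_log hδ (by linarith : δ ≤ t + δ)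
    have := mul_nonpos_of_nonpos_of_nonneg (sub_nonpos.2 h1) (by positivity : 0 ≤ (2 * δ ^ 2)⁻¹)
    linarith

lemma le_Lam {δ t : ℝ} (hδ : 0 < δ) (ht : 0 ≤ t) :
    Real.log (max t δ) - 1 / 2 ≤ Lam δ (t ^ 2) := by
  rcases le_total δ t with h | h
  · rw [Lam_out hδ h, max_eq_left h]; linarith
  · rw [Lam_in (by gcongr), max_eq_right h, sub_mul,
      show δ ^ 2 * (2 * δ ^ 2)⁻¹ = 1 / 2 by field_simp]
    have : 0 ≤ t ^ 2 * (2 * δ ^ 2)⁻¹ := by positivity
    linarith

lemma integral_ball_id (c : ℂ) {r : ℝ} (hr : 0 ≤ r) : ∫ ζ in ball c r, ζ ∂mm = c * r ^ 2 := by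
  have i : ∀ f : ℂ → ℂ, Continuous f → IntegrableOn f (ball c r) mm := fun f hf =>
    (hf.continuousOn.integrableOn_compact (isCompact_closedBall c r)).mono_set ball_subset_closedBall
  have h : ∫ ζ in ball c r, (ζ - c) ∂mm = 0 := by
    rw [← integral_indicator measurableSet_ball, ← integral_add_right_eq_self _ c]
    have e := integral_neg_eq_self (fun ζ => indicator (ball c r) (fun ζ => ζ - c) (ζ + c)) mm
    have e2 : ∀ ζ, indicator (ball c r) (fun ζ => ζ - c) (-ζ + c) =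
        -indicator (ball c r) (fun ζ => ζ - c) (ζ + c) := fun ζ => by
      by_cases h : ‖ζ‖ < r <;> simp [indicator, h]
    simp only [e2, integral_neg] at e
    linear_combination (-1 / 2) * e
  rw [integral_sub (i _ continuous_id') (i _ continuous_const), sub_eq_zero] at h
  simp [h, mm_real_ball c hr, mul_comm]

lemma exists_seg {q q' : ℂ} {δ : ℝ} (hδ : 0 < δ) (h : ‖q' - q‖ < δ)
    (hs : ball q (2 * δ) ⊆ ball 0 1) :
    ∃ θ, Bd θ ∧ (∀ ζ, θ ζ ≠ 0 → ζ ∈ ball q (2 * δ)) ∧ (∀ ζ, ‖θ ζ‖ ≤ δ⁻¹) ∧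
      (∀ z, (CT mD θ z).re = Lam δ (‖z - q‖ ^ 2) - Lam δ (‖z - q'‖ ^ 2)) ∧
      ∫ ζ, θ ζ ∂mD = q - q' ∧ ∫ ζ, ζ * θ ζ ∂mD = (q ^ 2 - q' ^ 2) / 2 := by
  let γ : ℝ → ℂ := fun τ => q + τ * (q' - q)
  let k : ℝ → ℂ → ℂ := fun τ => indicator (ball (γ τ) δ) fun _ => (q - q') / δ ^ 2
  have mk : Measurable fun x : ℂ × ℝ => k x.2 x.1 := by
    have : MeasurableSet {x : ℂ × ℝ | dist x.1 (γ x.2) < δ} :=
      (isOpen_lt (by fun_prop) continuous_const).measurableSet
    exact measurable_const.indicator this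
  have nk : ∀ τ ζ, ‖k τ ζ‖ ≤ δ⁻¹ := fun τ ζ => (norm_indicator_le_norm_self _ _).trans (by
    rw [norm_div, norm_sub_rev, norm_pow, Complex.norm_real, Real.norm_of_nonneg hδ.le,
      div_le_iff₀ (by positivity), sq, inv_mul_cancel_left₀ hδ.ne']
    exact h.le)
  have sub : ∀ τ ∈ Ioc (0 : ℝ) 1, ball (γ τ) δ ⊆ ball q (2 * δ) := fun τ hτ =>
    ball_subset_ball' (by
      rw [dist_eq_norm, add_sub_cancel_left, norm_mul, Complex.norm_real,
        Real.norm_of_nonneg hτ.1.le]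
      nlinarith [hτ.1, hτ.2, norm_nonneg (q' - q)])
  let θ : ℂ → ℂ := fun ζ => ∫ τ in Ioc (0 : ℝ) 1, k τ ζ
  have nθ : ∀ ζ, ‖θ ζ‖ ≤ δ⁻¹ := fun ζ => by
    simpa using norm_integral_le_of_norm_le_const (μ := volume.restrict (Ioc (0 : ℝ) 1))
      (.of_forall fun τ => nk τ ζ)
  have key : ∀ φ : ℂ → ℂ, Measurable φ → Integrable φ mD → ∫ ζ, θ ζ * φ ζ ∂mD =
      ∫ τ in (0 : ℝ)..1, (q - q') / δ ^ 2 * ∫ ζ in ball (γ τ) δ, φ ζ ∂mm := fun φ m i => by
    simp only [θ, ← integral_mul_const]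
    rw [integral_integral_swap, intervalIntegral.integral_of_le zero_le_one]
    · refine setIntegral_congr_fun measurableSet_Ioc fun τ hτ => ?_
      simp only [k, ← indicator_mul_left, integral_indicator measurableSet_ball, integral_const_mul]
      rw [mD, Measure.restrict_restrict measurableSet_ball, inter_eq_left.2 ((sub τ hτ).trans hs)]
    · exact (i.comp_fst _).bdd_mul (c := δ⁻¹) mk.aestronglyMeasurable (.of_forall fun x => nk _ _)
  have d0 : (δ : ℂ) ≠ 0 := by exact_mod_cast hδ.ne'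
  refine ⟨θ, .of_bound (mk.stronglyMeasurable.integral_prod_right').measurable _ fun ζ _ => nθ ζ,
    fun ζ hζ => ?_, nθ, fun z => ?_, ?_, ?_⟩
  · by_contra h0
    exact hζ (setIntegral_eq_zero_of_forall_eq_zero fun τ hτ =>
      indicator_of_notMem (fun h1 => h0 (sub τ hτ h1)) _)
  · let g : ℝ → ℂ := fun τ => (q' - q) * conj (z - γ τ) / (max (‖z - γ τ‖ ^ 2) (δ ^ 2) : ℝ)
    have hg : Continuous g := by
      refine Continuous.div (by fun_prop) (by fun_prop) fun τ => ?_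
      exact_mod_cast (show 0 < max (‖z - γ τ‖ ^ 2) (δ ^ 2) by positivity).ne'
    have e : ∀ τ, (q - q') / δ ^ 2 * ∫ ζ in ball (γ τ) δ, (ζ - z)⁻¹ ∂mm = g τ := fun τ => by
      rcases lt_or_ge ‖z - γ τ‖ δ with h1 | h1
      · simp only [g]
        rw [integral_disc_in h1, max_eq_right (by gcongr)]
        push_cast
        ring
      · have h2 : z - γ τ ≠ 0 := norm_pos_iff.1 (hδ.trans_le h1)
        simp only [g]
        rw [integral_disc_out hδ h1, max_eq_left (by gcongr), ← Complex.normSq_eq_norm_sq,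
          ← Complex.mul_conj]
        have : conj (z - γ τ) ≠ 0 := (map_ne_zero _).2 h2
        field_simp
        ring
    rw [CT, key _ (by fun_prop) (integrable_inv_sub le_rfl z)]
    simp only [e]
    rw [← Complex.reCLM_apply, ← Complex.reCLM.intervalIntegral_comp_comm
      (hg.intervalIntegrable _ _), intervalIntegral.integral_eq_sub_of_hasDerivAt
      (f := fun τ => -Lam δ (‖z - γ τ‖ ^ 2)) (fun τ _ => ?_)
      (Continuous.intervalIntegrable (by fun_prop) _ _)]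
    · simp [γ]; ring
    · have h1 : HasDerivAt (fun τ : ℝ => z - γ τ) (-(q' - q)) τ := by
        simpa [γ] using (((hasDerivAt_id τ).ofReal_comp.mul_const (q' - q)).const_add q).const_sub z
      refine ((hasDerivAt_Lam hδ _).comp τ h1.norm_sq).neg.congr_deriv ?_
      have : 0 < max (‖z - γ τ‖ ^ 2) (δ ^ 2) := by positivity
      simp only [g, Complex.reCLM_apply, Complex.div_ofReal_re, Complex.inner, inner_neg_right]
      field_simp
  · have := key (fun _ => 1) measurable_const (integrable_const _)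
    simp only [mul_one] at this
    simp [this, mm_real_ball _ hδ.le, d0]
  · have := key (fun ζ => ζ) measurable_id (Bd.id.integrable le_rfl)
    simp only [mul_comm (θ _), integral_ball_id _ hδ.le] at this
    rw [this, intervalIntegral.integral_eq_sub_of_hasDerivAt (f := fun τ => -(γ τ) ^ 2 / 2)
      (fun τ _ => ?_) (Continuous.intervalIntegrable (by fun_prop) _ _)]
    · simp [γ]; ring
    · have h1 : HasDerivAt γ (q' - q) τ := by
        simpa [γ] using ((hasDerivAt_id τ).ofReal_comp.mul_const (q' - q)).const_add q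
      refine ((h1.pow 2).neg.div_const 2).congr_deriv ?_
      field_simp
      ring

end Pool.Agent.Lib.MP_45cb44_an
end

-- part Pool.Agent.Lib.MP_45cb44_an.Spec
section

/-! Scalar spectral measures and the perturbation function. -/

namespace Pool.Agent.Lib.MP_45cb44_an

open MeasureTheory Metric Set Filter Topology InnerProductSpace ContinuousLinearMap
open scoped ENNReal NNReal Real ComplexConjugate InnerProductSpace CompactlySupported

variable {H : Type*} [NormedAddCommGroup H] [InnerProductSpace ℂ H] [CompleteSpace H]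

lemma exists_spec {N : H →L[ℂ] H} (hN : IsStarNormal N) (w : H) :
    ∃ μ : Measure ℂ, IsFiniteMeasure μ ∧
      ∀ f : ℂ → ℂ, Continuous f → ⟪w, cfc f N w⟫_ℂ = ∫ z, f z ∂μ := by
  let φ := cfcHom (R := ℂ) hN
  let c : C_c(spectrum ℂ N, ℝ) → C(spectrum ℂ N, ℂ) := fun g => ⟨fun x => (g x : ℂ), by fun_prop⟩
  let L : C_c(spectrum ℂ N, ℝ) →ₗ[ℝ] ℝ :=
    { toFun := fun g => (⟪w, φ (c g) w⟫_ℂ).re
      map_add' := fun g h => by
        have : c (g + h) = c g + c h := by ext x; simp [c]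
        simp [this]
      map_smul' := fun t g => by
        have : c (t • g) = (t : ℂ) • c g := by ext x; simp [c]
        simp [this] }
  let Λ := PositiveLinearMap.mk₀ L fun g hg => by
    let s : C(spectrum ℂ N, ℂ) := ⟨fun x => (√(g x) : ℝ), by fun_prop⟩
    have : c g = star s * s := by
      ext x
      simp [c, s, ← Complex.ofReal_mul, Real.mul_self_sqrt (hg x)]
    change 0 ≤ (⟪w, φ (c g) w⟫_ℂ).re
    rw [this, map_mul, map_star, mul_apply_eq_comp, star_eq_adjoint, adjoint_inner_right]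
    exact inner_self_nonneg (𝕜 := ℂ)
  have e : ∀ g, ⟪w, φ (c g) w⟫_ℂ = ((∫ x, g x ∂(RealRMK.rieszMeasure Λ) : ℝ) : ℂ) := fun g => by
    have h1 : star (c g) = c g := by ext x; simp [c]
    have h2 : conj ⟪w, φ (c g) w⟫_ℂ = ⟪w, φ (c g) w⟫_ℂ := by
      rw [inner_conj_symm, ← adjoint_inner_right, ← star_eq_adjoint, ← map_star, h1]
    rw [RealRMK.integral_rieszMeasure]
    exact (Complex.conj_eq_iff_re.1 h2).symm
  refine ⟨(RealRMK.rieszMeasure Λ).map Subtype.val, inferInstance, fun f hf => ?_⟩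
  let a : C_c(spectrum ℂ N, ℝ) := ⟨⟨fun x => (f x).re, by fun_prop⟩, .of_compactSpace _⟩
  let b : C_c(spectrum ℂ N, ℝ) := ⟨⟨fun x => (f x).im, by fun_prop⟩, .of_compactSpace _⟩
  have h1 : cfc f N = φ (c a + Complex.I • c b) := by
    rw [cfc_apply f N hN hf.continuousOn]
    congr 1
    ext x
    simp [c, a, b, mul_comm Complex.I]
  have i : Integrable (fun x : spectrum ℂ N => f x) (RealRMK.rieszMeasure Λ) :=
    (hf.comp continuous_subtype_val).integrable_of_hasCompactSupport (.of_compactSpace _)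
  rw [integral_map measurable_subtype_coe.aemeasurable hf.aestronglyMeasurable, h1, map_add,
    map_smul, add_apply, smul_apply, inner_add_right, inner_smul_right, e, e,
    ← integral_re_add_im i, mul_comm]
  rfl

lemma exists_G {N : H →L[ℂ] H} (hN : IsStarNormal N) (w : H) :
    ∃ G : ℂ → ℂ, Measurable G ∧ Integrable G mD ∧
      ∀ θ, Bd θ → ⟪w, cfc (CT mD θ) N w⟫_ℂ = ∫ ζ, θ ζ * G ζ ∂mD := by
  obtain ⟨μ, _, h⟩ := exists_spec hN w
  have m : Measurable fun x : ℂ × ℂ => (x.2 - x.1)⁻¹ := by fun_prop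
  have i : Integrable (fun x : ℂ × ℂ => (x.2 - x.1)⁻¹) (μ.prod mD) := by
    refine (integrable_prod_iff m.aestronglyMeasurable).2
      ⟨.of_forall fun z => integrable_inv_sub le_rfl z, (integrable_const (3 : ℝ)).mono'
        (m.norm.stronglyMeasurable.integral_prod_right' (ν := mD)).aestronglyMeasurable
        (.of_forall fun z => ?_)⟩
    rw [Real.norm_of_nonneg (integral_nonneg fun _ => norm_nonneg _)]
    simpa using (newton_D le_rfl z).2
  refine ⟨fun ζ => ∫ z, (ζ - z)⁻¹ ∂μ,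
    (m.stronglyMeasurable.integral_prod_left' (μ := μ)).measurable, i.integral_prod_right,
    fun θ hθ => ?_⟩
  obtain ⟨m1, K, -, hK⟩ := id hθ
  rw [h _ (continuous_CT le_rfl hθ)]
  simp only [CT, ← integral_const_mul]
  refine integral_integral_swap (f := fun z ζ => θ ζ * (ζ - z)⁻¹) (i.bdd_mul (c := K)
    (m1.comp measurable_snd).aestronglyMeasurable ?_)
  filter_upwards [Measure.quasiMeasurePreserving_snd.ae (ae_ball_of_le le_rfl)] with x hx
  exact hK _ hx

lemma exists_F {N : H →L[ℂ] H} (hN : IsStarNormal N) (u v : H) :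
    ∃ F : ℂ → ℂ, Measurable F ∧ Integrable F mD ∧
      ∀ θ, Bd θ → ⟪v, cfc (CT mD θ) N u⟫_ℂ = ∫ ζ, θ ζ ∂mD - ∫ ζ, θ ζ * F ζ ∂mD := by
  choose G m i h using exists_G hN
  let I := Complex.I
  refine ⟨fun ζ => 1 - (G (u + v) ζ - G (u - v) ζ - I * G (u - I • v) ζ + I * G (u + I • v) ζ) / 4,
    by fun_prop, (integrable_const 1).sub ((((i _).sub (i _)).sub ((i _).const_mul _)).add
      ((i _).const_mul _) |>.div_const 4), fun θ hθ => ?_⟩
  have j := fun w => hθ.mul_integrable le_rfl (i w)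
  have e : ∀ ζ, θ ζ * (1 - (G (u + v) ζ - G (u - v) ζ - I * G (u - I • v) ζ +
      I * G (u + I • v) ζ) / 4) = θ ζ - (θ ζ * G (u + v) ζ - θ ζ * G (u - v) ζ -
      I * (θ ζ * G (u - I • v) ζ) + I * (θ ζ * G (u + I • v) ζ)) / 4 := fun ζ => by ring
  simp only [e]
  rw [integral_sub (hθ.integrable le_rfl) (by exact ((((j _).sub (j _)).sub
      ((j _).const_mul _)).add ((j _).const_mul _)).div_const 4), integral_div,
    integral_add (by exact ((j _).sub (j _)).sub ((j _).const_mul _)) ((j _).const_mul _),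
    integral_sub (by exact (j _).sub (j _)) ((j _).const_mul _), integral_sub (j _) (j _),
    integral_const_mul, integral_const_mul, ← h _ _ hθ, ← h _ _ hθ, ← h _ _ hθ, ← h _ _ hθ]
  simp only [map_add, map_sub, map_smul, inner_add_left, inner_add_right, inner_sub_left,
    inner_sub_right, inner_smul_left, inner_smul_right, I, Complex.conj_I]
  linear_combination (⟪v, cfc (CT mD θ) N u⟫_ℂ - ⟪u, cfc (CT mD θ) N v⟫_ℂ) / 2 * Complex.I_mul_I

end Pool.Agent.Lib.MP_45cb44_an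
end

-- part Pool.Agent.Lib.MP_45cb44_an.Moment
section

/-! Moments of densities controlled by their Cauchy transforms. -/

namespace Pool.Agent.Lib.MP_45cb44_an

open MeasureTheory Metric Set Filter Topology
open scoped ENNReal NNReal Real ComplexConjugate

/-- Indicator of a disc. -/
noncomputable def chi (c : ℂ) (r : ℝ) : ℂ → ℂ := indicator (ball c r) fun _ => 1

variable {c : ℂ} {r R : ℝ}

lemma bd_chi : Bd (chi c r) := (Bd.const 1).indicator measurableSet_ball

lemma integral_chi_mul (h : ball c r ⊆ ball 0 1) (f : ℂ → ℂ) :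
    ∫ ζ, chi c r ζ * f ζ ∂mD = ∫ ζ in ball c r, f ζ ∂mm := by
  have e : mD.restrict (ball c r) = mm.restrict (ball c r) := by
    rw [mD, Measure.restrict_restrict measurableSet_ball, inter_eq_left.2 h]
  rw [← e, ← integral_indicator measurableSet_ball]
  congr 1
  ext ζ
  by_cases hζ : ζ ∈ ball c r <;> simp [chi, hζ]

lemma integral_chi (hr : 0 ≤ r) (h : ball c r ⊆ ball 0 1) : ∫ ζ, chi c r ζ ∂mD = r ^ 2 := by
  simpa [mm_real_ball c hr] using integral_chi_mul h fun _ => 1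

lemma CT_chi_in (h : ball c r ⊆ ball 0 1) {z : ℂ} (hz : ‖z - c‖ < r) :
    CT mD (chi c r) z = -conj (z - c) := (integral_chi_mul h _).trans (integral_disc_in hz)

lemma CT_chi_out (hr : 0 < r) (h : ball c r ⊆ ball 0 1) {z : ℂ} (hz : r ≤ ‖z - c‖) :
    CT mD (chi c r) z = -(r : ℂ) ^ 2 / (z - c) :=
  (integral_chi_mul h _).trans (integral_disc_out hr hz)

lemma moment {θ : ℂ → ℂ} (hθ : Bd θ) (h0 : 0 < R) (hD : ball c (2 * R) ⊆ ball 0 1)
    (hs : ∀ ζ, θ ζ ≠ 0 → ζ ∈ ball c R) {C : ℝ} (hC : 0 ≤ C)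
    (h : ∀ z ∈ ball c (2 * R) \ ball c R, ‖CT mD θ z‖ ≤ C) : ‖∫ ζ, θ ζ ∂mD‖ ≤ 3 * R * C := by
  have hD' := (ball_subset_ball (by linarith : R ≤ 2 * R)).trans hD
  have hk := (bd_chi (c := c) (r := 2 * R)).sub (bd_chi (c := c) (r := R))
  have e := CT_antisymm le_rfl le_rfl hθ ((Bd.id.sub (Bd.const c)).mul hk)
  have e1 : ∫ z, θ z * CT mD (fun ζ => (ζ - c) * (chi c (2 * R) ζ - chi c R ζ)) z ∂mD =
      (3 * R ^ 2 : ℝ) * ∫ ζ, θ ζ ∂mD := by
    rw [← integral_const_mul]
    congr 1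
    ext z
    by_cases hz : θ z = 0
    · simp [hz]
    have h1 := mem_ball_iff_norm.1 (hs z hz)
    rw [CT_mul_sub le_rfl hk, CT_sub le_rfl bd_chi bd_chi, CT_chi_in hD (by linarith),
      CT_chi_in hD' h1, integral_sub (bd_chi.integrable le_rfl) (bd_chi.integrable le_rfl),
      integral_chi (by linarith) hD, integral_chi h0.le hD']
    push_cast
    ring
  have e2 : ‖∫ z, (z - c) * (chi c (2 * R) z - chi c R z) * CT mD θ z ∂mD‖ ≤
      ∫ z, indicator (ball c (2 * R)) (fun _ => 2 * R * C) z ∂mD := by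
    refine norm_integral_le_of_norm_le ((integrable_const _).indicator measurableSet_ball)
      (.of_forall fun z => ?_)
    by_cases h1 : z ∈ ball c (2 * R)
    · by_cases h2 : z ∈ ball c R
      · simp [chi, h1, h2]
        positivity
      · simp only [chi, indicator_of_mem h1, indicator_of_notMem h2, sub_zero, mul_one, norm_mul]
        exact mul_le_mul (mem_ball_iff_norm.1 h1).le (h z ⟨h1, h2⟩) (norm_nonneg _) (by positivity)
    · have h2 : z ∉ ball c R := fun h2 => h1 (ball_subset_ball (by linarith) h2)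
      simp [chi, h1, h2]
  have e3 : mD.real (ball c (2 * R)) ≤ (2 * R) ^ 2 := by
    rw [← mm_real_ball c (by positivity)]
    exact ENNReal.toReal_mono (by simp [mm_ball c (by positivity : 0 ≤ 2 * R)]) (mD_le _)
  rw [integral_indicator measurableSet_ball, integral_const, measureReal_restrict_apply_univ,
    ← norm_neg, ← e, e1, norm_mul, Complex.norm_real, Real.norm_of_nonneg (by positivity),
    smul_eq_mul] at e2
  have := mul_le_mul_of_nonneg_right e3 (by positivity : 0 ≤ 2 * R * C)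
  refine le_of_mul_le_mul_left (e2.trans (this.trans ?_)) (by positivity : 0 < 3 * R ^ 2)
  have : 0 ≤ R ^ 3 * C := by positivity
  nlinarith

lemma shrink {ι : Type*} {l : Filter ι} (h0 : 0 < R) (hD : ball c (2 * R) ⊆ ball 0 1) (n : ℕ) :
    ∀ (Θ : ι → ℂ → ℂ) (C : ℝ) (Z : Set ℂ), 0 < C → Z.Infinite → (∀ k, Bd (Θ k)) →
      (∀ k ζ, Θ k ζ ≠ 0 → ζ ∈ ball c R) →
      (∀ z ∈ Z, 6 * R ≤ ‖z - c‖ ∧ Tendsto (fun k => CT mD (Θ k) z) l (𝓝 0)) →
      (∀ᶠ k in l, ∀ z ∈ ball c (2 * R) \ ball c R, ‖CT mD (Θ k) z‖ ≤ C) →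
      ∀ᶠ k in l, ‖∫ ζ, Θ k ζ ∂mD‖ ≤ 3 * R * C * (3 / 4) ^ n := by
  induction n with
  | zero =>
    intro Θ C Z hC _ hb hs _ h
    filter_upwards [h] with k hk
    simpa using moment (hb k) h0 hD (hs k) hC.le hk
  | succ n ih =>
    intro Θ C Z hC hZ hb hs hz h
    obtain ⟨z, h1⟩ := hZ.nonempty
    obtain ⟨h2, h3⟩ := hz z h1
    have b := fun k => (Bd.id.sub (Bd.const c)).mul (hb k)
    have d : ∀ k ζ, (ζ - c) * Θ k ζ ≠ 0 → R ≤ ‖ζ - z‖ := fun k ζ hζ => by
      have := mem_ball_iff_norm.1 (hs k ζ (right_ne_zero_of_mul hζ))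
      linarith [norm_sub_le_norm_sub_add_norm_sub z ζ c, norm_sub_rev z ζ]
    have e : ∀ k w, (w - z) * CT mD (fun ζ => (ζ - c) * Θ k ζ * (ζ - z)⁻¹) w =
        (w - c) * CT mD (Θ k) w - (z - c) * CT mD (Θ k) z := fun k w => by
      rw [CT_div_sub le_rfl (b k) h0 (d k), CT_mul_sub le_rfl (hb k), CT_mul_sub le_rfl (hb k)]
      ring
    have t : Tendsto (fun k => ‖(z - c) * CT mD (Θ k) z‖) l (𝓝 0) := by
      simpa using (h3.const_mul (z - c)).norm
    have := ih (fun k ζ => (ζ - c) * Θ k ζ * (ζ - z)⁻¹) (2 / 3 * C) (Z \ {z}) (by positivity)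
      (hZ.sdiff (finite_singleton z)) (fun k => (b k).div_sub h0 (d k))
      (fun k ζ hζ => hs k ζ (right_ne_zero_of_mul (left_ne_zero_of_mul hζ)))
      (fun w hw => ⟨(hz w hw.1).1, ?_⟩) ?_
    · filter_upwards [this, t.eventually (ge_mem_nhds
        (by positivity : 0 < R * C / 4 * (3 / 4) ^ n))] with k a1 a2
      have a3 : ∫ ζ, Θ k ζ ∂mD = ∫ ζ, (ζ - c) * Θ k ζ * (ζ - z)⁻¹ ∂mD - (z - c) * CT mD (Θ k) z := by
        rw [eq_sub_iff_add_eq', ← CT_mul_sub le_rfl (hb k)]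
        rfl
      rw [a3, pow_succ]
      linarith [norm_sub_le (∫ ζ, (ζ - c) * Θ k ζ * (ζ - z)⁻¹ ∂mD) ((z - c) * CT mD (Θ k) z)]
    · have hw' : w - z ≠ 0 := sub_ne_zero.2 hw.2
      have := (((hz w hw.1).2.const_mul (w - c)).sub (h3.const_mul (z - c))).const_mul (w - z)⁻¹
      simpa [← e, hw'] using this
    · filter_upwards [h, t.eventually (ge_mem_nhds (by positivity : 0 < 2 / 3 * R * C))]
        with k a1 a2 w hw
      have a3 := mem_ball_iff_norm.1 hw.1
      have a4 : 4 * R ≤ ‖w - z‖ := by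
        linarith [norm_sub_le_norm_sub_add_norm_sub z w c, norm_sub_rev z w]
      have a5 := (congrArg norm (e k w)).trans_le (norm_sub_le _ _)
      rw [norm_mul, norm_mul] at a5
      have a6 := mul_le_mul a3.le (a1 w hw) (norm_nonneg _) (by positivity)
      have a7 := mul_le_mul_of_nonneg_right a4
        (norm_nonneg (CT mD (fun ζ => (ζ - c) * Θ k ζ * (ζ - z)⁻¹) w))
      refine le_of_mul_le_mul_left ?_ (by positivity : 0 < 4 * R)
      linarith

end Pool.Agent.Lib.MP_45cb44_an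
end

-- part Pool.Agent.Lib.MP_45cb44_an.Taper
section

/-! Tapered chains of smoothed segments. -/

namespace Pool.Agent.Lib.MP_45cb44_an

open MeasureTheory Metric Set Filter Topology
open scoped ENNReal NNReal Real ComplexConjugate

/-- Chains of short steps, each starting at a point with property `P`, ending at `c`. -/
inductive Reach (P : ℂ → Prop) (δ : ℝ) (c : ℂ) : ℕ → ℂ → Prop
  | refl : Reach P δ c 0 c
  | step {k : ℕ} {q q' : ℂ} : P q → ‖q' - q‖ < δ → Reach P δ c k q' → Reach P δ c (k + 1) q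

/-- An odd square root profile. -/
noncomputable def gg (δ x : ℝ) : ℝ := √(max x 0 + δ) - √(max (-x) 0 + δ)

lemma gg_sub {δ x x' M : ℝ} (hδ : 0 < δ) (h : x ≤ x') (h1 : |x| ≤ M) (h2 : |x'| ≤ M) :
    (x' - x) / (2 * √(M + δ)) ≤ gg δ x' - gg δ x := by
  have hM : 0 ≤ M := (abs_nonneg _).trans h1
  have key : ∀ y y' : ℝ, 0 ≤ y → y ≤ y' → y' ≤ M →
      (y' - y) / (2 * √(M + δ)) ≤ √(y' + δ) - √(y + δ) := fun y y' a b c => by
    rw [div_le_iff₀ (by positivity)]
    have e1 := Real.sq_sqrt (show 0 ≤ y + δ by linarith)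
    have e2 := Real.sq_sqrt (show 0 ≤ y' + δ by linarith)
    have l1 := Real.sqrt_le_sqrt (show y + δ ≤ y' + δ by linarith)
    have l2 := Real.sqrt_le_sqrt (show y' + δ ≤ M + δ by linarith)
    nlinarith
  have a := key (max x 0) (max x' 0) (le_max_right _ _) (max_le_max h le_rfl)
    (max_le (le_of_abs_le h2) hM)
  have b := key (max (-x') 0) (max (-x) 0) (le_max_right _ _) (max_le_max (by linarith) le_rfl)
    (max_le (by linarith [neg_abs_le x]) hM)
  have e : x' - x = (max x' 0 - max x 0) + (max (-x) 0 - max (-x') 0) := by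
    linarith [max_zero_sub_max_neg_zero_eq_self x, max_zero_sub_max_neg_zero_eq_self x']
  rw [e, add_div, gg, gg]
  linarith

lemma gg_mono {δ x x' : ℝ} (hδ : 0 < δ) (h : x ≤ x') : gg δ x ≤ gg δ x' := by
  have := gg_sub hδ h (le_max_left |x| |x'|) (le_max_right _ _)
  have : 0 ≤ (x' - x) / (2 * √(max |x| |x'| + δ)) := div_nonneg (by linarith) (by positivity)
  linarith

/-- The error potential. -/
noncomputable def Ps (δ s t : ℝ) : ℝ := 56 * gg δ (min t (5 * s) - s) / √s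

lemma Ps_mono {δ s t t' : ℝ} (hδ : 0 < δ) (h : t ≤ t') : Ps δ s t ≤ Ps δ s t' := by
  have := gg_mono hδ (sub_le_sub_right (min_le_min_right (5 * s) h) s)
  unfold Ps
  gcongr

lemma Ps_range {δ s t t' : ℝ} (hδ : 0 < δ) (hs : 0 ≤ s) (ht : 0 ≤ t) :
    Ps δ s t' - Ps δ s t ≤ 168 := by
  have a := gg_mono hδ (show min t' (5 * s) - s ≤ 4 * s by linarith [min_le_right t' (5 * s)])
  have b := gg_mono hδ (show -s ≤ min t (5 * s) - s by linarith [le_min ht (show 0 ≤ 5 * s by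
    positivity)])
  have sq : ∀ y, 0 ≤ y → √(y ^ 2 + δ) ≤ y + √δ := fun y hy =>
    Real.sqrt_le_iff.2 ⟨by positivity, by nlinarith [Real.sq_sqrt hδ.le, Real.sqrt_nonneg δ]⟩
  have c := sq (2 * √s) (by positivity)
  have d := sq √s (by positivity)
  rw [mul_pow, Real.sq_sqrt hs] at c
  rw [Real.sq_sqrt hs] at d
  have e1 : gg δ (4 * s) = √(2 ^ 2 * s + δ) - √δ := by
    rw [gg, max_eq_left (by positivity), max_eq_right (by linarith)]; norm_num
  have e2 : gg δ (-s) = √δ - √(s + δ) := by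
    rw [gg, max_eq_right (by linarith), neg_neg, max_eq_left hs, zero_add]
  rw [Ps, Ps, ← sub_div]
  exact div_le_of_le_mul₀ (by positivity) (by norm_num) (by linarith)

lemma step_ineq {δ G t t' s y : ℝ} (hδ : 0 < δ) (hG : δ ≤ G) (h1 : 4 * G ≤ t) (h2 : t ≤ t')
    (h3 : t' ≤ t + δ) (hs : 0 ≤ s) (hy : 0 ≤ y) (h4 : |s - t| - δ ≤ y) :
    Real.log (t' / t) * (Real.log (s + G) - Lam δ (y ^ 2)) ≤ Ps δ s t' - Ps δ s t := by
  have t0 : 0 < t := by linarith
  have l0 : 0 ≤ Real.log (t' / t) := Real.log_nonneg ((one_le_div t0).2 h2)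
  have l1 : Real.log (t' / t) ≤ (t' - t) / t := by
    rw [sub_div, div_self t0.ne']; exact Real.log_le_sub_one_of_pos (div_pos (by linarith) t0)
  rcases le_or_gt (4 * s) t with h | h
  · have a : s + G ≤ y := by linarith [neg_abs_le (s - t), neg_le_abs (s - t)]
    rw [Lam_out hδ (by linarith)]
    have := Real.log_le_log (by linarith) a
    have := mul_nonpos_of_nonneg_of_nonpos l0 (sub_nonpos.2 this)
    linarith [Ps_mono (s := s) hδ h2]
  have s0 : 0 < s := by linarith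
  have r := gg_sub hδ (show t - s ≤ t' - s by linarith) (M := |s - t| + δ)
    (by rw [abs_sub_comm]; linarith) (by
      rw [abs_le]; constructor <;> linarith [le_abs_self (s - t), neg_le_abs (s - t)])
  have W0 : 0 < |s - t| + δ + δ := by positivity
  obtain ⟨a, a0, rfl⟩ : ∃ a : ℝ, 0 < a ∧ s = a ^ 2 := ⟨√s, by positivity, (Real.sq_sqrt hs).symm⟩
  obtain ⟨b, b0, hb⟩ : ∃ b : ℝ, 0 < b ∧ |a ^ 2 - t| + δ + δ = b ^ 2 :=
    ⟨_, Real.sqrt_pos.2 W0, (Real.sq_sqrt W0.le).symm⟩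
  rw [hb, Real.sqrt_sq b0.le] at r
  have key : Real.log (a ^ 2 + G) - Lam δ (y ^ 2) ≤ 28 * t / (a * b) := by
    rcases le_or_gt t (a ^ 2 / 4) with h5 | h5
    · rw [abs_of_nonneg (by linarith)] at h4 hb
      have y0 : a ^ 2 / 2 ≤ y := by linarith
      have y1 : 0 < y := by linarith
      have hba : b ≤ 2 * a := by nlinarith
      rw [Lam_out hδ (by linarith), ← Real.log_div (by linarith) y1.ne']
      refine (Real.log_le_sub_one_of_pos (div_pos (by linarith) y1)).trans ?_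
      rw [div_sub_one y1.ne', div_le_div_iff₀ y1 (by positivity)]
      have : (a ^ 2 + G - y) * (a * b) ≤ 2 * t * (a * (2 * a)) :=
        mul_le_mul (by linarith) (by gcongr) (by positivity) (by positivity)
      nlinarith
    · have m : b ^ 2 / 4 ≤ max y δ := by
        rcases le_total (|a ^ 2 - t|) (2 * δ) with h6 | h6
        · exact le_max_of_le_right (by linarith)
        · exact le_max_of_le_left (by linarith)
      have c1 := Real.log_le_log (by positivity) m
      have c2 := le_Lam hδ hy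
      have c3 := Real.log_le_log (by linarith) (show a ^ 2 + G ≤ (3 * a / b) ^ 2 * (b ^ 2 / 4) by
        field_simp; linarith)
      rw [Real.log_mul (by positivity) (by positivity), Real.log_pow] at c3
      have c4 := Real.log_le_sub_one_of_pos (show 0 < 3 * a / b by positivity)
      have c5 : 2 * (3 * a / b) ≤ 28 * t / (a * b) := by
        rw [le_div_iff₀ (by positivity)]; field_simp; linarith
      push_cast at c3
      linarith
  rw [Ps, Ps, min_eq_left (by linarith), min_eq_left (by linarith), Real.sqrt_sq a0.le, ← sub_div,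
    ← mul_sub]
  refine (mul_le_mul_of_nonneg_left key l0).trans ((mul_le_mul_of_nonneg_right l1
    (by positivity)).trans (le_trans (le_of_eq ?_) (div_le_div_of_nonneg_right
    (mul_le_mul_of_nonneg_left r (by norm_num)) a0.le)))
  field_simp
  ring

lemma Bd.integrable_norm_mul {θ : ℂ → ℂ} (h : Bd θ) {f : ℂ → ℝ} (hf : Integrable f mD) :
    Integrable (fun ζ => ‖θ ζ‖ * f ζ) mD := by
  obtain ⟨m, K, -, hb⟩ := h
  refine hf.bdd_mul (c := K) m.norm.aestronglyMeasurable ?_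
  filter_upwards [ae_ball_of_le le_rfl] with z hz using by simpa using hb z hz

lemma exists_taper {P : ℂ → Prop} {δ G A τ : ℝ} {c : ℂ} {S : Set ℂ} {f : ℂ → ℝ}
    (hf : Integrable f mD) (f0 : ∀ z, 0 ≤ f z) (hδ : 0 < δ) (hG : δ ≤ G) (hA : 4 * G < A)
    (hS : S ⊆ ball 0 1) (hc : ‖c‖ ≤ 1)
    (hP : ∀ q, P q → ball q (2 * δ) ⊆ S ∧ ∫ ζ in ball q (2 * δ), f ζ ∂mD ≤ τ) {k : ℕ} {q : ℂ}
    (h : Reach P δ c k q) : ∃ (θ : ℂ → ℂ) (x : ℝ), Bd θ ∧ (∀ ζ, θ ζ ≠ 0 → ζ ∈ S) ∧
      ∫ ζ, ‖θ ζ‖ * f ζ ∂mD ≤ k * (τ / δ) ∧ ‖q‖ ≤ 1 ∧ 0 ≤ x ∧ x ≤ 1 ∧ (x < 1 → ‖q - c‖ ≤ A) ∧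
      (∀ z, (CT mD θ z).re ≤ x * (Lam δ (‖z - q‖ ^ 2) - Real.log (‖z - c‖ + G)) +
        168 / Real.log (A / (4 * G))) ∧
      ‖∫ ζ, θ ζ ∂mD - x * (q - c)‖ ≤ x * A ∧
      ‖∫ ζ, ζ * θ ζ ∂mD - x * ((q ^ 2 - c ^ 2) / 2)‖ ≤ x * A := by
  have G0 : 0 < G := hδ.trans_le hG
  set L := Real.log (A / (4 * G)) with hL
  have L0 : 0 < L := Real.log_pos ((one_lt_div (by positivity)).2 hA)
  let cl : ℝ → ℝ := fun r => max (4 * G) (min r A)
  let χ : ℝ → ℝ := fun r => Real.log (cl r / (4 * G)) / L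
  have cl0 : ∀ r, 4 * G ≤ cl r := fun r => le_max_left _ _
  have χ0 : ∀ r, 0 ≤ χ r := fun r =>
    div_nonneg (Real.log_nonneg ((one_le_div (by positivity)).2 (cl0 r))) L0.le
  have χ1 : ∀ r, χ r ≤ 1 := fun r => (div_le_one L0).2 (Real.log_le_log
    (div_pos (by linarith [cl0 r]) (by positivity))
    (div_le_div_of_nonneg_right (max_le hA.le (min_le_right _ _)) (by positivity)))
  have χ2 : ∀ r, χ r < 1 → r ≤ A := fun r hr => by
    by_contra! h1
    simp only [χ, cl, min_eq_right h1.le, max_eq_right hA.le, ← hL, div_self L0.ne'] at hr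
    exact lt_irrefl _ hr
  suffices H : ∃ (θ : ℂ → ℂ) (r : ℝ), Bd θ ∧ (∀ ζ, θ ζ ≠ 0 → ζ ∈ S) ∧
      ∫ ζ, ‖θ ζ‖ * f ζ ∂mD ≤ k * (τ / δ) ∧ ‖q‖ ≤ 1 ∧ ‖q - c‖ ≤ r ∧
      (∀ z, (CT mD θ z).re ≤ χ r * (Lam δ (‖z - q‖ ^ 2) - Real.log (‖z - c‖ + G)) +
        (Ps δ ‖z - c‖ (cl r) - Ps δ ‖z - c‖ (4 * G)) / L) ∧
      ‖∫ ζ, θ ζ ∂mD - χ r * (q - c)‖ ≤ χ r * A ∧
      ‖∫ ζ, ζ * θ ζ ∂mD - χ r * ((q ^ 2 - c ^ 2) / 2)‖ ≤ χ r * A by
    obtain ⟨θ, r, a1, a2, a3, a4, a5, a6, a7, a8⟩ := H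
    refine ⟨θ, χ r, a1, a2, a3, a4, χ0 r, χ1 r, fun hx => a5.trans (χ2 r hx), fun z =>
      (a6 z).trans (add_le_add le_rfl ?_), a7, a8⟩
    exact div_le_div_of_nonneg_right (Ps_range hδ (norm_nonneg _) (by positivity)) L0.le
  induction h with
  | refl =>
    have e : cl 0 = 4 * G := max_eq_left ((min_le_left _ _).trans (by positivity))
    have e1 : χ 0 = 0 := by simp [χ, e]
    exact ⟨fun _ => 0, 0, Bd.const 0, by simp, by simp, hc, by simp, by simp [e, e1, CT],
      by simp [e1], by simp [e1]⟩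
  | @step k q q' hq hd _ ih =>
    obtain ⟨θ, r, a1, a2, a3, a4, a5, a6, a7, a8⟩ := ih
    obtain ⟨p1, p2⟩ := hP q hq
    obtain ⟨σ, b1, b2, b3, b4, b5, b6⟩ := exists_seg hδ hd (p1.trans hS)
    have n1 : ‖q‖ ≤ 1 := (mem_ball_zero_iff.1 (hS (p1 (mem_ball_self (by positivity))))).le
    set r' := max r ‖q - c‖
    have r1 : r ≤ r' := le_max_left _ _
    have tri := norm_sub_le_norm_sub_add_norm_sub q q' c
    rw [norm_sub_rev q q'] at tri
    have r2 : r' ≤ r + δ := max_le (by linarith) (by linarith)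
    have c1 : cl r ≤ cl r' := max_le_max le_rfl (min_le_min_right _ r1)
    have d : χ r' - χ r = Real.log (cl r' / cl r) / L := by
      have := cl0 r
      have := cl0 r'
      simp only [χ]
      rw [← sub_div, ← Real.log_div (by positivity) (by positivity),
        div_div_div_cancel_right₀ (by positivity)]
    have d0 : 0 ≤ χ r' - χ r := d ▸ div_nonneg (Real.log_nonneg ((one_le_div
      (by linarith [cl0 r])).2 c1)) L0.le
    have d1 : (χ r' - χ r) * ‖q' - c‖ ≤ (χ r' - χ r) * A := by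
      rcases d0.eq_or_lt with h0 | h0
      · simp [← h0]
      · exact mul_le_mul_of_nonneg_left (a5.trans (χ2 r (by linarith [χ1 r']))) d0
    have bs := (Bd.const (χ r' : ℂ)).mul b1
    refine ⟨fun ζ => θ ζ + χ r' * σ ζ, r', a1.add bs, fun ζ hζ => ?_, ?_, n1, le_max_right _ _,
      fun z => ?_, ?_, ?_⟩
    · by_contra h0
      have e1 : θ ζ = 0 := by_contra fun e => h0 (a2 ζ e)
      have e2 : σ ζ = 0 := by_contra fun e => h0 (p1 (b2 ζ e))
      simp [e1, e2] at hζ
    · have i := (hf.indicator (measurableSet_ball (x := q) (ε := 2 * δ))).div_const δ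
      refine (integral_mono ((a1.add bs).integrable_norm_mul hf)
        ((a1.integrable_norm_mul hf).add i) fun ζ => ?_).trans ?_
      · have : ‖(χ r' : ℂ) * σ ζ‖ * f ζ ≤ indicator (ball q (2 * δ)) f ζ / δ := by
          by_cases h0 : σ ζ = 0
          · simp only [h0, mul_zero, norm_zero, zero_mul]
            exact div_nonneg (indicator_nonneg (fun z _ => f0 z) _) hδ.le
          · rw [indicator_of_mem (b2 ζ h0), div_eq_inv_mul, norm_mul, Complex.norm_real,
              Real.norm_of_nonneg (χ0 _)]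
            exact mul_le_mul_of_nonneg_right ((mul_le_of_le_one_left (norm_nonneg _) (χ1 _)).trans
              (b3 ζ)) (f0 ζ)
        have := mul_le_mul_of_nonneg_right (norm_add_le (θ ζ) (χ r' * σ ζ)) (f0 ζ)
        simp only [Pi.add_apply]
        linarith
      · rw [integral_add' (a1.integrable_norm_mul hf) i, integral_div,
          integral_indicator measurableSet_ball]
        have := div_le_div_of_nonneg_right p2 hδ.le
        push_cast
        linarith
    · have key : (χ r' - χ r) * (Real.log (‖z - c‖ + G) - Lam δ (‖z - q'‖ ^ 2)) ≤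
          (Ps δ ‖z - c‖ (cl r') - Ps δ ‖z - c‖ (cl r)) / L := by
        rcases c1.eq_or_lt with h0 | h0
        · simp [d, h0]
        have e1 : r' = ‖q - c‖ := by
          rcases max_choice r ‖q - c‖ with h1 | h1
          · simp only [r', h1] at h0; exact absurd h0 (lt_irrefl _)
          · exact h1
        have e2 : r ≤ cl r ∧ cl r' ≤ r' := by
          simp only [cl] at h0 ⊢
          constructor
          · rcases le_total r A with h1 | h1
            · rw [min_eq_left h1]; exact le_max_right _ _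
            · rw [min_eq_right h1, min_eq_right (h1.trans r1)] at h0; exact absurd h0 (lt_irrefl _)
          · exact max_le (((lt_max_iff.1 h0).resolve_left (not_lt.2 (le_max_left _ _))).le.trans'
              (le_max_left _ _) |>.trans (min_le_left _ _)) (min_le_left _ _)
        rw [d, div_mul_eq_mul_div]
        refine div_le_div_of_nonneg_right (step_ineq hδ hG (cl0 r) c1 (by linarith [e2.1, e2.2])
          (norm_nonneg _) (norm_nonneg _) ?_) L0.le
        have t1 := norm_sub_le_norm_sub_add_norm_sub z q' c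
        have t2 := norm_sub_le_norm_sub_add_norm_sub q' z c
        rw [norm_sub_rev q' z] at t2
        rw [sub_le_iff_le_add, abs_le]
        constructor <;> linarith [e2.1, e2.2]
      rw [CT_add le_rfl a1 bs, CT_const_mul, Complex.add_re, Complex.re_ofReal_mul, b4]
      have := a6 z
      simp only [sub_div] at key this ⊢
      linarith
    · rw [integral_add (a1.integrable le_rfl) (bs.integrable le_rfl), integral_const_mul, b5,
        show ∀ I : ℂ, I + χ r' * (q - q') - χ r' * (q - c) =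
          I - χ r * (q' - c) - ((χ r' - χ r : ℝ) : ℂ) * (q' - c) by intro I; push_cast; ring]
      refine (norm_sub_le _ _).trans ?_
      rw [norm_mul, Complex.norm_real, Real.norm_of_nonneg d0]
      linarith
    · simp only [mul_add, mul_left_comm _ (χ r' : ℂ)]
      rw [integral_add ((Bd.id.mul a1).integrable le_rfl)
        (((Bd.id.mul b1).integrable le_rfl).const_mul _), integral_const_mul, b6,
        show ∀ I : ℂ, I + χ r' * ((q ^ 2 - q' ^ 2) / 2) - χ r' * ((q ^ 2 - c ^ 2) / 2) =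
          I - χ r * ((q' ^ 2 - c ^ 2) / 2) - ((χ r' - χ r : ℝ) : ℂ) * ((q' - c) * ((q' + c) / 2)) by
          intro I; push_cast; ring]
      refine (norm_sub_le _ _).trans ?_
      have : ‖(q' + c) / 2‖ ≤ 1 := by
        rw [norm_div, Complex.norm_two]; linarith [norm_add_le q' c]
      rw [norm_mul, norm_mul, Complex.norm_real, Real.norm_of_nonneg d0]
      have := mul_le_mul_of_nonneg_left (mul_le_of_le_one_right (norm_nonneg (q' - c)) this) d0
      linarith

lemma Reach.mono {P Q : ℂ → Prop} {δ : ℝ} {c q : ℂ} {k : ℕ} (h : Reach P δ c k q)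
    (hPQ : ∀ z, P z → Q z) : Reach Q δ c k q := by
  induction h with
  | refl => exact .refl
  | step h1 h2 _ ih => exact .step (hPQ _ h1) h2 ih

lemma Reach.snoc {P : ℂ → Prop} {δ : ℝ} {c c' q : ℂ} {k : ℕ} (h : Reach P δ c k q) (hc : P c)
    (hd : ‖c' - c‖ < δ) : Reach P δ c' (k + 1) q := by
  induction h with
  | refl => exact .step hc hd .refl
  | step h1 h2 _ ih => exact .step h1 h2 ih

lemma Reach.short {ι : Type} [DecidableEq ι] {δ : ℝ} (hδ : 0 < δ) {c : ℂ} (e : ℂ → ι)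
    (he : ∀ z w, e z = e w → ‖w - z‖ < δ) (s : Finset ι) : ∀ {P : ℂ → Prop} {k : ℕ} {q : ℂ},
    (∀ z, P z → e z ∈ s) → Reach P δ c k q → ∃ k' ≤ 2 * s.card, Reach P δ c k' q := by
  induction s using Finset.strongInduction with
  | H s ih =>
    intro P k q hs h
    cases h with
    | refl => exact ⟨0, by simp, .refl⟩
    | @step k q q' hq hd h =>
      have key : ∀ {k w}, Reach P δ c k w → (∃ k, Reach (fun z => P z ∧ e z ≠ e q) δ c k w) ∨
          ∃ a b k, P a ∧ e a = e q ∧ ‖b - a‖ < δ ∧ Reach (fun z => P z ∧ e z ≠ e q) δ c k b := by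
        intro k w hw
        induction hw with
        | refl => exact Or.inl ⟨0, .refl⟩
        | @step k a b h1 h2 _ ih =>
          rcases ih with ⟨k, ih⟩ | ih
          · by_cases h3 : e a = e q
            · exact Or.inr ⟨a, b, k, h1, h3, h2, ih⟩
            · exact Or.inl ⟨_, .step ⟨h1, h3⟩ h2 ih⟩
          · exact Or.inr ih
      have red : ∀ {k w}, Reach (fun z => P z ∧ e z ≠ e q) δ c k w →
          ∃ k', k' + 2 ≤ 2 * s.card ∧ Reach P δ c k' w := fun hw => by
        obtain ⟨k', h1, h2⟩ := ih _ (Finset.erase_ssubset (hs q hq))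
          (fun z hz => Finset.mem_erase.2 ⟨hz.2, hs z hz.1⟩) hw
        have := Finset.card_erase_add_one (hs q hq)
        exact ⟨k', by omega, h2.mono fun z hz => hz.1⟩
      rcases key h with ⟨k, h1⟩ | ⟨a, b, k, h1, h2, h3, h4⟩
      · obtain ⟨k', h5, h6⟩ := red h1
        exact ⟨_, by omega, .step hq hd h6⟩
      · obtain ⟨k', h5, h6⟩ := red h4
        exact ⟨_, h5, .step hq (he _ _ h2.symm) (.step h1 h3 h6)⟩

lemma Reach.short' {P : ℂ → Prop} {δ : ℝ} (hδ : 0 < δ) (h1 : δ ≤ 1) {c q : ℂ} {k : ℕ}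
    (hP : ∀ z, P z → ‖z‖ ≤ 1) (h : Reach P δ c k q) :
    ∃ k' : ℕ, (k' : ℝ) ≤ 200 / δ ^ 2 ∧ Reach P δ c k' q := by
  let M : ℕ := ⌈2 / δ⌉₊
  have hM : (M : ℝ) ≤ 3 / δ := by
    have := Nat.ceil_lt_add_one (show 0 ≤ 2 / δ by positivity)
    have : 1 ≤ 1 / δ := (one_le_div hδ).2 h1
    have : 3 / δ = 2 / δ + 1 / δ := by ring
    simp only [M]
    linarith
  have fl : ∀ x y : ℝ, ⌊x * (2 / δ)⌋ = ⌊y * (2 / δ)⌋ → |y - x| < δ / 2 := fun x y h => by
    have := Int.abs_sub_lt_one_of_floor_eq_floor h.symm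
    rw [← sub_mul, abs_mul, abs_of_pos (by positivity : 0 < 2 / δ), ← lt_div_iff₀ (by positivity)]
      at this
    simpa using this
  have mem : ∀ x : ℝ, |x| ≤ 1 → ⌊x * (2 / δ)⌋ ∈ Finset.Icc (-(M : ℤ)) M := fun x hx => by
    have a := Nat.le_ceil (2 / δ)
    have b := abs_le.1 ((abs_mul x (2 / δ)).le.trans (mul_le_of_le_one_left (abs_nonneg _) hx))
    rw [abs_of_pos (by positivity : 0 < 2 / δ)] at b
    refine Finset.mem_Icc.2 ⟨Int.le_floor.2 (by push_cast; linarith [b.1]), ?_⟩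
    have := (Int.floor_le _).trans (b.2.trans a)
    exact_mod_cast this
  obtain ⟨k', a1, a2⟩ := Reach.short hδ (fun z => (⌊z.re * (2 / δ)⌋, ⌊z.im * (2 / δ)⌋))
    (fun z w e => by
      have := Complex.norm_le_abs_re_add_abs_im (w - z)
      simp only [Complex.sub_re, Complex.sub_im] at this
      linarith [fl _ _ (Prod.ext_iff.1 e).1, fl _ _ (Prod.ext_iff.1 e).2])
    (Finset.Icc (-(M : ℤ)) M ×ˢ Finset.Icc (-(M : ℤ)) M) (fun z hz => Finset.mem_product.2
      ⟨mem _ ((Complex.abs_re_le_norm z).trans (hP z hz)),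
        mem _ ((Complex.abs_im_le_norm z).trans (hP z hz))⟩) h
  refine ⟨k', ?_, a2⟩
  rw [Finset.card_product, Int.card_Icc, show ((M : ℤ) + 1 - -M).toNat = 2 * M + 1 by omega] at a1
  have a3 : (k' : ℝ) ≤ 2 * ((2 * M + 1) * (2 * M + 1)) := by exact_mod_cast a1
  have a4 : (2 * M + 1 : ℝ) ≤ 7 / δ := by
    have : 1 ≤ 1 / δ := (one_le_div hδ).2 h1
    have : 7 / δ = 2 * (3 / δ) + 1 / δ := by ring
    linarith
  have a5 := mul_le_mul a4 a4 (by positivity) (by positivity)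
  have : 200 / δ ^ 2 = 2 * (7 / δ * (7 / δ)) + 102 / δ ^ 2 := by ring
  have : 0 ≤ 102 / δ ^ 2 := by positivity
  linarith

end Pool.Agent.Lib.MP_45cb44_an
end

-- part Pool.Agent.Lib.MP_45cb44_an.Route
section

/-! Barriers and routes. -/

namespace Pool.Agent.Lib.MP_45cb44_an

open MeasureTheory Metric Set Filter Topology
open scoped ENNReal NNReal Real ComplexConjugate

/-- A rapidly decreasing sequence of scales. -/
structure Lev (R : ℝ) (A κ : ℕ → ℝ) : Prop where
  pos : ∀ n, 0 < A n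
  zero : A 0 ≤ R ^ 2 / 1000
  succ : ∀ n, A (n + 1) ≤ A n / 100
  pow : ∀ n, 12 * A n ^ 9 ≤ A (n + 1) ^ 8
  κ0 : ∀ n, 0 ≤ κ n
  κs : ∀ n, κ (n + 1) + 168 / Real.log (A n / (4 * (3 * A (n + 1)))) ≤ κ n

lemma exists_lev {R : ℝ} (hR : 0 < R) : ∃ A κ, Lev R A κ := by
  obtain ⟨a, a0, a1⟩ : ∃ a : ℝ, 1600 ≤ a ∧ Real.exp (-a) ≤ R ^ 2 / 1000 :=
    ((eventually_ge_atTop 1600).and (Real.tendsto_exp_neg_atTop_nhds_zero.eventually
      (ge_mem_nhds (by positivity)))).exists
  have h : ∀ n : ℕ, 1600 ≤ a * (17 / 16) ^ n := fun n =>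
    a0.trans (le_mul_of_one_le_right (by linarith) (one_le_pow₀ (by norm_num)))
  have e : ∀ x y c : ℝ, x + c ≤ y → c * Real.exp x ≤ Real.exp y := fun x y c hc => by
    refine le_trans ?_ (Real.exp_le_exp.2 hc)
    rw [Real.exp_add, mul_comm]
    exact mul_le_mul_of_nonneg_left (by linarith [Real.add_one_le_exp c]) (Real.exp_pos _).le
  refine ⟨fun n => Real.exp (-(a * (17 / 16) ^ n)), fun n => 17 * 32 * 168 / (a * (17 / 16) ^ n),
    fun _ => Real.exp_pos _, by simpa using a1, fun n => ?_, fun n => ?_, fun n => by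
      have := h n; positivity, fun n => ?_⟩
  all_goals
    have := h n
    simp only [pow_succ (17 / 16 : ℝ), ← mul_assoc a]
    generalize a * (17 / 16) ^ n = x at *
  · rw [le_div_iff₀' (by norm_num)]
    exact e _ _ _ (by linarith)
  · rw [← Real.exp_nat_mul, ← Real.exp_nat_mul]
    exact e _ _ _ (by push_cast; linarith)
  · have h1 : x / 32 ≤ Real.log (Real.exp (-x) / (4 * (3 * Real.exp (-(x * (17 / 16)))))) := by
      rw [Real.le_log_iff_exp_le (by positivity), le_div_iff₀ (by positivity),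
        show ∀ s t : ℝ, s * (4 * (3 * t)) = 12 * (s * t) by intros; ring, ← Real.exp_add]
      exact e _ _ _ (by linarith)
    refine (add_le_add le_rfl (div_le_div_of_nonneg_left (by norm_num) (by positivity) h1)).trans_eq ?_
    field_simp
    norm_num

lemma Reach.last {P : ℂ → Prop} {δ : ℝ} {c q : ℂ} {k : ℕ} (h : Reach P δ c k q) :
    q = c ∨ ∃ p k, P p ∧ ‖c - p‖ < δ ∧ Reach P δ p k q := by
  induction h with
  | refl => exact Or.inl rfl
  | @step k q q' h1 h2 _ ih =>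
    rcases ih with rfl | ⟨p, k, h3, h4, h5⟩
    · exact Or.inr ⟨q, 0, h1, h2, .refl⟩
    · exact Or.inr ⟨p, _, h3, h4, .step h1 h2 h5⟩

/-- Light points at level `n`. -/
def Light (f : ℂ → ℝ) (c : ℂ) (R ε : ℝ) (A : ℕ → ℝ) (n : ℕ) (q : ℂ) : Prop :=
  ‖q - c‖ < 3 * R / 4 ∧ ∫ ζ in ball q (2 * A (n + 1) ^ 2), f ζ ∂mD ≤ ε * A (n + 1) ^ 8

/-- The increasing sequence of regions. -/
def UU (f : ℂ → ℝ) (c : ℂ) (R ε : ℝ) (A : ℕ → ℝ) : ℕ → Set ℂ
  | 0 => ball c (R / 4)
  | n + 1 => {z | ∃ q ∈ thickening (A n) (UU f c R ε A n), ∃ k,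
      Reach (Light f c R ε A n) (A (n + 1) ^ 2) z k q}

variable {f : ℂ → ℝ} {c : ℂ} {R ε : ℝ} {A κ : ℕ → ℝ}

lemma thick_UU (n : ℕ) : thickening (A n) (UU f c R ε A n) ⊆ UU f c R ε A (n + 1) :=
  fun z hz => ⟨z, hz, 0, .refl⟩

lemma isOpen_UU (n : ℕ) : IsOpen (UU f c R ε A (n + 1)) := by
  refine isOpen_iff_mem_nhds.2 ?_
  rintro z ⟨q, hq, k, h⟩
  rcases h.last with rfl | ⟨p, k, h1, h2, h3⟩
  · exact mem_of_superset (isOpen_thickening.mem_nhds hq) (thick_UU n)
  · filter_upwards [isOpen_ball.mem_nhds (mem_ball_iff_norm.2 h2)] with w hw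
    exact ⟨q, hq, _, h3.snoc h1 (mem_ball_iff_norm.1 hw)⟩

lemma Lev.small (l : Lev R A κ) (h0 : 0 < R) (h1 : R ≤ 1 / 2) (n : ℕ) : A n ≤ R / 1000 := by
  induction n with
  | zero => nlinarith [l.zero]
  | succ n ih => linarith [l.succ n, l.pos n]

lemma Lev.sq_le (l : Lev R A κ) (h0 : 0 < R) (h1 : R ≤ 1 / 2) (n : ℕ) : A n ^ 2 ≤ A n / 1000 := by
  nlinarith [l.small h0 h1 n, l.pos n]

lemma Lev.hole (l : Lev R A κ) (n : ℕ) : ball c (R / 4) ⊆ UU f c R ε A n := by
  induction n with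
  | zero => rfl
  | succ n ih => exact (ih.trans (self_subset_thickening (l.pos n) _)).trans (thick_UU n)

lemma Lev.sub (l : Lev R A κ) (h0 : 0 < R) (h1 : R ≤ 1 / 2) (n : ℕ) :
    UU f c R ε A n ⊆ ball c (R - 2 * A n) := by
  induction n with
  | zero => exact ball_subset_ball (by linarith [l.small h0 h1 0])
  | succ n ih =>
    rintro z ⟨q, hq, k, h⟩
    have := l.succ n
    have := l.pos n
    rw [mem_ball_iff_norm]
    rcases h.last with rfl | ⟨p, k, h2, h3, -⟩
    · obtain ⟨w, hw, h4⟩ := mem_thickening_iff.1 hq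
      rw [dist_eq_norm] at h4
      linarith [mem_ball_iff_norm.1 (ih hw), norm_sub_le_norm_sub_add_norm_sub q w c]
    · linarith [h2.1, norm_sub_le_norm_sub_add_norm_sub z p c, l.small h0 h1 (n + 1),
        l.sq_le h0 h1 (n + 1)]

lemma Lev.barrier (l : Lev R A κ) (h0 : 0 < R) (h1 : R ≤ 1 / 2) (hD : ball c (2 * R) ⊆ ball 0 1)
    (hf : Integrable f mD) (f0 : ∀ z, 0 ≤ f z) (hε : 0 < ε)
    (hU : ∀ n, UU f c R ε A n ⊆ ball c (3 * R / 4)) {φ : ℂ → ℂ} (hφ : Bd φ)
    (hd : DifferentiableOn ℂ φ (ball c (2 * R))) :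
    ‖φ c‖ ≤ 2 / (ε * A 1 ^ 8) * ∫ ζ in ball c R \ ball c (R / 4), ‖φ ζ‖ * f ζ ∂mD := by
  set I := ∫ ζ in ball c R \ ball c (R / 4), ‖φ ζ‖ * f ζ ∂mD
  have i := hφ.integrable_norm_mul hf
  have I0 : 0 ≤ I := integral_nonneg fun z => mul_nonneg (norm_nonneg _) (f0 z)
  obtain ⟨-, M, M0, hM⟩ := id hφ
  have s1 : ball c (3 * R / 4) ⊆ ball c (2 * R) := ball_subset_ball (by linarith)
  have key : ∀ j n : ℕ, ∀ z ∈ UU f c R ε A (n + 1),
      ‖φ z‖ ≤ 2 / (ε * A (n + 1) ^ 8) * I + M * (1 / 2) ^ j := by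
    intro j
    induction j with
    | zero =>
      intro n z hz
      have := l.pos (n + 1)
      simpa using le_add_of_nonneg_of_le (by positivity) (hM z (hD (s1 (hU _ hz))))
    | succ j ih =>
      intro n z hz
      have A0 := l.pos (n + 1)
      have A1 := l.pos (n + 2)
      have A2 := l.sq_le h0 h1 (n + 1)
      have A3 := l.small h0 h1 (n + 1)
      refine Complex.norm_le_of_forall_mem_frontier_norm_le (isBounded_ball.subset (hU (n + 1)))
        (hd.mono ((closure_mono (hU _)).trans (closure_ball_subset_closedBall.trans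
          (closedBall_subset_ball (by linarith))))).diffContOnCl (fun ζ hζ => ?_) (subset_closure hz)
      rw [(isOpen_UU n).frontier_eq] at hζ
      obtain ⟨q, hq, h2⟩ := Metric.mem_closure_iff.1 hζ.1 (A (n + 1) ^ 2) (by positivity)
      rw [dist_eq_norm] at h2
      have hv : ε * A (n + 1) ^ 8 ≤ ∫ w in ball q (2 * A (n + 1) ^ 2), f w ∂mD := by
        by_contra! h3
        obtain ⟨p, hp, k, h4⟩ := id hq
        exact hζ.2 ⟨p, hp, _, h4.snoc ⟨mem_ball_iff_norm.1 (hU _ hq), h3.le⟩ h2⟩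
      have s2 : ball ζ (A (n + 1)) ⊆ UU f c R ε A (n + 2) :=
        (ball_subset_thickening hζ.1 _).trans (by rw [thickening_closure]; exact thick_UU _)
      set M' := 2 / (ε * A (n + 2) ^ 8) * I + M * (1 / 2) ^ j
      have M1 : 0 ≤ M' := by positivity
      have osc : ∀ w ∈ ball q (2 * A (n + 1) ^ 2), ‖φ ζ‖ - 6 * A (n + 1) * M' ≤ ‖φ w‖ := by
        intro w hw
        have h3 : dist w ζ ≤ 3 * A (n + 1) ^ 2 := by
          linarith [dist_triangle_right w ζ q, mem_ball.1 hw, dist_eq_norm ζ q]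
        have h4 := Complex.dist_le_div_mul_dist_of_mapsTo_ball (R₂ := 2 * M')
          (hd.mono (s2.trans ((hU _).trans s1))) (fun y hy => by
            rw [mem_closedBall, dist_eq_norm]
            linarith [norm_sub_le (φ y) (φ ζ), ih _ y (s2 hy), ih _ ζ (s2 (mem_ball_self A0))])
          (show w ∈ ball ζ (A (n + 1)) by rw [mem_ball]; linarith)
        have h5 := h4.trans (mul_le_mul_of_nonneg_left h3 (by positivity))
        rw [show 2 * M' / A (n + 1) * (3 * A (n + 1) ^ 2) = 6 * A (n + 1) * M' by field_simp; ring,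
          dist_comm, dist_eq_norm] at h5
        linarith [norm_sub_norm_le (φ ζ) (φ w)]
      have s3 : ball q (2 * A (n + 1) ^ 2) ⊆ ball c R \ ball c (R / 4) := fun w hw => by
        refine ⟨ball_subset_ball' (by linarith [mem_ball.1 (hU _ hq)]) hw, fun h3 => hζ.2 ?_⟩
        refine thick_UU n (mem_thickening_iff.2 ⟨w, l.hole n h3, ?_⟩)
        linarith [dist_triangle_right ζ w q, mem_ball.1 hw, dist_eq_norm ζ q, l.succ n]
      have h6 : ‖φ ζ‖ - 6 * A (n + 1) * M' ≤ 1 / (ε * A (n + 1) ^ 8) * I := by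
        rcases le_total (‖φ ζ‖ - 6 * A (n + 1) * M') 0 with h3 | h3
        · exact h3.trans (by positivity)
        rw [one_div, le_inv_mul_iff₀ (by positivity), mul_comm]
        refine (mul_le_mul_of_nonneg_left hv h3).trans ?_
        rw [← integral_const_mul]
        refine (setIntegral_mono_on (hf.const_mul _).integrableOn i.integrableOn measurableSet_ball
          fun w hw => mul_le_mul_of_nonneg_right (osc w hw) (f0 w)).trans ?_
        exact setIntegral_mono_set i.integrableOn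
          (.of_forall fun z => mul_nonneg (norm_nonneg _) (f0 z)) s3.eventuallyLE
      have h7 : 6 * A (n + 1) * (2 / (ε * A (n + 2) ^ 8)) ≤ 1 / (ε * A (n + 1) ^ 8) := by
        rw [← mul_div_assoc, div_le_div_iff₀ (by positivity) (by positivity)]
        nlinarith [mul_le_mul_of_nonneg_left (l.pow (n + 1)) hε.le]
      have h8 := mul_le_mul_of_nonneg_right h7 I0
      have h9 := mul_le_mul_of_nonneg_right (show 6 * A (n + 1) ≤ 1 / 2 by linarith)
        (show 0 ≤ M * (1 / 2) ^ j by positivity)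
      simp only [M'] at h6
      rw [pow_succ (1 / 2 : ℝ), show 2 / (ε * A (n + 1) ^ 8) = 2 * (1 / (ε * A (n + 1) ^ 8)) by ring]
      linarith
  have t := ((tendsto_pow_atTop_nhds_zero_of_lt_one (r := (1 / 2 : ℝ)) (by norm_num)
    (by norm_num)).const_mul M).const_add (2 / (ε * A 1 ^ 8) * I)
  simpa using ge_of_tendsto' t fun j => key j 0 c (l.hole 1 (mem_ball_self (by positivity)))

lemma Lev.route (l : Lev R A κ) (h0 : 0 < R) (h1 : R ≤ 1 / 2) (hD : ball c (2 * R) ⊆ ball 0 1)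
    (hf : Integrable f mD) (f0 : ∀ z, 0 ≤ f z) (hε : 0 < ε) {b : ℂ} (m : ℕ) : ∀ n,
    b ∈ UU f c R ε A (n + m) → ∃ a ∈ thickening (A n) (UU f c R ε A n), ∃ θ, Bd θ ∧
      (∀ ζ, θ ζ ≠ 0 → ζ ∈ ball c R) ∧ ∫ ζ, ‖θ ζ‖ * f ζ ∂mD ≤ ε * A n ∧ ‖a‖ ≤ 1 ∧
      (∀ z, z ≠ b → (CT mD θ z).re ≤ Real.log (‖z - a‖ + 2 * A n) - Real.log ‖z - b‖ + κ n) ∧
      ‖∫ ζ, θ ζ ∂mD - (a - b)‖ ≤ 2 * A n ∧
      ‖∫ ζ, ζ * θ ζ ∂mD - (a ^ 2 - b ^ 2) / 2‖ ≤ 2 * A n := by
  have s1 : ball c R ⊆ ball 0 1 := (ball_subset_ball (by linarith)).trans hD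
  have n1 : ∀ n, ∀ z ∈ UU f c R ε A n, ‖z‖ ≤ 1 := fun n z hz => (mem_ball_zero_iff.1
    (s1 (ball_subset_ball (by linarith [l.pos n]) (l.sub h0 h1 n hz)))).le
  induction m with
  | zero =>
    intro n hb
    have := l.pos n
    refine ⟨b, self_subset_thickening this _ hb, fun _ => 0, Bd.const 0, by simp,
      by simp; positivity, n1 n b hb, fun z hz => ?_, by simp; positivity, by simp; positivity⟩
    have := Real.log_le_log (norm_pos_iff.2 (sub_ne_zero.2 hz))
      (show ‖z - b‖ ≤ ‖z - b‖ + 2 * A n by linarith)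
    simp only [CT, zero_mul, integral_zero, Complex.zero_re]
    linarith [l.κ0 n]
  | succ m ih =>
    intro n hb
    obtain ⟨a', ha', θ, a1, a2, a3, a4, a5, a6, a7⟩ := ih (n + 1) (by rwa [Nat.succ_add_eq_add_succ])
    obtain ⟨e, he, h2⟩ := mem_thickening_iff.1 ha'
    rw [dist_eq_norm] at h2
    obtain ⟨a, ha, k, h3⟩ := id he
    have A0 := l.pos (n + 1)
    have A1 := l.succ n
    have A2 := l.sq_le h0 h1 (n + 1)
    have A3 := l.small h0 h1 (n + 1)
    have hP : ∀ q, Light f c R ε A n q → ball q (2 * A (n + 1) ^ 2) ⊆ ball c R := fun q hq =>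
      ball_subset_ball' (by rw [dist_eq_norm]; linarith [hq.1])
    obtain ⟨k, hk, h3⟩ := h3.short' (by positivity) (by linarith) fun q hq =>
      (mem_ball_zero_iff.1 (s1 (hP q hq (mem_ball_self (by positivity))))).le
    obtain ⟨σ, x, b1, b2, b3, b4, x0, x1, b5, b6, b7, b8⟩ := exists_taper (G := 3 * A (n + 1))
      (A := A n) hf f0 (by positivity) (by linarith) (by linarith) s1 (n1 _ e he)
      (fun q hq => ⟨hP q hq, hq.2⟩) h3
    have x2 : (1 - x) * ‖a - e‖ ≤ (1 - x) * A n := by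
      rcases x1.eq_or_lt with rfl | h4
      · simp
      · exact mul_le_mul_of_nonneg_left (b5 h4) (by linarith)
    have half : ∀ z w : ℂ, ‖z‖ ≤ 1 → ‖w‖ ≤ 1 → ‖(z ^ 2 - w ^ 2) / 2‖ ≤ ‖z - w‖ := fun z w hz hw => by
      rw [show (z ^ 2 - w ^ 2) / 2 = (z - w) * ((z + w) / 2) by ring, norm_mul]
      refine mul_le_of_le_one_right (norm_nonneg _) ?_
      rw [norm_div, Complex.norm_two]
      linarith [norm_add_le z w]
    have nx : ∀ w : ℂ, ‖((1 - x : ℝ) : ℂ) * w‖ = (1 - x) * ‖w‖ := fun w => by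
      rw [norm_mul, Complex.norm_real, Real.norm_of_nonneg (by linarith)]
    refine ⟨a, ha, fun ζ => θ ζ + σ ζ, a1.add b1, fun ζ hζ => ?_, ?_, b4, fun z hz => ?_, ?_, ?_⟩
    · by_contra h4
      have e1 : θ ζ = 0 := by_contra fun e => h4 (a2 ζ e)
      have e2 : σ ζ = 0 := by_contra fun e => h4 (b2 ζ e)
      simp [e1, e2] at hζ
    · refine (integral_mono ((a1.add b1).integrable_norm_mul hf) ((a1.integrable_norm_mul hf).add
        (b1.integrable_norm_mul hf)) fun ζ => (mul_le_mul_of_nonneg_right (norm_add_le _ _)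
        (f0 ζ)).trans_eq (add_mul _ _ _)).trans ?_
      rw [integral_add' (a1.integrable_norm_mul hf) (b1.integrable_norm_mul hf)]
      have := b3.trans (mul_le_mul_of_nonneg_right hk (by positivity))
      rw [show 200 / (A (n + 1) ^ 2) ^ 2 * (ε * A (n + 1) ^ 8 / A (n + 1) ^ 2) =
        ε * (200 * A (n + 1) ^ 2) by field_simp] at this
      have := mul_le_mul_of_nonneg_left (show A (n + 1) + 200 * A (n + 1) ^ 2 ≤ A n by linarith) hε.le
      linarith
    · rw [CT_add le_rfl a1 b1, Complex.add_re]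
      have c1 := Real.log_le_log (by positivity) (show ‖z - a'‖ + 2 * A (n + 1) ≤
        ‖z - e‖ + 3 * A (n + 1) by
          linarith [norm_sub_le_norm_sub_add_norm_sub z e a', norm_sub_rev e a'])
      have c2 := mul_le_mul_of_nonneg_left ((Lam_le (δ := A (n + 1) ^ 2) (by positivity)
        (norm_nonneg (z - a))).trans (Real.log_le_log (by positivity)
        (show _ ≤ ‖z - a‖ + 2 * A n by linarith))) x0
      have c3 : (1 - x) * Real.log (‖z - e‖ + 3 * A (n + 1)) ≤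
          (1 - x) * Real.log (‖z - a‖ + 2 * A n) := by
        rcases x1.eq_or_lt with rfl | h4
        · simp
        · exact mul_le_mul_of_nonneg_left (Real.log_le_log (by positivity)
            (by linarith [norm_sub_le_norm_sub_add_norm_sub z a e, b5 h4])) (by linarith)
      linarith [a5 z hz, b6 z, l.κs n]
    · rw [integral_add (a1.integrable le_rfl) (b1.integrable le_rfl),
        show ∀ I J : ℂ, I + J - (a - b) = (I - (a' - b)) + (J - x * (a - e)) + (a' - e) -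
          ((1 - x : ℝ) : ℂ) * (a - e) by intros; push_cast; ring]
      refine (norm_sub_le _ _).trans ((add_le_add norm_add₃_le le_rfl).trans ?_)
      rw [nx]
      linarith
    · simp only [mul_add]
      rw [integral_add ((Bd.id.mul a1).integrable le_rfl) ((Bd.id.mul b1).integrable le_rfl),
        show ∀ I J : ℂ, I + J - (a ^ 2 - b ^ 2) / 2 = (I - (a' ^ 2 - b ^ 2) / 2) +
          (J - x * ((a ^ 2 - e ^ 2) / 2)) + (a' ^ 2 - e ^ 2) / 2 -
          ((1 - x : ℝ) : ℂ) * ((a ^ 2 - e ^ 2) / 2) by intros; push_cast; ring]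
      refine (norm_sub_le _ _).trans ((add_le_add norm_add₃_le le_rfl).trans ?_)
      rw [nx]
      have := mul_le_mul_of_nonneg_left (half a e b4 (n1 _ e he)) (sub_nonneg.2 x1)
      linarith [half a' e a4 (n1 _ e he)]

lemma exp_moments {p : ℂ → ℂ} (hp : Bd p) (b : ℂ) :
    ∫ ζ, p ζ * Complex.exp (CT mD p ζ) ∂mD = ∫ ζ, p ζ ∂mD ∧
    ∫ ζ, (ζ - b) * (p ζ * Complex.exp (CT mD p ζ)) ∂mD =
      ∫ ζ, (ζ - b) * p ζ ∂mD - (∫ ζ, p ζ ∂mD) ^ 2 / 2 := by
  have hq := hp.mul (hp.CT le_rfl).exp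
  have e : ∀ z, CT mD (fun ζ => p ζ * Complex.exp (CT mD p ζ)) z = Complex.exp (CT mD p z) - 1 :=
    fun z => by rw [CT_exp le_rfl hp z]; ring
  have t0 := tendsto_CT le_rfl hp
  have t1 := tendsto_mul_CT le_rfl hp b
  have ev : ∀ᶠ z in Bornology.cobounded ℂ, ‖CT mD p z‖ ≤ 1 :=
    t0.norm.eventually (ge_mem_nhds (by simp))
  have r1 : Tendsto (fun z => (z - b) * (Complex.exp (CT mD p z) - 1 - CT mD p z))
      (Bornology.cobounded ℂ) (𝓝 0) := by
    refine squeeze_zero_norm' ?_ (by simpa using t1.norm.mul t0.norm)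
    filter_upwards [ev] with z hz
    rw [norm_mul, mul_assoc, ← sq]
    exact mul_le_mul_of_nonneg_left (Complex.norm_exp_sub_one_sub_id_le hz) (norm_nonneg _)
  have r2 : Tendsto (fun z => (z - b) ^ 2 * (Complex.exp (CT mD p z) - (1 + CT mD p z +
      CT mD p z ^ 2 / 2))) (Bornology.cobounded ℂ) (𝓝 0) := by
    refine squeeze_zero_norm' ?_ (by simpa using (t1.norm.pow 2).mul t0.norm)
    filter_upwards [ev] with z hz
    have := Complex.exp_bound hz (n := 3) (by norm_num)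
    simp only [Finset.sum_range_succ, Finset.range_zero, Finset.sum_empty] at this
    norm_num [Nat.factorial] at this
    rw [norm_mul, norm_pow, mul_pow, mul_assoc, ← pow_succ]
    exact mul_le_mul_of_nonneg_left (this.trans (mul_le_of_le_one_right (by positivity)
      (by norm_num))) (by positivity)
  have m1 : ∫ ζ, p ζ * Complex.exp (CT mD p ζ) ∂mD = ∫ ζ, p ζ ∂mD := by
    have := tendsto_nhds_unique (tendsto_mul_CT le_rfl hq b)
      ((r1.add t1).congr fun z => by rw [e]; ring)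
    simpa using this
  refine ⟨m1, ?_⟩
  have := tendsto_nhds_unique (tendsto_mul_CT le_rfl ((Bd.id.sub (Bd.const b)).mul hq) b)
    (((r2.add ((t1.pow 2).div_const 2)).add (tendsto_mul_CT le_rfl ((Bd.id.sub (Bd.const b)).mul
      hp) b)).congr fun z => by rw [CT_mul_sub le_rfl hq, CT_mul_sub le_rfl hp, e, m1]; ring)
  linear_combination -this

lemma Lev.route_fn (l : Lev R A κ) (h0 : 0 < R) (h1 : R ≤ 1 / 2) (hD : ball c (2 * R) ⊆ ball 0 1)
    (hf : Integrable f mD) (f0 : ∀ z, 0 ≤ f z) (hε : 0 < ε)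
    (hU : ¬∀ n, UU f c R ε A n ⊆ ball c (3 * R / 4)) :
    ∃ Θ, Bd Θ ∧ (∀ ζ, Θ ζ ≠ 0 → ζ ∈ ball c R) ∧
      (∀ z ∈ ball (0 : ℂ) 1, ‖CT mD Θ z‖ ≤ 3 * Real.exp (κ 0) + 4) ∧
      ∫ ζ, ‖Θ ζ‖ * f ζ ∂mD ≤ 3 * Real.exp (κ 0) * ε ∧ R ^ 2 / 100 ≤ ‖∫ ζ, Θ ζ ∂mD‖ := by
  simp only [not_forall, not_subset] at hU
  obtain ⟨N, b, hb, hb'⟩ := hU
  obtain ⟨a, ha, θ, a1, a2, a3, a4, a5, a6, a7⟩ := l.route h0 h1 hD hf f0 hε N 0 (by simpa using hb)
  have A0 := l.pos 0
  have A1 := l.small h0 h1 0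
  have nb : ‖b‖ ≤ 1 := (mem_ball_zero_iff.1 (hD (ball_subset_ball (by linarith [l.pos N])
    (l.sub h0 h1 N hb)))).le
  have hp := (Bd.const (1 / 2)).mul a1
  have hq := hp.mul (hp.CT le_rfl).exp
  obtain ⟨m1, m2⟩ := exp_moments hp b
  have E1 := Real.one_le_exp (l.κ0 0)
  have hw : ∀ z ∈ ball (0 : ℂ) 1, ‖(z - b) * Complex.exp (CT mD (fun ζ => 1 / 2 * θ ζ) z)‖ ≤
      3 * Real.exp (κ 0) := fun z hz => by
    by_cases h : z = b
    · simp only [h, sub_self, zero_mul, norm_zero]; positivity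
    have z1 := mem_ball_zero_iff.1 hz
    have d0 : 0 < ‖z - b‖ := norm_pos_iff.2 (sub_ne_zero.2 h)
    have := Real.exp_le_exp.2 (a5 z h)
    rw [Real.exp_add, Real.exp_sub, Real.exp_log (by positivity), Real.exp_log d0] at this
    rw [← sq_le_sq₀ (norm_nonneg _) (by positivity), norm_mul, mul_pow, Complex.norm_exp,
      ← Real.exp_nat_mul, CT_const_mul, show ((2 : ℕ) : ℝ) * (1 / 2 * CT mD θ z).re =
        (CT mD θ z).re by simp]
    refine (mul_le_mul_of_nonneg_left this (by positivity)).trans ?_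
    rw [show ‖z - b‖ ^ 2 * ((‖z - a‖ + 2 * A 0) / ‖z - b‖ * Real.exp (κ 0)) =
      ‖z - b‖ * (‖z - a‖ + 2 * A 0) * Real.exp (κ 0) by field_simp]
    have := mul_le_mul (show ‖z - b‖ ≤ 2 by linarith [norm_sub_le z b])
      (show ‖z - a‖ + 2 * A 0 ≤ 3 by linarith [norm_sub_le z a]) (by positivity) zero_le_two
    nlinarith
  have nd : ‖a - b‖ ≤ 2 := by linarith [norm_sub_le a b]
  have n0 : ‖∫ ζ, θ ζ ∂mD‖ ≤ 3 := by linarith [norm_sub_norm_le (∫ ζ, θ ζ ∂mD) (a - b)]
  refine ⟨_, (Bd.id.sub (Bd.const b)).mul hq, fun ζ hζ => a2 ζ fun h => by simp [h] at hζ,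
    fun z hz => ?_, ?_, ?_⟩
  · rw [CT_mul_sub le_rfl hq, m1, integral_const_mul, eq_sub_iff_add_eq'.2 (CT_exp le_rfl hp z).symm,
      mul_sub, mul_one]
    refine (norm_add_le _ _).trans ((add_le_add (norm_sub_le _ _) le_rfl).trans ?_)
    rw [norm_mul (1 / 2 : ℂ), norm_div, norm_one, Complex.norm_two]
    linarith [hw z hz, norm_sub_le z b, mem_ball_zero_iff.1 hz]
  · refine (integral_mono_ae (((Bd.id.sub (Bd.const b)).mul hq).integrable_norm_mul hf)
      ((a1.integrable_norm_mul hf).const_mul (3 * Real.exp (κ 0))) ?_).trans ?_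
    · filter_upwards [ae_ball_of_le le_rfl] with ζ hζ
      rw [mul_left_comm (ζ - b), norm_mul, ← mul_assoc, mul_comm (3 * _)]
      refine mul_le_mul_of_nonneg_right (mul_le_mul ?_ (hw ζ hζ) (norm_nonneg _) (norm_nonneg _))
        (f0 ζ)
      rw [norm_mul, norm_div, norm_one, Complex.norm_two]
      linarith [norm_nonneg (θ ζ)]
    · rw [integral_const_mul]
      exact mul_le_mul_of_nonneg_left (a3.trans (mul_le_of_le_one_right hε.le (by linarith)))
        (by positivity)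
  · rw [m2]
    simp only [mul_left_comm _ (1 / 2 : ℂ), integral_const_mul, sub_mul]
    rw [integral_sub ((Bd.id.mul a1).integrable le_rfl) ((a1.integrable le_rfl).const_mul b),
      integral_const_mul]
    obtain ⟨w, hw, h2⟩ := mem_thickening_iff.1 ha
    have d1 : 49 / 100 * R ≤ ‖a - b‖ := by
      rw [← dist_eq_norm]
      linarith [mem_ball.1 hw, dist_triangle b a c, dist_triangle a w c, dist_comm a b,
        not_lt.1 (mem_ball.not.1 hb')]
    generalize ∫ ζ, θ ζ ∂mD = I at *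
    generalize ∫ ζ, ζ * θ ζ ∂mD = J at *
    have e : (a - b) ^ 2 / 8 = (1 / 2 * (J - b * I) - (1 / 2 * I) ^ 2 / 2) -
        ((J - (a ^ 2 - b ^ 2) / 2) / 2 - (I - (a - b)) * (b / 2 + (I + (a - b)) / 8)) := by ring
    have h3 := congrArg norm e
    have h4 : ‖b / 2 + (I + (a - b)) / 8‖ ≤ 2 := by
      refine (norm_add_le _ _).trans ?_
      rw [norm_div, norm_div, Complex.norm_two, Complex.norm_ofNat]
      linarith [norm_add_le I (a - b)]
    have h5 := norm_sub_le ((J - (a ^ 2 - b ^ 2) / 2) / 2)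
      ((I - (a - b)) * (b / 2 + (I + (a - b)) / 8))
    rw [norm_mul, norm_div, Complex.norm_two] at h5
    have h6 := mul_le_mul a6 h4 (norm_nonneg _) (by positivity)
    rw [norm_div, norm_pow, Complex.norm_ofNat] at h3
    have h7 := h3.trans_le (norm_sub_le _ _)
    have h8 := pow_le_pow_left₀ (by positivity) d1 2
    linarith [l.zero]

end Pool.Agent.Lib.MP_45cb44_an
end
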