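import Pool.Agent.Lib.MP_45cb44_an.Ident
import Pool.Agent.Lib.MP_45cb44_an.Principal
import Pool.Agent.Lib.MP_45cb44_an.Route
import Pool.Agent.Lib.MP_45cb44_an.Weak

-- part Pool.Agent.Lib.MP_45cb44_an.Form
section

/-! The sesquilinear form given by the exponential kernel. -/

namespace Pool.Agent.Lib.MP_45cb44_an

open MeasureTheory Metric Set Filter Topology
open scoped ENNReal NNReal Real ComplexConjugate

variable {μ ϱ : Measure ℂ}

/-- Sesquilinear form of a kernel. -/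
noncomputable def QF (μ : Measure ℂ) (K : ℂ → ℂ → ℂ) (k h : ℂ → ℂ) : ℂ :=
  ∫ x : ℂ × ℂ, conj (k x.1) * K x.1 x.2 * h x.2 ∂(μ.prod μ)

lemma measurable_conj {α : Type*} [MeasurableSpace α] {f : α → ℂ} (hf : Measurable f) :
    Measurable fun x => conj (f x) := Complex.continuous_conj.measurable.comp hf

lemma Pair.pow_step (h : Pair μ ϱ) (n : ℕ) {f : ℂ → ℂ} (hf : Measurable f)
    (hi : Integrable (fun x : ℂ × ℂ => ‖f x.1‖ * MM ϱ x.1 x.2 ^ (n + 1) * ‖f x.2‖) (μ.prod μ)) :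
    (∀ᵐ ζ ∂ϱ, Integrable (fun x : ℂ × ℂ => ‖f x.1 * (conj (ζ - x.1))⁻¹‖ * MM ϱ x.1 x.2 ^ n *
      ‖f x.2 * (conj (ζ - x.2))⁻¹‖) (μ.prod μ)) ∧
    Integrable (fun ζ => QF μ (fun z w => AA ϱ z w ^ n) (fun z => f z * (conj (ζ - z))⁻¹)
      (fun z => f z * (conj (ζ - z))⁻¹)) ϱ ∧
    QF μ (fun z w => AA ϱ z w ^ (n + 1)) f f = ∫ ζ, QF μ (fun z w => AA ϱ z w ^ n)
      (fun z => f z * (conj (ζ - z))⁻¹) (fun z => f z * (conj (ζ - z))⁻¹) ∂ϱ := by
  have := finite_of_le h.μ_le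
  have := finite_of_le h.ϱ_le
  have mM : Measurable fun y : (ℂ × ℂ) × ℂ => MM ϱ y.1.1 y.1.2 := measurable_MM.comp measurable_fst
  have mA : Measurable fun y : (ℂ × ℂ) × ℂ => AA ϱ y.1.1 y.1.2 := measurable_AA.comp measurable_fst
  have m1 : Measurable fun y : (ℂ × ℂ) × ℂ => f y.1.1 * (conj (y.2 - y.1.1))⁻¹ :=
    (by fun_prop : Measurable fun y : (ℂ × ℂ) × ℂ => f y.1.1).mul (measurable_conj (by fun_prop)).inv
  have m2 : Measurable fun y : (ℂ × ℂ) × ℂ => f y.1.2 * (conj (y.2 - y.1.2))⁻¹ :=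
    (by fun_prop : Measurable fun y : (ℂ × ℂ) × ℂ => f y.1.2).mul (measurable_conj (by fun_prop)).inv
  let Φ : (ℂ × ℂ) × ℂ → ℝ := fun y => ‖f y.1.1 * (conj (y.2 - y.1.1))⁻¹‖ * MM ϱ y.1.1 y.1.2 ^ n *
      ‖f y.1.2 * (conj (y.2 - y.1.2))⁻¹‖
  have eΦ : ∀ x ζ, Φ (x, ζ) = ‖f x.1‖ * MM ϱ x.1 x.2 ^ n * ‖f x.2‖ *
      (‖ζ - x.2‖⁻¹ * ‖ζ - x.1‖⁻¹) := fun x ζ => by
    simp only [Φ, norm_mul, norm_inv, Complex.norm_conj]; ring
  have hΦ : Integrable Φ ((μ.prod μ).prod ϱ) := by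
    have mΦ : Measurable Φ := (m1.norm.mul (mM.pow_const n)).mul m2.norm
    rw [integrable_prod_iff mΦ.aestronglyMeasurable]
    constructor
    · filter_upwards [ae_ne_prod h.μ_le h.μ_le] with x hx
      simp only [eΦ]
      exact (integrable_MM h.ϱ_le hx).const_mul _
    · refine hi.congr (.of_forall fun x => ?_)
      have : ∀ ζ, ‖Φ (x, ζ)‖ = Φ (x, ζ) := fun ζ => Real.norm_of_nonneg (by
        have := MM_nonneg (ν := ϱ) x.1 x.2
        simp only [Φ]; positivity)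
      simp only [this]
      simp only [eΦ, integral_const_mul]
      rw [← MM]
      ring
  let Ψ : (ℂ × ℂ) × ℂ → ℂ := fun y => conj (f y.1.1 * (conj (y.2 - y.1.1))⁻¹) *
    AA ϱ y.1.1 y.1.2 ^ n * (f y.1.2 * (conj (y.2 - y.1.2))⁻¹)
  have hΨ : Integrable Ψ ((μ.prod μ).prod ϱ) := by
    refine hΦ.mono' (((measurable_conj m1).mul (mA.pow_const n)).mul m2).aestronglyMeasurable
      (.of_forall fun y => ?_)
    simp only [Ψ, Φ]
    rw [norm_mul, norm_mul, Complex.norm_conj, norm_pow]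
    gcongr
    exact norm_AA_le _ _
  refine ⟨hΦ.prod_left_ae, hΨ.integral_prod_right, ?_⟩
  rw [QF]
  refine Eq.trans ?_ (integral_integral_swap (f := fun x ζ => Ψ (x, ζ)) hΨ)
  congr 1
  ext x
  have e : ∀ ζ, Ψ (x, ζ) = conj (f x.1) * AA ϱ x.1 x.2 ^ n * f x.2 *
      ((conj (ζ - x.2))⁻¹ * (ζ - x.1)⁻¹) := fun ζ => by
    simp only [Ψ, map_mul, map_inv₀, Complex.conj_conj]; ring
  simp only [e, integral_const_mul]
  rw [← CT, ← AA]
  ring

lemma QF_one [SFinite μ] (f : ℂ → ℂ) :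
    QF μ (fun z w => AA ϱ z w ^ 0) f f = ((‖∫ z, f z ∂μ‖ ^ 2 : ℝ) : ℂ) := by
  simp only [QF, pow_zero, mul_one]
  rw [integral_prod_mul (fun z => conj (f z)) f, integral_conj, mul_comm, Complex.mul_conj,
    Complex.normSq_eq_norm_sq]

lemma Pair.pow_nonneg (h : Pair μ ϱ) (n : ℕ) : ∀ {f : ℂ → ℂ}, Measurable f →
    Integrable (fun x : ℂ × ℂ => ‖f x.1‖ * MM ϱ x.1 x.2 ^ n * ‖f x.2‖) (μ.prod μ) →
    0 ≤ (QF μ (fun z w => AA ϱ z w ^ n) f f).re := by
  have := finite_of_le h.μ_le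
  induction n with
  | zero => intro f _ _; rw [QF_one, Complex.ofReal_re]; positivity
  | succ n ih =>
    intro f hf hi
    obtain ⟨h1, h2, h3⟩ := h.pow_step n hf hi
    rw [h3, ← RCLike.re_to_complex, ← integral_re h2]
    refine integral_nonneg_of_ae ?_
    filter_upwards [h1] with ζ hζ
    exact ih (hf.mul (measurable_conj (by fun_prop)).inv) hζ

lemma Pair.ae_prod (h : Pair μ ϱ) :
    ∀ᵐ x : ℂ × ℂ ∂(μ.prod μ), ‖x.1‖ < 1 / 2 ∧ ‖x.2‖ < 1 / 2 := by
  have := finite_of_le h.μ_le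
  filter_upwards [(Measure.quasiMeasurePreserving_fst (μ := μ) (ν := μ)).ae h.ae_half,
    (Measure.quasiMeasurePreserving_snd (μ := μ) (ν := μ)).ae h.ae_half] with x a b using ⟨a, b⟩

lemma Pair.integrable_bd (h : Pair μ ϱ) {k f : ℂ → ℂ} (hk : Bd k) (hf : Bd f) :
    Integrable (fun x : ℂ × ℂ => ‖k x.1‖ * Real.exp (MM ϱ x.1 x.2) * ‖f x.2‖) (μ.prod μ) := by
  have := finite_of_le h.ϱ_le
  obtain ⟨m1, K, hK, h1⟩ := hk
  obtain ⟨m2, L, hL, h2⟩ := hf
  refine ((h.integrable_expM.const_mul K).mul_const L).mono'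
    (((m1.comp measurable_fst).norm.mul measurable_MM.exp).mul
      (m2.comp measurable_snd).norm).aestronglyMeasurable ?_
  filter_upwards [h.ae_prod] with x hx
  rw [Real.norm_of_nonneg (by positivity)]
  gcongr
  · exact h1 _ (mem_ball_zero_iff.2 (by linarith [hx.1]))
  · exact h2 _ (mem_ball_zero_iff.2 (by linarith [hx.2]))

lemma Pair.integrable_QF (h : Pair μ ϱ) {K : ℂ → ℂ → ℂ} (hm : Measurable fun x : ℂ × ℂ => K x.1 x.2)
    {C : ℝ} (hK : ∀ z w, ‖z‖ < 1 / 2 → ‖w‖ < 1 / 2 → ‖K z w‖ ≤ C * Real.exp (MM ϱ z w))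
    {k f : ℂ → ℂ} (hk : Bd k) (hf : Bd f) :
    Integrable (fun x : ℂ × ℂ => conj (k x.1) * K x.1 x.2 * f x.2) (μ.prod μ) ∧
    ‖QF μ K k f‖ ≤ C * ∫ x : ℂ × ℂ, ‖k x.1‖ * Real.exp (MM ϱ x.1 x.2) * ‖f x.2‖ ∂(μ.prod μ) := by
  have hb : ∀ᵐ x : ℂ × ℂ ∂(μ.prod μ), ‖conj (k x.1) * K x.1 x.2 * f x.2‖ ≤
      C * (‖k x.1‖ * Real.exp (MM ϱ x.1 x.2) * ‖f x.2‖) := by
    filter_upwards [h.ae_prod] with x hx
    rw [norm_mul, norm_mul, Complex.norm_conj]
    calc _ ≤ ‖k x.1‖ * (C * Real.exp (MM ϱ x.1 x.2)) * ‖f x.2‖ := by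
          gcongr; exact hK _ _ hx.1 hx.2
      _ = _ := by ring
  have hi := (h.integrable_bd hk hf).const_mul C
  refine ⟨hi.mono' (((measurable_conj (hk.1.comp measurable_fst)).mul hm).mul
    (hf.1.comp measurable_snd)).aestronglyMeasurable hb, ?_⟩
  rw [← integral_const_mul]
  exact norm_integral_le_of_norm_le hi hb

lemma Pair.integrable_QH (h : Pair μ ϱ) {k f : ℂ → ℂ} (hk : Bd k) (hf : Bd f) :
    Integrable (fun x : ℂ × ℂ => conj (k x.1) * HH ϱ x.1 x.2 * f x.2) (μ.prod μ) ∧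
    ‖QF μ (HH ϱ) k f‖ ≤
      2 * ∫ x : ℂ × ℂ, ‖k x.1‖ * Real.exp (MM ϱ x.1 x.2) * ‖f x.2‖ ∂(μ.prod μ) :=
  have := finite_of_le h.ϱ_le
  h.integrable_QF measurable_HH (fun _ _ hz hw => norm_HH_le (by linarith) hw.le) hk hf

/-- Conjugate Cauchy transform. -/
noncomputable def cc (μ : Measure ℂ) (f : ℂ → ℂ) (ζ : ℂ) : ℂ := ∫ z, f z * (conj (ζ - z))⁻¹ ∂μ

lemma cc_eq (f : ℂ → ℂ) (ζ : ℂ) : cc μ f ζ = -conj (CT μ (fun z => conj (f z)) ζ) := by
  rw [cc, CT, ← integral_conj, ← integral_neg]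
  congr 1
  ext z
  rw [← neg_sub z ζ]
  simp only [map_neg, inv_neg, map_mul, map_inv₀, Complex.conj_conj, mul_neg]

lemma Bd.cc {f : ℂ → ℂ} (hf : Bd f) (hμ : μ ≤ mD) : Bd (cc μ f) := by
  have := (hf.conj.CT hμ).conj.neg
  simpa only [← cc_eq] using this

lemma Pair.exp_lower (h : Pair μ ϱ) {f : ℂ → ℂ} (hf : Bd f) :
    ∫ ζ, ‖cc μ f ζ‖ ^ 2 ∂ϱ ≤ (QF μ (fun z w => Complex.exp (AA ϱ z w)) f f).re := by
  have := finite_of_le h.μ_le
  have := finite_of_le h.ϱ_le
  have hs : ∀ c : ℂ, HasSum (fun n : ℕ => c ^ n / n.factorial) (Complex.exp c) := by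
    intro c
    rw [Complex.exp_eq_exp_ℂ]
    exact NormedSpace.expSeries_div_hasSum_exp c
  have hr : ∀ c : ℝ, HasSum (fun n : ℕ => c ^ n / n.factorial) (Real.exp c) := by
    intro c
    rw [Real.exp_eq_exp_ℝ]
    exact NormedSpace.expSeries_div_hasSum_exp c
  have hfm := hf.1
  have hi : ∀ n : ℕ, Integrable (fun x : ℂ × ℂ => ‖f x.1‖ * MM ϱ x.1 x.2 ^ n * ‖f x.2‖)
      (μ.prod μ) := fun n => by
    refine ((h.integrable_bd hf hf).const_mul n.factorial).mono'
      (((hfm.comp measurable_fst).norm.mul (measurable_MM.pow_const n)).mul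
      (hfm.comp measurable_snd).norm).aestronglyMeasurable (.of_forall fun x => ?_)
    have h0 := MM_nonneg (ν := ϱ) x.1 x.2
    rw [Real.norm_of_nonneg (by positivity)]
    have h1 := Real.pow_div_factorial_le_exp _ h0 n
    rw [div_le_iff₀ (by positivity)] at h1
    calc _ ≤ ‖f x.1‖ * (Real.exp (MM ϱ x.1 x.2) * n.factorial) * ‖f x.2‖ := by gcongr
      _ = _ := by ring
  have h1 : HasSum (fun n : ℕ => ∫ x : ℂ × ℂ, conj (f x.1) * (AA ϱ x.1 x.2 ^ n / n.factorial) *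
      f x.2 ∂(μ.prod μ)) (QF μ (fun z w => Complex.exp (AA ϱ z w)) f f) := by
    refine hasSum_integral_of_dominated_convergence
      (fun n x => ‖f x.1‖ * (MM ϱ x.1 x.2 ^ n / n.factorial) * ‖f x.2‖) (fun n => ?_) ?_ ?_ ?_ ?_
    · exact (((measurable_conj (hfm.comp measurable_fst)).mul ((measurable_AA.pow_const n).div_const
        _)).mul (hfm.comp measurable_snd)).aestronglyMeasurable
    · refine fun n => .of_forall fun x => ?_
      rw [norm_mul, norm_mul, norm_div, norm_pow, Complex.norm_natCast, Complex.norm_conj]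
      gcongr
      exact norm_AA_le _ _
    · exact .of_forall fun x => ((Real.summable_pow_div_factorial _).mul_left _).mul_right _
    · simp only [tsum_mul_left, tsum_mul_right, (hr _).tsum_eq]
      exact h.integrable_bd hf hf
    · exact .of_forall fun x => ((hs _).mul_left _).mul_right _
  have e : ∀ n : ℕ, (∫ x : ℂ × ℂ, conj (f x.1) * (AA ϱ x.1 x.2 ^ n / n.factorial) *
      f x.2 ∂(μ.prod μ)).re = (QF μ (fun z w => AA ϱ z w ^ n) f f).re / n.factorial := by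
    intro n
    rw [← Complex.div_natCast_re, QF, ← integral_div]
    congr 2
    ext x
    ring
  have h2 := Complex.hasSum_re h1
  simp only [e] at h2
  refine le_trans (le_of_eq ?_) (le_hasSum h2 1 fun n _ =>
    div_nonneg (h.pow_nonneg n hfm (hi n)) (by positivity))
  rw [(h.pow_step 0 hfm (hi 1)).2.2]
  simp only [QF_one, integral_complex_ofReal, cc]
  simp

lemma Pair.QH_split (h : Pair μ ϱ) {f : ℂ → ℂ} (hf : Bd f) :
    QF μ (HH ϱ) f f = QF μ (fun z w => Complex.exp (AA ϱ z w)) f f +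
      QF μ (HH ϱ) (fun z => conj z * f z) (fun z => conj z * f z) := by
  have := finite_of_le h.ϱ_le
  have hc := Bd.id.conj.mul hf
  rw [QF, QF, QF, ← integral_add (h.integrable_QF (K := fun z w => Complex.exp (AA ϱ z w))
    (C := 1) measurable_AA.cexp
    (fun z w _ _ => by simpa using norm_exp_AA_le z w) hf hf).1 (h.integrable_QH hc hc).1]
  apply integral_congr_ae
  filter_upwards [h.ae_prod] with x hx
  have : 1 - x.1 * conj x.2 ≠ 0 :=
    norm_pos_iff.1 (lt_of_lt_of_le (by norm_num) (half_le_norm (by linarith [hx.1]) hx.2.le))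
  simp only [HH, map_mul, Complex.conj_conj]
  field_simp
  ring

lemma Pair.QH_mono (h : Pair μ ϱ) {f : ℂ → ℂ} (hf : Bd f) :
    ∫ ζ, ‖cc μ f ζ‖ ^ 2 ∂ϱ + (QF μ (HH ϱ) (fun z => conj z * f z) (fun z => conj z * f z)).re ≤
      (QF μ (HH ϱ) f f).re := by
  rw [h.QH_split hf, Complex.add_re]
  linarith [h.exp_lower hf]

lemma Pair.QH_nonneg (h : Pair μ ϱ) {f : ℂ → ℂ} (hf : Bd f) : 0 ≤ (QF μ (HH ϱ) f f).re := by
  have hb : ∀ n : ℕ, Bd fun z => conj z ^ n * f z := fun n => (Bd.id.conj.pow n).mul hf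
  have h1 : ∀ n : ℕ, (QF μ (HH ϱ) (fun z => conj z ^ n * f z) (fun z => conj z ^ n * f z)).re ≤
      (QF μ (HH ϱ) f f).re := by
    intro n
    induction n with
    | zero => simp
    | succ n ih =>
      have := h.QH_mono (hb n)
      have h0 : 0 ≤ ∫ ζ, ‖cc μ (fun z => conj z ^ n * f z) ζ‖ ^ 2 ∂ϱ :=
        integral_nonneg fun _ => by positivity
      simp only [pow_succ', mul_assoc]
      linarith
  set I := ∫ x : ℂ × ℂ, ‖f x.1‖ * Real.exp (MM ϱ x.1 x.2) * ‖f x.2‖ ∂(μ.prod μ)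
  have h2 : ∀ n : ℕ, -(2 * ((1 / 2) ^ n * I)) ≤ (QF μ (HH ϱ) f f).re := fun n => by
    refine le_trans ?_ (h1 n)
    refine neg_le.2 ((neg_le_abs _).trans ((Complex.abs_re_le_norm _).trans
      ((h.integrable_QH (hb n) (hb n)).2.trans ?_)))
    refine mul_le_mul_of_nonneg_left ?_ zero_le_two
    rw [← integral_const_mul]
    refine integral_mono_ae (h.integrable_bd (hb n) (hb n))
      ((h.integrable_bd hf hf).const_mul _) ?_
    filter_upwards [h.ae_prod] with x hx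
    simp only [norm_mul, norm_pow, Complex.norm_conj]
    have a1 : ‖x.1‖ ^ n ≤ (1 / 2) ^ n := by gcongr; exact hx.1.le
    have a2 : ‖x.2‖ ^ n ≤ 1 := pow_le_one₀ (norm_nonneg _) (by linarith [hx.2])
    calc _ ≤ (1 / 2) ^ n * ‖f x.1‖ * Real.exp (MM ϱ x.1 x.2) * (1 * ‖f x.2‖) := by gcongr
      _ = _ := by ring
  have h3 : Tendsto (fun n : ℕ => -(2 * ((1 / 2 : ℝ) ^ n * I))) atTop (𝓝 0) := by
    simpa using (((tendsto_pow_atTop_nhds_zero_of_lt_one (r := (1 / 2 : ℝ)) (by norm_num)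
      (by norm_num)).mul_const I).const_mul 2).neg
  exact le_of_tendsto' h3 h2

lemma Pair.QH_iter (h : Pair μ ϱ) {k f : ℂ → ℂ} (hk : Bd k) (hf : Bd f) :
    QF μ (HH ϱ) k f = ∫ w, (∫ z, conj (k z) * HH ϱ z w ∂μ) * f w ∂μ := by
  have := finite_of_le h.μ_le
  rw [QF, integral_prod_symm _ (h.integrable_QH hk hf).1]
  simp only [integral_mul_const]

lemma Pair.QH_one (h : Pair μ ϱ) {f : ℂ → ℂ} (hf : Bd f) :
    QF μ (HH ϱ) (fun _ => 1) f = ∫ w, f w ∂μ := by
  rw [h.QH_iter (Bd.const 1) hf]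
  apply integral_congr_ae
  filter_upwards [h.ae_good] with w hw
  simp [h.HH_one hw]

lemma Pair.QH_adj (h : Pair μ ϱ) {k f : ℂ → ℂ} (hk : Bd k) (hf : Bd f) :
    QF μ (HH ϱ) k (fun z => conj z * f z) = QF μ (HH ϱ) (fun z => z * k z + cc μ k z) f := by
  have := finite_of_le h.ϱ_le
  rw [h.QH_iter hk (Bd.id.conj.mul hf), h.QH_iter ((Bd.id.mul hk).add (hk.cc h.μ_le)) hf]
  apply integral_congr_ae
  filter_upwards [h.ae_good] with w hw
  have hi : Integrable (fun z => HH ϱ z w) μ := by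
    refine (hw.int.const_mul 2).mono' (measurable_HH.comp
      (f := fun z : ℂ => (z, w)) (by fun_prop)).aestronglyMeasurable ?_
    filter_upwards [h.ae_half] with z hz using norm_HH_le (by linarith) hw.half
  have h1 := h.HH_CT hw hk.conj
  have i1 := (hk.conj.mul (Bd.id.sub (Bd.const w)).conj).mul_integrable h.μ_le hi
  have i2 := (hk.conj.CT h.μ_le).mul_integrable h.μ_le hi
  have i3 := (hk.conj.mul_integrable h.μ_le hi).mul_const (conj w)
  rw [← mul_assoc, ← integral_mul_const]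
  congr 1
  rw [← sub_eq_zero, ← integral_sub i1 i2] at h1
  rw [← add_zero (∫ a, _ * conj w ∂μ), ← h1]
  refine (integral_add i3 (i1.sub i2)).symm.trans ?_
  congr 1
  ext z
  simp only [cc_eq, map_add, map_mul, map_neg, Complex.conj_conj, map_sub, Pi.sub_apply]
  ring

lemma Pair.QH_out (h : Pair μ ϱ) {u : ℂ} (hu : 1 < ‖u‖) :
    QF μ (HH ϱ) (fun z => conj (z - u)⁻¹) (fun z => conj (z - u)⁻¹) =
      (1 - Real.exp (-∫ z, (‖z - u‖ ^ 2)⁻¹ ∂μ) : ℝ) := by
  have hb := (bd_inv_sub hu).conj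
  have h1 := congrArg conj (h.out_exp hu)
  rw [Complex.conj_ofReal] at h1
  rw [h.QH_iter hb hb, Complex.ofReal_sub, ← h1, CT]
  simp only [Complex.conj_conj, map_add, map_mul, map_one, map_inv₀, ← integral_conj,
    ← integral_const_mul, Complex.ofReal_one, sub_add_cancel_left, ← integral_neg,
    ← Complex.exp_conj, conj_AA]
  apply integral_congr_ae
  filter_upwards [h.ae_good, ae_ne_of_le (h.μ_le.trans mD_le) (conj u⁻¹)] with w hw hne
  rw [h.HH_out hw hu]
  · ring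
  · intro h0
    apply hne
    rw [← eq_inv_of_mul_eq_one_right (sub_eq_zero.1 h0).symm, Complex.conj_conj]

lemma conj_QH [SFinite μ] (k f : ℂ → ℂ) : conj (QF μ (HH ϱ) f k) = QF μ (HH ϱ) k f := by
  rw [QF, QF, ← integral_conj, ← integral_prod_swap]
  congr 1
  ext x
  simp only [map_mul, conj_HH, Complex.conj_conj, Prod.fst_swap, Prod.snd_swap]
  ring

lemma cs_integral {ν : Measure ℂ} (hν : ν ≤ mD) {f g : ℂ → ℂ} (hf : Bd f) (hg : Bd g) :
    ‖∫ z, f z * g z ∂ν‖ ≤ √(∫ z, ‖f z‖ ^ 2 ∂ν) * √(∫ z, ‖g z‖ ^ 2 ∂ν) := by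
  have := finite_of_le hν
  have hL : ∀ {f : ℂ → ℂ}, Bd f → MemLp f (ENNReal.ofReal 2) ν := fun ⟨m, K, _, hb⟩ =>
    MemLp.of_bound m.aestronglyMeasurable K (by
      filter_upwards [ae_ball_of_le hν] with z hz using hb z hz)
  have h1 := integral_mul_norm_le_Lp_mul_Lq Real.HolderConjugate.two_two (hL hf) (hL hg)
  simp only [Real.rpow_two, ← Real.sqrt_eq_rpow] at h1
  refine (norm_integral_le_integral_norm _).trans ?_
  simpa only [norm_mul] using h1

lemma Pair.CT_bound (h : Pair μ ϱ) {θ f : ℂ → ℂ} (hθ : Bd θ) (hf : Bd f) :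
    ‖∫ z, conj (CT ϱ θ z) * f z ∂μ‖ ≤ √(∫ z, ‖θ z‖ ^ 2 ∂ϱ) * √(QF μ (HH ϱ) f f).re := by
  have e : ∫ z, conj (CT ϱ θ z) * f z ∂μ = ∫ z, conj (θ z) * cc μ f z ∂ϱ := by
    have := congrArg conj (CT_antisymm h.μ_le h.ϱ_le hf.conj hθ)
    simp only [← integral_conj, map_mul, Complex.conj_conj, map_neg, ← integral_neg] at this
    simp only [cc_eq, mul_neg, ← this, mul_comm]
  rw [e]
  refine (cs_integral h.ϱ_le hθ.conj (hf.cc h.μ_le)).trans ?_
  simp only [Complex.norm_conj]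
  gcongr
  linarith [h.QH_mono hf, h.QH_nonneg (Bd.id.conj.mul hf)]

end Pool.Agent.Lib.MP_45cb44_an
end

-- part Pool.Agent.Lib.MP_45cb44_an.Model
section

/-! The functional model. -/

namespace Pool.Agent.Lib.MP_45cb44_an

open MeasureTheory Metric Set Filter Topology UniformSpace
open scoped ENNReal NNReal Real ComplexConjugate InnerProductSpace

variable {μ ϱ : Measure ℂ}

/-- The space of measurable functions bounded on the disc. -/
def BB : Submodule ℂ (ℂ → ℂ) where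
  carrier := {p | Bd p}
  add_mem' := fun hp hq => hp.add hq
  zero_mem' := Bd.const 0
  smul_mem' := fun c _ hp => (Bd.const c).mul hp

lemma BB.bd (h : BB) : Bd h := h.2

/-- Multiplication by a bounded function. -/
def mulB (a : ℂ → ℂ) (ha : Bd a) : BB →ₗ[ℂ] BB where
  toFun h := ⟨fun z => a z * h.1 z, ha.mul h.2⟩
  map_add' h k := by ext z; simp [mul_add]
  map_smul' c h := by ext z; simp [mul_left_comm]

@[simp] lemma mulB_apply (a : ℂ → ℂ) (ha : Bd a) (h : BB) (z : ℂ) :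
    (mulB a ha h).1 z = a z * h.1 z := rfl

/-- The constant one. -/
def oneB : BB := ⟨fun _ => 1, Bd.const 1⟩

/-- A representation of the model. -/
structure Rep (μ ϱ : Measure ℂ) {K : Type*} [NormedAddCommGroup K] [InnerProductSpace ℂ K]
    (ι : BB →ₗ[ℂ] K) (S : K →L[ℂ] K) : Prop where
  inner : ∀ k h : BB, ⟪ι k, ι h⟫_ℂ = QF μ (HH ϱ) k h
  mul : ∀ h, S (ι h) = ι (mulB _ Bd.id.conj h)
  dense : DenseRange ι

set_option linter.unusedVariables false in
/-- Type synonym carrying the model seminorm. -/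
def Pre (h : Pair μ ϱ) : Type := ↥BB

instance (h : Pair μ ϱ) : AddCommGroup (Pre h) := inferInstanceAs (AddCommGroup BB)
instance (h : Pair μ ϱ) : Module ℂ (Pre h) := inferInstanceAs (Module ℂ BB)

/-- The identification. -/
def toPre (h : Pair μ ϱ) : BB ≃ₗ[ℂ] Pre h := LinearEquiv.refl ℂ _

/-- The model semi-inner product. -/
noncomputable abbrev preCore (h : Pair μ ϱ) : PreInnerProductSpace.Core ℂ (Pre h) where
  inner a b := QF μ (HH ϱ) ((toPre h).symm a) ((toPre h).symm b)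
  conj_inner_symm a b := have := finite_of_le h.μ_le; conj_QH _ _
  re_inner_nonneg a := h.QH_nonneg ((toPre h).symm a).2
  add_left a b c := by
    rw [QF, QF, QF, ← integral_add (h.integrable_QH (BB.bd _) (BB.bd _)).1
      (h.integrable_QH (BB.bd _) (BB.bd _)).1]
    simp [add_mul]
  smul_left a b c := by
    rw [QF, QF, ← integral_const_mul]
    simp [mul_assoc]

noncomputable instance (h : Pair μ ϱ) : SeminormedAddCommGroup (Pre h) :=
  InnerProductSpace.Core.toSeminormedAddCommGroup (c := preCore h)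
noncomputable instance (h : Pair μ ϱ) : InnerProductSpace ℂ (Pre h) :=
  InnerProductSpace.ofCore (preCore h)

lemma Pair.exists_model (h : Pair μ ϱ) :
    ∃ (ι : BB →ₗ[ℂ] Completion (Pre h)) (S : Completion (Pre h) →L[ℂ] Completion (Pre h)),
      Rep μ ϱ ι S ∧ ‖S‖ ≤ 1 := by
  let ι : BB →ₗ[ℂ] Completion (Pre h) :=
    (Completion.toComplL (𝕜 := ℂ) (E := Pre h)).toLinearMap ∘ₗ (toPre h).toLinearMap
  have hi : ∀ k f : BB, ⟪ι k, ι f⟫_ℂ = QF μ (HH ϱ) k f := fun k f =>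
    Completion.inner_coe (toPre h k) (toPre h f)
  have hd : DenseRange ι := Completion.denseRange_coe (α := Pre h)
  have hn : ∀ f : BB, ‖(ι ∘ₗ mulB _ Bd.id.conj) f‖ ≤ 1 * ‖ι f‖ := fun f => by
    rw [one_mul, ← sq_le_sq₀ (norm_nonneg _) (norm_nonneg _), ← inner_self_eq_norm_sq (𝕜 := ℂ),
      ← inner_self_eq_norm_sq (𝕜 := ℂ), LinearMap.comp_apply, hi, hi]
    have h1 := h.QH_mono f.2
    have h0 : 0 ≤ ∫ ζ, ‖cc μ f ζ‖ ^ 2 ∂ϱ := integral_nonneg fun _ => by positivity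
    exact le_trans (le_add_of_nonneg_left h0) h1
  exact ⟨ι, (ι ∘ₗ mulB _ Bd.id.conj).extendOfNorm ι,
    ⟨hi, fun f => LinearMap.extendOfNorm_eq hd ⟨1, hn⟩ f, hd⟩,
    LinearMap.opNorm_extendOfNorm_le hd zero_le_one hn⟩

variable {K : Type*} [NormedAddCommGroup K] [InnerProductSpace ℂ K]
  {ι : BB →ₗ[ℂ] K} {S : K →L[ℂ] K}

lemma Rep.norm_sq (r : Rep μ ϱ ι S) (f : BB) : ‖ι f‖ ^ 2 = (QF μ (HH ϱ) f f).re := by
  rw [← inner_self_eq_norm_sq (𝕜 := ℂ), r.inner]; rfl

lemma Rep.norm_sq_le (r : Rep μ ϱ ι S) (h : Pair μ ϱ) (f : BB) : ‖ι f‖ ^ 2 ≤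
    2 * ∫ x : ℂ × ℂ, ‖f.1 x.1‖ * Real.exp (MM ϱ x.1 x.2) * ‖f.1 x.2‖ ∂(μ.prod μ) := by
  rw [r.norm_sq]
  exact (Complex.re_le_norm _).trans (h.integrable_QH f.2 f.2).2

lemma Rep.norm_le (r : Rep μ ϱ ι S) (h : Pair μ ϱ) : ∃ C, 0 ≤ C ∧ ∀ (f : BB) (L : ℝ),
    (∀ z ∈ ball (0 : ℂ) 1, ‖f.1 z‖ ≤ L) → ‖ι f‖ ≤ C * L := by
  set I := ∫ x : ℂ × ℂ, Real.exp (MM ϱ x.1 x.2) ∂(μ.prod μ)
  have hI : 0 ≤ I := integral_nonneg fun _ => (Real.exp_pos _).le
  refine ⟨√(2 * I), Real.sqrt_nonneg _, fun f L hL => ?_⟩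
  have hL0 : 0 ≤ L := (norm_nonneg _).trans (hL 0 (by simp))
  rw [← sq_le_sq₀ (norm_nonneg _) (by positivity), mul_pow, Real.sq_sqrt (by positivity)]
  refine (r.norm_sq_le h f).trans ?_
  rw [mul_assoc, ← integral_mul_const]
  refine mul_le_mul_of_nonneg_left (integral_mono_ae (h.integrable_bd f.2 f.2)
    (h.integrable_expM.mul_const _) ?_) zero_le_two
  filter_upwards [h.ae_prod] with x hx
  have a1 := hL _ (mem_ball_zero_iff.2 (show ‖x.1‖ < 1 by linarith [hx.1]))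
  have a2 := hL _ (mem_ball_zero_iff.2 (show ‖x.2‖ < 1 by linarith [hx.2]))
  calc _ ≤ L * Real.exp (MM ϱ x.1 x.2) * L := by gcongr
    _ = _ := by ring

lemma Rep.congr (r : Rep μ ϱ ι S) (h : Pair μ ϱ) {f g : BB}
    (e : ∀ z ∈ ball (0 : ℂ) 1, f.1 z = g.1 z) : ι f = ι g := by
  obtain ⟨C, -, hC⟩ := r.norm_le h
  have := hC (f - g) 0 fun z hz => by simp [e z hz]
  rwa [mul_zero, norm_le_zero_iff, map_sub, sub_eq_zero] at this

lemma Rep.inner_one (r : Rep μ ϱ ι S) (h : Pair μ ϱ) (f : BB) :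
    ⟪ι oneB, ι f⟫_ℂ = ∫ z, f.1 z ∂μ := by
  rw [r.inner]; exact h.QH_one f.2

variable [CompleteSpace K]

lemma Rep.adj (r : Rep μ ϱ ι S) (h : Pair μ ϱ) (k : BB) :
    star S (ι k) = ι (mulB _ Bd.id k + ⟨cc μ k, k.2.cc h.μ_le⟩) := by
  refine r.dense.eq_of_inner_left ℂ fun f => ?_
  rw [ContinuousLinearMap.star_eq_adjoint, ContinuousLinearMap.adjoint_inner_left, r.mul, r.inner,
    r.inner]
  exact h.QH_adj k.2 f.2

open InnerProductSpace in
lemma Rep.comm (r : Rep μ ϱ ι S) (h : Pair μ ϱ) :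
    S * star S = star S * S + rankOne ℂ (ι oneB) (ι oneB) := by
  refine ContinuousLinearMap.coe_injective <| LinearMap.ext fun x => ?_
  refine r.dense.induction_on (p := fun x => (S * star S) x =
    (star S * S + rankOne ℂ (ι oneB) (ι oneB)) x) x (isClosed_eq (by fun_prop) (by fun_prop))
    fun k => ?_
  rw [add_apply, mul_apply_eq_comp, mul_apply_eq_comp, r.adj h, r.mul, r.mul, r.adj h,
    rankOne_apply, r.inner_one h, ← map_smul, ← map_add]
  congr 1
  ext z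
  have := congrArg conj (CT_mul_sub h.μ_le k.2.conj 0 z)
  simp only [sub_zero, map_add, map_mul, ← integral_conj, Complex.conj_conj] at this
  simp only [mulB_apply, Submodule.coe_add, Pi.add_apply, cc_eq, map_mul, Complex.conj_conj, oneB,
    SetLike.val_smul, Pi.smul_apply, smul_eq_mul, this]
  ring

lemma Rep.exists_x (r : Rep μ ϱ ι S) (h : Pair μ ϱ) {θ : ℂ → ℂ} (hθ : Bd θ) :
    ∃ x : K, ‖x‖ ≤ √(∫ z, ‖θ z‖ ^ 2 ∂ϱ) ∧
      ∀ f : BB, ⟪x, ι f⟫_ℂ = ∫ z, conj (CT ϱ θ z) * f.1 z ∂μ := by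
  have hc := (hθ.CT h.ϱ_le).conj
  let l : BB →ₗ[ℂ] ℂ :=
    { toFun := fun f => ∫ z, conj (CT ϱ θ z) * f.1 z ∂μ
      map_add' := fun f g => by
        rw [← integral_add ((hc.mul f.2).integrable h.μ_le) ((hc.mul g.2).integrable h.μ_le)]
        simp [mul_add]
      map_smul' := fun c f => by
        simp [← integral_const_mul, mul_left_comm] }
  have hn : ∀ f, ‖l f‖ ≤ √(∫ z, ‖θ z‖ ^ 2 ∂ϱ) * ‖ι f‖ := fun f => by
    have := h.CT_bound hθ f.2
    rwa [← r.norm_sq, Real.sqrt_sq (norm_nonneg _)] at this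
  refine ⟨(InnerProductSpace.toDual ℂ K).symm (l.extendOfNorm ι), ?_, fun f => ?_⟩
  · rw [LinearIsometryEquiv.norm_map]
    exact LinearMap.opNorm_extendOfNorm_le r.dense (Real.sqrt_nonneg _) hn
  · rw [InnerProductSpace.toDual_symm_apply]
    exact LinearMap.extendOfNorm_eq r.dense ⟨_, hn⟩ f

end Pool.Agent.Lib.MP_45cb44_an
end

-- part Pool.Agent.Lib.MP_45cb44_an.Pure
section

/-! The model operator has no normal part. -/

namespace Pool.Agent.Lib.MP_45cb44_an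

open MeasureTheory Metric Set Filter Topology NormedSpace Asymptotics
open scoped ENNReal NNReal Real ComplexConjugate InnerProductSpace

variable {μ ϱ : Measure ℂ} {K : Type*} [NormedAddCommGroup K] [InnerProductSpace ℂ K]
  {ι : BB →ₗ[ℂ] K} {S : K →L[ℂ] K}

/-- Multiplication by an exponential. -/
noncomputable def exB (a : ℂ → ℂ) (ha : Bd a) (t : ℂ) : BB →ₗ[ℂ] BB :=
  mulB (fun z => Complex.exp (t * a z)) ((Bd.const t).mul ha).exp

lemma Rep.hasDerivAt_ex (r : Rep μ ϱ ι S) (h : Pair μ ϱ) {a : ℂ → ℂ} (ha : Bd a)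
    (h1 : ∀ z ∈ ball (0 : ℂ) 1, ‖a z‖ ≤ 1) (f : BB) (t : ℂ) :
    HasDerivAt (fun t => ι (exB a ha t f)) (ι (mulB a ha (exB a ha t f))) t := by
  obtain ⟨C, hC, hb⟩ := r.norm_le h
  obtain ⟨-, L, hL, hf⟩ := (exB a ha t f).2
  rw [hasDerivAt_iff_isLittleO_nhds_zero]
  refine IsBigO.trans_isLittleO (g := fun τ : ℂ => τ ^ 2) (IsBigO.of_bound (C * L) ?_)
    (isLittleO_pow_id one_lt_two)
  filter_upwards [closedBall_mem_nhds (0 : ℂ) one_pos] with τ hτ
  rw [← map_smul, ← map_sub, ← map_sub, mul_assoc]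
  refine hb _ _ fun z hz => ?_
  have e : (exB a ha (t + τ) f - exB a ha t f - τ • mulB a ha (exB a ha t f)).1 z =
      (exB a ha t f).1 z * (Complex.exp (τ * a z) - 1 - τ * a z) := by
    simp only [exB, AddSubgroupClass.coe_sub, Pi.sub_apply, mulB_apply, SetLike.val_smul,
      Pi.smul_apply, smul_eq_mul, add_mul, Complex.exp_add]
    ring
  have h2 : ‖τ * a z‖ ≤ ‖τ‖ := by
    rw [norm_mul]; exact mul_le_of_le_one_right (norm_nonneg _) (h1 z hz)
  rw [e, norm_mul, norm_pow]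
  refine mul_le_mul (hf z hz) ((Complex.norm_exp_sub_one_sub_id_le
    (h2.trans (mem_closedBall_zero_iff.1 hτ))).trans ?_) (norm_nonneg _) hL
  gcongr

variable [CompleteSpace K]

lemma Rep.fuglede (r : Rep μ ϱ ι S) (h : Pair μ ϱ) {Q N : K →L[ℂ] K} (hN : Commute N (star N))
    (hQ : ∀ f, Q (ι (mulB _ Bd.id.conj f)) = star N (Q (ι f))) (f : BB) :
    Q (ι (mulB _ Bd.id f)) = N (Q (ι f)) := by
  let _ : NormedAlgebra ℚ (K →L[ℂ] K) := .restrictScalars ℚ ℂ _
  have n1 : ∀ z ∈ ball (0 : ℂ) 1, ‖z‖ ≤ 1 := fun z hz => (mem_ball_zero_iff.1 hz).le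
  have n2 : ∀ z ∈ ball (0 : ℂ) 1, ‖conj z‖ ≤ 1 := fun z hz => by simpa using n1 z hz
  have e0 : ∀ a ha (g : BB), exB a ha 0 g = g := fun a ha g => by ext z; simp [exB]
  have s1 : ∀ (g : BB) (s : ℂ), Q (ι (exB _ Bd.id.conj s g)) = exp (s • star N) (Q (ι g)) := by
    intro g s
    have d : ∀ s : ℂ, HasDerivAt (fun s : ℂ => exp (s • -star N) (Q (ι (exB _ Bd.id.conj s g))))
        0 s := fun s => by
      refine ((hasDerivAt_exp_smul_const (-star N) s).clm_apply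
        (Q.hasFDerivAt.comp_hasDerivAt s (r.hasDerivAt_ex h Bd.id.conj n2 g s))).congr_deriv ?_
      simp [hQ]
    have c := is_const_of_deriv_eq_zero (fun s => (d s).differentiableAt) (fun s => (d s).deriv) s 0
    simp only [e0, zero_smul, exp_zero, one_apply_eq_self] at c
    rw [← c, ← mul_apply_eq_comp, ← exp_add_of_commute
      (((Commute.refl _).neg_right.smul_right s).smul_left s)]
    simp
  have d : ∀ t : ℂ, HasDerivAt (fun t : ℂ => exp (t • -N) (Q (ι (exB _ Bd.id t f))))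
      ((exp (t • -N) * -N) (Q (ι (exB _ Bd.id t f))) +
        exp (t • -N) (Q (ι (mulB _ Bd.id (exB _ Bd.id t f))))) t := fun t =>
    (hasDerivAt_exp_smul_const (-N) t).clm_apply
      (Q.hasFDerivAt.comp_hasDerivAt t (r.hasDerivAt_ex h Bd.id n1 f t))
  obtain ⟨C, hC, hb⟩ := r.norm_le h
  obtain ⟨-, L, hL, hf⟩ := f.2
  have b : Bornology.IsBounded (range fun t : ℂ => exp (t • -N) (Q (ι (exB _ Bd.id t f)))) := by
    refine (isBounded_closedBall (x := (0 : K)) (r := ‖Q‖ * (C * L))).subset ?_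
    rintro _ ⟨t, rfl⟩
    have e1 : exB _ Bd.id t f =
        exB _ Bd.id.conj (conj t) (exB _ Bd.id.conj (-conj t) (exB _ Bd.id t f)) := by
      ext z
      simp only [exB, mulB_apply, ← mul_assoc, ← Complex.exp_add]
      simp
    have hu : exp (t • -N + conj t • star N) ∈ unitary (K →L[ℂ] K) := by
      apply exp_mem_unitary_of_mem_skewAdjoint
      rw [skewAdjoint.mem_iff]
      simp [star_smul]
    rw [mem_closedBall_zero_iff]
    simp only
    rw [e1, s1, ← mul_apply_eq_comp, ← exp_add_of_commute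
      ((hN.neg_left.smul_right _).smul_left _), ContinuousLinearMap.norm_map_of_mem_unitary hu]
    refine (Q.le_opNorm _).trans (mul_le_mul_of_nonneg_left (hb _ _ fun z hz => ?_) (norm_nonneg _))
    simp only [exB, mulB_apply, ← mul_assoc, ← Complex.exp_add, norm_mul, Complex.norm_exp]
    have : (-conj t * conj z + t * z).re = 0 := by simp
    rw [this, Real.exp_zero, one_mul]
    exact hf z hz
  have c : (fun t : ℂ => exp (t • -N) (Q (ι (exB _ Bd.id t f)))) = fun _ => Q (ι f) := by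
    ext t
    have := Differentiable.apply_eq_apply_of_bounded (fun t => (d t).differentiableAt) b t 0
    simpa [e0] using this
  have d0 := d 0
  rw [c] at d0
  have := d0.unique (hasDerivAt_const _ _)
  simp only [e0, zero_smul, exp_zero, one_apply_eq_self, one_mul, neg_apply] at this
  rwa [neg_add_eq_zero, eq_comm] at this

omit [CompleteSpace K] in
lemma Rep.approx (r : Rep μ ϱ ι S) (h : Pair μ ϱ) (f : BB) {ε : ℝ} (hε : 0 < ε) :
    ∃ g : BB, Continuous g.1 ∧ ‖ι f - ι g‖ ^ 2 ≤ ε := by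
  have := finite_of_le h.μ_le
  have := finite_of_le h.ϱ_le
  have hm : Measurable fun x : ℂ × ℂ => ENNReal.ofReal (Real.exp (MM ϱ x.1 x.2)) :=
    measurable_MM.exp.ennreal_ofReal
  let ν := (μ.prod μ).withDensity fun x => ENNReal.ofReal (Real.exp (MM ϱ x.1 x.2))
  have : IsFiniteMeasure ν := isFiniteMeasure_withDensity_ofReal h.integrable_expM.2
  obtain ⟨mf, L, hL, hf⟩ := f.2
  have hL2 : MemLp f.1 (ENNReal.ofReal 2) (ν.map Prod.fst) := by
    refine MemLp.of_bound mf.aestronglyMeasurable L ?_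
    rw [ae_map_iff measurable_fst.aemeasurable (by measurability)]
    filter_upwards [(withDensity_absolutelyContinuous _ _).ae_le h.ae_prod] with x hx
    exact hf _ (mem_ball_zero_iff.2 (by linarith [hx.1]))
  obtain ⟨g, hg, -⟩ := hL2.exists_boundedContinuous_integral_rpow_sub_le two_pos (half_pos hε)
  have hgb : Bd g := .of_bound g.continuous.measurable ‖g‖ fun z _ => g.norm_coe_le_norm z
  refine ⟨⟨g, hgb⟩, g.continuous, ?_⟩
  rw [← map_sub]
  refine (r.norm_sq_le h _).trans ?_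
  set k : BB := f - ⟨g, hgb⟩
  have hk : ∀ z, k.1 z = f.1 z - g z := fun z => rfl
  have mk := k.2.1
  rw [integral_map measurable_fst.aemeasurable
    (Measurable.aestronglyMeasurable (by have := g.continuous.measurable; fun_prop)),
    integral_withDensity_eq_integral_toReal_smul hm (by simp)] at hg
  simp only [Real.rpow_two, ← hk, ENNReal.toReal_ofReal (Real.exp_pos _).le, smul_eq_mul] at hg
  have i1 : Integrable (fun x : ℂ × ℂ => Real.exp (MM ϱ x.1 x.2) * ‖k.1 x.1‖ ^ 2) (μ.prod μ) := by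
    refine (h.integrable_bd (k.2.mul k.2) (Bd.const 1)).congr (.of_forall fun x => ?_)
    simp [sq, mul_comm]
  have i2 : Integrable (fun x : ℂ × ℂ => Real.exp (MM ϱ x.1 x.2) * ‖k.1 x.2‖ ^ 2) (μ.prod μ) := by
    refine (h.integrable_bd (Bd.const 1) (k.2.mul k.2)).congr (.of_forall fun x => ?_)
    simp [sq]
  have e : ∫ x : ℂ × ℂ, Real.exp (MM ϱ x.1 x.2) * ‖k.1 x.2‖ ^ 2 ∂(μ.prod μ) =
      ∫ x : ℂ × ℂ, Real.exp (MM ϱ x.1 x.2) * ‖k.1 x.1‖ ^ 2 ∂(μ.prod μ) := by
    rw [← integral_prod_swap]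
    simp only [Prod.fst_swap, Prod.snd_swap, MM_comm]
  rw [← integral_const_mul]
  refine (integral_mono ((h.integrable_bd k.2 k.2).const_mul 2) (i1.add i2) fun x => ?_).trans ?_
  · simp only [Pi.add_apply]
    nlinarith [mul_nonneg (Real.exp_pos (MM ϱ x.1 x.2)).le (sq_nonneg (‖k.1 x.1‖ - ‖k.1 x.2‖))]
  · simp only [Pi.add_apply]
    rw [integral_add i1 i2, e]
    linarith

lemma Rep.pure (r : Rep μ ϱ ι S) (h : Pair μ ϱ) {Q : K →L[ℂ] K} (hQ : IsStarProjection Q)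
    (h1 : Commute Q S) (h2 : Q (ι oneB) = 0) : Q = 0 := by
  have hs := hQ.isSelfAdjoint.star_eq
  have hi := hQ.isIdempotentElem.eq
  have h3 : Commute Q (star S) := by simpa [hs] using h1.star_star
  have hN : Commute (star S * Q) (star (star S * Q)) := by
    have e : InnerProductSpace.rankOne ℂ (ι oneB) (ι oneB) * Q = 0 := by
      ext x
      rw [mul_apply_eq_comp, InnerProductSpace.rankOne_apply,
        ← ContinuousLinearMap.adjoint_inner_left, ← ContinuousLinearMap.star_eq_adjoint, hs, h2]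
      simp
    rw [star_mul, star_star, hs, Commute, SemiconjBy]
    calc star S * Q * (Q * S) = star S * S * Q := by
          rw [mul_assoc, ← mul_assoc Q, hi, h1.eq, mul_assoc]
      _ = S * star S * Q := by rw [r.comm h, add_mul, e, add_zero]
      _ = Q * S * (star S * Q) := by
          rw [h1.eq, mul_assoc S Q, ← mul_assoc Q, h3.eq, mul_assoc _ Q Q, hi, mul_assoc]
  have hc : ∀ f, Q (ι (mulB _ Bd.id.conj f)) = star (star S * Q) (Q (ι f)) := fun f => by
    rw [← r.mul, star_mul, star_star, hs, h1.eq, ← mul_apply_eq_comp, h1.eq,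
      ← mul_apply_eq_comp (S * Q), mul_assoc, hi, mul_apply_eq_comp]
  have hz := r.fuglede h hN hc
  obtain ⟨C, hC, hb⟩ := r.norm_le h
  have hext : ∀ g : C(closedBall (0 : ℂ) 1, ℂ), ∃ G : ℂ → ℂ, Bd G ∧
      ∀ z (hz : z ∈ closedBall (0 : ℂ) 1), G z = g ⟨z, hz⟩ := fun g => by
    have e : ∀ z (hz : z ∈ closedBall (0 : ℂ) 1),
        Function.extend Subtype.val g 0 z = g ⟨z, hz⟩ := fun z hz =>
      Subtype.val_injective.extend_apply g 0 ⟨z, hz⟩
    refine ⟨Function.extend Subtype.val g 0, .of_bound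
      ((MeasurableEmbedding.subtype_coe measurableSet_closedBall).measurable_extend
      g.continuous.measurable measurable_const) ‖g‖ fun z hz => ?_, e⟩
    rw [e z (ball_subset_closedBall hz)]
    exact g.norm_coe_le_norm _
  have key : ∀ g : C(closedBall (0 : ℂ) 1, ℂ), ∀ f k : BB, Q (ι f) = 0 →
      (∀ z (hz : z ∈ closedBall (0 : ℂ) 1), k.1 z = g ⟨z, hz⟩ * f.1 z) → Q (ι k) = 0 := by
    intro g
    induction g using ContinuousMap.induction_on_of_compact with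
    | const c =>
      intro f k hf hk
      rw [r.congr h (g := c • f) fun z hz => hk z (ball_subset_closedBall hz), map_smul, map_smul,
        hf, smul_zero]
    | id =>
      intro f k hf hk
      rw [r.congr h (g := mulB _ Bd.id f) fun z hz => hk z (ball_subset_closedBall hz), hz, hf,
        map_zero]
    | star_id =>
      intro f k hf hk
      rw [r.congr h (g := mulB _ Bd.id.conj f) fun z hz => hk z (ball_subset_closedBall hz), hc, hf,
        map_zero]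
    | add g1 g2 i1 i2 =>
      intro f k hf hk
      obtain ⟨G1, b1, e1⟩ := hext g1
      obtain ⟨G2, b2, e2⟩ := hext g2
      rw [r.congr h (g := mulB _ b1 f + mulB _ b2 f), map_add, map_add,
        i1 f _ hf fun z hz => by simp [e1 z hz], i2 f _ hf fun z hz => by simp [e2 z hz], add_zero]
      intro z hz
      have hz' := ball_subset_closedBall hz
      simp [hk z hz', e1 z hz', e2 z hz', add_mul]
    | mul g1 g2 i1 i2 =>
      intro f k hf hk
      obtain ⟨G2, b2, e2⟩ := hext g2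
      refine i1 (mulB _ b2 f) k (i2 f _ hf fun z hz => by simp [e2 z hz]) fun z hz => ?_
      simp [hk z hz, e2 z hz, mul_assoc]
    | frequently g hg =>
      intro f k hf hk
      obtain ⟨-, L, hL, hfL⟩ := f.2
      rw [← norm_le_zero_iff]
      have t : Tendsto (fun ε : ℝ => ‖Q‖ * (C * (ε * L))) (𝓝[>] 0) (𝓝 0) :=
        tendsto_nhdsWithin_of_tendsto_nhds (Continuous.tendsto' (by fun_prop) _ _ (by simp))
      refine ge_of_tendsto t ?_
      filter_upwards [self_mem_nhdsWithin] with ε hε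
      obtain ⟨g', i', hg'⟩ := (hg.and_eventually (ball_mem_nhds g hε)).exists
      obtain ⟨G, b, e⟩ := hext g'
      have e1 : Q (ι k) = Q (ι (k - mulB _ b f)) := by
        rw [map_sub, map_sub, i' f (mulB _ b f) hf fun z hz => by simp [e z hz], sub_zero]
      rw [e1]
      refine (Q.le_opNorm _).trans (mul_le_mul_of_nonneg_left (hb _ _ fun z hz => ?_)
        (norm_nonneg _))
      have hz' := ball_subset_closedBall hz
      have e2 : (k - mulB _ b f).1 z = (g ⟨z, hz'⟩ - g' ⟨z, hz'⟩) * f.1 z := by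
        simp [hk z hz', e z hz', sub_mul]
      rw [e2, norm_mul]
      refine mul_le_mul ?_ (hfL z hz) (norm_nonneg _) (le_of_lt hε)
      rw [← dist_eq_norm, dist_comm]
      exact (ContinuousMap.dist_apply_le_dist _).trans (mem_ball.1 hg').le
  have fin : ∀ f : BB, Q (ι f) = 0 := fun f => by
    rw [← norm_le_zero_iff]
    have t : Tendsto (fun ε : ℝ => ‖Q‖ * ε) (𝓝[>] 0) (𝓝 0) :=
      tendsto_nhdsWithin_of_tendsto_nhds (Continuous.tendsto' (by fun_prop) _ _ (by simp))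
    refine ge_of_tendsto t ?_
    filter_upwards [self_mem_nhdsWithin] with ε hε
    have hε : 0 < ε := hε
    obtain ⟨g, hg, hn⟩ := r.approx h f (ε := ε ^ 2) (by positivity)
    have e0 : Q (ι g) = 0 := key ⟨fun z => g.1 z, hg.comp continuous_subtype_val⟩ oneB g h2
      fun z hz => by simp [oneB]
    rw [← sub_zero (Q (ι f)), ← e0, ← map_sub]
    exact (Q.le_opNorm _).trans (mul_le_mul_of_nonneg_left
      ((sq_le_sq₀ (norm_nonneg _) hε.le).1 hn) (norm_nonneg _))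
  ext x
  exact r.dense.induction_on (p := fun x => Q x = 0) x (isClosed_eq (by fun_prop) (by fun_prop)) fin

end Pool.Agent.Lib.MP_45cb44_an
end

-- part Pool.Agent.Lib.MP_45cb44_an.Transfer
section

/-! Transfer of the functional model to the given operator. -/

namespace Pool.Agent.Lib.MP_45cb44_an

open MeasureTheory Metric Set Filter Topology InnerProductSpace ContinuousLinearMap
open scoped ENNReal NNReal Real ComplexConjugate InnerProductSpace

lemma zero_of_real {f : ℂ → ℂ} (hf : DifferentiableOn ℂ f (ball 0 (1 / 2)))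
    (h : ∀ t : ℝ, t ≠ 0 → |t| < 1 / 2 → f t = 0) {z : ℂ} (hz : ‖z‖ < 1 / 2) : f z = 0 := by
  refine (hf.analyticOnNhd isOpen_ball).eqOn_zero_of_preconnected_of_frequently_eq_zero
    (convex_ball _ _).isPreconnected (z₀ := 0) (by simp) ?_ (mem_ball_zero_iff.2 hz)
  have t : Tendsto (fun t : ℝ => (t : ℂ)) (𝓝[≠] 0) (𝓝[≠] 0) :=
    tendsto_nhdsWithin_of_tendsto_nhds_of_eventually_within _
      (tendsto_nhdsWithin_of_tendsto_nhds (Complex.continuous_ofReal.tendsto' _ _ (by simp)))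
      (by filter_upwards [self_mem_nhdsWithin] with t ht; simpa using ht)
  refine t.frequently (Eventually.frequently ?_)
  filter_upwards [self_mem_nhdsWithin, mem_nhdsWithin_of_mem_nhds (ball_mem_nhds (0 : ℝ)
    (show (0 : ℝ) < 1 / 2 by norm_num))] with t h1 h2
  exact h t h1 (by simpa using h2)

lemma polar {Γ : ℂ × ℂ → ℂ} (hd : ∀ x : ℂ × ℂ, ‖x.1‖ < 1 → ‖x.2‖ < 1 → DifferentiableAt ℂ Γ x)
    (h : ∀ q : ℂ, q ≠ 0 → ‖q‖ < 1 → Γ (conj q, q) = 0) {p q : ℂ} (hp : ‖p‖ < 1 / 2)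
    (hq : ‖q‖ < 1 / 2) : Γ (p, q) = 0 := by
  have n : ∀ a b : ℂ, ‖a‖ < 1 / 2 → ‖b‖ < 1 / 2 →
      ‖a - Complex.I * b‖ < 1 ∧ ‖a + Complex.I * b‖ < 1 := fun a b ha hb => by
    have : ‖Complex.I * b‖ = ‖b‖ := by simp
    constructor <;> linarith [norm_sub_le a (Complex.I * b), norm_add_le a (Complex.I * b)]
  have s : ∀ a b : ℂ, ‖a‖ < 1 / 2 → ‖b‖ < 1 / 2 → Γ (a - Complex.I * b, a + Complex.I * b) = 0 := by
    intro a b ha hb
    refine zero_of_real (f := fun b => Γ (a - Complex.I * b, a + Complex.I * b))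
      (fun b hb => ?_) (fun b hb0 hb => ?_) hb
    · have := n a b ha (mem_ball_zero_iff.1 hb)
      exact ((hd _ this.1 this.2).comp b (by fun_prop)).differentiableWithinAt
    · have hb' : ‖(b : ℂ)‖ < 1 / 2 := by simpa using hb
      refine zero_of_real (f := fun a => Γ (a - Complex.I * b, a + Complex.I * b))
        (fun a ha => ?_) (fun a _ ha => ?_) ha
      · have := n a b (mem_ball_zero_iff.1 ha) hb'
        exact ((hd _ this.1 this.2).comp a (by fun_prop)).differentiableWithinAt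
      · have := h (a + Complex.I * b) (fun h0 => hb0 (by simpa using congrArg Complex.im h0))
          (n a b (by simpa using ha) hb').2
        simpa [sub_eq_add_neg] using this
  have := s ((p + q) / 2) (Complex.I * (p - q) / 2)
    (by rw [norm_div, Complex.norm_two]; linarith [norm_add_le p q])
    (by rw [norm_div, Complex.norm_two, norm_mul, Complex.norm_I]; linarith [norm_sub_le p q])
  convert this using 3
  · linear_combination (p - q) / 2 * Complex.I_mul_I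
  · linear_combination (q - p) / 2 * Complex.I_mul_I

variable {H K : Type*} [NormedAddCommGroup H] [InnerProductSpace ℂ H] [CompleteSpace H]
  [NormedAddCommGroup K] [InnerProductSpace ℂ K] [CompleteSpace K]

/-- No nonzero orbit is orthogonal to a nonzero vector. -/
def Trans (T : H →L[ℂ] H) : Prop := ∀ x y : H, (∀ n : ℕ, ⟪(T ^ n) x, y⟫_ℂ = 0) → x = 0 ∨ y = 0

lemma Trans.star {T : H →L[ℂ] H} (h : Trans T) : Trans (star T) := fun x y hx => by
  refine (h y x fun n => ?_).symm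
  rw [← adjoint_inner_right, ← star_eq_adjoint, star_pow, ← inner_conj_symm, hx, map_zero]

lemma Trans.eq_top {T : H →L[ℂ] H} (h : Trans T) {M : Submodule ℂ H} (hM : IsClosed (M : Set H))
    (hT : ∀ x ∈ M, T x ∈ M) {x : H} (hx : x ∈ M) (h0 : x ≠ 0) : M = ⊤ := by
  have := hM.completeSpace_coe
  rw [← Submodule.orthogonal_eq_bot_iff, eq_bot_iff]
  intro y hy
  refine (h x y fun n => hy _ ?_).resolve_left h0
  induction n with
  | zero => simpa
  | succ n ih => rw [pow_succ', mul_apply_eq_comp]; exact hT _ ih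

/-- Normalised resolvent. -/
noncomputable def Rq (A : H →L[ℂ] H) (q : ℂ) : H →L[ℂ] H := Ring.inverse (1 - q • A)

lemma unit_Rq {A : H →L[ℂ] H} (hA : ‖A‖ ≤ 1) {q : ℂ} (hq : ‖q‖ < 1) : IsUnit (1 - q • A) :=
  (Units.oneSub (q • A) (by rw [norm_smul]; nlinarith [norm_nonneg q, norm_nonneg A])).isUnit

lemma diff_Rq {A : H →L[ℂ] H} (hA : ‖A‖ ≤ 1) {q : ℂ} (hq : ‖q‖ < 1) :
    DifferentiableAt ℂ (Rq A) q :=
  (hasDerivAt_inv (((hasDerivAt_id q).smul_const A).const_sub 1) (unit_Rq hA hq)).differentiableAt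

lemma Rq_eq {A : H →L[ℂ] H} (hA : ‖A‖ ≤ 1) {q : ℂ} (hq : ‖q‖ < 1) (x : H) :
    Rq A q x - q • A (Rq A q x) = x := by
  have := congrArg (fun B : H →L[ℂ] H => B x) (Ring.mul_inverse_cancel _ (unit_Rq hA hq))
  simpa [Rq] using this

lemma Rq_eq' {A : H →L[ℂ] H} (hA : ‖A‖ ≤ 1) {q : ℂ} (hq : ‖q‖ < 1) (x : H) :
    Rq A q (x - q • A x) = x := by
  have := congrArg (fun B : H →L[ℂ] H => B x) (Ring.inverse_mul_cancel _ (unit_Rq hA hq))
  simpa [Rq] using this

lemma inner_Rq (A : H →L[ℂ] H) (φ : H) (p q : ℂ) :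
    om φ (Rq (star A) (conj p) * Rq A q) = ⟪Rq A p φ, Rq A q φ⟫_ℂ := by
  have : Rq (star A) (conj p) = star (Rq A p) := by
    simp [Rq, ← Ring.inverse_star, star_smul]
  rw [this, om_apply, mul_apply_eq_comp, star_eq_adjoint, adjoint_inner_right]

lemma gram_Rq {A : H →L[ℂ] H} {S : K →L[ℂ] K} (hA : ‖A‖ ≤ 1) (hS : ‖S‖ ≤ 1) {φ : H} {e : K}
    (h : ∀ q : ℂ, q ≠ 0 → ‖q‖ < 1 → ‖Rq A q φ‖ ^ 2 = ‖Rq S q e‖ ^ 2) {p q : ℂ}
    (hp : ‖p‖ < 1 / 2) (hq : ‖q‖ < 1 / 2) :
    ⟪Rq A p φ, Rq A q φ⟫_ℂ = ⟪Rq S p e, Rq S q e⟫_ℂ := by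
  rw [← inner_Rq, ← inner_Rq, ← sub_eq_zero]
  refine polar (Γ := fun x => om φ (Rq (star A) x.1 * Rq A x.2) - om e (Rq (star S) x.1 * Rq S x.2))
    (fun x h1 h2 => ?_) (fun q h0 h1 => ?_) (by simpa using hp) hq
  · have a1 := diff_Rq (A := star A) (by simpa using hA) h1
    have a2 := diff_Rq hA h2
    have a3 := diff_Rq (A := star S) (by simpa using hS) h1
    have a4 := diff_Rq hS h2
    exact ((om φ).differentiableAt.comp x ((a1.comp x differentiableAt_fst).mul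
      (a2.comp x differentiableAt_snd))).sub ((om e).differentiableAt.comp x
      ((a3.comp x differentiableAt_fst).mul (a4.comp x differentiableAt_snd)))
  · simp only [inner_Rq, inner_self_eq_norm_sq_to_K]
    rw [sub_eq_zero]
    exact_mod_cast h q h0 h1

omit [CompleteSpace H] in
lemma exists_iso {I : Type*} {x : I → H} {y : I → K} (h : ∀ i j, ⟪x i, x j⟫_ℂ = ⟪y i, y j⟫_ℂ)
    (hd : (Submodule.span ℂ (range x)).topologicalClosure = ⊤) :
    ∃ U : H →L[ℂ] K, (∀ v, ‖U v‖ = ‖v‖) ∧ ∀ i, U (x i) = y i := by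
  have hn : ∀ c : I →₀ ℂ, ‖Finsupp.linearCombination ℂ y c‖ = ‖Finsupp.linearCombination ℂ x c‖ :=
    fun c => by
      rw [← sq_eq_sq₀ (norm_nonneg _) (norm_nonneg _), ← inner_self_eq_norm_sq (𝕜 := ℂ),
        ← inner_self_eq_norm_sq (𝕜 := ℂ)]
      simp only [Finsupp.linearCombination_apply, Finsupp.sum, sum_inner, inner_sum, inner_smul_left,
        inner_smul_right, h]
  have hd' : DenseRange (Finsupp.linearCombination ℂ x) := by
    rw [DenseRange, ← LinearMap.coe_range, Finsupp.range_linearCombination,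
      Submodule.dense_iff_topologicalClosure_eq_top, hd]
  have he := fun c => LinearMap.extendOfNorm_eq (f := Finsupp.linearCombination ℂ y) hd'
    ⟨1, fun c => by rw [hn, one_mul]⟩ c
  refine ⟨(Finsupp.linearCombination ℂ y).extendOfNorm (Finsupp.linearCombination ℂ x),
    fun v => ?_, fun i => by simpa using he (Finsupp.single i 1)⟩
  exact hd'.induction_on (p := fun v => ‖(Finsupp.linearCombination ℂ y).extendOfNorm
    (Finsupp.linearCombination ℂ x) v‖ = ‖v‖) v (isClosed_eq (by fun_prop) (by fun_prop))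
    fun c => by rw [he, hn]

lemma exists_intertwiner {A : H →L[ℂ] H} {S : K →L[ℂ] K} (hA : ‖A‖ ≤ 1) (hS : ‖S‖ ≤ 1) {φ : H}
    {e : K} (h : ∀ q : ℂ, q ≠ 0 → ‖q‖ < 1 → ‖Rq A q φ‖ ^ 2 = ‖Rq S q e‖ ^ 2) (ht : Trans A)
    (h0 : φ ≠ 0) : ∃ U : H →L[ℂ] K, (∀ v, ‖U v‖ = ‖v‖) ∧ U φ = e ∧ ∀ v, U (A v) = S (U v) := by
  let I := {q : ℂ // q ≠ 0 ∧ ‖q‖ < 1 / 2}
  let M := (Submodule.span ℂ (range fun q : I => Rq A q φ)).topologicalClosure
  have ev : ∀ᶠ q : ℂ in 𝓝[≠] 0, q ≠ 0 ∧ ‖q‖ < 1 / 2 := by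
    filter_upwards [self_mem_nhdsWithin, mem_nhdsWithin_of_mem_nhds (ball_mem_nhds (0 : ℂ)
      (show (0 : ℝ) < 1 / 2 by norm_num))] with t h1 h2
    exact ⟨h1, by simpa using h2⟩
  have t1 : Tendsto (fun q => Rq A q φ) (𝓝[≠] 0) (𝓝 φ) := by
    have := ((ContinuousLinearMap.apply ℂ H φ).continuous.tendsto _).comp
      (diff_Rq hA (q := 0) (by simp)).continuousAt.tendsto
    refine tendsto_nhdsWithin_of_tendsto_nhds ?_
    simpa [Rq, Function.comp_def] using this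
  have t2 : Tendsto (fun q => Rq S q e) (𝓝[≠] 0) (𝓝 e) := by
    have := ((ContinuousLinearMap.apply ℂ K e).continuous.tendsto _).comp
      (diff_Rq hS (q := 0) (by simp)).continuousAt.tendsto
    refine tendsto_nhdsWithin_of_tendsto_nhds ?_
    simpa [Rq, Function.comp_def] using this
  have hm : ∀ q : I, Rq A q φ ∈ M := fun q =>
    Submodule.le_topologicalClosure _ (Submodule.subset_span ⟨q, rfl⟩)
  have hc : IsClosed (M : Set H) := Submodule.isClosed_topologicalClosure _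
  have hφ : φ ∈ M := hc.mem_of_tendsto t1 (ev.mono fun q hq => hm ⟨q, hq⟩)
  have e1 : ∀ q : I, A (Rq A q φ) = (q : ℂ)⁻¹ • (Rq A q φ - φ) := fun q => by
    rw [eq_inv_smul_iff₀ q.2.1, eq_sub_iff_add_eq, add_comm, ← eq_sub_iff_add_eq,
      Rq_eq hA (by linarith [q.2.2])]
  have e2 : ∀ q : I, S (Rq S q e) = (q : ℂ)⁻¹ • (Rq S q e - e) := fun q => by
    rw [eq_inv_smul_iff₀ q.2.1, eq_sub_iff_add_eq, add_comm, ← eq_sub_iff_add_eq,
      Rq_eq hS (by linarith [q.2.2])]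
  have hM : M = ⊤ := by
    refine ht.eq_top hc (fun x hx => ?_) hφ h0
    have : M ≤ M.comap A.toLinearMap := by
      refine Submodule.topologicalClosure_minimal _ (Submodule.span_le.2 ?_)
        (hc.preimage A.continuous)
      rintro _ ⟨q, rfl⟩
      change A (Rq A q φ) ∈ M
      rw [e1]
      exact M.smul_mem _ (M.sub_mem (hm q) hφ)
    exact this hx
  obtain ⟨U, hU, hy⟩ := exists_iso (y := fun q : I => Rq S q e)
    (fun p q => gram_Rq hA hS h p.2.2 q.2.2) hM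
  have hUφ : U φ = e := by
    refine tendsto_nhds_unique ((U.continuous.tendsto _).comp t1) (t2.congr' ?_)
    filter_upwards [ev] with q hq using (hy ⟨q, hq⟩).symm
  refine ⟨U, hU, hUφ, fun v => ?_⟩
  have : M ≤ LinearMap.eqLocus (U ∘L A).toLinearMap (S ∘L U).toLinearMap := by
    refine Submodule.topologicalClosure_minimal _ (Submodule.span_le.2 ?_)
      (isClosed_eq (U ∘L A).continuous (S ∘L U).continuous)
    rintro _ ⟨q, rfl⟩
    change U (A (Rq A q φ)) = S (U (Rq A q φ))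
    rw [e1, hy, e2, map_smul, map_sub, hy, hUφ]
  exact this (hM ▸ Submodule.mem_top : v ∈ M)

lemma norm_comm_sq {T : H →L[ℂ] H} {φ : H} (hc : star T * T = T * star T + rankOne ℂ φ φ) (x : H) :
    ‖T x‖ ^ 2 = ‖star T x‖ ^ 2 + ‖⟪φ, x⟫_ℂ‖ ^ 2 := by
  have := congrArg (fun B : H →L[ℂ] H => ⟪x, B x⟫_ℂ) hc
  simp only [add_apply, mul_apply_eq_comp, rankOne_apply, inner_add_right, inner_smul_right] at this
  rw [star_eq_adjoint, adjoint_inner_right, ← adjoint_inner_left T (adjoint T x) x,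
    inner_self_eq_norm_sq_to_K,
    inner_self_eq_norm_sq_to_K, ← inner_conj_symm x φ, Complex.mul_conj,
    Complex.normSq_eq_norm_sq, ← star_eq_adjoint] at this
  apply Complex.ofReal_injective
  push_cast at this ⊢
  exact this

theorem exists_rep {T : H →L[ℂ] H} {φ : H} (hc : star T * T = T * star T + rankOne ℂ φ φ)
    (hT : ‖T‖ ≤ 1 / 4) (ht : Trans T) (h0 : φ ≠ 0) :
    ∃ (μ ϱ : Measure ℂ) (J : BB →ₗ[ℂ] H), Pair μ ϱ ∧ Rep μ ϱ J (star T) ∧ J oneB = φ := by
  obtain ⟨μ, hμ, hp⟩ := exists_principal hc hT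
  have hμD : μ ≤ mD := hμ.trans (Measure.restrict_mono (ball_subset_ball (by norm_num)) le_rfl)
  have := finite_of_le hμD
  have h : Pair μ (mD - μ) := ⟨by rw [add_comm, Measure.sub_add_cancel_of_le hμD], hμ⟩
  obtain ⟨ι, S, r, hS⟩ := h.exists_model
  have hA : ‖star T‖ ≤ 1 := by rw [norm_star]; linarith
  obtain ⟨U, hU, hUφ, hUA⟩ := exists_intertwiner hA hS (φ := φ) (e := ι oneB) (fun q q0 q1 => by
    have hu : 1 < ‖(conj q)⁻¹‖ := by
      rw [norm_inv, RCLike.norm_conj]; exact (one_lt_inv₀ (norm_pos_iff.2 q0)).2 q1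
    have e1 := hp _ hu.le (-q • Rq (star T) q φ) (by
      conv_rhs => rw [← Rq_eq hA q1 φ]
      simp [smul_smul, q0, sub_eq_add_neg, add_comm])
    let k : BB := ⟨_, (bd_inv_sub hu).conj⟩
    have e2 : ι k = -q • Rq S q (ι oneB) := by
      rw [← map_smul, ← Rq_eq' hS q1 (ι k), r.mul, ← map_smul, ← map_sub, ← map_smul]
      congr 1
      rw [← map_smul]
      refine r.congr h fun z hz => ?_
      have : conj z - q⁻¹ ≠ 0 := fun h0 => by
        have := congrArg norm (sub_eq_zero.1 h0)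
        rw [norm_inv, RCLike.norm_conj] at this hu
        linarith [mem_ball_zero_iff.1 hz]
      have e : conj z - q⁻¹ = -q⁻¹ * (1 - q * conj z) := by field_simp; ring
      have : 1 - q * conj z ≠ 0 := fun h0 => this (by rw [e, h0, mul_zero])
      simp [k, oneB, e]
      field_simp
      ring
    have e3 := r.norm_sq k
    rw [h.QH_out hu, Complex.ofReal_re, ← e1, e2, norm_smul, norm_smul, mul_pow, mul_pow] at e3
    exact (mul_left_cancel₀ (by simpa using q0) e3).symm) ht.star h0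
  have hi : ∀ x y, ⟪U x, U y⟫_ℂ = ⟪x, y⟫_ℂ := fun x y =>
    (⟨U.toLinearMap, hU⟩ : H →ₗᵢ[ℂ] _).inner_map_map x y
  have hVU : ∀ x, adjoint U (U x) = x := fun x =>
    ext_inner_left ℂ fun y => by rw [adjoint_inner_right, hi]
  have hSU : ∀ x, star S (U x) = U (T x) := fun x => by
    have a1 := norm_comm_sq (T := star S) (φ := ι oneB) (by simpa using r.comm h) (U x)
    rw [star_star, ← hUA, hU, ← hUφ, hi, ← norm_comm_sq hc] at a1
    have a2 : ⟪star S (U x), U (T x)⟫_ℂ = ⟪T x, T x⟫_ℂ := by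
      rw [star_eq_adjoint, adjoint_inner_left, ← hUA, hi, star_eq_adjoint, adjoint_inner_right]
    rw [← sub_eq_zero, ← norm_eq_zero, ← sq_eq_zero_iff, @norm_sub_sq ℂ, a1, a2, hU,
      inner_self_eq_norm_sq]
    ring
  have hVS : ∀ y, adjoint U (S y) = star T (adjoint U y) := fun y =>
    ext_inner_left ℂ fun x => by
      rw [adjoint_inner_right, ← adjoint_inner_left, ← star_eq_adjoint, hSU, star_eq_adjoint,
        adjoint_inner_right, adjoint_inner_right]
  have hQ : 1 - U ∘L adjoint U = 0 := by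
    refine r.pure h (IsStarProjection.one_sub ⟨?_, ?_⟩) ?_ ?_
    · ext y; simp [hVU]
    · simp [isSelfAdjoint_iff, star_eq_adjoint]
    · ext y; simp [hVS, hUA]
    · simp [← hUφ, hVU]
  have hUV : ∀ y, U (adjoint U y) = y := fun y => by
    have := congrArg (fun B => B y) hQ
    exact (sub_eq_zero.1 (by simpa using this)).symm
  refine ⟨μ, _, (adjoint U).toLinearMap ∘ₗ ι, h, ⟨fun k f => ?_, fun f => ?_, ?_⟩, ?_⟩
  · simp [← hi, hUV, r.inner]
  · simp [← hVS, r.mul]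
  · exact DenseRange.comp (g := adjoint U) (Function.Surjective.denseRange fun x => ⟨U x, hVU x⟩)
      r.dense (adjoint U).continuous
  · simp [← hUφ, hVU]

end Pool.Agent.Lib.MP_45cb44_an
end

-- part Pool.Agent.Lib.MP_45cb44_an.Fam
section

/-! Families of densities and orthogonal orbits. -/

namespace Pool.Agent.Lib.MP_45cb44_an

open MeasureTheory Metric Set Filter Topology InnerProductSpace ContinuousLinearMap
open scoped ENNReal NNReal Real ComplexConjugate InnerProductSpace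

variable {H : Type*} [NormedAddCommGroup H] [InnerProductSpace ℂ H] [CompleteSpace H]

/-- A normal operator, two vectors and the perturbation function. -/
structure Pert (N : H →L[ℂ] H) (u v : H) (F : ℂ → ℂ) : Prop where
  normal : IsStarNormal N
  spec : spectrum ℂ N ⊆ ball 0 (1 / 2)
  mF : Measurable F
  iF : Integrable F mD
  eq : ∀ θ, Bd θ → ⟪v, cfc (CT mD θ) N u⟫_ℂ = ∫ ζ, θ ζ ∂mD - ∫ ζ, θ ζ * F ζ ∂mD

/-- Densities near `c` with bounded Cauchy transforms that asymptotically annihilate `F`. -/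
structure Fam (F : ℂ → ℂ) (c : ℂ) (R : ℝ) (Θ : ℕ → ℂ → ℂ) : Prop where
  bd : ∀ k, Bd (Θ k)
  supp : ∀ k ζ, Θ k ζ ≠ 0 → ζ ∈ ball c R
  bound : ∃ C, 0 ≤ C ∧ ∀ k, ∀ z ∈ ball (0 : ℂ) 1, ‖CT mD (Θ k) z‖ ≤ C
  small : ∃ η : ℕ → ℝ, Tendsto η atTop (𝓝 0) ∧ ∀ k φ K, Bd φ →
    DifferentiableOn ℂ φ (ball c (2 * R)) → (∀ z ∈ ball (0 : ℂ) 1, ‖φ z‖ ≤ K) →
    ‖∫ ζ, Θ k ζ * φ ζ * F ζ ∂mD‖ ≤ K * η k

/-- Weak operator convergence to zero along the hyperfilter. -/
def WZ (A : ℕ → H →L[ℂ] H) : Prop :=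
  ∀ a b, Tendsto (fun k => ⟪a, A k b⟫_ℂ) (hyperfilter ℕ) (𝓝 0)

variable {N : H →L[ℂ] H} {u v : H} {F θ θ' : ℂ → ℂ} {c c' : ℂ} {R : ℝ} {Θ Θ' : ℕ → ℂ → ℂ}

lemma Pert.step (P : Pert N u v F) (hθ : Bd θ) : (N + rankOne ℂ u v) (cfc (CT mD θ) N u) =
    cfc (CT mD fun ζ => ζ * θ ζ) N u - (∫ ζ, θ ζ * F ζ ∂mD) • u := by
  have hN := P.normal
  have h := continuous_CT le_rfl hθ
  have e : (CT mD fun ζ => ζ * θ ζ) = fun z => z * CT mD θ z + ∫ ζ, θ ζ ∂mD := by
    ext z
    simpa using CT_mul_sub le_rfl hθ 0 z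
  rw [e, cfc_add _ _ _ (by fun_prop) (by fun_prop), cfc_mul _ _ _ (by fun_prop) (by fun_prop),
    cfc_id' ℂ N, cfc_const _ N, add_apply, rankOne_apply, P.eq θ hθ]
  simp [Algebra.algebraMap_eq_smul_one, sub_smul, add_sub_assoc]

lemma Pert.pair (P : Pert N u v F) (hθ : Bd θ) (hθ' : Bd θ') :
    ⟪star (cfc (CT mD θ') N) v, cfc (CT mD θ) N u⟫_ℂ =
      -(∫ ζ, θ' ζ * CT mD θ ζ * F ζ ∂mD + ∫ ζ, θ ζ * CT mD θ' ζ * F ζ ∂mD) := by
  have h := continuous_CT le_rfl hθ
  have h' := continuous_CT le_rfl hθ'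
  have b := hθ'.mul (hθ.CT le_rfl)
  have b' := hθ.mul (hθ'.CT le_rfl)
  have e : (fun z => CT mD θ' z * CT mD θ z) =
      CT mD fun ζ => θ' ζ * CT mD θ ζ + θ ζ * CT mD θ' ζ := by
    ext z
    rw [CT_add le_rfl b b', CT_mul le_rfl le_rfl hθ' hθ]
  rw [star_eq_adjoint, adjoint_inner_left, ← mul_apply_eq_comp,
    ← cfc_mul _ _ _ (by fun_prop) (by fun_prop), e, P.eq _ (b.add b'),
    integral_add (b.integrable le_rfl) (b'.integrable le_rfl), CT_antisymm le_rfl le_rfl hθ' hθ]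
  simp only [add_mul]
  rw [integral_add (b.mul_integrable le_rfl P.iF) (b'.mul_integrable le_rfl P.iF)]
  ring

lemma Fam.mul (f : Fam F c R Θ) (h0 : 0 < R) (hD : ball c (2 * R) ⊆ ball 0 1) :
    Fam F c R fun k ζ => ζ * Θ k ζ := by
  obtain ⟨C, hC, h1⟩ := f.bound
  obtain ⟨η, h2, h3⟩ := f.small
  refine ⟨fun k => Bd.id.mul (f.bd k), fun k ζ h => f.supp k ζ (right_ne_zero_of_mul h),
    ⟨C + 3 * R * C, by positivity, fun k z hz => ?_⟩, η, h2, fun k φ K b d hK => ?_⟩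
  · have e := CT_mul_sub le_rfl (f.bd k) 0 z
    simp only [sub_zero] at e
    rw [e]
    refine norm_add_le_of_le ?_ (moment (f.bd k) h0 hD (f.supp k) hC fun w hw => h1 k w (hD hw.1))
    rw [norm_mul]
    exact (mul_le_of_le_one_left (norm_nonneg _) (mem_ball_zero_iff.1 hz).le).trans (h1 k z hz)
  · have := h3 k (fun ζ => ζ * φ ζ) K (Bd.id.mul b) (differentiableOn_id.mul d) fun z hz => by
      rw [norm_mul]
      exact (mul_le_of_le_one_left (norm_nonneg _) (mem_ball_zero_iff.1 hz).le).trans (hK z hz)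
    convert this using 4 with ζ
    ring

lemma Fam.diff (f : Fam F c R Θ) (h0 : 0 < R) (hc : 4 * R ≤ ‖c - c'‖) (k : ℕ) :
    DifferentiableOn ℂ (CT mD (Θ k)) (ball c' (2 * R)) := fun w hw => by
  refine (differentiableAt_CT le_rfl (f.bd k) h0 fun ζ hζ => ?_).differentiableWithinAt
  linarith [mem_ball_iff_norm'.1 (f.supp k ζ hζ), mem_ball_iff_norm.1 hw,
    norm_sub_le_norm_sub_add_norm_sub c ζ c', norm_sub_le_norm_sub_add_norm_sub ζ w c']

lemma Pert.norm_le (P : Pert N u v F) (f : Fam F c R Θ) : ∃ C, ∀ k, ‖cfc (CT mD (Θ k)) N‖ ≤ C := by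
  obtain ⟨C, hC, h⟩ := f.bound
  exact ⟨C, fun k => norm_cfc_le hC fun z hz => h k z (ball_subset_ball (by norm_num) (P.spec hz))⟩

lemma wz_of_trans (ht : Trans (N + rankOne ℂ u v)) (hu : u ≠ 0) {A : ℕ → H →L[ℂ] H}
    (hA : ∀ k, Commute N (A k)) {C : ℝ} (hC : ∀ k, ‖A k‖ ≤ C)
    (h : ∀ a, Tendsto (fun k => ⟪a, A k u⟫_ℂ) (hyperfilter ℕ) (𝓝 0)) : WZ A := by
  choose y hy using fun a : H => exists_weak_limit (𝕜 := ℂ) (hyperfilter ℕ) (fun k => star (A k) a)
    (C * ‖a‖) fun k => (star (A k)).le_of_opNorm_le (by simpa using hC k) a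
  simp only [star_eq_adjoint, adjoint_inner_left] at hy
  let M : Submodule ℂ H := ⨅ a, (ℂ ∙ y a)ᗮ
  have m : ∀ b, b ∈ M ↔ ∀ a, Tendsto (fun k => ⟪a, A k b⟫_ℂ) (hyperfilter ℕ) (𝓝 0) := fun b => by
    simp only [M, Submodule.mem_iInf, Submodule.mem_orthogonal_singleton_iff_inner_right]
    exact forall_congr' fun a => ⟨fun e => e ▸ hy a b, tendsto_nhds_unique (hy a b)⟩
  have e := ht.eq_top (M := M) (by
    simp only [M, Submodule.coe_iInf]
    exact isClosed_iInter fun a => Submodule.isClosed_orthogonal _) (fun b hb => by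
    refine M.add_mem ((m _).2 fun a => ?_) (M.smul_mem _ ((m u).2 h))
    refine ((m b).1 hb (star N a)).congr fun k => ?_
    rw [star_eq_adjoint, adjoint_inner_left, ← mul_apply_eq_comp, (hA k).eq]
    rfl)
    ((m u).2 h) hu
  exact fun a b => (m b).1 (e ▸ Submodule.mem_top) a

lemma Pert.orth (P : Pert N u v F) (h0 : 0 < R) (hD : ball c (2 * R) ⊆ ball 0 1)
    (hc : 4 * R ≤ ‖c - c'‖) (f' : Fam F c' R Θ') {y : H}
    (hy : ∀ a, Tendsto (fun k => ⟪star (cfc (CT mD (Θ' k)) N) v, a⟫_ℂ) (hyperfilter ℕ) (𝓝 ⟪y, a⟫_ℂ))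
    (n : ℕ) : ∀ Θ x, Fam F c R Θ →
    (∀ a, Tendsto (fun k => ⟪a, cfc (CT mD (Θ k)) N u⟫_ℂ) (hyperfilter ℕ) (𝓝 ⟪a, x⟫_ℂ)) →
    ⟪y, ((N + rankOne ℂ u v) ^ n) x⟫_ℂ = 0 := by
  induction n with
  | zero =>
    intro Θ x f hx
    obtain ⟨C, -, h1⟩ := f.bound
    obtain ⟨η, h2, h3⟩ := f.small
    obtain ⟨C', -, h1'⟩ := f'.bound
    obtain ⟨η', h2', h3'⟩ := f'.small
    have a1 : ∀ j, ‖⟪star (cfc (CT mD (Θ' j)) N) v, x⟫_ℂ‖ ≤ C * η' j + C' * 0 := fun j => by
      refine le_of_tendsto_of_tendsto' (hx _).norm (tendsto_const_nhds.add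
        ((h2.mono_left Nat.hyperfilter_le_atTop).const_mul C')) fun k => ?_
      rw [P.pair (f.bd k) (f'.bd j), norm_neg]
      exact norm_add_le_of_le (h3' j _ C ((f.bd k).CT le_rfl) (f.diff h0 hc k) (h1 k))
        (h3 k _ C' ((f'.bd j).CT le_rfl) (f'.diff h0 (by rwa [norm_sub_rev]) j) (h1' j))
    have a2 := le_of_tendsto_of_tendsto' (hy x).norm
      (((h2'.mono_left Nat.hyperfilter_le_atTop).const_mul C).add tendsto_const_nhds) a1
    simpa using a2
  | succ n ih =>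
    intro Θ x f hx
    rw [pow_succ, mul_apply_eq_comp]
    refine ih _ _ (f.mul h0 hD) fun a => ?_
    obtain ⟨η, h2, h3⟩ := f.small
    have t : Tendsto (fun k => ∫ ζ, Θ k ζ * F ζ ∂mD) (hyperfilter ℕ) (𝓝 0) := by
      refine squeeze_zero_norm (fun k => ?_) (h2.mono_left Nat.hyperfilter_le_atTop)
      simpa using h3 k (fun _ => 1) 1 (Bd.const 1) (differentiableOn_const 1) (by simp)
    have := (hx (star (N + rankOne ℂ u v) a)).add (t.mul_const ⟪a, u⟫_ℂ)
    simp only [star_eq_adjoint, adjoint_inner_left, P.step (f.bd _)] at this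
    simpa [inner_sub_right, inner_smul_right, inner_add_right] using this

lemma Pert.not_trans (P : Pert N u v F) (hu : u ≠ 0) (hv : v ≠ 0) (h0 : 0 < R)
    (hD : ball c (2 * R) ⊆ ball 0 1) (hc : 4 * R ≤ ‖c - c'‖) (f : Fam F c R Θ) (f' : Fam F c' R Θ')
    (n : ¬WZ fun k => cfc (CT mD (Θ k)) N) (n' : ¬WZ fun k => cfc (CT mD (Θ' k)) N) :
    ¬Trans (N + rankOne ℂ u v) := fun ht => by
  have hN := P.normal
  obtain ⟨C, hC⟩ := P.norm_le f
  obtain ⟨C', hC'⟩ := P.norm_le f'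
  obtain ⟨x, hx⟩ := exists_weak_limit' (𝕜 := ℂ) (hyperfilter ℕ) (fun k => cfc (CT mD (Θ k)) N u)
    (C * ‖u‖) fun k => le_of_opNorm_le _ (hC k) u
  obtain ⟨y, hy⟩ := exists_weak_limit (𝕜 := ℂ) (hyperfilter ℕ)
    (fun k => star (cfc (CT mD (Θ' k)) N) v) (C' * ‖v‖)
    fun k => le_of_opNorm_le _ (by simpa using hC' k) v
  have cm : ∀ g : ℂ → ℂ, Commute N (cfc g N) := fun g => by
    simpa only [cfc_id' ℂ N] using cfc_commute_cfc (fun z => z) g N
  refine (ht x y fun n => ?_).elim (fun e => n ?_) fun e => n' fun a b => ?_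
  · rw [← inner_conj_symm, P.orth h0 hD hc f' hy n Θ x f hx, map_zero]
  · exact wz_of_trans ht hu (fun k => cm _) hC fun a => by simpa [e] using hx a
  · have s := ht.star
    rw [star_add, star_eq_adjoint (rankOne ℂ u v), adjoint_rankOne] at s
    have := wz_of_trans s hv (A := fun k => star (cfc (CT mD (Θ' k)) N)) (fun k => (cm _).star_star)
      (C := C') (fun k => by simpa using hC' k) (fun a => by
        simpa [e, Function.comp_def] using (Complex.continuous_conj.tendsto _).comp (hy a)) b a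
    simpa [Function.comp_def, star_eq_adjoint, adjoint_inner_left] using
      (Complex.continuous_conj.tendsto _).comp this

end Pool.Agent.Lib.MP_45cb44_an
end

-- part Pool.Agent.Lib.MP_45cb44_an.Dual
section

/-! Representation of bounded evaluations, and the dichotomy. -/

namespace Pool.Agent.Lib.MP_45cb44_an

open MeasureTheory Metric Set Filter Topology
open scoped ENNReal NNReal Real ComplexConjugate InnerProductSpace

lemma exists_Linfty {α : Type*} [MeasurableSpace α] (m : Measure α) [IsFiniteMeasure m]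
    {V : Type*} [AddCommGroup V] [Module ℂ V] (e : V →ₗ[ℂ] Lp ℂ 2 m) (l : V →ₗ[ℂ] ℂ) {C : ℝ}
    (hC : 0 ≤ C) (h : ∀ v, ‖l v‖ ≤ C * ∫ x, ‖e v x‖ ∂m) :
    ∃ k : α → ℂ, Measurable k ∧ (∀ x, ‖k x‖ ≤ C) ∧ ∀ v, ∫ x, k x * e v x ∂m = l v := by
  have i : ∀ g : Lp ℂ 2 m, Integrable g m := fun g => (Lp.memLp g).integrable one_le_two
  let p : Seminorm ℂ (Lp ℂ 2 m) := .of (fun g => C * ∫ x, ‖g x‖ ∂m) (fun g g' => by
      rw [← mul_add, ← integral_add (i g).norm (i g').norm]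
      refine mul_le_mul_of_nonneg_left (integral_mono_ae (i _).norm ((i g).norm.add (i g').norm) ?_)
        hC
      filter_upwards [Lp.coeFn_add g g'] with x hx
      rw [hx]; exact norm_add_le _ _)
    fun a g => by
      rw [mul_left_comm, ← integral_const_mul ‖a‖]
      congr 1
      refine integral_congr_ae ?_
      filter_upwards [Lp.coeFn_smul a g] with x hx
      rw [hx, Pi.smul_apply, norm_smul]
  have hk : LinearMap.ker e ≤ LinearMap.ker l := fun v hv => by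
    have := h v
    rw [LinearMap.mem_ker.1 hv, integral_congr_ae (g := fun _ => 0) (by
      filter_upwards [Lp.coeFn_zero ℂ 2 m] with x hx; rw [hx]; simp)] at this
    simpa using this
  obtain ⟨g, hg, hp⟩ := Module.Dual.exists_extension_of_le_seminorm (LinearMap.range e)
    (((LinearMap.ker e).liftQ l hk).comp e.quotKerEquivRange.symm.toLinearMap) (p := p) (by
      rintro ⟨_, v, rfl⟩
      refine le_trans (le_of_eq ?_) (h v)
      simp [LinearMap.quotKerEquivRange_symm_apply_image])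
  have hb : ∀ y, ‖g y‖ ≤ C * (m univ ^ (1 / 2 : ℝ)).toReal * ‖y‖ := fun y => by
    refine (hp y).trans ?_
    rw [mul_assoc]
    refine mul_le_mul_of_nonneg_left ?_ hC
    have := eLpNorm_le_eLpNorm_mul_rpow_measure_univ (μ := m) one_le_two (Lp.aestronglyMeasurable y)
    rw [integral_norm_eq_lintegral_enorm (Lp.aestronglyMeasurable y), Lp.norm_def,
      ← ENNReal.toReal_mul, ← eLpNorm_one_eq_lintegral_enorm, mul_comm]
    refine ENNReal.toReal_mono (ENNReal.mul_ne_top (Lp.eLpNorm_ne_top y) (by finiteness)) ?_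
    convert this
    norm_num
  set k := (InnerProductSpace.toDual ℂ _).symm (g.mkContinuous _ hb)
  have e1 : ∀ y : Lp ℂ 2 m, ∫ x, conj (k x) * y x ∂m = g y := fun y => by
    have := InnerProductSpace.toDual_symm_apply (𝕜 := ℂ) (x := y) (y := g.mkContinuous _ hb)
    rw [L2.inner_def] at this
    simpa only [RCLike.inner_apply, mul_comm, LinearMap.mkContinuous_apply] using this
  have mk := (Lp.stronglyMeasurable k).measurable
  have mA : MeasurableSet {x | C < ‖k x‖} := measurableSet_lt measurable_const mk.norm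
  have ae : ∀ᵐ x ∂m, ‖k x‖ ≤ C := by
    have h1 := (Lp.memLp k).indicator mA
    have h2 := hp h1.toLp
    rw [← e1, integral_congr_ae (g := indicator {x | C < ‖k x‖} fun x => ((‖k x‖ ^ 2 : ℝ) : ℂ)) (by
      filter_upwards [h1.coeFn_toLp] with x hx
      rw [hx]
      by_cases h : C < ‖k x‖ <;> simp [h, Complex.conj_mul']), integral_indicator mA,
      integral_complex_ofReal, Complex.norm_real] at h2
    have h3 : p h1.toLp = ∫ x in {x | C < ‖k x‖}, C * ‖k x‖ ∂m := by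
      rw [integral_const_mul, ← integral_indicator mA]
      refine congrArg (C * ·) (integral_congr_ae ?_)
      filter_upwards [h1.coeFn_toLp] with x hx
      rw [hx, norm_indicator_eq_indicator_norm]
    have i2 : Integrable (fun x => ‖k x‖ ^ 2) m := (Lp.memLp k).integrable_norm_pow two_ne_zero
    have i3 := (i2.sub ((i k).norm.const_mul C)).integrableOn (s := {x | C < ‖k x‖})
    have pos : ∀ᵐ x ∂m.restrict {x | C < ‖k x‖}, 0 < ‖k x‖ ^ 2 - C * ‖k x‖ := by
      filter_upwards [ae_restrict_mem mA] with x (hx : C < ‖k x‖)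
      nlinarith
    have h4 := (setIntegral_eq_zero_iff_of_nonneg_ae (pos.mono fun x hx => hx.le) i3).1
      (le_antisymm (by
        rw [integral_sub i2.integrableOn ((i k).norm.const_mul C).integrableOn, ← h3]
        linarith [Real.le_norm_self (∫ x in {x | C < ‖k x‖}, ‖k x‖ ^ 2 ∂m)])
        (integral_nonneg_of_ae (pos.mono fun x hx => hx.le)))
    have h5 := (ae_restrict_iff' mA).1 (pos.and h4)
    filter_upwards [h5] with x hx
    by_contra! h6
    exact (hx h6).1.ne' (hx h6).2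
  refine ⟨indicator {x | C < ‖k x‖}ᶜ fun x => conj (k x), (measurable_conj mk).indicator mA.compl,
    fun x => ?_, fun v => ?_⟩
  · by_cases h : C < ‖k x‖
    · simpa [h] using hC
    · simpa [h] using not_lt.1 h
  · have := hg ⟨e v, v, rfl⟩
    simp only [LinearMap.comp_apply, LinearEquiv.coe_coe,
      LinearMap.quotKerEquivRange_symm_apply_image, Submodule.mkQ_apply,
      Submodule.liftQ_apply] at this
    rw [← this, ← e1]
    refine integral_congr_ae ?_
    filter_upwards [ae] with x hx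
    simp [not_lt.2 hx]

lemma exists_repr {F : ℂ → ℂ} (mF : Measurable F) (hF : Integrable F mD) {S U : Set ℂ}
    (hS : MeasurableSet S) {c : ℂ} {C : ℝ} (hC : 0 ≤ C)
    (h : ∀ φ, Bd φ → DifferentiableOn ℂ φ U → ‖φ c‖ ≤ C * ∫ ζ in S, ‖φ ζ‖ * ‖F ζ‖ ∂mD) :
    ∃ θ, Bd θ ∧ (∀ ζ, θ ζ ≠ 0 → ζ ∈ S) ∧
      ∀ φ, Bd φ → DifferentiableOn ℂ φ U → ∫ ζ, θ ζ * φ ζ * F ζ ∂mD = φ c := by
  have md : Measurable fun ζ => ENNReal.ofReal ‖F ζ‖ := mF.norm.ennreal_ofReal
  let m := (mD.restrict S).withDensity fun ζ => ENNReal.ofReal ‖F ζ‖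
  have : IsFiniteMeasure m := isFiniteMeasure_withDensity_ofReal hF.norm.integrableOn.2
  let V : Submodule ℂ (ℂ → ℂ) :=
    { carrier := {φ | Bd φ ∧ DifferentiableOn ℂ φ U}
      add_mem' := fun a b => ⟨a.1.add b.1, a.2.add b.2⟩
      zero_mem' := ⟨Bd.const 0, differentiableOn_const 0⟩
      smul_mem' := fun t _ a => ⟨(Bd.const t).mul a.1, a.2.const_smul t⟩ }
  have hm : ∀ φ : V, MemLp φ.1 2 m := fun ⟨φ, ⟨m1, K, _, hb⟩, _⟩ =>
    .of_bound m1.aestronglyMeasurable K (by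
      filter_upwards [(withDensity_absolutelyContinuous _ _).ae_le
        (ae_ball_of_le (Measure.restrict_le_self (s := S)))] with z hz using hb z hz)
  let e : V →ₗ[ℂ] Lp ℂ 2 m :=
    { toFun := fun φ => (hm φ).toLp
      map_add' := fun a b => MemLp.toLp_add _ _
      map_smul' := fun t a => MemLp.toLp_const_smul t _ }
  have ce : ∀ φ : V, e φ =ᵐ[m] φ.1 := fun φ => (hm φ).coeFn_toLp
  obtain ⟨k, mk, nk, hk⟩ := exists_Linfty m e ((LinearMap.proj c).comp V.subtype) hC fun φ => by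
    refine (h φ φ.2.1 φ.2.2).trans_eq ?_
    rw [integral_congr_ae (μ := m) (g := fun x => ‖φ.1 x‖) (by filter_upwards [ce φ] with x hx; rw [hx]),
      integral_withDensity_eq_integral_toReal_smul md (by simp)]
    simp [mul_comm]
  refine ⟨indicator S fun ζ => k ζ * (‖F ζ‖ / F ζ), .of_bound (Measurable.indicator (by fun_prop) hS)
    C fun ζ _ => (norm_indicator_le_norm_self _ _).trans ?_,
    fun ζ hζ => mem_of_indicator_ne_zero hζ, fun φ h1 h2 => ?_⟩
  · rw [norm_mul, norm_div, Complex.norm_real, norm_norm]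
    exact (mul_le_of_le_one_right (norm_nonneg _) (div_self_le_one _)).trans (nk ζ)
  · have := hk ⟨φ, h1, h2⟩
    rw [integral_congr_ae (g := fun x => k x * φ x) (by
      filter_upwards [ce ⟨φ, h1, h2⟩] with x hx; rw [hx]),
      integral_withDensity_eq_integral_toReal_smul md (by simp), ← integral_indicator hS] at this
    refine Eq.trans (integral_congr_ae (.of_forall fun ζ => ?_)) this
    by_cases h3 : ζ ∈ S
    · by_cases h4 : F ζ = 0
      · simp [h3, h4]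
      · simp only [indicator_of_mem h3, ENNReal.toReal_ofReal (norm_nonneg _), Complex.real_smul]
        field_simp
    · simp [h3]

theorem dichotomy {F : ℂ → ℂ} (mF : Measurable F) (hF : Integrable F mD) {c : ℂ} {R : ℝ}
    (h0 : 0 < R) (h1 : R ≤ 1 / 2) (hD : ball c (2 * R) ⊆ ball 0 1) :
    (∃ θ, Bd θ ∧ (∀ ζ, θ ζ ≠ 0 → ζ ∈ ball c R \ ball c (R / 4)) ∧
      ∀ φ, Bd φ → DifferentiableOn ℂ φ (ball c (2 * R)) → ∫ ζ, θ ζ * φ ζ * F ζ ∂mD = φ c) ∨
    ∃ C, ∀ ε > 0, ∃ Θ, Bd Θ ∧ (∀ ζ, Θ ζ ≠ 0 → ζ ∈ ball c R) ∧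
      (∀ z ∈ ball (0 : ℂ) 1, ‖CT mD Θ z‖ ≤ C) ∧
      ∫ ζ, ‖Θ ζ‖ * ‖F ζ‖ ∂mD ≤ ε ∧ R ^ 2 / 100 ≤ ‖∫ ζ, Θ ζ ∂mD‖ := by
  obtain ⟨A, κ, l⟩ := exists_lev h0
  by_cases h : ∃ ε > 0, ∀ n, UU (fun z => ‖F z‖) c R ε A n ⊆ ball c (3 * R / 4)
  · obtain ⟨ε, hε, h⟩ := h
    have := l.pos 1
    exact Or.inl (exists_repr mF hF (measurableSet_ball.diff measurableSet_ball) (by positivity)
      fun φ => l.barrier h0 h1 hD hF.norm (fun _ => norm_nonneg _) hε h)
  · refine Or.inr ⟨3 * Real.exp (κ 0) + 4, fun ε hε => ?_⟩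
    · have hE : 0 < ε / (3 * Real.exp (κ 0)) := by positivity
      obtain ⟨Θ, a1, a2, a3, a4, a5⟩ := l.route_fn h0 h1 hD hF.norm (fun _ => norm_nonneg _) hE
        fun h2 => h ⟨_, hE, h2⟩
      exact ⟨Θ, a1, a2, a3, a4.trans_eq (by field_simp), a5⟩

end Pool.Agent.Lib.MP_45cb44_an
end
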