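import Pool.Agent.Lib.MP_45cb44_an.Dual

/-! The compact case. -/

namespace Pool.Agent.Lib.MP_45cb44_an

open Metric Set Filter Topology InnerProductSpace ContinuousLinearMap
open scoped ENNReal NNReal Real ComplexConjugate InnerProductSpace

variable {H : Type*} [NormedAddCommGroup H] [InnerProductSpace ℂ H] [CompleteSpace H]
  {T N : H →L[ℂ] H} {u v : H}

lemma Trans.no_eigen (ht : Trans T) (hd : ¬FiniteDimensional ℂ H) {x : H} {a : ℂ}
    (h : T x = a • x) : x = 0 := by
  by_contra hx
  have := ht.eq_top (M := ℂ ∙ x) (Submodule.closed_of_finiteDimensional _) (fun y hy => by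
    obtain ⟨b, rfl⟩ := Submodule.mem_span_singleton.1 hy
    rw [map_smul, h]
    exact Submodule.smul_mem _ _ (Submodule.smul_mem _ _ (Submodule.mem_span_singleton_self x)))
    (Submodule.mem_span_singleton_self x) hx
  exact hd (Module.finite_def.2 (this ▸ Submodule.fg_span_singleton x))

lemma hilden (ht : Trans T) (hd : ¬FiniteDimensional ℂ H) {a : ℂ}
    (hc : IsCompactOperator (T - a • 1 : H →L[ℂ] H)) : False := by
  set K : H →L[ℂ] H := T - a • 1 with hK
  have ne : ∀ x b, K x = b • x → x = 0 := fun x b h => ht.no_eigen hd (a := b + a) (by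
    rw [add_smul, ← h]
    simp [hK])
  have sr : spectralRadius ℂ K = 0 := by
    simp only [spectralRadius, ENNReal.iSup_eq_zero, ENNReal.coe_eq_zero, nnnorm_eq_zero]
    intro k hk
    by_contra h0
    rcases hc.hasEigenvalue_or_mem_resolventSet h0 with h | h
    · obtain ⟨x, hx⟩ := h.exists_hasEigenvector
      exact hx.2 (ne x k hx.apply_eq_smul)
    · exact hk h
  have : Nontrivial H := by
    by_contra h
    rw [not_nontrivial_iff_subsingleton] at h
    exact hd inferInstance
  obtain ⟨x, hx⟩ : ∃ x, ‖K‖ < ‖K x‖ := by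
    obtain ⟨x, hx⟩ := exists_ne (0 : H)
    have p : 0 < ‖K x‖ := norm_pos_iff.2 fun h => hx (ne x 0 (by simpa using h))
    refine ⟨(((‖K‖ + 1) / ‖K x‖ : ℝ) : ℂ) • x, ?_⟩
    rw [map_smul, norm_smul, Complex.norm_real, Real.norm_of_nonneg (by positivity),
      div_mul_cancel₀ _ p.ne']
    linarith
  have x1 : 1 < ‖x‖ := by
    by_contra! h
    linarith [K.le_opNorm x, mul_le_of_le_one_right (norm_nonneg K) h]
  have hS := IsCompactOperator.isCompact_closure_image_of_bounded (f := K.toLinearMap) hc
    (isBounded_ball (x := x) (r := 1))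
  have key : ∀ y ∈ closure (K.toLinearMap '' ball x 1), ∃ A : H →L[ℂ] H, Commute A T ∧
      A y ∈ ball x 1 := fun y hy => by
    have h1 : y ∈ closedBall (K x) ‖K‖ := closure_minimal (by
      rintro _ ⟨z, hz, rfl⟩
      exact (K.dist_le_opNorm z x).trans (mul_le_of_le_one_right (norm_nonneg _) (le_of_lt hz)))
      isClosed_closedBall hy
    let P : Submodule ℂ H :=
      { carrier := {z | ∃ A : H →L[ℂ] H, Commute A T ∧ A y = z}
        add_mem' := by
          rintro _ _ ⟨A, h, rfl⟩ ⟨B, h', rfl⟩
          exact ⟨A + B, h.add_left h', rfl⟩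
        zero_mem' := ⟨0, Commute.zero_left _, rfl⟩
        smul_mem' := by
          rintro c _ ⟨A, h, rfl⟩
          exact ⟨c • A, h.smul_left c, rfl⟩ }
    have e := ht.eq_top (M := P.topologicalClosure) P.isClosed_topologicalClosure
      (fun z hz => (MapsTo.closure (s := P) (t := P) (by
        rintro _ ⟨A, h, rfl⟩
        exact ⟨T * A, (Commute.refl T).mul_left h, rfl⟩) T.continuous) hz)
      (P.le_topologicalClosure ⟨1, Commute.one_left _, rfl⟩) (by
        rintro rfl
        simp at h1
        linarith)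
    obtain ⟨_, ⟨A, h, rfl⟩, h'⟩ := Metric.mem_closure_iff.1
      (show x ∈ closure (P : Set H) from (e ▸ Submodule.mem_top : x ∈ P.topologicalClosure)) 1 one_pos
    exact ⟨A, h, mem_ball'.2 h'⟩
  choose! A h1 h2 using key
  obtain ⟨t, h3, h4⟩ := hS.elim_nhds_subcover (fun y => A y ⁻¹' ball x 1) fun y hy =>
    (isOpen_ball.preimage (A y).continuous).mem_nhds (h2 y hy)
  set c := ∑ y ∈ t, ‖A y‖ + 1
  have c0 : 0 < c := by positivity
  have it : ∀ n : ℕ, ∃ B : H →L[ℂ] H, Commute B T ∧ ‖B‖ ≤ c ^ n ∧ B ((K ^ n) x) ∈ ball x 1 := by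
    intro n
    induction n with
    | zero => exact ⟨1, Commute.one_left _, by simp, by simp⟩
    | succ n ih =>
      obtain ⟨B, b1, b2, b3⟩ := ih
      obtain ⟨y, hy, h5⟩ := mem_iUnion₂.1 (h4 (subset_closure ⟨_, b3, rfl⟩))
      refine ⟨A y * B, (h1 y (h3 y hy)).mul_left b1, (norm_mul_le _ _).trans ?_, ?_⟩
      · rw [pow_succ']
        refine mul_le_mul ?_ b2 (norm_nonneg _) c0.le
        linarith [Finset.single_le_sum (f := fun y => ‖A y‖) (fun _ _ => norm_nonneg _) hy]
      · have b4 : Commute B K := b1.sub_right ((Commute.one_right B).smul_right a)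
        rw [pow_succ', mul_apply_eq_comp, mul_apply_eq_comp, ← mul_apply_eq_comp B, b4.eq]
        exact h5
  have g := spectrum.pow_norm_pow_one_div_tendsto_nhds_spectralRadius K
  rw [sr] at g
  have t2 := (tendsto_pow_atTop_nhds_zero_of_lt_one (r := (1 / 2 : ℝ)) (by norm_num)
    (by norm_num)).mul_const ‖x‖
  rw [zero_mul] at t2
  obtain ⟨n, a1, a2, a3⟩ := ((g.eventually (gt_mem_nhds (ENNReal.ofReal_pos.2
    (by positivity : 0 < 1 / 2 / c)))).and ((eventually_ne_atTop 0).and
    (t2.eventually (gt_mem_nhds (sub_pos.2 x1))))).exists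
  obtain ⟨B, -, b2, b3⟩ := it n
  rw [ENNReal.ofReal_lt_ofReal_iff (by positivity), one_div] at a1
  have a4 := pow_le_pow_left₀ (by positivity) a1.le n
  rw [Real.rpow_inv_natCast_pow (norm_nonneg _) a2] at a4
  have a5 := le_of_opNorm_le _ ((norm_mul_le B (K ^ n)).trans
    (mul_le_mul b2 a4 (norm_nonneg _) (by positivity))) x
  rw [← mul_pow, mul_div_cancel₀ _ c0.ne', mul_apply_eq_comp] at a5
  linarith [mem_ball_iff_norm'.1 b3, norm_sub_norm_le x (B ((K ^ n) x))]

omit [CompleteSpace H] in
lemma compact_of_fg (h : (LinearMap.range T.toLinearMap).FG) : IsCompactOperator T := by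
  have : FiniteDimensional ℂ (LinearMap.range T.toLinearMap) := Module.Finite.iff_fg.2 h
  have := FiniteDimensional.proper ℂ (LinearMap.range T.toLinearMap)
  exact (isCompactOperator_of_locallyCompactSpace_dom
    (T.codRestrict _ fun x => LinearMap.mem_range_self T.toLinearMap x)).clm_comp
    (LinearMap.range T.toLinearMap).subtypeL

lemma fg_range (hN : IsStarNormal N) (ht : Trans (N + rankOne ℂ u v)) (hd : ¬FiniteDimensional ℂ H)
    (Z : Finset ℂ) : ∀ f : ℂ → ℂ, Continuous f → (∀ z ∈ spectrum ℂ N, z ∉ Z → f z = 0) →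
    (LinearMap.range (cfc f N).toLinearMap).FG := by
  classical
  induction Z using Finset.induction_on with
  | empty =>
    intro f _ h
    rw [cfc_congr (g := fun _ => 0) fun z hz => h z hz (by simp), cfc_const_zero]
    simpa using Submodule.fg_bot
  | insert a Z _ ih =>
    intro f hf h
    refine Submodule.fg_of_fg_map_of_fg_inf_ker (N - a • 1 : H →L[ℂ] H).toLinearMap ?_
      (Submodule.fg_of_fg_map_of_fg_inf_ker (innerSL ℂ v).toLinearMap (IsNoetherian.noetherian _) ?_)
    · have := ih (fun z => (z - a) * f z) (by fun_prop) fun z hz h1 => by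
        by_cases h2 : z = a
        · simp [h2]
        · simp [h z hz (by simp [h1, h2])]
      rw [cfc_mul _ _ _ (by fun_prop) (by fun_prop), cfc_sub _ _ _ (by fun_prop) (by fun_prop),
        cfc_id' ℂ N, cfc_const _ N, Algebra.algebraMap_eq_smul_one] at this
      rw [← LinearMap.range_comp]
      exact this
    · convert Submodule.fg_bot
      refine eq_bot_iff.2 fun x hx => ht.no_eigen hd (a := a) ?_
      have h1 : N x = a • x := by simpa [sub_eq_zero] using hx.1.2
      have h2 : ⟪v, x⟫_ℂ = 0 := by simpa using hx.2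
      simp [h1, h2]

lemma not_trans_one_acc (hN : IsStarNormal N) (hd : ¬FiniteDimensional ℂ H) {a : ℂ}
    (h : ∀ b, AccPt b (𝓟 (spectrum ℂ N)) → b = a) : ¬Trans (N + rankOne ℂ u v) := fun ht => by
  refine hilden ht hd (a := a) ?_
  have c1 : IsCompactOperator (N - a • 1 : H →L[ℂ] H) := by
    refine isClosed_setOfPred_isCompactOperator.closure_subset
      (Metric.mem_closure_iff.2 fun ε hε => ?_)
    let f : ℂ → ℂ := fun z => (z - a) * (min 1 (max 0 (‖z - a‖ / (ε / 4) - 1)) : ℝ)
    have hf : Continuous f := by fun_prop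
    have fin : (spectrum ℂ N \ ball a (ε / 4)).Finite := by
      by_contra h1
      obtain ⟨b, hb, h2⟩ := Set.Infinite.exists_accPt_of_subset_isCompact h1
        ((spectrum.isCompact N).diff isOpen_ball) Subset.rfl
      rw [h b (h2.mono (principal_mono.2 sdiff_subset))] at hb
      exact hb.2 (mem_ball_self (by positivity))
    refine ⟨cfc f N, compact_of_fg (fg_range hN ht hd fin.toFinset f hf fun z hz h1 => ?_), ?_⟩
    · have : ‖z - a‖ < ε / 4 := by simpa [hz, dist_eq_norm] using h1
      have : ‖z - a‖ / (ε / 4) - 1 ≤ 0 := sub_nonpos.2 ((div_le_one (by positivity)).2 this.le)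
      simp [f, max_eq_left this]
    · have e : N - a • 1 - cfc f N = cfc (fun z => z - a - f z) N := by
        rw [cfc_sub _ _ _ (by fun_prop) (by fun_prop), cfc_sub _ _ _ (by fun_prop) (by fun_prop),
          cfc_id' ℂ N, cfc_const _ N, Algebra.algebraMap_eq_smul_one]
      rw [dist_eq_norm, e]
      refine (norm_cfc_le (c := ε / 2) (by positivity) fun z _ => ?_).trans_lt (by linarith)
      by_cases h1 : ε / 2 ≤ ‖z - a‖
      · have : 1 ≤ ‖z - a‖ / (ε / 4) - 1 := by
          rw [le_sub_iff_add_le, le_div_iff₀ (by positivity)]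
          linarith
        simp only [f, min_eq_left (le_max_of_le_right this), Complex.ofReal_one, mul_one, sub_self,
          norm_zero]
        positivity
      · simp only [f]
        rw [← mul_one_sub, norm_mul, ← Complex.ofReal_one, ← Complex.ofReal_sub, Complex.norm_real,
          Real.norm_of_nonneg (sub_nonneg.2 (min_le_left _ _))]
        refine (mul_le_of_le_one_right (norm_nonneg _) (sub_le_self _ ?_)).trans (not_le.1 h1).le
        positivity
  have c2 : IsCompactOperator (rankOne ℂ u v) := compact_of_fg (Submodule.FG.of_le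
    (Submodule.fg_span_singleton u) (by
      rintro _ ⟨x, rfl⟩
      exact Submodule.smul_mem _ _ (Submodule.mem_span_singleton_self u)))
  rw [add_sub_right_comm]
  exact c1.add c2

end Pool.Agent.Lib.MP_45cb44_an
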