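import Pool.Agent.Lib.MP_45cb44_an.Main
import Pool.Agent.Lib.MP_45cb44_an.Hilden


/-! Rank one perturbations of normal operators. -/

namespace Pool.Agent.Lib.MP_45cb44_an

open Metric Set Filter Topology InnerProductSpace ContinuousLinearMap
open scoped ComplexConjugate InnerProductSpace

variable {H : Type*} [NormedAddCommGroup H] [InnerProductSpace ℂ H] [CompleteSpace H]
  {T N K : H →L[ℂ] H}

lemma not_trans_pert (hN : IsStarNormal N) (hd : ¬FiniteDimensional ℂ H) (u v : H) :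
    ¬Trans (N + rankOne ℂ u v) := by
  by_cases hu : u = 0
  · simpa [hu] using not_trans_normal hN.1.eq hd
  by_cases hv : v = 0
  · simpa [hv] using not_trans_normal hN.1.eq hd
  have : Nontrivial H := ⟨u, 0, hu⟩
  set t : ℝ := (4 * ‖N‖ + 1)⁻¹ with e
  have t0 : 0 < t := by positivity
  have hN' : IsStarNormal ((t : ℂ) • N) := ⟨by
    rw [star_smul]
    exact (hN.1.smul_left _).smul_right _⟩
  obtain ⟨F, m, i, h⟩ := exists_F hN' ((t : ℂ) • u) v
  have P : Pert ((t : ℂ) • N) ((t : ℂ) • u) v F := ⟨hN', fun z hz => by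
    refine mem_ball_zero_iff.2 ((spectrum.norm_le_norm_of_mem hz).trans_lt ?_)
    rw [norm_smul, Complex.norm_real, Real.norm_of_nonneg t0.le, e, inv_mul_lt_iff₀ (by positivity)]
    linarith [norm_nonneg N], m, i, h⟩
  have key : ¬Trans ((t : ℂ) • N + rankOne ℂ ((t : ℂ) • u) v) := by
    by_cases h1 : ∃ a b, AccPt a (𝓟 (spectrum ℂ ((t : ℂ) • N))) ∧
        AccPt b (𝓟 (spectrum ℂ ((t : ℂ) • N))) ∧ a ≠ b
    · obtain ⟨a, b, ha, hb, hab⟩ := h1
      exact P.two_acc (smul_ne_zero (by exact_mod_cast t0.ne') hu) hv ha hb hab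
    push Not at h1
    by_cases h2 : ∃ a, AccPt a (𝓟 (spectrum ℂ ((t : ℂ) • N)))
    · obtain ⟨a, ha⟩ := h2
      exact not_trans_one_acc hN' hd fun b hb => h1 b a hb ha
    · exact not_trans_one_acc hN' hd (a := 0) fun b hb => (h2 ⟨b, hb⟩).elim
  refine fun ht => key fun x y hx => ht x y fun n => ?_
  have := hx n
  rw [map_smul, smul_apply, ← smul_add, smul_pow] at this
  simpa [inner_smul_left, t0.ne'] using this

lemma invariant_of_not_trans (h : ¬Trans T) :
    ∃ M : Submodule ℂ H, IsClosed (M : Set H) ∧ (∀ x ∈ M, T x ∈ M) ∧ M ≠ ⊥ ∧ M ≠ ⊤ := by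
  unfold Trans at h
  push Not at h
  obtain ⟨x, y, h1, hx, hy⟩ := h
  let M : Submodule ℂ H := ⨅ n : ℕ, (ℂ ∙ adjoint (T ^ n) y)ᗮ
  have m : ∀ z, z ∈ M ↔ ∀ n : ℕ, ⟪(T ^ n) z, y⟫_ℂ = 0 := fun z => by
    simp only [M, Submodule.mem_iInf, Submodule.mem_orthogonal_singleton_iff_inner_left,
      adjoint_inner_right]
  refine ⟨M, ?_, fun z hz => (m _).2 fun n => ?_, fun h0 => hx ?_, fun h0 => hy ?_⟩
  · simp only [M, Submodule.coe_iInf]
    exact isClosed_iInter fun a => Submodule.isClosed_orthogonal _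
  · simpa [pow_succ] using (m z).1 hz (n + 1)
  · simpa [h0] using (m x).2 h1
  · simpa using (m y).1 (h0 ▸ Submodule.mem_top) 0

theorem exists_invariant_pert (hd : ¬FiniteDimensional ℂ H) (hN : star N * N = N * star N) (w : H)
    (h : ∀ x, ∃ c : ℂ, c • w = K x) :
    ∃ M : Submodule ℂ H, IsClosed (M : Set H) ∧ (∀ x ∈ M, (N + K) x ∈ M) ∧ M ≠ ⊥ ∧ M ≠ ⊤ := by
  have e : K = rankOne ℂ w (star K (((‖w‖ ^ 2)⁻¹ : ℝ) • w)) := by
    ext x
    obtain ⟨c, hc⟩ := h x
    rw [rankOne_apply, star_eq_adjoint, adjoint_inner_left, ← hc]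
    by_cases h0 : w = 0
    · simp [h0]
    congr 1
    rw [← Complex.coe_smul, inner_smul_left, inner_smul_right, inner_self_eq_norm_sq_to_K]
    simp [h0, mul_left_comm _ c]
  rw [e]
  exact invariant_of_not_trans (not_trans_pert ⟨hN⟩ hd _ _)

end Pool.Agent.Lib.MP_45cb44_an
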