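import Pool.Agent.Lib.MP_45cb44_an.HyBas

-- part Pool.Agent.Lib.MP_45cb44_an.HyMax
section

/-! Differentiation of measures against the Poisson kernel, densities, packings. -/

namespace Pool.Agent.Lib.MP_45cb44_an.Hy

open MeasureTheory Metric Set Filter Topology InnerProductSpace
open scoped InnerProductSpace ComplexConjugate ENNReal

lemma mx_near (ρ : Measure ℂ) (u : ℂ) {M : ℝ} (hM : 0 ≤ M)
    (h : ∀ r, 0 < r → ρ (closedBall u r) ≤ ENNReal.ofReal (M * r ^ 2)) {σ : ℝ} (hσ : 0 < σ) :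
    ∫⁻ z, ENNReal.ofReal (σ / (‖z - u‖ ^ 2 + σ) ^ 2) ∂ρ ≤ ENNReal.ofReal (8 * M) := by
  have h1 : ∀ z : ℂ, ENNReal.ofReal (σ / (‖z - u‖ ^ 2 + σ) ^ 2) ≤
      ∑' k : ℕ, (closedBall u (Real.sqrt (2 ^ k * σ))).indicator
        (fun _ => ENNReal.ofReal (4 / (4 ^ k * σ))) z := by
    intro z
    obtain ⟨k, h2, h3⟩ : ∃ k : ℕ, ‖z - u‖ ^ 2 ≤ 2 ^ k * σ ∧ 2 ^ k * σ ≤ 2 * (‖z - u‖ ^ 2 + σ) := by
      obtain ⟨n, h4, h5⟩ := exists_nat_pow_near (x := (‖z - u‖ ^ 2 + σ) / σ) (y := 2)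
        ((one_le_div hσ).2 (by nlinarith [sq_nonneg ‖z - u‖])) one_lt_two
      rw [le_div_iff₀ hσ] at h4
      rw [div_lt_iff₀ hσ] at h5
      exact ⟨n + 1, by linarith, by rw [pow_succ]; linarith⟩
    refine le_trans ?_ (ENNReal.le_tsum k)
    rw [indicator_of_mem (by rw [mem_closedBall, dist_eq_norm]; exact Real.le_sqrt_of_sq_le h2)]
    refine ENNReal.ofReal_le_ofReal ?_
    rw [div_le_div_iff₀ (by positivity) (by positivity)]
    have h4 : (4 : ℝ) ^ k = 2 ^ k * 2 ^ k := by rw [← mul_pow]; norm_num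
    have h5 : (2 ^ k * σ) ^ 2 ≤ (2 * (‖z - u‖ ^ 2 + σ)) ^ 2 := by gcongr
    rw [h4]; nlinarith
  refine (lintegral_mono h1).trans ?_
  rw [lintegral_tsum fun k => (measurable_const.indicator measurableSet_closedBall).aemeasurable]
  have h2 : ∀ k : ℕ, ∫⁻ z, (closedBall u (Real.sqrt (2 ^ k * σ))).indicator
      (fun _ => ENNReal.ofReal (4 / (4 ^ k * σ))) z ∂ρ ≤ ENNReal.ofReal (4 * M * (1 / 2) ^ k) := by
    intro k
    rw [lintegral_indicator_const measurableSet_closedBall]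
    refine (mul_le_mul_right (h _ (by positivity)) _).trans (le_of_eq ?_)
    rw [← ENNReal.ofReal_mul (by positivity), Real.sq_sqrt (by positivity)]
    congr 1
    have h4 : (4 : ℝ) ^ k = 2 ^ k * 2 ^ k := by rw [← mul_pow]; norm_num
    rw [h4, one_div, inv_pow]
    field_simp
  refine (ENNReal.tsum_le_tsum h2).trans (le_of_eq ?_)
  rw [← ENNReal.ofReal_tsum_of_nonneg (fun k => by positivity)
    (summable_geometric_two.mul_left _), tsum_mul_left, tsum_geometric_two]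
  congr 1; ring

lemma mx_main (ρ : Measure ℂ) (u : ℂ) {M : ℝ} (hM : 0 ≤ M)
    (hf : ∫⁻ z, ENNReal.ofReal ((‖z - u‖ ^ 2 + 1) ^ 2)⁻¹ ∂ρ ≠ ⊤)
    (h : ∀ᶠ r in 𝓝[>] (0 : ℝ), ρ (closedBall u r) ≤ ENNReal.ofReal (M * r ^ 2)) :
    ∃ K : ℝ≥0∞, K ≠ ⊤ ∧ ∀ σ : ℝ, 0 < σ → ∫⁻ z, ENNReal.ofReal (σ / (‖z - u‖ ^ 2 + σ) ^ 2) ∂ρ ≤
      ENNReal.ofReal (8 * M) + ENNReal.ofReal σ * K := by
  obtain ⟨r1, hr1, hs⟩ := (nhdsGT_basis (0 : ℝ)).eventually_iff.1 h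
  obtain ⟨r0, h0, h1⟩ := exists_between hr1
  refine ⟨ENNReal.ofReal ((1 + 1 / r0 ^ 2) ^ 2) * _, ENNReal.mul_ne_top ENNReal.ofReal_ne_top hf,
    fun σ hσ => ?_⟩
  rw [← lintegral_add_compl _ (measurableSet_closedBall (x := u) (ε := r0))]
  refine add_le_add (mx_near _ u hM (fun r hr => ?_) hσ) ?_
  · rw [Measure.restrict_apply measurableSet_closedBall]
    rcases le_total r r0 with h2 | h2
    · exact (measure_mono inter_subset_left).trans (hs ⟨hr, h2.trans_lt h1⟩)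
    · exact (measure_mono inter_subset_right).trans ((hs ⟨h0, h1⟩).trans
        (ENNReal.ofReal_le_ofReal (by gcongr)))
  · rw [← mul_assoc, ← ENNReal.ofReal_mul hσ.le,
      ← lintegral_const_mul' _ _ ENNReal.ofReal_ne_top]
    refine le_trans (setLIntegral_mono' measurableSet_closedBall.compl fun z hz => ?_)
      (setLIntegral_le_lintegral _ _)
    rw [← ENNReal.ofReal_mul (by positivity)]
    refine ENNReal.ofReal_le_ofReal ?_
    rw [mem_compl_iff, mem_closedBall, dist_eq_norm, not_le] at hz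
    have h2 : r0 ^ 2 ≤ ‖z - u‖ ^ 2 := by gcongr
    have h3 : ‖z - u‖ ^ 2 + 1 ≤ (1 + 1 / r0 ^ 2) * (‖z - u‖ ^ 2 + σ) := by
      have h4 : 1 ≤ 1 / r0 ^ 2 * ‖z - u‖ ^ 2 := by
        rw [one_div, ← div_eq_inv_mul, one_le_div (by positivity)]; exact h2
      have h5 : 0 ≤ 1 / r0 ^ 2 * σ := by positivity
      nlinarith
    rw [mul_assoc, div_eq_mul_inv]
    refine mul_le_mul_of_nonneg_left ?_ hσ.le
    rw [← div_eq_mul_inv, le_div_iff₀ (by positivity), inv_mul_le_iff₀ (by positivity), mul_comm,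
      ← mul_pow]
    gcongr

lemma mx_zero {F : ℝ → ℝ≥0∞} (h : ∀ δ : ℝ, 0 < δ → ∃ K : ℝ≥0∞, K ≠ ⊤ ∧ ∀ σ : ℝ, 0 < σ →
    F σ ≤ ENNReal.ofReal δ + ENNReal.ofReal σ * K) : Tendsto F (𝓝[>] 0) (𝓝 0) := by
  rw [ENNReal.tendsto_nhds_zero]
  intro ε hε
  obtain ⟨δ, h0, hδ, h1⟩ := ENNReal.lt_iff_exists_real_btwn.1 hε
  obtain ⟨K, hK, h2⟩ := h δ (ENNReal.ofReal_pos.1 hδ)
  have h3 : Tendsto (fun σ : ℝ => ENNReal.ofReal δ + ENNReal.ofReal σ * K) (𝓝[>] 0)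
      (𝓝 (ENNReal.ofReal δ + ENNReal.ofReal 0 * K)) :=
    (ENNReal.Tendsto.mul_const ((ENNReal.continuous_ofReal.tendsto 0).mono_left nhdsWithin_le_nhds)
      (Or.inr hK)).const_add _
  rw [ENNReal.ofReal_zero, zero_mul, add_zero] at h3
  filter_upwards [h3.eventually (gt_mem_nhds h1), self_mem_nhdsWithin] with σ h4 h5
  exact (h2 σ h5).trans h4.le

lemma mx_ratio {a : ℝ → ℝ≥0∞} {u : ℂ} {L : ℝ≥0∞} {M : ℝ} (hM : L < ENNReal.ofReal M)
    (h : Tendsto (fun r => a r / mm (closedBall u r)) (𝓝[>] 0) (𝓝 L)) :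
    ∀ᶠ r in 𝓝[>] (0 : ℝ), a r ≤ ENNReal.ofReal (M * r ^ 2) := by
  filter_upwards [h.eventually (gt_mem_nhds hM), self_mem_nhdsWithin] with r h1 h2
  have hr : 0 < r := h2
  rw [mm_closedBall u hr.le] at h1
  rw [mul_comm, ENNReal.ofReal_mul (by positivity), mul_comm]
  exact (ENNReal.div_le_iff (by simpa using hr.ne') ENNReal.ofReal_ne_top).1 h1.le

/-- Lebesgue points. -/
theorem approx_id {g : ℂ → ℝ} (hg : Integrable g mm) : ∀ᵐ u ∂mm,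
    Tendsto (fun σ : ℝ => ∫ z, σ / (‖z - u‖ ^ 2 + σ) ^ 2 * |g z - g u| ∂mm) (𝓝[>] 0) (𝓝 0) := by
  filter_upwards [(Besicovitch.vitaliFamily mm).ae_tendsto_lintegral_enorm_sub_div
    hg.locallyIntegrable] with u hu
  have h1 := hu.comp (Besicovitch.tendsto_filterAt mm u)
  have hm : AEMeasurable (fun z => g z - g u) mm := hg.aemeasurable.sub_const _
  have he : ∀ k : ℂ → ℝ, Measurable k → (∀ z, 0 ≤ k z) →
      ∫⁻ z, ENNReal.ofReal (k z) ∂(mm.withDensity fun z => ‖g z - g u‖ₑ) =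
        ∫⁻ z, ENNReal.ofReal (k z * |g z - g u|) ∂mm := by
    intro k hk h0
    rw [lintegral_withDensity_eq_lintegral_mul₀ hm.enorm hk.ennreal_ofReal.aemeasurable]
    refine lintegral_congr fun z => ?_
    rw [Pi.mul_apply, ENNReal.ofReal_mul (h0 z), mul_comm, Real.enorm_eq_ofReal_abs]
  have hf : ∫⁻ z, ENNReal.ofReal ((‖z - u‖ ^ 2 + 1) ^ 2)⁻¹
      ∂(mm.withDensity fun z => ‖g z - g u‖ₑ) ≠ ⊤ := by
    rw [he _ (by fun_prop) (fun z => by positivity)]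
    have h2 : Integrable (fun z => |g z| + ((‖z - u‖ ^ 2 + 1) ^ 2)⁻¹ * |g u|) mm :=
      hg.abs.add ((by simpa using (poisson_int u one_pos).1 :
        Integrable (fun z : ℂ => ((‖z - u‖ ^ 2 + 1) ^ 2)⁻¹) mm).mul_const _)
    refine ne_top_of_le_ne_top h2.lintegral_lt_top.ne (lintegral_mono fun z =>
      ENNReal.ofReal_le_ofReal ?_)
    have h3 : ((‖z - u‖ ^ 2 + 1) ^ 2)⁻¹ ≤ 1 :=
      inv_le_one_of_one_le₀ (one_le_pow₀ (by nlinarith [sq_nonneg ‖z - u‖]))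
    have h4 : 0 ≤ ((‖z - u‖ ^ 2 + 1) ^ 2)⁻¹ := by positivity
    nlinarith [abs_sub (g z) (g u), abs_nonneg (g z), abs_nonneg (g u)]
  have h2 : Tendsto (fun σ : ℝ => ∫⁻ z, ENNReal.ofReal (σ / (‖z - u‖ ^ 2 + σ) ^ 2)
      ∂(mm.withDensity fun z => ‖g z - g u‖ₑ)) (𝓝[>] 0) (𝓝 0) := by
    refine mx_zero fun δ hδ => ?_
    have h3 := mx_main _ u (M := δ / 8) (by positivity) hf (by
      filter_upwards [mx_ratio (M := δ / 8) (by simpa using hδ) h1] with r hr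
      rwa [withDensity_apply _ measurableSet_closedBall])
    rwa [show 8 * (δ / 8) = δ by ring] at h3
  refine ((ENNReal.tendsto_toReal ENNReal.zero_ne_top).comp h2).congr' ?_
  filter_upwards [self_mem_nhdsWithin] with σ hσ
  have hσ' : 0 < σ := hσ
  rw [Function.comp_apply, he _ (by fun_prop) (fun z => by positivity),
    integral_eq_lintegral_of_nonneg_ae (.of_forall fun z => by positivity)]
  exact (AEMeasurable.mul (by fun_prop) (continuous_abs.measurable.comp_aemeasurable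
    hm)).aestronglyMeasurable

/-- A finite measure on the open upper half space is not seen from almost every boundary point. -/
theorem bulk_tendsto (ν : Measure (ℂ × ℝ)) [IsFiniteMeasure ν] (h : ∀ᵐ p ∂ν, 0 < p.2) :
    ∀ᵐ u ∂mm, Tendsto (fun σ : ℝ => ∫⁻ p,
      ENNReal.ofReal (σ * (‖p.1‖ ^ 2 + 1) / (‖p.1 - u‖ ^ 2 + p.2 + σ) ^ 2) ∂ν) (𝓝[>] 0)
        (𝓝 0) := by
  set E : ℕ → Set (ℂ × ℝ) := fun n => {p | p.2 < 1 / ((n : ℝ) + 1)} with hE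
  have mE : ∀ n, MeasurableSet (E n) := fun n => measurableSet_lt measurable_snd measurable_const
  set ρ : ℕ → Measure ℂ := fun n => (ν.restrict (E n)).map Prod.fst with hρ
  have hfin : ∀ n, IsFiniteMeasure (ρ n) := fun n => by simp only [hρ]; infer_instance
  have h0 : Tendsto (fun n => ν (E n)) atTop (𝓝 0) := by
    have h1 := tendsto_measure_iInter_atTop (μ := ν) (s := E) (fun n => (mE n).nullMeasurableSet)
      (fun m n hmn p hp => lt_of_lt_of_le (show p.2 < _ from hp) (Nat.one_div_le_one_div hmn))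
      ⟨0, measure_ne_top _ _⟩
    have h2 : ν (⋂ n, E n) = 0 := by
      refine measure_mono_null (fun p hp => ?_) h
      intro hp0
      obtain ⟨n, hn⟩ := exists_nat_one_div_lt (K := ℝ) hp0
      exact lt_asymm hn (mem_iInter.1 hp n)
    rwa [h2] at h1
  have h1 : ∀ᵐ u ∂mm, ⨅ n, (ρ n).rnDeriv mm u = 0 := by
    refine (lintegral_eq_zero_iff (Measurable.iInf fun n => Measure.measurable_rnDeriv _ _)).1
      (le_antisymm (ge_of_tendsto' h0 fun n => ?_) zero_le)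
    refine (lintegral_mono fun u => iInf_le _ n).trans (Measure.lintegral_rnDeriv_le.trans ?_)
    simp only [hρ]
    rw [Measure.map_apply measurable_fst MeasurableSet.univ]
    simp
  filter_upwards [h1, ae_all_iff.2 fun n => Besicovitch.ae_tendsto_rnDeriv (ρ n) mm] with u h2 h3
  refine mx_zero fun δ hδ => ?_
  set W : ℝ := (‖u‖ + 1) ^ 2 + 1 with hW
  have hW0 : 0 < W := by positivity
  obtain ⟨n, hn⟩ := iInf_lt_iff.1 (h2.trans_lt (ENNReal.ofReal_pos.2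
    (show 0 < δ / 8 / W by positivity)))
  have mw : Measurable fun z : ℂ => ENNReal.ofReal (‖z‖ ^ 2 + 1) := by fun_prop
  have hb : ∀ (z : ℂ) (η : ℝ), 0 < η → η ≤ 1 →
      (‖z‖ ^ 2 + 1) / (‖z - u‖ ^ 2 + η) ^ 2 ≤ 2 * W / η ^ 2 := by
    intro z η h4 h5
    have h6 : ‖z‖ ≤ ‖z - u‖ + ‖u‖ := by simpa using norm_add_le (z - u) u
    have h7 : ‖z‖ ^ 2 ≤ 2 * ‖z - u‖ ^ 2 + 2 * ‖u‖ ^ 2 := by
      nlinarith [norm_nonneg z, norm_nonneg u, norm_nonneg (z - u), sq_nonneg (‖z - u‖ - ‖u‖)]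
    have h8 : ‖u‖ ^ 2 + 1 ≤ W := by nlinarith [norm_nonneg u]
    rw [div_le_div_iff₀ (by positivity) (by positivity)]
    set d := ‖z - u‖ ^ 2
    have hd : 0 ≤ d := by positivity
    have h9 : ‖z‖ ^ 2 + 1 ≤ 2 * W * (d + 1) := by nlinarith [sq_nonneg ‖u‖]
    have h10 : (d + 1) * η ^ 2 ≤ (d + η) ^ 2 := by
      nlinarith [mul_nonneg hd h4.le, mul_nonneg (mul_nonneg hd h4.le) (sub_nonneg.2 h5)]
    calc (‖z‖ ^ 2 + 1) * η ^ 2 ≤ 2 * W * (d + 1) * η ^ 2 := by gcongr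
      _ = 2 * W * ((d + 1) * η ^ 2) := by ring
      _ ≤ _ := by gcongr
  obtain ⟨K, hK, h4⟩ := mx_main ((ρ n).withDensity fun z => ENNReal.ofReal (‖z‖ ^ 2 + 1)) u
    (M := δ / 8) (by positivity) (by
      rw [lintegral_withDensity_eq_lintegral_mul _ mw (by fun_prop)]
      refine ne_top_of_le_ne_top (b := ∫⁻ _, ENNReal.ofReal (2 * W / 1 ^ 2) ∂(ρ n)) ?_
        (lintegral_mono fun z => ?_)
      · rw [lintegral_const]
        exact ENNReal.mul_ne_top ENNReal.ofReal_ne_top (measure_ne_top _ _)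
      · rw [Pi.mul_apply, ← ENNReal.ofReal_mul (by positivity), ← div_eq_mul_inv]
        exact ENNReal.ofReal_le_ofReal (hb z 1 one_pos le_rfl)) (by
      filter_upwards [mx_ratio hn (h3 n), Ioo_mem_nhdsGT (zero_lt_one' ℝ)] with r hr hr1
      rw [withDensity_apply _ measurableSet_closedBall]
      refine (setLIntegral_mono' (g := fun _ => ENNReal.ofReal W) measurableSet_closedBall
        fun z hz => ENNReal.ofReal_le_ofReal ?_).trans ?_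
      · rw [mem_closedBall, dist_eq_norm] at hz
        have h6 : ‖z‖ ≤ ‖z - u‖ + ‖u‖ := by simpa using norm_add_le (z - u) u
        have h7 : ‖z‖ ≤ ‖u‖ + 1 := by linarith [hr1.2]
        rw [hW]; gcongr
      · rw [setLIntegral_const]
        refine (mul_le_mul_right hr _).trans (le_of_eq ?_)
        rw [← ENNReal.ofReal_mul hW0.le]
        congr 1; field_simp)
  have hη : (0 : ℝ) < 1 / ((n : ℝ) + 1) := by positivity
  have hη1 : 1 / ((n : ℝ) + 1) ≤ 1 := by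
    rw [div_le_one (by positivity)]; linarith [Nat.cast_nonneg (α := ℝ) n]
  refine ⟨K + ENNReal.ofReal (2 * W / (1 / ((n : ℝ) + 1)) ^ 2) * ν univ,
    ENNReal.add_ne_top.2 ⟨hK, ENNReal.mul_ne_top ENNReal.ofReal_ne_top (measure_ne_top _ _)⟩,
    fun σ hσ => ?_⟩
  rw [← lintegral_add_compl _ (mE n), mul_add, ← add_assoc]
  refine add_le_add (le_trans ?_ ((h4 σ hσ).trans (by rw [show 8 * (δ / 8) = δ by ring]))) ?_
  · rw [lintegral_withDensity_eq_lintegral_mul _ mw (by fun_prop)]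
    simp only [hρ]
    rw [lintegral_map (mw.mul (by fun_prop)) measurable_fst]
    refine lintegral_mono_ae ?_
    filter_upwards [ae_restrict_of_ae h] with p hp
    rw [Pi.mul_apply, ← ENNReal.ofReal_mul (by positivity)]
    refine ENNReal.ofReal_le_ofReal ?_
    rw [mul_comm σ, mul_div_assoc]
    gcongr
    linarith
  · rw [← mul_assoc, ← ENNReal.ofReal_mul hσ.le, ← lintegral_const]
    refine le_trans (setLIntegral_mono' (mE n).compl fun p hp => ?_)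
      (setLIntegral_le_lintegral _ _)
    refine ENNReal.ofReal_le_ofReal ?_
    have h5 : 1 / ((n : ℝ) + 1) ≤ p.2 := not_lt.1 hp
    rw [mul_div_assoc]
    refine mul_le_mul_of_nonneg_left (le_trans ?_ (hb p.1 _ hη hη1)) hσ.le
    have h6 : ‖p.1 - u‖ ^ 2 + 1 / ((n : ℝ) + 1) ≤ ‖p.1 - u‖ ^ 2 + p.2 + σ := by linarith
    gcongr

/-- Weak limits of densities along an ultrafilter. -/
theorem exists_density (ν : Measure ℂ) [IsFiniteMeasure ν] (U : Ultrafilter ℕ)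
    (g : ℕ → ℂ → ℝ) (hm : ∀ n, Measurable (g n)) (h0 : ∀ n z, 0 ≤ g n z) (h1 : ∀ n z, g n z ≤ 1) :
    ∃ y : ℂ → ℝ, Measurable y ∧ (∀ z, 0 ≤ y z) ∧ (∀ z, y z ≤ 1) ∧
      ∀ (k : ℂ → ℝ) (C : ℝ), Measurable k → (∀ z, |k z| ≤ C) →
        Tendsto (fun n => ∫ z, k z * g n z ∂ν) U (𝓝 (∫ z, k z * y z ∂ν)) := by
  have hL : ∀ (k : ℂ → ℝ) (C : ℝ), Measurable k → (∀ z, |k z| ≤ C) → MemLp k 2 ν :=
    fun k C hk hC => MemLp.of_bound hk.aestronglyMeasurable C (.of_forall hC)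
  have ha : ∀ n z, |g n z| ≤ 1 := fun n z => by rw [abs_of_nonneg (h0 n z)]; exact h1 n z
  obtain ⟨y, hy⟩ := exists_weak_limit (𝕜 := ℝ) U (fun n => (hL _ 1 (hm n) (ha n)).toLp _)
    _ fun n => Lp.norm_le_of_ae_bound zero_le_one (by
      filter_upwards [(hL _ 1 (hm n) (ha n)).coeFn_toLp] with z hz
      rw [hz]; exact ha n z)
  have key : ∀ (k : ℂ → ℝ) (C : ℝ), Measurable k → (∀ z, |k z| ≤ C) →
      Tendsto (fun n => ∫ z, k z * g n z ∂ν) U (𝓝 (∫ z, k z * y z ∂ν)) := by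
    intro k C hk hC
    have h2 := hy ((hL k C hk hC).toLp _)
    have h3 : ∀ v : Lp ℝ 2 ν, ⟪v, (hL k C hk hC).toLp _⟫_ℝ = ∫ z, k z * v z ∂ν := by
      intro v
      rw [L2.inner_def]
      refine integral_congr_ae ?_
      filter_upwards [(hL k C hk hC).coeFn_toLp] with z hz
      rw [hz]; simp
    simp only [h3] at h2
    refine h2.congr fun n => integral_congr_ae ?_
    filter_upwards [(hL _ 1 (hm n) (ha n)).coeFn_toLp] with z hz
    rw [hz]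
  have hi : Integrable y ν := (Lp.memLp y).integrable one_le_two
  have hs : ∀ s, MeasurableSet s →
      Tendsto (fun n => ∫ z in s, g n z ∂ν) U (𝓝 (∫ z in s, y z ∂ν)) := by
    intro s ms
    have h2 := key (s.indicator fun _ => 1) 1 (measurable_const.indicator ms) fun z => by
      by_cases hz : z ∈ s <;> simp [hz]
    simpa only [← indicator_mul_left, one_mul, integral_indicator ms] using h2
  have p0 : 0 ≤ᵐ[ν] y := ae_nonneg_of_forall_setIntegral_nonneg hi fun s ms _ =>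
    ge_of_tendsto' (hs s ms) fun n => integral_nonneg (h0 n)
  have p1 : y ≤ᵐ[ν] fun _ => (1 : ℝ) :=
    ae_le_of_forall_setIntegral_le hi (integrable_const _) fun s ms _ =>
      le_of_tendsto' (hs s ms) fun n => integral_mono
        ((hL _ 1 (hm n) (ha n)).integrable one_le_two).integrableOn (integrable_const _) (h1 n)
  refine ⟨fun z => max 0 (min 1 (y z)),
    measurable_const.max (measurable_const.min (Lp.stronglyMeasurable y).measurable),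
    fun z => le_max_left _ _, fun z => max_le zero_le_one (min_le_left _ _), fun k C hk hC => ?_⟩
  have e : ∫ z, k z * max 0 (min 1 (y z)) ∂ν = ∫ z, k z * y z ∂ν := by
    refine integral_congr_ae ?_
    filter_upwards [p0, p1] with z a0 a1
    rw [min_eq_right a1, max_eq_right (show (0 : ℝ) ≤ y z from a0)]
  rw [e]
  exact key k C hk hC

lemma int_pow (u : ℂ) {a : ℝ} (ha : 0 < a) (m : ℕ) :
    Integrable (fun z : ℂ => ((‖z - u‖ ^ 2 + a) ^ (m + 2))⁻¹) mm ∧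
      ∫ z : ℂ, ((‖z - u‖ ^ 2 + a) ^ (m + 2))⁻¹ ∂mm = (((m : ℝ) + 1) * a ^ (m + 1))⁻¹ := by
  have hd : ∀ y ∈ Ici (0 : ℝ), HasDerivAt
      (fun y : ℝ => -(1 / (2 * ((m : ℝ) + 1))) * ((y ^ 2 + a) ^ (m + 1))⁻¹)
      (y * ((y ^ 2 + a) ^ (m + 2))⁻¹) y := by
    intro y _
    have h0 : y ^ 2 + a ≠ 0 := by positivity
    have := ((((hasDerivAt_pow 2 y).add_const a).pow (m + 1)).inv (pow_ne_zero _ h0)).const_mul
      (-(1 / (2 * ((m : ℝ) + 1))))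
    refine this.congr_deriv ?_
    simp only [Nat.cast_ofNat, Nat.add_one_sub_one, pow_one, Pi.pow_apply]
    push_cast
    field_simp
    ring
  have hl : Tendsto (fun y : ℝ => -(1 / (2 * ((m : ℝ) + 1))) * ((y ^ 2 + a) ^ (m + 1))⁻¹) atTop
      (𝓝 0) := by
    have : Tendsto (fun y : ℝ => ((y ^ 2 + a) ^ (m + 1))⁻¹) atTop (𝓝 0) :=
      tendsto_inv_atTop_zero.comp ((tendsto_pow_atTop (Nat.succ_ne_zero m)).comp
        (tendsto_atTop_add_const_right _ _ (tendsto_pow_atTop two_ne_zero)))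
    simpa using this.const_mul (-(1 / (2 * ((m : ℝ) + 1))))
  have hpos : ∀ y ∈ Ioi (0 : ℝ), 0 ≤ y * ((y ^ 2 + a) ^ (m + 2))⁻¹ := fun y hy => by
    have : 0 < y := hy
    positivity
  refine ⟨integrable_radial (f := fun y => ((y ^ 2 + a) ^ (m + 2))⁻¹) u
    (integrableOn_Ioi_deriv_of_nonneg' hd hpos hl), ?_⟩
  rw [integral_radial (fun y => ((y ^ 2 + a) ^ (m + 2))⁻¹) u,
    integral_Ioi_of_hasDerivAt_of_nonneg' hd hpos hl]
  field_simp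
  simp

lemma mx_log (u : ℂ) {a b : ℝ} (ha : 0 < a) (hab : a ≤ b) :
    Integrable (fun z : ℂ => (‖z - u‖ ^ 2 + a)⁻¹ - (‖z - u‖ ^ 2 + b)⁻¹) mm ∧
      ∫ z : ℂ, (‖z - u‖ ^ 2 + a)⁻¹ - (‖z - u‖ ^ 2 + b)⁻¹ ∂mm = Real.log (b / a) := by
  have hb : 0 < b := ha.trans_le hab
  have hd : ∀ y ∈ Ici (0 : ℝ), HasDerivAt
      (fun y : ℝ => 1 / 2 * Real.log (1 - (b - a) * (y ^ 2 + b)⁻¹))
      (y * ((y ^ 2 + a)⁻¹ - (y ^ 2 + b)⁻¹)) y := by
    intro y _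
    have h0 : y ^ 2 + a ≠ 0 := by positivity
    have h1 : y ^ 2 + b ≠ 0 := by positivity
    have h2 : 1 - (b - a) * (y ^ 2 + b)⁻¹ = (y ^ 2 + a) / (y ^ 2 + b) := by field_simp; ring
    have := ((((((hasDerivAt_pow 2 y).add_const b).inv h1).const_mul (b - a)).const_sub 1).log
      (by rw [Pi.inv_apply, h2]; positivity)).const_mul (1 / 2)
    refine this.congr_deriv ?_
    simp only [Nat.cast_ofNat, Nat.add_one_sub_one, pow_one, Pi.inv_apply]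
    rw [h2]
    field_simp
    ring
  have hl : Tendsto (fun y : ℝ => 1 / 2 * Real.log (1 - (b - a) * (y ^ 2 + b)⁻¹)) atTop
      (𝓝 0) := by
    have h1 : Tendsto (fun y : ℝ => (y ^ 2 + b)⁻¹) atTop (𝓝 0) :=
      tendsto_inv_atTop_zero.comp (tendsto_atTop_add_const_right _ _ (tendsto_pow_atTop two_ne_zero))
    have h2 := ((h1.const_mul (b - a)).const_sub 1).log (by simp)
    simpa only [mul_zero, sub_zero, Real.log_one] using h2.const_mul (1 / 2)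
  have hpos : ∀ y ∈ Ioi (0 : ℝ), 0 ≤ y * ((y ^ 2 + a)⁻¹ - (y ^ 2 + b)⁻¹) := fun y hy => by
    have : 0 < y := hy
    exact mul_nonneg this.le (sub_nonneg.2 (by gcongr))
  refine ⟨integrable_radial (f := fun y => (y ^ 2 + a)⁻¹ - (y ^ 2 + b)⁻¹) u
    (integrableOn_Ioi_deriv_of_nonneg' hd hpos hl), ?_⟩
  rw [integral_radial (fun y => (y ^ 2 + a)⁻¹ - (y ^ 2 + b)⁻¹) u,
    integral_Ioi_of_hasDerivAt_of_nonneg' hd hpos hl,
    show 1 - (b - a) * ((0 : ℝ) ^ 2 + b)⁻¹ = (b / a)⁻¹ by field_simp; ring, Real.log_inv]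
  ring

lemma int_log (u : ℂ) {a b : ℝ} (ha : 0 < a) (hb : 0 < b) :
    Integrable (fun z : ℂ => (‖z - u‖ ^ 2 + a)⁻¹ - (‖z - u‖ ^ 2 + b)⁻¹) mm ∧
      ∫ z : ℂ, (‖z - u‖ ^ 2 + a)⁻¹ - (‖z - u‖ ^ 2 + b)⁻¹ ∂mm = Real.log (b / a) := by
  rcases le_total a b with h | h
  · exact mx_log u ha h
  · obtain ⟨h1, h2⟩ := mx_log u hb h
    refine ⟨h1.neg.congr (.of_forall fun z => by simp), ?_⟩
    rw [← inv_div, Real.log_inv, ← h2, ← integral_neg]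
    simp

/-- Points of uniform density. -/
def Dens (A : Set ℂ) (r : ℝ) : Set ℂ :=
  {z | z ∈ A ∧ ∀ ρ, 0 < ρ → ρ ≤ r → ENNReal.ofReal (3 / 4 * ρ ^ 2) ≤ mm (A ∩ closedBall z ρ)}

lemma Dens.anti {A : Set ℂ} {r r' : ℝ} (h : r ≤ r') : Dens A r' ⊆ Dens A r :=
  fun _ hz => ⟨hz.1, fun ρ h0 h1 => hz.2 ρ h0 (h1.trans h)⟩

theorem exists_dens {A B : Set ℂ} {a : ℝ≥0∞} (h : a < mm (A ∩ B)) :
    ∃ r, 0 < r ∧ a < mm (Dens A r ∩ B) := by
  have h1 : mm (A ∩ B) ≤ mm (⋃ n : ℕ, Dens A (1 / ((n : ℝ) + 1)) ∩ B) := by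
    refine measure_mono_ae ?_
    filter_upwards [ae_imp_of_ae_restrict (Besicovitch.ae_tendsto_measure_inter_div mm A)]
      with z hz hAB
    have h2 := (hz hAB.1).eventually (lt_mem_nhds
      (show ENNReal.ofReal (3 / 4) < 1 by rw [ENNReal.ofReal_lt_one]; norm_num))
    obtain ⟨r, hr, hs⟩ := (nhdsGT_basis (0 : ℝ)).eventually_iff.1 h2
    obtain ⟨n, hn⟩ := exists_nat_one_div_lt hr
    refine mem_iUnion.2 ⟨n, ⟨hAB.1, fun ρ h0 h3 => ?_⟩, hAB.2⟩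
    have h4 := hs ⟨h0, h3.trans_lt hn⟩
    rw [mm_closedBall z h0.le] at h4
    rw [ENNReal.ofReal_mul (by norm_num)]
    exact ENNReal.mul_le_of_le_div h4.le
  rw [Monotone.measure_iUnion fun m n hmn => inter_subset_inter_left _
    (Dens.anti (Nat.one_div_le_one_div hmn))] at h1
  obtain ⟨n, hn⟩ := lt_iSup_iff.1 (h.trans_le h1)
  exact ⟨_, by positivity, hn⟩

theorem exists_small_ball {A : Set ℂ} (h : mm A ≠ 0) {r : ℝ} (hr : 0 < r) :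
    ∃ c, mm (A ∩ closedBall c r) ≠ 0 := by
  by_contra hc
  push Not at hc
  exact h (measure_null_of_locally_null A fun x _ =>
    ⟨_, inter_mem_nhdsWithin A (closedBall_mem_nhds x hr), hc x⟩)

/-- Greedy choice of separated points. -/
theorem exists_separated {E : Set ℂ} {h : ℝ} (hh : 0 < h) (N : ℕ)
    (hE : ENNReal.ofReal (N * h ^ 2) < mm E) : ∃ S : Finset ℂ, ↑S ⊆ E ∧ S.card = N ∧
      ∀ x ∈ S, ∀ y ∈ S, x ≠ y → h ≤ ‖x - y‖ := by
  induction N with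
  | zero => exact ⟨∅, by simp, rfl, by simp⟩
  | succ N ih =>
    have h0 : ENNReal.ofReal (N * h ^ 2) < mm E :=
      lt_of_le_of_lt (ENNReal.ofReal_le_ofReal (by gcongr; omega)) hE
    obtain ⟨S, h1, h2, h3⟩ := ih h0
    have h4 : mm (⋃ x ∈ S, ball x h) ≤ ENNReal.ofReal (N * h ^ 2) := by
      refine (measure_biUnion_finset_le S _).trans (le_of_eq ?_)
      simp only [mm_ball _ hh.le, Finset.sum_const, h2, nsmul_eq_mul]
      rw [ENNReal.ofReal_mul (Nat.cast_nonneg N), ENNReal.ofReal_natCast]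
    obtain ⟨y, hy, hy'⟩ := not_subset.1 fun hs => (h4.trans_lt h0).not_ge (measure_mono hs)
    have h5 : ∀ x ∈ S, h ≤ ‖y - x‖ := fun x hx => by
      by_contra hlt
      exact hy' (mem_iUnion₂.2 ⟨x, hx, by rw [mem_ball, dist_eq_norm]; exact not_le.1 hlt⟩)
    have h6 : y ∉ S := fun hS => by simpa [hh.not_ge] using h5 y hS
    refine ⟨insert y S, by simpa [insert_subset_iff, hy] using h1,
      by rw [Finset.card_insert_of_notMem h6, h2], fun a ha b hb hab => ?_⟩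
    rcases Finset.mem_insert.1 ha with rfl | ha' <;> rcases Finset.mem_insert.1 hb with rfl | hb'
    · exact absurd rfl hab
    · exact h5 b hb'
    · rw [norm_sub_rev]; exact h5 a ha'
    · exact h3 a ha' b hb' hab

lemma mx_count (S : Finset ℂ) (x : ℂ) {ρ h : ℝ} (hh : 0 < h)
    (hS : ∀ y ∈ S, h ≤ ‖x - y‖ ∧ ‖x - y‖ ≤ ρ) (hs : ∀ x ∈ S, ∀ y ∈ S, x ≠ y → h ≤ ‖x - y‖) :
    (S.card : ℝ) ≤ 9 * (ρ ^ 2 / h ^ 2) := by
  rcases S.eq_empty_or_nonempty with rfl | ⟨y0, hy0⟩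
  · simp; positivity
  have hρ : h ≤ ρ := (hS y0 hy0).1.trans (hS y0 hy0).2
  have h1 : mm (⋃ y ∈ S, ball y (h / 2)) = ENNReal.ofReal (S.card * (h / 2) ^ 2) := by
    rw [measure_biUnion_finset (fun a ha b hb hab => ball_disjoint_ball (by
      rw [add_halves, dist_eq_norm]; exact hs a ha b hb hab)) fun _ _ => measurableSet_ball]
    simp only [mm_ball _ (half_pos hh).le, Finset.sum_const, nsmul_eq_mul]
    rw [ENNReal.ofReal_mul (Nat.cast_nonneg _), ENNReal.ofReal_natCast]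
  have h2 : mm (⋃ y ∈ S, ball y (h / 2)) ≤ mm (ball x (3 / 2 * ρ)) := by
    refine measure_mono (iUnion₂_subset fun y hy => ball_subset_ball' ?_)
    rw [dist_eq_norm, norm_sub_rev]
    linarith [(hS y hy).2]
  rw [h1, mm_ball _ (by linarith), ENNReal.ofReal_le_ofReal_iff (by positivity)] at h2
  rw [← mul_div_assoc, le_div_iff₀ (by positivity)]
  nlinarith

/-- Packing bound. -/
theorem packing {a : ℝ} (ha : 0 ≤ a) (ha1 : a < 1) : ∃ C, 0 < C ∧ ∀ (S : Finset ℂ) (c : ℂ)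
    (r h : ℝ), 0 < h → 0 < r → (∀ x ∈ S, ‖x - c‖ ≤ r) →
      (∀ x ∈ S, ∀ y ∈ S, x ≠ y → h ≤ ‖x - y‖) → ∀ x ∈ S,
        ∑ y ∈ S.erase x, (4 * r ^ 2 / ‖x - y‖ ^ 2) ^ a ≤ C * (r ^ 2 / h ^ 2) := by
  set q : ℝ := 2 ^ a with hq
  have q0 : 0 < q := by positivity
  have q2 : q / 2 < 1 := by
    rw [div_lt_one two_pos, hq]
    simpa using Real.rpow_lt_rpow_of_exponent_lt one_lt_two ha1
  refine ⟨36 * q * (1 - q / 2)⁻¹, by have := sub_pos.2 q2; positivity,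
    fun S c r h hh hr hc hs x hx => ?_⟩
  have h1 : ∀ y ∈ S.erase x, h ≤ ‖x - y‖ := fun y hy =>
    hs x hx y (Finset.mem_of_mem_erase hy) (Finset.ne_of_mem_erase hy).symm
  have h2 : ∀ y : ℂ, ∃ k : ℕ, y ∈ S.erase x → (4 * r ^ 2 / ‖x - y‖ ^ 2) ^ a ≤ q ^ (k + 1) ∧
      ‖x - y‖ ≤ Real.sqrt (4 * r ^ 2 / 2 ^ k) := by
    intro y
    by_cases hy : y ∈ S.erase x
    · have h3 : 0 < ‖x - y‖ := hh.trans_le (h1 y hy)
      have h4 : ‖x - y‖ ≤ 2 * r := by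
        have := norm_sub_le_norm_sub_add_norm_sub x c y
        rw [norm_sub_rev c y] at this
        linarith [hc x hx, hc y (Finset.mem_of_mem_erase hy)]
      obtain ⟨k, h5, h6⟩ := exists_nat_pow_near (x := 4 * r ^ 2 / ‖x - y‖ ^ 2) (y := 2)
        ((one_le_div (by positivity)).2 (by nlinarith)) one_lt_two
      refine ⟨k, fun _ => ⟨(Real.rpow_le_rpow (by positivity) h6.le ha).trans (le_of_eq ?_),
        Real.le_sqrt_of_sq_le ?_⟩⟩
      · rw [hq, ← Real.rpow_natCast, ← Real.rpow_natCast, ← Real.rpow_mul two_pos.le,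
          ← Real.rpow_mul two_pos.le, mul_comm]
      · rw [le_div_iff₀ (by positivity)] at h5 ⊢
        linarith
    · exact ⟨0, fun h => absurd h hy⟩
  choose k hk using h2
  refine (Finset.sum_le_sum fun y hy => (hk y hy).1).trans ?_
  rw [Finset.sum_comp (fun j => q ^ (j + 1)) k]
  have h3 : ∀ j : ℕ, ((S.erase x).filter fun y => k y = j).card • q ^ (j + 1) ≤
      36 * q * (r ^ 2 / h ^ 2) * (q / 2) ^ j := by
    intro j
    have h4 := mx_count ((S.erase x).filter fun y => k y = j) x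
      (ρ := Real.sqrt (4 * r ^ 2 / 2 ^ j)) hh (fun y hy => by
        obtain ⟨h5, rfl⟩ := Finset.mem_filter.1 hy
        exact ⟨h1 y h5, (hk y h5).2⟩) fun y hy z hz =>
      hs y (Finset.mem_of_mem_erase (Finset.mem_filter.1 hy).1) z
        (Finset.mem_of_mem_erase (Finset.mem_filter.1 hz).1)
    rw [Real.sq_sqrt (by positivity)] at h4
    rw [nsmul_eq_mul]
    refine (mul_le_mul_of_nonneg_right h4 (by positivity)).trans (le_of_eq ?_)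
    rw [div_pow]
    field_simp
    ring
  refine (Finset.sum_le_sum fun j _ => h3 j).trans ?_
  have h4 := summable_geometric_of_lt_one (half_pos q0).le q2
  rw [← Finset.mul_sum]
  calc _ ≤ 36 * q * (r ^ 2 / h ^ 2) * ∑' j : ℕ, (q / 2) ^ j :=
        mul_le_mul_of_nonneg_left (h4.sum_le_tsum _ fun j _ => by positivity) (by positivity)
    _ = _ := by rw [tsum_geometric_of_lt_one (half_pos q0).le q2]; ring

end Pool.Agent.Lib.MP_45cb44_an.Hy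
end

-- part Pool.Agent.Lib.MP_45cb44_an.HyLoc
section

/-! Local facts on families of approximate eigenvectors. -/

namespace Pool.Agent.Lib.MP_45cb44_an.Hy

open MeasureTheory Metric Set Filter Topology InnerProductSpace
open scoped InnerProductSpace ComplexConjugate ENNReal

variable {H : Type*} [NormedAddCommGroup H] [InnerProductSpace ℂ H] [CompleteSpace H]

/-- Vectors that do not see small increments of the family. -/
def Reg (A : Set ℂ) (y : ℂ → ℝ → H) (x : H) : Prop :=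
  ∀ η, 0 < η → ∃ b, 0 < b ∧ ∀ z ∈ A, ∀ z' ∈ A, ∀ s' s, 0 < s' → s' ≤ s → s ≤ b →
    ‖z' - z‖ ^ 2 ≤ s → ‖⟪y z' s' - y z s, x⟫_ℂ‖ ≤ η

/-- Three scales at a point with prescribed levels. -/
structure Loc (q : ℂ → ℝ → ℝ) (s0 Λ t ε : ℝ) (z : ℂ) (s σ1 σ2 : ℝ) : Prop where
  h0 : 0 < s
  h1 : Λ * s ≤ σ1
  h2 : σ1 ≤ σ2
  h3 : σ2 ≤ s0
  e0 : q z s ^ 2 = Λ * t * s
  e1 : q z σ1 ^ 2 = t * σ1
  e2 : 4 * q z σ2 ^ 2 = t * σ2
  sm : q z σ2 ≤ ε

/-- One generation of the construction. -/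
structure Stage (A : Set ℂ) (y : ℂ → ℝ → H) (q : ℂ → ℝ → ℝ) (s0 m w e ε : ℝ) (G : Finset ℂ)
    (s : ℂ → ℝ) (x : H) (κ : ℂ → ℂ → ℝ) : Prop where
  ne : G.Nonempty
  sub : ∀ O ∈ G, O ∈ A
  pos : ∀ O ∈ G, 0 < s O
  le : ∀ O ∈ G, s O ≤ s0
  lev : ∀ O ∈ G, q O (s O) ^ 2 ≤ m ^ 2 * G.card * s O
  qs : ∀ O ∈ G, q O (s O) ≤ ε
  dens : ∀ O ∈ G, ENNReal.ofReal (s O / 2) < mm (A ∩ closedBall O √(s O))
  sep : ∀ O ∈ G, ∀ O' ∈ G, O ≠ O' → 64 * s O ≤ ‖O - O'‖ ^ 2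
  reg : Reg A y x
  small : ∀ O ∈ G, ∀ z ∈ A, ∀ s', 0 < s' → s' ≤ s O → ‖z - O‖ ^ 2 ≤ s O → ‖⟪y z s', x⟫_ℂ‖ ≤ w
  kap : ∀ O ∈ G, ∀ O' ∈ G, O ≠ O' → ∀ z ∈ A, ∀ z' ∈ A, ‖z - O‖ ^ 2 ≤ 4 * s O →
    ‖z' - O'‖ ^ 2 ≤ 4 * s O' → q z (‖z - z'‖ ^ 2) ^ 2 ≤ κ O O' * ‖z - z'‖ ^ 2
  en : ∑ O ∈ G, ∑ O' ∈ G.erase O, κ O O' ≤ e * G.card ^ 2

/-- The children of a generation. -/
structure Kids (E : Set ℂ) (G : Finset ℂ) (s : ℂ → ℝ) (N : ℕ) (G' : Finset ℂ) (par : ℂ → ℂ) :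
    Prop where
  sub : ∀ Q ∈ G', Q ∈ E
  mem : ∀ Q ∈ G', par Q ∈ G
  near : ∀ Q ∈ G', ‖Q - par Q‖ ^ 2 ≤ s (par Q)
  card : ∀ O ∈ G, (G'.filter fun Q => par Q = O).card = N
  sep : ∀ Q ∈ G', ∀ Q' ∈ G', Q ≠ Q' → par Q = par Q' → s (par Q) ≤ 2 * N * ‖Q - Q'‖ ^ 2

variable {T : H →L[ℂ] H} {v : H} {A : Set ℂ} {y : ℂ → ℝ → H} {q : ℂ → ℝ → ℝ} {β C s0 : ℝ}
  {Λ t ε s σ1 σ2 : ℝ} {z : ℂ}

lemma loc_small (hβ : 0 < β) (K : ℝ) {η r : ℝ} (hη : 0 < η) (hr : 0 < r) :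
    ∃ b, 0 < b ∧ b ≤ r ∧ ∀ s, 0 < s → s ≤ b → K * (s / r) ^ β ≤ η := by
  have hc : Continuous fun s : ℝ => K * (s / r) ^ β :=
    continuous_const.mul ((Real.continuous_rpow_const hβ.le).comp (by fun_prop))
  have h1 : ∀ᶠ s in 𝓝 (0 : ℝ), K * (s / r) ^ β < η :=
    (hc.tendsto 0).eventually_lt_const (by simpa [Real.zero_rpow hβ.ne'] using hη)
  obtain ⟨δ, hδ, h2⟩ := Metric.eventually_nhds_iff.1 h1
  refine ⟨min (δ / 2) r, lt_min (half_pos hδ) hr, min_le_right _ _, fun s h0 hs => (h2 ?_).le⟩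
  rw [Real.dist_eq, sub_zero, abs_of_pos h0]
  linarith [min_le_left (δ / 2) r]

lemma loc_sq {a b : ℝ} (hb : 0 ≤ b) (h : a ^ 2 ≤ b ^ 2) : a ≤ b :=
  le_of_sq_le_sq h hb

lemma Fam.loc_cont (h : Fam T v A y q β C s0) (z : ℂ) (hs : 0 < s) :
    ContinuousAt (fun s => q z s ^ 2) s := by
  have t1 : Tendsto (fun σ => min 1 (σ / s) * q z s ^ 2) (𝓝 s) (𝓝 (q z s ^ 2)) :=
    Continuous.tendsto' (by fun_prop) _ _ (by simp [hs.ne'])
  have t2 : Tendsto (fun σ => max 1 (σ / s) * q z s ^ 2) (𝓝 s) (𝓝 (q z s ^ 2)) :=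
    Continuous.tendsto' (by fun_prop) _ _ (by simp [hs.ne'])
  refine tendsto_of_tendsto_of_tendsto_of_le_of_le' t1 t2 ?_ ?_ <;>
    filter_upwards [lt_mem_nhds hs] with σ hσ <;> rcases le_total σ s with h1 | h1
  · refine (mul_le_mul_of_nonneg_right (min_le_right _ _) (sq_nonneg _)).trans ?_
    rw [div_mul_eq_mul_div, div_le_iff₀' hs]
    exact h.scale z σ s hσ h1
  · exact (mul_le_of_le_one_left (sq_nonneg _) (min_le_left _ _)).trans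
      (pow_le_pow_left₀ (h.q0 _ _) (h.mono z s σ hs h1) 2)
  · exact (pow_le_pow_left₀ (h.q0 _ _) (h.mono z σ s hσ h1) 2).trans
      (le_mul_of_one_le_left (sq_nonneg _) (le_max_left _ _))
  · refine le_trans ?_ (mul_le_mul_of_nonneg_right (le_max_right _ _) (sq_nonneg _))
    rw [div_mul_eq_mul_div, le_div_iff₀' hs]
    exact h.scale z s σ hs h1

lemma Fam.loc_same (h : Fam T v A y q β C s0) (z : ℂ) {σ : ℝ} (hs : 0 < s) (hσ : 0 < σ) :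
    (σ - s) * (⟪y z s, y z σ⟫_ℂ).re = q z σ ^ 2 - q z s ^ 2 := by
  have := congrArg Complex.re (h.same z s σ hs hσ)
  rwa [Complex.re_ofReal_mul, Complex.ofReal_re] at this

lemma Fam.loc_ratio (h : Fam T v A y q β C s0) (hΛ : 4 ≤ Λ) (hΛ' : 32 * C * (1 / Λ) ^ β ≤ 1)
    {σ : ℝ} (hs : 0 < s) (hσ : Λ * s ≤ σ) : 32 * (C * (s / σ) ^ β) ≤ 1 := by
  have hΛ0 : 0 < Λ := by linarith
  have h0 : 0 < σ := lt_of_lt_of_le (by positivity) hσ
  have h1 : (s / σ) ^ β ≤ (1 / Λ) ^ β := Real.rpow_le_rpow (div_pos hs h0).le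
    (by rw [div_le_div_iff₀ h0 hΛ0]; linarith) h.β0.le
  have := mul_le_mul_of_nonneg_left h1 (show 0 ≤ 32 * C by linarith [h.C1])
  linarith

lemma Loc.pos1 (l : Loc q s0 Λ t ε z s σ1 σ2) (hΛ : 4 ≤ Λ) : 0 < σ1 :=
  lt_of_lt_of_le (mul_pos (by linarith) l.h0) l.h1

lemma Fam.subset (h : Fam T v A y q β C s0) {A' : Set ℂ} (hA : A' ⊆ A) :
    Fam T v A' y q β C s0 :=
  { h with
    nd := fun z hz => h.nd z (hA hz)
    del := fun z hz z' hz' => h.del z (hA hz) z' (hA hz')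
    dec := fun z hz => h.dec z (hA hz)
    top := fun z hz => h.top z (hA hz)
    near := fun z hz w hw => h.near z (hA hz) w (hA hw)
    unb := fun z hz => h.unb z (hA hz) }

lemma Fam.q_le (h : Fam T v A y q β C s0) (hz : z ∈ A) (hs : 0 < s) (h0 : s ≤ s0) :
    q z s ^ 2 ≤ C ^ 2 * (s / s0) ^ β := by
  have h1 := h.dec z hz s s0 hs h0 le_rfl
  have h2 := h.top z hz
  have h3 : 0 ≤ C * (s / s0) ^ β :=
    mul_nonneg (by linarith [h.C1]) (Real.rpow_nonneg (div_pos hs h.s0pos).le _)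
  calc _ ≤ C * (s / s0) ^ β * C := h1.trans (mul_le_mul_of_nonneg_left h2 h3)
    _ = _ := by ring

lemma Fam.exists_scale (h : Fam T v A y q β C s0) (hz : z ∈ A) (ht : C ≤ t * s0) :
    ∃ s, 0 < s ∧ s ≤ s0 ∧ q z s ^ 2 = t * s := by
  obtain ⟨a, ha, ha0, hq⟩ := h.unb z hz t
  have hc : ContinuousOn (fun s => q z s ^ 2 - t * s) (Icc a s0) := fun s hs =>
    ((h.loc_cont z (ha.trans_le hs.1)).sub (by fun_prop)).continuousWithinAt
  obtain ⟨s, hs, e⟩ := intermediate_value_Icc' ha0 hc (show (0 : ℝ) ∈ _ from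
    ⟨by linarith [h.top z hz], by linarith⟩)
  exact ⟨s, ha.trans_le hs.1, hs.2, sub_eq_zero.1 e⟩

lemma Fam.exists_loc (h : Fam T v A y q β C s0) (hΛ : 4 ≤ Λ) (hε : 0 < ε) :
    ∃ t0, 0 < t0 ∧ ∀ t, t0 ≤ t → ∀ z ∈ A, ∃ s σ1 σ2, Loc q s0 Λ t ε z s σ1 σ2 := by
  obtain ⟨b, hb, hb0, hs⟩ := loc_small h.β0 (C ^ 2) (pow_pos hε 2) h.s0pos
  have hC := h.C1
  refine ⟨4 * C / b + 1, by positivity, fun t ht z hz => ?_⟩
  have ht0 : 0 < t := lt_of_lt_of_le (by positivity) ht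
  have h1 : 4 * C < t * b := by
    rw [← div_lt_iff₀ hb]; linarith
  have h2 : t * b ≤ t * s0 := by gcongr
  obtain ⟨σ2, a2, b2, e2⟩ := h.exists_scale (t := t / 4) hz (by linarith)
  obtain ⟨σ1, a1, b1, e1⟩ := h.exists_scale (t := t) hz (by linarith)
  obtain ⟨s, a0, b0, e0⟩ := h.exists_scale (t := Λ * t) hz (by nlinarith)
  have c2 : σ2 ≤ b := by
    by_contra hc
    have h3 := h.scale z b σ2 hb (not_le.1 hc).le
    have h4 : q z b ^ 2 ≤ q z s0 ^ 2 := pow_le_pow_left₀ (h.q0 _ _) (h.mono z b s0 hb hb0) 2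
    have h5 := h.top z hz
    rw [e2] at h3
    nlinarith
  have c1 : σ1 ≤ σ2 := by
    by_contra hc
    have h3 := h.scale z σ2 σ1 a2 (not_le.1 hc).le
    rw [e1, e2] at h3
    have : 0 < t * σ1 * σ2 := by positivity
    nlinarith
  have c0 : s ≤ σ1 := by
    by_contra hc
    have h3 := h.scale z σ1 s a1 (not_le.1 hc).le
    rw [e1, e0] at h3
    have : 0 < t * σ1 * s := by positivity
    nlinarith
  have c3 : q z s ^ 2 ≤ q z σ1 ^ 2 := pow_le_pow_left₀ (h.q0 _ _) (h.mono z s σ1 a0 c0) 2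
  refine ⟨s, σ1, σ2, a0, le_of_mul_le_mul_left (by rw [e0, e1] at c3; linarith) ht0, c1, b2, e0,
    e1, by linarith, ?_⟩
  exact loc_sq hε.le ((h.q_le hz a2 b2).trans (hs σ2 a2 c2))

lemma Fam.exists_ratio (h : Fam T v A y q β C s0) : ∃ Λ, 4 ≤ Λ ∧ 32 * C * (1 / Λ) ^ β ≤ 1 := by
  obtain ⟨b, hb, -, hs⟩ := loc_small h.β0 (32 * C) one_pos one_pos
  have h0 : 0 < min b (1 / 4) := lt_min hb (by norm_num)
  refine ⟨1 / min b (1 / 4), ?_, ?_⟩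
  · rw [le_div_iff₀ h0]; linarith [min_le_right b (1 / 4)]
  · simpa using hs _ h0 (min_le_left _ _)

lemma Fam.norm_loc (h : Fam T v A y q β C s0) (hΛ : 4 ≤ Λ) (l : Loc q s0 Λ t ε z s σ1 σ2) :
    ‖y z σ1 - y z σ2‖ ^ 2 ≤ 3 * t := by
  have a1 := l.pos1 hΛ
  have a2 := a1.trans_le l.h2
  have n1 : ‖y z σ1‖ ^ 2 ≤ t := le_of_mul_le_mul_left (by
    linarith [h.nrm z σ1 a1, l.e1]) a1
  have n2 : 4 * ‖y z σ2‖ ^ 2 ≤ t := le_of_mul_le_mul_left (by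
    linarith [h.nrm z σ2 a2, l.e2]) a2
  have n3 := pow_le_pow_left₀ (norm_nonneg _) (norm_sub_le (y z σ1) (y z σ2)) 2
  nlinarith [sq_nonneg (‖y z σ1‖ - ‖y z σ2‖), sq_nonneg ‖y z σ1‖]

lemma Fam.diag_loc (h : Fam T v A y q β C s0) (hΛ : 4 ≤ Λ) (hΛ' : 32 * C * (1 / Λ) ^ β ≤ 1)
    (hz : z ∈ A) (ht : 0 < t) (l : Loc q s0 Λ t ε z s σ1 σ2) :
    t / 2 ≤ ‖⟪y z s, y z σ1 - y z σ2⟫_ℂ‖ := by
  have a1 := l.pos1 hΛ
  have a2 := a1.trans_le l.h2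
  have a0 := l.h0
  have h4 : 4 * s ≤ σ1 := le_trans (by gcongr) l.h1
  have h2 := l.h2
  have r1 := h.loc_same z a0 a1
  have r2 := h.loc_same z a0 a2
  have d := h.dec z hz s σ1 a0 (by linarith) (h2.trans l.h3)
  have d' := h.loc_ratio hΛ hΛ' a0 l.h1
  have e2 := l.e2
  rw [l.e1] at d r1
  have d2 : 32 * q z s ^ 2 ≤ t * σ1 := by
    have : 0 < t * σ1 := by positivity
    nlinarith
  refine le_trans ?_ (Complex.re_le_norm _)
  rw [inner_sub_right, Complex.sub_re]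
  generalize (⟪y z s, y z σ1⟫_ℂ).re = u1 at *
  generalize (⟪y z s, y z σ2⟫_ℂ).re = u2 at *
  have b1 : 31 / 32 * t ≤ u1 := by
    by_contra hc
    have := mul_lt_mul_of_pos_left (not_le.1 hc) (show 0 < σ1 - s by linarith)
    have : 0 < t * s := by positivity
    nlinarith
  have b2 : u2 ≤ t / 3 := by
    by_contra hc
    have := mul_lt_mul_of_pos_left (not_le.1 hc) (show 0 < σ2 - s by linarith)
    have : t * (4 * s) ≤ t * σ2 := by gcongr; linarith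
    nlinarith [sq_nonneg (q z s)]
  linarith

lemma Fam.par_loc (h : Fam T v A y q β C s0) (hΛ : 4 ≤ Λ) (hΛ' : 32 * C * (1 / Λ) ^ β ≤ 1)
    (hz : z ∈ A) (ht : 0 < t) (l : Loc q s0 Λ t ε z s σ1 σ2) {z' : ℂ} (hz' : z' ∈ A) {s' : ℝ}
    (h0 : 0 < s') (h1 : s' ≤ s) (h2 : ‖z' - z‖ ^ 2 ≤ s) :
    ‖⟪y z' s' - y z s, y z σ1 - y z σ2⟫_ℂ‖ ≤ t / 16 := by
  have a1 := l.pos1 hΛ
  have a2 := a1.trans_le l.h2
  have a0 := l.h0
  have h4 : 4 * s ≤ σ1 := le_trans (by gcongr) l.h1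
  have d1 := h.del z hz z' hz' z s' s σ1 h0 h1 (by linarith) (l.h2.trans l.h3) h2
  have d2 := h.del z hz z' hz' z s' s σ2 h0 h1 (by linarith [l.h2]) l.h3 h2
  have r1 := h.loc_ratio hΛ hΛ' a0 l.h1
  have r2 := h.loc_ratio hΛ hΛ' a0 (l.h1.trans l.h2)
  rw [mul_assoc, ← sq, l.e1, mul_div_assoc, mul_div_cancel_right₀ _ a1.ne'] at d1
  rw [mul_assoc, ← sq, show q z σ2 ^ 2 = t / 4 * σ2 by linarith [l.e2], mul_div_assoc,
    mul_div_cancel_right₀ _ a2.ne'] at d2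
  rw [inner_sub_right]
  refine (norm_sub_le _ _).trans ?_
  nlinarith

lemma Fam.far_loc (h : Fam T v A y q β C s0) (hΛ : 4 ≤ Λ) (l : Loc q s0 Λ t ε z s σ1 σ2)
    {w : ℂ} (hw : w ∈ A) {s' : ℝ} (h0 : 0 < s') (h1 : s' ≤ ‖z - w‖ ^ 2) (h2 : ‖z - w‖ ^ 2 ≤ s0) :
    ‖⟪y w s', y z σ1 - y z σ2⟫_ℂ‖ ≤ C ^ 2 * ε / s0 * (s0 / ‖z - w‖ ^ 2) ^ (1 - β / 2) := by
  have hρ := h0.trans_le h1
  have hC := h.C1
  have hs0 := h.s0pos
  have d := h.farInc z w σ1 σ2 s' (l.pos1 hΛ) l.h2 h0 h1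
  have hq := h.q_le hw hρ h2
  generalize ‖z - w‖ ^ 2 = ρ at *
  have hr : 0 < ρ / s0 := by positivity
  have e1 : (ρ / s0) ^ β = ((ρ / s0) ^ (β / 2)) ^ 2 := by
    rw [← Real.rpow_natCast, ← Real.rpow_mul hr.le]; congr 1; push_cast; ring
  rw [e1, ← mul_pow] at hq
  have hq' := loc_sq (by positivity) hq
  have e2 : (s0 / ρ) ^ (1 - β / 2) = s0 / ρ * (ρ / s0) ^ (β / 2) := by
    rw [Real.rpow_sub (by positivity), Real.rpow_one, ← inv_div ρ s0, Real.inv_rpow hr.le,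
      div_inv_eq_mul]
  have hε := (h.q0 z σ2).trans l.sm
  calc _ ≤ C * ε * (C * (ρ / s0) ^ (β / 2)) / ρ := d.trans (by
        have := h.q0 w ρ
        have := l.sm
        gcongr)
    _ = _ := by rw [e2]; field_simp

lemma Fam.reg (h : Fam T v A y q β C s0) (w : ℂ) {σ : ℝ} (h0 : 0 < σ) (h1 : σ ≤ s0) :
    Reg A y (y w σ) := by
  intro η hη
  obtain ⟨b, hb, hb0, hs⟩ := loc_small h.β0 (C * C * q w σ / σ) hη h0
  refine ⟨b, hb, fun z hz z' hz' s' s a1 a2 a3 a4 => ?_⟩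
  have a0 := a1.trans_le a2
  have hC := h.C1
  have hq : q z σ ≤ C := loc_sq (by linarith) ((h.q_le hz h0 h1).trans
    (mul_le_of_le_one_right (sq_nonneg _) (Real.rpow_le_one (div_pos h0 h.s0pos).le
      ((div_le_one h.s0pos).2 h1) h.β0.le)))
  refine (h.del z hz z' hz' w s' s σ a1 a2 (a3.trans hb0) h1 a4).trans (le_trans ?_ (hs s a0 a3))
  have := h.q0 w σ
  calc _ ≤ C * (s / σ) ^ β * C * q w σ / σ := by gcongr
    _ = _ := by ring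

omit [CompleteSpace H] in
lemma Reg.sub {x x' : H} (h : Reg A y x) (h' : Reg A y x') : Reg A y (x - x') := by
  intro η hη
  obtain ⟨b, hb, h⟩ := h (η / 2) (half_pos hη)
  obtain ⟨b', hb', h'⟩ := h' (η / 2) (half_pos hη)
  refine ⟨min b b', lt_min hb hb', fun z hz z' hz' s' s a1 a2 a3 a4 => ?_⟩
  rw [inner_sub_right]
  refine (norm_sub_le _ _).trans ?_
  linarith [h z hz z' hz' s' s a1 a2 (a3.trans (min_le_left _ _)) a4,
    h' z hz z' hz' s' s a1 a2 (a3.trans (min_le_right _ _)) a4]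

omit [CompleteSpace H] in
lemma Reg.smul {x : H} (h : Reg A y x) (c : ℂ) : Reg A y (c • x) := by
  intro η hη
  have hc : 0 < ‖c‖ + 1 := by positivity
  obtain ⟨b, hb, h⟩ := h (η / (‖c‖ + 1)) (div_pos hη hc)
  refine ⟨b, hb, fun z hz z' hz' s' s a1 a2 a3 a4 => ?_⟩
  have := (le_div_iff₀ hc).1 (h z hz z' hz' s' s a1 a2 a3 a4)
  rw [inner_smul_right, norm_mul]
  nlinarith [norm_nonneg ⟪y z' s' - y z s, x⟫_ℂ]

omit [CompleteSpace H] in
lemma Reg.sum {ι : Type*} (S : Finset ι) {x : ι → H} (h : ∀ i ∈ S, Reg A y (x i)) :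
    Reg A y (∑ i ∈ S, x i) := by
  classical
  induction S using Finset.induction_on with
  | empty => exact fun η hη => ⟨1, one_pos, fun _ _ _ _ _ _ _ _ _ _ => by simpa using hη.le⟩
  | insert a S ha ih =>
    rw [Finset.sum_insert ha]
    simpa using (h a (by simp)).sub ((ih fun i hi => h i (by simp [hi])).smul (-1))

lemma Fam.unbounded (h : Fam T v A y q β C s0) (hz : z ∈ A) (M : ℝ) {b : ℝ} (hb : 0 < b) :
    ∃ σ, 0 < σ ∧ σ ≤ b ∧ σ ≤ s0 ∧ M ≤ ‖y z σ‖ := by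
  by_contra hc
  push Not at hc
  obtain ⟨s1, a1, a2, a3⟩ := h.unb z hz (2 * M ^ 2 + 1)
  obtain ⟨σ, b0, b1, b2⟩ : ∃ σ, 0 < σ ∧ σ ≤ s1 ∧ σ ≤ b :=
    ⟨min s1 b, lt_min a1 hb, min_le_left _ _, min_le_right _ _⟩
  have c1 : (2 * M ^ 2 + 1) * σ ≤ q z σ ^ 2 := le_of_mul_le_mul_left (by
    have := h.scale z σ s1 b0 b1
    nlinarith) a1
  obtain ⟨s, d0, d1, d2⟩ := loc_small h.β0 C (show (0 : ℝ) < 1 / 2 by norm_num) b0
  have c2 := (h.dec z hz s σ d0 d1 (b1.trans a2)).trans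
    (mul_le_mul_of_nonneg_right (d2 s d0 le_rfl) (sq_nonneg _))
  have c3 := h.loc_same z d0 b0
  have n1 := hc s d0 (d1.trans b2) (d1.trans (b1.trans a2))
  have n2 := hc σ b0 b2 (b1.trans a2)
  have c4 : (⟪y z s, y z σ⟫_ℂ).re ≤ M ^ 2 := (Complex.re_le_norm _).trans
    ((norm_inner_le_norm _ _).trans (by
      rw [sq]; exact mul_le_mul n1.le n2.le (norm_nonneg _) ((norm_nonneg _).trans n1.le)))
  have c5 := mul_le_mul_of_nonneg_left c4 (sub_nonneg.2 d1)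
  nlinarith [mul_nonneg d0.le (sq_nonneg M)]

lemma Fam.eig_pow (h : Fam T v A y q β C s0) (hs : 0 < s) {L : ℝ} (hT : ‖T‖ ≤ L) (hz : ‖z‖ ≤ L)
    (k : ℕ) : ‖(star T ^ (k + 1)) (y z s) - conj z ^ (k + 1) • y z s‖ ≤ (k + 1) * L ^ k * q z s := by
  have hL := (norm_nonneg _).trans hT
  have h1 := h.eig z s hs
  induction k with
  | zero => simpa using h1
  | succ k ih =>
    have e : (star T ^ (k + 1 + 1)) (y z s) - conj z ^ (k + 1 + 1) • y z s =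
        star T ((star T ^ (k + 1)) (y z s) - conj z ^ (k + 1) • y z s) +
          conj z ^ (k + 1) • (star T (y z s) - conj z • y z s) := by
      rw [pow_succ' (star T) (k + 1), mul_apply_eq_comp, map_sub, map_smul, smul_sub,
        smul_smul, ← pow_succ]
      abel
    rw [e]
    refine (norm_add_le _ _).trans ?_
    have a1 : ‖star T ((star T ^ (k + 1)) (y z s) - conj z ^ (k + 1) • y z s)‖ ≤
        L * ((k + 1) * L ^ k * q z s) :=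
      ((star T).le_opNorm _).trans (mul_le_mul (by rwa [norm_star]) ih (norm_nonneg _) hL)
    have a2 : ‖conj z ^ (k + 1) • (star T (y z s) - conj z • y z s)‖ ≤ L ^ (k + 1) * q z s := by
      rw [norm_smul, norm_pow, Complex.norm_conj]
      gcongr
    refine (add_le_add a1 a2).trans_eq ?_
    rw [Nat.cast_succ]
    ring

theorem not_tr_of_seq {x Y : ℕ → H} {x0 : H} (hx : Tendsto x atTop (𝓝 x0)) (h0 : x0 ≠ 0) {B : ℝ}
    (hB : ∀ n, ‖Y n‖ ≤ B) (hv : ∀ n, 1 / 2 ≤ (⟪v, Y n⟫_ℂ).re)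
    (h : ∀ k : ℕ, Tendsto (fun n => ⟪(star T ^ k) (Y n), x n⟫_ℂ) atTop (𝓝 0)) : ¬Tr T := by
  intro hT
  obtain ⟨Y0, hY⟩ := exists_weak_limit' (𝕜 := ℂ) (hyperfilter ℕ) Y B hB
  refine (hT x0 Y0 fun k => tendsto_nhds_unique (hY _)
    (Tendsto.mono_left ?_ Nat.hyperfilter_le_atTop)).elim h0 fun e => ?_
  · have e (n : ℕ) : ⟪(T ^ k) x0, Y n⟫_ℂ =
        ⟪(T ^ k) (x0 - x n), Y n⟫_ℂ + conj ⟪(star T ^ k) (Y n), x n⟫_ℂ := by
      rw [inner_conj_symm, ← star_pow, ContinuousLinearMap.star_eq_adjoint,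
        ContinuousLinearMap.adjoint_inner_right, map_sub, inner_sub_left, sub_add_cancel]
    simp only [e]
    have t1 : Tendsto (fun n => ‖(T ^ k) (x0 - x n)‖ * B) atTop (𝓝 0) := by
      simpa using ((((T ^ k).continuous.tendsto _).comp (hx.const_sub x0)).norm).mul_const B
    have t2 : Tendsto (fun n => ⟪(T ^ k) (x0 - x n), Y n⟫_ℂ) atTop (𝓝 0) :=
      squeeze_zero_norm (fun n => (norm_inner_le_norm _ _).trans
        (mul_le_mul_of_nonneg_left (hB n) (norm_nonneg _))) t1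
    simpa using t2.add ((Complex.continuous_conj.tendsto _).comp (h k))
  · have := ge_of_tendsto' ((Complex.continuous_re.tendsto _).comp (hY v)) hv
    rw [e, inner_zero_right, Complex.zero_re] at this
    norm_num at this

end Pool.Agent.Lib.MP_45cb44_an.Hy
end

-- part Pool.Agent.Lib.MP_45cb44_an.HyKids
section

/-! Choice of the children and the energy bound. -/

namespace Pool.Agent.Lib.MP_45cb44_an.Hy

open MeasureTheory Metric Set Filter Topology InnerProductSpace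
open scoped InnerProductSpace ComplexConjugate ENNReal

variable {H : Type*} [NormedAddCommGroup H] [InnerProductSpace ℂ H] [CompleteSpace H]
  {T : H →L[ℂ] H} {v : H} {A E : Set ℂ} {y : ℂ → ℝ → H} {q : ℂ → ℝ → ℝ} {β C s0 m w e ε : ℝ}
  {G G' : Finset ℂ} {s : ℂ → ℝ} {x : H} {κ : ℂ → ℂ → ℝ} {N : ℕ} {par : ℂ → ℂ}

lemma kids_far {Q Q' O O' : ℂ} {a b : ℝ} (h1 : ‖Q - O‖ ^ 2 ≤ a) (h2 : ‖Q' - O'‖ ^ 2 ≤ b)
    (h3 : 64 * a ≤ ‖O - O'‖ ^ 2) (h4 : 64 * b ≤ ‖O' - O‖ ^ 2) : 3 / 4 * ‖O - O'‖ ≤ ‖Q - Q'‖ := by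
  rw [norm_sub_rev] at h4
  have a1 : ‖Q - O‖ ≤ ‖O - O'‖ / 8 := le_of_sq_le_sq (by linarith) (by positivity)
  have a2 : ‖Q' - O'‖ ≤ ‖O - O'‖ / 8 := le_of_sq_le_sq (by linarith) (by positivity)
  have a3 := norm_add₃_le (a := -(Q - O)) (b := Q - Q') (c := Q' - O')
  rw [norm_neg, show -(Q - O) + (Q - Q') + (Q' - O') = O - O' by ring] at a3
  linarith

lemma kids_two {a b c : ℂ} {t : ℝ} (h1 : ‖a - b‖ ^ 2 ≤ t) (h2 : ‖b - c‖ ^ 2 ≤ t) :
    ‖a - c‖ ^ 2 ≤ 4 * t := by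
  have := pow_le_pow_left₀ (norm_nonneg _) (norm_sub_le_norm_sub_add_norm_sub a b c) 2
  nlinarith [sq_nonneg (‖a - b‖ - ‖b - c‖)]

lemma kids_sum (k : Kids E G s N G' par) (f : ℂ → ℝ) :
    ∑ Q ∈ G', f (par Q) = N * ∑ O ∈ G, f O := by
  classical
  rw [← Finset.sum_fiberwise_of_maps_to k.mem, Finset.mul_sum]
  refine Finset.sum_congr rfl fun O hO => ?_
  rw [Finset.sum_congr rfl fun Q hQ => congrArg f (Finset.mem_filter.1 hQ).2, Finset.sum_const,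
    k.card O hO, nsmul_eq_mul]

theorem exists_kids (hp : ∀ O ∈ G, 0 < s O)
    (hs : ∀ O ∈ G, ∀ O' ∈ G, O ≠ O' → 64 * s O ≤ ‖O - O'‖ ^ 2)
    (hE : ∀ O ∈ G, ENNReal.ofReal (s O / 2) < mm (E ∩ closedBall O √(s O))) (hN : 0 < N) :
    ∃ G' par, Kids E G s N G' par := by
  classical
  have hN' : (0 : ℝ) < N := Nat.cast_pos.2 hN
  have h1 : ∀ O ∈ G, √(s O / (2 * N)) ^ 2 = s O / (2 * N) := fun O hO =>
    Real.sq_sqrt (by have := hp O hO; positivity)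
  choose! S s1 s2 s3 using fun O (hO : O ∈ G) => exists_separated
    (E := E ∩ closedBall O √(s O)) (h := √(s O / (2 * N))) (by have := hp O hO; positivity) N (by
      rw [h1 O hO, show N * (s O / (2 * N)) = s O / 2 by field_simp]
      exact hE O hO)
  have s4 : ∀ O ∈ G, ∀ Q ∈ S O, ‖Q - O‖ ^ 2 ≤ s O := fun O hO Q hQ =>
    (Real.le_sqrt (norm_nonneg _) (hp O hO).le).1 (mem_closedBall_iff_norm.1 (s1 O hO hQ).2)
  choose! par p1 p2 using fun Q (hQ : Q ∈ G.biUnion S) => Finset.mem_biUnion.1 hQ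
  have p3 : ∀ O ∈ G, ∀ Q ∈ S O, par Q = O := fun O hO Q hQ => by
    have h2 := Finset.mem_biUnion.2 ⟨O, hO, hQ⟩
    by_contra hne
    have h3 := kids_far (s4 _ (p1 Q h2) Q (p2 Q h2)) (s4 O hO Q hQ) (hs _ (p1 Q h2) O hO hne)
      (hs O hO _ (p1 Q h2) (Ne.symm hne))
    rw [sub_self, norm_zero] at h3
    linarith [norm_pos_iff.2 (sub_ne_zero.2 hne)]
  refine ⟨G.biUnion S, par, fun Q hQ => (s1 _ (p1 Q hQ) (p2 Q hQ)).1, p1,
    fun Q hQ => s4 _ (p1 Q hQ) Q (p2 Q hQ), fun O hO => ?_, fun Q hQ Q' hQ' hne he => ?_⟩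
  · rw [← s2 O hO]
    congr 1
    ext Q
    rw [Finset.mem_filter]
    exact ⟨fun h => h.2 ▸ p2 Q h.1, fun h => ⟨Finset.mem_biUnion.2 ⟨O, hO, h⟩, p3 O hO Q h⟩⟩
  · have h2 := pow_le_pow_left₀ (Real.sqrt_nonneg _)
      (s3 _ (p1 Q hQ) Q (p2 Q hQ) Q' (he ▸ p2 Q' hQ') hne) 2
    rwa [h1 _ (p1 Q hQ), div_le_iff₀' (by positivity)] at h2

lemma Kids.card_eq (k : Kids E G s N G' par) : G'.card = N * G.card := by
  classical
  rw [Finset.card_eq_sum_card_fiberwise (f := par) (t := G) fun Q hQ => k.mem Q hQ,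
    Finset.sum_congr rfl k.card, Finset.sum_const, smul_eq_mul, mul_comm]

lemma Kids.sep_all (k : Kids E G s N G' par) (hN : 0 < N) {a : ℝ} (h0 : 0 ≤ a)
    (ha : ∀ O ∈ G, a ≤ s O) (hs : ∀ O ∈ G, ∀ O' ∈ G, O ≠ O' → 64 * s O ≤ ‖O - O'‖ ^ 2) :
    ∀ Q ∈ G', ∀ Q' ∈ G', Q ≠ Q' → a ≤ 2 * N * ‖Q - Q'‖ ^ 2 := by
  intro Q hQ Q' hQ' hne
  have h1 := k.mem Q hQ
  have h2 := k.mem Q' hQ'
  by_cases he : par Q = par Q'
  · exact (ha _ h1).trans (k.sep Q hQ Q' hQ' hne he)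
  have h3 := pow_le_pow_left₀ (by positivity) (kids_far (k.near Q hQ) (k.near Q' hQ')
    (hs _ h1 _ h2 he) (hs _ h2 _ h1 (Ne.symm he))) 2
  have h4 : (1 : ℝ) ≤ N := by exact_mod_cast hN
  have h5 := mul_le_mul_of_nonneg_right h4 (sq_nonneg ‖Q - Q'‖)
  linarith [hs _ h1 _ h2 he, ha _ h1, sq_nonneg ‖Q - Q'‖]

omit [CompleteSpace H] in
lemma Stage.exists_radius (S : Stage A y q s0 m w e ε G s x κ) : ∃ r, 0 < r ∧
    ∀ O ∈ G, ENNReal.ofReal (s O / 2) < mm (Dens A r ∩ closedBall O √(s O)) := by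
  choose! r r1 r2 using fun O (hO : O ∈ G) => exists_dens (S.dens O hO)
  obtain ⟨O, h1, h2⟩ := Finset.exists_min_image G r S.ne
  exact ⟨r O, r1 O h1, fun P hP => (r2 P hP).trans_le
    (measure_mono (inter_subset_inter_left _ (Dens.anti (h2 P hP))))⟩

/-- The energy of the next generation. -/
theorem Fam.energy (h : Fam T v A y q β C s0) : ∃ C1, 0 ≤ C1 ∧ ∀ {m w e ε : ℝ} {G G' : Finset ℂ}
    {s s' : ℂ → ℝ} {x : H} {κ : ℂ → ℂ → ℝ} {N : ℕ} {par : ℂ → ℂ},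
    Stage A y q s0 m w e ε G s x κ → Kids A G s N G' par → 0 < N → (∀ Q ∈ G', 0 < s' Q) →
    (∀ Q ∈ G', 4 * s' Q ≤ s (par Q)) →
    (∀ Q ∈ G', ∀ Q' ∈ G', Q ≠ Q' → 64 * s' Q ≤ ‖Q - Q'‖ ^ 2) → ∃ κ' : ℂ → ℂ → ℝ,
      (∀ O ∈ G', ∀ O' ∈ G', O ≠ O' → ∀ z ∈ A, ∀ z' ∈ A, ‖z - O‖ ^ 2 ≤ 4 * s' O →
        ‖z' - O'‖ ^ 2 ≤ 4 * s' O' → q z (‖z - z'‖ ^ 2) ^ 2 ≤ κ' O O' * ‖z - z'‖ ^ 2) ∧
      ∑ O ∈ G', ∑ O' ∈ G'.erase O, κ' O O' ≤ (e + C1 * m ^ 2) * G'.card ^ 2 := by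
  classical
  obtain ⟨Cp, c1, c2⟩ := packing (a := 1 - β) (sub_nonneg.2 h.β1) (sub_lt_self 1 h.β0)
  refine ⟨2 * C ^ 2 * Cp, by positivity, ?_⟩
  intro m w e ε G G' s s' x κ N par S k hN h1 h2 h3
  have hN' : (0 : ℝ) < N := Nat.cast_pos.2 hN
  have hC : 0 ≤ C := zero_le_one.trans h.C1
  refine ⟨fun Q Q' => (if par Q = par Q' then
      C ^ 2 * m ^ 2 * G.card * (4 * s (par Q) / ‖Q - Q'‖ ^ 2) ^ (1 - β) else 0) +
    if par Q = par Q' then 0 else κ (par Q) (par Q'), ?_, ?_⟩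
  · intro Q hQ Q' hQ' hne z hz z' hz' g1 g2
    have m1 := k.mem Q hQ
    have m2 := k.mem Q' hQ'
    have n1 := kids_two (g1.trans (h2 Q hQ)) (k.near Q hQ)
    have n2 := kids_two (g2.trans (h2 Q' hQ')) (k.near Q' hQ')
    by_cases he : par Q = par Q'
    swap
    · simp only [if_neg he, zero_add]
      exact S.kap _ m1 _ m2 he z hz z' hz' n1 n2
    simp only [if_pos he, add_zero]
    have n3 := kids_two (k.near Q hQ) (a := Q) (b := par Q) (c := Q')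
      (by rw [norm_sub_rev, he]; exact k.near Q' hQ')
    have n4 : ‖Q - Q'‖ ^ 2 / 4 ≤ ‖z - z'‖ ^ 2 := by
      have a1 : ‖z - Q‖ ≤ ‖Q - Q'‖ / 4 :=
        le_of_sq_le_sq (by linarith [h3 Q hQ Q' hQ' hne]) (by positivity)
      have a2 : ‖z' - Q'‖ ≤ ‖Q - Q'‖ / 4 := le_of_sq_le_sq (by
        have := h3 Q' hQ' Q hQ hne.symm
        rw [norm_sub_rev] at this
        linarith) (by positivity)
      have a3 := norm_add₃_le (a := -(z - Q)) (b := z - z') (c := z' - Q')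
      rw [norm_neg, show -(z - Q) + (z - z') + (z' - Q') = Q - Q' by ring] at a3
      have a4 := pow_le_pow_left₀ (by positivity) (show ‖Q - Q'‖ / 2 ≤ ‖z - z'‖ by linarith) 2
      linarith
    have n5 : 0 < ‖Q - Q'‖ ^ 2 / 4 := by
      have := norm_pos_iff.2 (sub_ne_zero.2 hne)
      positivity
    have p0 := S.pos _ m1
    have a1 := h.scale z _ _ n5 n4
    have a2 := h.dec z hz _ _ n5 (show _ ≤ s (par Q) by linarith) (S.le _ m1)
    have a3 := (h.near _ (S.sub _ m1) z hz _ p0 (S.le _ m1) (by rwa [norm_sub_rev])).trans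
      (mul_le_mul_of_nonneg_left (S.lev _ m1) hC)
    rw [show 4 * s (par Q) / ‖Q - Q'‖ ^ 2 = s (par Q) / (‖Q - Q'‖ ^ 2 / 4) by
      rw [div_div_eq_mul_div, mul_comm]]
    generalize ‖Q - Q'‖ ^ 2 / 4 = u at *
    generalize s (par Q) = σ at *
    refine le_of_mul_le_mul_left (a1.trans ((mul_le_mul_of_nonneg_left (a2.trans
      (mul_le_mul_of_nonneg_left a3 (by positivity))) (by positivity)).trans (le_of_eq ?_))) n5
    rw [Real.rpow_sub (by positivity), Real.rpow_one, ← inv_div σ u,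
      Real.inv_rpow (by positivity)]
    field_simp
  · have b1 : ∀ Q ∈ G', ∑ Q' ∈ G'.erase Q, (if par Q = par Q' then
        C ^ 2 * m ^ 2 * G.card * (4 * s (par Q) / ‖Q - Q'‖ ^ 2) ^ (1 - β) else 0) ≤
        2 * C ^ 2 * Cp * m ^ 2 * G'.card := by
      intro Q hQ
      have p0 := S.pos _ (k.mem Q hQ)
      have a1 : √(s (par Q) / (2 * N)) ^ 2 = s (par Q) / (2 * N) := Real.sq_sqrt (by positivity)
      have a2 := c2 (G'.filter fun Q' => par Q = par Q') (par Q) √(s (par Q))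
        √(s (par Q) / (2 * N)) (by positivity) (by positivity)
        (fun P hP => by
          obtain ⟨b1, b2⟩ := Finset.mem_filter.1 hP
          rw [b2]
          exact Real.le_sqrt_of_sq_le (k.near P b1))
        (fun P hP P' hP' hne => by
          obtain ⟨b1, b2⟩ := Finset.mem_filter.1 hP
          obtain ⟨b3, b4⟩ := Finset.mem_filter.1 hP'
          refine le_of_sq_le_sq ?_ (norm_nonneg _)
          rw [a1, div_le_iff₀' (by positivity), b2]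
          exact k.sep P b1 P' b3 hne (b2.symm.trans b4))
        Q (Finset.mem_filter.2 ⟨hQ, rfl⟩)
      rw [a1, Real.sq_sqrt p0.le, ← Finset.filter_erase] at a2
      rw [← Finset.sum_filter, ← Finset.mul_sum, k.card_eq, Nat.cast_mul]
      refine (mul_le_mul_of_nonneg_left a2 (by positivity)).trans (le_of_eq ?_)
      field_simp
    have b2 : ∀ Q ∈ G', ∑ Q' ∈ G'.erase Q, (if par Q = par Q' then 0 else κ (par Q) (par Q')) =
        N * ∑ O' ∈ G.erase (par Q), κ (par Q) O' := by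
      intro Q hQ
      rw [Finset.sum_erase (a := Q) G' (by simp),
        kids_sum k fun O' => if par Q = O' then 0 else κ (par Q) O',
        ← Finset.sum_erase (a := par Q) G (by simp)]
      exact congrArg _ (Finset.sum_congr rfl fun O' hO' => if_neg (Finset.ne_of_mem_erase hO').symm)
    simp only [Finset.sum_add_distrib]
    have b3 := Finset.sum_le_sum b1
    rw [Finset.sum_const, nsmul_eq_mul] at b3
    rw [Finset.sum_congr rfl b2, ← Finset.mul_sum,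
      kids_sum k fun O => ∑ O' ∈ G.erase O, κ O O']
    have b4 := mul_le_mul_of_nonneg_left S.en (by positivity : (0 : ℝ) ≤ N * N)
    have b5 : (G'.card : ℝ) = N * G.card := by rw [k.card_eq, Nat.cast_mul]
    have b6 : N * N * (e * (G.card : ℝ) ^ 2) = e * (G'.card : ℝ) ^ 2 := by
      rw [b5]
      ring
    linarith

/-- The average of a generation is bounded. -/
theorem Stage.norm_sum_le (h : Fam T v A y q β C s0) (hA : ∀ z ∈ A, ∀ z' ∈ A, ‖z - z'‖ ^ 2 ≤ s0)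
    (S : Stage A y q s0 m w e ε G s x κ) :
    ‖∑ O ∈ G, y O (s O)‖ ^ 2 ≤ (m ^ 2 + C ^ 2 * e) * G.card ^ 2 := by
  classical
  have hC : 0 ≤ C := zero_le_one.trans h.C1
  have h1 : ∀ O ∈ G, ∑ O' ∈ G, ‖⟪y O (s O), y O' (s O')⟫_ℂ‖ ≤
      m ^ 2 * G.card + C ^ 2 * ∑ O' ∈ G.erase O, κ O O' := by
    intro O hO
    rw [← Finset.add_sum_erase _ _ hO, Finset.mul_sum]
    refine add_le_add ?_ (Finset.sum_le_sum fun O' hO' => ?_)
    · refine (norm_inner_le_norm _ _).trans (le_of_mul_le_mul_left ?_ (S.pos O hO))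
      rw [← sq, mul_comm _ (m ^ 2 * _)]
      exact (h.nrm O _ (S.pos O hO)).trans (S.lev O hO)
    obtain ⟨hne, hO'⟩ := Finset.mem_erase.1 hO'
    have a1 := S.sep O hO O' hO' hne.symm
    have a2 := S.sep O' hO' O hO hne
    rw [norm_sub_rev] at a2
    have p1 := S.pos O hO
    have p2 := S.pos O' hO'
    have p3 : 0 < ‖O - O'‖ ^ 2 := by linarith
    have a3 := h.near O (S.sub O hO) O' (S.sub O' hO') _ p3
      (hA O (S.sub O hO) O' (S.sub O' hO')) (by linarith)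
    have a4 := S.kap O hO O' hO' hne.symm O (S.sub O hO) O' (S.sub O' hO')
      (by simpa using p1.le) (by simpa using p2.le)
    have q1 := h.q0 O (‖O - O'‖ ^ 2)
    have a5 : q O' (‖O - O'‖ ^ 2) ≤ C * q O (‖O - O'‖ ^ 2) := by
      refine le_of_sq_le_sq (a3.trans ?_) (by positivity)
      rw [mul_pow]
      exact mul_le_mul_of_nonneg_right (by nlinarith [h.C1]) (sq_nonneg _)
    refine (h.farSt O O' _ _ p1 (by linarith) p2 (by linarith)).trans ?_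
    rw [div_le_iff₀ p3]
    have a6 := mul_le_mul_of_nonneg_left a5 (mul_nonneg hC q1)
    have a7 := mul_le_mul_of_nonneg_left a4 (sq_nonneg C)
    linarith
  have h2 := Finset.sum_le_sum h1
  rw [Finset.sum_add_distrib, Finset.sum_const, nsmul_eq_mul, ← Finset.mul_sum] at h2
  have h3 := mul_le_mul_of_nonneg_left S.en (sq_nonneg C)
  have h4 : ‖∑ O ∈ G, y O (s O)‖ ^ 2 ≤ ∑ O ∈ G, ∑ O' ∈ G, ‖⟪y O (s O), y O' (s O')⟫_ℂ‖ := by
    rw [← inner_self_eq_norm_sq (𝕜 := ℂ)]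
    refine (RCLike.re_le_norm _).trans ?_
    rw [sum_inner]
    refine (_root_.norm_sum_le _ _).trans (Finset.sum_le_sum fun O _ => ?_)
    rw [inner_sum]
    exact _root_.norm_sum_le _ _
  linarith

end Pool.Agent.Lib.MP_45cb44_an.Hy
end

-- part Pool.Agent.Lib.MP_45cb44_an.HyStep
section

/-! The inductive step. -/

namespace Pool.Agent.Lib.MP_45cb44_an.Hy

open MeasureTheory Metric Set Filter Topology InnerProductSpace
open scoped InnerProductSpace ComplexConjugate ENNReal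

variable {H : Type*} [NormedAddCommGroup H] [InnerProductSpace ℂ H] [CompleteSpace H]
  {T : H →L[ℂ] H} {v : H} {A E : Set ℂ} {y : ℂ → ℝ → H} {q : ℂ → ℝ → ℝ} {β C s0 : ℝ}

omit [CompleteSpace H] in
lemma step_norm (G : Finset ℂ) (c : ℂ → ℂ) (d : ℂ → H) {u D F : ℝ} (hu : 0 ≤ u)
    (hc : ∀ Q ∈ G, ‖c Q‖ ≤ u) (hd : ∀ Q ∈ G, ‖d Q‖ ^ 2 ≤ D)
    (hF : ∀ Q ∈ G, ∑ P ∈ G.erase Q, ‖⟪d Q, d P⟫_ℂ‖ ≤ F) :
    ‖∑ Q ∈ G, c Q • d Q‖ ^ 2 ≤ G.card * (u ^ 2 * (D + F)) := by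
  have e : ∀ x : H, ‖⟪x, x⟫_ℂ‖ = ‖x‖ ^ 2 := fun x => by
    rw [inner_self_eq_norm_sq_to_K]; simp
  rw [← e, sum_inner, ← nsmul_eq_mul]
  refine (norm_sum_le _ _).trans (Finset.sum_le_card_nsmul _ _ _ fun Q hQ => ?_)
  rw [inner_sum]
  refine (norm_sum_le _ _).trans
    ((Finset.sum_le_sum (g := fun P => u ^ 2 * ‖⟪d Q, d P⟫_ℂ‖) fun P hP => ?_).trans ?_)
  · rw [inner_smul_left, inner_smul_right, norm_mul, norm_mul, RCLike.norm_conj, ← mul_assoc, sq]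
    exact mul_le_mul_of_nonneg_right (mul_le_mul (hc Q hQ) (hc P hP) (norm_nonneg _) hu)
      (norm_nonneg _)
  · rw [← Finset.mul_sum, ← Finset.add_sum_erase _ _ hQ, e]
    exact mul_le_mul_of_nonneg_left (add_le_add (hd Q hQ) (hF Q hQ)) (sq_nonneg _)

omit [CompleteSpace H] in
lemma step_small (G : Finset ℂ) (c : ℂ → ℂ) (d : ℂ → H) {Q : ℂ} (hQ : Q ∈ G) {x y0 y1 : H}
    {u a b F : ℝ} (hu : 0 ≤ u) (hc : ∀ P ∈ G, ‖c P‖ ≤ u) (e : c Q * ⟪y0, d Q⟫_ℂ = ⟪y0, x⟫_ℂ)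
    (ha : ‖⟪y1 - y0, x⟫_ℂ‖ ≤ a) (hb : ‖⟪y1 - y0, d Q⟫_ℂ‖ ≤ b)
    (hF : ∑ P ∈ G.erase Q, ‖⟪y1, d P⟫_ℂ‖ ≤ F) :
    ‖⟪y1, x - ∑ P ∈ G, c P • d P⟫_ℂ‖ ≤ a + u * b + u * F := by
  have e1 : ⟪y1, x - ∑ P ∈ G, c P • d P⟫_ℂ = ⟪y1 - y0, x⟫_ℂ - c Q * ⟪y1 - y0, d Q⟫_ℂ -
      ∑ P ∈ G.erase Q, c P * ⟪y1, d P⟫_ℂ := by
    rw [inner_sub_right, inner_sum, ← Finset.add_sum_erase _ _ hQ, inner_sub_left, inner_sub_left,
      ← e]
    simp only [inner_smul_right]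
    ring
  rw [e1]
  refine (norm_sub_le _ _).trans (add_le_add ((norm_sub_le _ _).trans (add_le_add ha ?_)) ?_)
  · rw [norm_mul]
    exact mul_le_mul (hc Q hQ) hb (norm_nonneg _) hu
  · refine (norm_sum_le _ _).trans (le_trans ?_ (mul_le_mul_of_nonneg_left hF hu))
    rw [Finset.mul_sum]
    refine Finset.sum_le_sum fun P hP => ?_
    rw [norm_mul]
    exact mul_le_mul_of_nonneg_right (hc P (Finset.mem_of_mem_erase hP)) (norm_nonneg _)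

lemma step_far (h : Fam T v A y q β C s0) (hA : ∀ z ∈ A, ∀ z' ∈ A, ‖z - z'‖ ^ 2 ≤ s0) :
    ∃ Cp, 0 < Cp ∧ ∀ {Λ t ε δ : ℝ} {G : Finset ℂ} {s s1 s2 : ℂ → ℝ}, 4 ≤ Λ → 0 ≤ ε → 0 < δ →
      (∀ Q ∈ G, Q ∈ A) → (∀ Q ∈ G, ∀ Q' ∈ G, Q ≠ Q' → δ ≤ ‖Q - Q'‖ ^ 2) →
      (∀ Q ∈ G, Loc q s0 Λ t ε Q (s Q) (s1 Q) (s2 Q)) → ∀ Q ∈ G, ∀ z ∈ A, ∀ s', 0 < s' →
      64 * s' ≤ δ → 64 * ‖z - Q‖ ^ 2 ≤ δ →
      ∑ P ∈ G.erase Q, ‖⟪y z s', y P (s1 P) - y P (s2 P)⟫_ℂ‖ ≤ ε * Cp / δ := by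
  have hβ := h.β0
  have hβ1 := h.β1
  have hC := h.C1
  have hs := h.s0pos
  obtain ⟨Cp, hCp, hp⟩ := packing (a := 1 - β / 2) (by linarith) (by linarith)
  refine ⟨C ^ 2 * Cp, by positivity, ?_⟩
  intro Λ t ε δ G s s1 s2 hΛ hε hδ hG hsep hl Q hQ z hz s' h0 h1 h2
  have h3 := hp G Q √s0 √δ (by positivity) (by positivity)
    (fun P hP => Real.le_sqrt_of_sq_le (hA P (hG P hP) Q (hG Q hQ)))
    (fun P hP P' hP' hne => Real.sqrt_le_iff.2 ⟨norm_nonneg _, hsep P hP P' hP' hne⟩) Q hQ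
  rw [Real.sq_sqrt hs.le, Real.sq_sqrt hδ.le] at h3
  have h4 : 0 ≤ C ^ 2 * ε / s0 := by positivity
  refine le_trans ?_ ((mul_le_mul_of_nonneg_left h3 h4).trans (le_of_eq (by field_simp)))
  rw [Finset.mul_sum]
  refine Finset.sum_le_sum fun P hP => ?_
  obtain ⟨h5, h6⟩ := Finset.mem_erase.1 hP
  have h7 := hsep Q hQ P h6 h5.symm
  have h8 : ‖Q - P‖ ≤ ‖z - Q‖ + ‖P - z‖ := by
    rw [norm_sub_rev Q, add_comm]
    exact norm_sub_le_norm_sub_add_norm_sub _ _ _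
  have h9 : ‖Q - P‖ ^ 2 ≤ 4 * ‖P - z‖ ^ 2 := by
    nlinarith [pow_le_pow_left₀ (norm_nonneg _) h8 2, sq_nonneg (‖z - Q‖ - ‖P - z‖)]
  refine (h.far_loc hΛ (hl P h6) hz h0 (by linarith) (hA P (hG P h6) z hz)).trans
    (mul_le_mul_of_nonneg_left (Real.rpow_le_rpow (by positivity) ?_ (by linarith)) h4)
  rw [div_le_div_iff₀ (by linarith) (by linarith)]
  nlinarith

theorem Fam.step (h : Fam T v A y q β C s0) (hA : ∀ z ∈ A, ∀ z' ∈ A, ‖z - z'‖ ^ 2 ≤ s0) :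
    ∃ C1 C2, 0 ≤ C1 ∧ 0 ≤ C2 ∧ ∀ {m w e ε : ℝ} {G : Finset ℂ} {s : ℂ → ℝ} {x : H}
      {κ : ℂ → ℂ → ℝ}, 0 < m → 0 < w → Stage A y q s0 m w e ε G s x κ → ∀ ε', 0 < ε' →
      ∃ G' s' x' κ', Stage A y q s0 (m / 2) (w / 4) (e + C1 * m ^ 2) ε' G' s' x' κ' ∧
        ‖x' - x‖ ≤ C2 * (w / m) := by
  obtain ⟨Λ, hΛ, hΛ'⟩ := h.exists_ratio
  obtain ⟨C1, hC1, hen⟩ := h.energy
  obtain ⟨Cp, hCp, hfar⟩ := step_far h hA
  have hΛ0 : 0 < Λ := by linarith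
  refine ⟨C1, 8 * √Λ, hC1, by positivity, ?_⟩
  intro m w e ε0 G s x κ hm hw S ε' hε'
  obtain ⟨O0, hO0, ha⟩ := G.exists_min_image s S.ne
  have ha0 := S.pos O0 hO0
  generalize s O0 = a at ha ha0
  obtain ⟨r, hr, hE⟩ := S.exists_radius
  obtain ⟨b, hb, hreg⟩ := S.reg (w / 16) (by positivity)
  have hG : (0 : ℝ) < G.card := by exact_mod_cast S.ne.card_pos
  obtain ⟨γ, hγ, eγ⟩ : ∃ γ : ℝ, 0 < γ ∧ γ * ((m / 2) ^ 2 * G.card) = Λ :=
    ⟨Λ / ((m / 2) ^ 2 * G.card), by positivity, div_mul_cancel₀ _ (by positivity)⟩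
  obtain ⟨ε, hε, k1, k2, k3, k4, k5, k6⟩ : ∃ ε : ℝ, 0 < ε ∧ ε ≤ ε' ∧ ε ≤ 1 ∧
      ε ≤ a / (64 * Cp * γ) ∧ ε ≤ a / (512 * γ) ∧ ε ≤ b / 4 ∧ ε ≤ r ^ 2 / 4 :=
    ⟨min ε' (min 1 (min (a / (64 * Cp * γ)) (min (a / (512 * γ)) (min (b / 4) (r ^ 2 / 4))))),
      by positivity, by simp, by simp, by simp, by simp, by simp, by simp⟩
  rw [le_div_iff₀ (by positivity)] at k3 k4
  obtain ⟨t0, ht0, hloc⟩ := h.exists_loc hΛ hε
  obtain ⟨N, hN⟩ := exists_nat_ge (max t0 1 * γ)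
  obtain ⟨t, et⟩ : ∃ t : ℝ, t * γ = N := ⟨N / γ, div_mul_cancel₀ _ hγ.ne'⟩
  have ht : max t0 1 ≤ t := le_of_mul_le_mul_right (hN.trans_eq et.symm) hγ
  have ht1 : 1 ≤ t := (le_max_right _ _).trans ht
  have ht2 : 0 < t := by linarith
  have hN0 : (0 : ℝ) < N := by rw [← et]; positivity
  have hN1 : 0 < N := by exact_mod_cast hN0
  have hN2 : (1 : ℝ) ≤ N := by exact_mod_cast hN1
  obtain ⟨G', par, k⟩ := exists_kids S.pos S.sep hE hN1
  have hG' : ∀ Q ∈ G', Q ∈ A := fun Q hQ => (k.sub Q hQ).1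
  choose! s' s1 s2 hl using fun Q hQ => hloc t ((le_max_left _ _).trans ht) Q (hG' Q hQ)
  have ec : Λ * t = (m / 2) ^ 2 * G'.card := by
    rw [k.card_eq, Nat.cast_mul, ← et, ← eγ]; ring
  obtain ⟨δ, hδ, eδ⟩ : ∃ δ : ℝ, 0 < δ ∧ 2 * N * δ = a :=
    ⟨a / (2 * N), by positivity, mul_div_cancel₀ _ (by positivity)⟩
  have hsep : ∀ Q ∈ G', ∀ Q' ∈ G', Q ≠ Q' → δ ≤ ‖Q - Q'‖ ^ 2 := fun Q hQ Q' hQ' hne =>
    le_of_mul_le_mul_left (eδ.trans_le (k.sep_all hN1 ha0.le ha S.sep Q hQ Q' hQ' hne))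
      (by positivity)
  have l1 : ∀ Q ∈ G', s' Q ≤ s1 Q := fun Q hQ => by nlinarith [(hl Q hQ).h0, (hl Q hQ).h1]
  have l2 : ∀ Q ∈ G', s' Q ≤ s2 Q := fun Q hQ => (l1 Q hQ).trans (hl Q hQ).h2
  have p1 : ∀ Q ∈ G', 0 < s1 Q := fun Q hQ => (hl Q hQ).h0.trans_le (l1 Q hQ)
  have p2 : ∀ Q ∈ G', 0 < s2 Q := fun Q hQ => (hl Q hQ).h0.trans_le (l2 Q hQ)
  have l3 : ∀ Q ∈ G', t * s2 Q ≤ 4 * ε := fun Q hQ => by
    have := pow_le_pow_left₀ (h.q0 _ _) (hl Q hQ).sm 2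
    nlinarith [(hl Q hQ).e2]
  have l4 : ∀ Q ∈ G', s2 Q ≤ 4 * ε := fun Q hQ => by nlinarith [l3 Q hQ, p2 Q hQ]
  have l5 : ∀ Q ∈ G', 64 * s2 Q ≤ δ := fun Q hQ => by
    refine le_of_mul_le_mul_left ?_ (show (0 : ℝ) < 2 * N by positivity)
    rw [eδ, ← et]
    nlinarith [mul_le_mul_of_nonneg_left (l3 Q hQ) hγ.le]
  have l6 : ∀ Q ∈ G', 4 * s' Q ≤ s (par Q) := fun Q hQ => by
    nlinarith [ha _ (k.mem Q hQ), l5 Q hQ, l2 Q hQ, p2 Q hQ]
  have l7 : ∀ Q ∈ G', ∀ Q' ∈ G', Q ≠ Q' → 64 * s' Q ≤ ‖Q - Q'‖ ^ 2 := fun Q hQ Q' hQ' hne => by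
    linarith [hsep Q hQ Q' hQ' hne, l5 Q hQ, l2 Q hQ]
  have far : ∀ Q ∈ G', ∀ z ∈ A, ∀ σ, 0 < σ → σ ≤ s2 Q → ‖z - Q‖ ^ 2 ≤ s2 Q →
      ∑ P ∈ G'.erase Q, ‖⟪y z σ, y P (s1 P) - y P (s2 P)⟫_ℂ‖ ≤ t / 32 :=
    fun Q hQ z hz σ h0 h1 h2 => by
      refine (hfar hΛ hε.le hδ hG' hsep hl Q hQ z hz σ h0 (by linarith [l5 Q hQ])
        (by linarith [l5 Q hQ])).trans ?_
      rw [div_le_iff₀ hδ]
      refine le_of_mul_le_mul_left ?_ hγ
      have : γ * (t / 32 * δ) = a / 64 := by rw [← eδ, ← et]; ring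
      linarith
  obtain ⟨κ', hκ, hκ'⟩ := hen S ⟨hG', k.mem, k.near, k.card, k.sep⟩ hN1 (fun Q hQ => (hl Q hQ).h0)
    l6 l7
  let d : ℂ → H := fun Q => y Q (s1 Q) - y Q (s2 Q)
  let c : ℂ → ℂ := fun Q => ⟪y Q (s' Q), x⟫_ℂ / ⟪y Q (s' Q), d Q⟫_ℂ
  have hd : ∀ Q ∈ G', t / 2 ≤ ‖⟪y Q (s' Q), d Q⟫_ℂ‖ := fun Q hQ =>
    h.diag_loc hΛ hΛ' (hG' Q hQ) ht2 (hl Q hQ)
  have hc : ∀ Q ∈ G', ‖c Q‖ ≤ 2 * w / t := fun Q hQ => by
    have h1 := S.small _ (k.mem Q hQ) Q (hG' Q hQ) _ (hl Q hQ).h0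
      (by linarith [l6 Q hQ, (hl Q hQ).h0]) (k.near Q hQ)
    rw [norm_div]
    exact (div_le_div₀ hw.le h1 (by positivity) (hd Q hQ)).trans (le_of_eq (by field_simp))
  refine ⟨G', s', x - ∑ Q ∈ G', c Q • d Q, κ', ⟨?_, hG', fun Q hQ => (hl Q hQ).h0,
    fun Q hQ => (l2 Q hQ).trans (hl Q hQ).h3, fun Q hQ => by rw [(hl Q hQ).e0, ec],
    fun Q hQ => (h.mono _ _ _ (hl Q hQ).h0 (l2 Q hQ)).trans ((hl Q hQ).sm.trans k1),
    fun Q hQ => ?_, l7, S.reg.sub (Reg.sum _ fun Q hQ => Reg.smul (Reg.sub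
      (h.reg Q (p1 Q hQ) ((hl Q hQ).h2.trans (hl Q hQ).h3)) (h.reg Q (p2 Q hQ) (hl Q hQ).h3)) _),
    fun Q hQ z hz σ h0 h1 h2 => ?_, hκ, hκ'⟩, ?_⟩
  · rw [← Finset.card_pos, k.card_eq]
    exact Nat.mul_pos hN1 S.ne.card_pos
  · have h0 := (hl Q hQ).h0
    refine lt_of_lt_of_le ?_ ((k.sub Q hQ).2 _ (Real.sqrt_pos.2 h0)
      (Real.sqrt_le_iff.2 ⟨hr.le, by linarith [l2 Q hQ, l4 Q hQ]⟩))
    rw [Real.sq_sqrt h0.le, ENNReal.ofReal_lt_ofReal_iff (by positivity)]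
    linarith
  · refine (step_small G' c d hQ (y0 := y Q (s' Q)) (by positivity) hc
      (div_mul_cancel₀ _ (norm_pos_iff.1 (lt_of_lt_of_le (by positivity) (hd Q hQ))))
      (hreg Q (hG' Q hQ) z hz σ _ h0 h1 (by linarith [l2 Q hQ, l4 Q hQ]) h2)
      (h.par_loc hΛ hΛ' (hG' Q hQ) ht2 (hl Q hQ) hz h0 h1 h2)
      (far Q hQ z hz σ h0 (h1.trans (l2 Q hQ)) (h2.trans (l2 Q hQ)))).trans (le_of_eq ?_)
    field_simp
    ring
  · have h1 := step_norm G' c d (F := t / 32 + t / 32) (by positivity) hc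
      (fun Q hQ => h.norm_loc hΛ (hl Q hQ)) fun Q hQ => by
        have h0 : ‖Q - Q‖ ^ 2 ≤ s2 Q := by simpa using (p2 Q hQ).le
        refine le_trans ?_ (add_le_add (far Q hQ Q (hG' Q hQ) _ (p1 Q hQ) (hl Q hQ).h2 h0)
          (far Q hQ Q (hG' Q hQ) _ (p2 Q hQ) le_rfl h0))
        rw [← Finset.sum_add_distrib]
        exact Finset.sum_le_sum fun P _ => by
          rw [show d Q = y Q (s1 Q) - y Q (s2 Q) from rfl, inner_sub_left]
          exact norm_sub_le _ _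
    rw [sub_sub_cancel_left, norm_neg]
    refine le_of_sq_le_sq (h1.trans ?_) (by positivity)
    have e1 : (G'.card : ℝ) = 4 * Λ * t / m ^ 2 := by
      rw [mul_assoc, ec]; field_simp; norm_num
    rw [e1, mul_pow, mul_pow, Real.sq_sqrt hΛ0.le]
    have e2 : 4 * Λ * t / m ^ 2 * ((2 * w / t) ^ 2 * (3 * t + (t / 32 + t / 32))) =
        49 * (Λ * (w / m) ^ 2) := by field_simp; ring
    have : 0 ≤ Λ * (w / m) ^ 2 := by positivity
    rw [e2]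
    linarith

end Pool.Agent.Lib.MP_45cb44_an.Hy
end
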