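import Pool.Agent.Lib.MP_45cb44_an.HyBas
import Pool.Agent.Lib.MP_45cb44_an.HyStep

-- part Pool.Agent.Lib.MP_45cb44_an.HyJet
section

/-! The Green identity on a strip, sums of jets and explicit kernels. -/

namespace Pool.Agent.Lib.MP_45cb44_an.Hy

open MeasureTheory Metric Set Filter Topology InnerProductSpace
open scoped InnerProductSpace ComplexConjugate ENNReal

variable {J k : Jet} {K K' : ℝ → ℝ} {ε : ℝ}

lemma Jet.Dat.continuousOn_lap (h : J.Dat K) :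
    ContinuousOn (fun p : ℂ × ℝ => J.lap p.1 p.2) (univ ×ˢ Ioi 0) :=
  ((((h.c2 1 norm_one).add (h.c2 Complex.I Complex.norm_I)).div_const 4).add h.cs).add
    (continuousOn_snd.mul h.css)

lemma Jet.Dat.abs_lap_le (h : J.Dat K) (hε : 0 < ε) {s : ℝ} (hs : s ∈ Icc ε 2) (z : ℂ) :
    |J.lap z s| ≤ 4 * K ε / (‖z‖ ^ 2 + 1) := by
  obtain ⟨a0, -, a1, a2, a3⟩ := h.bd ε hε s hs.1 z 1 norm_one
  obtain ⟨-, -, a4, -, -⟩ := h.bd ε hε s hs.1 z Complex.I Complex.norm_I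
  have h0 : 0 ≤ K ε / (‖z‖ ^ 2 + 1) := (abs_nonneg _).trans a0
  have hs0 : 0 < s := hε.trans_le hs.1
  have h5 : |s * J.fss z s| ≤ 2 * (K ε / (‖z‖ ^ 2 + 1)) := by
    rw [abs_mul, abs_of_pos hs0]
    exact mul_le_mul hs.2 a3 (abs_nonneg _) (by norm_num)
  rw [mul_div_assoc, Jet.lap]
  rw [abs_le] at a1 a2 a4 h5 ⊢
  constructor <;> linarith [a1.1, a1.2, a2.1, a2.2, a4.1, a4.2, h5.1, h5.2]

lemma jet_strip_eq (ε : ℝ) : strip ε = (mm.prod volume).restrict (univ ×ˢ Ioo ε 1) := by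
  rw [strip, ← Measure.prod_restrict, Measure.restrict_univ]

lemma ae_strip (ε : ℝ) : ∀ᵐ p ∂strip ε, p.2 ∈ Ioo ε 1 := by
  rw [jet_strip_eq]
  filter_upwards [ae_restrict_mem (MeasurableSet.univ.prod measurableSet_Ioo)] with p hp using hp.2

lemma aesm_strip {g : ℂ × ℝ → ℝ} (hε : 0 ≤ ε) (hg : ContinuousOn g (univ ×ˢ Ioi 0)) :
    AEStronglyMeasurable g (strip ε) := by
  rw [jet_strip_eq]
  exact (hg.mono fun p hp => ⟨mem_univ _, hε.trans_lt hp.2.1⟩).aestronglyMeasurable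
    (MeasurableSet.univ.prod measurableSet_Ioo)

lemma strip_eq_restrict (hε : 0 ≤ ε) : strip ε = (strip 0).restrict (univ ×ˢ Ioi ε) := by
  rw [jet_strip_eq, jet_strip_eq,
    Measure.restrict_restrict (MeasurableSet.univ.prod measurableSet_Ioi)]
  congr 1
  ext p
  simp only [mem_prod, mem_univ, true_and, mem_Ioo, mem_inter_iff, mem_Ioi]
  exact ⟨fun h => ⟨h.1, hε.trans_lt h.1, h.2⟩, fun h => ⟨h.1, h.2.2⟩⟩

lemma integrable_strip {g : ℂ × ℝ → ℝ} {C : ℝ} (hε : 0 ≤ ε) (hg : ContinuousOn g (univ ×ˢ Ioi 0))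
    (hb : ∀ z, ∀ t ∈ Ioo ε 1, |g (z, t)| ≤ C / (‖z‖ ^ 2 + 1) ^ 2) : Integrable g (strip ε) := by
  have h1 : Integrable (fun p : ℂ × ℝ => C * ((‖p.1‖ ^ 2 + 1) ^ 2)⁻¹) (strip ε) := by
    have h2 : Integrable (fun _ : ℝ => (1 : ℝ)) (volume.restrict (Ioo ε 1)) := integrable_const _
    simpa [strip] using (integrable_decay.const_mul C).mul_prod h2
  refine h1.mono' (aesm_strip hε hg) ?_
  filter_upwards [ae_strip ε] with p hp
  rw [← div_eq_mul_inv]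
  exact hb p.1 p.2 hp

lemma jet_integrable_mul {a b : ℂ × ℝ → ℝ} {C D : ℝ} (hε : 0 ≤ ε)
    (ha : ContinuousOn a (univ ×ˢ Ioi 0)) (hb : ContinuousOn b (univ ×ˢ Ioi 0))
    (h1 : ∀ z, ∀ t ∈ Ioo ε 1, |a (z, t)| ≤ C / (‖z‖ ^ 2 + 1))
    (h2 : ∀ z, ∀ t ∈ Ioo ε 1, |b (z, t)| ≤ D / (‖z‖ ^ 2 + 1)) :
    Integrable (fun p => a p * b p) (strip ε) :=
  integrable_strip (C := C * D) hε (ha.mul hb) fun z t ht => by
    rw [div_eq_mul_inv]
    exact abs_mul_decay (h1 z t ht) (h2 z t ht)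

lemma Jet.Dat.integrable_f_lap (hJ : J.Dat K) (hk : k.Dat K') (hε : 0 < ε) :
    Integrable (fun p : ℂ × ℝ => k.f p.1 p.2 * J.lap p.1 p.2) (strip ε) :=
  jet_integrable_mul hε.le hk.c0 hJ.continuousOn_lap
    (fun z t ht => (hk.bd ε hε t ht.1.le z 1 norm_one).1)
    (fun z _ ht => hJ.abs_lap_le hε ⟨ht.1.le, ht.2.le.trans one_le_two⟩ z)

lemma jet_slice {g : ℂ × ℝ → ℝ} (hg : ContinuousOn g (univ ×ˢ Ioi 0)) {t : ℝ} (ht : 0 < t) :
    Continuous fun z => g (z, t) :=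
  hg.comp_continuous (by fun_prop) fun _ => ⟨mem_univ _, ht⟩

lemma jet_slice' {g : ℂ × ℝ → ℝ} (hg : ContinuousOn g (univ ×ˢ Ioi 0)) (z : ℂ) :
    ContinuousOn (fun t => g (z, t)) (Ioi 0) :=
  hg.comp (by fun_prop) fun _ ht => ⟨mem_univ _, ht⟩

lemma jet_integrable_fs_f (hJ : J.Dat K) (hk : k.Dat K') {t : ℝ} (ht : 0 < t) :
    Integrable (fun z => J.fs z t * k.f z t) mm :=
  integrable_mul_decay (jet_slice hJ.cs ht) (jet_slice hk.c0 ht)
    (fun z => (hJ.bd t ht t le_rfl z 1 norm_one).2.2.2.1)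
    (fun z => (hk.bd t ht t le_rfl z 1 norm_one).1)

lemma Jet.Dat.integrable_fs_f (hJ : J.Dat K) (hk : k.Dat K') {t : ℝ} (ht : 0 < t) (h2 : t ≤ 2) :
    Integrable (fun z => J.fs z t * k.f z t) mm := by
  have _ := h2
  exact jet_integrable_fs_f hJ hk ht

lemma jet_parts (hJ : J.Dat K) (hk : k.Dat K') {v : ℂ} (hv : ‖v‖ = 1) {s : ℝ} (hs : 0 < s) :
    ∫ z, k.f z s * J.f2 v z s ∂mm = -∫ z, k.f1 v z s * J.f1 v z s ∂mm := by
  have hC := fun z => hJ.bd s hs s le_rfl z v hv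
  have hD := fun z => hk.bd s hs s le_rfl z v hv
  have i1 := integrable_mul_decay (jet_slice hk.c0 hs) (jet_slice (hJ.c2 v hv) hs)
    (fun z => (hD z).1) (fun z => (hC z).2.2.1)
  have i2 := integrable_mul_decay (jet_slice (hk.c1 v hv) hs) (jet_slice (hJ.c1 v hv) hs)
    (fun z => (hD z).2.1) (fun z => (hC z).2.1)
  have i3 := integrable_mul_decay (jet_slice hk.c0 hs) (jet_slice (hJ.c1 v hv) hs)
    (fun z => (hD z).1) (fun z => (hC z).2.1)
  exact integral_bilinear_hasLineDerivAt_right_eq_neg_left_of_integrable (μ := mm) (v := v)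
    (B := ContinuousLinearMap.mul ℝ ℝ) (f := fun z => k.f z s) (f' := fun z => k.f1 v z s)
    (g := fun z => J.f1 v z s) (g' := fun z => J.f2 v z s) i2 i1 i3
    (fun z _ => hk.d1 v z s hv hs) (fun z _ => hJ.d2 v z s hv hs)

lemma jet_int_f2 (hJ : J.Dat K) (hk : k.Dat K') (hε : 0 < ε) {v : ℂ} (hv : ‖v‖ = 1) :
    Integrable (fun p : ℂ × ℝ => k.f p.1 p.2 * J.f2 v p.1 p.2) (strip ε) :=
  jet_integrable_mul hε.le hk.c0 (hJ.c2 v hv)
    (fun z t ht => (hk.bd ε hε t ht.1.le z v hv).1)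
    (fun z t ht => (hJ.bd ε hε t ht.1.le z v hv).2.2.1)

lemma jet_symm_f2 (hJ : J.Dat K) (hk : k.Dat K') (hε : 0 < ε) {v : ℂ} (hv : ‖v‖ = 1) :
    ∫ p, k.f p.1 p.2 * J.f2 v p.1 p.2 ∂strip ε = ∫ p, J.f p.1 p.2 * k.f2 v p.1 p.2 ∂strip ε := by
  have i1 := jet_int_f2 hJ hk hε hv
  have i2 := jet_int_f2 hk hJ hε hv
  unfold strip at i1 i2 ⊢
  rw [integral_prod_symm _ i1, integral_prod_symm _ i2]
  refine setIntegral_congr_fun measurableSet_Ioo fun t ht => ?_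
  have ht0 : 0 < t := hε.trans ht.1
  simp only
  rw [jet_parts hJ hk hv ht0, jet_parts hk hJ hv ht0]
  simp only [mul_comm]

lemma jet_int_s (hJ : J.Dat K) (hk : k.Dat K') (hε : 0 < ε) :
    Integrable (fun p : ℂ × ℝ => k.f p.1 p.2 * (J.fs p.1 p.2 + p.2 * J.fss p.1 p.2))
      (strip ε) := by
  refine jet_integrable_mul (D := 2 * K ε) hε.le hk.c0 (hJ.cs.add (continuousOn_snd.mul hJ.css))
    (fun z t ht => (hk.bd ε hε t ht.1.le z 1 norm_one).1) fun z t ht => ?_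
  obtain ⟨-, -, -, a2, a3⟩ := hJ.bd ε hε t ht.1.le z 1 norm_one
  have ht0 : 0 < t := hε.trans ht.1
  have h5 : |t * J.fss z t| ≤ K ε / (‖z‖ ^ 2 + 1) := by
    rw [abs_mul, abs_of_pos ht0]
    exact (mul_le_of_le_one_left (abs_nonneg _) ht.2.le).trans a3
  refine (abs_add_le _ _).trans ?_
  rw [mul_div_assoc]
  linarith

lemma jet_ftc (hJ : J.Dat K) (hk : k.Dat K') (hε : 0 < ε) (h1 : ε ≤ 1) (z : ℂ) :
    ∫ t in Ioo ε 1, (k.f z t * (J.fs z t + t * J.fss z t) - J.f z t * (k.fs z t + t * k.fss z t)) =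
      1 * (J.fs z 1 * k.f z 1 - k.fs z 1 * J.f z 1) -
        ε * (J.fs z ε * k.f z ε - k.fs z ε * J.f z ε) := by
  have hsub : uIcc ε 1 ⊆ Ioi 0 := by
    rw [uIcc_of_le h1]
    exact fun t ht => hε.trans_le ht.1
  rw [← integral_Ioc_eq_integral_Ioo, ← intervalIntegral.integral_of_le h1]
  refine intervalIntegral.integral_eq_sub_of_hasDerivAt
    (f := fun t => t * (J.fs z t * k.f z t - k.fs z t * J.f z t)) (fun t ht => ?_) ?_
  · have hs' : 0 < t := hsub ht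
    have := (hasDerivAt_id t).mul (((hJ.dss z t hs').mul (hk.ds z t hs')).sub
      ((hk.dss z t hs').mul (hJ.ds z t hs')))
    refine this.congr_deriv ?_
    simp only [id, Pi.sub_apply, Pi.mul_apply]
    ring
  · refine (ContinuousOn.mono ?_ hsub).intervalIntegrable
    exact ((jet_slice' hk.c0 z).mul ((jet_slice' hJ.cs z).add
      (continuousOn_id.mul (jet_slice' hJ.css z)))).sub ((jet_slice' hJ.c0 z).mul
      ((jet_slice' hk.cs z).add (continuousOn_id.mul (jet_slice' hk.css z))))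

lemma jet_lap_split (hJ : J.Dat K) (hk : k.Dat K') (hε : 0 < ε) :
    ∫ p, k.f p.1 p.2 * J.lap p.1 p.2 ∂strip ε =
      (∫ p, k.f p.1 p.2 * J.f2 1 p.1 p.2 ∂strip ε +
        ∫ p, k.f p.1 p.2 * J.f2 Complex.I p.1 p.2 ∂strip ε) / 4 +
      ∫ p, k.f p.1 p.2 * (J.fs p.1 p.2 + p.2 * J.fss p.1 p.2) ∂strip ε := by
  have i1 := jet_int_f2 hJ hk hε norm_one
  have i2 := jet_int_f2 hJ hk hε Complex.norm_I
  have i3 : Integrable (fun p : ℂ × ℝ => (k.f p.1 p.2 * J.f2 1 p.1 p.2 +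
      k.f p.1 p.2 * J.f2 Complex.I p.1 p.2) / 4) (strip ε) := (i1.add i2).div_const 4
  rw [← integral_add i1 i2, ← integral_div, ← integral_add i3 (jet_int_s hJ hk hε)]
  refine integral_congr_ae (.of_forall fun p => ?_)
  simp only [Jet.lap]
  ring

/-- Green identity on the strip. -/
theorem green (hJ : J.Dat K) (hk : k.Dat K') (hε : 0 < ε) (h1 : ε ≤ 1) :
    WW J k 1 - WW J k ε = ∫ p, k.f p.1 p.2 * J.lap p.1 p.2 ∂strip ε -
      ∫ p, J.f p.1 p.2 * k.lap p.1 p.2 ∂strip ε := by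
  rw [jet_lap_split hJ hk hε, jet_lap_split hk hJ hε, jet_symm_f2 hJ hk hε norm_one,
    jet_symm_f2 hJ hk hε Complex.norm_I, add_sub_add_left_eq_sub,
    ← integral_sub (jet_int_s hJ hk hε) (jet_int_s hk hJ hε)]
  have i1 : Integrable (fun p : ℂ × ℝ => k.f p.1 p.2 * (J.fs p.1 p.2 + p.2 * J.fss p.1 p.2) -
      J.f p.1 p.2 * (k.fs p.1 p.2 + p.2 * k.fss p.1 p.2)) (strip ε) :=
    (jet_int_s hJ hk hε).sub (jet_int_s hk hJ hε)
  have i2 : ∀ t, 0 < t →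
      Integrable (fun z => t * (J.fs z t * k.f z t - k.fs z t * J.f z t)) mm := fun t ht =>
    ((jet_integrable_fs_f hJ hk ht).sub (jet_integrable_fs_f hk hJ ht)).const_mul t
  unfold strip at i1 ⊢
  rw [integral_prod _ i1, WW, WW, ← integral_sub (i2 1 one_pos) (i2 ε hε)]
  exact integral_congr_ae (.of_forall fun z => (jet_ftc hJ hk hε h1 z).symm)

lemma jet_le_K {a C : ℝ} {z : ℂ} (h : |a| ≤ C / (‖z‖ ^ 2 + 1)) : ‖a‖ ≤ C := by
  have h1 : 1 ≤ ‖z‖ ^ 2 + 1 := by nlinarith [norm_nonneg z]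
  have hC : 0 ≤ C := by
    have := (abs_nonneg _).trans h
    rwa [le_div_iff₀ (by positivity), zero_mul] at this
  exact h.trans (div_le_self hC h1)

lemma jet_shift {F : ℂ → ℝ} {z v : ℂ} {y d : ℝ}
    (h : HasDerivAt (fun t : ℝ => F (z + y • v + t • v)) d 0) :
    HasDerivAt (fun t : ℝ => F (z + t • v)) d y := by
  have h' : HasDerivAt (fun t : ℝ => F (z + y • v + t • v)) d (y - y) := by rwa [sub_self]
  have := h'.comp_sub_const y y
  refine this.congr_of_eventuallyEq (.of_forall fun t => ?_)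
  simp only
  congr 1
  rw [sub_smul]
  abel

lemma jet_tsum_dir {F F' : ℕ → ℂ → ℝ} {u : ℕ → ℝ} (hu : Summable u) {v : ℂ}
    (hd : ∀ j z, HasDerivAt (fun t : ℝ => F j (z + t • v)) (F' j z) 0)
    (h0 : ∀ j z, ‖F j z‖ ≤ u j) (h1 : ∀ j z, ‖F' j z‖ ≤ u j) (z : ℂ) :
    HasDerivAt (fun t : ℝ => ∑' j, F j (z + t • v)) (∑' j, F' j z) 0 := by
  have := hasDerivAt_tsum (g := fun j (t : ℝ) => F j (z + t • v))
    (g' := fun j (t : ℝ) => F' j (z + t • v)) (y₀ := 0) hu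
    (fun j y => jet_shift (hd j _)) (fun j y => h1 j _) (.of_norm_bounded hu fun j => h0 j _) 0
  simpa using this

lemma jet_tsum_s {F F' : ℕ → ℝ → ℝ} {u : ℝ → ℕ → ℝ} (hu : ∀ e, Summable (u e))
    (hd : ∀ j s, 0 < s → HasDerivAt (F j) (F' j s) s)
    (h0 : ∀ e, 0 < e → ∀ s, e ≤ s → ∀ j, ‖F j s‖ ≤ u e j)
    (h1 : ∀ e, 0 < e → ∀ s, e ≤ s → ∀ j, ‖F' j s‖ ≤ u e j) {s : ℝ} (hs : 0 < s) :
    HasDerivAt (fun t : ℝ => ∑' j, F j t) (∑' j, F' j s) s := by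
  have h2 : 0 < s / 2 := by positivity
  have h3 : s ∈ Ioi (s / 2) := by simpa using hs
  exact hasDerivAt_tsum_of_isPreconnected (hu (s / 2)) isOpen_Ioi isPreconnected_Ioi
    (fun j y hy => hd j y (h2.trans hy)) (fun j y hy => h1 _ h2 y (le_of_lt hy) j) h3
    (.of_norm_bounded (hu s) fun j => h0 s hs s le_rfl j) h3

lemma jet_tsum_cont {F : ℕ → ℂ × ℝ → ℝ} {u : ℝ → ℕ → ℝ} (hu : ∀ e, Summable (u e))
    (hc : ∀ j, ContinuousOn (F j) (univ ×ˢ Ioi 0))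
    (h0 : ∀ e, 0 < e → ∀ s, e ≤ s → ∀ j z, ‖F j (z, s)‖ ≤ u e j) :
    ContinuousOn (fun p => ∑' j, F j p) (univ ×ˢ Ioi 0) := by
  intro p hp
  have hp0 : 0 < p.2 := hp.2
  have h2 : 0 < p.2 / 2 := by positivity
  have h3 : ContinuousOn (fun p => ∑' j, F j p) (univ ×ˢ Ioi (p.2 / 2)) :=
    continuousOn_tsum (fun j => (hc j).mono fun q hq => ⟨mem_univ _, h2.trans hq.2⟩) (hu (p.2 / 2))
      fun j q hq => h0 _ h2 q.2 (le_of_lt hq.2) j q.1
  refine (h3.continuousAt ((isOpen_univ.prod isOpen_Ioi).mem_nhds ⟨mem_univ _, ?_⟩)).continuousWithinAt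
  simpa using hp0

lemma jet_tsum_bd {a c : ℕ → ℝ} (hc : Summable c) {L x : ℝ} (h : ∀ j, |a j| ≤ c j * L / x) :
    |∑' j, a j| ≤ (∑' j, c j) * L / x :=
  tsum_of_norm_bounded (f := a) ((hc.hasSum.mul_right L).div_const x) h

theorem tail_dat {J : ℕ → Jet} {c : ℕ → ℝ} (hJ : ∀ j, (J j).Dat fun ε => c j * K ε)
    (hc : Summable c) (n : ℕ) : (tail J n).Dat fun ε => (∑' j, c (j + n)) * K ε := by
  have hc' : Summable fun j => c (j + n) := (summable_nat_add_iff n).2 hc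
  have hu : ∀ e, Summable fun j => c (j + n) * K e := fun e => hc'.mul_right _
  have hb := fun j => (hJ (j + n)).bd
  constructor
  · intro v z s hv hs
    exact jet_tsum_dir (F := fun j z => (J (j + n)).f z s) (hu s)
      (fun j z => (hJ _).d1 v z s hv hs) (fun j z => jet_le_K (hb j s hs s le_rfl z v hv).1)
      (fun j z => jet_le_K (hb j s hs s le_rfl z v hv).2.1) z
  · intro v z s hv hs
    exact jet_tsum_dir (F := fun j z => (J (j + n)).f1 v z s) (hu s)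
      (fun j z => (hJ _).d2 v z s hv hs) (fun j z => jet_le_K (hb j s hs s le_rfl z v hv).2.1)
      (fun j z => jet_le_K (hb j s hs s le_rfl z v hv).2.2.1) z
  · intro z s hs
    exact jet_tsum_s (F := fun j => (J (j + n)).f z) hu (fun j s hs => (hJ _).ds z s hs)
      (fun e he s hs j => jet_le_K (hb j e he s hs z 1 norm_one).1)
      (fun e he s hs j => jet_le_K (hb j e he s hs z 1 norm_one).2.2.2.1) hs
  · intro z s hs
    exact jet_tsum_s (F := fun j => (J (j + n)).fs z) hu (fun j s hs => (hJ _).dss z s hs)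
      (fun e he s hs j => jet_le_K (hb j e he s hs z 1 norm_one).2.2.2.1)
      (fun e he s hs j => jet_le_K (hb j e he s hs z 1 norm_one).2.2.2.2) hs
  · exact jet_tsum_cont hu (fun j => (hJ _).c0)
      fun e he s hs j z => jet_le_K (hb j e he s hs z 1 norm_one).1
  · exact fun v hv => jet_tsum_cont hu (fun j => (hJ _).c1 v hv)
      fun e he s hs j z => jet_le_K (hb j e he s hs z v hv).2.1
  · exact fun v hv => jet_tsum_cont hu (fun j => (hJ _).c2 v hv)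
      fun e he s hs j z => jet_le_K (hb j e he s hs z v hv).2.2.1
  · exact jet_tsum_cont hu (fun j => (hJ _).cs)
      fun e he s hs j z => jet_le_K (hb j e he s hs z 1 norm_one).2.2.2.1
  · exact jet_tsum_cont hu (fun j => (hJ _).css)
      fun e he s hs j z => jet_le_K (hb j e he s hs z 1 norm_one).2.2.2.2
  · intro e he s hs z v hv
    exact ⟨jet_tsum_bd hc' fun j => (hb j e he s hs z v hv).1,
      jet_tsum_bd hc' fun j => (hb j e he s hs z v hv).2.1,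
      jet_tsum_bd hc' fun j => (hb j e he s hs z v hv).2.2.1,
      jet_tsum_bd hc' fun j => (hb j e he s hs z v hv).2.2.2.1,
      jet_tsum_bd hc' fun j => (hb j e he s hs z v hv).2.2.2.2⟩

theorem tail_lap {J : ℕ → Jet} {c : ℕ → ℝ} (hJ : ∀ j, (J j).Dat fun ε => c j * K ε)
    (hc : Summable c) (n : ℕ) (z : ℂ) {t : ℝ} (ht : 0 < t) (h2 : t ≤ 2) :
    HasSum (fun j => (J (j + n)).lap z t) ((tail J n).lap z t) := by
  have _ := h2
  have hu : Summable fun j => c (j + n) * K t := ((summable_nat_add_iff n).2 hc).mul_right _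
  have hb := fun j => (hJ (j + n)).bd t ht t le_rfl z
  have s1 : Summable fun j => (J (j + n)).f2 1 z t :=
    .of_norm_bounded hu fun j => jet_le_K (hb j 1 norm_one).2.2.1
  have s2 : Summable fun j => (J (j + n)).f2 Complex.I z t :=
    .of_norm_bounded hu fun j => jet_le_K (hb j _ Complex.norm_I).2.2.1
  have s3 : Summable fun j => (J (j + n)).fs z t :=
    .of_norm_bounded hu fun j => jet_le_K (hb j 1 norm_one).2.2.2.1
  have s4 : Summable fun j => (J (j + n)).fss z t :=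
    .of_norm_bounded hu fun j => jet_le_K (hb j 1 norm_one).2.2.2.2
  exact (((s1.hasSum.add s2.hasSum).div_const 4).add s3.hasSum).add (s4.hasSum.mul_left t)

/-- The jet of a function of `|z - u|^2` and `t`. -/
noncomputable def jetRad (u : ℂ) (G G1 G2 Gs Gss : ℝ → ℝ → ℝ) : Jet where
  f z t := G (‖z - u‖ ^ 2) t
  f1 v z t := G1 (‖z - u‖ ^ 2) t * (2 * (conj v * (z - u)).re)
  f2 v z t := G2 (‖z - u‖ ^ 2) t * (2 * (conj v * (z - u)).re) ^ 2 + 2 * G1 (‖z - u‖ ^ 2) t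
  fs z t := Gs (‖z - u‖ ^ 2) t
  fss z t := Gss (‖z - u‖ ^ 2) t

lemma jet_rad_lap (u : ℂ) (G G1 G2 Gs Gss : ℝ → ℝ → ℝ) (z : ℂ) (t : ℝ) :
    (jetRad u G G1 G2 Gs Gss).lap z t = ‖z - u‖ ^ 2 * G2 (‖z - u‖ ^ 2) t + G1 (‖z - u‖ ^ 2) t +
      Gs (‖z - u‖ ^ 2) t + t * Gss (‖z - u‖ ^ 2) t := by
  have h : ‖z - u‖ ^ 2 = (z - u).re ^ 2 + (z - u).im ^ 2 := by
    rw [Complex.sq_norm, Complex.normSq_apply]; ring
  simp only [Jet.lap, jetRad, map_one, Complex.conj_I, Complex.mul_re, Complex.neg_re,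
    Complex.I_re, Complex.neg_im, Complex.I_im, Complex.one_re, Complex.one_im]
  generalize G2 (‖z - u‖ ^ 2) t = a
  generalize G1 (‖z - u‖ ^ 2) t = b
  rw [h]
  ring

lemma jet_normsq_line (w v : ℂ) (hv : ‖v‖ = 1) (t : ℝ) :
    ‖w + t • v‖ ^ 2 = ‖w‖ ^ 2 + 2 * (conj v * w).re * t + t ^ 2 := by
  have h : v.re ^ 2 + v.im ^ 2 = 1 := by
    have : ‖v‖ ^ 2 = 1 := by rw [hv]; norm_num
    rw [Complex.sq_norm, Complex.normSq_apply] at this
    linarith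
  simp only [Complex.sq_norm, Complex.normSq_apply, Complex.add_re, Complex.add_im,
    Complex.smul_re, Complex.smul_im, smul_eq_mul, Complex.mul_re, Complex.conj_re, Complex.conj_im]
  linear_combination t ^ 2 * h

lemma jet_re_line (w v : ℂ) (hv : ‖v‖ = 1) (t : ℝ) :
    2 * (conj v * (w + t • v)).re = 2 * (conj v * w).re + 2 * t := by
  have h : v.re ^ 2 + v.im ^ 2 = 1 := by
    have : ‖v‖ ^ 2 = 1 := by rw [hv]; norm_num
    rw [Complex.sq_norm, Complex.normSq_apply] at this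
    linarith
  simp only [Complex.add_re, Complex.add_im,
    Complex.smul_re, Complex.smul_im, smul_eq_mul, Complex.mul_re, Complex.conj_re, Complex.conj_im]
  linear_combination 2 * t * h

lemma jet_line_deriv {g : ℝ → ℝ} {d : ℝ} (z u v : ℂ) (hv : ‖v‖ = 1)
    (hg : HasDerivAt g d (‖z - u‖ ^ 2)) :
    HasDerivAt (fun t : ℝ => g (‖z + t • v - u‖ ^ 2)) (d * (2 * (conj v * (z - u)).re)) 0 := by
  have h1 : HasDerivAt (fun t : ℝ => ‖z - u‖ ^ 2 + 2 * (conj v * (z - u)).re * t + t ^ 2)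
      (2 * (conj v * (z - u)).re) 0 := by
    have := (((hasDerivAt_id (0 : ℝ)).const_mul (2 * (conj v * (z - u)).re)).const_add
      (‖z - u‖ ^ 2)).add (hasDerivAt_pow 2 (0 : ℝ))
    refine this.congr_deriv ?_
    simp
  have h2 := HasDerivAt.comp_of_eq (0 : ℝ) hg h1 (by simp)
  refine h2.congr_of_eventuallyEq (.of_forall fun t => ?_)
  simp only [Function.comp]
  rw [add_sub_right_comm, jet_normsq_line _ _ hv]

lemma jet_rad_dat (u : ℂ) {G G1 G2 Gs Gss : ℝ → ℝ → ℝ} {C : ℝ → ℝ}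
    (d1 : ∀ r t, 0 ≤ r → 0 < t → HasDerivAt (fun r => G r t) (G1 r t) r)
    (d2 : ∀ r t, 0 ≤ r → 0 < t → HasDerivAt (fun r => G1 r t) (G2 r t) r)
    (ds : ∀ r t, 0 ≤ r → 0 < t → HasDerivAt (G r) (Gs r t) t)
    (dss : ∀ r t, 0 ≤ r → 0 < t → HasDerivAt (Gs r) (Gss r t) t)
    (c0 : ContinuousOn (fun p : ℝ × ℝ => G p.1 p.2) (Ici 0 ×ˢ Ioi 0))
    (c1 : ContinuousOn (fun p : ℝ × ℝ => G1 p.1 p.2) (Ici 0 ×ˢ Ioi 0))
    (c2 : ContinuousOn (fun p : ℝ × ℝ => G2 p.1 p.2) (Ici 0 ×ˢ Ioi 0))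
    (cs : ContinuousOn (fun p : ℝ × ℝ => Gs p.1 p.2) (Ici 0 ×ˢ Ioi 0))
    (css : ContinuousOn (fun p : ℝ × ℝ => Gss p.1 p.2) (Ici 0 ×ˢ Ioi 0))
    (bd : ∀ e, 0 < e → ∀ t, e ≤ t → ∀ r, 0 ≤ r → |G r t| ≤ C e * (r + 1)⁻¹ ∧
      |G1 r t| ≤ C e * (r + 1)⁻¹ ^ 2 ∧ |G2 r t| ≤ C e * (r + 1)⁻¹ ^ 2 ∧
      |Gs r t| ≤ C e * (r + 1)⁻¹ ∧ |Gss r t| ≤ C e * (r + 1)⁻¹) :
    (jetRad u G G1 G2 Gs Gss).Dat fun e => 6 * C e * (2 + 2 * ‖u‖ ^ 2) := by
  have hcomp : ∀ {g : ℝ → ℝ → ℝ}, ContinuousOn (fun p : ℝ × ℝ => g p.1 p.2) (Ici 0 ×ˢ Ioi 0) →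
      ContinuousOn (fun p : ℂ × ℝ => g (‖p.1 - u‖ ^ 2) p.2) (univ ×ˢ Ioi 0) := fun {g} hg =>
    hg.comp (f := fun p : ℂ × ℝ => (‖p.1 - u‖ ^ 2, p.2)) (by fun_prop)
      fun p hp => ⟨sq_nonneg ‖p.1 - u‖, hp.2⟩
  have hre : ∀ v : ℂ, ContinuousOn (fun p : ℂ × ℝ => 2 * (conj v * (p.1 - u)).re)
      (univ ×ˢ Ioi 0) := fun v => Continuous.continuousOn (by fun_prop)
  constructor
  · intro v z s hv hs
    exact jet_line_deriv (g := fun r => G r s) z u v hv (d1 _ s (sq_nonneg _) hs)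
  · intro v z s hv hs
    have h1 := jet_line_deriv (g := fun r => G1 r s) z u v hv (d2 _ s (sq_nonneg _) hs)
    have h2 : HasDerivAt (fun t : ℝ => 2 * (conj v * (z + t • v - u)).re) 2 0 := by
      have := ((hasDerivAt_id (0 : ℝ)).const_mul 2).const_add (2 * (conj v * (z - u)).re)
      refine (this.congr_deriv (by simp)).congr_of_eventuallyEq (.of_forall fun t => ?_)
      simp only [id]
      rw [add_sub_right_comm, jet_re_line _ _ hv]
    refine (h1.mul h2).congr_deriv ?_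
    simp only [jetRad, zero_smul, add_zero]
    ring
  · exact fun z s hs => ds _ s (sq_nonneg _) hs
  · exact fun z s hs => dss _ s (sq_nonneg _) hs
  · exact hcomp c0
  · exact fun v _ => (hcomp c1).mul (hre v)
  · exact fun v _ => ((hcomp c2).mul ((hre v).pow 2)).add (continuousOn_const.mul (hcomp c1))
  · exact hcomp cs
  · exact hcomp css
  · intro e he s hs z v hv
    obtain ⟨a0, a1, a2, a3, a4⟩ := bd e he s hs (‖z - u‖ ^ 2) (sq_nonneg _)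
    have hr : 0 < ‖z - u‖ ^ 2 + 1 := by positivity
    have hy : 0 < (‖z - u‖ ^ 2 + 1)⁻¹ := inv_pos.2 hr
    have hC : 0 ≤ C e := nonneg_of_mul_nonneg_left ((abs_nonneg _).trans a0) hy
    have hy1 : (‖z - u‖ ^ 2 + 1)⁻¹ ≤ (2 + 2 * ‖u‖ ^ 2) / (‖z‖ ^ 2 + 1) := by
      rw [inv_eq_one_div, div_le_div_iff₀ hr (by positivity)]
      have h1 : ‖z‖ ≤ ‖z - u‖ + ‖u‖ := by simpa using norm_add_le (z - u) u
      have h2 : ‖z‖ ^ 2 ≤ (‖z - u‖ + ‖u‖) ^ 2 := by gcongr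
      nlinarith [sq_nonneg (‖z - u‖ - ‖u‖), mul_nonneg (sq_nonneg ‖u‖) (sq_nonneg ‖z - u‖),
        sq_nonneg ‖u‖]
    have hfin : ∀ a : ℝ, |a| ≤ 6 * (C e * (‖z - u‖ ^ 2 + 1)⁻¹) →
        |a| ≤ 6 * C e * (2 + 2 * ‖u‖ ^ 2) / (‖z‖ ^ 2 + 1) := fun a ha => by
      refine ha.trans ?_
      rw [mul_div_assoc, mul_assoc]
      gcongr
    have hCy : 0 ≤ C e * (‖z - u‖ ^ 2 + 1)⁻¹ := by positivity
    have hw : |2 * (conj v * (z - u)).re| ≤ 2 * ‖z - u‖ := by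
      rw [abs_mul, abs_two]
      have := Complex.abs_re_le_norm (conj v * (z - u))
      rw [norm_mul, Complex.norm_conj, hv, one_mul] at this
      linarith
    have hw1 : |2 * (conj v * (z - u)).re| ≤ ‖z - u‖ ^ 2 + 1 := by
      nlinarith [sq_nonneg (‖z - u‖ - 1)]
    have hw2 : |(2 * (conj v * (z - u)).re) ^ 2| ≤ 4 * (‖z - u‖ ^ 2 + 1) := by
      rw [abs_pow]
      have := pow_le_pow_left₀ (abs_nonneg _) hw 2
      nlinarith
    have he1 : C e * (‖z - u‖ ^ 2 + 1)⁻¹ ^ 2 * (‖z - u‖ ^ 2 + 1) = C e * (‖z - u‖ ^ 2 + 1)⁻¹ := by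
      field_simp
    have he2 : C e * (‖z - u‖ ^ 2 + 1)⁻¹ ^ 2 ≤ C e * (‖z - u‖ ^ 2 + 1)⁻¹ := by
      rw [← he1]
      exact le_mul_of_one_le_right (by positivity) (by nlinarith [sq_nonneg ‖z - u‖])
    refine ⟨hfin _ (a0.trans (by linarith)), hfin _ ?_, hfin _ ?_, hfin _ (a3.trans (by linarith)),
      hfin _ (a4.trans (by linarith))⟩
    · simp only [jetRad]
      rw [abs_mul]
      have := mul_le_mul a1 hw1 (abs_nonneg _) (by positivity)
      linarith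
    · simp only [jetRad]
      refine (abs_add_le _ _).trans ?_
      rw [abs_mul, abs_mul 2, abs_two]
      have := mul_le_mul a2 hw2 (abs_nonneg _) (by positivity)
      linarith

lemma jet_inv_pow (a : ℝ) (n : ℕ) {x : ℝ} (hx : x + a ≠ 0) :
    HasDerivAt (fun x : ℝ => (x + a)⁻¹ ^ n) (-(n * (x + a)⁻¹ ^ (n + 1))) x := by
  have := (((hasDerivAt_id x).add_const a).inv hx).pow n
  refine this.congr_deriv ?_
  simp only [id, Pi.inv_apply]
  cases n with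
  | zero => simp
  | succ n =>
    simp only [Nat.add_sub_cancel]
    rw [div_eq_mul_inv, ← inv_pow]
    ring

lemma jet_term_bd {x y L t c A : ℝ} (hx : 0 ≤ x) (hxy : x ≤ L * y) (hy0 : 0 ≤ y) (hy : y ≤ 1)
    (hL : 1 ≤ L) (ht : 0 ≤ t) (htx : t * x ≤ 1) (hc : |c| ≤ A) {n m : ℕ} (hm : m ≤ n)
    (hn : n ≤ 5) : |c * x ^ n| ≤ A * L ^ 5 * y ^ m ∧ |c * (t * x ^ (n + 1))| ≤ A * L ^ 5 * y ^ m := by
  have h1 : x ^ n ≤ L ^ 5 * y ^ m := by
    refine (pow_le_pow_left₀ hx hxy n).trans ?_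
    rw [mul_pow]
    exact mul_le_mul (pow_le_pow_right₀ hL hn) (pow_le_pow_of_le_one hy0 hy hm) (by positivity)
      (by positivity)
  have h2 : t * x ^ (n + 1) ≤ x ^ n := by
    rw [pow_succ', ← mul_assoc]
    exact mul_le_of_le_one_left (by positivity) htx
  have hA : 0 ≤ A := (abs_nonneg _).trans hc
  constructor
  · rw [abs_mul, abs_of_nonneg (by positivity : 0 ≤ x ^ n), mul_assoc]
    exact mul_le_mul hc h1 (by positivity) hA
  · rw [abs_mul, abs_of_nonneg (by positivity : 0 ≤ t * x ^ (n + 1)), mul_assoc]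
    exact mul_le_mul hc (h2.trans h1) (by positivity) hA

lemma jet_ker_bd (a b c : ℝ) {x y L t : ℝ} (hx : 0 ≤ x) (hxy : x ≤ L * y) (hy0 : 0 ≤ y)
    (hy : y ≤ 1) (hL : 1 ≤ L) (ht : 0 ≤ t) (htx : t * x ≤ 1) :
    |a * x ^ 1 + b * x ^ 2 + c * (t * x ^ 3)| ≤ 4 * (12 * (|a| + |b| + |c|) * L ^ 5) * y ∧
    |-a * x ^ 2 - 2 * b * x ^ 3 - 3 * c * (t * x ^ 4)| ≤
      4 * (12 * (|a| + |b| + |c|) * L ^ 5) * y ^ 2 ∧
    |2 * a * x ^ 3 + 6 * b * x ^ 4 + 12 * c * (t * x ^ 5)| ≤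
      4 * (12 * (|a| + |b| + |c|) * L ^ 5) * y ^ 2 ∧
    |-a * x ^ 2 - 2 * b * x ^ 3 - 3 * c * (t * x ^ 4) + c * x ^ 3| ≤
      4 * (12 * (|a| + |b| + |c|) * L ^ 5) * y ∧
    |2 * a * x ^ 3 + 6 * b * x ^ 4 + 12 * c * (t * x ^ 5) - 6 * c * x ^ 4| ≤
      4 * (12 * (|a| + |b| + |c|) * L ^ 5) * y := by
  have hL0 : 0 ≤ L := by linarith
  have key := fun (d : ℝ) (hd : |d| ≤ 12 * (|a| + |b| + |c|)) (n m : ℕ) (hm : m ≤ n)
    (hn : n ≤ 5) => jet_term_bd hx hxy hy0 hy hL ht htx hd hm hn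
  have ha := abs_nonneg a
  have hb := abs_nonneg b
  have hc' := abs_nonneg c
  have q : ∀ (w d : ℝ), 0 ≤ w → w ≤ 12 → |d| ≤ |a| + |b| + |c| →
      |w * d| ≤ 12 * (|a| + |b| + |c|) := fun w d h2 h3 h4 => by
    rw [abs_mul, abs_of_nonneg h2]
    exact mul_le_mul h3 h4 (abs_nonneg _) (by norm_num)
  have qa : |a| ≤ |a| + |b| + |c| := by linarith
  have qb : |b| ≤ |a| + |b| + |c| := by linarith
  have qc : |c| ≤ |a| + |b| + |c| := by linarith
  have pa : |a| ≤ 12 * (|a| + |b| + |c|) := by linarith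
  have pa' : |-a| ≤ 12 * (|a| + |b| + |c|) := by rwa [abs_neg]
  have pb : |b| ≤ 12 * (|a| + |b| + |c|) := by linarith
  have pc : |c| ≤ 12 * (|a| + |b| + |c|) := by linarith
  have f1 := fun m (hm : m ≤ 2) => abs_le.1 (key _ pa' 2 m hm (by norm_num)).1
  have f2 := fun m (hm : m ≤ 2) =>
    abs_le.1 (key _ (q 2 b (by norm_num) (by norm_num) qb) 3 m (by omega) (by norm_num)).1
  have f3 := fun m (hm : m ≤ 2) =>
    abs_le.1 (key _ (q 3 c (by norm_num) (by norm_num) qc) 3 m (by omega) (by norm_num)).2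
  have f4 := fun m (hm : m ≤ 2) =>
    abs_le.1 (key _ (q 2 a (by norm_num) (by norm_num) qa) 3 m (by omega) (by norm_num)).1
  have f5 := fun m (hm : m ≤ 2) =>
    abs_le.1 (key _ (q 6 b (by norm_num) (by norm_num) qb) 4 m (by omega) (by norm_num)).1
  have f6 := fun m (hm : m ≤ 2) =>
    abs_le.1 (key _ (q 12 c (by norm_num) (by norm_num) qc) 4 m (by omega) (by norm_num)).2
  have g1 := abs_le.1 (key _ pa 1 1 le_rfl (by norm_num)).1
  have g2 := abs_le.1 (key _ pb 2 1 (by norm_num) (by norm_num)).1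
  have g3 := abs_le.1 (key _ pc 2 1 (by norm_num) (by norm_num)).2
  have g4 := abs_le.1 (key _ pc 3 1 (by norm_num) (by norm_num)).1
  have g5 := abs_le.1 (key _ (q 6 c (by norm_num) (by norm_num) qc) 4 1 (by norm_num)
    (by norm_num)).1
  have p1 : 0 ≤ 12 * (|a| + |b| + |c|) * L ^ 5 * y ^ 1 := by positivity
  have p2 : 0 ≤ 12 * (|a| + |b| + |c|) * L ^ 5 * y ^ 2 := by positivity
  have k1 := f1 1 one_le_two
  have k2 := f2 1 one_le_two
  have k3 := f3 1 one_le_two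
  have k4 := f4 1 one_le_two
  have k5 := f5 1 one_le_two
  have k6 := f6 1 one_le_two
  have l1 := f1 2 le_rfl
  have l2 := f2 2 le_rfl
  have l3 := f3 2 le_rfl
  have l4 := f4 2 le_rfl
  have l5 := f5 2 le_rfl
  have l6 := f6 2 le_rfl
  simp only [Nat.reduceAdd, pow_one] at *
  simp only [mul_assoc (4 : ℝ)]
  refine ⟨abs_le.2 ⟨?_, ?_⟩, abs_le.2 ⟨?_, ?_⟩, abs_le.2 ⟨?_, ?_⟩, abs_le.2 ⟨?_, ?_⟩,
    abs_le.2 ⟨?_, ?_⟩⟩ <;>
  linarith [g1.1, g1.2, g2.1, g2.2, g3.1, g3.2, g4.1, g4.2, g5.1, g5.2, k1.1, k1.2, k2.1, k2.2,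
    k3.1, k3.2, k4.1, k4.2, k5.1, k5.2, k6.1, k6.2, l1.1, l1.2, l2.1, l2.2, l3.1, l3.2, l4.1,
    l4.2, l5.1, l5.2, l6.1, l6.2]

lemma jet_exists_ker (u : ℂ) {σ : ℝ} (hσ : 0 ≤ σ) (a b c : ℝ) : ∃ k K, Jet.Dat k K ∧
    ∀ z t x, x = (‖z - u‖ ^ 2 + t + σ)⁻¹ →
    k.f z t = a * x ^ 1 + b * x ^ 2 + c * (t * x ^ 3) ∧
    k.fs z t = -a * x ^ 2 - 2 * b * x ^ 3 - 3 * c * (t * x ^ 4) + c * x ^ 3 ∧
    k.lap z t = ‖z - u‖ ^ 2 * (2 * a * x ^ 3 + 6 * b * x ^ 4 + 12 * c * (t * x ^ 5)) +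
      (-a * x ^ 2 - 2 * b * x ^ 3 - 3 * c * (t * x ^ 4)) +
      (-a * x ^ 2 - 2 * b * x ^ 3 - 3 * c * (t * x ^ 4) + c * x ^ 3) +
      t * (2 * a * x ^ 3 + 6 * b * x ^ 4 + 12 * c * (t * x ^ 5) - 6 * c * x ^ 4) := by
  have hne : ∀ r t : ℝ, 0 ≤ r → 0 < t → r + t + σ ≠ 0 := fun r t hr ht => by positivity
  have hr : ∀ (n : ℕ) (r t : ℝ), 0 ≤ r → 0 < t → HasDerivAt (fun r : ℝ => (r + t + σ)⁻¹ ^ n)
      (-(n * (r + t + σ)⁻¹ ^ (n + 1))) r := fun n r t hr ht => by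
    simpa only [add_assoc] using jet_inv_pow (t + σ) n (x := r) (by positivity)
  have ht : ∀ (n : ℕ) (r t : ℝ), 0 ≤ r → 0 < t → HasDerivAt (fun t : ℝ => (r + t + σ)⁻¹ ^ n)
      (-(n * (r + t + σ)⁻¹ ^ (n + 1))) t := fun n r t hr ht => by
    have := jet_inv_pow (r + σ) n (x := t) (by positivity)
    simpa only [add_left_comm _ r σ, ← add_assoc] using this
  have hc : ContinuousOn (fun p : ℝ × ℝ => (p.1 + p.2 + σ)⁻¹) (Ici 0 ×ˢ Ioi 0) :=
    ContinuousOn.inv₀ (by fun_prop) fun p hp => hne _ _ hp.1 hp.2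
  refine ⟨jetRad u
    (fun r t => a * (r + t + σ)⁻¹ ^ 1 + b * (r + t + σ)⁻¹ ^ 2 + c * (t * (r + t + σ)⁻¹ ^ 3))
    (fun r t => -a * (r + t + σ)⁻¹ ^ 2 - 2 * b * (r + t + σ)⁻¹ ^ 3 -
      3 * c * (t * (r + t + σ)⁻¹ ^ 4))
    (fun r t => 2 * a * (r + t + σ)⁻¹ ^ 3 + 6 * b * (r + t + σ)⁻¹ ^ 4 +
      12 * c * (t * (r + t + σ)⁻¹ ^ 5))
    (fun r t => -a * (r + t + σ)⁻¹ ^ 2 - 2 * b * (r + t + σ)⁻¹ ^ 3 -
      3 * c * (t * (r + t + σ)⁻¹ ^ 4) + c * (r + t + σ)⁻¹ ^ 3)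
    (fun r t => 2 * a * (r + t + σ)⁻¹ ^ 3 + 6 * b * (r + t + σ)⁻¹ ^ 4 +
      12 * c * (t * (r + t + σ)⁻¹ ^ 5) - 6 * c * (r + t + σ)⁻¹ ^ 4), _,
    jet_rad_dat u (C := fun e => 4 * (12 * (|a| + |b| + |c|) * (1 + e⁻¹) ^ 5))
      ?_ ?_ ?_ ?_ ?_ ?_ ?_ ?_ ?_ ?_, ?_⟩
  · intro r t h0 h1
    refine ((((hr 1 r t h0 h1).const_mul a).add ((hr 2 r t h0 h1).const_mul b)).add
      (((hr 3 r t h0 h1).const_mul t).const_mul c)).congr_deriv ?_
    push_cast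
    ring
  · intro r t h0 h1
    refine ((((hr 2 r t h0 h1).const_mul (-a)).sub ((hr 3 r t h0 h1).const_mul (2 * b))).sub
      (((hr 4 r t h0 h1).const_mul t).const_mul (3 * c))).congr_deriv ?_
    push_cast
    ring
  · intro r t h0 h1
    refine ((((ht 1 r t h0 h1).const_mul a).add ((ht 2 r t h0 h1).const_mul b)).add
      (((hasDerivAt_id t).mul (ht 3 r t h0 h1)).const_mul c)).congr_deriv ?_
    simp only [id]
    push_cast
    ring
  · intro r t h0 h1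
    refine (((((ht 2 r t h0 h1).const_mul (-a)).sub ((ht 3 r t h0 h1).const_mul (2 * b))).sub
      (((hasDerivAt_id t).mul (ht 4 r t h0 h1)).const_mul (3 * c))).add
      ((ht 3 r t h0 h1).const_mul c)).congr_deriv ?_
    simp only [id]
    push_cast
    ring
  · fun_prop
  · fun_prop
  · fun_prop
  · fun_prop
  · fun_prop
  · intro e he t het r h0
    have h1 : 0 < t := he.trans_le het
    have hR : 0 < r + t + σ := by positivity
    have hL : 1 ≤ 1 + e⁻¹ := by simp [he.le]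
    have hxy : (r + t + σ)⁻¹ ≤ (1 + e⁻¹) * (r + 1)⁻¹ := by
      rw [← div_eq_mul_inv, inv_eq_one_div, div_le_div_iff₀ hR (by positivity)]
      have h2 : 1 ≤ e⁻¹ * t := by rw [← div_eq_inv_mul, one_le_div he]; exact het
      have h3 : 0 ≤ e⁻¹ * (r + σ) := by positivity
      nlinarith
    have hy : (r + 1)⁻¹ ≤ 1 := inv_le_one_of_one_le₀ (by linarith)
    have htx : t * (r + t + σ)⁻¹ ≤ 1 := by
      rw [← div_eq_mul_inv, div_le_one hR]; linarith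
    exact jet_ker_bd a b c (inv_pos.2 hR).le hxy (by positivity) hy hL h1.le htx
  · rintro z t x rfl
    exact ⟨rfl, rfl, jet_rad_lap ..⟩

/-- The first kernel; it is harmonic for `σ = 0`. -/
theorem exists_kerA (u : ℂ) {σ : ℝ} (hσ : 0 ≤ σ) : ∃ k K, Jet.Dat k K ∧ ∀ z t, 0 < t →
    k.f z t = (‖z - u‖ ^ 2 + t + σ)⁻¹ + σ / (‖z - u‖ ^ 2 + t + σ) ^ 2 ∧
    k.fs z t = -((‖z - u‖ ^ 2 + t + σ) ^ 2)⁻¹ - 2 * σ / (‖z - u‖ ^ 2 + t + σ) ^ 3 ∧
    k.lap z t = -(6 * σ ^ 2 / (‖z - u‖ ^ 2 + t + σ) ^ 4) := by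
  obtain ⟨k, K, h, h'⟩ := jet_exists_ker u hσ 1 σ 0
  refine ⟨k, K, h, fun z t ht => ?_⟩
  obtain ⟨h1, h2, h3⟩ := h' z t _ rfl
  have hR : ‖z - u‖ ^ 2 + t + σ ≠ 0 := by positivity
  rw [h1, h2, h3]
  refine ⟨?_, ?_, ?_⟩ <;> field_simp <;> ring

/-- The second kernel. -/
theorem exists_kerB (u : ℂ) {σ : ℝ} (hσ : 0 ≤ σ) : ∃ k K, Jet.Dat k K ∧ ∀ z t, 0 < t →
    k.f z t = σ / (‖z - u‖ ^ 2 + t + σ) ^ 2 - 2 * σ * t / (‖z - u‖ ^ 2 + t + σ) ^ 3 ∧
    k.fs z t = -(4 * σ / (‖z - u‖ ^ 2 + t + σ) ^ 3) + 6 * σ * t / (‖z - u‖ ^ 2 + t + σ) ^ 4 ∧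
    k.lap z t = -(6 * σ ^ 2 / (‖z - u‖ ^ 2 + t + σ) ^ 4 -
      24 * σ ^ 2 * t / (‖z - u‖ ^ 2 + t + σ) ^ 5) := by
  obtain ⟨k, K, h, h'⟩ := jet_exists_ker u hσ 0 σ (-(2 * σ))
  refine ⟨k, K, h, fun z t ht => ?_⟩
  obtain ⟨h1, h2, h3⟩ := h' z t _ rfl
  have hR : ‖z - u‖ ^ 2 + t + σ ≠ 0 := by positivity
  rw [h1, h2, h3]
  refine ⟨?_, ?_, ?_⟩ <;> field_simp <;> ring

end Pool.Agent.Lib.MP_45cb44_an.Hy
end

-- part Pool.Agent.Lib.MP_45cb44_an.HyAna1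
section

/-! Mass bounds, the bulk term and the plane densities. -/

namespace Pool.Agent.Lib.MP_45cb44_an.Hy

open MeasureTheory Metric Set Filter Topology InnerProductSpace
open scoped InnerProductSpace ComplexConjugate ENNReal

variable {J : ℕ → Jet} {c : ℕ → ℝ} {K : ℝ → ℝ} {R A : ℝ} {δ : ℕ → ℂ → ℝ}

lemma ep_pos (l : ℕ) : 0 < ep l := by
  unfold ep; positivity

lemma ep_lt_one (l : ℕ) : ep l < 1 := by
  unfold ep
  rw [div_lt_one (by positivity)]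
  have : (0 : ℝ) ≤ l := Nat.cast_nonneg l
  linarith

lemma an1_tendsto_ep : Tendsto ep atTop (𝓝 0) := by
  have h : Tendsto (fun l : ℕ => (l : ℝ) + 2) atTop atTop :=
    tendsto_atTop_add_const_right _ _ tendsto_natCast_atTop_atTop
  have h2 := tendsto_inv_atTop_zero.comp h
  refine h2.congr fun l => ?_
  simp [ep]

lemma tendsto_ep : Tendsto ep (hyperfilter ℕ) (𝓝[>] 0) := by
  have h1 : (hyperfilter ℕ : Filter ℕ) ≤ atTop := by
    rw [← Nat.cofinite_eq_atTop]; exact hyperfilter_le_cofinite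
  exact tendsto_nhdsWithin_iff.2 ⟨an1_tendsto_ep.mono_left h1, .of_forall fun l => ep_pos l⟩

lemma Sys.tail_dat (h : Sys J c K R A) (n : ℕ) :
    (tail J n).Dat fun ε => (∑' j, c (j + n)) * K ε := Hy.tail_dat h.dat h.sum n

lemma Sys.an1_sum_c (h : Sys J c K R A) (n : ℕ) : Summable fun j => c (j + n) :=
  (summable_nat_add_iff n).2 h.sum

lemma Sys.an1_cn (h : Sys J c K R A) (n : ℕ) : 0 ≤ ∑' j, c (j + n) :=
  tsum_nonneg fun _ => h.c0 _

lemma Sys.an1_sum_f (h : Sys J c K R A) (n : ℕ) (z : ℂ) {t : ℝ} (ht : 0 < t) :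
    Summable fun j => (J (j + n)).f z t := by
  refine Summable.of_norm_bounded (((h.an1_sum_c n).mul_right (K t)).div_const (‖z‖ ^ 2 + 1))
    fun j => ?_
  exact ((h.dat (j + n)).bd t ht t le_rfl z 1 norm_one).1

lemma Sys.an1_sum_fs (h : Sys J c K R A) (n : ℕ) (z : ℂ) {t : ℝ} (ht : 0 < t) :
    Summable fun j => (J (j + n)).fs z t := by
  refine Summable.of_norm_bounded (((h.an1_sum_c n).mul_right (K t)).div_const (‖z‖ ^ 2 + 1))
    fun j => ?_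
  exact ((h.dat (j + n)).bd t ht t le_rfl z 1 norm_one).2.2.2.1

lemma Sys.tail_nonneg (h : Sys J c K R A) (n : ℕ) (z : ℂ) {t : ℝ} (ht : 0 < t) :
    0 ≤ (tail J n).f z t := tsum_nonneg fun _ => h.nonneg _ z t ht

lemma Sys.tail_flux (h : Sys J c K R A) (n : ℕ) (z : ℂ) {t : ℝ} (ht : 0 < t) :
    0 ≤ -t * (tail J n).fs z t := by
  change 0 ≤ -t * ∑' j, (J (j + n)).fs z t
  rw [← tsum_mul_left]
  exact tsum_nonneg fun _ => h.flux0 _ z t ht

lemma Sys.tail_lap_nonpos (h : Sys J c K R A) (n : ℕ) (z : ℂ) {t : ℝ} (ht : 0 < t) (h2 : t ≤ 2) :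
    (tail J n).lap z t ≤ 0 := by
  rw [← (tail_lap h.dat h.sum n z ht h2).tsum_eq]
  exact h.sup n z t ht

lemma Sys.lap_eq (h : Sys J c K R A) (j : ℕ) (z : ℂ) {t : ℝ} (ht : 0 < t) (h2 : t ≤ 2) :
    (J j).lap z t = (tail J j).lap z t - (tail J (j + 1)).lap z t := by
  have h0 := tail_lap h.dat h.sum j z ht h2
  have h1 := tail_lap h.dat h.sum (j + 1) z ht h2
  have e : ∀ i, i + 1 + j = i + (j + 1) := fun i => by ring
  rw [← h0.tsum_eq, ← h1.tsum_eq, h0.summable.tsum_eq_zero_add]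
  simp only [e, zero_add]
  ring

lemma Sys.tail_fs_eq (h : Sys J c K R A) (n N : ℕ) (z : ℂ) {t : ℝ} (ht : 0 < t) (h2 : t ≤ 2) :
    (tail J n).fs z t = ∑ j ∈ Finset.range N, (J (j + n)).fs z t + (tail J (N + n)).fs z t := by
  have _ := h2
  change ∑' j, (J (j + n)).fs z t = _ + ∑' j, (J (j + (N + n))).fs z t
  rw [← (h.an1_sum_fs n z ht).sum_add_tsum_nat_add N]
  simp only [add_assoc]

lemma an1_log_le {a t : ℝ} (ha : 0 ≤ a) (ht : 0 < t) : t * Real.log (1 + a / t) ≤ a := by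
  have h1 : Real.log (1 + a / t) ≤ a / t := by
    have := Real.log_le_sub_one_of_pos (show 0 < 1 + a / t by positivity)
    linarith
  calc t * Real.log (1 + a / t) ≤ t * (a / t) := by gcongr
    _ = a := by field_simp

lemma an1_log_nonneg {a t : ℝ} (ha : 0 ≤ a) (ht : 0 < t) : 0 ≤ t * Real.log (1 + a / t) := by
  have : 0 ≤ a / t := by positivity
  exact mul_nonneg ht.le (Real.log_nonneg (by linarith))

lemma an1_log_sqrt {a t : ℝ} (ha : 0 ≤ a) (ht : 0 < t) :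
    t * Real.log (1 + a / t) ≤ 2 * √a * √t := by
  have hx : 0 ≤ a / t := by positivity
  have hs := Real.sqrt_nonneg (a / t)
  have h1 : Real.log (1 + a / t) ≤ 2 * √(a / t) := by
    have h2 : 1 + a / t ≤ (1 + √(a / t)) ^ 2 := by
      have := Real.sq_sqrt hx
      nlinarith
    have h3 := Real.log_le_log (by positivity) h2
    rw [Real.log_pow] at h3
    have h4 := Real.log_le_sub_one_of_pos (show 0 < 1 + √(a / t) by positivity)
    push_cast at h3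
    linarith
  have ht' : 0 < √t := Real.sqrt_pos.2 ht
  calc t * Real.log (1 + a / t) ≤ t * (2 * √(a / t)) := by gcongr
    _ = (√t * √t) * (2 * (√a / √t)) := by rw [Real.mul_self_sqrt ht.le, Real.sqrt_div ha]
    _ = 2 * √a * √t := by field_simp

lemma an1_log_tendsto {a : ℝ} (ha : 0 ≤ a) :
    Tendsto (fun t : ℝ => t * Real.log (1 + a / t)) (𝓝[>] 0) (𝓝 0) := by
  have h1 : Tendsto (fun t : ℝ => 2 * √a * √t) (𝓝[>] 0) (𝓝 0) := by
    have : Continuous fun t : ℝ => 2 * √a * √t := by fun_prop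
    have h2 := (this.tendsto 0).mono_left (nhdsWithin_le_nhds (s := Ioi 0))
    simpa using h2
  refine squeeze_zero' ?_ ?_ h1
  · filter_upwards [self_mem_nhdsWithin] with t ht using an1_log_nonneg ha ht
  · filter_upwards [self_mem_nhdsWithin] with t ht using an1_log_sqrt ha ht

lemma Sys.an1_mul_f_le (h : Sys J c K R A) (j : ℕ) (z : ℂ) {t : ℝ} (ht : 0 < t) :
    t * (J j).f z t ≤ t * Real.log (1 + c j / t) :=
  mul_le_mul_of_nonneg_left (h.le_log j z t ht) ht.le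

/-- The functions are small compared with `1 / t`, uniformly. -/
lemma Sys.tail_small (h : Sys J c K R A) (n : ℕ) {η : ℝ} (hη : 0 < η) :
    ∀ᶠ t in 𝓝[>] (0 : ℝ), ∀ z, t * (tail J n).f z t ≤ η := by
  have hT : Tendsto (fun t : ℝ => ∑' j, t * Real.log (1 + c (j + n) / t)) (𝓝[>] 0)
      (𝓝 (∑' _ : ℕ, (0 : ℝ))) := by
    refine tendsto_tsum_of_dominated_convergence (h.an1_sum_c n)
      (fun j => an1_log_tendsto (h.c0 _)) ?_
    filter_upwards [self_mem_nhdsWithin] with t ht j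
    rw [Real.norm_of_nonneg (an1_log_nonneg (h.c0 _) ht)]
    exact an1_log_le (h.c0 _) ht
  rw [tsum_zero] at hT
  filter_upwards [hT.eventually (gt_mem_nhds hη), self_mem_nhdsWithin] with t h1 ht z
  refine le_trans ?_ h1.le
  change t * ∑' j, (J (j + n)).f z t ≤ _
  rw [← tsum_mul_left]
  refine Summable.tsum_le_tsum (fun j => h.an1_mul_f_le _ z ht) ((h.an1_sum_f n z ht).mul_left t) ?_
  exact Summable.of_nonneg_of_le (fun j => an1_log_nonneg (h.c0 _) ht)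
    (fun j => an1_log_le (h.c0 _) ht) (h.an1_sum_c n)

lemma Sys.small (h : Sys J c K R A) (j : ℕ) {η : ℝ} (hη : 0 < η) :
    ∀ᶠ t in 𝓝[>] (0 : ℝ), ∀ z, t * (J j).f z t ≤ η := by
  filter_upwards [(an1_log_tendsto (h.c0 j)).eventually (gt_mem_nhds hη), self_mem_nhdsWithin]
    with t h1 ht z
  exact (h.an1_mul_f_le j z ht).trans h1.le

lemma Sys.an1_tail_mul (h : Sys J c K R A) (n : ℕ) (z : ℂ) {t : ℝ} (ht : 0 < t) :
    t * (tail J n).f z t ≤ ∑' j, c (j + n) := by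
  change t * ∑' j, (J (j + n)).f z t ≤ _
  rw [← tsum_mul_left]
  exact Summable.tsum_le_tsum (fun j => (h.an1_mul_f_le _ z ht).trans (an1_log_le (h.c0 _) ht))
    ((h.an1_sum_f n z ht).mul_left t) (h.an1_sum_c n)

lemma Sys.an1_tail_far (h : Sys J c K R A) (n : ℕ) {z : ℂ} {t : ℝ} (ht : 0 < t) (hz : R ≤ ‖z‖) :
    (tail J n).f z t ≤ A * (∑' j, c (j + n)) / ‖z‖ ^ 2 ∧
      -(tail J n).fs z t ≤ A * (∑' j, c (j + n)) / ‖z‖ ^ 4 := by
  constructor
  · change ∑' j, (J (j + n)).f z t ≤ _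
    rw [← tsum_mul_left, ← tsum_div_const]
    exact Summable.tsum_le_tsum (fun j => (h.far _ z t ht hz).1) (h.an1_sum_f n z ht)
      (((h.an1_sum_c n).mul_left A).div_const _)
  · change -∑' j, (J (j + n)).fs z t ≤ _
    rw [← tsum_mul_left, ← tsum_div_const, ← tsum_neg]
    exact Summable.tsum_le_tsum (fun j => (h.far _ z t ht hz).2) (h.an1_sum_fs n z ht).neg
      (((h.an1_sum_c n).mul_left A).div_const _)

lemma an1_cont {g : ℂ → ℝ → ℝ} (hg : ContinuousOn (fun p : ℂ × ℝ => g p.1 p.2) (univ ×ˢ Ioi 0))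
    {t : ℝ} (ht : 0 < t) : Continuous fun z => g z t :=
  hg.comp_continuous (f := fun z : ℂ => (z, t)) (by fun_prop) fun _ => ⟨mem_univ _, ht⟩

lemma an1_far_le {M : ℝ} (hM : 0 ≤ M) {x : ℝ} (hx : 1 ≤ x) :
    M / x ^ 4 ≤ 4 * M * ((x ^ 2 + 1) ^ 2)⁻¹ := by
  have h1 : 1 ≤ x ^ 2 := one_le_pow₀ hx
  rw [← div_eq_mul_inv, div_le_div_iff₀ (by positivity) (by positivity)]
  have h2 : (x ^ 2 + 1) ^ 2 ≤ 4 * x ^ 4 := by nlinarith
  nlinarith

lemma an1_integrable {g : ℂ → ℝ} (hg : Continuous g) {M M' R : ℝ} (hR : 1 ≤ R) (hM' : 0 ≤ M')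
    (h1 : ∀ z, |g z| ≤ M) (h2 : ∀ z, R ≤ ‖z‖ → |g z| ≤ M' / ‖z‖ ^ 4) : Integrable g mm := by
  have hM : 0 ≤ M := (abs_nonneg _).trans (h1 0)
  refine (integrable_decay.const_mul (M * (R ^ 2 + 1) ^ 2 + 4 * M')).mono'
    hg.aestronglyMeasurable (.of_forall fun z => ?_)
  rw [Real.norm_eq_abs]
  have hp : 0 < ((‖z‖ ^ 2 + 1) ^ 2)⁻¹ := by positivity
  rcases le_total R ‖z‖ with hz | hz
  · have := (h2 z hz).trans (an1_far_le hM' (hR.trans hz))
    have h3 : 0 ≤ M * (R ^ 2 + 1) ^ 2 * ((‖z‖ ^ 2 + 1) ^ 2)⁻¹ := by positivity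
    nlinarith
  · have h3 : (‖z‖ ^ 2 + 1) ^ 2 ≤ (R ^ 2 + 1) ^ 2 := by gcongr
    have h4 : 1 ≤ (R ^ 2 + 1) ^ 2 * ((‖z‖ ^ 2 + 1) ^ 2)⁻¹ := by
      rw [← div_eq_mul_inv, one_le_div (by positivity)]; exact h3
    have h5 : 0 ≤ 4 * M' * ((‖z‖ ^ 2 + 1) ^ 2)⁻¹ := by positivity
    have := h1 z
    nlinarith

lemma Sys.an1_flux_far (h : Sys J c K R A) (j : ℕ) {ε : ℝ} (h0 : 0 < ε) {z : ℂ} (hz : R ≤ ‖z‖) :
    -ε * (J j).fs z ε ≤ ε * (A * c j / ‖z‖ ^ 4) := by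
  have := mul_le_mul_of_nonneg_left (h.far j z ε h0 hz).2 h0.le
  linarith

lemma Sys.an1_tail_flux_far (h : Sys J c K R A) (n : ℕ) {ε : ℝ} (h0 : 0 < ε) (h1 : ε < 1) {z : ℂ}
    (hz : R ≤ ‖z‖) : -ε * (tail J n).fs z ε ≤ A * (∑' j, c (j + n)) / ‖z‖ ^ 4 := by
  have h2 := mul_le_mul_of_nonneg_left (h.an1_tail_far n h0 hz).2 h0.le
  have h3 : 0 ≤ A * (∑' j, c (j + n)) / ‖z‖ ^ 4 := by
    have := h.A0; have := h.an1_cn n; positivity
  nlinarith

lemma Sys.integrable_flux (h : Sys J c K R A) (j : ℕ) {ε : ℝ} (h0 : 0 < ε) (h1 : ε < 1) :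
    Integrable (fun z => -ε * (J j).fs z ε) mm := by
  have hA : 0 ≤ A * c j := mul_nonneg h.A0 (h.c0 j)
  refine an1_integrable (M := 1) (M' := A * c j) (continuous_const.mul (an1_cont (h.dat j).cs h0))
    h.R1 hA (fun z => ?_) fun z hz => ?_
  · rw [abs_of_nonneg (h.flux0 j z ε h0)]; exact h.flux1 j z ε h0
  · rw [abs_of_nonneg (h.flux0 j z ε h0)]
    refine (h.an1_flux_far j h0 hz).trans ?_
    have : 0 ≤ A * c j / ‖z‖ ^ 4 := by positivity
    nlinarith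

lemma Sys.integrable_tail_flux (h : Sys J c K R A) (n : ℕ) {ε : ℝ} (h0 : 0 < ε) (h1 : ε < 1) :
    Integrable (fun z => -ε * (tail J n).fs z ε) mm := by
  have hA : 0 ≤ A * ∑' j, c (j + n) := mul_nonneg h.A0 (h.an1_cn n)
  have hK : 0 ≤ (∑' j, c (j + n)) * K ε := mul_nonneg (h.an1_cn n) (h.K0 ε)
  refine an1_integrable (M := ε * ((∑' j, c (j + n)) * K ε)) (M' := A * ∑' j, c (j + n))
    (continuous_const.mul (an1_cont (h.tail_dat n).cs h0)) h.R1 hA (fun z => ?_) fun z hz => ?_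
  · rw [abs_mul, abs_neg, abs_of_pos h0]
    refine mul_le_mul_of_nonneg_left ?_ h0.le
    refine (((h.tail_dat n).bd ε h0 ε le_rfl z 1 norm_one).2.2.2.1).trans ?_
    exact div_le_self hK (by nlinarith [sq_nonneg ‖z‖])
  · rw [abs_of_nonneg (h.tail_flux n z h0)]
    exact h.an1_tail_flux_far n h0 h1 hz

/-- The Green identity for the harmonic kernel with pole outside the disc of radius `R`. -/
lemma Sys.an1_green (h : Sys J c K R A) (n : ℕ) {ε : ℝ} (h0 : 0 < ε) (h1 : ε < 1) :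
    Integrable (fun z : ℂ => (‖z - ((R + 2 : ℝ) : ℂ)‖ ^ 2 + ε)⁻¹ * (-ε * (tail J n).fs z ε)) mm ∧
    Integrable (fun p : ℂ × ℝ => (‖p.1 - ((R + 2 : ℝ) : ℂ)‖ ^ 2 + p.2)⁻¹ *
      -(tail J n).lap p.1 p.2) (strip ε) ∧
    ∫ z : ℂ, (‖z - ((R + 2 : ℝ) : ℂ)‖ ^ 2 + ε)⁻¹ * (-ε * (tail J n).fs z ε) ∂mm +
      ∫ p : ℂ × ℝ, (‖p.1 - ((R + 2 : ℝ) : ℂ)‖ ^ 2 + p.2)⁻¹ * -(tail J n).lap p.1 p.2 ∂strip ε ≤
      (K 1 + 2 + A) * ∑' j, c (j + n) := by
  set u : ℂ := ((R + 2 : ℝ) : ℂ) with hu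
  set cn := ∑' j, c (j + n) with hcn
  have hcn0 : 0 ≤ cn := h.an1_cn n
  obtain ⟨k, K', hk, hkf⟩ := exists_kerA u (σ := 0) le_rfl
  have kf : ∀ z t, 0 < t → k.f z t = (‖z - u‖ ^ 2 + t)⁻¹ := fun z t ht => by
    rw [(hkf z t ht).1]; simp
  have kfs : ∀ z t, 0 < t → k.fs z t = -((‖z - u‖ ^ 2 + t) ^ 2)⁻¹ := fun z t ht => by
    rw [(hkf z t ht).2.1]; simp
  have kl : ∀ z t, 0 < t → k.lap z t = 0 := fun z t ht => by
    rw [(hkf z t ht).2.2]; simp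
  have hV := h.tail_dat n
  have hG := green hV hk h0 h1.le
  have e0 : ∫ p, (tail J n).f p.1 p.2 * k.lap p.1 p.2 ∂strip ε = 0 := by
    refine integral_eq_zero_of_ae ?_
    filter_upwards [ae_strip ε] with p hp
    simp [kl p.1 p.2 (h0.trans hp.1)]
  have ae1 : (fun p : ℂ × ℝ => -(k.f p.1 p.2 * (tail J n).lap p.1 p.2)) =ᵐ[strip ε]
      fun p => (‖p.1 - u‖ ^ 2 + p.2)⁻¹ * -(tail J n).lap p.1 p.2 := by
    filter_upwards [ae_strip ε] with p hp
    rw [kf p.1 p.2 (h0.trans hp.1)]; ring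
  have i2 : Integrable (fun p : ℂ × ℝ => (‖p.1 - u‖ ^ 2 + p.2)⁻¹ * -(tail J n).lap p.1 p.2)
      (strip ε) := (hV.integrable_f_lap hk h0).neg.congr ae1
  have e1 : ∫ p : ℂ × ℝ, (‖p.1 - u‖ ^ 2 + p.2)⁻¹ * -(tail J n).lap p.1 p.2 ∂strip ε =
      -∫ p, k.f p.1 p.2 * (tail J n).lap p.1 p.2 ∂strip ε := by
    rw [← integral_congr_ae ae1, integral_neg]
  have ia : ∀ t, 0 < t → t ≤ 1 →
      Integrable (fun z : ℂ => (‖z - u‖ ^ 2 + t)⁻¹ * (-t * (tail J n).fs z t)) mm := by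
    intro t ht ht1
    refine ((hV.integrable_fs_f hk ht (by linarith)).const_mul (-t)).congr (.of_forall fun z => ?_)
    simp only [kf z t ht]; ring
  have ib : ∀ t, 0 < t → t ≤ 1 →
      Integrable (fun z : ℂ => t * (tail J n).f z t * ((‖z - u‖ ^ 2 + t) ^ 2)⁻¹) mm := by
    intro t ht ht1
    refine ((hk.integrable_fs_f hV ht (by linarith)).const_mul (-t)).congr (.of_forall fun z => ?_)
    simp only [kfs z t ht]; ring
  have eW : ∀ t, 0 < t → t ≤ 1 → WW (tail J n) k t =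
      ∫ z : ℂ, t * (tail J n).f z t * ((‖z - u‖ ^ 2 + t) ^ 2)⁻¹ ∂mm -
      ∫ z : ℂ, (‖z - u‖ ^ 2 + t)⁻¹ * (-t * (tail J n).fs z t) ∂mm := by
    intro t ht ht1
    rw [← integral_sub (ib t ht ht1) (ia t ht ht1)]
    unfold WW
    refine integral_congr_ae (.of_forall fun z => ?_)
    simp only [kf z t ht, kfs z t ht]; ring
  have hd0 := poisson_int 0 one_pos
  have hdu := poisson_int u one_pos
  have hde := poisson_int u h0
  have b1 : ∫ z : ℂ, (‖z - u‖ ^ 2 + 1)⁻¹ * (-1 * (tail J n).fs z 1) ∂mm ≤ K 1 * cn := by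
    have hK : 0 ≤ cn * K 1 := mul_nonneg hcn0 (h.K0 1)
    have hle : ∀ z : ℂ, (‖z - u‖ ^ 2 + 1)⁻¹ * (-1 * (tail J n).fs z 1) ≤
        cn * K 1 / 2 * (1 / (‖z - 0‖ ^ 2 + 1) ^ 2 + 1 / (‖z - u‖ ^ 2 + 1) ^ 2) := by
      intro z
      have h2 := (hV.bd 1 one_pos 1 le_rfl z 1 norm_one).2.2.2.1
      have h3 : -1 * (tail J n).fs z 1 ≤ cn * K 1 * (‖z‖ ^ 2 + 1)⁻¹ := by
        rw [← div_eq_mul_inv]; have := neg_le_abs ((tail J n).fs z 1); linarith
      have h4 : 0 < (‖z - u‖ ^ 2 + 1)⁻¹ := by positivity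
      rw [sub_zero, one_div, one_div, ← inv_pow, ← inv_pow]
      refine (mul_le_mul_of_nonneg_left h3 h4.le).trans ?_
      nlinarith [mul_nonneg hK (sq_nonneg ((‖z‖ ^ 2 + 1)⁻¹ - (‖z - u‖ ^ 2 + 1)⁻¹))]
    refine (integral_mono (ia 1 one_pos le_rfl) ((hd0.1.add hdu.1).const_mul _) hle).trans ?_
    simp only [Pi.add_apply]
    rw [integral_const_mul, integral_add hd0.1 hdu.1, hd0.2, hdu.2]
    linarith
  have b2 : 0 ≤ ∫ z : ℂ, 1 * (tail J n).f z 1 * ((‖z - u‖ ^ 2 + 1) ^ 2)⁻¹ ∂mm :=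
    integral_nonneg fun z => by
      have := h.tail_nonneg n z one_pos
      positivity
  have b3 : ∫ z : ℂ, ε * (tail J n).f z ε * ((‖z - u‖ ^ 2 + ε) ^ 2)⁻¹ ∂mm ≤ (2 + A) * cn := by
    have hA := h.A0
    have hle : ∀ z : ℂ, ε * (tail J n).f z ε * ((‖z - u‖ ^ 2 + ε) ^ 2)⁻¹ ≤
        2 * cn * (1 / (‖z - u‖ ^ 2 + 1) ^ 2) + A * cn * (ε / (‖z - u‖ ^ 2 + ε) ^ 2) := by
      intro z
      have hp : 0 < ((‖z - u‖ ^ 2 + ε) ^ 2)⁻¹ := by positivity
      rcases le_total R ‖z‖ with hz | hz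
      · have h2 := (h.an1_tail_far n h0 hz).1
        have h3 : 1 ≤ ‖z‖ ^ 2 := one_le_pow₀ (h.R1.trans hz)
        have h4 : (tail J n).f z ε ≤ A * cn := h2.trans (div_le_self (by positivity) h3)
        have h5 : 0 ≤ 2 * cn * (1 / (‖z - u‖ ^ 2 + 1) ^ 2) := by positivity
        have h6 : ε * (tail J n).f z ε * ((‖z - u‖ ^ 2 + ε) ^ 2)⁻¹ ≤
            ε * (A * cn) * ((‖z - u‖ ^ 2 + ε) ^ 2)⁻¹ := by gcongr
        rw [div_eq_mul_inv ε]
        linarith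
      · have h2 := h.an1_tail_mul n z h0
        have hR := h.R1
        have h3 : 2 ≤ ‖z - u‖ := by
          have h4 := norm_sub_norm_le u z
          rw [norm_sub_rev u z, hu, Complex.norm_real, Real.norm_of_nonneg (by linarith)] at h4
          linarith
        have h4 : 4 ≤ ‖z - u‖ ^ 2 := by nlinarith
        have h5 : ((‖z - u‖ ^ 2 + ε) ^ 2)⁻¹ ≤ 2 * (1 / (‖z - u‖ ^ 2 + 1) ^ 2) := by
          rw [← one_div, ← mul_div_assoc, div_le_div_iff₀ (by positivity) (by positivity)]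
          nlinarith
        have h6 : 0 ≤ A * cn * (ε / (‖z - u‖ ^ 2 + ε) ^ 2) := by positivity
        have h7 : ε * (tail J n).f z ε * ((‖z - u‖ ^ 2 + ε) ^ 2)⁻¹ ≤
            cn * (2 * (1 / (‖z - u‖ ^ 2 + 1) ^ 2)) := by gcongr
        linarith
    refine (integral_mono (ib ε h0 h1.le) ((hdu.1.const_mul _).add (hde.1.const_mul _)) hle).trans ?_
    simp only [Pi.add_apply]
    rw [integral_add (hdu.1.const_mul _) (hde.1.const_mul _), integral_const_mul,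
      integral_const_mul, hdu.2, hde.2]
    linarith
  refine ⟨ia ε h0 h1.le, i2, ?_⟩
  rw [eW 1 one_pos le_rfl, eW ε h0 h1.le, e0] at hG
  rw [e1]
  linarith

lemma an1_ker_ge {R : ℝ} (hR : 1 ≤ R) (z : ℂ) {t : ℝ} (h0 : 0 < t) (h1 : t < 1) :
    (‖z‖ ^ 2 + 1)⁻¹ ≤ (2 * (R + 2) ^ 2 + 2) * (‖z - ((R + 2 : ℝ) : ℂ)‖ ^ 2 + t)⁻¹ := by
  rw [← div_eq_mul_inv, ← one_div, div_le_div_iff₀ (by positivity) (by positivity)]
  have h2 := norm_sub_le z ((R + 2 : ℝ) : ℂ)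
  rw [Complex.norm_real, Real.norm_of_nonneg (by linarith)] at h2
  have h3 : ‖z - ((R + 2 : ℝ) : ℂ)‖ ^ 2 ≤ (‖z‖ + (R + 2)) ^ 2 := by gcongr
  nlinarith [sq_nonneg (‖z‖ - (R + 2)), mul_nonneg (sq_nonneg ‖z‖) (sq_nonneg (R + 2))]

lemma an1_lintegral_strip {g : ℂ × ℝ → ℝ≥0∞} {a : ℝ≥0∞}
    (h : ∀ ε, 0 < ε → ε < 1 → ∫⁻ p, g p ∂strip ε ≤ a) : ∫⁻ p, g p ∂strip 0 ≤ a := by
  have e : (univ ×ˢ Ioi 0 : Set (ℂ × ℝ)) = ⋃ l : ℕ, univ ×ˢ Ioi (ep l) := by
    ext p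
    simp only [mem_prod, mem_univ, mem_Ioi, true_and, mem_iUnion]
    constructor
    · intro hp
      exact (an1_tendsto_ep.eventually (gt_mem_nhds hp)).exists
    · rintro ⟨l, hl⟩
      exact (ep_pos l).trans hl
  have hm : Monotone fun l : ℕ => (univ ×ˢ Ioi (ep l) : Set (ℂ × ℝ)) := by
    intro l m hlm
    refine prod_mono le_rfl (Ioi_subset_Ioi ?_)
    unfold ep
    have : (l : ℝ) ≤ m := Nat.cast_le.2 hlm
    exact one_div_le_one_div_of_le (by positivity) (by linarith)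
  rw [strip_eq_restrict le_rfl, e, setLIntegral_iUnion_of_directed _ hm.directed_le]
  refine iSup_le fun l => ?_
  rw [← strip_eq_restrict (ep_pos l).le]
  exact h _ (ep_pos l) (ep_lt_one l)

/-- Mass bound. -/
theorem Sys.mass (h : Sys J c K R A) : ∃ C, 0 ≤ C ∧ ∀ n,
    (∀ ε, 0 < ε → ε < 1 → ∫ z, -ε * (tail J n).fs z ε ∂mm ≤ C * ∑' j, c (j + n)) ∧
    ∫⁻ p, ENNReal.ofReal (-(tail J n).lap p.1 p.2 / (‖p.1‖ ^ 2 + 1)) ∂strip 0 ≤
      ENNReal.ofReal (C * ∑' j, c (j + n)) := by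
  set Λ := 2 * (R + 2) ^ 2 + 2 with hΛ
  set C0 := K 1 + 2 + A with hC0
  have hA := h.A0
  have hK := h.K0 1
  have hΛ0 : 0 < Λ := by positivity
  have hC00 : 0 ≤ C0 := by positivity
  refine ⟨(R ^ 2 + 1) * Λ * C0 + 4 * A, by positivity, fun n => ?_⟩
  set cn := ∑' j, c (j + n) with hcn
  have hcn0 : 0 ≤ cn := h.an1_cn n
  have ae0 : ∀ ε, 0 < ε → ε < 1 → ∀ᵐ p ∂strip ε,
      0 ≤ (‖p.1 - ((R + 2 : ℝ) : ℂ)‖ ^ 2 + p.2)⁻¹ * -(tail J n).lap p.1 p.2 := by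
    intro ε h0 _
    filter_upwards [ae_strip ε] with p hp
    have h2 := h0.trans hp.1
    have h3 := h.tail_lap_nonpos n p.1 h2 (by linarith [hp.2])
    exact mul_nonneg (by positivity) (by linarith)
  refine ⟨fun ε h0 h1 => ?_, an1_lintegral_strip fun ε h0 h1 => ?_⟩
  · obtain ⟨i1, -, hb⟩ := h.an1_green n h0 h1
    have h2 := integral_nonneg_of_ae (ae0 ε h0 h1)
    have hle : ∀ z : ℂ, -ε * (tail J n).fs z ε ≤ (R ^ 2 + 1) * Λ *
        ((‖z - ((R + 2 : ℝ) : ℂ)‖ ^ 2 + ε)⁻¹ * (-ε * (tail J n).fs z ε)) +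
        4 * (A * cn) * ((‖z‖ ^ 2 + 1) ^ 2)⁻¹ := by
      intro z
      have h3 := h.tail_flux n z h0
      rcases le_total R ‖z‖ with hz | hz
      · have h4 := (h.an1_tail_flux_far n h0 h1 hz).trans
          (an1_far_le (mul_nonneg hA hcn0) (h.R1.trans hz))
        have h5 : 0 ≤ (R ^ 2 + 1) * Λ *
          ((‖z - ((R + 2 : ℝ) : ℂ)‖ ^ 2 + ε)⁻¹ * (-ε * (tail J n).fs z ε)) := by positivity
        linarith
      · have h4 := an1_ker_ge h.R1 z h0 h1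
        have h5 : 1 ≤ (R ^ 2 + 1) * (‖z‖ ^ 2 + 1)⁻¹ := by
          rw [← div_eq_mul_inv, one_le_div (by positivity)]; gcongr
        have h6 : 1 ≤ (R ^ 2 + 1) * (Λ * (‖z - ((R + 2 : ℝ) : ℂ)‖ ^ 2 + ε)⁻¹) :=
          h5.trans (mul_le_mul_of_nonneg_left h4 (by positivity))
        have h7 := mul_le_mul_of_nonneg_right h6 h3
        have h8 : 0 ≤ 4 * (A * cn) * ((‖z‖ ^ 2 + 1) ^ 2)⁻¹ := by positivity
        linarith
    refine (integral_mono (h.integrable_tail_flux n h0 h1)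
      ((i1.const_mul _).add (integrable_decay.const_mul _)) hle).trans ?_
    have hd : ∫ z : ℂ, ((‖z‖ ^ 2 + 1) ^ 2)⁻¹ ∂mm = 1 := by
      simpa using (poisson_int 0 one_pos).2
    simp only [Pi.add_apply]
    rw [integral_add (i1.const_mul _) (integrable_decay.const_mul _), integral_const_mul,
      integral_const_mul, hd]
    have h3 : ∫ z : ℂ, (‖z - ((R + 2 : ℝ) : ℂ)‖ ^ 2 + ε)⁻¹ * (-ε * (tail J n).fs z ε) ∂mm ≤
        C0 * cn := by linarith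
    have h4 := mul_le_mul_of_nonneg_left h3 (show 0 ≤ (R ^ 2 + 1) * Λ by positivity)
    linarith
  · obtain ⟨-, i2, hb⟩ := h.an1_green n h0 h1
    have h2 : 0 ≤ ∫ z : ℂ, (‖z - ((R + 2 : ℝ) : ℂ)‖ ^ 2 + ε)⁻¹ * (-ε * (tail J n).fs z ε) ∂mm :=
      integral_nonneg fun z => mul_nonneg (by positivity) (h.tail_flux n z h0)
    have h3 : ∫ p : ℂ × ℝ, (‖p.1 - ((R + 2 : ℝ) : ℂ)‖ ^ 2 + p.2)⁻¹ * -(tail J n).lap p.1 p.2
        ∂strip ε ≤ C0 * cn := by linarith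
    calc ∫⁻ p, ENNReal.ofReal (-(tail J n).lap p.1 p.2 / (‖p.1‖ ^ 2 + 1)) ∂strip ε
        ≤ ∫⁻ p, ENNReal.ofReal (Λ * ((‖p.1 - ((R + 2 : ℝ) : ℂ)‖ ^ 2 + p.2)⁻¹ *
            -(tail J n).lap p.1 p.2)) ∂strip ε := by
          refine lintegral_mono_ae ?_
          filter_upwards [ae_strip ε] with p hp
          refine ENNReal.ofReal_le_ofReal ?_
          have h4 := h0.trans hp.1
          have h5 := h.tail_lap_nonpos n p.1 h4 (by linarith [hp.2])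
          have h6 := mul_le_mul_of_nonneg_right (an1_ker_ge h.R1 p.1 h4 hp.2)
            (show 0 ≤ -(tail J n).lap p.1 p.2 by linarith)
          rw [div_eq_mul_inv]
          linarith
      _ = ENNReal.ofReal (∫ p : ℂ × ℝ, Λ * ((‖p.1 - ((R + 2 : ℝ) : ℂ)‖ ^ 2 + p.2)⁻¹ *
            -(tail J n).lap p.1 p.2) ∂strip ε) := by
          refine (ofReal_integral_eq_lintegral_ofReal (i2.const_mul _) ?_).symm
          filter_upwards [ae0 ε h0 h1] with p hp using mul_nonneg hΛ0.le hp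
      _ ≤ _ := by
          refine ENNReal.ofReal_le_ofReal ?_
          rw [integral_const_mul]
          have h4 := mul_le_mul_of_nonneg_left h3 hΛ0.le
          have h5 : 0 ≤ R ^ 2 * Λ * C0 * cn := by positivity
          have h6 : 0 ≤ 4 * A * cn := by positivity
          linarith

lemma Sys.an1_aem (h : Sys J c K R A) (n : ℕ) : AEMeasurable
    (fun p : ℂ × ℝ => ENNReal.ofReal (-(tail J n).lap p.1 p.2 / (‖p.1‖ ^ 2 + 1))) (strip 0) := by
  have h1 := (aesm_strip le_rfl (h.tail_dat n).continuousOn_lap).aemeasurable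
  exact (h1.neg.div (by fun_prop)).ennreal_ofReal

theorem Sys.bulk (h : Sys J c K R A) :
    ∀ᵐ u ∂mm, ∀ n, Tendsto (bulkT J n u) (𝓝[>] 0) (𝓝 0) := by
  obtain ⟨C, -, hC⟩ := h.mass
  refine ae_all_iff.2 fun n => ?_
  set ν := (strip 0).withDensity
    fun p : ℂ × ℝ => ENNReal.ofReal (-(tail J n).lap p.1 p.2 / (‖p.1‖ ^ 2 + 1)) with hν
  have : IsFiniteMeasure ν :=
    isFiniteMeasure_withDensity (ne_top_of_le_ne_top ENNReal.ofReal_ne_top (hC n).2)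
  have h0 : ∀ᵐ p ∂ν, 0 < p.2 :=
    (withDensity_absolutelyContinuous _ _).ae_le (by
      filter_upwards [ae_strip 0] with p hp using hp.1)
  filter_upwards [bulk_tendsto ν h0] with u hu
  refine hu.congr' ?_
  filter_upwards [self_mem_nhdsWithin] with σ _
  rw [hν, lintegral_withDensity_eq_lintegral_mul₀ (h.an1_aem n) (by fun_prop)]
  unfold bulkT
  refine lintegral_congr_ae ?_
  filter_upwards [ae_strip 0] with p hp
  have h5 := h.tail_lap_nonpos n p.1 hp.1 (by linarith [hp.2])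
  have h6 : 0 < ‖p.1‖ ^ 2 + 1 := by positivity
  rw [Pi.mul_apply, ← ENNReal.ofReal_mul (div_nonneg (by linarith) h6.le)]
  congr 1
  rw [mul_div_right_comm σ, mul_comm (_ / _) (_ * _), mul_assoc, mul_div_cancel₀ _ h6.ne']

lemma Sys.an1_bulk_ne_top (h : Sys J c K R A) (n : ℕ) (u : ℂ) {σ : ℝ} (hσ : 0 < σ) :
    bulkT J n u σ ≠ ∞ := by
  obtain ⟨C, -, hC⟩ := h.mass
  set M := 2 + (2 * ‖u‖ ^ 2 + 1) / σ with hM
  have hM0 : 0 ≤ M := by positivity
  have hle : bulkT J n u σ ≤ ENNReal.ofReal M *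
      ∫⁻ p, ENNReal.ofReal (-(tail J n).lap p.1 p.2 / (‖p.1‖ ^ 2 + 1)) ∂strip 0 := by
    rw [← lintegral_const_mul' _ _ ENNReal.ofReal_ne_top]
    refine lintegral_mono_ae ?_
    filter_upwards [ae_strip 0] with p hp
    rw [← ENNReal.ofReal_mul hM0]
    refine ENNReal.ofReal_le_ofReal ?_
    have h5 := h.tail_lap_nonpos n p.1 hp.1 (by linarith [hp.2])
    have ht := hp.1
    set D := ‖p.1 - u‖ ^ 2 + p.2 + σ with hD
    have hD0 : 0 < D := by positivity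
    have hσD : σ ≤ D := by have := sq_nonneg ‖p.1 - u‖; linarith
    have h1 : ‖p.1‖ ^ 2 + 1 ≤ M * D := by
      have h2 : ‖p.1‖ ≤ ‖p.1 - u‖ + ‖u‖ := by simpa using norm_add_le (p.1 - u) u
      have h3 : ‖p.1‖ ^ 2 ≤ (‖p.1 - u‖ + ‖u‖) ^ 2 := by gcongr
      have h4 : (2 * ‖u‖ ^ 2 + 1) / σ * σ ≤ (2 * ‖u‖ ^ 2 + 1) / σ * D := by gcongr
      rw [div_mul_cancel₀ _ hσ.ne'] at h4
      nlinarith [sq_nonneg (‖p.1 - u‖ - ‖u‖)]
    have h2 : σ / D ^ 2 ≤ M / (‖p.1‖ ^ 2 + 1) := by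
      rw [div_le_div_iff₀ (by positivity) (by positivity)]
      calc σ * (‖p.1‖ ^ 2 + 1) ≤ D * (M * D) := by gcongr
        _ = M * D ^ 2 := by ring
    have h3 := mul_le_mul_of_nonneg_right h2 (show 0 ≤ -(tail J n).lap p.1 p.2 by linarith)
    calc _ ≤ _ := h3
      _ = _ := by ring
  exact ne_top_of_le_ne_top (ENNReal.mul_ne_top ENNReal.ofReal_ne_top
    (ne_top_of_le_ne_top ENNReal.ofReal_ne_top (hC n).2)) hle

/-- A kernel dominated by the Poisson kernel against the Riesz mass. -/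
theorem Sys.abs_bulk_le (h : Sys J c K R A) (n : ℕ) (u : ℂ) {σ ε a : ℝ} (hσ : 0 < σ) (hε : 0 ≤ ε)
    (ha : 0 ≤ a) {g : ℂ × ℝ → ℝ}
    (hg : ∀ p : ℂ × ℝ, p.2 ∈ Ioo ε 1 → |g p| ≤ a * (σ / (‖p.1 - u‖ ^ 2 + p.2 + σ) ^ 2)) :
    |∫ p, g p * (tail J n).lap p.1 p.2 ∂strip ε| ≤ a * (bulkT J n u σ).toReal := by
  have hle : ∫⁻ p, ENNReal.ofReal ‖g p * (tail J n).lap p.1 p.2‖ ∂strip ε ≤
      ENNReal.ofReal a * bulkT J n u σ := by
    unfold bulkT
    rw [← lintegral_const_mul' _ _ ENNReal.ofReal_ne_top]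
    have hs : strip ε ≤ strip 0 := by
      rw [strip_eq_restrict hε]; exact Measure.restrict_le_self
    refine le_trans (lintegral_mono_ae ?_) (lintegral_mono' hs le_rfl)
    filter_upwards [ae_strip ε] with p hp
    rw [← ENNReal.ofReal_mul ha]
    refine ENNReal.ofReal_le_ofReal ?_
    have h5 := h.tail_lap_nonpos n p.1 (hε.trans_lt hp.1) (by linarith [hp.2])
    rw [norm_mul, Real.norm_eq_abs, Real.norm_eq_abs, abs_of_nonpos h5, ← mul_assoc]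
    exact mul_le_mul_of_nonneg_right (hg p hp) (by linarith)
  rw [← Real.norm_eq_abs]
  refine (norm_integral_le_lintegral_norm _).trans ?_
  refine (ENNReal.toReal_mono (ENNReal.mul_ne_top ENNReal.ofReal_ne_top
    (h.an1_bulk_ne_top n u hσ)) hle).trans ?_
  rw [ENNReal.toReal_mul, ENNReal.toReal_ofReal ha]

lemma an1_integrable_mul {g φ : ℂ → ℝ} {C : ℝ} (hg : Measurable g) (hb : ∀ z, |g z| ≤ C)
    (hφ : Integrable φ mm) : Integrable (fun z => g z * φ z) mm :=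
  hφ.bdd_mul (c := C) hg.aestronglyMeasurable (.of_forall hb)

theorem Sys.exists_plane (h : Sys J c K R A) : ∃ δ, Plane J δ := by
  have hR : 0 ≤ R := zero_le_one.trans h.R1
  have hfin : mm (ball (0 : ℂ) R) ≠ ∞ := by rw [mm_ball 0 hR]; exact ENNReal.ofReal_ne_top
  have : IsFiniteMeasure (mm.restrict (ball (0 : ℂ) R)) := isFiniteMeasure_restrict.2 hfin
  have hex := fun j => exists_density (mm.restrict (ball (0 : ℂ) R)) (hyperfilter ℕ)
    (fun l z => -ep l * (J j).fs z (ep l))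
    (fun l => (continuous_const.mul (an1_cont (h.dat j).cs (ep_pos l))).measurable)
    (fun l z => h.flux0 j z _ (ep_pos l)) (fun l z => h.flux1 j z _ (ep_pos l))
  choose y hym hy0 hy1 hy using hex
  refine ⟨fun j => indicator (ball 0 R) (y j), fun j => (hym j).indicator measurableSet_ball,
    fun j z => indicator_nonneg (fun z _ => hy0 j z) z,
    fun j z => indicator_apply_le' (fun _ => hy1 j z) (fun _ => zero_le_one), fun j => ?_,
    fun j g C hg hb => ?_⟩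
  · rw [integrable_indicator_iff measurableSet_ball]
    refine Measure.integrableOn_of_bounded (M := 1) hfin (hym j).aestronglyMeasurable
      (.of_forall fun z => ?_)
    rw [Real.norm_of_nonneg (hy0 j z)]; exact hy1 j z
  · have hC : 0 ≤ C := (abs_nonneg _).trans (hb 0)
    have hA : 0 ≤ A * c j := mul_nonneg h.A0 (h.c0 j)
    have e1 : ∫ z, g z * indicator (ball 0 R) (y j) z ∂mm = ∫ z in ball 0 R, g z * y j z ∂mm := by
      rw [← integral_indicator measurableSet_ball]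
      refine integral_congr_ae (.of_forall fun z => ?_)
      by_cases hz : z ∈ ball (0 : ℂ) R <;> simp [hz]
    have hi := fun l => an1_integrable_mul hg hb (h.integrable_flux j (ep_pos l) (ep_lt_one l))
    have hout : Tendsto (fun l => ∫ z in (ball 0 R)ᶜ, g z * (-ep l * (J j).fs z (ep l)) ∂mm)
        (hyperfilter ℕ) (𝓝 0) := by
      have h1 : Tendsto (fun l => C * (4 * (A * c j)) * ep l) (hyperfilter ℕ) (𝓝 0) := by
        simpa using (tendsto_ep.mono_right nhdsWithin_le_nhds).const_mul (C * (4 * (A * c j)))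
      refine squeeze_zero_norm (fun l => ?_) h1
      have hp := ep_pos l
      have hd : ∫ z : ℂ, ((‖z‖ ^ 2 + 1) ^ 2)⁻¹ ∂mm = 1 := by
        simpa using (poisson_int 0 one_pos).2
      rw [← integral_indicator measurableSet_ball.compl]
      refine (norm_integral_le_of_norm_le
        (integrable_decay.const_mul (C * (4 * (A * c j)) * ep l)) (.of_forall fun z => ?_)).trans ?_
      · by_cases hz : z ∈ (ball (0 : ℂ) R)ᶜ
        · rw [indicator_of_mem hz, norm_mul, Real.norm_eq_abs,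
            Real.norm_of_nonneg (h.flux0 j z _ hp)]
          have hz' : R ≤ ‖z‖ := by simpa using hz
          have h2 := (h.an1_flux_far j hp hz').trans
            (mul_le_mul_of_nonneg_left (an1_far_le hA (h.R1.trans hz')) hp.le)
          calc _ ≤ C * (ep l * (4 * (A * c j) * ((‖z‖ ^ 2 + 1) ^ 2)⁻¹)) :=
                mul_le_mul (hb z) h2 (h.flux0 j z _ hp) hC
            _ = _ := by ring
        · rw [indicator_of_notMem hz, norm_zero]; positivity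
      · rw [integral_const_mul, hd, mul_one]
    have := (hy j g C hg hb).add hout
    rw [add_zero] at this
    rw [e1]
    exact this.congr fun l => integral_add_compl measurableSet_ball (hi l)

lemma Sys.an1_part (h : Sys J c K R A) (n N : ℕ) {ε : ℝ} (h0 : 0 < ε) (h1 : ε < 1) :
    ∑ j ∈ Finset.range N, ∫ z, -ε * (J (j + n)).fs z ε ∂mm ≤ ∫ z, -ε * (tail J n).fs z ε ∂mm := by
  rw [← integral_finsetSum _ fun j _ => h.integrable_flux (j + n) h0 h1]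
  refine integral_mono (integrable_finsetSum _ fun j _ => h.integrable_flux (j + n) h0 h1)
    (h.integrable_tail_flux n h0 h1) fun z => ?_
  have h2 := h.tail_flux (N + n) z h0
  simp only
  rw [h.tail_fs_eq n N z h0 (by linarith), mul_add, Finset.mul_sum]
  linarith

/-- Passage to the limit for kernels that depend on the height. -/
theorem Plane.lim' (h : Sys J c K R A) (hδ : Plane J δ) (j : ℕ) {g : ℂ → ℝ → ℝ} {C L : ℝ}
    (hm : ∀ t, Measurable fun z => g z t) (hb : ∀ z, |g z 0| ≤ C)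
    (hL : ∀ z t, 0 < t → t < 1 → |g z t - g z 0| ≤ L * t) :
    Tendsto (fun l => ∫ z, g z (ep l) * (-ep l * (J j).fs z (ep l)) ∂mm) (hyperfilter ℕ)
      (𝓝 (∫ z, g z 0 * δ j z ∂mm)) := by
  obtain ⟨C1, -, hC1⟩ := h.mass
  have hi := fun l => h.integrable_flux j (ep_pos l) (ep_lt_one l)
  have hd := fun l z => hL z (ep l) (ep_pos l) (ep_lt_one l)
  have hdiff : Tendsto (fun l => ∫ z, (g z (ep l) - g z 0) * (-ep l * (J j).fs z (ep l)) ∂mm)
      (hyperfilter ℕ) (𝓝 0) := by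
    have h1 : Tendsto (fun l => L * (C1 * ∑' i, c (i + j)) * ep l) (hyperfilter ℕ) (𝓝 0) := by
      simpa using (tendsto_ep.mono_right nhdsWithin_le_nhds).const_mul (L * (C1 * ∑' i, c (i + j)))
    refine squeeze_zero_norm (fun l => ?_) h1
    have hp := ep_pos l
    have hL0 : 0 ≤ L * ep l := (abs_nonneg _).trans (hd l 0)
    refine (norm_integral_le_of_norm_le ((hi l).const_mul (L * ep l))
      (.of_forall fun z => ?_)).trans ?_
    · rw [norm_mul, Real.norm_eq_abs, Real.norm_of_nonneg (h.flux0 j z _ hp)]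
      exact mul_le_mul_of_nonneg_right (hd l z) (h.flux0 j z _ hp)
    · rw [integral_const_mul]
      have h2 := (h.an1_part j 1 hp (ep_lt_one l)).trans ((hC1 j).1 _ hp (ep_lt_one l))
      simp only [Finset.range_one, Finset.sum_singleton, zero_add] at h2
      calc _ ≤ L * ep l * (C1 * ∑' i, c (i + j)) := mul_le_mul_of_nonneg_left h2 hL0
        _ = _ := by ring
  have := (hδ.lim j (fun z => g z 0) C (hm 0) hb).add hdiff
  rw [add_zero] at this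
  refine this.congr fun l => ?_
  rw [← integral_add (an1_integrable_mul (hm 0) hb (hi l))
    (an1_integrable_mul (g := fun z => g z (ep l) - g z 0) ((hm _).sub (hm 0)) (hd l) (hi l))]
  refine integral_congr_ae (.of_forall fun z => ?_)
  ring

lemma Plane.an1_lim (hδ : Plane J δ) (N : ℕ) :
    Tendsto (fun l => ∑ j ∈ Finset.range N, ∫ z, -ep l * (J j).fs z (ep l) ∂mm) (hyperfilter ℕ)
      (𝓝 (∑ j ∈ Finset.range N, ∫ z, δ j z ∂mm)) := by
  refine tendsto_finsetSum _ fun j _ => ?_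
  simpa only [one_mul] using hδ.lim j (fun _ => 1) 1 measurable_const (fun _ => by simp)

theorem Plane.summable (h : Sys J c K R A) (hδ : Plane J δ) :
    Summable fun j => ∫ z, δ j z ∂mm := by
  obtain ⟨C, -, hC⟩ := h.mass
  refine summable_of_sum_range_le (c := C * ∑' j, c (j + 0))
    (fun j => integral_nonneg fun z => hδ.nonneg j z) fun N => ?_
  refine le_of_tendsto' (hδ.an1_lim N) fun l => ?_
  exact (h.an1_part 0 N (ep_pos l) (ep_lt_one l)).trans ((hC 0).1 _ (ep_pos l) (ep_lt_one l))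

theorem Plane.pos (h : Sys J c K R A) (hδ : Plane J δ) {θ : ℝ} (hθ : 0 < θ)
    (hp : ∀ ε, 0 < ε → ε < 1 → θ ≤ ∑' j, ∫ z, -ε * (J j).fs z ε ∂mm) :
    ∃ j, mm {u | 0 < δ j u} ≠ 0 := by
  by_contra hcon
  push Not at hcon
  obtain ⟨C, -, hC⟩ := h.mass
  have hz : ∀ j, ∫ z, δ j z ∂mm = 0 := fun j => by
    refine integral_eq_zero_of_ae ?_
    filter_upwards [measure_eq_zero_iff_ae_notMem.1 (hcon j)] with z hz
    exact le_antisymm (not_lt.1 hz) (hδ.nonneg j z)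
  have h1 : Tendsto (fun n => C * ∑' j, c (j + n)) atTop (𝓝 0) := by
    simpa using (tendsto_sum_nat_add c).const_mul C
  obtain ⟨N, hN⟩ := (h1.eventually (gt_mem_nhds (half_pos hθ))).exists
  have h2 := hδ.an1_lim N
  simp only [hz, Finset.sum_const_zero] at h2
  obtain ⟨l, hl⟩ := (h2.eventually (gt_mem_nhds (half_pos hθ))).exists
  have h0 := ep_pos l
  have h01 := ep_lt_one l
  have hnn : ∀ j, 0 ≤ ∫ z, -ep l * (J j).fs z (ep l) ∂mm := fun j =>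
    integral_nonneg fun z => h.flux0 j z _ h0
  have hs : Summable fun j => ∫ z, -ep l * (J j).fs z (ep l) ∂mm :=
    summable_of_sum_range_le hnn fun M => h.an1_part 0 M h0 h01
  have h3 := hp _ h0 h01
  rw [← hs.sum_add_tsum_nat_add N] at h3
  have h4 : ∑' j, ∫ z, -ep l * (J (j + N)).fs z (ep l) ∂mm ≤ C * ∑' j, c (j + N) :=
    Real.tsum_le_of_sum_range_le (fun j => hnn _) fun M =>
      (h.an1_part N M h0 h01).trans ((hC N).1 _ h0 h01)
  linarith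

end Pool.Agent.Lib.MP_45cb44_an.Hy
end
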