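import Pool.Agent.Lib.MP_45cb44_an.HyBas

-- part Pool.Agent.Lib.MP_45cb44_an.HyFlag
section

/-! Minimisers along the flag of coordinate subspaces and the determinant bound. -/

namespace Pool.Agent.Lib.MP_45cb44_an.Hy

open MeasureTheory Metric Set Filter Topology InnerProductSpace
open scoped InnerProductSpace ComplexConjugate

variable {H : Type*} [NormedAddCommGroup H] [InnerProductSpace ℂ H] [CompleteSpace H]
  {T Φ Ψ : H →L[ℂ] H} {z w u : ℂ} {s σ t : ℝ}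

/-- The part of `x` orthogonal to the first `k` basis vectors. -/
noncomputable def flagPr (b : ℕ → H) (k : ℕ) (x : H) : H :=
  x - ∑ l ∈ Finset.range k, ⟪b l, x⟫_ℂ • b l

omit [CompleteSpace H] in
lemma flag_inner_sum (b : HilbertBasis ℕ ℂ H) (k : ℕ) (c : ℕ → ℂ) {l : ℕ} (hl : l < k) :
    ⟪b l, ∑ i ∈ Finset.range k, c i • b i⟫_ℂ = c l :=
  b.orthonormal.inner_right_sum c (Finset.mem_range.2 hl)

omit [CompleteSpace H] in
lemma flag_tl_pr (b : HilbertBasis ℕ ℂ H) (k : ℕ) (x : H) : Tl b k (flagPr b k x) := by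
  intro l hl
  rw [flagPr, inner_sub_right, flag_inner_sum b k _ hl, sub_self]

omit [CompleteSpace H] in
lemma flag_tl_orth {b : ℕ → H} {k : ℕ} {a : H} (ha : Tl b k a) (c : ℕ → ℂ) :
    ⟪a, ∑ i ∈ Finset.range k, c i • b i⟫_ℂ = 0 := by
  rw [inner_sum]
  refine Finset.sum_eq_zero fun i hi => ?_
  rw [inner_smul_right, ← inner_conj_symm, ha i (Finset.mem_range.1 hi), map_zero, mul_zero]

lemma flag_inner_star (Φ : H →L[ℂ] H) (x y : H) : ⟪x, star Φ y⟫_ℂ = ⟪Φ x, y⟫_ℂ := by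
  rw [ContinuousLinearMap.star_eq_adjoint, ContinuousLinearMap.adjoint_inner_right]

lemma flag_hd_apply (b : ℕ → H) (Φ : H →L[ℂ] H) (k : ℕ) (y : H) :
    (Φ * star Φ - hd (fun j => Φ (b j)) k) y = Φ (flagPr b k (star Φ y)) := by
  simp only [flagPr, hd, ContinuousLinearMap.sub_apply, ContinuousLinearMap.mul_apply,
    ContinuousLinearMap.sum_apply, rankOne_apply, map_sub, map_sum, map_smul, flag_inner_star]

lemma norm_tl_le (b : HilbertBasis ℕ ℂ H) (hs : Summable fun j => ‖Φ (b j)‖ ^ 2) {k : ℕ} {a : H}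
    (ha : Tl b k a) : ‖Φ a‖ ^ 2 ≤ (∑' j, ‖Φ (b (j + k))‖ ^ 2) * ‖a‖ ^ 2 := by
  have h1 : HasSum (fun j => ⟪b j, a⟫_ℂ • Φ (b j)) (Φ a) := by
    have := (b.hasSum_repr a).mapL Φ
    simpa only [HilbertBasis.repr_apply_apply, map_smul] using this
  have h2 : HasSum (fun j => ⟪b (j + k), a⟫_ℂ • Φ (b (j + k))) (Φ a) := by
    have := (hasSum_nat_add_iff' k).2 h1
    have h0 : ∑ i ∈ Finset.range k, ⟪b i, a⟫_ℂ • Φ (b i) = 0 :=
      Finset.sum_eq_zero fun i hi => by rw [ha i (Finset.mem_range.1 hi), zero_smul]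
    rwa [h0, sub_zero] at this
  have hs' : Summable fun j => ‖Φ (b (j + k))‖ ^ 2 := (summable_nat_add_iff k).2 hs
  have ho : Orthonormal ℂ (fun j => b (j + k)) :=
    b.orthonormal.comp (fun j => j + k) (add_left_injective k)
  refine le_of_tendsto' ((h2.tendsto_sum_nat.norm).pow 2) fun N => ?_
  have e1 : ‖∑ j ∈ Finset.range N, ⟪b (j + k), a⟫_ℂ • Φ (b (j + k))‖ ≤
      ∑ j ∈ Finset.range N, ‖Φ (b (j + k))‖ * ‖⟪b (j + k), a⟫_ℂ‖ := by
    refine (norm_sum_le _ _).trans (Finset.sum_le_sum fun j _ => ?_)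
    rw [norm_smul, mul_comm]
  have e2 := Finset.sum_mul_sq_le_sq_mul_sq (Finset.range N) (fun j => ‖Φ (b (j + k))‖)
    (fun j => ‖⟪b (j + k), a⟫_ℂ‖)
  have e3 : ∑ j ∈ Finset.range N, ‖⟪b (j + k), a⟫_ℂ‖ ^ 2 ≤ ‖a‖ ^ 2 :=
    ho.sum_inner_products_le a
  have e4 : ∑ j ∈ Finset.range N, ‖Φ (b (j + k))‖ ^ 2 ≤ ∑' j, ‖Φ (b (j + k))‖ ^ 2 :=
    hs'.sum_le_tsum _ fun j _ => by positivity
  calc _ ≤ (∑ j ∈ Finset.range N, ‖Φ (b (j + k))‖ * ‖⟪b (j + k), a⟫_ℂ‖) ^ 2 :=
        pow_le_pow_left₀ (norm_nonneg _) e1 2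
    _ ≤ _ := e2
    _ ≤ _ := mul_le_mul e4 e3 (Finset.sum_nonneg fun j _ => by positivity)
        (tsum_nonneg fun j => by positivity)

lemma norm_sub_hd_le (b : HilbertBasis ℕ ℂ H) (hs : Summable fun j => ‖Φ (b j)‖ ^ 2) (k : ℕ) :
    ‖Φ * star Φ - hd (fun j => Φ (b j)) k‖ ≤ ∑' j, ‖Φ (b (j + k))‖ ^ 2 := by
  have hc : 0 ≤ ∑' j, ‖Φ (b (j + k))‖ ^ 2 := tsum_nonneg fun j => by positivity
  refine ContinuousLinearMap.opNorm_le_bound _ hc fun y => ?_
  rw [flag_hd_apply]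
  set a := flagPr b k (star Φ y) with hadef
  have ha : Tl b k a := flag_tl_pr b k _
  have h1 := norm_tl_le b hs ha
  have h2 : ‖a‖ ^ 2 ≤ ‖Φ a‖ * ‖y‖ := by
    have e : ⟪a, a⟫_ℂ = ⟪Φ a, y⟫_ℂ := by
      have e0 : ⟪a, flagPr b k (star Φ y)⟫_ℂ = ⟪Φ a, y⟫_ℂ := by
        rw [flagPr, inner_sub_right, flag_tl_orth ha, sub_zero, flag_inner_star]
      exact e0
    have e2 : ‖a‖ ^ 2 = ‖⟪a, a⟫_ℂ‖ := by
      rw [inner_self_eq_norm_sq_to_K]; simp
    rw [e2, e]
    exact norm_inner_le_norm _ _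
  rcases (norm_nonneg (Φ a)).eq_or_lt with h0 | h0
  · rw [← h0]; positivity
  · have h3 : ‖Φ a‖ * ‖Φ a‖ ≤ ‖Φ a‖ * ((∑' j, ‖Φ (b (j + k))‖ ^ 2) * ‖y‖) := by
      have := mul_le_mul_of_nonneg_left h2 hc
      nlinarith
    exact le_of_mul_le_mul_left h3 h0

lemma tendsto_FF_hd (b : HilbertBasis ℕ ℂ H) (hs : Summable fun j => ‖Φ (b j)‖ ^ 2) (z : ℂ)
    (h0 : 0 < s) : Tendsto (fun k => FF T (hd (fun j => Φ (b j)) k) z s) atTop
      (𝓝 (FF T (Φ * star Φ) z s)) := by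
  rw [tendsto_iff_norm_sub_tendsto_zero]
  have ht : Tendsto (fun k => s⁻¹ * ((∑' j, ‖Φ (b (j + k))‖ ^ 2) * s⁻¹)) atTop (𝓝 0) := by
    have := ((tendsto_sum_nat_add fun j => ‖Φ (b j)‖ ^ 2).mul_const s⁻¹).const_mul s⁻¹
    simpa using this
  refine squeeze_zero (fun k => norm_nonneg _) (fun k => ?_) ht
  have hc : 0 ≤ ∑' j, ‖Φ (b (j + k))‖ ^ 2 := tsum_nonneg fun j => by positivity
  refine ContinuousLinearMap.opNorm_le_bound _ (by positivity) fun x => ?_
  rw [ContinuousLinearMap.sub_apply, FF_sub_back (hd_pos _ k) (pos_mul_star Φ) z h0]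
  have n1 := (unit_LL_pos (T := T) (hd_pos (fun j => Φ (b j)) k) z h0).2
  have n2 := (unit_LL_pos (T := T) (pos_mul_star Φ) z h0).2
  have n3 := norm_sub_hd_le b hs k
  calc _ ≤ s⁻¹ * ‖(Φ * star Φ - hd (fun j => Φ (b j)) k) (FF T (Φ * star Φ) z s x)‖ :=
        ContinuousLinearMap.le_of_opNorm_le _ n1 _
    _ ≤ s⁻¹ * ((∑' j, ‖Φ (b (j + k))‖ ^ 2) * ‖FF T (Φ * star Φ) z s x‖) :=
        mul_le_mul_of_nonneg_left (ContinuousLinearMap.le_of_opNorm_le _ n3 _) (by positivity)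
    _ ≤ s⁻¹ * ((∑' j, ‖Φ (b (j + k))‖ ^ 2) * (s⁻¹ * ‖x‖)) :=
        mul_le_mul_of_nonneg_left (mul_le_mul_of_nonneg_left
          (ContinuousLinearMap.le_of_opNorm_le _ n2 _) hc) (by positivity)
    _ = _ := by ring

lemma ww_nonneg (φ : ℕ → H) (j : ℕ) (z : ℂ) (hs : 0 < s) : 0 ≤ ww T φ j z s :=
  Real.log_nonneg (le_add_of_nonneg_right (inner_FF_nonneg (hd_pos φ j) z hs _))

lemma ww_le_log (φ : ℕ → H) (j : ℕ) (z : ℂ) (hs : 0 < s) :
    ww T φ j z s ≤ Real.log (1 + ‖φ j‖ ^ 2 / s) := by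
  have h0 := inner_FF_nonneg (T := T) (hd_pos φ j) z hs (φ j)
  refine Real.log_le_log (by linarith) (add_le_add_right ?_ 1)
  have n1 := (unit_LL_pos (T := T) (hd_pos φ j) z hs).2
  calc _ ≤ ‖⟪φ j, FF T (hd φ j) z s (φ j)⟫_ℂ‖ := Complex.re_le_norm _
    _ ≤ ‖φ j‖ * ‖FF T (hd φ j) z s (φ j)‖ := norm_inner_le_norm _ _
    _ ≤ ‖φ j‖ * (s⁻¹ * ‖φ j‖) :=
        mul_le_mul_of_nonneg_left (ContinuousLinearMap.le_of_opNorm_le _ n1 _) (norm_nonneg _)
    _ = _ := by ring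

lemma ww_le (φ : ℕ → H) (j : ℕ) (z : ℂ) (hs : 0 < s) : ww T φ j z s ≤ ‖φ j‖ ^ 2 / s := by
  have h1 := ww_le_log (T := T) φ j z hs
  have h2 := Real.log_le_sub_one_of_pos (x := 1 + ‖φ j‖ ^ 2 / s) (by positivity)
  linarith

lemma Tl.sub {b : ℕ → H} {k : ℕ} {a a' : H} (h : Tl b k a) (h' : Tl b k a') : Tl b k (a - a') := by
  intro l hl
  rw [inner_sub_right, h l hl, h' l hl, sub_zero]

lemma Tl.succ {b : ℕ → H} {k : ℕ} {a m : H} (h : Tl b k a) (hm : Tl b k m)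
    (h1 : ⟪b k, m⟫_ℂ = 1) : Tl b (k + 1) (a - ⟪b k, a⟫_ℂ • m) := by
  intro l hl
  rw [inner_sub_right, inner_smul_right]
  rcases Nat.lt_succ_iff_lt_or_eq.1 hl with h2 | rfl
  · rw [h l h2, hm l h2, mul_zero, sub_zero]
  · rw [h1, mul_one, sub_self]

omit [CompleteSpace H] in
lemma flag_tl_add {b : ℕ → H} {k : ℕ} {a a' : H} (h : Tl b k a) (h' : Tl b k a') :
    Tl b k (a + a') := by
  intro l hl
  rw [inner_add_right, h l hl, h' l hl, add_zero]

omit [CompleteSpace H] in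
lemma flag_tl_smul {b : ℕ → H} {k : ℕ} {a : H} (h : Tl b k a) (c : ℂ) : Tl b k (c • a) := by
  intro l hl
  rw [inner_smul_right, h l hl, mul_zero]

omit [CompleteSpace H] in
lemma flag_tl_zero (b : ℕ → H) (k : ℕ) : Tl b k (0 : H) := fun _ _ => inner_zero_right _

lemma flag_GG_zero (hs : 0 < s) : GG T Φ z s 0 = 0 := by
  have := GG_smul (T := T) (Φ := Φ) (z := z) hs 0 (0 : H)
  simpa using this

/-- The value of the quadratic form after adding a rank one operator. -/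
lemma flag_inner_succ (φ : ℕ → H) (j : ℕ) (z : ℂ) (hs : 0 < s) :
    1 - ⟪φ j, FF T (hd φ (j + 1)) z s (φ j)⟫_ℂ = (Real.exp (-ww T φ j z s) : ℝ) := by
  have hB := hd_pos φ j
  have h0 := inner_FF_nonneg (T := T) hB z hs (φ j)
  have e : hd φ (j + 1) = hd φ j + rankOne ℂ (φ j) (φ j) := by
    rw [hd, Finset.sum_range_succ, hd]
  set β := (⟪φ j, FF T (hd φ j) z s (φ j)⟫_ℂ).re with hβ
  have hr : ⟪φ j, FF T (hd φ j) z s (φ j)⟫_ℂ = (β : ℂ) := by
    have : conj ⟪φ j, FF T (hd φ j) z s (φ j)⟫_ℂ = ⟪φ j, FF T (hd φ j) z s (φ j)⟫_ℂ := by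
      rw [inner_conj_symm, inner_FF_symm hB]
    exact (Complex.conj_eq_iff_re.1 this).symm
  have hp : (0 : ℝ) < 1 + β := by linarith
  have hp' : ((1 + β : ℝ) : ℂ) ≠ 0 := by exact_mod_cast hp.ne'
  rw [e, FF_add_rankOne hB z hs, inner_sub_right, inner_smul_right, inner_FF_symm hB, ← hβ, hr,
    ww, ← hβ, Real.exp_neg, Real.exp_log hp]
  push_cast at hp' ⊢
  field_simp
  ring

/-- The minimiser of the cost on the affine space of vectors with leading coordinate one. -/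
lemma exists_min (b : HilbertBasis ℕ ℂ H) (T Φ : H →L[ℂ] H) (j : ℕ) (z : ℂ) (hs : 0 < s) :
    ∃ m, Tl b j m ∧ ⟪b j, m⟫_ℂ = 1 ∧ ∀ (c : ℂ) (a : H), Tl b (j + 1) a →
      GG T Φ z s (c • m + a) =
        ‖c‖ ^ 2 * Real.exp (-ww T (fun l => Φ (b l)) j z s) + GG T Φ z s a := by
  set h := FF T (hd (fun l => Φ (b l)) (j + 1)) z s (Φ (b j)) with hh
  set p := flagPr b (j + 1) (star Φ h) with hp
  have hpt : Tl b (j + 1) p := flag_tl_pr b _ _
  have hbb : ⟪b j, b j⟫_ℂ = 1 := by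
    rw [inner_self_eq_norm_sq_to_K, b.orthonormal.1 j]; simp
  have hL : LL T (Φ * star Φ) z s h = Φ (b j + p) := by
    have e1 : LL T (hd (fun l => Φ (b l)) (j + 1)) z s h = Φ (b j) := LL_FF (hd_pos _ _) z hs _
    have e2 := flag_hd_apply b Φ (j + 1) h
    rw [map_add, ← e1, hp, ← e2]
    simp only [LL, ContinuousLinearMap.add_apply, ContinuousLinearMap.sub_apply]
    abel
  have hst : st T Φ z s (b j + p) = h := by
    rw [st, ← hL, FF_LL (pos_mul_star Φ) z hs]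
  have hres : b j + p - star Φ h =
      b j - ∑ l ∈ Finset.range (j + 1), ⟪b l, star Φ h⟫_ℂ • b l := by
    rw [hp, flagPr]; abel
  have horth : ∀ a, Tl b (j + 1) a → ⟪a, b j + p - star Φ h⟫_ℂ = 0 := by
    intro a ha
    rw [hres, inner_sub_right, flag_tl_orth ha, sub_zero, ← inner_conj_symm,
      ha j (Nat.lt_succ_self j), map_zero]
  have hG : GG T Φ z s (b j + p) = Real.exp (-ww T (fun l => Φ (b l)) j z s) := by
    have e := GG_eq (T := T) (Φ := Φ) (z := z) hs (b j + p)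
    rw [hst, inner_add_left, horth p hpt, add_zero, hres, inner_sub_right, hbb,
      flag_inner_sum b (j + 1) _ (Nat.lt_succ_self j), flag_inner_star, hh,
      flag_inner_succ (fun l => Φ (b l)) j z hs] at e
    exact_mod_cast e
  refine ⟨b j + p, fun l hl => ?_, ?_, fun c a ha => ?_⟩
  · rw [inner_add_right, hpt l (Nat.lt_succ_of_lt hl), b.orthonormal.2 hl.ne, add_zero]
  · rw [inner_add_right, hpt j (Nat.lt_succ_self j), hbb, add_zero]
  · rw [GG_add hs, GG_smul hs, hG, st_smul, hst, map_smul, ← smul_sub, inner_smul_right,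
      horth a ha]
    simp

lemma flag_exists_min (b : HilbertBasis ℕ ℂ H) (T Φ : H →L[ℂ] H) (j : ℕ) (z : ℂ) (hs : 0 < s) :
    ∃ m, Tl b j m ∧ ⟪b j, m⟫_ℂ = 1 ∧
      GG T Φ z s m = Real.exp (-ww T (fun l => Φ (b l)) j z s) := by
  obtain ⟨m, h1, h2, h3⟩ := exists_min b T Φ j z hs
  refine ⟨m, h1, h2, ?_⟩
  have := h3 1 0 (flag_tl_zero _ _)
  simpa [flag_GG_zero hs] using this

lemma exp_le_GG (b : HilbertBasis ℕ ℂ H) {j : ℕ} (hs : 0 < s) {a : H} (ha : Tl b j a)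
    (h1 : ⟪b j, a⟫_ℂ = 1) : Real.exp (-ww T (fun l => Φ (b l)) j z s) ≤ GG T Φ z s a := by
  obtain ⟨m, m1, m2, m3⟩ := exists_min b T Φ j z hs
  have ht := ha.succ m1 m2
  have e := m3 ⟪b j, a⟫_ℂ _ ht
  rw [add_sub_cancel, h1] at e
  have := GG_nonneg (T := T) (Φ := Φ) (z := z) hs (a - (1 : ℂ) • m)
  rw [e]
  simp only [norm_one, one_pow, one_mul]
  linarith

lemma ww_anti (b : HilbertBasis ℕ ℂ H) (j : ℕ) (hs : 0 < s) (h : s ≤ σ) :
    ww T (fun l => Φ (b l)) j z σ ≤ ww T (fun l => Φ (b l)) j z s := by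
  obtain ⟨m, m1, m2, m3⟩ := flag_exists_min b T Φ j z (hs.trans_le h)
  have h1 := exp_le_GG (T := T) (Φ := Φ) (z := z) b hs m1 m2
  have h2 := GG_mono (T := T) (Φ := Φ) (z := z) hs h m
  rw [m3] at h2
  have := Real.exp_le_exp.1 (h1.trans h2)
  linarith

lemma ww_osc (b : HilbertBasis ℕ ℂ H) (j : ℕ) (ht : 0 < t) (hσ : 0 < σ) :
    ww T (fun l => Φ (b l)) j z t - ww T (fun l => Φ (b l)) j u σ ≤
      Real.log (2 * (‖z - u‖ ^ 2 + t + σ) / t) := by
  obtain ⟨m, m1, m2, m3⟩ := flag_exists_min b T Φ j z ht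
  have h1 := exp_le_GG (T := T) (Φ := Φ) (z := u) b hσ m1 m2
  have hl : 0 < 2 * (‖z - u‖ ^ 2 + t + σ) / t := by positivity
  have h2 := GG_comp (T := T) (Φ := Φ) (z := z) (u := u) (l := 2 * (‖z - u‖ ^ 2 + t + σ) / t) ht hσ
    (by rw [le_div_iff₀ ht]; nlinarith [sq_nonneg ‖z - u‖])
    (by rw [div_mul_cancel₀ _ ht.ne']; linarith) m
  rw [m3, ← Real.exp_log hl, ← Real.exp_add] at h2
  have := Real.exp_le_exp.1 (h1.trans h2)
  linarith

lemma flag_real {lam R al be e : ℝ} (hlam : 1 < lam) (hR : 1 ≤ R) (he : 0 < e)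
    (h : lam * (lam - 1) * e ^ 2 ≤ (R - 1) * al) :
    lam * (be + (lam - 1) * e) ^ 2 ≤ (lam - 1) * R * al + lam * R * be ^ 2 := by
  have h0 : 0 < lam * (lam - 1) * e ^ 2 := by
    have : 0 < lam - 1 := by linarith
    positivity
  have hR1 : 0 < R - 1 := by
    rcases hR.eq_or_lt with h1 | h1
    · rw [← h1] at h; linarith
    · linarith
  refine le_of_mul_le_mul_left ?_ hR1
  have h1 : (lam - 1) * R * (lam * (lam - 1) * e ^ 2) ≤ (lam - 1) * R * ((R - 1) * al) :=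
    mul_le_mul_of_nonneg_left h (by nlinarith)
  have h2 : 0 ≤ lam * ((lam - 1) * e - (R - 1) * be) ^ 2 := by positivity
  nlinarith

/-- One step of the downward induction. -/
lemma flag_step (b : HilbertBasis ℕ ℂ H) (hs : 0 < s) (h : s ≤ σ) {k : ℕ} {lam : ℝ}
    (hlam : 1 < lam) (ih : ∀ y, Tl b (k + 1) y → GG T Φ z σ y ≤ lam * GG T Φ z s y) {x : H}
    (hx : Tl b k x) : GG T Φ z σ x ≤ lam * Real.exp (ww T (fun l => Φ (b l)) k z s -
      ww T (fun l => Φ (b l)) k z σ) * GG T Φ z s x := by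
  have hσ : 0 < σ := hs.trans_le h
  obtain ⟨mA, a1, a2, a3⟩ := exists_min b T Φ k z hs
  obtain ⟨mB, b1, b2, b3⟩ := exists_min b T Φ k z hσ
  set R := Real.exp (ww T (fun l => Φ (b l)) k z s - ww T (fun l => Φ (b l)) k z σ) with hRdef
  have hR : 1 ≤ R := Real.one_le_exp (sub_nonneg.2 (ww_anti b k hs h))
  set c := ⟪b k, x⟫_ℂ with hc
  set al := ‖c‖ ^ 2 * Real.exp (-ww T (fun l => Φ (b l)) k z s) with hal
  have hal0 : 0 ≤ al := by positivity
  have hRal : ‖c‖ ^ 2 * Real.exp (-ww T (fun l => Φ (b l)) k z σ) = R * al := by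
    rw [hal, hRdef, mul_left_comm, ← Real.exp_add]
    congr 2
    ring
  have hd : Tl b (k + 1) (mB - mA) := by
    have := b1.succ a1 a2
    rwa [b2, one_smul] at this
  have hD := flag_tl_smul hd c
  set D := c • (mB - mA) with hDdef
  have hA : ∀ y, Tl b (k + 1) y → GG T Φ z s (c • mB + y) = al + GG T Φ z s (y + D) := by
    intro y hy
    have e : c • mB + y = c • mA + (y + D) := by rw [hDdef, smul_sub]; abel
    rw [e, a3 c _ (flag_tl_add hy hD)]
  have hB : ∀ y, Tl b (k + 1) y → GG T Φ z σ (c • mB + y) ≤ R * al + lam * GG T Φ z s y := by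
    intro y hy
    rw [b3 c y hy, hRal]
    have := ih y hy
    linarith
  have hu := hx.succ b1 b2
  rw [← hc] at hu
  set v := x - c • mB with hv
  have hxv : x = c • mB + v := by rw [hv]; abel
  have key : lam * GG T Φ z s v ≤ (lam - 1) * R * al + lam * R * GG T Φ z s (v + D) := by
    rw [← gn_sq hs v, ← gn_sq hs (v + D)]
    set a := gn T Φ z s v with ha
    set be := gn T Φ z s (v + D) with hbe
    have ha0 : 0 ≤ a := gn_nonneg _
    have hbe0 : 0 ≤ be := gn_nonneg _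
    have hl1 : 0 < lam - 1 := by linarith
    rcases le_or_gt a be with hle | hlt
    · have h1 : a ^ 2 ≤ be ^ 2 := pow_le_pow_left₀ ha0 hle 2
      have h2 : 0 ≤ (lam - 1) * R * al := by positivity
      have h3 : be ^ 2 ≤ R * be ^ 2 := le_mul_of_one_le_left (by positivity) hR
      nlinarith
    · have hapos : 0 < a := hbe0.trans_lt hlt
      set e := (a - be) / (lam - 1) with he
      have hepos : 0 < e := div_pos (by linarith) hl1
      have hae : a = be + (lam - 1) * e := by rw [he]; field_simp; ring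
      set κ := e / a with hκ
      have hκ0 : 0 < κ := div_pos hepos hapos
      have hκa : κ * a = e := by rw [hκ]; field_simp
      have hy : Tl b (k + 1) (((-κ : ℝ) : ℂ) • v) := flag_tl_smul hu _
      have h1 := GG_mono (T := T) (Φ := Φ) (z := z) hs h (c • mB + ((-κ : ℝ) : ℂ) • v)
      rw [hA _ hy] at h1
      have h2 := hB _ hy
      rw [GG_smul hs, ← gn_sq hs v, ← ha, Complex.norm_real, Real.norm_eq_abs, sq_abs] at h2
      have h3 := gn_sub_le (T := T) (Φ := Φ) (z := z) hs (v + D) (((-κ : ℝ) : ℂ) • v + D)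
      have e3 : v + D - (((-κ : ℝ) : ℂ) • v + D) = ((1 + κ : ℝ) : ℂ) • v := by
        push_cast
        rw [add_smul, one_smul, neg_smul]; abel
      rw [e3, gn_smul hs, Complex.norm_real, Real.norm_eq_abs, abs_of_pos (by linarith), ← ha,
        ← hbe] at h3
      rw [← gn_sq hs (((-κ : ℝ) : ℂ) • v + D)] at h1
      set g := gn T Φ z s (((-κ : ℝ) : ℂ) • v + D) with hg
      have h4 : lam * e ≤ g := by nlinarith
      have h5 : (lam * e) ^ 2 ≤ g ^ 2 := pow_le_pow_left₀ (by positivity) h4 2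
      have h6 : (-κ) ^ 2 * a ^ 2 = e ^ 2 := by rw [← hκa]; ring
      rw [h6] at h2
      rw [hae]
      exact flag_real hlam hR hepos (by nlinarith)
  have f1 := hA v hu
  have f2 := hB v hu
  rw [← hxv] at f1 f2
  rw [f1]
  nlinarith

/-- The determinant bound. -/
theorem det_bound (b : HilbertBasis ℕ ℂ H) (hsum : Summable fun j => ‖Φ (b j)‖ ^ 2) (hs : 0 < s)
    (h : s ≤ σ) {n : ℕ} {a : H} (ha : Tl b n a) :
    GG T Φ z σ a ≤ Real.exp (∑' j, (ww T (fun l => Φ (b l)) (j + n) z s -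
      ww T (fun l => Φ (b l)) (j + n) z σ)) * GG T Φ z s a := by
  have hσ : 0 < σ := hs.trans_le h
  set δ : ℕ → ℝ := fun j => ww T (fun l => Φ (b l)) j z s - ww T (fun l => Φ (b l)) j z σ with hδ
  have hδ0 : ∀ j, 0 ≤ δ j := fun j => sub_nonneg.2 (ww_anti b j hs h)
  have hδs : Summable δ := by
    refine Summable.of_nonneg_of_le hδ0 (fun j => ?_) (hsum.div_const s)
    have h1 := ww_le (T := T) (fun l => Φ (b l)) j z hs
    have h2 := ww_nonneg (T := T) (fun l => Φ (b l)) j z hσ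
    simp only [hδ]
    linarith
  have hδn : Summable fun j => δ (j + n) := (summable_nat_add_iff n).2 hδs
  have hA0 := GG_nonneg (T := T) (Φ := Φ) (z := z) hs a
  have main : ∀ ε : ℝ, 0 < ε →
      GG T Φ z σ a ≤ (1 + ε) * (Real.exp (∑' j, δ (j + n)) * GG T Φ z s a) := by
    intro ε hε
    have hlim := tendsto_sum_nat_add fun j => ‖Φ (b j)‖ ^ 2
    have hpos : 0 < s * (ε / (1 + ε)) := by positivity
    obtain ⟨N, hN1, hN2⟩ := ((hlim.eventually (gt_mem_nhds hpos)).and (eventually_ge_atTop n)).exists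
    have base : ∀ y, Tl b N y → GG T Φ z σ y ≤ (1 + ε) * GG T Φ z s y := by
      intro y hy
      have h1 := norm_tl_le b hsum hy
      have h2 := GG_ge (T := T) (Φ := Φ) (z := z) hs y
      have h3 : GG T Φ z σ y ≤ ‖y‖ ^ 2 := by
        rw [← gn_sq hσ]
        exact pow_le_pow_left₀ (gn_nonneg _) (gn_le_norm hσ y) 2
      have h4 : ‖Φ y‖ ^ 2 / s ≤ ε / (1 + ε) * ‖y‖ ^ 2 := by
        rw [div_le_iff₀ hs]
        have := mul_le_mul_of_nonneg_right hN1.le (sq_nonneg ‖y‖)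
        linarith
      have h5 : (1 + ε) * (‖y‖ ^ 2 - ε / (1 + ε) * ‖y‖ ^ 2) = ‖y‖ ^ 2 := by
        field_simp
        ring
      have h6 : (1 + ε) * (‖y‖ ^ 2 - ε / (1 + ε) * ‖y‖ ^ 2) ≤ (1 + ε) * GG T Φ z s y :=
        mul_le_mul_of_nonneg_left (by linarith) (by positivity)
      linarith
    have ind : ∀ i k, k + i = N → ∀ y, Tl b k y →
        GG T Φ z σ y ≤ (1 + ε) * Real.exp (∑ j ∈ Finset.range i, δ (j + k)) * GG T Φ z s y := by
      intro i
      induction i with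
      | zero =>
        intro k hk y hy
        rw [add_zero] at hk
        subst hk
        simpa using base y hy
      | succ i ih =>
        intro k hk y hy
        have h1 : 1 ≤ Real.exp (∑ j ∈ Finset.range i, δ (j + (k + 1))) :=
          Real.one_le_exp (Finset.sum_nonneg fun j _ => hδ0 _)
        have h2 := flag_step (T := T) (Φ := Φ) (z := z) b hs h (by nlinarith)
          (ih (k + 1) (by omega)) hy
        have e : ∑ j ∈ Finset.range (i + 1), δ (j + k) =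
            ∑ j ∈ Finset.range i, δ (j + (k + 1)) + δ k := by
          rw [Finset.sum_range_succ', zero_add]
          congr 1
          exact Finset.sum_congr rfl fun j _ => by rw [add_assoc, add_comm 1 k]
        rw [e, Real.exp_add, ← mul_assoc]
        exact h2
    have h1 := ind (N - n) n (by omega) a ha
    have h2 : Real.exp (∑ j ∈ Finset.range (N - n), δ (j + n)) ≤ Real.exp (∑' j, δ (j + n)) :=
      Real.exp_le_exp.2 (hδn.sum_le_tsum _ fun j _ => hδ0 _)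
    rw [mul_assoc] at h1
    exact h1.trans (mul_le_mul_of_nonneg_left (mul_le_mul_of_nonneg_right h2 hA0) (by positivity))
  have hlim : Tendsto (fun ε : ℝ => (1 + ε) * (Real.exp (∑' j, δ (j + n)) * GG T Φ z s a))
      (𝓝[>] 0) (𝓝 ((1 + 0) * (Real.exp (∑' j, δ (j + n)) * GG T Φ z s a))) :=
    (((continuous_const.add continuous_id).mul continuous_const).tendsto 0).mono_left
      nhdsWithin_le_nhds
  have := ge_of_tendsto hlim (eventually_nhdsWithin_of_forall fun ε hε => main ε hε)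
  simpa using this

end Pool.Agent.Lib.MP_45cb44_an.Hy
end

-- part Pool.Agent.Lib.MP_45cb44_an.HyTrace
section

/-! The total flux is at least the trace of the self-commutator. -/

namespace Pool.Agent.Lib.MP_45cb44_an.Hy

open MeasureTheory Metric Set Filter Topology InnerProductSpace
open scoped InnerProductSpace ComplexConjugate ENNReal

variable {H : Type*} [NormedAddCommGroup H] [InnerProductSpace ℂ H] [CompleteSpace H]
  {T Φ Ψ : H →L[ℂ] H}

omit [CompleteSpace H] in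
lemma tr_pars (b : HilbertBasis ℕ ℂ H) (x : H) :
    HasSum (fun i => ‖⟪b i, x⟫_ℂ‖ ^ 2) (‖x‖ ^ 2) := by
  have h := Complex.hasSum_re (b.hasSum_inner_mul_inner x x)
  rw [bas_self, Complex.ofReal_re] at h
  have e : ∀ i, (⟪x, b i⟫_ℂ * ⟪b i, x⟫_ℂ).re = ‖⟪b i, x⟫_ℂ‖ ^ 2 := fun i => by
    rw [← inner_conj_symm x, Complex.conj_mul', ← Complex.ofReal_pow, Complex.ofReal_re]
  simpa only [e] using h

/-- The Hilbert-Schmidt norm is invariant under adjoints. -/
theorem hs_star (b : HilbertBasis ℕ ℂ H) {X : H →L[ℂ] H} (h : Summable fun j => ‖X (b j)‖ ^ 2) :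
    HasSum (fun j => ‖star X (b j)‖ ^ 2) (∑' j, ‖X (b j)‖ ^ 2) := by
  have h1 : Summable fun p : ℕ × ℕ => ‖⟪b p.2, X (b p.1)⟫_ℂ‖ ^ 2 := by
    rw [summable_prod_of_nonneg fun p => by positivity]
    refine ⟨fun j => (tr_pars b (X (b j))).summable, ?_⟩
    simpa only [(tr_pars b (X (b _))).tsum_eq] using h
  have h2 := h1.hasSum.prod_fiberwise fun j => tr_pars b (X (b j))
  rw [h2.tsum_eq]
  have h3 := (Equiv.prodComm ℕ ℕ).hasSum_iff.2 h1.hasSum
  refine h3.prod_fiberwise fun i => ?_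
  have h4 := tr_pars b (star X (b i))
  simp only [bas_sr] at h4
  simpa only [Function.comp_apply, Equiv.prodComm_apply, Prod.swap_prod_mk, norm_inner_symm (b i)]
    using h4

lemma tr_polar (b : HilbertBasis ℕ ℂ H) {X Y : H →L[ℂ] H} (hX : Summable fun j => ‖X (b j)‖ ^ 2)
    (hY : Summable fun j => ‖Y (b j)‖ ^ 2) :
    HasSum (fun j => (⟪star X (b j), star Y (b j)⟫_ℂ).re) (∑' j, (⟪X (b j), Y (b j)⟫_ℂ).re) := by
  have hXY : Summable fun j => ‖(X + Y) (b j)‖ ^ 2 := by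
    refine Summable.of_nonneg_of_le (fun j => by positivity) (fun j => ?_)
      ((hX.add hY).mul_left 2)
    have h1 : ‖(X + Y) (b j)‖ ≤ ‖X (b j)‖ + ‖Y (b j)‖ := norm_add_le _ _
    have h2 := pow_le_pow_left₀ (norm_nonneg _) h1 2
    nlinarith [sq_nonneg (‖X (b j)‖ - ‖Y (b j)‖)]
  have e : ∀ x y : H, (⟪x, y⟫_ℂ).re = (‖x + y‖ ^ 2 - ‖x‖ ^ 2 - ‖y‖ ^ 2) / 2 := fun x y => by
    rw [bas_add_sq]; ring
  have h1 := (((hs_star b hXY).sub (hs_star b hX)).sub (hs_star b hY)).div_const 2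
  have h2 := ((hXY.hasSum.sub hX.hasSum).sub hY.hasSum).div_const 2
  simp only [star_add, add_apply] at h1 h2
  simp only [e]
  rwa [h2.tsum_eq]

lemma tr_div {g g' : ℂ → ℝ} {v : ℂ} {C : ℝ} (hv : ‖v‖ = 1)
    (hd : ∀ z, HasDerivAt (fun t : ℝ => g (z + t • v)) (g' z) 0) (c0 : Continuous g)
    (c1 : Continuous g') (b0 : ∀ z, |g z| ≤ C / (‖z‖ ^ 2 + 1))
    (b1 : ∀ z, |g' z| ≤ C / (‖z‖ ^ 2 + 1)) :
    (∀ n : ℕ, Integrable (fun z => (n + 1) / (‖z‖ ^ 2 + (n + 1)) * g' z) mm) ∧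
    Tendsto (fun n : ℕ => ∫ z, (n + 1) / (‖z‖ ^ 2 + (n + 1)) * g' z ∂mm) atTop (𝓝 0) := by
  have hC : 0 ≤ C := by simpa using (abs_nonneg _).trans (b0 0)
  let k : ℕ → ℂ → ℝ := fun n z => (n + 1) / (‖z‖ ^ 2 + (n + 1))
  let k1 : ℕ → ℂ → ℝ := fun n z => -((n + 1) * (2 * (z * conj v).re)) / (‖z‖ ^ 2 + (n + 1)) ^ 2
  have hre : ∀ z : ℂ, |(z * conj v).re| ≤ ‖z‖ := fun z =>
    (Complex.abs_re_le_norm _).trans (by simp [hv])
  have hpos : ∀ (n : ℕ) (z : ℂ), 0 < ‖z‖ ^ 2 + ((n : ℝ) + 1) := fun n z => by positivity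
  have ck : ∀ n, Continuous (k n) := fun n =>
    continuous_const.div (by fun_prop) fun z => (hpos n z).ne'
  have ck1 : ∀ n, Continuous (k1 n) := fun n =>
    Continuous.div (by fun_prop) (by fun_prop) fun z => (pow_pos (hpos n z) 2).ne'
  have bk : ∀ n z, |k n z| ≤ (n + 1) / (‖z‖ ^ 2 + 1) := fun n z => by
    rw [abs_of_nonneg (by positivity)]
    have : (0 : ℝ) ≤ n := n.cast_nonneg
    exact div_le_div_of_nonneg_left (by positivity) (by positivity) (by linarith)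
  have bk1 : ∀ n z, |k1 n z| ≤ (n + 1) / (‖z‖ ^ 2 + (n + 1)) * (2 * ‖z‖ / (‖z‖ ^ 2 + (n + 1))) :=
    fun n z => by
      rw [abs_div, abs_neg, abs_mul, abs_mul, abs_two, abs_of_pos (pow_pos (hpos n z) 2),
        abs_of_nonneg (by positivity : (0 : ℝ) ≤ n + 1), div_mul_div_comm, ← sq]
      gcongr
      exact hre z
  have q1 : ∀ (n : ℕ) (z : ℂ), ((n : ℝ) + 1) / (‖z‖ ^ 2 + (n + 1)) ≤ 1 := fun n z =>
    (div_le_one (hpos n z)).2 (by nlinarith [sq_nonneg ‖z‖])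
  have q2 : ∀ (n : ℕ) (z : ℂ), 2 * ‖z‖ / (‖z‖ ^ 2 + (n + 1)) ≤ 1 := fun n z =>
    (div_le_one (hpos n z)).2 (by
      have : (0 : ℝ) ≤ n := n.cast_nonneg
      nlinarith [sq_nonneg (‖z‖ - 1)])
  have bk1' : ∀ n z, |k1 n z| ≤ (n + 1) / (‖z‖ ^ 2 + 1) := fun n z =>
    ((bk1 n z).trans (mul_le_of_le_one_right (by positivity) (q2 n z))).trans
      ((le_abs_self _).trans (bk n z))
  have dk : ∀ n z, HasDerivAt (fun t : ℝ => k n (z + t • v)) (k1 n z) 0 := fun n z => by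
    have e : ∀ t : ℝ, ‖z + t • v‖ ^ 2 = ‖z‖ ^ 2 + t * (2 * (z * conj v).re) + t ^ 2 := fun t => by
      have h2 : v.re ^ 2 + v.im ^ 2 = 1 := by
        have := Complex.sq_norm v
        rw [hv, Complex.normSq_apply] at this
        nlinarith
      simp only [Complex.sq_norm, Complex.normSq_apply, Complex.add_re, Complex.add_im,
        Complex.real_smul, Complex.mul_re, Complex.mul_im, Complex.ofReal_re, Complex.ofReal_im,
        Complex.conj_re, Complex.conj_im]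
      linear_combination t ^ 2 * h2
    have h1 : HasDerivAt (fun t : ℝ => ‖z‖ ^ 2 + t * (2 * (z * conj v).re) + t ^ 2 + ((n : ℝ) + 1))
        (2 * (z * conj v).re) 0 := by
      simpa using ((((hasDerivAt_id (0 : ℝ)).mul_const (2 * (z * conj v).re)).const_add
        (‖z‖ ^ 2)).add (hasDerivAt_pow 2 (0 : ℝ))).add_const ((n : ℝ) + 1)
    have h2 := (hasDerivAt_const (0 : ℝ) ((n : ℝ) + 1)).div h1 (by simpa using (hpos n z).ne')
    simp only [k, e]
    refine h2.congr_deriv ?_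
    simp [k1]
  have i1 := fun n => integrable_mul_decay (ck n) c1 (bk n) b1
  refine ⟨i1, ?_⟩
  have e1 : ∀ n, ∫ z, k n z * g' z ∂mm = -∫ z, k1 n z * g z ∂mm := fun n =>
    integral_bilinear_hasLineDerivAt_right_eq_neg_left_of_integrable (μ := mm) (v := v)
      (B := ContinuousLinearMap.mul ℝ ℝ) (f := k n) (f' := k1 n) (g := g) (g' := g')
      (integrable_mul_decay (ck1 n) c0 (bk1' n) b0) (i1 n)
      (integrable_mul_decay (ck n) c0 (bk n) b0) (fun z _ => dk n z) (fun z _ => hd z)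
  have hI : Integrable (fun z : ℂ => 8 * C * (1 + ‖z‖) ^ (-(3 : ℝ))) mm :=
    (integrable_one_add_norm (by simp; norm_num)).const_mul _
  have h3 := tendsto_integral_of_dominated_convergence (μ := mm) (F := fun n z => k1 n z * g z)
    (f := fun _ => 0) _ (fun n => ((ck1 n).mul c0).aestronglyMeasurable) hI
    (fun n => .of_forall fun z => ?_) (.of_forall fun z => ?_)
  · simp only [integral_zero] at h3
    simpa only [← e1, neg_zero] using h3.neg
  · rw [Real.norm_eq_abs, abs_mul, Real.rpow_neg (by positivity), ← div_eq_mul_inv]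
    have h4 : |k1 n z| ≤ 2 * ‖z‖ / (‖z‖ ^ 2 + 1) := by
      refine ((bk1 n z).trans (mul_le_of_le_one_left (by positivity) (q1 n z))).trans ?_
      have : (0 : ℝ) ≤ n := n.cast_nonneg
      exact div_le_div_of_nonneg_left (by positivity) (by positivity) (by linarith)
    refine (mul_le_mul h4 (b0 z) (abs_nonneg _) (by positivity)).trans ?_
    rw [div_mul_div_comm, div_le_div_iff₀ (by positivity) (by positivity),
      show (3 : ℝ) = ((3 : ℕ) : ℝ) by norm_num, Real.rpow_natCast]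
    have h5 : (1 + ‖z‖) ^ 2 ≤ 2 * (‖z‖ ^ 2 + 1) := by nlinarith [sq_nonneg (‖z‖ - 1)]
    have h6 : ‖z‖ * (1 + ‖z‖) ≤ 2 * (‖z‖ ^ 2 + 1) := by nlinarith [sq_nonneg (‖z‖ - 1)]
    have h7 := mul_le_mul h6 h5 (by positivity) (by positivity)
    have h8 := mul_le_mul_of_nonneg_left h7 hC
    nlinarith
  · have h4 : Tendsto (fun n : ℕ => 2 * ‖z‖ / (‖z‖ ^ 2 + ((n : ℝ) + 1)) * |g z|) atTop (𝓝 0) := by
      have := (tendsto_const_nhds (x := 2 * ‖z‖)).div_atTop (tendsto_atTop_add_const_left _ (‖z‖ ^ 2)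
        (tendsto_atTop_add_const_right _ 1 tendsto_natCast_atTop_atTop))
      simpa using this.mul_const |g z|
    refine squeeze_zero_norm (fun n => ?_) h4
    rw [Real.norm_eq_abs, abs_mul]
    exact mul_le_mul_of_nonneg_right
      ((bk1 n z).trans (mul_le_of_le_one_left (by positivity) (q1 n z))) (abs_nonneg _)

lemma tr_div2 {g g' : ℂ → ℂ → ℝ} {C : ℝ}
    (hd : ∀ v z, HasDerivAt (fun t : ℝ => g v (z + t • v)) (g' v z) 0) (c0 : ∀ v, Continuous (g v))
    (c1 : ∀ v, Continuous (g' v)) (b0 : ∀ v, ‖v‖ = 1 → ∀ z, |g v z| ≤ C / (‖z‖ ^ 2 + 1))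
    (b1 : ∀ v, ‖v‖ = 1 → ∀ z, |g' v z| ≤ C / (‖z‖ ^ 2 + 1))
    (hi : Integrable (fun z => g' 1 z + g' Complex.I z) mm) :
    ∫ z, (g' 1 z + g' Complex.I z) ∂mm = 0 := by
  obtain ⟨a1, a2⟩ := tr_div norm_one (hd 1) (c0 1) (c1 1) (b0 1 norm_one) (b1 1 norm_one)
  obtain ⟨a3, a4⟩ := tr_div Complex.norm_I (hd _) (c0 _) (c1 _) (b0 _ Complex.norm_I)
    (b1 _ Complex.norm_I)
  have h1 := a2.add a4
  simp only [← integral_add (a1 _) (a3 _), add_zero] at h1
  refine tendsto_nhds_unique (tendsto_integral_of_dominated_convergence _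
    (fun n => ((a1 n).add (a3 n)).1) hi.norm (fun n => .of_forall fun z => ?_)
    (.of_forall fun z => ?_)) h1
  · rw [Pi.add_apply, ← mul_add, norm_mul]
    refine mul_le_of_le_one_left (norm_nonneg _) ?_
    rw [Real.norm_of_nonneg (by positivity)]
    exact (div_le_one (by positivity)).2 (by nlinarith [sq_nonneg ‖z‖])
  · have h4 : Tendsto (fun n : ℕ => 1 - ‖z‖ ^ 2 / (‖z‖ ^ 2 + ((n : ℝ) + 1))) atTop (𝓝 (1 - 0)) :=
      ((tendsto_const_nhds (x := ‖z‖ ^ 2)).div_atTop (tendsto_atTop_add_const_left _ (‖z‖ ^ 2)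
        (tendsto_atTop_add_const_right _ 1 tendsto_natCast_atTop_atTop))).const_sub 1
    have h5 := h4.mul_const (g' 1 z + g' Complex.I z)
    rw [sub_zero, one_mul] at h5
    refine h5.congr fun n => ?_
    rw [Pi.add_apply]
    field_simp
    ring

/-- The potential whose derivative is the density of the resolution of the identity. -/
noncomputable def trF (T : H →L[ℂ] H) (s : ℝ) (ψ : H) (v z : ℂ) : ℝ :=
  (v * om ψ (star (SS T z) * RR T z s)).re

/-- Its directional derivative. -/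
noncomputable def trD (T : H →L[ℂ] H) (s : ℝ) (ψ : H) (v z : ℂ) : ℝ :=
  (v * om ψ (-(conj v • RR T z s) - star (SS T z) * (RR T z s * EE T v z * RR T z s))).re

omit [CompleteSpace H] in
lemma tr_zero : (0 : H →L[ℂ] H).IsPositive := ContinuousLinearMap.isPositive_zero

lemma tr_FF (T : H →L[ℂ] H) (z : ℂ) (s : ℝ) : FF T 0 z s = RR T z s := by
  simp only [FF, LL, RR, PP, add_zero]

lemma tr_deriv (T : H →L[ℂ] H) {s : ℝ} (hs : 0 < s) (ψ : H) (v z : ℂ) :
    HasDerivAt (fun t : ℝ => trF T s ψ v (z + t • v)) (trD T s ψ v z) 0 := by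
  obtain ⟨R, E, hR, -, dR, -⟩ := path_z T v z hs
  let b : ℂ → H →L[ℂ] H := fun t => star (SS T z) - (t * conj v) • 1
  have hb : HasDerivAt b (-(conj v • 1)) 0 := by
    simpa using (((hasDerivAt_id (0 : ℂ)).mul_const (conj v)).smul_const
      (1 : H →L[ℂ] H)).const_sub (star (SS T z))
  have eb : ∀ t : ℝ, b t = star (SS T (z + t • v)) := fun t => by
    simp only [b, star_SS, Complex.real_smul, map_add, map_mul, Complex.conj_ofReal, add_smul]; abel
  have h1 := ((om ψ).hasFDerivAt.comp_hasDerivAt _ (hb.mul dR)).const_mul v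
  rw [← Complex.ofReal_zero] at h1
  have h2 := h1.real_of_complex
  simp only [Function.comp_apply, Pi.mul_apply, hR, eb] at h2
  refine h2.congr_deriv ?_
  rw [trD]
  simp only [zero_smul, add_zero, neg_mul, smul_mul_assoc, one_mul, mul_neg, sub_eq_add_neg]

lemma tr_comm (T : H →L[ℂ] H) {s : ℝ} (hs : 0 < s) (z : ℂ) :
    star (SS T z) * RR T z s * SS T z * RR T z s =
      RR T z s - (s : ℂ) • (RR (star T) (conj z) s * RR T z s) := by
  have h1 : PP T z s * RR T z s = 1 := Ring.mul_inverse_cancel _ (unit_PP_pos T z hs).1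
  have h2 : RR (star T) (conj z) s * PP (star T) (conj z) s = 1 :=
    Ring.inverse_mul_cancel _ (unit_PP_pos _ _ hs).1
  rw [PP, SS_star, star_star] at h2
  rw [PP] at h1
  set S := SS T z
  set R := RR T z s
  set R' := RR (star T) (conj z) s
  have b1 : star S * R = R' * star S := by
    calc star S * R = R' * (star S * S + (s : ℂ) • 1) * star S * R := by rw [h2, one_mul]
      _ = R' * star S * ((S * star S + (s : ℂ) • 1) * R) := by
        simp only [mul_add, add_mul, mul_assoc, mul_smul_comm, smul_mul_assoc, one_mul, mul_one]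
      _ = R' * star S := by rw [h1, mul_one]
  have b2 : star S * R * S = 1 - (s : ℂ) • R' := by
    rw [b1, ← h2, mul_add, mul_smul_comm, mul_one, mul_assoc]; abel
  rw [b2, sub_mul, one_mul, smul_mul_assoc]

lemma tr_lap (T : H →L[ℂ] H) {s : ℝ} (hs : 0 < s) (ψ : H) (z : ℂ) :
    trD T s ψ 1 z + trD T s ψ Complex.I z =
      -2 * (s * (⟪FF T 0 z s ψ, FF (star T) 0 (conj z) s ψ⟫_ℂ).re) := by
  have e : ⟪FF (star T) 0 (conj z) s ψ, FF T 0 z s ψ⟫_ℂ =
      om ψ (RR (star T) (conj z) s * RR T z s) := by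
    rw [inner_FF_symm tr_zero, tr_FF, tr_FF]; rfl
  have h := congrArg (om ψ) (tr_comm T hs z)
  rw [bas_re_symm, e, trD, trD, ← Complex.add_re]
  have e2 : ∀ w : ℂ, -2 * (s * w.re) = (-2 * (s * w)).re := fun w => by simp
  rw [e2]
  congr 1
  simp only [EE, map_one, one_smul, Complex.conj_I, mul_neg, neg_mul, mul_add, add_mul, map_sub,
    map_neg, map_add, map_smul, neg_smul, mul_smul_comm, smul_mul_assoc, smul_eq_mul,
    ← mul_assoc] at h ⊢
  linear_combination (2 : ℂ) * h + (om ψ (star (SS T z) * RR T z s * star (SS T z) * RR T z s) -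
    om ψ (star (SS T z) * RR T z s * SS T z * RR T z s) + om ψ (RR T z s)) * Complex.I_mul_I

lemma tr_norm_SS (T : H →L[ℂ] H) (z : ℂ) : ‖SS T z‖ ≤ ‖T‖ + ‖z‖ := by
  refine (norm_sub_le _ _).trans (add_le_add le_rfl ?_)
  rw [norm_smul]
  exact mul_le_of_le_one_right (norm_nonneg _) ContinuousLinearMap.norm_id_le

lemma tr_decay (T : H →L[ℂ] H) {s : ℝ} (hs : 0 < s) :
    ∃ C, 0 ≤ C ∧ ∀ B : H →L[ℂ] H, B.IsPositive → ∀ z, ‖FF T B z s‖ ≤ C / (‖z‖ ^ 2 + 1) := by
  refine ⟨2 + (2 * ‖T‖ ^ 2 + 1) / s, by positivity, fun B hB z =>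
    norm_FF_decay hB z one_pos (le_add_of_nonneg_right (by positivity)) ?_⟩
  rw [add_mul, div_mul_cancel₀ _ hs.ne']
  linarith

omit [CompleteSpace H] in
lemma tr_abs (ψ : H) {v : ℂ} (hv : ‖v‖ = 1) (X : H →L[ℂ] H) :
    |(v * om ψ X).re| ≤ ‖ψ‖ ^ 2 * ‖X‖ := by
  refine (Complex.abs_re_le_norm _).trans ?_
  rw [norm_mul, hv, one_mul]
  exact norm_om_le ψ X

lemma tr_D_le (T : H →L[ℂ] H) {s : ℝ} (hs : 0 < s) (ψ : H) :
    ∃ C, ∀ v, ‖v‖ = 1 → ∀ z, |trD T s ψ v z| ≤ C / (‖z‖ ^ 2 + 1) := by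
  obtain ⟨C, hC, h⟩ := tr_decay T hs
  refine ⟨‖ψ‖ ^ 2 * (C + 2 * (‖T‖ ^ 2 + 1) * C ^ 2), fun v hv z => (tr_abs ψ hv _).trans ?_⟩
  rw [mul_div_assoc]
  refine mul_le_mul_of_nonneg_left ?_ (by positivity)
  have h1 := h 0 tr_zero z
  rw [tr_FF] at h1
  have h2 := tr_norm_SS T z
  have h3 : ‖EE T v z‖ ≤ 2 * (‖T‖ + ‖z‖) := by
    rw [EE, norm_neg]
    refine (norm_add_le _ _).trans ?_
    rw [norm_smul, norm_smul, norm_star, Complex.norm_conj, hv]
    linarith
  have h4 : (‖T‖ + ‖z‖) ^ 2 ≤ (‖T‖ ^ 2 + 1) * (‖z‖ ^ 2 + 1) := by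
    nlinarith [sq_nonneg (‖T‖ * ‖z‖ - 1)]
  have h5 : ‖star (SS T z) * (RR T z s * EE T v z * RR T z s)‖ ≤
      (‖T‖ + ‖z‖) * (C / (‖z‖ ^ 2 + 1) * (2 * (‖T‖ + ‖z‖)) * (C / (‖z‖ ^ 2 + 1))) := by
    refine (norm_mul_le _ _).trans (mul_le_mul (by rwa [norm_star]) ((norm_mul_le _ _).trans
      (mul_le_mul ((norm_mul_le _ _).trans ?_) h1 (norm_nonneg _) (by positivity)))
      (norm_nonneg _) (by positivity))
    exact mul_le_mul h1 h3 (norm_nonneg _) (by positivity)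
  refine (norm_sub_le _ _).trans ?_
  rw [norm_neg, norm_smul, Complex.norm_conj, hv, one_mul, add_div]
  refine add_le_add h1 (h5.trans ?_)
  calc _ = 2 * (‖T‖ + ‖z‖) ^ 2 * (C / (‖z‖ ^ 2 + 1)) ^ 2 := by ring
    _ ≤ 2 * ((‖T‖ ^ 2 + 1) * (‖z‖ ^ 2 + 1)) * (C / (‖z‖ ^ 2 + 1)) ^ 2 := by gcongr
    _ = _ := by field_simp

lemma tr_RR_zero {s : ℝ} (hs : 0 < s) (z : ℂ) :
    RR (0 : H →L[ℂ] H) z s = (((‖z‖ ^ 2 + s)⁻¹ : ℝ) : ℂ) • 1 := by
  have h1 : PP (0 : H →L[ℂ] H) z s * RR 0 z s = 1 :=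
    Ring.mul_inverse_cancel _ (unit_PP_pos _ z hs).1
  have h2 : PP (0 : H →L[ℂ] H) z s = ((‖z‖ ^ 2 + s : ℝ) : ℂ) • 1 := by
    rw [PP, star_SS, SS]
    simp only [star_zero, zero_sub, mul_neg, neg_mul, neg_neg, smul_mul_assoc, one_mul, smul_smul,
      Complex.mul_conj', Complex.ofReal_add, Complex.ofReal_pow, add_smul]
  rw [h2, smul_mul_assoc, one_mul] at h1
  rw [← h1, smul_smul, ← Complex.ofReal_mul, inv_mul_cancel₀ (by positivity), Complex.ofReal_one,
    one_smul]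

lemma tr_F_le (T : H →L[ℂ] H) {s : ℝ} (hs : 0 < s) (ψ : H) :
    ∃ C, ∀ v, ‖v‖ = 1 → ∀ z, |trF T s ψ v z - trF 0 s ψ v z| ≤ C / (‖z‖ ^ 2 + 1) := by
  obtain ⟨C, hC, h⟩ := tr_decay T hs
  refine ⟨‖ψ‖ ^ 2 * ((3 * ‖T‖ + (1 + s⁻¹) * ‖T‖ ^ 2) * C), fun v hv z => ?_⟩
  rw [trF, trF, ← Complex.sub_re, ← mul_sub, ← map_sub]
  refine (tr_abs ψ hv _).trans ?_
  rw [mul_div_assoc, mul_div_assoc]
  refine mul_le_mul_of_nonneg_left ?_ (by positivity)
  have h1 := h 0 tr_zero z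
  rw [tr_FF] at h1
  have h2 : PP T z s * RR T z s = 1 := Ring.mul_inverse_cancel _ (unit_PP_pos T z hs).1
  have h0 : 0 < ‖z‖ ^ 2 + s := by positivity
  set r : ℝ := (‖z‖ ^ 2 + s)⁻¹ with hr
  have e : star (SS T z) * RR T z s - star (SS 0 z) * RR 0 z s =
      (star T + (r * conj z : ℂ) • (T * star T - conj z • T - z • star T)) * RR T z s := by
    have e1 : star (SS (0 : H →L[ℂ] H) z) * RR 0 z s = -((r * conj z : ℂ) • (PP T z s * RR T z s)) := by
      rw [h2, tr_RR_zero hs, star_SS, ← hr]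
      simp only [star_zero, zero_sub, neg_mul, smul_mul_assoc, one_mul, smul_smul, mul_comm]
    have e2 : (r : ℂ) * (z * conj z + s) = 1 := by
      rw [Complex.mul_conj', ← Complex.ofReal_pow, ← Complex.ofReal_add, ← Complex.ofReal_mul, hr,
        inv_mul_cancel₀ h0.ne', Complex.ofReal_one]
    rw [e1, sub_neg_eq_add, ← smul_mul_assoc, ← add_mul, PP, star_SS, SS]
    congr 1
    simp only [sub_mul, mul_sub, smul_mul_assoc, mul_smul_comm, one_mul, mul_one]
    linear_combination (norm := module) (conj z) • congrArg (· • (1 : H →L[ℂ] H)) e2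
  rw [e]
  refine (norm_mul_le _ _).trans (mul_le_mul ?_ h1 (norm_nonneg _) (by positivity))
  have h3 : ‖T * star T - conj z • T - z • star T‖ ≤ ‖T‖ ^ 2 + 2 * (‖z‖ * ‖T‖) := by
    have h4 := norm_mul_le T (star T)
    have h5 := norm_sub_le (T * star T - conj z • T) (z • star T)
    have h6 := norm_sub_le (T * star T) (conj z • T)
    rw [norm_smul, norm_star] at h5
    rw [norm_smul, Complex.norm_conj] at h6
    rw [norm_star] at h4
    linarith
  have h4 : r * ‖z‖ ≤ 1 + s⁻¹ := by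
    rw [hr, inv_mul_le_iff₀ h0]
    have : s * s⁻¹ = 1 := mul_inv_cancel₀ hs.ne'
    have h5 : 0 < s⁻¹ := inv_pos.2 hs
    nlinarith [sq_nonneg (‖z‖ - 1), mul_nonneg h5.le (sq_nonneg ‖z‖)]
  have h5 : r * ‖z‖ ^ 2 ≤ 1 := by
    rw [hr, inv_mul_le_iff₀ h0]
    linarith
  refine (norm_add_le _ _).trans ?_
  rw [norm_star, norm_smul, norm_mul, Complex.norm_conj, Complex.norm_real,
    Real.norm_of_nonneg (inv_pos.2 h0).le]
  have h6 := mul_le_mul_of_nonneg_left h3 (mul_nonneg (inv_pos.2 h0).le (norm_nonneg z))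
  have h7 := mul_le_mul_of_nonneg_right h4 (sq_nonneg ‖T‖)
  have h8 := mul_le_mul_of_nonneg_right h5 (norm_nonneg T)
  rw [← hr] at h6
  nlinarith

lemma tr_cont (T : H →L[ℂ] H) {B : H →L[ℂ] H} (hB : B.IsPositive) {s : ℝ} (hs : 0 < s) :
    Continuous fun z => FF T B z s :=
  (continuousOn_FF hB).comp_continuous (f := fun z : ℂ => (z, s)) (by fun_prop)
    fun z => ⟨mem_univ _, hs⟩

lemma tr_dens (T : H →L[ℂ] H) {s : ℝ} (hs : 0 < s) : ∃ C, ∀ ψ : H,
    (Continuous fun z => s * (⟪FF T 0 z s ψ, FF (star T) 0 (conj z) s ψ⟫_ℂ).re) ∧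
    ∀ z, ‖s * (⟪FF T 0 z s ψ, FF (star T) 0 (conj z) s ψ⟫_ℂ).re‖ ≤
      C * ‖ψ‖ ^ 2 * ((‖z‖ ^ 2 + 1) ^ 2)⁻¹ := by
  obtain ⟨C, hC, h⟩ := tr_decay T hs
  obtain ⟨D, hD, h'⟩ := tr_decay (star T) hs
  refine ⟨s * C * D, fun ψ => ⟨?_, fun z => ?_⟩⟩
  · have h1 := tr_cont T tr_zero hs
    have h2 := (tr_cont (star T) tr_zero hs).comp Complex.continuous_conj
    exact continuous_const.mul (Complex.continuous_re.comp
      ((h1.clm_apply continuous_const).inner (h2.clm_apply continuous_const)))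
  · have h1 := ContinuousLinearMap.le_of_opNorm_le _ (h 0 tr_zero z) ψ
    have h2 := ContinuousLinearMap.le_of_opNorm_le _ (h' 0 tr_zero (conj z)) ψ
    rw [Complex.norm_conj] at h2
    have h3 := ((Complex.abs_re_le_norm _).trans (norm_inner_le_norm _ _)).trans
      (mul_le_mul h1 h2 (norm_nonneg _) (by positivity))
    rw [norm_mul, Real.norm_of_nonneg hs.le, Real.norm_eq_abs]
    refine (mul_le_mul_of_nonneg_left h3 hs.le).trans (le_of_eq ?_)
    field_simp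

lemma tr_dens_int (T : H →L[ℂ] H) {s : ℝ} (hs : 0 < s) (ψ : H) :
    Integrable (fun z => s * (⟪FF T 0 z s ψ, FF (star T) 0 (conj z) s ψ⟫_ℂ).re) mm := by
  obtain ⟨C, h⟩ := tr_dens T hs
  exact (integrable_decay.const_mul _).mono' (h ψ).1.aestronglyMeasurable (.of_forall (h ψ).2)

/-- A resolution of the identity. -/
theorem int_resolution (T : H →L[ℂ] H) {s : ℝ} (hs : 0 < s) (ψ : H) :
    ∫ z, s * (⟪FF T 0 z s ψ, FF (star T) 0 (conj z) s ψ⟫_ℂ).re ∂mm = ‖ψ‖ ^ 2 := by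
  obtain ⟨C0, h0⟩ := tr_F_le T hs ψ
  obtain ⟨C1, h1⟩ := tr_D_le T hs ψ
  obtain ⟨C2, h2⟩ := tr_D_le 0 hs ψ
  have e0 : ∀ z, s * (⟪FF (0 : H →L[ℂ] H) 0 z s ψ, FF (star 0) 0 (conj z) s ψ⟫_ℂ).re =
      ‖ψ‖ ^ 2 * (s / (‖z - 0‖ ^ 2 + s) ^ 2) := fun z => by
    rw [star_zero, tr_FF, tr_FF, tr_RR_zero hs, tr_RR_zero hs, Complex.norm_conj, smul_apply,
      one_apply_eq_self, bas_self, Complex.ofReal_re, norm_smul, Complex.norm_real,
      Real.norm_of_nonneg (by positivity), sub_zero]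
    field_simp
  have e : ∀ z, (trD T s ψ 1 z - trD 0 s ψ 1 z) + (trD T s ψ Complex.I z - trD 0 s ψ Complex.I z) =
      -2 * (s * (⟪FF T 0 z s ψ, FF (star T) 0 (conj z) s ψ⟫_ℂ).re -
        ‖ψ‖ ^ 2 * (s / (‖z - 0‖ ^ 2 + s) ^ 2)) := fun z => by
    linear_combination tr_lap T hs ψ z - tr_lap 0 hs ψ z + 2 * e0 z
  obtain ⟨p1, p2⟩ := poisson_int 0 hs
  have cF : ∀ (X : H →L[ℂ] H) v, Continuous (trF X s ψ v) := fun X v => by
    have := continuous_RR X hs
    unfold trF SS; fun_prop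
  have cD : ∀ (X : H →L[ℂ] H) v, Continuous (trD X s ψ v) := fun X v => by
    have := continuous_RR X hs
    have := continuous_EE X v
    unfold trD SS; fun_prop
  have key := tr_div2 (g := fun v z => trF T s ψ v z - trF 0 s ψ v z)
    (g' := fun v z => trD T s ψ v z - trD 0 s ψ v z) (C := max C0 (C1 + C2))
    (fun v z => (tr_deriv T hs ψ v z).sub (tr_deriv 0 hs ψ v z))
    (fun v => (cF T v).sub (cF 0 v)) (fun v => (cD T v).sub (cD 0 v))
    (fun v hv z => (h0 v hv z).trans (by gcongr; exact le_max_left _ _))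
    (fun v hv z => ((abs_sub _ _).trans (add_le_add (h1 v hv z) (h2 v hv z))).trans (by
      rw [← add_div]; gcongr; exact le_max_right _ _))
    (by
      simp only [e]
      exact ((tr_dens_int T hs ψ).sub (p1.const_mul _)).const_mul _)
  simp only [e] at key
  rw [integral_const_mul, integral_sub (tr_dens_int T hs ψ) (p1.const_mul _),
    integral_const_mul (‖ψ‖ ^ 2), p2] at key
  linarith

lemma tr_tele (T : H →L[ℂ] H) (φ : ℕ → H) (z : ℂ) {s : ℝ} (hs : 0 < s) (x : H) (N : ℕ) :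
    (⟪x, FF T 0 z s x⟫_ℂ).re - (⟪x, FF T (hd φ N) z s x⟫_ℂ).re = ∑ j ∈ Finset.range N,
      ‖⟪x, FF T (hd φ j) z s (φ j)⟫_ℂ‖ ^ 2 / (1 + (⟪φ j, FF T (hd φ j) z s (φ j)⟫_ℂ).re) := by
  induction N with
  | zero => simp [hd]
  | succ N ih =>
    have e : hd φ (N + 1) = hd φ N + rankOne ℂ (φ N) (φ N) := Finset.sum_range_succ _ _
    rw [Finset.sum_range_succ, ← ih, e, FF_add_rankOne (hd_pos φ N) z hs, inner_sub_right,
      inner_smul_right, ← inner_conj_symm (FF T (hd φ N) z s (φ N)) x, div_mul_eq_mul_div,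
      Complex.conj_mul', ← Complex.ofReal_pow, ← Complex.ofReal_div, Complex.sub_re,
      Complex.ofReal_re]
    ring

lemma tr_fl (T : H →L[ℂ] H) {s : ℝ} (hs : 0 < s) : ∃ C, ∀ (φ : ℕ → H) (j : ℕ),
    (Continuous fun z => fl T φ j z s) ∧ ∀ z, 0 ≤ fl T φ j z s ∧
      ‖fl T φ j z s‖ ≤ C * ‖φ j‖ ^ 2 * ((‖z‖ ^ 2 + 1) ^ 2)⁻¹ := by
  obtain ⟨C, hC, h⟩ := tr_decay T hs
  refine ⟨s * C ^ 2, fun φ j => ⟨?_, fun z => ?_⟩⟩
  · have h1 := (tr_cont T (hd_pos φ j) hs).clm_apply (continuous_const (y := φ j))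
    refine (continuous_const.mul (h1.norm.pow 2)).div (continuous_const.add
      (Complex.continuous_re.comp (continuous_const.inner h1))) fun z => ?_
    have := inner_FF_nonneg (T := T) (hd_pos φ j) z hs (φ j)
    positivity
  · have h0 := inner_FF_nonneg (T := T) (hd_pos φ j) z hs (φ j)
    have h1 : 0 ≤ fl T φ j z s := by rw [fl]; positivity
    refine ⟨h1, ?_⟩
    rw [Real.norm_of_nonneg h1, fl]
    refine (div_le_self (by positivity) (by linarith)).trans ?_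
    have h2 := pow_le_pow_left₀ (norm_nonneg _)
      (ContinuousLinearMap.le_of_opNorm_le _ (h _ (hd_pos φ j) z) (φ j)) 2
    refine (mul_le_mul_of_nonneg_left h2 hs.le).trans (le_of_eq ?_)
    field_simp

lemma tr_point (hc : star T * T + Ψ * star Ψ = T * star T + Φ * star Φ)
    (b : HilbertBasis ℕ ℂ H) (hΦ : Summable fun j => ‖Φ (b j)‖ ^ 2)
    (hΨ : Summable fun j => ‖Ψ (b j)‖ ^ 2) {s : ℝ} (hs : 0 < s) (z : ℂ)
    (hf : Summable fun j => fl T (fun l => Φ (b l)) j z s) :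
    s * (∑' j, (⟪FF T 0 z s (Φ (b j)), FF (star T) 0 (conj z) s (Φ (b j))⟫_ℂ).re -
      ∑' j, (⟪FF T 0 z s (Ψ (b j)), FF (star T) 0 (conj z) s (Ψ (b j))⟫_ℂ).re) ≤
      ∑' j, fl T (fun l => Φ (b l)) j z s := by
  set Q := FF T 0 z s with hQ
  set Q' := FF (star T) 0 (conj z) s with hQ'
  have sQ : star Q = Q := FF_sa tr_zero z s
  have sQ' : star Q' = Q' := FF_sa tr_zero _ s
  have hsum : ∀ X Y : H →L[ℂ] H, (Summable fun j => ‖Y (b j)‖ ^ 2) →
      Summable fun j => ‖(X * Y) (b j)‖ ^ 2 := fun X Y hY =>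
    Summable.of_nonneg_of_le (fun j => by positivity) (fun j => by
      rw [← mul_pow]
      exact pow_le_pow_left₀ (norm_nonneg _) (X.le_opNorm _) 2) (hY.mul_left (‖X‖ ^ 2))
  have p1 := tr_polar b (hsum Q Φ hΦ) (hsum Q' Φ hΦ)
  have p2 := tr_polar b (hsum Q Ψ hΨ) (hsum Q' Ψ hΨ)
  simp only [star_mul, sQ, sQ', mul_apply_eq_comp] at p1 p2
  have hL : ∀ h, LL (star T) 0 (conj z) s h = star (SS T z) (SS T z h) + (s : ℂ) • h := fun h => by
    rw [bas_LL, SS_star, star_star, zero_apply, add_zero]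
  have e : ∀ x, (⟪star Φ (Q x), star Φ (Q' x)⟫_ℂ).re - (⟪star Ψ (Q x), star Ψ (Q' x)⟫_ℂ).re =
      (⟪x, Q x⟫_ℂ).re - (⟪x, Q' x⟫_ℂ).re := fun x => by
    have h1 := congrArg (fun X : H →L[ℂ] H => ⟪Q x, X (Q' x)⟫_ℂ) (SS_comm hc z)
    have h2 := congrArg (fun y => ⟪Q x, y⟫_ℂ) (LL_FF (T := star T) tr_zero (conj z) hs x)
    have h3 := congrArg (fun y => ⟪x, y⟫_ℂ) (FF_LL (T := T) tr_zero z hs (Q' x))
    rw [← inner_FF_symm tr_zero] at h3
    simp only [bas_LL T, hL, zero_apply, add_zero, add_apply,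
      mul_apply_eq_comp, inner_add_right, ← hQ, ← hQ'] at h1 h2 h3
    rw [bas_sl, bas_sl, bas_re_symm x (Q x), ← Complex.sub_re, ← Complex.sub_re]
    congr 1
    linear_combination h2 - h3 - h1
  have le : ∀ y, (⟪y, FF T (Φ * star Φ) z s y⟫_ℂ).re ≤ (⟪y, Q' y⟫_ℂ).re := fun y => by
    have h1 := FF_var (T := star T) tr_zero (conj z) hs y (FF T (Φ * star Φ) z s y)
    have h2 := inner_FF (T := T) (pos_mul_star Φ) z hs y
    have h3 := norm_SS_eq hc z (FF T (Φ * star Φ) z s y)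
    rw [inner_LL, SS_star, star_star, zero_apply, inner_zero_right, Complex.zero_re] at h1
    rw [inner_mul_star] at h2
    nlinarith [sq_nonneg ‖star Ψ (FF T (Φ * star Φ) z s y)‖]
  refine le_of_tendsto' (((p1.sub p2).mul_left s).tendsto_sum_nat) fun M => ?_
  simp only [e]
  have lim : Tendsto (fun N => ∑ i ∈ Finset.range M, s * ((⟪b i, Q (b i)⟫_ℂ).re -
      (⟪b i, FF T (hd (fun l => Φ (b l)) N) z s (b i)⟫_ℂ).re)) atTop
      (𝓝 (∑ i ∈ Finset.range M, s * ((⟪b i, Q (b i)⟫_ℂ).re -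
        (⟪b i, FF T (Φ * star Φ) z s (b i)⟫_ℂ).re))) := by
    refine tendsto_finsetSum _ fun i _ => Tendsto.const_mul _ (Tendsto.const_sub _ ?_)
    exact (Complex.continuous_re.tendsto _).comp
      (((om (b i)).continuous.tendsto _).comp (tendsto_FF_hd b hΦ z hs))
  refine le_trans (Finset.sum_le_sum fun i _ => mul_le_mul_of_nonneg_left
    (sub_le_sub_left (le (b i)) _) hs.le) (le_of_tendsto' lim fun N => ?_)
  refine le_trans ?_ (hf.sum_le_tsum (Finset.range N) fun j _ =>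
    (((tr_fl T hs).choose_spec _ j).2 z).1)
  simp only [hQ, tr_tele T _ z hs, Finset.mul_sum]
  rw [Finset.sum_comm]
  refine Finset.sum_le_sum fun j _ => ?_
  have h0 := inner_FF_nonneg (T := T) (hd_pos (fun l => Φ (b l)) j) z hs (Φ (b j))
  rw [← Finset.mul_sum, ← Finset.sum_div, fl, mul_div_assoc]
  refine mul_le_mul_of_nonneg_left (div_le_div_of_nonneg_right ?_ (by linarith)) hs.le
  exact b.orthonormal.sum_inner_products_le _

lemma tr_int {F : ℕ → ℂ → ℝ} {c : ℕ → ℝ} (hc : Summable c) (h0 : ∀ j, Continuous (F j))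
    (h1 : ∀ j z, ‖F j z‖ ≤ c j * ((‖z‖ ^ 2 + 1) ^ 2)⁻¹) :
    (∀ z, Summable fun j => F j z) ∧ Integrable (fun z => ∑' j, F j z) mm ∧
      HasSum (fun j => ∫ z, F j z ∂mm) (∫ z, ∑' j, F j z ∂mm) := by
  have hi : ∀ j, Integrable (F j) mm := fun j =>
    (integrable_decay.const_mul _).mono' (h0 j).aestronglyMeasurable (.of_forall (h1 j))
  have hs : Summable fun j => ∫ z, ‖F j z‖ ∂mm := by
    refine Summable.of_nonneg_of_le (fun j => integral_nonneg fun z => norm_nonneg _) (fun j => ?_)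
      (hc.mul_right (∫ z : ℂ, ((‖z‖ ^ 2 + 1) ^ 2)⁻¹ ∂mm))
    rw [← integral_const_mul]
    exact integral_mono (hi j).norm (integrable_decay.const_mul _) (h1 j)
  refine ⟨fun z => (hc.mul_right _).of_norm_bounded fun j => h1 j z, ?_,
    hasSum_integral_of_summable_integral_norm hi hs⟩
  refine (integrable_decay.const_mul (∑' j, c j)).mono' (Continuous.aestronglyMeasurable ?_)
    (.of_forall fun z => tsum_of_norm_bounded (hc.hasSum.mul_right _) fun j => h1 j z)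
  refine continuous_tsum h0 hc fun j z => (h1 j z).trans ?_
  refine mul_le_of_le_one_right (by simpa using (norm_nonneg _).trans (h1 j 0)) ?_
  exact inv_le_one_of_one_le₀ (one_le_pow₀ (by nlinarith [sq_nonneg ‖z‖]))

theorem trace_pos (hc : star T * T + Ψ * star Ψ = T * star T + Φ * star Φ)
    (b : HilbertBasis ℕ ℂ H) (hΦ : Summable fun j => ‖Φ (b j)‖ ^ 2)
    (hΨ : Summable fun j => ‖Ψ (b j)‖ ^ 2) {ε : ℝ} (hε : 0 < ε) :
    ∑' j, ‖Φ (b j)‖ ^ 2 - ∑' j, ‖Ψ (b j)‖ ^ 2 ≤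
      ∑' j, ∫ z, fl T (fun l => Φ (b l)) j z ε ∂mm := by
  obtain ⟨C, hC⟩ := tr_dens T hε
  obtain ⟨D, hD⟩ := tr_fl T hε
  obtain ⟨-, a2, a3⟩ := tr_int (hΦ.mul_left C) (fun j => (hC (Φ (b j))).1) fun j => (hC _).2
  obtain ⟨-, b2, b3⟩ := tr_int (hΨ.mul_left C) (fun j => (hC (Ψ (b j))).1) fun j => (hC _).2
  obtain ⟨c1, c2, c3⟩ := tr_int (hΦ.mul_left D) (fun j => (hD (fun l => Φ (b l)) j).1)
    fun j z => ((hD _ j).2 z).2
  simp only [int_resolution T hε] at a3 b3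
  rw [a3.tsum_eq, b3.tsum_eq, c3.tsum_eq, ← integral_sub a2 b2]
  refine integral_mono (a2.sub b2) c2 fun z => ?_
  simpa only [tsum_mul_left, mul_sub] using tr_point hc b hΦ hΨ hε z (c1 z)

end Pool.Agent.Lib.MP_45cb44_an.Hy
end

-- part Pool.Agent.Lib.MP_45cb44_an.HyBS
section

/-! Transitive operators, the Berger-Shaw inequality, traces of positive operators. -/

namespace Pool.Agent.Lib.MP_45cb44_an.Hy

open MeasureTheory Metric Set Filter Topology InnerProductSpace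
open scoped InnerProductSpace ComplexConjugate ENNReal

variable {H : Type*} [NormedAddCommGroup H] [InnerProductSpace ℂ H] [CompleteSpace H]
  {T K : H →L[ℂ] H}

lemma bs_adj_left (A : H →L[ℂ] H) (x y : H) : ⟪star A y, x⟫_ℂ = ⟪y, A x⟫_ℂ :=
  ContinuousLinearMap.adjoint_inner_left A x y

lemma bs_adj_right (A : H →L[ℂ] H) (x y : H) : ⟪x, star A y⟫_ℂ = ⟪A x, y⟫_ℂ :=
  ContinuousLinearMap.adjoint_inner_right A x y

lemma Tr.adj (h : Tr T) : Tr (star T) := fun x y hx => by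
  refine (h y x fun n => ?_).symm
  rw [← bs_adj_right, star_pow, ← inner_conj_symm, hx, map_zero]

lemma Tr.eq_top (h : Tr T) {M : Submodule ℂ H} (hc : IsClosed (M : Set H))
    (hM : ∀ x ∈ M, T x ∈ M) {x : H} (hx : x ∈ M) (h0 : x ≠ 0) : M = ⊤ := by
  have := hc.completeSpace_coe
  rw [← Submodule.orthogonal_eq_bot_iff, eq_bot_iff]
  intro y hy
  refine (h x y fun n => hy _ ?_).resolve_left h0
  induction n with
  | zero => simpa
  | succ n ih => rw [pow_succ', mul_apply_eq_comp]; exact hM _ ih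

/-- The vectors whose orbit is orthogonal to `y`. -/
lemma bs_orb (T : H →L[ℂ] H) (y : H) : ∃ M : Submodule ℂ H, IsClosed (M : Set H) ∧
    (∀ x ∈ M, T x ∈ M) ∧ ∀ z, z ∈ M ↔ ∀ n : ℕ, ⟪(T ^ n) z, y⟫_ℂ = 0 := by
  let M : Submodule ℂ H := ⨅ n : ℕ, (ℂ ∙ star (T ^ n) y)ᗮ
  have m : ∀ z, z ∈ M ↔ ∀ n : ℕ, ⟪(T ^ n) z, y⟫_ℂ = 0 := fun z => by
    simp only [M, Submodule.mem_iInf, Submodule.mem_orthogonal_singleton_iff_inner_left,
      bs_adj_right]
  refine ⟨M, ?_, fun z hz => (m _).2 fun n => ?_, m⟩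
  · simp only [M, Submodule.coe_iInf]
    exact isClosed_iInter fun a => Submodule.isClosed_orthogonal _
  · simpa [pow_succ] using (m z).1 hz (n + 1)

lemma invariant_of_not_tr (h : ¬Tr T) :
    ∃ M : Submodule ℂ H, IsClosed (M : Set H) ∧ (∀ x ∈ M, T x ∈ M) ∧ M ≠ ⊥ ∧ M ≠ ⊤ := by
  unfold Tr at h
  push Not at h
  obtain ⟨x, y, h1, hx, hy⟩ := h
  obtain ⟨M, h2, h3, m⟩ := bs_orb T y
  refine ⟨M, h2, h3, fun h0 => hx ?_, fun h0 => hy ?_⟩
  · simpa [h0] using (m x).2 h1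
  · simpa using (m y).1 (h0 ▸ Submodule.mem_top) 0

omit [CompleteSpace H] in
lemma bs_nontrivial (hd : ¬FiniteDimensional ℂ H) : Nontrivial H := by
  by_contra h
  rw [not_nontrivial_iff_subsingleton] at h
  exact hd inferInstance

lemma not_tr_normal (hc : star T * T = T * star T) (hd : ¬FiniteDimensional ℂ H) : ¬Tr T := by
  intro ht
  have hN : IsStarNormal T := ⟨hc⟩
  have := bs_nontrivial hd
  obtain ⟨a, ha⟩ := spectrum.nonempty T
  by_cases h : spectrum ℂ T ⊆ {a}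
  · obtain ⟨x, hx⟩ := exists_ne (0 : H)
    have e := CFC.eq_algebraMap_of_spectrum_subset_singleton T a h
    have := ht.eq_top (M := ℂ ∙ x) (Submodule.closed_of_finiteDimensional _) (fun y hy => by
      rw [e]; exact Submodule.smul_mem _ a hy) (Submodule.mem_span_singleton_self x) hx
    exact hd (Module.finite_def.2 (this ▸ Submodule.fg_span_singleton x))
  obtain ⟨b, hb, hab⟩ := not_subset.1 h
  let f : ℂ → ℂ → ℂ → ℂ := fun a b z => (max 0 (‖z - b‖ - ‖z - a‖) : ℝ)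
  have hf : ∀ a b, Continuous (f a b) := fun a b => by fun_prop
  have nz : ∀ a b, a ∈ spectrum ℂ T → a ≠ b → ∃ x, cfc (f a b) T x ≠ 0 := fun a b ha hab => by
    by_contra! h0
    have e : cfc (f a b) T = cfc (fun _ => (0 : ℂ)) T := by
      rw [cfc_const_zero]; exact ContinuousLinearMap.ext h0
    have := eqOn_of_cfc_eq_cfc e (hf a b).continuousOn continuousOn_const hN ha
    simp [f, sub_eq_zero, hab] at this
  obtain ⟨x, hx⟩ := nz b a hb hab
  obtain ⟨y, hy⟩ := nz a b ha (Ne.symm hab)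
  refine (ht _ _ fun n => ?_).elim hx hy
  have e : star (cfc (f a b) T) * T ^ n * cfc (f b a) T = 0 := by
    rw [← cfc_star, ← cfc_pow_id (R := ℂ) T n, ← cfc_mul _ _ _ (by fun_prop) (by fun_prop),
      ← cfc_mul _ _ _ (by fun_prop) (by fun_prop), ← cfc_const_zero ℂ T]
    refine cfc_congr fun z _ => ?_
    rcases le_total ‖z - a‖ ‖z - b‖ with h | h <;> simp [f, h]
  rw [← bs_adj_left, ← mul_apply_eq_comp, ← mul_apply_eq_comp, e]
  simp

lemma bs_res {z : ℂ} (hz : ‖T‖ < ‖z‖) :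
    (z • 1 - T) * resolvent T z = 1 ∧ resolvent T z * (z • 1 - T) = 1 := by
  have h1 : ‖(1 : H →L[ℂ] H)‖ ≤ 1 := ContinuousLinearMap.norm_id_le
  have h2 : z ∈ resolventSet ℂ T := spectrum.mem_resolventSet_of_norm_lt_mul
    (lt_of_le_of_lt (mul_le_of_le_one_right (norm_nonneg _) h1) hz)
  have h3 : IsUnit (algebraMap ℂ (H →L[ℂ] H) z - T) := h2
  rw [← Algebra.algebraMap_eq_smul_one]
  exact ⟨Ring.mul_inverse_cancel _ h3, Ring.inverse_mul_cancel _ h3⟩

omit [CompleteSpace H] in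
lemma bs_apol {r : ℝ} (h0 : 0 ≤ r) (h1 : r ≤ 1) {a b : H} (h : ‖b‖ ^ 2 ≤ r * ‖a‖ ^ 2) :
    ‖(r : ℂ) • a - b‖ ^ 2 ≤ r * ‖a - b‖ ^ 2 := by
  rw [@norm_sub_sq ℂ, @norm_sub_sq ℂ, inner_smul_left, norm_smul, Complex.conj_ofReal,
    Complex.norm_real, Real.norm_of_nonneg h0]
  have e : RCLike.re ((r : ℂ) * ⟪a, b⟫_ℂ) = r * RCLike.re ⟪a, b⟫_ℂ := by simp
  rw [e]
  nlinarith [mul_le_mul_of_nonneg_left h (sub_nonneg.2 h1)]

lemma Tr.res (h : Tr T) {z : ℂ} (hz : ‖T‖ < ‖z‖) : Tr (resolvent T z) := by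
  intro x y hxy
  obtain ⟨M, hc, hS, m⟩ := bs_orb (resolvent T z) y
  obtain ⟨e1, e2⟩ := bs_res hz
  set S := resolvent T z
  have z0 : 0 < ‖z‖ := (norm_nonneg _).trans_lt hz
  set r : ℝ := (‖T‖ / ‖z‖) ^ 2 with hr
  have q1 : ‖T‖ / ‖z‖ < 1 := (div_lt_one z0).2 hz
  have q0 : 0 ≤ ‖T‖ / ‖z‖ := by positivity
  have r1 : r ≤ 1 := pow_le_one₀ q0 q1.le
  set W : H →L[ℂ] H := (((r : ℂ) * z) • 1 - T) * S with hW
  have hW1 : W = 1 - (z - r * z) • S := by
    have : (((r : ℂ) * z) • 1 - T : H →L[ℂ] H) = (z • 1 - T) - (z - r * z) • 1 := by module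
    rw [hW, this, sub_mul _ _ S, e1, smul_one_mul]
  have hn : ‖W‖ < 1 := by
    refine lt_of_le_of_lt (W.opNorm_le_bound q0 fun u => ?_) q1
    have a1 : u = z • S u - T (S u) := by
      simpa using (congrArg (fun B : H →L[ℂ] H => B u) e1).symm
    have a2 : W u = (r : ℂ) • (z • S u) - T (S u) := by simp [hW, smul_smul]
    have a3 : ‖T (S u)‖ ^ 2 ≤ r * ‖z • S u‖ ^ 2 := by
      rw [hr, ← mul_pow, norm_smul, ← mul_assoc, div_mul_cancel₀ _ z0.ne']
      exact pow_le_pow_left₀ (norm_nonneg _) (T.le_opNorm _) 2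
    have a4 := bs_apol (by positivity) r1 a3
    rw [← a1, ← a2, hr, ← mul_pow] at a4
    exact le_of_sq_le_sq a4 (by positivity)
  have hWM : ∀ n : ℕ, ∀ u ∈ M, (W ^ n) u ∈ M := fun n => by
    induction n with
    | zero => simp
    | succ n ih =>
      intro u hu
      rw [pow_succ, mul_apply_eq_comp]
      refine ih _ ?_
      rw [hW1]
      exact M.sub_mem hu (M.smul_mem _ (hS u hu))
  have hT : ∀ u ∈ M, T u ∈ M := fun u hu => by
    set v := z • u - T u with hv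
    have b1 : S v = u := by simpa [hv] using congrArg (fun B : H →L[ℂ] H => B u) e2
    have b2 : v - W v = (z - r * z) • u := by rw [hW1]; simp [b1]
    have b3 : ∀ n : ℕ, v - (W ^ n) v ∈ M := fun n => by
      induction n with
      | zero => simp
      | succ n ih =>
        have : v - (W ^ (n + 1)) v = (v - (W ^ n) v) + (W ^ n) (v - W v) := by
          rw [pow_succ, mul_apply_eq_comp, map_sub (W ^ n) v (W v)]; abel
        rw [this, b2]
        exact M.add_mem ih (hWM n _ (M.smul_mem _ hu))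
    have b4 : Tendsto (fun n : ℕ => v - (W ^ n) v) atTop (𝓝 (v - (0 : H →L[ℂ] H) v)) :=
      tendsto_const_nhds.sub (((ContinuousLinearMap.apply ℂ H v).continuous.tendsto 0).comp
        (tendsto_pow_atTop_nhds_zero_of_norm_lt_one hn))
    have b5 : v ∈ M := by simpa using hc.mem_of_tendsto b4 (Eventually.of_forall b3)
    have : T u = z • u - v := by rw [hv]; abel
    rw [this]
    exact M.sub_mem (M.smul_mem _ hu) b5
  by_cases hx : x = 0
  · exact Or.inl hx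
  · have := h.eq_top hc hT ((m x).2 hxy) hx
    exact Or.inr (by simpa using (m y).1 (this ▸ Submodule.mem_top) 0)

omit [CompleteSpace H] in
lemma bs_parseval (b : HilbertBasis ℕ ℂ H) (x : H) :
    HasSum (fun i => ‖⟪b i, x⟫_ℂ‖ ^ 2) (‖x‖ ^ 2) := by
  have h := Complex.hasSum_re (b.hasSum_inner_mul_inner x x)
  have e : ∀ i, (⟪x, b i⟫_ℂ * ⟪b i, x⟫_ℂ).re = ‖⟪b i, x⟫_ℂ‖ ^ 2 := fun i => by
    rw [← inner_conj_symm x (b i), Complex.conj_mul', ← Complex.ofReal_pow, Complex.ofReal_re]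
  have e2 : (⟪x, x⟫_ℂ).re = ‖x‖ ^ 2 := inner_self_eq_norm_sq (𝕜 := ℂ) x
  simpa only [e, e2] using h

/-- The Berger-Shaw inequality in the basis obtained from a cyclic vector. -/
theorem Tr.exists_basis (h : Tr T) (hd : ¬FiniteDimensional ℂ H) : ∃ b : HilbertBasis ℕ ℂ H,
    ∀ n, ∑ j ∈ Finset.range n, (‖T (b j)‖ ^ 2 - ‖star T (b j)‖ ^ 2) ≤ ‖T‖ ^ 2 := by
  have := bs_nontrivial hd
  obtain ⟨x, hx⟩ := exists_ne (0 : H)
  let v : ℕ → H := fun n => (T ^ n) x
  have hv : ∀ n, T (v n) = v (n + 1) := fun n => by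
    simp only [v, pow_succ', mul_apply_eq_comp]
  have hinv : ∀ {s : Set ℕ} {M : Submodule ℂ H}, (∀ k ∈ s, v (k + 1) ∈ M) →
      ∀ u ∈ Submodule.span ℂ (v '' s), T u ∈ M := fun {s M} hs u hu => by
    have : Submodule.span ℂ (v '' s) ≤ M.comap (T : H →ₗ[ℂ] H) :=
      Submodule.span_le.2 (by
        rintro _ ⟨k, hk, rfl⟩
        change T (v k) ∈ M
        rw [hv]; exact hs k hk)
    exact this hu
  have hne : ∀ n, gramSchmidt ℂ v n ≠ 0 := fun n h0 => by
    have h1 : v n ∈ Submodule.span ℂ (v '' Iio n) := by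
      rw [← span_gramSchmidt_Iio ℂ v n, gramSchmidt_def'' ℂ v n, h0, zero_add]
      exact Submodule.sum_mem _ fun a ha => Submodule.smul_mem _ _
        (Submodule.subset_span ⟨a, Finset.mem_Iio.1 ha, rfl⟩)
    have : FiniteDimensional ℂ (Submodule.span ℂ (v '' Iio n)) :=
      FiniteDimensional.span_of_finite ℂ ((finite_Iio n).image v)
    have h2 : x ∈ Submodule.span ℂ (v '' Iio n) := by
      rcases Nat.eq_zero_or_pos n with rfl | hn
      · exact h1
      · exact Submodule.subset_span ⟨0, hn, rfl⟩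
    have h3 := h.eq_top (Submodule.closed_of_finiteDimensional _) (hinv fun k hk => by
      rcases (Nat.succ_le_of_lt hk).eq_or_lt with e | e
      · rw [show k + 1 = n from e]; exact h1
      · exact Submodule.subset_span ⟨k + 1, e, rfl⟩) h2 hx
    rw [h3] at this
    exact hd (Module.Finite.equiv Submodule.topEquiv)
  have hon : Orthonormal ℂ (gramSchmidtNormed ℂ v) :=
    ⟨fun n => norm_smul_inv_norm (hne n), fun i j hij => by
      simp [gramSchmidtNormed, inner_smul_left, inner_smul_right, gramSchmidt_orthogonal ℂ v hij]⟩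
  have hsp : ⊤ ≤ (Submodule.span ℂ (range (gramSchmidtNormed ℂ v))).topologicalClosure := by
    rw [span_gramSchmidtNormed_range, span_gramSchmidt, ← image_univ]
    refine (h.eq_top (Submodule.isClosed_topologicalClosure _) (fun u hu => ?_)
      (Submodule.le_topologicalClosure _
        (Submodule.subset_span (mem_image_of_mem v (mem_univ 0)))) hx).ge
    exact map_mem_closure T.continuous hu
      (hinv fun k _ => Submodule.subset_span ⟨k + 1, trivial, rfl⟩)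
  set b := HilbertBasis.mk hon hsp with hb
  have eb : ∀ j, b j = gramSchmidtNormed ℂ v j := fun j => by rw [hb, HilbertBasis.coe_mk]
  have tri : ∀ i j, j + 1 < i → ⟪b i, T (b j)⟫_ℂ = 0 := fun i j hij => by
    refine Submodule.mem_orthogonal_singleton_iff_inner_right.1
      (hinv (s := Iic j) (fun k hk => ?_) _ ?_)
    · rw [Submodule.mem_orthogonal_singleton_iff_inner_right, eb, gramSchmidtNormed,
        inner_smul_left, gramSchmidt_inv_triangular ℂ v (by have : k ≤ j := hk; omega), mul_zero]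
    · rw [eb]
      exact Submodule.smul_mem _ _ (gramSchmidt_mem_span ℂ v le_rfl)
  refine ⟨b, fun n => ?_⟩
  have h1 : ∀ j ∈ Finset.range n,
      ‖T (b j)‖ ^ 2 = ∑ i ∈ Finset.range (n + 1), ‖⟪b j, star T (b i)⟫_ℂ‖ ^ 2 := fun j hj => by
    have := hasSum_sum_of_ne_finset_zero (f := fun i => ‖⟪b i, T (b j)⟫_ℂ‖ ^ 2)
      (s := Finset.range (n + 1)) (L := .unconditional ℕ) fun i hi => by
        rw [Finset.mem_range] at hi hj
        rw [tri i j (by omega)]; simp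
    rw [(bs_parseval b _).unique this]
    refine Finset.sum_congr rfl fun i _ => ?_
    rw [bs_adj_right, norm_inner_symm]
  have h2 : ‖star T (b n)‖ ^ 2 ≤ ‖T‖ ^ 2 := by
    have := (star T).le_opNorm (b n)
    rw [b.orthonormal.1 n, mul_one, norm_star] at this
    exact pow_le_pow_left₀ (norm_nonneg _) this 2
  rw [Finset.sum_sub_distrib, Finset.sum_congr rfl h1, Finset.sum_comm]
  have h3 : ∑ i ∈ Finset.range (n + 1), ∑ j ∈ Finset.range n, ‖⟪b j, star T (b i)⟫_ℂ‖ ^ 2 ≤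
      ∑ i ∈ Finset.range (n + 1), ‖star T (b i)‖ ^ 2 :=
    Finset.sum_le_sum fun i _ => b.orthonormal.sum_inner_products_le _
  rw [Finset.sum_range_succ (fun i => ‖star T (b i)‖ ^ 2)] at h3
  linarith

lemma not_finiteDimensional (b : HilbertBasis ℕ ℂ H) : ¬FiniteDimensional ℂ H := fun _ =>
  Module.Finite.not_linearIndependent_of_infinite b b.orthonormal.linearIndependent

lemma exists_sqrt (hK : K.IsPositive) : ∃ Φ : H →L[ℂ] H, star Φ = Φ ∧ Φ * Φ = K :=
  ⟨CFC.sqrt K, (IsSelfAdjoint.of_nonneg (CFC.sqrt_nonneg K)).star_eq,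
    CFC.sqrt_mul_sqrt_self K ((ContinuousLinearMap.nonneg_iff_isPositive K).2 hK)⟩

lemma bs_hs (b b' : HilbertBasis ℕ ℂ H) {X : H →L[ℂ] H} (h : Summable fun j => ‖X (b j)‖ ^ 2) :
    Summable fun j => ‖star X (b' j)‖ ^ 2 := by
  refine summable_of_sum_le (c := ∑' j, ‖X (b j)‖ ^ 2) (fun _ => by positivity) fun u => ?_
  refine hasSum_le (fun i => ?_) (hasSum_sum fun j _ => bs_parseval b (star X (b' j))) h.hasSum
  refine le_trans (le_of_eq (Finset.sum_congr rfl fun j _ => ?_))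
    (b'.orthonormal.sum_inner_products_le (s := u) (X (b i)))
  rw [bs_adj_right, norm_inner_symm]

lemma bs_form (X : H →L[ℂ] H) (x : H) : (⟪x, (star X * X) x⟫_ℂ).re = ‖X x‖ ^ 2 := by
  rw [mul_apply_eq_comp, bs_adj_right]
  exact inner_self_eq_norm_sq (𝕜 := ℂ) _

lemma summable_basis (b b' : HilbertBasis ℕ ℂ H) (hK : K.IsPositive)
    (h : Summable fun i => (⟪b i, K (b i)⟫_ℂ).re) : Summable fun i => (⟪b' i, K (b' i)⟫_ℂ).re := by
  obtain ⟨Φ, h1, h2⟩ := exists_sqrt hK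
  have e : K = star Φ * Φ := by rw [h1, h2]
  simp only [e, bs_form] at h ⊢
  simpa only [h1] using bs_hs b b' h

lemma summable_conj (b : HilbertBasis ℕ ℂ H) (hK : K.IsPositive)
    (h : Summable fun i => (⟪b i, K (b i)⟫_ℂ).re) (P : H →L[ℂ] H) :
    Summable fun i => (⟪b i, (star P * K * P) (b i)⟫_ℂ).re := by
  obtain ⟨Φ, h1, h2⟩ := exists_sqrt hK
  have e : K = star Φ * Φ := by rw [h1, h2]
  have e' : star P * K * P = star (Φ * P) * (Φ * P) := by rw [e, star_mul]; noncomm_ring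
  simp only [e', bs_form]
  simp only [e, bs_form] at h
  have h3 : Summable fun j => ‖(star P * Φ) (b j)‖ ^ 2 :=
    (h.mul_left (‖star P‖ ^ 2)).of_nonneg_of_le (fun _ => by positivity) fun j => by
      rw [← mul_pow]
      exact pow_le_pow_left₀ (norm_nonneg _) ((star P).le_opNorm _) 2
  simpa only [star_mul, star_star, h1] using bs_hs b b h3

/-- The self-commutator of the resolvent. -/
lemma comm_resolvent {z : ℂ} (hz : ‖T‖ < ‖z‖) : ∃ P M : H →L[ℂ] H,
    star (resolvent T z) * resolvent T z - resolvent T z * star (resolvent T z) =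
      star P * (star T * T - T * star T) * P - star M * (star T * T - T * star T) * M := by
  obtain ⟨e1, e2⟩ := bs_res hz
  set S := resolvent T z
  set U : H →L[ℂ] H := z • 1 - T with hU
  have e3 : star S * star U = 1 := by rw [← star_mul, e1, star_one]
  have e4 : star U * star S = 1 := by rw [← star_mul, e2, star_one]
  have hD : star T * T - T * star T = star U * U - U * star U := by
    simp only [hU, star_sub, star_smul, star_one, sub_mul, mul_sub, smul_mul_assoc, mul_smul_comm,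
      one_mul, mul_one]
    module
  rw [hD]
  set D := star U * U - U * star U with hD'
  set X := star S * S with hX
  set Y := S * star S with hY
  have a1 : X * D * Y = X - Y := by
    calc _ = X * star U * (U * S) * star S - star S * (S * U) * star U * Y := by
          rw [hD', hX, hY]; noncomm_ring
      _ = X * (star U * star S) - (star S * star U) * Y := by rw [e1, e2]; noncomm_ring
      _ = _ := by rw [e3, e4, mul_one, one_mul]
  have a2 : Y * D * X = X - Y := by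
    calc _ = S * (star S * star U) * U * X - Y * U * (star U * star S) * S := by
          rw [hD', hX, hY]; noncomm_ring
      _ = (S * U) * X - Y * (U * S) := by rw [e3, e4]; noncomm_ring
      _ = _ := by rw [e1, e2, mul_one, one_mul]
  have sX : star X = X := by rw [hX, star_mul, star_star]
  have sY : star Y = Y := by rw [hY, star_mul, star_star]
  refine ⟨(1 / 2 : ℝ) • (X + Y), (1 / 2 : ℝ) • (X - Y), ?_⟩
  simp only [star_smul, star_add, star_sub, sX, sY, star_trivial, add_mul, mul_add, sub_mul,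
    mul_sub, smul_mul_assoc, mul_smul_comm, a1, a2]
  module

end Pool.Agent.Lib.MP_45cb44_an.Hy
end
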