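import Pool.Agent.Lib.MP_45cb44_an.Resolvent
import Pool.Agent.Lib.MP_45cb44_an.Weak

-- part Pool.Agent.Lib.MP_45cb44_an.HyDef
section

/-! Definitions for the proof that hyponormal operators have invariant subspaces. -/

namespace Pool.Agent.Lib.MP_45cb44_an.Hy

open MeasureTheory Metric Set Filter Topology InnerProductSpace
open scoped InnerProductSpace ComplexConjugate

/-- A function of `(z, s)` together with candidates for its derivatives. -/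
structure Jet where
  /-- The function. -/
  f : ℂ → ℝ → ℝ
  /-- First derivative in the direction `v`. -/
  f1 : ℂ → ℂ → ℝ → ℝ
  /-- Second derivative in the direction `v`. -/
  f2 : ℂ → ℂ → ℝ → ℝ
  /-- First derivative in `s`. -/
  fs : ℂ → ℝ → ℝ
  /-- Second derivative in `s`. -/
  fss : ℂ → ℝ → ℝ

/-- A quarter of the four-dimensional Laplacian, `s` being the squared modulus of the second
complex variable. -/
noncomputable def Jet.lap (J : Jet) (z : ℂ) (s : ℝ) : ℝ :=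
  (J.f2 1 z s + J.f2 Complex.I z s) / 4 + J.fs z s + s * J.fss z s

/-- The derivative candidates are the derivatives, they are jointly continuous and decay. -/
structure Jet.Dat (J : Jet) (K : ℝ → ℝ) : Prop where
  d1 : ∀ v z s, ‖v‖ = 1 → 0 < s → HasDerivAt (fun t : ℝ => J.f (z + t • v) s) (J.f1 v z s) 0
  d2 : ∀ v z s, ‖v‖ = 1 → 0 < s → HasDerivAt (fun t : ℝ => J.f1 v (z + t • v) s) (J.f2 v z s) 0
  ds : ∀ z s, 0 < s → HasDerivAt (J.f z) (J.fs z s) s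
  dss : ∀ z s, 0 < s → HasDerivAt (J.fs z) (J.fss z s) s
  c0 : ContinuousOn (fun p : ℂ × ℝ => J.f p.1 p.2) (univ ×ˢ Ioi 0)
  c1 : ∀ v, ‖v‖ = 1 → ContinuousOn (fun p : ℂ × ℝ => J.f1 v p.1 p.2) (univ ×ˢ Ioi 0)
  c2 : ∀ v, ‖v‖ = 1 → ContinuousOn (fun p : ℂ × ℝ => J.f2 v p.1 p.2) (univ ×ˢ Ioi 0)
  cs : ContinuousOn (fun p : ℂ × ℝ => J.fs p.1 p.2) (univ ×ˢ Ioi 0)
  css : ContinuousOn (fun p : ℂ × ℝ => J.fss p.1 p.2) (univ ×ˢ Ioi 0)
  bd : ∀ ε, 0 < ε → ∀ s, ε ≤ s → ∀ z v, ‖v‖ = 1 → |J.f z s| ≤ K ε / (‖z‖ ^ 2 + 1) ∧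
    |J.f1 v z s| ≤ K ε / (‖z‖ ^ 2 + 1) ∧ |J.f2 v z s| ≤ K ε / (‖z‖ ^ 2 + 1) ∧
    |J.fs z s| ≤ K ε / (‖z‖ ^ 2 + 1) ∧ |J.fss z s| ≤ K ε / (‖z‖ ^ 2 + 1)

/-- The sum of the jets with index at least `k`. -/
noncomputable def tail (J : ℕ → Jet) (k : ℕ) : Jet where
  f z s := ∑' j, (J (j + k)).f z s
  f1 v z s := ∑' j, (J (j + k)).f1 v z s
  f2 v z s := ∑' j, (J (j + k)).f2 v z s
  fs z s := ∑' j, (J (j + k)).fs z s
  fss z s := ∑' j, (J (j + k)).fss z s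

/-- Boundary term of the Green identity. -/
noncomputable def WW (J k : Jet) (t : ℝ) : ℝ :=
  ∫ z, t * (J.fs z t * k.f z t - k.fs z t * J.f z t) ∂mm

/-- Product measure on the strip `ε < t < 1`. -/
noncomputable def strip (ε : ℝ) : Measure (ℂ × ℝ) := mm.prod (volume.restrict (Ioo ε 1))

/-- A system of functions whose tails are superharmonic. -/
structure Sys (J : ℕ → Jet) (c : ℕ → ℝ) (K : ℝ → ℝ) (R A : ℝ) : Prop where
  dat : ∀ j, (J j).Dat fun ε => c j * K ε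
  c0 : ∀ j, 0 ≤ c j
  sum : Summable c
  K0 : ∀ ε, 0 ≤ K ε
  R1 : 1 ≤ R
  A0 : 0 ≤ A
  nonneg : ∀ j z t, 0 < t → 0 ≤ (J j).f z t
  le_log : ∀ j z t, 0 < t → (J j).f z t ≤ Real.log (1 + c j / t)
  flux0 : ∀ j z t, 0 < t → 0 ≤ -t * (J j).fs z t
  flux1 : ∀ j z t, 0 < t → -t * (J j).fs z t ≤ 1
  far : ∀ j z t, 0 < t → R ≤ ‖z‖ →
    (J j).f z t ≤ A * c j / ‖z‖ ^ 2 ∧ -(J j).fs z t ≤ A * c j / ‖z‖ ^ 4
  sup : ∀ k z t, 0 < t → ∑' j, (J (j + k)).lap z t ≤ 0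
  osc : ∀ j z t u σ, 0 < t → 0 < σ →
    (J j).f z t - (J j).f u σ ≤ Real.log (2 * (‖z - u‖ ^ 2 + t + σ) / t)

/-- The heights along which the plane densities are taken. -/
noncomputable def ep (l : ℕ) : ℝ := 1 / ((l : ℝ) + 2)

/-- `δ j` is the plane density of the flux of `J j`. -/
structure Plane (J : ℕ → Jet) (δ : ℕ → ℂ → ℝ) : Prop where
  meas : ∀ j, Measurable (δ j)
  nonneg : ∀ j z, 0 ≤ δ j z
  le_one : ∀ j z, δ j z ≤ 1
  int : ∀ j, Integrable (δ j) mm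
  lim : ∀ j (g : ℂ → ℝ) (C : ℝ), Measurable g → (∀ z, |g z| ≤ C) →
    Tendsto (fun l => ∫ z, g z * (-ep l * (J j).fs z (ep l)) ∂mm) (hyperfilter ℕ)
      (𝓝 (∫ z, g z * δ j z ∂mm))

/-- The bulk term: the Riesz mass of the tail tested against the Poisson kernel. -/
noncomputable def bulkT (J : ℕ → Jet) (k : ℕ) (u : ℂ) (σ : ℝ) : ENNReal :=
  ∫⁻ p, ENNReal.ofReal (σ / (‖p.1 - u‖ ^ 2 + p.2 + σ) ^ 2 * -(tail J k).lap p.1 p.2) ∂strip 0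

/-- Dyadic heights. -/
noncomputable def dy (a : ℕ) : ℝ := (1 / 2 : ℝ) ^ a

/-- Uniform control of the growth exponents at the point `u`. -/
def Good (w : ℕ → ℂ → ℝ → ℝ) (Cs : ℝ) (i n k0 : ℕ) (x1 x3 C0 : ℝ) (u : ℂ) : Prop :=
  (∀ a b : ℕ, k0 ≤ a → a ≤ b → x3 * ((b : ℝ) - a) - C0 ≤ w i u (dy b) - w i u (dy a)) ∧
  (∀ k, i < k → k < n → ∀ a b : ℕ, k0 ≤ a → a ≤ b →
    w k u (dy b) - w k u (dy a) ≤ x1 * ((b : ℝ) - a) + C0) ∧
  ∀ a, k0 ≤ a → ∃ z, ‖z - u‖ ^ 2 ≤ dy a ∧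
    Cs * ∑' j, (w (j + n) z (dy (a + 1)) - w (j + n) z (dy a)) ≤ x1

variable {H : Type*} [NormedAddCommGroup H] [InnerProductSpace ℂ H] [CompleteSpace H]

/-- No nonzero orbit is orthogonal to a nonzero vector. -/
def Tr (T : H →L[ℂ] H) : Prop := ∀ x y : H, (∀ n : ℕ, ⟪(T ^ n) x, y⟫_ℂ = 0) → x = 0 ∨ y = 0

/-- `(T - z)(T - z)^* + B + s`. -/
noncomputable def LL (T B : H →L[ℂ] H) (z : ℂ) (s : ℝ) : H →L[ℂ] H :=
  SS T z * star (SS T z) + B + (s : ℂ) • 1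

/-- Inverse of `LL`. -/
noncomputable def FF (T B : H →L[ℂ] H) (z : ℂ) (s : ℝ) : H →L[ℂ] H := Ring.inverse (LL T B z s)

/-- The state with data `(z, s, a)`. -/
noncomputable def st (T Φ : H →L[ℂ] H) (z : ℂ) (s : ℝ) (a : H) : H :=
  FF T (Φ * star Φ) z s (Φ a)

/-- The cost of the vector `h` for the data `(z, s, a)`. -/
noncomputable def cost (T Φ : H →L[ℂ] H) (z : ℂ) (s : ℝ) (a h : H) : ℝ :=
  ‖star (SS T z) h‖ ^ 2 + s * ‖h‖ ^ 2 + ‖a - star Φ h‖ ^ 2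

/-- The minimal cost. -/
noncomputable def GG (T Φ : H →L[ℂ] H) (z : ℂ) (s : ℝ) (a : H) : ℝ :=
  cost T Φ z s a (st T Φ z s a)

/-- Square root of the minimal cost. -/
noncomputable def gn (T Φ : H →L[ℂ] H) (z : ℂ) (s : ℝ) (a : H) : ℝ := √(GG T Φ z s a)

/-- Sum of the first `j` rank one operators. -/
noncomputable def hd (φ : ℕ → H) (j : ℕ) : H →L[ℂ] H :=
  ∑ l ∈ Finset.range j, rankOne ℂ (φ l) (φ l)

/-- The increment of the logarithm of the regularised determinant. -/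
noncomputable def ww (T : H →L[ℂ] H) (φ : ℕ → H) (j : ℕ) (z : ℂ) (s : ℝ) : ℝ :=
  Real.log (1 + (⟪φ j, FF T (hd φ j) z s (φ j)⟫_ℂ).re)

/-- The corresponding flux. -/
noncomputable def fl (T : H →L[ℂ] H) (φ : ℕ → H) (j : ℕ) (z : ℂ) (s : ℝ) : ℝ :=
  s * ‖FF T (hd φ j) z s (φ j)‖ ^ 2 / (1 + (⟪φ j, FF T (hd φ j) z s (φ j)⟫_ℂ).re)

/-- Vectors whose first `k` coordinates vanish. -/
def Tl (b : ℕ → H) (k : ℕ) (a : H) : Prop := ∀ l < k, ⟪b l, a⟫_ℂ = 0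

/-- A field of directions along which the minimal cost decays. -/
structure Dir (T Φ : H →L[ℂ] H) (v : H) (A : Set ℂ) (x : ℂ → H) (β C s0 : ℝ) : Prop where
  β0 : 0 < β
  β1 : β ≤ 1
  C1 : 1 ≤ C
  s0pos : 0 < s0
  v1 : ‖v‖ ≤ 1
  nd : ∀ z ∈ A, ⟪v, x z⟫_ℂ = 1
  d1 : ∀ z ∈ A, ∀ s' s, 0 < s' → s' ≤ s → s ≤ s0 →
    GG T Φ z s' (x z) ≤ C * (s' / s) ^ β * GG T Φ z s (x z)
  d2 : ∀ z ∈ A, GG T Φ z s0 (x z) ≤ C
  d3 : ∀ z ∈ A, ∀ w ∈ A, ∀ s σ, 0 < s → s ≤ σ → σ ≤ s0 → ‖z - w‖ ^ 2 ≤ 4 * s →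
    GG T Φ z σ (x w - x z) ≤ C * (s / σ) ^ β * GG T Φ z σ (x z)

/-- A family of approximate eigenvectors of the adjoint with controlled overlaps. -/
structure Fam (T : H →L[ℂ] H) (v : H) (A : Set ℂ) (y : ℂ → ℝ → H) (q : ℂ → ℝ → ℝ)
    (β C s0 : ℝ) : Prop where
  β0 : 0 < β
  β1 : β ≤ 1
  C1 : 1 ≤ C
  s0pos : 0 < s0
  q0 : ∀ z s, 0 ≤ q z s
  eig : ∀ z s, 0 < s → ‖star T (y z s) - conj z • y z s‖ ≤ q z s
  nrm : ∀ z s, 0 < s → s * ‖y z s‖ ^ 2 ≤ q z s ^ 2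
  nd : ∀ z ∈ A, ∀ s, 0 < s → 1 - q z s ≤ (⟪v, y z s⟫_ℂ).re
  mono : ∀ z s σ, 0 < s → s ≤ σ → q z s ≤ q z σ
  scale : ∀ z s σ, 0 < s → s ≤ σ → s * q z σ ^ 2 ≤ σ * q z s ^ 2
  same : ∀ z s σ, 0 < s → 0 < σ →
    ((σ - s : ℝ) : ℂ) * ⟪y z s, y z σ⟫_ℂ = ((q z σ ^ 2 - q z s ^ 2 : ℝ) : ℂ)
  coarse : ∀ z w σ1 σ2 s, 0 < σ1 → σ1 ≤ σ2 → 0 < s →
    ‖⟪y w s, y z σ1 - y z σ2⟫_ℂ‖ ≤ C * q z σ2 * q w s / s
  farInc : ∀ z w σ1 σ2 s, 0 < σ1 → σ1 ≤ σ2 → 0 < s → s ≤ ‖z - w‖ ^ 2 →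
    ‖⟪y w s, y z σ1 - y z σ2⟫_ℂ‖ ≤ C * q z σ2 * q w (‖z - w‖ ^ 2) / ‖z - w‖ ^ 2
  farSt : ∀ z w s s', 0 < s → s ≤ ‖z - w‖ ^ 2 → 0 < s' → s' ≤ ‖z - w‖ ^ 2 →
    ‖⟪y z s, y w s'⟫_ℂ‖ ≤ C * q z (‖z - w‖ ^ 2) * q w (‖z - w‖ ^ 2) / ‖z - w‖ ^ 2
  del : ∀ z ∈ A, ∀ z' ∈ A, ∀ w s' s σ, 0 < s' → s' ≤ s → s ≤ σ → σ ≤ s0 → ‖z' - z‖ ^ 2 ≤ s →
    ‖⟪y z' s' - y z s, y w σ⟫_ℂ‖ ≤ C * (s / σ) ^ β * q z σ * q w σ / σ
  dec : ∀ z ∈ A, ∀ s' s, 0 < s' → s' ≤ s → s ≤ s0 → q z s' ^ 2 ≤ C * (s' / s) ^ β * q z s ^ 2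
  top : ∀ z ∈ A, q z s0 ^ 2 ≤ C
  near : ∀ z ∈ A, ∀ w ∈ A, ∀ s, 0 < s → s ≤ s0 → ‖z - w‖ ^ 2 ≤ 4 * s → q w s ^ 2 ≤ C * q z s ^ 2
  unb : ∀ z ∈ A, ∀ M : ℝ, ∃ s, 0 < s ∧ s ≤ s0 ∧ M * s ≤ q z s ^ 2

end Pool.Agent.Lib.MP_45cb44_an.Hy
end

-- part Pool.Agent.Lib.MP_45cb44_an.HyBas
section

/-! Basic facts on the regularised inverse and on the minimal cost. -/

namespace Pool.Agent.Lib.MP_45cb44_an.Hy

open MeasureTheory Metric Set Filter Topology InnerProductSpace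
open scoped InnerProductSpace ComplexConjugate

variable {H : Type*} [NormedAddCommGroup H] [InnerProductSpace ℂ H] [CompleteSpace H]
  {T B Φ Ψ : H →L[ℂ] H} {z w u : ℂ} {s σ t : ℝ}

lemma bas_sl (X : H →L[ℂ] H) (x y : H) : ⟪star X x, y⟫_ℂ = ⟪x, X y⟫_ℂ :=
  ContinuousLinearMap.adjoint_inner_left X y x

lemma bas_sr (X : H →L[ℂ] H) (x y : H) : ⟪x, star X y⟫_ℂ = ⟪X x, y⟫_ℂ :=
  ContinuousLinearMap.adjoint_inner_right X x y

omit [CompleteSpace H] in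
lemma bas_self (x : H) : ⟪x, x⟫_ℂ = ((‖x‖ ^ 2 : ℝ) : ℂ) := by
  rw [inner_self_eq_norm_sq_to_K]; simp

omit [CompleteSpace H] in
lemma bas_re_symm (x y : H) : (⟪x, y⟫_ℂ).re = (⟪y, x⟫_ℂ).re := inner_re_symm (𝕜 := ℂ) x y

omit [CompleteSpace H] in
lemma bas_add_sq (x y : H) : ‖x + y‖ ^ 2 = ‖x‖ ^ 2 + 2 * (⟪x, y⟫_ℂ).re + ‖y‖ ^ 2 :=
  norm_add_sq (𝕜 := ℂ) x y

omit [CompleteSpace H] in
lemma bas_sub_sq (x y : H) : ‖x - y‖ ^ 2 = ‖x‖ ^ 2 - 2 * (⟪x, y⟫_ℂ).re + ‖y‖ ^ 2 :=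
  norm_sub_sq (𝕜 := ℂ) x y

omit [CompleteSpace H] in
lemma bas_re_le (x y : H) : (⟪x, y⟫_ℂ).re ≤ ‖x‖ * ‖y‖ :=
  (Complex.re_le_norm _).trans (norm_inner_le_norm _ _)

lemma bas_pos (hB : B.IsPositive) (x : H) : 0 ≤ (⟪x, B x⟫_ℂ).re := hB.re_inner_nonneg_right x

lemma pos_mul_star (Φ : H →L[ℂ] H) : (Φ * star Φ).IsPositive := ContinuousLinearMap.isPositive_self_comp_adjoint Φ

lemma hd_pos (φ : ℕ → H) (j : ℕ) : (hd φ j).IsPositive :=   ContinuousLinearMap.isPositive_sum _ fun l _ => isPositive_rankOne_self (φ l)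

lemma inner_mul_star (Φ : H →L[ℂ] H) (x : H) : (⟪x, (Φ * star Φ) x⟫_ℂ).re = ‖star Φ x‖ ^ 2 := by
  rw [mul_apply_eq_comp, ← bas_sl, bas_self, Complex.ofReal_re]

lemma inner_hd (φ : ℕ → H) (j : ℕ) (x : H) :
    (⟪x, hd φ j x⟫_ℂ).re = ∑ l ∈ Finset.range j, ‖⟪φ l, x⟫_ℂ‖ ^ 2 := by
  rw [hd, sum_apply, inner_sum, Complex.re_sum]
  refine Finset.sum_congr rfl fun l _ => ?_
  rw [rankOne_apply, inner_smul_right, ← inner_conj_symm x, Complex.mul_conj,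
    Complex.normSq_eq_norm_sq, Complex.ofReal_re]

lemma LL_sa (hB : B.IsPositive) (z : ℂ) (s : ℝ) : IsSelfAdjoint (LL T B z s) := by
  simp [LL, isSelfAdjoint_iff, star_smul, hB.isSelfAdjoint.star_eq]

lemma FF_sa (hB : B.IsPositive) (z : ℂ) (s : ℝ) : IsSelfAdjoint (FF T B z s) := (LL_sa hB z s).ringInverse

lemma inner_FF_symm (hB : B.IsPositive) (z : ℂ) (s : ℝ) (x y : H) :
    ⟪FF T B z s x, y⟫_ℂ = ⟪x, FF T B z s y⟫_ℂ := by
  rw [← bas_sl, (FF_sa hB z s).star_eq]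

lemma bas_LL (T B : H →L[ℂ] H) (z : ℂ) (s : ℝ) (x : H) :
    LL T B z s x = SS T z (star (SS T z) x) + B x + (s : ℂ) • x := rfl

lemma inner_LL (T B : H →L[ℂ] H) (z : ℂ) (s : ℝ) (x : H) : (⟪x, LL T B z s x⟫_ℂ).re =
    ‖star (SS T z) x‖ ^ 2 + (⟪x, B x⟫_ℂ).re + s * ‖x‖ ^ 2 := by
  rw [bas_LL, inner_add_right, inner_add_right, ← bas_sl, inner_smul_right, bas_self, bas_self,
    ← Complex.ofReal_mul, Complex.add_re, Complex.add_re, Complex.ofReal_re, Complex.ofReal_re]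

lemma unit_LL (hB : B.IsPositive) {κ : ℝ} (hκ : 0 < κ)
    (h : ∀ x, κ * ‖x‖ ^ 2 ≤ ‖star (SS T z) x‖ ^ 2 + s * ‖x‖ ^ 2) :
    IsUnit (LL T B z s) ∧ ‖FF T B z s‖ ≤ κ⁻¹ := by
  have h1 : ∀ x, κ * ‖x‖ ^ 2 ≤ ‖⟪LL T B z s x, x⟫_ℂ‖ := fun x => by
    refine le_trans ?_ (Complex.re_le_norm _)
    rw [bas_re_symm, inner_LL]
    linarith [h x, bas_pos hB x]
  have hu : IsUnit (LL T B z s) := by
    refine ContinuousLinearMap.isUnit_of_forall_le_norm_inner_map _ (c := ⟨κ, hκ.le⟩) hκ fun x => ?_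
    rw [mul_comm]; exact h1 x
  refine ⟨hu, ContinuousLinearMap.opNorm_le_bound _ (by positivity) fun y => ?_⟩
  have e : LL T B z s (FF T B z s y) = y := by
    rw [← mul_apply_eq_comp, FF, Ring.mul_inverse_cancel _ hu]; rfl
  have h2 := (h1 (FF T B z s y)).trans (norm_inner_le_norm _ _)
  rw [e] at h2
  rcases (norm_nonneg (FF T B z s y)).eq_or_lt with h3 | h3
  · rw [← h3]; positivity
  · rw [← div_eq_inv_mul, le_div_iff₀ hκ]
    nlinarith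

lemma unit_LL_pos (hB : B.IsPositive) (z : ℂ) (hs : 0 < s) :
    IsUnit (LL T B z s) ∧ ‖FF T B z s‖ ≤ s⁻¹ :=   unit_LL hB hs fun x => by nlinarith [sq_nonneg ‖star (SS T z) x‖]

lemma LL_FF (hB : B.IsPositive) (z : ℂ) (hs : 0 < s) (x : H) :
    LL T B z s (FF T B z s x) = x := by
  rw [← mul_apply_eq_comp, FF, Ring.mul_inverse_cancel _ (unit_LL_pos hB z hs).1]; rfl

lemma FF_LL (hB : B.IsPositive) (z : ℂ) (hs : 0 < s) (x : H) :
    FF T B z s (LL T B z s x) = x := by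
  rw [← mul_apply_eq_comp, FF, Ring.inverse_mul_cancel _ (unit_LL_pos hB z hs).1]; rfl

lemma norm_FF_far (hB : B.IsPositive) (hs : 0 < s) (hz : 2 * ‖T‖ ≤ ‖z‖) (h0 : z ≠ 0) :
    ‖FF T B z s‖ ≤ 4 / ‖z‖ ^ 2 := by
  have hz0 : 0 < ‖z‖ := norm_pos_iff.2 h0
  have := (unit_LL (T := T) (z := z) (s := s) hB (κ := ‖z‖ ^ 2 / 4) (by positivity) fun x => by
    have h1 := lower_SS T z x
    have h2 : ‖z‖ / 2 * ‖x‖ ≤ ‖star (SS T z) x‖ := by nlinarith [norm_nonneg x]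
    have h3 := mul_self_le_mul_self (by positivity) h2
    nlinarith [sq_nonneg ‖x‖]).2
  rwa [inv_div] at this

lemma norm_FF_decay (hB : B.IsPositive) (z : ℂ) {a C : ℝ} (ha : 0 < a) (hC : 2 ≤ C)
    (h : 2 * ‖T‖ ^ 2 + a ≤ C * s) : ‖FF T B z s‖ ≤ C / (‖z‖ ^ 2 + a) := by
  have := (unit_LL (T := T) (z := z) (s := s) hB (κ := (‖z‖ ^ 2 + a) / C) (by positivity) fun x => by
    have h1 := lower_SS T z x
    have h2 := mul_self_le_mul_self (by positivity) h1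
    rw [div_mul_eq_mul_div, div_le_iff₀ (by positivity)]
    have h3 := mul_le_mul_of_nonneg_right h (sq_nonneg ‖x‖)
    have h4 := mul_le_mul_of_nonneg_right hC (sq_nonneg ‖star (SS T z) x‖)
    nlinarith [sq_nonneg (‖star (SS T z) x‖ - ‖T‖ * ‖x‖)]).2
  rwa [inv_div] at this

lemma continuousOn_FF (hB : B.IsPositive) :
    ContinuousOn (fun p : ℂ × ℝ => FF T B p.1 p.2) (univ ×ˢ Ioi 0) := by
  intro p hp
  obtain ⟨v, hv⟩ := (unit_LL_pos (T := T) hB p.1 (mem_prod.1 hp).2).1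
  have h1 := NormedRing.inverse_continuousAt v
  rw [hv] at h1
  have h2 : Continuous fun x : ℂ × ℝ => LL T B x.1 x.2 := by
    unfold LL SS
    fun_prop
  exact (ContinuousAt.comp (f := fun x : ℂ × ℝ => LL T B x.1 x.2) h1
    h2.continuousAt).continuousWithinAt

/-- The quadratic form of the inverse. -/
lemma inner_FF (hB : B.IsPositive) (z : ℂ) (hs : 0 < s) (y : H) : (⟪y, FF T B z s y⟫_ℂ).re =
    ‖star (SS T z) (FF T B z s y)‖ ^ 2 + (⟪FF T B z s y, B (FF T B z s y)⟫_ℂ).re +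
      s * ‖FF T B z s y‖ ^ 2 := by
  rw [← inner_LL, LL_FF hB z hs, bas_re_symm]

lemma inner_FF_nonneg (hB : B.IsPositive) (z : ℂ) (hs : 0 < s) (y : H) :
    0 ≤ (⟪y, FF T B z s y⟫_ℂ).re := by
  rw [inner_FF hB z hs]
  have := bas_pos hB (FF T B z s y)
  positivity

/-- Variational lower bound for the quadratic form of the inverse. -/
lemma FF_var (hB : B.IsPositive) (z : ℂ) (hs : 0 < s) (y h : H) :
    2 * (⟪y, h⟫_ℂ).re - (⟪h, LL T B z s h⟫_ℂ).re ≤ (⟪y, FF T B z s y⟫_ℂ).re := by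
  have h1 : 0 ≤ (⟪h - FF T B z s y, LL T B z s (h - FF T B z s y)⟫_ℂ).re := by
    rw [inner_LL]
    have := bas_pos hB (h - FF T B z s y)
    positivity
  rw [map_sub, LL_FF hB z hs, inner_sub_left, inner_sub_right, inner_sub_right,
    inner_FF_symm hB, inner_FF_symm hB, FF_LL hB z hs] at h1
  simp only [Complex.sub_re] at h1
  linarith [bas_re_symm h y]

lemma bas_real (hB : B.IsPositive) (z : ℂ) (s : ℝ) (y : H) :
    (((⟪y, FF T B z s y⟫_ℂ).re : ℝ) : ℂ) = ⟪y, FF T B z s y⟫_ℂ := om_real y (FF_sa hB z s)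

/-- Sherman-Morrison formula. -/
lemma FF_add_rankOne (hB : B.IsPositive) (z : ℂ) (hs : 0 < s) (φ x : H) :
    FF T (B + rankOne ℂ φ φ) z s x = FF T B z s x -
      (⟪FF T B z s φ, x⟫_ℂ / (1 + (⟪φ, FF T B z s φ⟫_ℂ).re : ℝ)) • FF T B z s φ := by
  have hB' := hB.add (isPositive_rankOne_self (𝕜 := ℂ) φ)
  have h0 : ((1 + (⟪φ, FF T B z s φ⟫_ℂ).re : ℝ) : ℂ) ≠ 0 :=
    Complex.ofReal_ne_zero.2 (by linarith [inner_FF_nonneg (T := T) hB z hs φ])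
  have e : ∀ y, LL T (B + rankOne ℂ φ φ) z s y = LL T B z s y + ⟪φ, y⟫_ℂ • φ := fun y => by
    simp only [bas_LL, add_apply, rankOne_apply]
    abel
  refine (congrArg _ ?_).trans (FF_LL hB' z hs _)
  rw [e, map_sub, map_smul, LL_FF hB z hs, LL_FF hB z hs, inner_sub_right, inner_smul_right,
    inner_FF_symm hB, sub_add, ← sub_smul]
  rw [show ⟪φ, FF T B z s x⟫_ℂ / (1 + (⟪φ, FF T B z s φ⟫_ℂ).re : ℝ) - (⟪φ, FF T B z s x⟫_ℂ -
    ⟪φ, FF T B z s x⟫_ℂ / (1 + (⟪φ, FF T B z s φ⟫_ℂ).re : ℝ) * ⟪φ, FF T B z s φ⟫_ℂ) = 0 by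
      rw [← bas_real hB z s φ, Complex.ofReal_re]
      field_simp
      push_cast
      ring, zero_smul, sub_zero]

lemma FF_sub_scale (hB : B.IsPositive) (z : ℂ) (hs : 0 < s) (hσ : 0 < σ) (x : H) :
    FF T B z s x - FF T B z σ x = ((σ - s : ℝ) : ℂ) • FF T B z s (FF T B z σ x) := by
  have e : x = LL T B z s (FF T B z σ x) + ((σ - s : ℝ) : ℂ) • FF T B z σ x := by
    nth_rewrite 1 [← LL_FF (T := T) hB z hσ x]
    simp only [bas_LL, Complex.ofReal_sub, sub_smul]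
    abel
  nth_rewrite 1 [e]
  rw [map_add, FF_LL hB z hs, map_smul, add_sub_cancel_left]

lemma FF_sub_back {B' : H →L[ℂ] H} (hB : B.IsPositive) (hB' : B'.IsPositive) (z : ℂ) (hs : 0 < s)
    (x : H) : FF T B z s x - FF T B' z s x = FF T B z s ((B' - B) (FF T B' z s x)) := by
  have e : x = LL T B z s (FF T B' z s x) + (B' - B) (FF T B' z s x) := by
    nth_rewrite 1 [← LL_FF (T := T) hB' z hs x]
    simp only [bas_LL, sub_apply]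
    abel
  nth_rewrite 1 [e]
  rw [map_add, FF_LL hB z hs, add_sub_cancel_left]

lemma SS_comm (hc : star T * T + Ψ * star Ψ = T * star T + Φ * star Φ) (z : ℂ) :
    star (SS T z) * SS T z + Ψ * star Ψ = SS T z * star (SS T z) + Φ * star Φ := by
  rw [star_SS, SS]
  simp only [sub_mul, mul_sub, smul_mul_assoc, mul_smul_comm, one_mul, mul_one, smul_sub,
    smul_smul, mul_comm z]
  linear_combination (norm := module) hc

lemma norm_SS_eq (hc : star T * T + Ψ * star Ψ = T * star T + Φ * star Φ) (z : ℂ) (h : H) :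
    ‖SS T z h‖ ^ 2 + ‖star Ψ h‖ ^ 2 = ‖star (SS T z) h‖ ^ 2 + ‖star Φ h‖ ^ 2 := by
  have := congrArg (fun X : H →L[ℂ] H => (⟪h, X h⟫_ℂ).re) (SS_comm hc z)
  simp only [add_apply, inner_add_right, Complex.add_re,
    inner_mul_star] at this
  rwa [mul_apply_eq_comp, bas_sr, bas_self, Complex.ofReal_re] at this

lemma SS_star (T : H →L[ℂ] H) (z : ℂ) : SS (star T) (conj z) = star (SS T z) := (star_SS T z).symm

lemma star_SS_shift (T : H →L[ℂ] H) (z w : ℂ) (h : H) :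
    star (SS T w) h = star (SS T z) h + conj (z - w) • h := by
  simp only [star_SS, map_sub, sub_apply, smul_apply,
    one_apply_eq_self, sub_smul]
  abel

lemma SS_shift (T : H →L[ℂ] H) (z w : ℂ) (h : H) : SS T w h = SS T z h + (z - w) • h := by
  simp only [SS, sub_apply, smul_apply,
    one_apply_eq_self, sub_smul]
  abel

/-- The defining equation of a state. -/
lemma st_eq (T Φ : H →L[ℂ] H) (z : ℂ) (hs : 0 < s) (a : H) :
    SS T z (star (SS T z) (st T Φ z s a)) =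
      Φ (a - star Φ (st T Φ z s a)) - (s : ℂ) • st T Φ z s a := by
  have := LL_FF (T := T) (pos_mul_star Φ) z hs (Φ a)
  rw [bas_LL, mul_apply_eq_comp] at this
  rw [map_sub, ← this, st]
  abel

lemma st_add (a a' : H) : st T Φ z s (a + a') = st T Φ z s a + st T Φ z s a' := by
  simp only [st, map_add]

lemma st_sub (a a' : H) : st T Φ z s (a - a') = st T Φ z s a - st T Φ z s a' := by
  simp only [st, map_sub]

lemma st_smul (c : ℂ) (a : H) : st T Φ z s (c • a) = c • st T Φ z s a := by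
  simp only [st, map_smul]

lemma GG_nonneg (hs : 0 < s) (a : H) : 0 ≤ GG T Φ z s a := by
  unfold GG cost
  positivity

lemma gn_nonneg (a : H) : 0 ≤ gn T Φ z s a := Real.sqrt_nonneg _

lemma gn_sq (hs : 0 < s) (a : H) : gn T Φ z s a ^ 2 = GG T Φ z s a := Real.sq_sqrt (GG_nonneg hs a)

lemma bas_null (hs : 0 < s) (a k : H) :
    ⟪star (SS T z) k, star (SS T z) (st T Φ z s a)⟫_ℂ + s * ⟪k, st T Φ z s a⟫_ℂ =
      ⟪star Φ k, a - star Φ (st T Φ z s a)⟫_ℂ := by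
  rw [bas_sl, bas_sl, st_eq T Φ z hs, inner_sub_right, inner_smul_right, sub_add_cancel]

lemma GG_eq (hs : 0 < s) (a : H) :
    ((GG T Φ z s a : ℝ) : ℂ) = ⟪a, a - star Φ (st T Φ z s a)⟫_ℂ := by
  have := bas_null (T := T) (Φ := Φ) (z := z) hs a (st T Φ z s a)
  rw [bas_self, bas_self] at this
  rw [GG, cost, Complex.ofReal_add, Complex.ofReal_add, Complex.ofReal_mul, this, ← bas_self,
    ← inner_add_left, add_sub_cancel]

lemma GG_le_cost (hs : 0 < s) (a h : H) : GG T Φ z s a ≤ cost T Φ z s a h := by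
  obtain ⟨k, rfl⟩ : ∃ k, h = k + st T Φ z s a := ⟨h - st T Φ z s a, by abel⟩
  have := congrArg Complex.re (bas_null (T := T) (Φ := Φ) (z := z) hs a k)
  rw [Complex.add_re, Complex.re_ofReal_mul, bas_re_symm (star Φ k)] at this
  rw [GG, cost, cost, map_add, map_add, add_comm (star Φ k), ← sub_sub, bas_add_sq, bas_add_sq,
    bas_sub_sq _ (star Φ k)]
  nlinarith [sq_nonneg ‖star (SS T z) k‖, sq_nonneg ‖star Φ k‖, mul_nonneg hs.le (sq_nonneg ‖k‖)]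

lemma bas_GG (hs : 0 < s) (a : H) :
    GG T Φ z s a = (⟪a, a - star Φ (st T Φ z s a)⟫_ℂ).re := by
  rw [← GG_eq hs, Complex.ofReal_re]

lemma bas_symm (a a' : H) :
    ⟪a, a' - star Φ (st T Φ z s a')⟫_ℂ = ⟪a - star Φ (st T Φ z s a), a'⟫_ℂ := by
  rw [inner_sub_right, inner_sub_left, bas_sr, bas_sl, st, st, inner_FF_symm (pos_mul_star Φ)]

lemma GG_add (hs : 0 < s) (a a' : H) : GG T Φ z s (a + a') =
    GG T Φ z s a + GG T Φ z s a' + 2 * (⟪a', a - star Φ (st T Φ z s a)⟫_ℂ).re := by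
  have e : a + a' - star Φ (st T Φ z s (a + a')) =
      (a - star Φ (st T Φ z s a)) + (a' - star Φ (st T Φ z s a')) := by
    rw [st_add, map_add]
    abel
  rw [bas_GG hs, bas_GG hs a, bas_GG hs a', e, inner_add_left, inner_add_right, inner_add_right,
    bas_symm a a']
  simp only [Complex.add_re]
  linarith [bas_re_symm a' (a - star Φ (st T Φ z s a))]

lemma GG_smul (hs : 0 < s) (c : ℂ) (a : H) : GG T Φ z s (c • a) = ‖c‖ ^ 2 * GG T Φ z s a := by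
  have := hs
  rw [GG, GG, cost, cost, st_smul, map_smul, map_smul, ← smul_sub, norm_smul, norm_smul, norm_smul]
  ring

lemma gn_smul (hs : 0 < s) (c : ℂ) (a : H) : gn T Φ z s (c • a) = ‖c‖ * gn T Φ z s a := by
  rw [gn, GG_smul hs, Real.sqrt_mul (sq_nonneg _), Real.sqrt_sq (norm_nonneg _), gn]

lemma gn_add_le (hs : 0 < s) (a a' : H) :
    gn T Φ z s (a + a') ≤ gn T Φ z s a + gn T Φ z s a' := by
  have h1 : ∀ r : ℝ, 0 ≤ GG T Φ z s a' * (r * r) +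
      2 * (⟪a', a - star Φ (st T Φ z s a)⟫_ℂ).re * r + GG T Φ z s a := fun r => by
    have := GG_nonneg (T := T) (Φ := Φ) (z := z) hs (a + (r : ℂ) • a')
    rw [GG_add hs, GG_smul hs, inner_smul_left, Complex.conj_ofReal, Complex.re_ofReal_mul,
      Complex.norm_real, Real.norm_eq_abs, sq_abs] at this
    linarith
  have h2 := discrim_le_zero h1
  rw [discrim, ← gn_sq hs a, ← gn_sq hs a'] at h2
  have h3 : (⟪a', a - star Φ (st T Φ z s a)⟫_ℂ).re ≤ gn T Φ z s a * gn T Φ z s a' :=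
    le_of_sq_le_sq (by nlinarith) (mul_nonneg (gn_nonneg a) (gn_nonneg a'))
  refine le_of_sq_le_sq ?_ (add_nonneg (gn_nonneg a) (gn_nonneg a'))
  rw [gn_sq hs, GG_add hs, ← gn_sq hs a, ← gn_sq hs a']
  nlinarith

lemma gn_sub_le (hs : 0 < s) (a a' : H) :
    gn T Φ z s (a - a') ≤ gn T Φ z s a + gn T Φ z s a' := by
  have := gn_add_le (T := T) (Φ := Φ) (z := z) hs a ((-1 : ℂ) • a')
  rwa [gn_smul hs, neg_one_smul, ← sub_eq_add_neg, norm_neg, norm_one, one_mul] at this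

lemma gn_le_norm (hs : 0 < s) (a : H) : gn T Φ z s a ≤ ‖a‖ := by
  refine le_of_sq_le_sq ?_ (norm_nonneg a)
  simpa [cost, gn_sq hs] using GG_le_cost (T := T) (Φ := Φ) (z := z) hs a 0

lemma GG_ge (hs : 0 < s) (a : H) : ‖a‖ ^ 2 - ‖Φ a‖ ^ 2 / s ≤ GG T Φ z s a := by
  rw [bas_GG hs, inner_sub_right, bas_sr, bas_self, Complex.sub_re, Complex.ofReal_re]
  refine sub_le_sub_left ((bas_re_le _ _).trans ?_) _
  have h1 := ((FF T (Φ * star Φ) z s).le_opNorm (Φ a)).trans (mul_le_mul_of_nonneg_right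
    (unit_LL_pos (pos_mul_star Φ) z hs).2 (norm_nonneg _))
  calc _ ≤ ‖Φ a‖ * (s⁻¹ * ‖Φ a‖) := mul_le_mul_of_nonneg_left h1 (norm_nonneg _)
    _ = _ := by ring

lemma norm_le_GG (hs : 0 < s) (a : H) : ‖a‖ ^ 2 ≤ (2 + 2 * ‖Φ‖ ^ 2 / s) * GG T Φ z s a := by
  have h1 : ‖a‖ ≤ ‖a - star Φ (st T Φ z s a)‖ + ‖Φ‖ * ‖st T Φ z s a‖ := by
    have h2 := (star Φ).le_opNorm (st T Φ z s a)
    rw [norm_star] at h2
    linarith [norm_le_norm_sub_add a (star Φ (st T Φ z s a))]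
  have h2 := mul_self_le_mul_self (norm_nonneg _) h1
  have h3 : 2 * ‖Φ‖ ^ 2 / s * (s * ‖st T Φ z s a‖ ^ 2) = 2 * (‖Φ‖ * ‖st T Φ z s a‖) ^ 2 := by
    field_simp
  have h4 : 0 ≤ 2 * ‖Φ‖ ^ 2 / s := by positivity
  rw [GG, cost]
  nlinarith [sq_nonneg (‖a - star Φ (st T Φ z s a)‖ - ‖Φ‖ * ‖st T Φ z s a‖),
    sq_nonneg ‖star (SS T z) (st T Φ z s a)‖, mul_nonneg hs.le (sq_nonneg ‖st T Φ z s a‖),
    mul_nonneg h4 (sq_nonneg ‖star (SS T z) (st T Φ z s a)‖),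
    mul_nonneg h4 (sq_nonneg ‖a - star Φ (st T Φ z s a)‖)]

lemma norm_star_st_le (hs : 0 < s) (a : H) : ‖star (SS T z) (st T Φ z s a)‖ ≤ gn T Φ z s a := by
  refine Real.le_sqrt_of_sq_le ?_
  rw [GG, cost]
  nlinarith [mul_nonneg hs.le (sq_nonneg ‖st T Φ z s a‖), sq_nonneg ‖a - star Φ (st T Φ z s a)‖]

lemma norm_st_le (hs : 0 < s) (a : H) : s * ‖st T Φ z s a‖ ^ 2 ≤ GG T Φ z s a := by
  have := hs
  rw [GG, cost]
  nlinarith [sq_nonneg ‖star (SS T z) (st T Φ z s a)‖, sq_nonneg ‖a - star Φ (st T Φ z s a)‖]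

lemma norm_res_le (hs : 0 < s) (a : H) : ‖a - star Φ (st T Φ z s a)‖ ≤ gn T Φ z s a := by
  refine Real.le_sqrt_of_sq_le ?_
  rw [GG, cost]
  nlinarith [mul_nonneg hs.le (sq_nonneg ‖st T Φ z s a‖), sq_nonneg ‖star (SS T z) (st T Φ z s a)‖]

lemma GG_mono (hs : 0 < s) (h : s ≤ σ) (a : H) : GG T Φ z s a ≤ GG T Φ z σ a := by
  refine (GG_le_cost hs a (st T Φ z σ a)).trans ?_
  rw [GG, cost, cost]
  gcongr

lemma gn_mono (hs : 0 < s) (h : s ≤ σ) (a : H) : gn T Φ z s a ≤ gn T Φ z σ a := Real.sqrt_le_sqrt (GG_mono hs h a)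

lemma GG_scale (hs : 0 < s) (h : s ≤ σ) (a : H) : s * GG T Φ z σ a ≤ σ * GG T Φ z s a := by
  refine (mul_le_mul_of_nonneg_left (GG_le_cost (hs.trans_le h) a (st T Φ z s a)) hs.le).trans ?_
  rw [GG, cost, cost]
  nlinarith [mul_le_mul_of_nonneg_right h (sq_nonneg ‖star (SS T z) (st T Φ z s a)‖),
    mul_le_mul_of_nonneg_right h (sq_nonneg ‖a - star Φ (st T Φ z s a)‖)]

/-- Comparison of the minimal costs at two points. -/
lemma GG_comp {l : ℝ} (ht : 0 < t) (hσ : 0 < σ) (hl : 2 ≤ l) (h : 2 * ‖z - u‖ ^ 2 + σ ≤ l * t)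
    (a : H) : GG T Φ u σ a ≤ l * GG T Φ z t a := by
  have := ht
  refine (GG_le_cost hσ a (st T Φ z t a)).trans ?_
  have h1 := norm_add_le (star (SS T z) (st T Φ z t a)) (conj (z - u) • st T Φ z t a)
  rw [norm_smul, Complex.norm_conj] at h1
  have h2 := mul_self_le_mul_self (norm_nonneg _) h1
  rw [GG, cost, cost, star_SS_shift T z u]
  nlinarith [mul_le_mul_of_nonneg_right h (sq_nonneg ‖st T Φ z t a‖),
    mul_le_mul_of_nonneg_right hl (sq_nonneg ‖star (SS T z) (st T Φ z t a)‖),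
    mul_le_mul_of_nonneg_right hl (sq_nonneg ‖a - star Φ (st T Φ z t a)‖),
    sq_nonneg ‖a - star Φ (st T Φ z t a)‖,
    sq_nonneg (‖star (SS T z) (st T Φ z t a)‖ - ‖z - u‖ * ‖st T Φ z t a‖)]

lemma inner_st_same (hs : 0 < s) (hσ : 0 < σ) (a : H) :
    ((σ - s : ℝ) : ℂ) * ⟪st T Φ z s a, st T Φ z σ a⟫_ℂ =
      ((GG T Φ z σ a - GG T Φ z s a : ℝ) : ℂ) := by
  rw [Complex.ofReal_sub (GG T Φ z σ a), GG_eq hs, GG_eq hσ, ← inner_sub_right, sub_sub_sub_cancel_left,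
    ← map_sub, bas_sr, st, st, FF_sub_scale (pos_mul_star Φ) z hs hσ, inner_smul_right,
    inner_FF_symm (pos_mul_star Φ)]

end Pool.Agent.Lib.MP_45cb44_an.Hy
end
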