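import Pool.Agent.Lib.MP_45cb44_an.HyBas

/-! Overlap estimates for states, and the family of approximate eigenvectors. -/

namespace Pool.Agent.Lib.MP_45cb44_an.Hy

open MeasureTheory Metric Set Filter Topology InnerProductSpace
open scoped InnerProductSpace ComplexConjugate

variable {H : Type*} [NormedAddCommGroup H] [InnerProductSpace ℂ H] [CompleteSpace H]
  {T Φ Ψ : H →L[ℂ] H} {z w u : ℂ} {s σ t : ℝ}

lemma ops_le {a b : ℝ} (hb : 0 ≤ b) (h : a ^ 2 ≤ b ^ 2) : a ≤ b :=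
  (abs_le_of_sq_le_sq' h hb).2

omit [CompleteSpace H] in
lemma ops_in {x y : H} {a b : ℝ} (hx : ‖x‖ ≤ a) (hy : ‖y‖ ≤ b) : ‖⟪x, y⟫_ℂ‖ ≤ a * b :=
  (norm_inner_le_norm x y).trans (mul_le_mul hx hy (norm_nonneg _) ((norm_nonneg _).trans hx))

lemma ops_mul_conj (c : ℂ) : c * conj c = ((‖c‖ ^ 2 : ℝ) : ℂ) := by
  rw [Complex.mul_conj']; simp

lemma ops_null_sq (hc : star T * T + Ψ * star Ψ = T * star T + Φ * star Φ) {h : H} {e : ℝ}
    (h1 : ‖star (SS T z) h‖ ≤ e) (h2 : ‖star Φ h‖ ≤ e) :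
    ‖SS T z h‖ ^ 2 ≤ 2 * e ^ 2 ∧ ‖star Ψ h‖ ^ 2 ≤ 2 * e ^ 2 := by
  have h3 := norm_SS_eq hc z h
  have h4 := pow_le_pow_left₀ (norm_nonneg _) h1 2
  have h5 := pow_le_pow_left₀ (norm_nonneg _) h2 2
  constructor
  · nlinarith [sq_nonneg ‖star Ψ h‖]
  · nlinarith [sq_nonneg ‖SS T z h‖]

lemma ops_st_sq (hs : 0 < s) (a : H) : s * ‖st T Φ z s a‖ ^ 2 ≤ gn T Φ z s a ^ 2 := by
  rw [gn_sq hs]; exact norm_st_le hs a

/-- An approximate null vector against a state. -/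
lemma ov_null (hc : star T * T + Ψ * star Ψ = T * star T + Φ * star Φ) {h : H} {e : ℝ}
    (h1 : ‖star (SS T z) h‖ ≤ e) (h2 : ‖star Φ h‖ ≤ e) (hσ : 0 < σ) (w : ℂ) (b : H) :
    ‖⟪h, st T Φ w σ b⟫_ℂ‖ ≤ 3 * e * gn T Φ w σ b / σ := by
  have he : 0 ≤ e := (norm_nonneg _).trans h1
  have hg : 0 ≤ gn T Φ w σ b := gn_nonneg b
  have e1 := st_eq T Φ w hσ b
  have n1 := norm_star_st_le (T := T) (Φ := Φ) (z := w) hσ b
  have n2 := norm_res_le (T := T) (Φ := Φ) (z := w) hσ b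
  have n3 := ops_st_sq (T := T) (Φ := Φ) (z := w) hσ b
  have n4 := (ops_null_sq hc h1 h2).1
  generalize gn T Φ w σ b = g at *
  generalize st T Φ w σ b = η at *
  have k1 : ⟪h, star (SS T w) η⟫_ℂ = ⟪SS T z h, η⟫_ℂ + conj (z - w) * ⟪h, η⟫_ℂ := by
    rw [bas_sr, SS_shift T z w, inner_add_left, inner_smul_left]
  have k2 : ⟪h, SS T w (star (SS T w) η)⟫_ℂ = ⟪star (SS T z) h, star (SS T w) η⟫_ℂ +
      (z - w) * ⟪h, star (SS T w) η⟫_ℂ := by
    rw [← bas_sl, star_SS_shift T z w h, inner_add_left, inner_smul_left, Complex.conj_conj]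
  have k3 : ⟪h, SS T w (star (SS T w) η)⟫_ℂ = ⟪star Φ h, b - star Φ η⟫_ℂ - σ * ⟪h, η⟫_ℂ := by
    rw [e1, inner_sub_right, inner_smul_right, bas_sl]
  have k4 : ((σ + ‖z - w‖ ^ 2 : ℝ) : ℂ) * ⟪h, η⟫_ℂ = ⟪star Φ h, b - star Φ η⟫_ℂ -
      ⟪star (SS T z) h, star (SS T w) η⟫_ℂ - (z - w) * ⟪SS T z h, η⟫_ℂ := by
    rw [Complex.ofReal_add, ← ops_mul_conj]
    linear_combination k3 - k2 - (z - w) * k1
  have hp : 0 < σ + ‖z - w‖ ^ 2 := by positivity
  have k5 : (σ + ‖z - w‖ ^ 2) * ‖⟪h, η⟫_ℂ‖ ≤ e * g + e * g + ‖z - w‖ * (‖SS T z h‖ * ‖η‖) := by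
    have := congrArg norm k4
    rw [norm_mul, Complex.norm_real, Real.norm_of_nonneg hp.le] at this
    rw [this]
    refine (norm_sub_le _ _).trans (add_le_add ((norm_sub_le _ _).trans
      (add_le_add (ops_in h2 n2) (ops_in h1 n1))) ?_)
    rw [norm_mul]
    exact mul_le_mul_of_nonneg_left (norm_inner_le_norm _ _) (norm_nonneg _)
  have k6 : σ * (‖z - w‖ * (‖SS T z h‖ * ‖η‖)) ≤ (σ + ‖z - w‖ ^ 2) * (e * g) := by
    refine ops_le (by positivity) ?_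
    have a1 : ‖SS T z h‖ ^ 2 * (σ * ‖η‖ ^ 2) ≤ 2 * e ^ 2 * g ^ 2 :=
      mul_le_mul n4 n3 (by positivity) (by positivity)
    have a2 : σ * ‖z - w‖ ^ 2 * 2 ≤ (σ + ‖z - w‖ ^ 2) ^ 2 := by
      nlinarith [sq_nonneg σ, sq_nonneg (‖z - w‖ ^ 2)]
    calc (σ * (‖z - w‖ * (‖SS T z h‖ * ‖η‖))) ^ 2
        = σ * ‖z - w‖ ^ 2 * (‖SS T z h‖ ^ 2 * (σ * ‖η‖ ^ 2)) := by ring
      _ ≤ σ * ‖z - w‖ ^ 2 * (2 * e ^ 2 * g ^ 2) := mul_le_mul_of_nonneg_left a1 (by positivity)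
      _ = σ * ‖z - w‖ ^ 2 * 2 * (e * g) ^ 2 := by ring
      _ ≤ (σ + ‖z - w‖ ^ 2) ^ 2 * (e * g) ^ 2 := mul_le_mul_of_nonneg_right a2 (by positivity)
      _ = ((σ + ‖z - w‖ ^ 2) * (e * g)) ^ 2 := by ring
  rw [le_div_iff₀ hσ]
  refine le_of_mul_le_mul_left ?_ hp
  have k7 := mul_le_mul_of_nonneg_left k5 hσ.le
  have k8 : 0 ≤ ‖z - w‖ ^ 2 * (e * g) := by positivity
  nlinarith

lemma inc_null (hs : 0 < s) (h : s ≤ σ) (a : H) :
    ‖star (SS T z) (st T Φ z s a - st T Φ z σ a)‖ ≤ 2 * gn T Φ z σ a ∧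
      ‖star Φ (st T Φ z s a - st T Φ z σ a)‖ ≤ 2 * gn T Φ z σ a := by
  have hσ : 0 < σ := hs.trans_le h
  have hm := gn_mono (T := T) (Φ := Φ) (z := z) hs h a
  constructor
  · rw [map_sub]
    have h1 := norm_star_st_le (T := T) (Φ := Φ) (z := z) hs a
    have h2 := norm_star_st_le (T := T) (Φ := Φ) (z := z) hσ a
    linarith [norm_sub_le (star (SS T z) (st T Φ z s a)) (star (SS T z) (st T Φ z σ a))]
  · have h1 := norm_res_le (T := T) (Φ := Φ) (z := z) hs a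
    have h2 := norm_res_le (T := T) (Φ := Φ) (z := z) hσ a
    have e : star Φ (st T Φ z s a - st T Φ z σ a) =
        (a - star Φ (st T Φ z σ a)) - (a - star Φ (st T Φ z s a)) := by
      rw [map_sub]; abel
    rw [e]
    linarith [norm_sub_le (a - star Φ (st T Φ z σ a)) (a - star Φ (st T Φ z s a))]

lemma ops_null' (hc : star T * T + Ψ * star Ψ = T * star T + Φ * star Φ) {h : H} {e : ℝ}
    (h1 : ‖star (SS T z) h‖ ≤ e) (h2 : ‖star Φ h‖ ≤ e) (hσ : 0 < σ) (w : ℂ) (b : H) :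
    σ * ‖⟪st T Φ w σ b, h⟫_ℂ‖ ≤ 3 * e * gn T Φ w σ b := by
  have := ov_null hc h1 h2 hσ w b
  rw [le_div_iff₀ hσ, norm_inner_symm] at this
  linarith

/-- The cross term in the overlap of two increments. -/
lemma ops_cross (hc : star T * T + Ψ * star Ψ = T * star T + Φ * star Φ) (hs : 0 < s)
    (h : s ≤ σ) (a : H) {k : H} {e : ℝ} (h1 : ‖star (SS T w) k‖ ≤ e) (h2 : ‖star Φ k‖ ≤ e) :
    ‖conj (w - z) * ⟪star (SS T z) (st T Φ z s a - st T Φ z σ a), k⟫_ℂ‖ ≤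
      10 * gn T Φ z σ a * e := by
  have hσ : 0 < σ := hs.trans_le h
  have he : 0 ≤ e := (norm_nonneg _).trans h1
  obtain ⟨n1, n2⟩ := inc_null (T := T) (Φ := Φ) (z := z) hs h a
  have hm := gn_mono (T := T) (Φ := Φ) (z := z) hs h a
  have o1 := ops_null' hc h1 h2 hs z a
  have o2 := ops_null' hc h1 h2 hσ z a
  have e1 := st_eq T Φ z hs a
  have e2 := st_eq T Φ z hσ a
  have hg := gn_nonneg (T := T) (Φ := Φ) (z := z) (s := σ) a
  generalize gn T Φ z σ a = g at *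
  generalize gn T Φ z s a = g' at *
  generalize st T Φ z σ a = η at *
  generalize st T Φ z s a = η' at *
  have k1 : SS T z (star (SS T z) (η' - η)) =
      -Φ (star Φ (η' - η)) - (s : ℂ) • η' + (σ : ℂ) • η := by
    rw [map_sub, map_sub, e1, e2]
    simp only [map_sub]
    abel
  have k2 : conj (w - z) * ⟪star (SS T z) (η' - η), k⟫_ℂ =
      -⟪star Φ (η' - η), star Φ k⟫_ℂ - s * ⟪η', k⟫_ℂ + σ * ⟪η, k⟫_ℂ -
        ⟪star (SS T z) (η' - η), star (SS T w) k⟫_ℂ := by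
    have a1 : ⟪star (SS T z) (η' - η), star (SS T z) k⟫_ℂ =
        ⟪star (SS T z) (η' - η), star (SS T w) k⟫_ℂ +
          conj (w - z) * ⟪star (SS T z) (η' - η), k⟫_ℂ := by
      conv_lhs => rw [star_SS_shift T w z k]
      rw [inner_add_right, inner_smul_right]
    have a2 : ⟪star (SS T z) (η' - η), star (SS T z) k⟫_ℂ =
        -⟪star Φ (η' - η), star Φ k⟫_ℂ - s * ⟪η', k⟫_ℂ + σ * ⟪η, k⟫_ℂ := by
      rw [bas_sr, k1, inner_add_left, inner_sub_left, inner_neg_left, inner_smul_left,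
        inner_smul_left, Complex.conj_ofReal, Complex.conj_ofReal, bas_sr]
    linear_combination a2 - a1
  rw [k2]
  have b1 := ops_in n2 h2
  have b2 := ops_in n1 h1
  have b3 : ‖(s : ℂ) * ⟪η', k⟫_ℂ‖ ≤ 3 * e * g := by
    rw [norm_mul, Complex.norm_real, Real.norm_of_nonneg hs.le]
    exact o1.trans (mul_le_mul_of_nonneg_left hm (by positivity))
  have b4 : ‖(σ : ℂ) * ⟪η, k⟫_ℂ‖ ≤ 3 * e * g := by
    rw [norm_mul, Complex.norm_real, Real.norm_of_nonneg hσ.le]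
    exact o2
  have c1 := norm_sub_le (-⟪star Φ (η' - η), star Φ k⟫_ℂ - s * ⟪η', k⟫_ℂ + σ * ⟪η, k⟫_ℂ)
    ⟪star (SS T z) (η' - η), star (SS T w) k⟫_ℂ
  have c2 := norm_add_le (-⟪star Φ (η' - η), star Φ k⟫_ℂ - s * ⟪η', k⟫_ℂ) (σ * ⟪η, k⟫_ℂ)
  have c3 := norm_sub_le (-⟪star Φ (η' - η), star Φ k⟫_ℂ) (s * ⟪η', k⟫_ℂ)
  rw [norm_neg] at c3
  linarith

lemma ops_comm (hc : star T * T + Ψ * star Ψ = T * star T + Φ * star Φ) (z w : ℂ) (k : H) :
    star (SS T z) (SS T w k) + Ψ (star Ψ k) = SS T w (star (SS T z) k) + Φ (star Φ k) := by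
  have h1 : star (SS T z) (SS T z k) + Ψ (star Ψ k) = SS T z (star (SS T z) k) + Φ (star Φ k) :=
    congrArg (fun X : H →L[ℂ] H => X k) (SS_comm hc z)
  rw [SS_shift T z w k, SS_shift T z w (star (SS T z) k), map_add, map_smul]
  linear_combination (norm := module) h1

omit [CompleteSpace H] in
lemma ops_in2 {x y : H} {a b : ℝ} (ha : 0 ≤ a) (hb : 0 ≤ b) (hx : ‖x‖ ^ 2 ≤ 2 * a ^ 2)
    (hy : ‖y‖ ^ 2 ≤ 2 * b ^ 2) : ‖⟪x, y⟫_ℂ‖ ≤ 2 * a * b := by
  refine (norm_inner_le_norm x y).trans (ops_le (by positivity) ?_)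
  calc (‖x‖ * ‖y‖) ^ 2 = ‖x‖ ^ 2 * ‖y‖ ^ 2 := by ring
    _ ≤ 2 * a ^ 2 * (2 * b ^ 2) := mul_le_mul hx hy (by positivity) (by positivity)
    _ = (2 * a * b) ^ 2 := by ring

/-- Two increments at distinct points. -/
lemma ov_inc (hc : star T * T + Ψ * star Ψ = T * star T + Φ * star Φ) {s' σ' : ℝ}
    (hs : 0 < s) (h : s ≤ σ) (hs' : 0 < s') (h' : s' ≤ σ') (a b : H) :
    ‖z - w‖ ^ 2 * ‖⟪st T Φ z s a - st T Φ z σ a, st T Φ w s' b - st T Φ w σ' b⟫_ℂ‖ ≤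
      100 * gn T Φ z σ a * gn T Φ w σ' b := by
  obtain ⟨n1, n2⟩ := inc_null (T := T) (Φ := Φ) (z := z) hs h a
  obtain ⟨m1, m2⟩ := inc_null (T := T) (Φ := Φ) (z := w) hs' h' b
  have c1 := ops_cross (z := z) hc hs h a m1 m2
  have c2 := ops_cross (z := w) hc hs' h' b n1 n2
  obtain ⟨n3, n4⟩ := ops_null_sq hc n1 n2
  obtain ⟨m3, m4⟩ := ops_null_sq hc m1 m2
  have hg := gn_nonneg (T := T) (Φ := Φ) (z := z) (s := σ) a
  have hg' := gn_nonneg (T := T) (Φ := Φ) (z := w) (s := σ') b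
  generalize gn T Φ z σ a = g at *
  generalize gn T Φ w σ' b = g' at *
  generalize st T Φ z s a - st T Φ z σ a = k at *
  generalize st T Φ w s' b - st T Φ w σ' b = k' at *
  have c3 : ‖(z - w) * ⟪k, star (SS T w) k'⟫_ℂ‖ ≤ 10 * g' * (2 * g) := by
    rw [norm_mul, norm_inner_symm]
    rwa [norm_mul, Complex.norm_conj] at c2
  have k1 : ⟪SS T z k, SS T w k'⟫_ℂ + ⟪star Ψ k, star Ψ k'⟫_ℂ =
      ⟪star (SS T w) k, star (SS T z) k'⟫_ℂ + ⟪star Φ k, star Φ k'⟫_ℂ := by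
    rw [← bas_sr (SS T z), bas_sl Ψ, bas_sl (SS T w), bas_sl Φ, ← inner_add_right,
      ← inner_add_right, ops_comm hc]
  have k2 : ⟪star (SS T w) k, star (SS T z) k'⟫_ℂ = ⟪star (SS T z) k, star (SS T w) k'⟫_ℂ +
      conj (w - z) * ⟪star (SS T z) k, k'⟫_ℂ + (z - w) * ⟪k, star (SS T w) k'⟫_ℂ +
        (z - w) * conj (w - z) * ⟪k, k'⟫_ℂ := by
    rw [star_SS_shift T z w k, star_SS_shift T w z k']
    simp only [inner_add_left, inner_add_right, inner_smul_left, inner_smul_right,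
      Complex.conj_conj]
    ring
  have k3 : ((‖z - w‖ ^ 2 : ℝ) : ℂ) * ⟪k, k'⟫_ℂ = ⟪star (SS T z) k, star (SS T w) k'⟫_ℂ +
      conj (w - z) * ⟪star (SS T z) k, k'⟫_ℂ + (z - w) * ⟪k, star (SS T w) k'⟫_ℂ +
        ⟪star Φ k, star Φ k'⟫_ℂ - ⟪SS T z k, SS T w k'⟫_ℂ - ⟪star Ψ k, star Ψ k'⟫_ℂ := by
    have e : conj (w - z) = -conj (z - w) := by rw [← map_neg, neg_sub]
    rw [← ops_mul_conj]
    rw [e] at k2 ⊢
    linear_combination k1 + k2
  have k4 := congrArg norm k3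
  rw [norm_mul, Complex.norm_real, Real.norm_of_nonneg (by positivity)] at k4
  rw [k4]
  have b1 := ops_in n1 m1
  have b2 := ops_in n2 m2
  have b3 := ops_in2 (by positivity) (by positivity) n3 m3
  have b4 := ops_in2 (by positivity) (by positivity) n4 m4
  generalize ⟪star (SS T z) k, star (SS T w) k'⟫_ℂ = x1 at *
  generalize conj (w - z) * ⟪star (SS T z) k, k'⟫_ℂ = x2 at *
  generalize (z - w) * ⟪k, star (SS T w) k'⟫_ℂ = x3 at *
  generalize ⟪star Φ k, star Φ k'⟫_ℂ = x4 at *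
  generalize ⟪SS T z k, SS T w k'⟫_ℂ = x5 at *
  generalize ⟪star Ψ k, star Ψ k'⟫_ℂ = x6 at *
  have d1 := norm_sub_le (x1 + x2 + x3 + x4 - x5) x6
  have d2 := norm_sub_le (x1 + x2 + x3 + x4) x5
  have d3 := norm_add_le (x1 + x2 + x3) x4
  have d4 := norm_add_le (x1 + x2) x3
  have d5 := norm_add_le x1 x2
  have d6 : 0 ≤ g * g' := by positivity
  linarith

lemma ops_prod (hσ : 0 < σ) (a b : H) :
    ‖⟪st T Φ z σ a, st T Φ w σ b⟫_ℂ‖ ≤ gn T Φ z σ a * gn T Φ w σ b / σ := by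
  have n1 := ops_st_sq (T := T) (Φ := Φ) (z := z) hσ a
  have n2 := ops_st_sq (T := T) (Φ := Φ) (z := w) hσ b
  have hg := gn_nonneg (T := T) (Φ := Φ) (z := z) (s := σ) a
  have hg' := gn_nonneg (T := T) (Φ := Φ) (z := w) (s := σ) b
  refine (norm_inner_le_norm _ _).trans ?_
  rw [le_div_iff₀ hσ]
  refine ops_le (by positivity) ?_
  calc (‖st T Φ z σ a‖ * ‖st T Φ w σ b‖ * σ) ^ 2
      = σ * ‖st T Φ z σ a‖ ^ 2 * (σ * ‖st T Φ w σ b‖ ^ 2) := by ring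
    _ ≤ gn T Φ z σ a ^ 2 * gn T Φ w σ b ^ 2 := mul_le_mul n1 n2 (by positivity) (by positivity)
    _ = (gn T Φ z σ a * gn T Φ w σ b) ^ 2 := by ring

omit [CompleteSpace H] in
lemma ops_split (x x' y : H) : ‖⟪x, y⟫_ℂ‖ ≤ ‖⟪x - x', y⟫_ℂ‖ + ‖⟪x', y⟫_ℂ‖ := by
  have e : ⟪x, y⟫_ℂ = ⟪x - x', y⟫_ℂ + ⟪x', y⟫_ℂ := by rw [← inner_add_left, sub_add_cancel]
  rw [e]
  exact norm_add_le _ _

/-- A state against a coarser state. -/
lemma ov_coarse (hc : star T * T + Ψ * star Ψ = T * star T + Φ * star Φ) (hs : 0 < s)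
    (h : s ≤ σ) (a b : H) :
    ‖⟪st T Φ z s a, st T Φ w σ b⟫_ℂ‖ ≤ 7 * gn T Φ z σ a * gn T Φ w σ b / σ := by
  have hσ : 0 < σ := hs.trans_le h
  obtain ⟨n1, n2⟩ := inc_null (T := T) (Φ := Φ) (z := z) hs h a
  refine (ops_split _ (st T Φ z σ a) _).trans
    ((add_le_add (ov_null hc n1 n2 hσ w b) (ops_prod hσ a b)).trans (le_of_eq ?_))
  ring

/-- An increment against a far state. -/
lemma ov_farInc (hc : star T * T + Ψ * star Ψ = T * star T + Φ * star Φ) {s' : ℝ} (hs : 0 < s)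
    (h : s ≤ σ) (hs' : 0 < s') (h' : s' ≤ ‖z - w‖ ^ 2) (a b : H) :
    ‖⟪st T Φ w s' b, st T Φ z s a - st T Φ z σ a⟫_ℂ‖ ≤
      106 * gn T Φ z σ a * gn T Φ w (‖z - w‖ ^ 2) b / ‖z - w‖ ^ 2 := by
  have hρ : 0 < ‖z - w‖ ^ 2 := hs'.trans_le h'
  obtain ⟨n1, n2⟩ := inc_null (T := T) (Φ := Φ) (z := z) hs h a
  have o1 := ov_null hc n1 n2 hρ w b
  have o2 := ov_inc (z := z) (w := w) hc hs h hs' h' a b
  rw [mul_comm, ← le_div_iff₀ hρ, norm_inner_symm] at o2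
  rw [norm_inner_symm] at o1
  refine (ops_split _ (st T Φ w (‖z - w‖ ^ 2) b) _).trans ((add_le_add o2 o1).trans (le_of_eq ?_))
  ring

/-- Two far states. -/
lemma ov_farSt (hc : star T * T + Ψ * star Ψ = T * star T + Φ * star Φ) {s' : ℝ} (hs : 0 < s)
    (h : s ≤ ‖z - w‖ ^ 2) (hs' : 0 < s') (h' : s' ≤ ‖z - w‖ ^ 2) (a b : H) :
    ‖⟪st T Φ z s a, st T Φ w s' b⟫_ℂ‖ ≤
      113 * gn T Φ z (‖z - w‖ ^ 2) a * gn T Φ w (‖z - w‖ ^ 2) b / ‖z - w‖ ^ 2 := by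
  have o1 := ov_farInc (z := z) (w := w) hc hs h hs' h' a b
  have o2 := ov_coarse (z := w) (w := z) hc hs' h' b a
  rw [norm_inner_symm] at o1 o2
  refine (ops_split _ (st T Φ z (‖z - w‖ ^ 2) a) _).trans ((add_le_add o1 o2).trans (le_of_eq ?_))
  ring

lemma ops_LL_shift (B : H →L[ℂ] H) (z u : ℂ) (s t : ℝ) (j : H) :
    LL T B z s j = LL T B u t j + (u - z) • star (SS T u) j + conj (u - z) • SS T u j +
      ((‖u - z‖ ^ 2 + s - t : ℝ) : ℂ) • j := by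
  rw [bas_LL, bas_LL, star_SS_shift T u z j, SS_shift T u z, map_add, map_smul,
    Complex.ofReal_sub, Complex.ofReal_add, ← ops_mul_conj]
  module

/-- Comparison of the norms of two states at nearby points. -/
lemma ops_norm_st (hc : star T * T + Ψ * star Ψ = T * star T + Φ * star Φ) (ht : 0 < t)
    (hz : ‖z - u‖ ^ 2 ≤ 2 * t) (a : H) : ‖st T Φ u t a‖ ≤ 7 * ‖st T Φ z (2 * t) a‖ := by
  have hB := pos_mul_star Φ
  have hs : 0 < 2 * t := by positivity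
  rw [norm_sub_rev] at hz
  set k := st T Φ u t a with hk
  set m := st T Φ z (2 * t) a with hm
  set j := FF T (Φ * star Φ) u t k with hj
  have e1 : ⟪k, k⟫_ℂ = ⟪LL T (Φ * star Φ) z (2 * t) j, m⟫_ℂ := by
    have a1 : ⟪j, Φ a⟫_ℂ = ⟪k, k⟫_ℂ := inner_FF_symm hB u t k (Φ a)
    have a2 : LL T (Φ * star Φ) z (2 * t) m = Φ a := LL_FF hB z hs (Φ a)
    rw [← a1, ← a2, ← bas_sl, (LL_sa hB z (2 * t)).star_eq]
  have n1 : t * ‖j‖ ≤ ‖k‖ := by
    have a1 : ‖j‖ ≤ t⁻¹ * ‖k‖ := ((FF T (Φ * star Φ) u t).le_opNorm k).trans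
      (mul_le_mul_of_nonneg_right (unit_LL_pos hB u ht).2 (norm_nonneg _))
    have a2 := mul_le_mul_of_nonneg_left a1 ht.le
    rwa [← mul_assoc, mul_inv_cancel₀ ht.ne', one_mul] at a2
  have n2 : t * (‖star (SS T u) j‖ ^ 2 + ‖star Φ j‖ ^ 2) ≤ ‖k‖ ^ 2 := by
    have a1 := inner_FF (T := T) hB u ht k
    rw [inner_mul_star, ← hj] at a1
    have a2 := bas_re_le k j
    have a3 : 0 ≤ t * ‖j‖ ^ 2 := by positivity
    have a4 : ‖star (SS T u) j‖ ^ 2 + ‖star Φ j‖ ^ 2 ≤ ‖k‖ * ‖j‖ := by linarith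
    calc _ ≤ t * (‖k‖ * ‖j‖) := mul_le_mul_of_nonneg_left a4 ht.le
      _ = ‖k‖ * (t * ‖j‖) := by ring
      _ ≤ ‖k‖ * ‖k‖ := mul_le_mul_of_nonneg_left n1 (norm_nonneg _)
      _ = _ := by ring
  have n3 : ∀ y : H, ‖y‖ ^ 2 ≤ ‖star (SS T u) j‖ ^ 2 + ‖star Φ j‖ ^ 2 →
      ‖u - z‖ * ‖y‖ ≤ 3 / 2 * ‖k‖ := by
    intro y hy
    refine ops_le (by positivity) ?_
    have a1 := mul_le_mul hz hy (by positivity) hs.le
    nlinarith [sq_nonneg ‖k‖]
  have n4 := n3 (star (SS T u) j) (by nlinarith [sq_nonneg ‖star Φ j‖])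
  have n5 := n3 (SS T u j) (by nlinarith [norm_SS_eq hc u j, sq_nonneg ‖star Ψ j‖])
  have n6 : ‖LL T (Φ * star Φ) z (2 * t) j‖ ≤ 7 * ‖k‖ := by
    rw [ops_LL_shift _ z u (2 * t) t, hj, LL_FF hB u ht, ← hj]
    have d1 := norm_add_le (k + (u - z) • star (SS T u) j + conj (u - z) • SS T u j)
      (((‖u - z‖ ^ 2 + 2 * t - t : ℝ) : ℂ) • j)
    have d2 := norm_add_le (k + (u - z) • star (SS T u) j) (conj (u - z) • SS T u j)
    have d3 := norm_add_le k ((u - z) • star (SS T u) j)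
    rw [norm_smul] at d1 d2 d3
    rw [Complex.norm_conj] at d2
    rw [Complex.norm_real, Real.norm_of_nonneg (by nlinarith [sq_nonneg ‖u - z‖])] at d1
    have d4 : (‖u - z‖ ^ 2 + 2 * t - t) * ‖j‖ ≤ 3 * t * ‖j‖ :=
      mul_le_mul_of_nonneg_right (by linarith) (norm_nonneg _)
    linarith
  have n7 : ‖k‖ ^ 2 ≤ 7 * ‖k‖ * ‖m‖ := by
    have a1 := ops_in n6 (le_refl ‖m‖)
    rwa [← e1, bas_self, Complex.norm_real, Real.norm_of_nonneg (by positivity)] at a1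
  rcases (norm_nonneg k).eq_or_lt with h0 | h0
  · rw [← h0]; positivity
  · refine le_of_mul_le_mul_left ?_ h0
    linarith

/-- Transfer of a growth bound to a nearby point. -/
lemma tail_step (hc : star T * T + Ψ * star Ψ = T * star T + Φ * star Φ) (hs : 0 < s)
    (hz : ‖z - u‖ ^ 2 ≤ s) {x : ℝ} (hx : 0 ≤ x) {a : H}
    (h : GG T Φ z s a ≤ Real.exp x * GG T Φ z (s / 2) a) :
    GG T Φ u s a ≤ Real.exp (10000 * x) * GG T Φ u (s / 2) a := by
  have ht : 0 < s / 2 := by positivity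
  have e2 : 2 * (s / 2) = s := by ring
  have n1 := ops_norm_st (z := z) (u := u) hc ht (by rwa [e2]) a
  rw [e2] at n1
  have n2 : ‖st T Φ u (s / 2) a‖ ^ 2 ≤ 49 * ‖st T Φ z s a‖ ^ 2 := by
    have := pow_le_pow_left₀ (norm_nonneg _) n1 2
    linarith
  have a1 : GG T Φ u s a ≤ GG T Φ u (s / 2) a + s / 2 * ‖st T Φ u (s / 2) a‖ ^ 2 := by
    refine (GG_le_cost hs a (st T Φ u (s / 2) a)).trans (le_of_eq ?_)
    simp only [GG, cost]
    ring
  have a2 : GG T Φ z (s / 2) a ≤ GG T Φ z s a - s / 2 * ‖st T Φ z s a‖ ^ 2 := by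
    refine (GG_le_cost ht a (st T Φ z s a)).trans (le_of_eq ?_)
    simp only [GG, cost]
    ring
  have a3 : GG T Φ z (s / 2) a ≤ 5 * GG T Φ u (s / 2) a :=
    GG_comp ht ht (by norm_num) (by rw [norm_sub_rev]; linarith) a
  have a4 : 1 ≤ Real.exp x := Real.one_le_exp hx
  have a5 : 1 + 245 * (Real.exp x - 1) ≤ Real.exp (10000 * x) := by
    have b1 := one_add_mul_le_pow (a := Real.exp x - 1) (by linarith) 245
    rw [add_sub_cancel, ← Real.exp_nat_mul] at b1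
    refine le_trans (by exact_mod_cast b1) (Real.exp_le_exp.2 ?_)
    linarith
  have a6 := GG_nonneg (T := T) (Φ := Φ) (z := u) ht a
  have a7 := mul_le_mul_of_nonneg_left n2 ht.le
  have a8 := mul_le_mul_of_nonneg_left a3 (sub_nonneg.2 a4)
  have a9 := mul_le_mul_of_nonneg_right a5 a6
  linarith

/-- An eigenvector of the adjoint gives an invariant subspace. -/
lemma not_tr_of_eig (hd : ¬FiniteDimensional ℂ H) {y : H} (hy : y ≠ 0)
    (h : star (SS T z) y = 0) : ¬Tr T := by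
  intro ht
  have e : star T y = conj z • y := by
    rw [star_SS] at h
    exact sub_eq_zero.1 h
  refine hd (FiniteDimensional.of_injective (innerSL ℂ y).toLinearMap ?_)
  rw [injective_iff_map_eq_zero]
  intro x hx
  have hx' : ⟪x, y⟫_ℂ = 0 := inner_eq_zero_symm.1 hx
  refine (ht x y fun n => ?_).resolve_right hy
  induction n with
  | zero => simpa using hx'
  | succ n ih =>
    rw [pow_succ', mul_apply_eq_comp, ← bas_sr, e, inner_smul_right, ih, mul_zero]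

lemma ops_nd {v x : H} (hv : ‖v‖ ≤ 1) (hx : ⟪v, x⟫_ℂ = 1) (hs : 0 < s) :
    1 - gn T Φ z s x ≤ (⟪Φ v, st T Φ z s x⟫_ℂ).re := by
  have e : ⟪Φ v, st T Φ z s x⟫_ℂ = 1 - ⟪v, x - star Φ (st T Φ z s x)⟫_ℂ := by
    rw [inner_sub_right, hx, bas_sr]; ring
  have n := ops_in hv (norm_res_le (T := T) (Φ := Φ) (z := z) hs x)
  have := Complex.re_le_norm ⟪v, x - star Φ (st T Φ z s x)⟫_ℂ
  rw [e, Complex.sub_re, Complex.one_re]
  linarith

lemma ops_unb (hd : ¬FiniteDimensional ℂ H) (ht : Tr T) {v x : H} (hv : ‖v‖ ≤ 1)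
    (hx : ⟪v, x⟫_ℂ = 1) {s0 : ℝ} (h0 : 0 < s0) (M : ℝ) :
    ∃ s, 0 < s ∧ s ≤ s0 ∧ M * s ≤ gn T Φ z s x ^ 2 := by
  by_contra hM
  push Not at hM
  set r : ℕ → ℝ := fun n => s0 * (1 / ((n : ℝ) + 1)) with hr
  have r0 : ∀ n, 0 < r n := fun n => by simp only [hr]; positivity
  have r1 : ∀ n, r n ≤ s0 := fun n => by
    refine mul_le_of_le_one_right h0.le ?_
    rw [div_le_one (by positivity)]
    linarith [Nat.cast_nonneg (α := ℝ) n]
  have b1 : ∀ n, ‖st T Φ z (r n) x‖ ≤ √M := fun n => by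
    refine Real.le_sqrt_of_sq_le (le_of_mul_le_mul_left ?_ (r0 n))
    have := ops_st_sq (T := T) (Φ := Φ) (z := z) (r0 n) x
    have := hM _ (r0 n) (r1 n)
    linarith
  have q0 : Tendsto (fun n => gn T Φ z (r n) x) atTop (𝓝 0) := by
    have a1 : Tendsto (fun n => √(M * r n)) atTop (𝓝 0) := by
      have := ((tendsto_one_div_add_atTop_nhds_zero_nat (𝕜 := ℝ)).const_mul s0).const_mul M
      simpa [hr] using this.sqrt
    exact squeeze_zero (fun n => gn_nonneg x)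
      (fun n => Real.le_sqrt_of_sq_le (hM _ (r0 n) (r1 n)).le) a1
  have q1 : Tendsto (fun n => gn T Φ z (r n) x) (hyperfilter ℕ) (𝓝 0) :=
    q0.mono_left Nat.hyperfilter_le_atTop
  obtain ⟨y, hy⟩ := exists_weak_limit' (𝕜 := ℂ) (hyperfilter ℕ) (fun n => st T Φ z (r n) x) _ b1
  refine not_tr_of_eig (z := z) (y := y) hd ?_ ?_ ht
  · rintro rfl
    have a1 := (Complex.continuous_re.tendsto _).comp (hy (Φ v))
    have a2 := le_of_tendsto_of_tendsto' (q1.const_sub 1) a1 fun n => ops_nd hv hx (r0 n)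
    simp at a2
    linarith
  · have a1 := hy (SS T z (star (SS T z) y))
    have a2 : Tendsto (fun n => ⟪SS T z (star (SS T z) y), st T Φ z (r n) x⟫_ℂ) (hyperfilter ℕ)
        (𝓝 0) := by
      refine squeeze_zero_norm (a := fun n => ‖star (SS T z) y‖ * gn T Φ z (r n) x)
        (fun n => ?_) (by simpa using q1.const_mul ‖star (SS T z) y‖)
      rw [← bas_sr]
      exact ops_in le_rfl (norm_star_st_le (r0 n) x)
    have a3 := tendsto_nhds_unique a1 a2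
    rwa [← bas_sr, inner_self_eq_zero] at a3

lemma Dir.ops_other {v : H} {A : Set ℂ} {x : ℂ → H} {β C s0 : ℝ} (h : Dir T Φ v A x β C s0)
    (hz : z ∈ A) (hw : w ∈ A) (hs : 0 < s) (h0 : s ≤ s0) (hzw : ‖z - w‖ ^ 2 ≤ 4 * s) :
    gn T Φ z s (x w) ^ 2 ≤ 2 * (1 + C) * gn T Φ z s (x z) ^ 2 := by
  have a1 := h.d3 z hz w hw s s hs le_rfl h0 hzw
  rw [div_self hs.ne', Real.one_rpow, mul_one, ← gn_sq hs, ← gn_sq hs] at a1
  have a2 := gn_add_le (T := T) (Φ := Φ) (z := z) hs (x z) (x w - x z)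
  rw [add_sub_cancel] at a2
  have a3 := pow_le_pow_left₀ (gn_nonneg _) a2 2
  nlinarith [sq_nonneg (gn T Φ z s (x z) - gn T Φ z s (x w - x z))]

lemma Dir.ops_del (hc : star T * T + Ψ * star Ψ = T * star T + Φ * star Φ) {v : H} {A : Set ℂ}
    {x : ℂ → H} {β C s0 : ℝ} (h : Dir T Φ v A x β C s0) {z' : ℂ} (hz : z ∈ A) (hz' : z' ∈ A)
    (w : ℂ) {s' : ℝ} (hs' : 0 < s') (h1 : s' ≤ s) (h2 : s ≤ σ) (h3 : σ ≤ s0)
    (h4 : ‖z' - z‖ ^ 2 ≤ s) :
    ‖⟪st T Φ z' s' (x z') - st T Φ z s (x z), st T Φ w σ (x w)⟫_ℂ‖ ≤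
      31 * (1 + C) * (s / σ) ^ (β / 2) * gn T Φ z σ (x z) * gn T Φ w σ (x w) / σ := by
  have hs : 0 < s := hs'.trans_le h1
  have hσ : 0 < σ := hs.trans_le h2
  have hC := h.C1
  rw [norm_sub_rev] at h4
  have hτ : 0 ≤ (s / σ) ^ (β / 2) := by positivity
  have eτ : (s / σ) ^ β = ((s / σ) ^ (β / 2)) ^ 2 := by
    rw [← Real.rpow_natCast, ← Real.rpow_mul (by positivity)]
    norm_num
  have a1 := h.d1 z hz s σ hs h2 h3
  have a2 := h.d3 z hz z' hz' s σ hs h2 h3 (by linarith)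
  have a3 := h.ops_other hz hz' hs (h2.trans h3) (by linarith)
  rw [eτ, ← gn_sq hs, ← gn_sq hσ] at a1
  rw [eτ, ← gn_sq hσ, ← gn_sq hσ] at a2
  have hq := gn_nonneg (T := T) (Φ := Φ) (z := z) (s := σ) (x z)
  have hq' := gn_nonneg (T := T) (Φ := Φ) (z := w) (s := σ) (x w)
  have o2 := ov_coarse (z := z) (w := w) hc hs h2 (x z' - x z) (x w)
  generalize (s / σ) ^ (β / 2) = τ at *
  generalize gn T Φ z σ (x z) = q at *
  have hτq : 0 ≤ (τ * q) ^ 2 := sq_nonneg _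
  have b1 : gn T Φ z s (x z') ≤ 2 * (1 + C) * (τ * q) := by
    refine ops_le (by positivity) (a3.trans ?_)
    have c1 := mul_le_mul_of_nonneg_left a1 (by positivity : 0 ≤ 2 * (1 + C))
    have c2 : 2 * (1 + C) * C * (τ * q) ^ 2 ≤ (2 * (1 + C)) ^ 2 * (τ * q) ^ 2 :=
      mul_le_mul_of_nonneg_right (by nlinarith) hτq
    nlinarith
  have b2 : gn T Φ z σ (x z' - x z) ≤ (1 + C) * (τ * q) := by
    refine ops_le (by positivity) (a2.trans ?_)
    have c2 : C * (τ * q) ^ 2 ≤ (1 + C) ^ 2 * (τ * q) ^ 2 :=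
      mul_le_mul_of_nonneg_right (by nlinarith) hτq
    nlinarith
  have hg := gn_nonneg (T := T) (Φ := Φ) (z := z) (s := s) (x z')
  have b3 : gn T Φ z' s' (x z') ≤ 2 * gn T Φ z s (x z') := by
    refine ops_le (by positivity) ?_
    have c1 : GG T Φ z' s' (x z') ≤ 4 * GG T Φ z s (x z') :=
      GG_comp hs hs' (by norm_num) (by linarith) _
    rw [← gn_sq hs, ← gn_sq hs'] at c1
    linarith
  have b4 : ‖z - z'‖ * ‖st T Φ z s (x z')‖ ≤ gn T Φ z s (x z') := by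
    refine ops_le hg (le_trans ?_ (ops_st_sq hs _))
    rw [mul_pow]
    exact mul_le_mul_of_nonneg_right h4 (by positivity)
  have n1 : ‖star (SS T z') (st T Φ z' s' (x z') - st T Φ z s (x z'))‖ ≤
      8 * (1 + C) * (τ * q) := by
    rw [map_sub, star_SS_shift T z z' (st T Φ z s (x z'))]
    have d1 := norm_sub_le (star (SS T z') (st T Φ z' s' (x z')))
      (star (SS T z) (st T Φ z s (x z')) + conj (z - z') • st T Φ z s (x z'))
    have d2 := norm_add_le (star (SS T z) (st T Φ z s (x z'))) (conj (z - z') • st T Φ z s (x z'))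
    rw [norm_smul, Complex.norm_conj] at d2
    have d3 := norm_star_st_le (T := T) (Φ := Φ) (z := z') hs' (x z')
    have d4 := norm_star_st_le (T := T) (Φ := Φ) (z := z) hs (x z')
    linarith
  have n2 : ‖star Φ (st T Φ z' s' (x z') - st T Φ z s (x z'))‖ ≤ 8 * (1 + C) * (τ * q) := by
    have e : star Φ (st T Φ z' s' (x z') - st T Φ z s (x z')) =
        (x z' - star Φ (st T Φ z s (x z'))) - (x z' - star Φ (st T Φ z' s' (x z'))) := by
      rw [map_sub]; abel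
    rw [e]
    have d1 := norm_sub_le (x z' - star Φ (st T Φ z s (x z')))
      (x z' - star Φ (st T Φ z' s' (x z')))
    have d3 := norm_res_le (T := T) (Φ := Φ) (z := z') hs' (x z')
    have d4 := norm_res_le (T := T) (Φ := Φ) (z := z) hs (x z')
    linarith
  have o1 := ov_null hc n1 n2 hσ w (x w)
  have e : st T Φ z' s' (x z') - st T Φ z s (x z) - st T Φ z s (x z' - x z) =
      st T Φ z' s' (x z') - st T Φ z s (x z') := by
    rw [st_sub]; abel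
  refine (ops_split _ (st T Φ z s (x z' - x z)) _).trans ?_
  rw [e]
  refine (add_le_add o1 o2).trans ?_
  rw [← add_div]
  refine div_le_div_of_nonneg_right ?_ hσ.le
  have := mul_le_mul_of_nonneg_right b2 hq'
  linarith

theorem Dir.fam (hc : star T * T + Ψ * star Ψ = T * star T + Φ * star Φ)
    (hd : ¬FiniteDimensional ℂ H) (ht : Tr T) {v : H} {A : Set ℂ} {x : ℂ → H} {β C s0 : ℝ}
    (h : Dir T Φ v A x β C s0) : ∃ C', Fam T (Φ v) A (fun z s => st T Φ z s (x z))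
      (fun z s => gn T Φ z s (x z)) (β / 2) C' s0 := by
  have hC := h.C1
  have hβ := h.β0
  have key : ∀ {N c a b r : ℝ}, c ≤ 200 * (1 + C) → 0 ≤ a → 0 ≤ b → 0 ≤ r → N ≤ c * a * b / r →
      N ≤ 200 * (1 + C) * a * b / r := fun hc ha hb hr hN => hN.trans (by gcongr)
  refine ⟨200 * (1 + C), by positivity, by linarith [h.β1], by linarith, h.s0pos,
    fun z s => gn_nonneg _, fun z s hs => ?_, fun z s hs => ops_st_sq hs _,
    fun z hz s hs => ops_nd h.v1 (h.nd z hz) hs, fun z s σ hs hσ => gn_mono hs hσ _,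
    fun z s σ hs hσ => ?_, fun z s σ hs hσ => ?_, fun z w σ1 σ2 s h1 h2 hs => ?_,
    fun z w σ1 σ2 s h1 h2 hs h3 => key (by linarith) (gn_nonneg _) (gn_nonneg _) (by positivity)
      (ov_farInc hc h1 h2 hs h3 _ _),
    fun z w s s' h1 h2 h3 h4 => key (by linarith) (gn_nonneg _) (gn_nonneg _) (by positivity)
      (ov_farSt hc h1 h2 h3 h4 _ _),
    fun z hz z' hz' w s' s σ h1 h2 h3 h4 h5 => ?_, fun z hz s' s h1 h2 h3 => ?_, fun z hz => ?_,
    fun z hz w hw s hs h0 hzw => ?_, fun z hz M => ops_unb hd ht h.v1 (h.nd z hz) h.s0pos M⟩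
  · have := norm_star_st_le (T := T) (Φ := Φ) (z := z) hs (x z)
    rwa [star_SS] at this
  · rw [gn_sq hs, gn_sq (hs.trans_le hσ)]
    exact GG_scale hs hσ _
  · rw [gn_sq hs, gn_sq hσ]
    exact inner_st_same hs hσ _
  · obtain ⟨n1, n2⟩ := inc_null (T := T) (Φ := Φ) (z := z) h1 h2 (x z)
    have o1 := ov_null hc n1 n2 hs w (x w)
    rw [norm_inner_symm, ← mul_assoc] at o1
    exact key (by linarith) (gn_nonneg _) (gn_nonneg _) hs.le o1
  · have hs : 0 < s := h1.trans_le h2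
    have hσ : 0 < σ := hs.trans_le h3
    have q1 := gn_nonneg (T := T) (Φ := Φ) (z := z) (s := σ) (x z)
    have q2 := gn_nonneg (T := T) (Φ := Φ) (z := w) (s := σ) (x w)
    refine (h.ops_del hc hz hz' w h1 h2 h3 h4 h5).trans ?_
    gcongr
    norm_num
  · have hs : 0 < s := h1.trans_le h2
    rw [gn_sq hs, gn_sq h1]
    refine (h.d1 z hz s' s h1 h2 h3).trans (mul_le_mul_of_nonneg_right
      (mul_le_mul (by linarith) ?_ (by positivity) (by positivity)) (GG_nonneg hs _))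
    exact Real.rpow_le_rpow_of_exponent_ge (by positivity) ((div_le_one hs).2 h2) (by linarith)
  · rw [gn_sq h.s0pos]
    linarith [h.d2 z hz]
  · have a1 : GG T Φ w s (x w) ≤ 9 * GG T Φ z s (x w) :=
      GG_comp hs hs (by norm_num) (by linarith) _
    rw [← gn_sq hs, ← gn_sq hs] at a1
    have a2 := h.ops_other hz hw hs h0 hzw
    have a3 : 0 ≤ (1 + C) * gn T Φ z s (x z) ^ 2 := by positivity
    linarith

end Pool.Agent.Lib.MP_45cb44_an.Hy
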