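import Pool.Agent.Lib.MP_45cb44_an.HyBS
import Pool.Agent.Lib.MP_45cb44_an.HyOps

-- part Pool.Agent.Lib.MP_45cb44_an.HyDir
section

/-! Construction of the field of directions. -/

namespace Pool.Agent.Lib.MP_45cb44_an.Hy

open MeasureTheory Metric Set Filter Topology InnerProductSpace
open scoped InnerProductSpace ComplexConjugate

lemma dir_pos (a : ℕ) : 0 < dy a := by unfold dy; positivity

lemma dir_succ (a : ℕ) : dy (a + 1) = dy a / 2 := by unfold dy; ring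

lemma dir_le {a c : ℕ} {s : ℝ} (h1 : dy (c + 1) < s) (h2 : s ≤ dy a) : a ≤ c :=
  Nat.lt_succ_iff.1 ((pow_lt_pow_iff_right_of_lt_one₀ (by norm_num) (by norm_num)).1
    (h1.trans_le h2))

lemma dir_idx {s : ℝ} {k0 : ℕ} (hs : 0 < s) (h : s ≤ dy k0) :
    ∃ l, k0 ≤ l ∧ dy (l + 1) < s ∧ s ≤ dy l := by
  obtain ⟨l, h1, h2⟩ := exists_nat_pow_near_of_lt_one (y := (1 / 2 : ℝ)) hs
    (h.trans (pow_le_one₀ (by norm_num) (by norm_num))) (by norm_num) (by norm_num)
  exact ⟨l, dir_le h1 h, h1, h2⟩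

lemma dir_rpow {θ β s σ : ℝ} {a j : ℕ} (hθ : θ ^ 2 ≤ (1 / 2 : ℝ) ^ β) (h0 : 0 < β) (h1 : β ≤ 1)
    (hσ : 0 < σ) (hs : dy (a + j + 1) < s) (ha : σ ≤ dy a) : (θ ^ j) ^ 2 ≤ 2 * (s / σ) ^ β := by
  have hs0 := (dir_pos _).trans hs
  have a1 : (1 / 2 : ℝ) ^ j ≤ 2 * (s / σ) := by
    rw [dir_succ, dy, pow_add] at hs
    rw [← mul_div_assoc, le_div_iff₀ hσ]
    nlinarith [mul_le_mul_of_nonneg_left ha (show (0 : ℝ) ≤ (1 / 2) ^ j by positivity),
      show dy a = (1 / 2 : ℝ) ^ a from rfl]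
  calc (θ ^ j) ^ 2 = (θ ^ 2) ^ j := by ring
    _ ≤ ((1 / 2 : ℝ) ^ β) ^ j := by gcongr
    _ = ((1 / 2 : ℝ) ^ j) ^ β := by
      rw [← Real.rpow_natCast, ← Real.rpow_mul (by norm_num), mul_comm,
        Real.rpow_mul (by norm_num), Real.rpow_natCast]
    _ ≤ (2 * (s / σ)) ^ β := by gcongr
    _ = 2 ^ β * (s / σ) ^ β := Real.mul_rpow (by norm_num) (by positivity)
    _ ≤ 2 * (s / σ) ^ β := by
      gcongr
      simpa using Real.rpow_le_rpow_of_exponent_le (show (1 : ℝ) ≤ 2 by norm_num) h1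

variable {H : Type*} [NormedAddCommGroup H] [InnerProductSpace ℂ H] [CompleteSpace H]
  {T Φ Ψ : H →L[ℂ] H}

variable (T Φ) in
/-- Square root of the minimal value at the level `k`. -/
noncomputable def dirR (b : HilbertBasis ℕ ℂ H) (k : ℕ) (u : ℂ) (l : ℕ) : ℝ :=
  Real.exp (-ww T (fun l => Φ (b l)) k u (dy l) / 2)

variable (T Φ) in
/-- The reverse bound at the level `k`. -/
def dirRB (b : HilbertBasis ℕ ℂ H) (A : Set ℂ) (k0 k : ℕ) (P D : ℝ) : Prop :=
  ∀ u ∈ A, ∀ a j, k0 ≤ a → ∀ y, Tl b k y →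
    gn T Φ u (dy a) y ≤ D * P ^ j * gn T Φ u (dy (a + j)) y

variable {b : HilbertBasis ℕ ℂ H} {A : Set ℂ} {k0 k : ℕ} {P D : ℝ}

lemma dirR_pos (k : ℕ) (u : ℂ) (l : ℕ) : 0 < dirR T Φ b k u l := Real.exp_pos _

lemma dirR_sq (k : ℕ) (u : ℂ) (l : ℕ) :
    dirR T Φ b k u l ^ 2 = Real.exp (-ww T (fun l => Φ (b l)) k u (dy l)) := by
  rw [dirR, ← Real.exp_nat_mul]; congr 1; push_cast; ring

lemma dir_gn_le {u : ℂ} {s r : ℝ} {y : H} (hr : 0 ≤ r) (h : GG T Φ u s y ≤ r ^ 2) :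
    gn T Φ u s y ≤ r := Real.sqrt_le_iff.2 ⟨hr, h⟩

lemma dir_GG_le {u : ℂ} {s r : ℝ} {y : H} (hs : 0 < s) (h : gn T Φ u s y ≤ r) :
    GG T Φ u s y ≤ r ^ 2 := by
  rw [← gn_sq hs]; exact pow_le_pow_left₀ (gn_nonneg y) h 2

variable (T Φ b) in
lemma dir_min (k : ℕ) (u : ℂ) : ∃ m : ℕ → H, (∀ l, Tl b k (m l)) ∧ (∀ l, ⟪b k, m l⟫_ℂ = 1) ∧
    (∀ l, gn T Φ u (dy l) (m l) ≤ dirR T Φ b k u l) ∧ (∀ l, Tl b (k + 1) (m l - m (l + 1))) ∧
    (∀ l, gn T Φ u (dy (l + 1)) (m l - m (l + 1)) ≤ dirR T Φ b k u l) ∧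
    ∀ l y, Tl b k y → ‖⟪b k, y⟫_ℂ‖ * dirR T Φ b k u l ≤ gn T Φ u (dy l) y ∧
      gn T Φ u (dy l) (y - ⟪b k, y⟫_ℂ • m l) ≤ gn T Φ u (dy l) y := by
  choose m h1 h2 h3 using fun l => exists_min b T Φ k u (dir_pos l)
  simp only [← dirR_sq] at h3
  have h4 : ∀ l y, Tl b k y → GG T Φ u (dy l) y = ‖⟪b k, y⟫_ℂ‖ ^ 2 * dirR T Φ b k u l ^ 2 +
      GG T Φ u (dy l) (y - ⟪b k, y⟫_ℂ • m l) := fun l y hy => by
    rw [← h3 l _ _ (hy.succ (h1 l) (h2 l)), add_sub_cancel]
  have h5 : ∀ l, GG T Φ u (dy l) (m l) = dirR T Φ b k u l ^ 2 := fun l => by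
    have := GG_smul (T := T) (Φ := Φ) (z := u) (dir_pos l) 0 0
    have h := h4 l _ (h1 l)
    simp only [h2, one_smul, sub_self, zero_smul, norm_zero, norm_one] at h this
    linarith
  refine ⟨m, h1, h2, fun l => dir_gn_le (dirR_pos _ _ _).le (h5 l).le, fun l => ?_, fun l => ?_,
    fun l y hy => ⟨?_, Real.sqrt_le_sqrt ?_⟩⟩
  · simpa [h2] using (h1 l).succ (h1 (l + 1)) (h2 (l + 1))
  · refine dir_gn_le (dirR_pos _ _ _).le ?_
    have a1 := h4 (l + 1) _ (h1 l)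
    have a2 := GG_mono (T := T) (Φ := Φ) (z := u) (dir_pos (l + 1))
      (show dy (l + 1) ≤ dy l by rw [dir_succ]; linarith [dir_pos l]) (m l)
    simp only [h2, one_smul, norm_one] at a1
    nlinarith [h5 l, sq_nonneg (dirR T Φ b k u (l + 1))]
  · refine Real.le_sqrt_of_sq_le ?_
    rw [h4 l y hy, mul_pow]
    exact le_add_of_nonneg_right (GG_nonneg (dir_pos l) _)
  · rw [h4 l y hy]
    exact le_add_of_nonneg_left (by positivity)

lemma dir_base (hc : star T * T + Ψ * star Ψ = T * star T + Φ * star Φ)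
    (hsum : Summable fun j => ‖Φ (b j)‖ ^ 2) {x1 : ℝ} (hP : Real.exp x1 ≤ P ^ 2) (hP0 : 0 ≤ P)
    (h : ∀ u ∈ A, ∀ a, k0 ≤ a → ∃ z, ‖z - u‖ ^ 2 ≤ dy a ∧
      10000 * ∑' j, (ww T (fun l => Φ (b l)) (j + k) z (dy (a + 1)) -
        ww T (fun l => Φ (b l)) (j + k) z (dy a)) ≤ x1) : dirRB T Φ b A k0 k P 1 := by
  intro u hu a j ha y hy
  induction j with
  | zero => simp
  | succ j ih =>
    obtain ⟨z, h1, h2⟩ := h u hu (a + j) (by omega)
    have a0 : dy (a + j + 1) ≤ dy (a + j) := by rw [dir_succ]; linarith [dir_pos (a + j)]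
    have a1 := det_bound (T := T) (z := z) b hsum (dir_pos (a + j + 1)) a0 hy
    have a2 := tail_step hc (dir_pos (a + j)) h1
      (tsum_nonneg fun l => sub_nonneg.2 (ww_anti b (l + k) (dir_pos (a + j + 1)) a0))
      (by rw [← dir_succ]; exact a1)
    rw [← dir_succ] at a2
    have a3 : gn T Φ u (dy (a + j)) y ≤ P * gn T Φ u (dy (a + j + 1)) y := by
      refine dir_gn_le (mul_nonneg hP0 (gn_nonneg y)) (a2.trans ?_)
      rw [mul_pow, gn_sq (dir_pos _)]
      exact mul_le_mul_of_nonneg_right ((Real.exp_le_exp.2 h2).trans hP) (GG_nonneg (dir_pos _) y)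
    refine ih.trans ((mul_le_mul_of_nonneg_left a3 (by positivity)).trans_eq ?_)
    rw [← add_assoc]; ring

lemma dir_step {Q c0 : ℝ} (hQ : 0 < Q) (hP : Q < P) (hc0 : 0 ≤ c0) (hD : 1 ≤ D)
    (h : ∀ u ∈ A, ∀ a j, k0 ≤ a → dirR T Φ b k u a ≤ c0 * Q ^ j * dirR T Φ b k u (a + j))
    (hr : dirRB T Φ b A k0 (k + 1) P D) : ∃ D', 1 ≤ D' ∧ dirRB T Φ b A k0 k P D' := by
  have hP0 := hQ.trans hP
  obtain ⟨K, hK, hK'⟩ : ∃ K, 1 ≤ K ∧ K * Q + D * P * Q ≤ K * P := by
    have h0 := sub_pos.2 hP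
    refine ⟨1 + D * P * Q / (P - Q), le_add_of_nonneg_right (by positivity), ?_⟩
    nlinarith [div_mul_cancel₀ (D * P * Q) h0.ne']
  refine ⟨K * c0 + D, by nlinarith [mul_nonneg (zero_le_one.trans hK) hc0],
    fun u hu a j ha y hy => ?_⟩
  obtain ⟨m, m1, m2, m3, m4, m5, m6⟩ := dir_min T Φ b k u
  have hR := dirR_pos (T := T) (Φ := Φ) (b := b) k u
  have key : ∀ i t, i + t = j → gn T Φ u (dy a) (m (a + i)) ≤
      K * (P ^ i * (c0 * Q ^ t * dirR T Φ b k u (a + j))) := by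
    intro i
    induction i with
    | zero =>
      rintro t rfl
      simp only [add_zero, zero_add, pow_zero, one_mul]
      refine ((m3 a).trans (h u hu a t ha)).trans (le_mul_of_one_le_left ?_ hK)
      have := hR (a + t); positivity
    | succ i ih =>
      intro t ht
      have a1 := ih (t + 1) (by omega)
      have a2 := gn_sub_le (T := T) (Φ := Φ) (z := u) (dir_pos a) (m (a + i))
        (m (a + i) - m (a + i + 1))
      have a3 := (hr u hu a (i + 1) ha _ (m4 (a + i))).trans (mul_le_mul_of_nonneg_left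
        ((m5 (a + i)).trans (h u hu (a + i) (t + 1) (by omega))) (by positivity))
      rw [sub_sub_cancel] at a2
      rw [show a + i + (t + 1) = a + j by omega] at a3
      have a4 := mul_le_mul_of_nonneg_right hK' (show 0 ≤ P ^ i * (c0 * Q ^ t *
        dirR T Φ b k u (a + j)) by have := hR (a + j); positivity)
      rw [← add_assoc]
      simp only [pow_succ] at a1 a3 ⊢
      nlinarith
  have a1 := key j 0 rfl
  obtain ⟨a2, a3⟩ := m6 (a + j) y hy
  have a4 := hr u hu a j ha _ (hy.succ (m1 (a + j)) (m2 (a + j)))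
  have a5 := gn_add_le (T := T) (Φ := Φ) (z := u) (dir_pos a) (⟪b k, y⟫_ℂ • m (a + j))
    (y - ⟪b k, y⟫_ℂ • m (a + j))
  rw [add_sub_cancel, gn_smul (dir_pos a)] at a5
  have a6 := mul_le_mul_of_nonneg_left a1 (norm_nonneg ⟪b k, y⟫_ℂ)
  have a7 := mul_le_mul_of_nonneg_left a2 (show 0 ≤ K * c0 * P ^ j by positivity)
  have a8 := mul_le_mul_of_nonneg_left a3 (show 0 ≤ D * P ^ j by positivity)
  simp only [pow_zero] at a6
  nlinarith

lemma dir_lim {θ c0 : ℝ} (hθ : 0 ≤ θ) (hθ1 : θ < 1) (hP : 0 ≤ P) (hc0 : 0 ≤ c0) (hD : 0 ≤ D)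
    (h : ∀ u ∈ A, ∀ a j, k0 ≤ a →
      P ^ j * dirR T Φ b k u (a + j) ≤ c0 * θ ^ j * dirR T Φ b k u a)
    (hr : dirRB T Φ b A k0 (k + 1) P D) : ∃ F, 1 ≤ F ∧ ∀ u ∈ A, ∃ x, Tl b k x ∧ ⟪b k, x⟫_ℂ = 1 ∧
      ∀ a, k0 ≤ a → gn T Φ u (dy a) x ≤ F * dirR T Φ b k u a := by
  obtain ⟨E, hE, hE'⟩ : ∃ E, 0 ≤ E ∧ E * (1 - θ) = D * P * c0 := by
    have h0 := sub_pos.2 hθ1
    exact ⟨D * P * c0 / (1 - θ), by positivity, div_mul_cancel₀ _ h0.ne'⟩
  refine ⟨1 + E, by linarith, fun u hu => ?_⟩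
  obtain ⟨m, m1, m2, m3, m4, m5, -⟩ := dir_min T Φ b k u
  have hR := dirR_pos (T := T) (Φ := Φ) (b := b) k u
  have h1 : ∀ a j, k0 ≤ a → gn T Φ u (dy a) (m (a + j) - m (a + j + 1)) ≤
      D * P * c0 * dirR T Φ b k u a * θ ^ j := fun a j ha => by
    have a1 := (hr u hu a (j + 1) ha _ (m4 (a + j))).trans (mul_le_mul_of_nonneg_left
      (m5 (a + j)) (by positivity))
    have a2 := mul_le_mul_of_nonneg_left (h u hu a j ha) (mul_nonneg hD hP)
    rw [pow_succ] at a1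
    nlinarith
  obtain ⟨x, hx⟩ := cauchySeq_tendsto_of_complete (cauchySeq_of_le_geometric θ
    (√(2 + 2 * ‖Φ‖ ^ 2 / dy k0) * (D * P * c0 * dirR T Φ b k u k0)) hθ1 (f := fun j => m (k0 + j))
    fun j => by
      rw [dist_eq_norm, mul_assoc]
      refine le_trans ?_ (mul_le_mul_of_nonneg_left (h1 k0 j le_rfl) (Real.sqrt_nonneg _))
      have := dir_pos k0
      rw [gn, ← Real.sqrt_mul (by positivity)]
      exact Real.le_sqrt_of_sq_le (norm_le_GG this _))
  have hx' : Tendsto m atTop (𝓝 x) := by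
    rw [← tendsto_add_atTop_iff_nat k0]; simpa only [add_comm] using hx
  have h2 := fun l => ((innerSL ℂ (b l)).continuous.tendsto x).comp hx'
  refine ⟨x, fun l hl => tendsto_nhds_unique (h2 l) ?_, tendsto_nhds_unique (h2 k) ?_,
    fun a ha => ?_⟩
  · exact tendsto_const_nhds.congr fun j => (m1 j l hl).symm
  · exact tendsto_const_nhds.congr fun j => (m2 j).symm
  have h3 : ∀ j, gn T Φ u (dy a) (m (a + j)) ≤ (1 + E * (1 - θ ^ j)) * dirR T Φ b k u a := by
    intro j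
    induction j with
    | zero => simpa using m3 a
    | succ j ih =>
      have a2 := gn_sub_le (T := T) (Φ := Φ) (z := u) (dir_pos a) (m (a + j))
        (m (a + j) - m (a + j + 1))
      have a3 := h1 a j ha
      rw [sub_sub_cancel] at a2
      rw [← hE'] at a3
      rw [← add_assoc, pow_succ]
      nlinarith
  have h4 : Tendsto (fun j => (1 + E) * dirR T Φ b k u a + ‖x - m (a + j)‖) atTop
      (𝓝 ((1 + E) * dirR T Φ b k u a + ‖x - x‖)) := by
    refine ((Tendsto.const_sub x ?_).norm).const_add _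
    simpa only [add_comm] using (tendsto_add_atTop_iff_nat a).2 hx'
  rw [sub_self, norm_zero, add_zero] at h4
  refine ge_of_tendsto' h4 fun j => ?_
  have a1 := gn_add_le (T := T) (Φ := Φ) (z := u) (dir_pos a) (m (a + j)) (x - m (a + j))
  rw [add_sub_cancel] at a1
  have a2 := gn_le_norm (T := T) (Φ := Φ) (z := u) (dir_pos a) (x - m (a + j))
  nlinarith [h3 j, show 0 ≤ E * θ ^ j * dirR T Φ b k u a by have := hR a; positivity]

theorem exists_dir (hc : star T * T + Ψ * star Ψ = T * star T + Φ * star Φ)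
    (b : HilbertBasis ℕ ℂ H) (hsum : Summable fun j => ‖Φ (b j)‖ ^ 2) {i n k0 : ℕ}
    {x1 x3 C0 : ℝ} (hin : i < n) (h1 : 0 < x1) (h3 : x1 < x3) :
    ∃ x β C s0, Dir T Φ (b i) {u | Good (ww T fun l => Φ (b l)) 10000 i n k0 x1 x3 C0 u}
      x β C s0 := by
  set A := {u | Good (ww T fun l => Φ (b l)) 10000 i n k0 x1 x3 C0 u}
  set P := Real.exp ((x1 + x3) / 4) with eP
  set θ := Real.exp ((x1 - x3) / 4) with eθ
  set c0 := Real.exp (C0 / 2) with ec
  set β := min 1 ((x3 - x1) / 2 / Real.log 2)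
  have hP : 1 ≤ P := Real.one_le_exp (by linarith)
  have hθ : 0 < θ := Real.exp_pos _
  have hc0 : 0 < c0 := Real.exp_pos _
  have l2 := Real.log_pos one_lt_two
  have hβ : 0 < β := lt_min one_pos (div_pos (by linarith) l2)
  have hθβ : θ ^ 2 ≤ (1 / 2 : ℝ) ^ β := by
    rw [eθ, ← Real.exp_nat_mul, Real.rpow_def_of_pos (by norm_num), Real.exp_le_exp, one_div,
      Real.log_inv]
    have := (le_div_iff₀ l2).1 (min_le_right 1 ((x3 - x1) / 2 / Real.log 2))
    push_cast; linarith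
  have hRB : ∀ t k, k + t = n → i < k → ∃ D, 1 ≤ D ∧ dirRB T Φ b A k0 k P D := by
    intro t
    induction t with
    | zero =>
      rintro k rfl -
      refine ⟨1, le_rfl, dir_base hc hsum (x1 := x1) ?_ (by linarith) fun u hu => hu.2.2⟩
      rw [eP, ← Real.exp_nat_mul, Real.exp_le_exp]; push_cast; linarith
    | succ t ih =>
      intro k hk hi
      obtain ⟨D, hD, h⟩ := ih (k + 1) (by omega) (by omega)
      refine dir_step (Real.exp_pos (x1 / 2)) (Real.exp_lt_exp.2 (by linarith)) hc0.le hD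
        (fun u hu a j ha => ?_) h
      have := hu.2.1 k hi (by omega) a (a + j) ha (by omega)
      simp only [dirR, ec, ← Real.exp_nat_mul, ← Real.exp_add, Real.exp_le_exp]
      push_cast at this; linarith
  obtain ⟨D, hD, hr⟩ := hRB (n - (i + 1)) (i + 1) (by omega) (by omega)
  have h4 : ∀ u ∈ A, ∀ a j, k0 ≤ a →
      P ^ j * dirR T Φ b i u (a + j) ≤ c0 * θ ^ j * dirR T Φ b i u a := fun u hu a j ha => by
    have := hu.1 a (a + j) ha (by omega)
    simp only [dirR, ec, eP, eθ, ← Real.exp_nat_mul, ← Real.exp_add, Real.exp_le_exp]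
    push_cast at this; linarith
  obtain ⟨F, hF, h5⟩ := dir_lim hθ.le (Real.exp_lt_one_iff.2 (by linarith)) (by linarith) hc0.le
    (by linarith) h4 hr
  choose! x x1 x2 x3 using h5
  have hR := dirR_pos (T := T) (Φ := Φ) (b := b) i
  obtain ⟨K, k1, k2, k3⟩ : ∃ K, F ≤ K ∧ F * c0 ≤ K ∧ D * (10 * F ^ 2) * c0 ≤ K :=
    ⟨_, le_max_left _ _, le_max_of_le_right (le_max_left _ _), le_max_of_le_right (le_max_right _ _)⟩
  have h6 : ∀ z ∈ A, ∀ s σ, 0 < s → s ≤ σ → σ ≤ dy k0 → ∃ a j, k0 ≤ a ∧ σ ≤ dy a ∧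
      s ≤ dy (a + j) ∧ ∀ g, g ≤ (K * θ ^ j * dirR T Φ b i z a) ^ 2 →
        g ≤ 4 * K ^ 2 * (s / σ) ^ β * GG T Φ z σ (x z) := fun z hz s σ hs h h' => by
    have hσ := hs.trans_le h
    obtain ⟨a, a1, a2, a3⟩ := dir_idx hσ h'
    obtain ⟨c, -, c2, c3⟩ := dir_idx hs (h.trans h')
    obtain ⟨j, rfl⟩ := Nat.exists_eq_add_of_le (dir_le c2 (h.trans a3))
    refine ⟨a, j, a1, a3, c3, fun g hg => hg.trans ?_⟩
    have b1 := dir_rpow hθβ hβ (min_le_left _ _) hσ c2 a3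
    have b2 : dirR T Φ b i z a ^ 2 ≤ 2 * GG T Φ z σ (x z) := by
      have d1 := GG_scale (T := T) (Φ := Φ) (z := z) hσ a3 (x z)
      have d2 := GG_nonneg (T := T) (Φ := Φ) (z := z) hσ (x z)
      rw [dir_succ] at a2
      rw [dirR_sq]
      refine (exp_le_GG b (dir_pos a) (x1 z hz) (x2 z hz)).trans (le_of_mul_le_mul_left ?_ hσ)
      nlinarith
    calc _ = K ^ 2 * ((θ ^ j) ^ 2 * dirR T Φ b i z a ^ 2) := by ring
      _ ≤ K ^ 2 * (2 * (s / σ) ^ β * (2 * GG T Φ z σ (x z))) := by gcongr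
      _ = _ := by ring
  refine ⟨x, β, 4 * K ^ 2, dy k0, hβ, min_le_left _ _, by nlinarith, dir_pos _,
    (b.orthonormal.1 i).le, x2, fun z hz s σ hs h h' => ?_, fun z hz => ?_,
    fun z hz w hw s σ hs h h' hd => ?_⟩
  · obtain ⟨a, j, a1, -, a3, a4⟩ := h6 z hz s σ hs h h'
    refine a4 _ ((GG_mono hs a3 _).trans (dir_GG_le (dir_pos _) ((x3 z hz _ (by omega)).trans ?_)))
    have := hR z a
    calc _ ≤ F * (P ^ j * dirR T Φ b i z (a + j)) :=
          mul_le_mul_of_nonneg_left (le_mul_of_one_le_left (hR _ _).le (one_le_pow₀ hP))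
            (by linarith)
      _ ≤ F * (c0 * θ ^ j * dirR T Φ b i z a) :=
          mul_le_mul_of_nonneg_left (h4 z hz a j a1) (by linarith)
      _ = F * c0 * θ ^ j * dirR T Φ b i z a := by ring
      _ ≤ _ := by gcongr
  · have a1 : dirR T Φ b i z k0 ≤ 1 := Real.exp_le_one_iff.2 (by
      linarith [ww_nonneg (T := T) (fun l => Φ (b l)) i z (dir_pos k0)])
    refine (dir_GG_le (dir_pos _) ((x3 z hz _ le_rfl).trans
      ((mul_le_of_le_one_right (by linarith) a1).trans k1))).trans (by nlinarith [sq_nonneg K])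
  · obtain ⟨a, j, a1, a2, a3, a4⟩ := h6 z hz s σ hs h h'
    refine a4 _ ((GG_mono (hs.trans_le h) a2 _).trans (dir_GG_le (dir_pos _) ?_))
    have p := dir_pos (a + j)
    have b0 := hR z (a + j)
    have b1 := x3 z hz (a + j) (by omega)
    have b2 : gn T Φ z (dy (a + j)) (x w) ≤ 9 * F ^ 2 * dirR T Φ b i z (a + j) := by
      refine dir_gn_le (by positivity) ?_
      calc _ ≤ 9 * GG T Φ w (dy (a + j)) (x w) :=
            GG_comp p p (by norm_num) (by rw [norm_sub_rev]; linarith) _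
        _ ≤ 9 * (F * dirR T Φ b i w (a + j)) ^ 2 := by
            gcongr; exact dir_GG_le p (x3 w hw _ (by omega))
        _ = 9 * F ^ 2 * dirR T Φ b i w (a + j) ^ 2 := by ring
        _ ≤ 9 * F ^ 2 * (9 * (F * dirR T Φ b i z (a + j)) ^ 2) := by
            gcongr
            rw [dirR_sq]
            refine (exp_le_GG b p (x1 z hz) (x2 z hz)).trans
              ((GG_comp (z := z) (l := 9) p p (by norm_num) (by linarith) _).trans ?_)
            gcongr; exact dir_GG_le p b1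
        _ = _ := by ring
    have b3 : gn T Φ z (dy (a + j)) (x w - x z) ≤ 10 * F ^ 2 * dirR T Φ b i z (a + j) := by
      nlinarith [gn_sub_le (T := T) (Φ := Φ) (z := z) p (x w) (x z),
        mul_le_mul_of_nonneg_right (show F ≤ F ^ 2 by nlinarith) b0.le]
    have b4 : Tl b (i + 1) (x w - x z) := by
      simpa [x2 w hw] using (x1 w hw).succ (x1 z hz) (x2 z hz)
    have := hR z a
    calc _ ≤ D * P ^ j * (10 * F ^ 2 * dirR T Φ b i z (a + j)) :=
          (hr z hz a j a1 _ b4).trans (by gcongr)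
      _ = D * (10 * F ^ 2) * (P ^ j * dirR T Φ b i z (a + j)) := by ring
      _ ≤ D * (10 * F ^ 2) * (c0 * θ ^ j * dirR T Φ b i z a) :=
          mul_le_mul_of_nonneg_left (h4 z hz a j a1) (by positivity)
      _ = D * (10 * F ^ 2) * c0 * θ ^ j * dirR T Φ b i z a := by ring
      _ ≤ _ := by gcongr

end Pool.Agent.Lib.MP_45cb44_an.Hy
end

-- part Pool.Agent.Lib.MP_45cb44_an.HyCalc
section

/-! The increments of the regularised determinant form a system with superharmonic tails. -/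

namespace Pool.Agent.Lib.MP_45cb44_an.Hy

open MeasureTheory Metric Set Filter Topology InnerProductSpace
open scoped InnerProductSpace ComplexConjugate ENNReal

/-- The jet of `log (1 + f)`. -/
noncomputable def calcLog (J : Jet) : Jet where
  f z s := Real.log (1 + J.f z s)
  f1 v z s := J.f1 v z s / (1 + J.f z s)
  f2 v z s := J.f2 v z s / (1 + J.f z s) - J.f1 v z s ^ 2 / (1 + J.f z s) ^ 2
  fs z s := J.fs z s / (1 + J.f z s)
  fss z s := J.fss z s / (1 + J.f z s) - J.fs z s ^ 2 / (1 + J.f z s) ^ 2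

lemma calc_log_dat {J : Jet} {K : ℝ → ℝ} {c M : ℝ} (hf : J.Dat fun ε => c * K ε)
    (h0 : ∀ z s, 0 < s → 0 ≤ J.f z s) (hc : 0 ≤ c) (hM : c ≤ M) :
    (calcLog J).Dat fun ε => c * (K ε + M * K ε ^ 2) := by
  have hne : ∀ z s, 0 < s → 1 + J.f z s ≠ 0 := fun z s hs => by have := h0 z s hs; positivity
  have hne' : ∀ p ∈ (univ ×ˢ Ioi 0 : Set (ℂ × ℝ)), 1 + J.f p.1 p.2 ≠ 0 :=
    fun p hp => hne _ _ hp.2
  have hdiv : ∀ z s, 0 < s → ∀ a : ℝ, |a / (1 + J.f z s)| ≤ |a| := fun z s hs a => by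
    have := h0 z s hs
    rw [abs_div, abs_of_pos (by positivity : 0 < 1 + J.f z s)]
    exact div_le_self (abs_nonneg _) (by linarith)
  have hlog : ∀ z s, 0 < s → |Real.log (1 + J.f z s)| ≤ |J.f z s| := fun z s hs => by
    have := h0 z s hs
    rw [abs_of_nonneg (Real.log_nonneg (by linarith)), abs_of_nonneg this]
    have := Real.log_le_sub_one_of_pos (by positivity : 0 < 1 + J.f z s)
    linarith
  have hsec : ∀ z s, 0 < s → ∀ a b C : ℝ, |a| ≤ C / (‖z‖ ^ 2 + 1) → |b| ≤ C / (‖z‖ ^ 2 + 1) →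
      |a / (1 + J.f z s) - b ^ 2 / (1 + J.f z s) ^ 2| ≤ (C + C ^ 2) / (‖z‖ ^ 2 + 1) := by
    intro z s hs a b C ha hb
    have h1 : 1 ≤ ‖z‖ ^ 2 + 1 := by nlinarith [norm_nonneg z]
    have hC : 0 ≤ C := by
      have := (abs_nonneg _).trans ha
      rwa [le_div_iff₀ (by positivity), zero_mul] at this
    refine (abs_sub _ _).trans ?_
    rw [add_div, ← div_pow, abs_pow]
    refine add_le_add ((hdiv z s hs a).trans ha) ?_
    have h2 := (hdiv z s hs b).trans hb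
    have h3 : C / (‖z‖ ^ 2 + 1) ≤ C := div_le_self hC h1
    calc _ ≤ C / (‖z‖ ^ 2 + 1) * C := by
          rw [sq]; exact mul_le_mul h2 (h2.trans h3) (abs_nonneg _) (by positivity)
      _ = _ := by ring
  have hD : ContinuousOn (fun p : ℂ × ℝ => 1 + J.f p.1 p.2) (univ ×ˢ Ioi 0) :=
    continuousOn_const.add hf.c0
  constructor
  · intro v z s hv hs
    have := ((hf.d1 v z s hv hs).const_add 1).log (by simpa using hne z s hs)
    simpa [calcLog] using this
  · intro v z s hv hs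
    have := (hf.d2 v z s hv hs).div ((hf.d1 v z s hv hs).const_add 1) (by simpa using hne z s hs)
    refine this.congr_deriv ?_
    have := hne z s hs
    simp only [zero_smul, add_zero, calcLog]
    field_simp
  · intro z s hs
    exact ((hf.ds z s hs).const_add 1).log (hne z s hs)
  · intro z s hs
    have := (hf.dss z s hs).div ((hf.ds z s hs).const_add 1) (hne z s hs)
    refine this.congr_deriv ?_
    have := hne z s hs
    simp only [calcLog]
    field_simp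
  · exact hD.log hne'
  · intro v hv
    exact (hf.c1 v hv).div hD hne'
  · intro v hv
    exact ((hf.c2 v hv).div hD hne').sub
      (((hf.c1 v hv).pow 2).div (hD.pow 2) fun p hp => pow_ne_zero 2 (hne' p hp))
  · exact hf.cs.div hD hne'
  · exact (hf.css.div hD hne').sub
      ((hf.cs.pow 2).div (hD.pow 2) fun p hp => pow_ne_zero 2 (hne' p hp))
  · intro ε hε s hs z v hv
    have hs' := hε.trans_le hs
    obtain ⟨a0, a1, a2, a3, a4⟩ := hf.bd ε hε s hs z v hv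
    have hm : c * K ε / (‖z‖ ^ 2 + 1) ≤ (c * K ε + (c * K ε) ^ 2) / (‖z‖ ^ 2 + 1) := by
      gcongr; nlinarith [sq_nonneg (c * K ε)]
    have hm' : (c * K ε + (c * K ε) ^ 2) / (‖z‖ ^ 2 + 1) ≤
        c * (K ε + M * K ε ^ 2) / (‖z‖ ^ 2 + 1) := by
      gcongr
      nlinarith [mul_le_mul_of_nonneg_left hM (mul_nonneg hc (sq_nonneg (K ε)))]
    exact ⟨((hlog z s hs').trans a0).trans (hm.trans hm'),
      ((hdiv z s hs' _).trans a1).trans (hm.trans hm'), (hsec z s hs' _ _ _ a2 a1).trans hm',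
      ((hdiv z s hs' _).trans a3).trans (hm.trans hm'), (hsec z s hs' _ _ _ a4 a3).trans hm'⟩

variable {H : Type*} [NormedAddCommGroup H] [InnerProductSpace ℂ H] [CompleteSpace H]
  {T B Φ Ψ : H →L[ℂ] H}

/-- The jet of the quadratic form of the inverse. -/
noncomputable def calcB (T B : H →L[ℂ] H) (φ : H) : Jet where
  f z s := (om φ (FF T B z s)).re
  f1 v z s := (-om φ (FF T B z s * EE T v z * FF T B z s)).re
  f2 v z s := (2 * om φ (FF T B z s * EE T v z * FF T B z s * EE T v z * FF T B z s) -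
    2 * om φ (FF T B z s * FF T B z s)).re
  fs z s := (-om φ (FF T B z s * FF T B z s)).re
  fss z s := (2 * om φ (FF T B z s * FF T B z s * FF T B z s)).re

lemma calc_path_z (hB : B.IsPositive) (v z : ℂ) {s : ℝ} (hs : 0 < s) :
    ∃ R E : ℂ → H →L[ℂ] H, (∀ t : ℝ, R t = FF T B (z + t • v) s) ∧
      (∀ t : ℝ, E t = EE T v (z + t • v)) ∧
      HasDerivAt R (-(FF T B z s * EE T v z * FF T B z s)) 0 ∧
      HasDerivAt E ((2 * (v * conj v)) • 1) 0 := by
  let a : ℂ → H →L[ℂ] H := fun t => SS T z - (t * v) • 1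
  let b : ℂ → H →L[ℂ] H := fun t => star (SS T z) - (t * conj v) • 1
  have ha : HasDerivAt a (-(v • 1)) 0 := by
    simpa using (((hasDerivAt_id (0 : ℂ)).mul_const v).smul_const
      (1 : H →L[ℂ] H)).const_sub (SS T z)
  have hb : HasDerivAt b (-(conj v • 1)) 0 := by
    simpa using (((hasDerivAt_id (0 : ℂ)).mul_const (conj v)).smul_const
      (1 : H →L[ℂ] H)).const_sub (star (SS T z))
  have ea : ∀ t : ℝ, a t = SS T (z + t • v) := fun t => by
    simp only [a, SS, Complex.real_smul, add_smul]; abel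
  have eb : ∀ t : ℝ, b t = star (SS T (z + t • v)) := fun t => by
    simp only [b, star_SS, Complex.real_smul, map_add, map_mul, Complex.conj_ofReal, add_smul]; abel
  refine ⟨fun t => Ring.inverse (a t * b t + B + (s : ℂ) • 1), fun t => -(conj v • a t + v • b t),
    fun t => by simp only [ea, eb, FF, LL], fun t => by simp only [ea, eb, EE], ?_, ?_⟩
  · have h0 : a 0 * b 0 + B + (s : ℂ) • 1 = LL T B z s := by simp [a, b, LL]
    have := hasDerivAt_inv (((ha.mul hb).add_const B).add_const ((s : ℂ) • 1))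
      (by simpa only [Pi.mul_apply, h0] using (unit_LL_pos (T := T) hB z hs).1)
    simp only [Pi.mul_apply, h0] at this
    refine this.congr_deriv ?_
    congr 3
    simp [a, b, EE]
  · refine ((ha.const_smul (conj v)).add (hb.const_smul v)).neg.congr_deriv ?_
    module

lemma calc_path_s (hB : B.IsPositive) (z : ℂ) {s : ℝ} (hs : 0 < s) :
    ∃ R : ℂ → H →L[ℂ] H, (∀ t : ℝ, R t = FF T B z t) ∧
      HasDerivAt R (-(FF T B z s * FF T B z s)) s := by
  refine ⟨fun t => Ring.inverse (SS T z * star (SS T z) + B + t • 1), fun t => rfl, ?_⟩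
  have := hasDerivAt_inv ((((hasDerivAt_id (s : ℂ)).smul_const
      (1 : H →L[ℂ] H))).const_add (SS T z * star (SS T z) + B)) (unit_LL_pos (T := T) hB z hs).1
  simpa [FF, LL] using this

/-- The constant in the decay bounds. -/
noncomputable def calcK (T : H →L[ℂ] H) (ε : ℝ) : ℝ :=
  4 * ((2 + (2 * ‖T‖ ^ 2 + 1) / |ε|) * (2 * (1 + ‖T‖))) ^ 2 * (2 + (2 * ‖T‖ ^ 2 + 1) / |ε|)

omit [CompleteSpace H] in
lemma calcK_nonneg (T : H →L[ℂ] H) (ε : ℝ) : 0 ≤ calcK T ε := by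
  unfold calcK; positivity

lemma calc_b_dat (hB : B.IsPositive) (φ : H) :
    (calcB T B φ).Dat fun ε => ‖φ‖ ^ 2 * calcK T ε := by
  have hF := continuousOn_FF (T := T) hB
  have hE : ∀ v, ContinuousOn (fun p : ℂ × ℝ => EE T v p.1) (univ ×ˢ Ioi 0) := fun v =>
    ((continuous_EE T v).comp continuous_fst).continuousOn
  have ho : ∀ {X : ℂ × ℝ → H →L[ℂ] H}, ContinuousOn X (univ ×ˢ Ioi 0) →
      ContinuousOn (fun p => om φ (X p)) (univ ×ˢ Ioi 0) := fun hX =>
    (om φ).continuous.comp_continuousOn hX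
  have hr : ∀ {X : ℂ × ℝ → ℂ}, ContinuousOn X (univ ×ˢ Ioi 0) →
      ContinuousOn (fun p => (X p).re) (univ ×ˢ Ioi 0) := fun hX =>
    Complex.continuous_re.comp_continuousOn hX
  constructor
  · intro v z s _ hs
    obtain ⟨R, E, hR, -, dR, -⟩ := calc_path_z (T := T) hB v z hs
    have := ((om φ).hasFDerivAt.comp_hasDerivAt _ dR)
    rw [← Complex.ofReal_zero] at this
    simpa [calcB, hR] using this.real_of_complex
  · intro v z s hv hs
    obtain ⟨R, E, hR, hE, dR, dE⟩ := calc_path_z (T := T) hB v z hs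
    have := ((om φ).hasFDerivAt.comp_hasDerivAt _ ((dR.mul dE).mul dR)).neg
    rw [← Complex.ofReal_zero] at this
    have h2 := this.real_of_complex
    have e1 : v * conj v = 1 := by rw [Complex.mul_conj, Complex.normSq_eq_norm_sq, hv]; simp
    simp only [Pi.neg_apply, Function.comp_apply, Pi.mul_apply, hR, hE, e1] at h2
    refine h2.congr_deriv ?_
    simp only [calcB]
    congr 1
    simp only [zero_smul, add_zero, mul_one, add_mul, mul_neg, neg_mul, mul_smul_comm,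
      smul_mul_assoc, map_add, map_neg, map_smul, mul_assoc, smul_eq_mul]
    ring
  · intro z s hs
    obtain ⟨R, hR, dR⟩ := calc_path_s (T := T) hB z hs
    have := ((om φ).hasFDerivAt.comp_hasDerivAt _ dR).real_of_complex
    simp only [Function.comp_apply, hR, map_neg] at this
    exact this
  · intro z s hs
    obtain ⟨R, hR, dR⟩ := calc_path_s (T := T) hB z hs
    have h2 := ((om φ).hasFDerivAt.comp_hasDerivAt _ (dR.mul dR)).neg.real_of_complex
    simp only [Pi.neg_apply, Function.comp_apply, Pi.mul_apply, hR] at h2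
    refine h2.congr_deriv ?_
    simp only [calcB]
    congr 1
    simp only [mul_neg, neg_mul, map_add, map_neg, mul_assoc]
    ring
  · exact hr (ho hF)
  · intro v _
    exact hr (ho ((hF.mul (hE v)).mul hF)).neg
  · intro v _
    exact hr ((continuousOn_const.mul (ho ((((hF.mul (hE v)).mul hF).mul (hE v)).mul hF))).sub
      (continuousOn_const.mul (ho (hF.mul hF))))
  · exact hr (ho (hF.mul hF)).neg
  · exact hr (continuousOn_const.mul (ho ((hF.mul hF).mul hF)))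
  · intro s0 hs0 s hs z v hv
    simp only [calcK, abs_of_pos hs0]
    set C := 2 + (2 * ‖T‖ ^ 2 + 1) / s0 with hC
    set L := C * (2 * (1 + ‖T‖)) with hL
    have hC0 : 2 ≤ C := by rw [hC]; exact le_add_of_nonneg_right (by positivity)
    have hL0 : C ≤ L := by rw [hL]; nlinarith [norm_nonneg T]
    have hy : 1 ≤ ‖z‖ ^ 2 + 1 := by nlinarith [norm_nonneg z]
    have hN : ‖FF T B z s‖ ≤ C / (‖z‖ ^ 2 + 1) := by
      refine norm_FF_decay hB z one_pos hC0 ?_
      have : (2 * ‖T‖ ^ 2 + 1) / s0 * s0 ≤ C * s := by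
        refine mul_le_mul (by rw [hC]; linarith) hs hs0.le (by positivity)
      rwa [div_mul_cancel₀ _ hs0.ne'] at this
    have hN1 : ‖FF T B z s‖ ≤ L := (hN.trans (div_le_self (by positivity) hy)).trans hL0
    have hE : ‖FF T B z s * EE T v z‖ ≤ L := by
      refine (norm_mul_le _ _).trans ((mul_le_mul hN (norm_EE T hv z) (norm_nonneg _)
        (by positivity)).trans (le_of_eq ?_))
      rw [hL]; field_simp
    set y := C / (‖z‖ ^ 2 + 1)
    have hy0 : 0 ≤ y := by positivity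
    have key : ∀ a b : ℝ, |a| ≤ ‖φ‖ ^ 2 * (b * y) → b ≤ 4 * L ^ 2 →
        |a| ≤ ‖φ‖ ^ 2 * (4 * L ^ 2 * C) / (‖z‖ ^ 2 + 1) := by
      intro a b h1 h2
      refine h1.trans ?_
      rw [mul_div_assoc, mul_div_assoc]
      gcongr
    have m2 : ∀ X : H →L[ℂ] H, ∀ c, ‖X‖ ≤ c →
        |(om φ (X * FF T B z s)).re| ≤ ‖φ‖ ^ 2 * (c * y) := by
      intro X c h
      refine (abs_re_om_le φ _).trans (mul_le_mul_of_nonneg_left ?_ (by positivity))
      exact (norm_mul_le _ _).trans (mul_le_mul h hN (norm_nonneg _) ((norm_nonneg _).trans h))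
    have m3 : ∀ X Y : H →L[ℂ] H, ‖X‖ ≤ L → ‖Y‖ ≤ L → ‖X * Y‖ ≤ L * L := fun X Y h1 h2 =>
      (norm_mul_le _ _).trans (mul_le_mul h1 h2 (norm_nonneg _) (by linarith))
    refine ⟨key _ 1 ?_ (by nlinarith), key _ L ?_ (by nlinarith), key _ (2 * (L * L) + 2 * L) ?_
      (by nlinarith), key _ L ?_ (by nlinarith), key _ (2 * (L * L)) ?_ (by nlinarith)⟩
    · simpa [calcB] using m2 1 1 ContinuousLinearMap.norm_id_le
    · simpa [calcB] using m2 _ _ hE
    · have h1 := m2 _ _ (m3 _ _ hE hE)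
      have h2 := m2 _ _ hN1
      rw [← mul_assoc] at h1
      simp only [calcB, Complex.sub_re, Complex.mul_re, Complex.re_ofNat, Complex.im_ofNat,
        zero_mul, sub_zero]
      refine (abs_sub _ _).trans ?_
      rw [abs_mul, abs_mul, abs_two]
      linarith
    · simpa [calcB] using m2 _ _ hN1
    · have h1 := m2 _ _ (m3 _ _ hN1 hN1)
      simp only [calcB, Complex.mul_re, Complex.re_ofNat, Complex.im_ofNat, zero_mul, sub_zero]
      rw [abs_mul, abs_two]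
      linarith

/-- The quadratic form of an operator. -/
noncomputable def calcQ (F : H →L[ℂ] H) (x : H) : ℝ := (⟪x, F x⟫_ℂ).re

lemma calc_sa {F : H →L[ℂ] H} (hF : IsSelfAdjoint F) (x y : H) : ⟪F x, y⟫_ℂ = ⟪x, F y⟫_ℂ := by
  rw [← ContinuousLinearMap.adjoint_inner_right, ← ContinuousLinearMap.star_eq_adjoint, hF.star_eq]

lemma calc_star (S : H →L[ℂ] H) (x y : H) : ⟪x, star S y⟫_ℂ = ⟪S x, y⟫_ℂ := by
  rw [ContinuousLinearMap.star_eq_adjoint, ContinuousLinearMap.adjoint_inner_right]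

omit [CompleteSpace H] in
lemma calc_self (x : H) : (⟪x, x⟫_ℂ).re = ‖x‖ ^ 2 := by
  rw [inner_self_eq_norm_sq_to_K]; norm_cast

lemma calc_fs (hB : B.IsPositive) (φ : H) (z : ℂ) (s : ℝ) :
    (calcB T B φ).fs z s = -‖FF T B z s φ‖ ^ 2 := by
  simp only [calcB, om_apply, mul_apply_eq_comp, Complex.neg_re]
  rw [← inner_FF_symm hB, calc_self]

lemma calc_fss (hB : B.IsPositive) (φ : H) (z : ℂ) (s : ℝ) :
    (calcB T B φ).fss z s = 2 * calcQ (FF T B z s) (FF T B z s φ) := by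
  simp only [calcB, om_apply, mul_apply_eq_comp, calcQ]
  rw [← inner_FF_symm hB]
  simp

lemma calc_f1 (hB : B.IsPositive) (φ : H) (v z : ℂ) (s : ℝ) :
    (calcB T B φ).f1 v z s =
      2 * (v * ⟪FF T B z s φ, star (SS T z) (FF T B z s φ)⟫_ℂ).re := by
  simp only [calcB, om_apply, mul_apply_eq_comp]
  rw [← inner_FF_symm hB]
  set g := FF T B z s φ
  have e : ⟪g, SS T z g⟫_ℂ = conj ⟪g, star (SS T z) g⟫_ℂ := by
    rw [calc_star, inner_conj_symm]
  simp only [EE, neg_apply, add_apply, smul_apply, inner_neg_right, inner_add_right,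
    inner_smul_right, neg_neg, e]
  simp only [Complex.add_re, Complex.mul_re, Complex.conj_re, Complex.conj_im]
  ring

lemma calc_f2 (hB : B.IsPositive) (φ : H) (v z : ℂ) (s : ℝ) :
    (calcB T B φ).f2 v z s =
      2 * calcQ (FF T B z s) (EE T v z (FF T B z s φ)) - 2 * ‖FF T B z s φ‖ ^ 2 := by
  simp only [calcB, om_apply, mul_apply_eq_comp, calcQ]
  rw [← inner_FF_symm hB, ← calc_sa (EE_sa T v z), ← inner_FF_symm hB z s φ, ← calc_self]
  simp

omit [CompleteSpace H] in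
lemma calc_par (F : H →L[ℂ] H) (x y : H) :
    calcQ F (-(x + y)) + calcQ F (-(conj Complex.I • x + Complex.I • y)) =
      2 * calcQ F x + 2 * calcQ F y := by
  simp only [calcQ, map_neg, map_add, map_smul, inner_neg_neg, inner_add_left, inner_add_right,
    inner_smul_left, inner_smul_right, Complex.conj_I, neg_neg]
  simp only [Complex.add_re, Complex.mul_re, Complex.mul_im, Complex.neg_re, Complex.neg_im,
    Complex.I_re, Complex.I_im, Complex.add_im]
  ring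

lemma calc_Q_succ (hB : B.IsPositive) (φ : H) (z : ℂ) {s : ℝ} (hs : 0 < s) (x : H) :
    calcQ (FF T (B + rankOne ℂ φ φ) z s) x = calcQ (FF T B z s) x -
      (1 + (⟪φ, FF T B z s φ⟫_ℂ).re)⁻¹ * ‖⟪FF T B z s φ, x⟫_ℂ‖ ^ 2 := by
  simp only [calcQ]
  rw [FF_add_rankOne hB z hs, inner_sub_right, inner_smul_right, Complex.sub_re]
  congr 1
  rw [← inner_conj_symm x, div_mul_eq_mul_div, Complex.mul_conj, ← Complex.ofReal_div,
    Complex.ofReal_re, Complex.normSq_eq_norm_sq, div_eq_inv_mul]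

lemma calc_lap (hB : B.IsPositive) (φ : H) (z : ℂ) {s : ℝ} (hs : 0 < s) :
    -(calcLog (calcB T B φ)).lap z s = (1 + (⟪φ, FF T B z s φ⟫_ℂ).re)⁻¹ *
      (2 * ‖FF T B z s φ‖ ^ 2 - calcQ (FF T B z s) (SS T z (FF T B z s φ)) -
        calcQ (FF T (B + rankOne ℂ φ φ) z s) (star (SS T z) (FF T B z s φ)) -
        s * calcQ (FF T B z s) (FF T B z s φ) -
        s * calcQ (FF T (B + rankOne ℂ φ φ) z s) (FF T B z s φ)) := by
  have h0 := inner_FF_nonneg (T := T) hB z hs φ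
  have e0 : (calcB T B φ).f z s = (⟪φ, FF T B z s φ⟫_ℂ).re := rfl
  have hp := calc_par (FF T B z s) (SS T z (FF T B z s φ)) (star (SS T z) (FF T B z s φ))
  have e1 : EE T 1 z (FF T B z s φ) =
      -(SS T z (FF T B z s φ) + star (SS T z) (FF T B z s φ)) := by simp [EE]
  have e2 : EE T Complex.I z (FF T B z s φ) = -(conj Complex.I • SS T z (FF T B z s φ) +
      Complex.I • star (SS T z) (FF T B z s φ)) := by
    simp only [EE, neg_apply, add_apply, smul_apply]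
  rw [← e1, ← e2] at hp
  simp only [Jet.lap, calcLog, calc_fs hB, calc_fss hB, calc_f1 hB, calc_f2 hB, e0,
    calc_Q_succ hB φ z hs]
  set g := FF T B z s φ
  have e3 : ‖⟪g, g⟫_ℂ‖ = ‖g‖ ^ 2 := by
    rw [inner_self_eq_norm_sq_to_K]; simp
  set m := ⟪g, star (SS T z) g⟫_ℂ
  have e4 : ‖m‖ ^ 2 = m.re ^ 2 + m.im ^ 2 := by
    rw [← Complex.normSq_eq_norm_sq, Complex.normSq_apply]; ring
  have e5 : (Complex.I * m).re = -m.im := by simp
  rw [e3, e4, e5, one_mul]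
  have hD : 1 + (⟪φ, g⟫_ℂ).re ≠ 0 := by positivity
  have e6 : calcQ (FF T B z s) (EE T 1 z g) = 2 * calcQ (FF T B z s) (SS T z g) +
    2 * calcQ (FF T B z s) (star (SS T z) g) - calcQ (FF T B z s) (EE T Complex.I z g) := by
    linarith
  rw [e6]
  field_simp
  ring

lemma calc_tele (S : H →L[ℂ] H) (s : ℝ) (Q : ℕ → H → ℝ) (g : ℕ → H) (r : ℕ → ℝ)
    (hQ : ∀ n x, Q (n + 1) x = Q n x - r n * ‖⟪g n, x⟫_ℂ‖ ^ 2) (n : ℕ) :
    ∑ j ∈ Finset.range n, r j * (2 * ‖g j‖ ^ 2 - Q j (S (g j)) - Q (j + 1) (star S (g j)) -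
      s * Q j (g j) - s * Q (j + 1) (g j)) =
    ∑ j ∈ Finset.range n, r j * (2 * ‖g j‖ ^ 2 - Q 0 (S (g j)) - Q n (star S (g j)) -
      s * Q 0 (g j) - s * Q n (g j)) := by
  have hs : ∀ n x, Q n x = Q 0 x - ∑ l ∈ Finset.range n, r l * ‖⟪g l, x⟫_ℂ‖ ^ 2 := by
    intro n x
    induction n with
    | zero => simp
    | succ n ih => rw [hQ, ih, Finset.sum_range_succ]; ring
  induction n with
  | zero => simp
  | succ n ih =>
    rw [Finset.sum_range_succ, Finset.sum_range_succ, ih]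
    have e : ∑ j ∈ Finset.range n, r j * (2 * ‖g j‖ ^ 2 - Q 0 (S (g j)) -
        Q (n + 1) (star S (g j)) - s * Q 0 (g j) - s * Q (n + 1) (g j)) =
        ∑ j ∈ Finset.range n, r j * (2 * ‖g j‖ ^ 2 - Q 0 (S (g j)) - Q n (star S (g j)) -
          s * Q 0 (g j) - s * Q n (g j)) +
        r n * ∑ l ∈ Finset.range n, r l * ‖⟪g l, S (g n)⟫_ℂ‖ ^ 2 +
        r n * s * ∑ l ∈ Finset.range n, r l * ‖⟪g l, g n⟫_ℂ‖ ^ 2 := by
      rw [Finset.mul_sum, Finset.mul_sum, ← Finset.sum_add_distrib, ← Finset.sum_add_distrib]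
      refine Finset.sum_congr rfl fun j _ => ?_
      rw [hQ, hQ, calc_star, norm_inner_symm (S (g n)), norm_inner_symm (g n)]
      ring
    rw [e, hs n (S (g n)), hs n (g n)]
    ring

lemma calc_dual (A : H →L[ℂ] H) {s q1 q2 : ℝ} (hs : 0 ≤ s) (u h1 h2 : H)
    (e1 : (⟪A u, h1⟫_ℂ).re = q1) (e2 : (⟪u, h2⟫_ℂ).re = q2)
    (l1 : ‖star A h1‖ ^ 2 + s * ‖h1‖ ^ 2 ≤ q1) (l2 : ‖A h2‖ ^ 2 + s * ‖h2‖ ^ 2 ≤ q2) :
    q1 + s * q2 ≤ ‖u‖ ^ 2 := by
  set k := star A h1 + (s : ℂ) • h2 with hk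
  have a1 : (⟪u, k⟫_ℂ).re = q1 + s * q2 := by
    rw [hk, inner_add_right, inner_smul_right, calc_star, Complex.add_re, e1, Complex.re_ofReal_mul,
      e2]
  have a2 : ‖k‖ ^ 2 = ‖star A h1‖ ^ 2 + 2 * (s * (⟪h1, A h2⟫_ℂ).re) + s ^ 2 * ‖h2‖ ^ 2 := by
    have := norm_add_sq (𝕜 := ℂ) (star A h1) ((s : ℂ) • h2)
    rw [hk, this, norm_smul, inner_smul_right, mul_pow, Complex.norm_real, Real.norm_eq_abs, sq_abs,
      ContinuousLinearMap.star_eq_adjoint, ContinuousLinearMap.adjoint_inner_left]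
    simp
  have a3 : (⟪h1, A h2⟫_ℂ).re ≤ ‖h1‖ * ‖A h2‖ :=
    (Complex.re_le_norm _).trans (norm_inner_le_norm _ _)
  have a4 : (⟪u, k⟫_ℂ).re ≤ ‖u‖ * ‖k‖ := (Complex.re_le_norm _).trans (norm_inner_le_norm _ _)
  have a5 : 2 * (⟪h1, A h2⟫_ℂ).re ≤ ‖h1‖ ^ 2 + ‖A h2‖ ^ 2 := by
    nlinarith [sq_nonneg (‖h1‖ - ‖A h2‖)]
  have a6 := mul_le_mul_of_nonneg_left a5 hs
  have a7 := mul_le_mul_of_nonneg_left l2 hs
  have a8 : ‖k‖ ^ 2 ≤ q1 + s * q2 := by nlinarith
  nlinarith [sq_nonneg (‖u‖ - ‖k‖)]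

lemma calc_pair (hc : star T * T + Ψ * star Ψ = T * star T + Φ * star Φ) (hB : B.IsPositive)
    (z : ℂ) {s : ℝ} (hs : 0 < s) (u : H) :
    calcQ (FF T B z s) (SS T z u) + calcQ (FF T (Φ * star Φ) z s) (star (SS T z) u) +
      s * calcQ (FF T B z s) u + s * calcQ (FF T (Φ * star Φ) z s) u ≤ 2 * ‖u‖ ^ 2 := by
  have l1 : ∀ y, ‖star (SS T z) (FF T B z s y)‖ ^ 2 + s * ‖FF T B z s y‖ ^ 2 ≤
      calcQ (FF T B z s) y := fun y => by
    have h1 := inner_FF (T := T) hB z hs y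
    have h2 : 0 ≤ (⟪FF T B z s y, B (FF T B z s y)⟫_ℂ).re := hB.re_inner_nonneg_right _
    simp only [calcQ]
    linarith
  have l2 : ∀ y, ‖SS T z (FF T (Φ * star Φ) z s y)‖ ^ 2 + s * ‖FF T (Φ * star Φ) z s y‖ ^ 2 ≤
      calcQ (FF T (Φ * star Φ) z s) y := fun y => by
    have h1 := inner_FF (T := T) (pos_mul_star Φ) z hs y
    have h2 := norm_SS_eq hc z (FF T (Φ * star Φ) z s y)
    rw [inner_mul_star] at h1
    simp only [calcQ]
    nlinarith [sq_nonneg ‖star Ψ (FF T (Φ * star Φ) z s y)‖]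
  have p1 := calc_dual (SS T z) hs.le u _ _ rfl rfl (l1 (SS T z u)) (l2 u)
  have p2 := calc_dual (star (SS T z)) hs.le u _ _ rfl rfl
    (by rw [star_star]; exact l2 (star (SS T z) u)) (l1 u)
  simp only [calcQ]
  linarith

omit [CompleteSpace H] in
lemma calc_Q_diff (F G : H →L[ℂ] H) (x : H) : calcQ F x - calcQ G x ≤ ‖F - G‖ * ‖x‖ ^ 2 := by
  have h := (le_abs_self _).trans (abs_re_om_le x (F - G))
  rw [om_apply, sub_apply, inner_sub_right, Complex.sub_re] at h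
  simp only [calcQ]
  linarith

lemma calc_sup (hc : star T * T + Ψ * star Ψ = T * star T + Φ * star Φ)
    (b : HilbertBasis ℕ ℂ H) (hsum : Summable fun j => ‖Φ (b j)‖ ^ 2) (k : ℕ) (z : ℂ) {s : ℝ}
    (hs : 0 < s) : ∑' j, (calcLog (calcB T (hd (fun l => Φ (b l)) (j + k)) (Φ (b (j + k))))).lap
      z s ≤ 0 := by
  set φ : ℕ → H := fun l => Φ (b l) with hφ
  by_cases hl : Summable fun j => (calcLog (calcB T (hd φ (j + k)) (φ (j + k)))).lap z s
  swap
  · exact (tsum_eq_zero_of_not_summable hl).le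
  set F : ℕ → H →L[ℂ] H := fun n => FF T (hd φ (n + k)) z s with hF
  set g : ℕ → H := fun n => F n (φ (n + k)) with hg
  set r : ℕ → ℝ := fun n => (1 + (⟪φ (n + k), g n⟫_ℂ).re)⁻¹ with hr
  set G := FF T (Φ * star Φ) z s with hG
  have hsucc : ∀ n, hd φ (n + 1 + k) = hd φ (n + k) + rankOne ℂ (φ (n + k)) (φ (n + k)) := by
    intro n
    rw [Nat.add_right_comm, hd, Finset.sum_range_succ, hd]
  have hr0 : ∀ n, 0 ≤ r n ∧ r n ≤ 1 := fun n => by
    have := inner_FF_nonneg (T := T) (hd_pos φ (n + k)) z hs (φ (n + k))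
    exact ⟨by positivity, inv_le_one_of_one_le₀ (by linarith)⟩
  have tele := calc_tele (SS T z) s (fun n => calcQ (F n)) g r fun n x => by
    simp only [hF, hsucc]
    exact calc_Q_succ (hd_pos φ (n + k)) _ z hs x
  have hsk : Summable fun j => ‖φ (j + k)‖ ^ 2 := (summable_nat_add_iff k).2 hsum
  set C := (‖SS T z‖ ^ 2 + s) * s⁻¹ ^ 2 * ∑' j, ‖φ (j + k)‖ ^ 2 with hC
  have hle : ∀ n, ∑ j ∈ Finset.range n,
      (calcLog (calcB T (hd φ (j + k)) (φ (j + k)))).lap z s ≤ ‖F n - G‖ * C := by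
    intro n
    have e : ∑ j ∈ Finset.range n, (calcLog (calcB T (hd φ (j + k)) (φ (j + k)))).lap z s =
        -∑ j ∈ Finset.range n, r j * (2 * ‖g j‖ ^ 2 - calcQ (F 0) (SS T z (g j)) -
          calcQ (F n) (star (SS T z) (g j)) - s * calcQ (F 0) (g j) - s * calcQ (F n) (g j)) := by
      rw [← tele n, ← Finset.sum_neg_distrib]
      refine Finset.sum_congr rfl fun j _ => ?_
      rw [← neg_eq_iff_eq_neg, calc_lap (hd_pos φ (j + k)) _ z hs]
      simp only [hF, hsucc, hg, hr]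
    rw [e, ← Finset.sum_neg_distrib]
    calc _ ≤ ∑ j ∈ Finset.range n,
          ‖F n - G‖ * ((‖SS T z‖ ^ 2 + s) * s⁻¹ ^ 2) * ‖φ (j + k)‖ ^ 2 := by
          refine Finset.sum_le_sum fun j _ => ?_
          have p := calc_pair hc (hd_pos φ (0 + k)) z hs (g j)
          have d1 := calc_Q_diff (F n) G (star (SS T z) (g j))
          have d2 := calc_Q_diff (F n) G (g j)
          have n1 : ‖star (SS T z) (g j)‖ ≤ ‖SS T z‖ * ‖g j‖ := by
            simpa using (star (SS T z)).le_opNorm (g j)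
          have n2 : ‖g j‖ ≤ s⁻¹ * ‖φ (j + k)‖ :=
            ((F j).le_opNorm _).trans (mul_le_mul_of_nonneg_right
              (unit_LL_pos (hd_pos φ (j + k)) z hs).2 (norm_nonneg _))
          have n3 : ‖star (SS T z) (g j)‖ ^ 2 ≤ ‖SS T z‖ ^ 2 * ‖g j‖ ^ 2 := by
            rw [← mul_pow]; gcongr
          have n4 : ‖g j‖ ^ 2 ≤ s⁻¹ ^ 2 * ‖φ (j + k)‖ ^ 2 := by
            rw [← mul_pow]; gcongr
          have d3 := mul_le_mul_of_nonneg_left d2 hs.le
          have d4 := mul_le_mul_of_nonneg_left n3 (norm_nonneg (F n - G))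
          have d5 : -(2 * ‖g j‖ ^ 2 - calcQ (F 0) (SS T z (g j)) -
              calcQ (F n) (star (SS T z) (g j)) - s * calcQ (F 0) (g j) - s * calcQ (F n) (g j)) ≤
              ‖F n - G‖ * (‖SS T z‖ ^ 2 + s) * ‖g j‖ ^ 2 := by
            have : F 0 = FF T (hd φ (0 + k)) z s := rfl
            rw [this]
            nlinarith
          have d6 : ‖F n - G‖ * (‖SS T z‖ ^ 2 + s) * ‖g j‖ ^ 2 ≤
              ‖F n - G‖ * (‖SS T z‖ ^ 2 + s) * (s⁻¹ ^ 2 * ‖φ (j + k)‖ ^ 2) := by gcongr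
          rw [← mul_neg]
          calc _ ≤ r j * (‖F n - G‖ * (‖SS T z‖ ^ 2 + s) * (s⁻¹ ^ 2 * ‖φ (j + k)‖ ^ 2)) :=
                mul_le_mul_of_nonneg_left (d5.trans d6) (hr0 j).1
            _ ≤ 1 * (‖F n - G‖ * (‖SS T z‖ ^ 2 + s) * (s⁻¹ ^ 2 * ‖φ (j + k)‖ ^ 2)) :=
                mul_le_mul_of_nonneg_right (hr0 j).2 (by positivity)
            _ = _ := by ring
      _ ≤ _ := by
          rw [← Finset.mul_sum, hC, ← mul_assoc ‖F n - G‖ _ (tsum _)]
          exact mul_le_mul_of_nonneg_left (hsk.sum_le_tsum _ fun _ _ => by positivity)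
            (by positivity)
  have lim : Tendsto (fun n => ‖F n - G‖ * C) atTop (𝓝 0) := by
    have h1 : Tendsto F atTop (𝓝 G) :=
      (tendsto_FF_hd (T := T) b hsum z hs).comp (tendsto_add_atTop_nat k)
    simpa using (tendsto_iff_norm_sub_tendsto_zero.1 h1).mul_const C
  exact le_of_tendsto_of_tendsto' hl.hasSum.tendsto_sum_nat lim hle

theorem exists_sys (hc : star T * T + Ψ * star Ψ = T * star T + Φ * star Φ)
    (b : HilbertBasis ℕ ℂ H) (hsum : Summable fun j => ‖Φ (b j)‖ ^ 2) :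
    ∃ J K R A, Sys J (fun j => ‖Φ (b j)‖ ^ 2) K R A ∧
      (fun j => (J j).f) = ww T (fun l => Φ (b l)) ∧
      ∀ j z s, 0 < s → -s * (J j).fs z s = fl T (fun l => Φ (b l)) j z s := by
  set φ : ℕ → H := fun l => Φ (b l) with hφ
  have hfs : ∀ j z s, -(calcLog (calcB T (hd φ j) (φ j))).fs z s =
      ‖FF T (hd φ j) z s (φ j)‖ ^ 2 / (1 + (⟪φ j, FF T (hd φ j) z s (φ j)⟫_ℂ).re) := by
    intro j z s
    simp only [calcLog, calc_fs (hd_pos φ j)]
    rw [neg_div, neg_neg]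
    rfl
  have hfl : ∀ j z s, -s * (calcLog (calcB T (hd φ j) (φ j))).fs z s = fl T φ j z s := by
    intro j z s
    rw [neg_mul, ← mul_neg, hfs, fl, mul_div_assoc]
  refine ⟨fun j => calcLog (calcB T (hd φ j) (φ j)),
    fun ε => calcK T ε + ‖Φ‖ ^ 2 * calcK T ε ^ 2, 2 * ‖T‖ + 1, 16, ?_, rfl,
    fun j z s _ => hfl j z s⟩
  constructor
  · intro j
    refine calc_log_dat (calc_b_dat (hd_pos φ j) (φ j))
      (fun z s hs => inner_FF_nonneg (hd_pos φ j) z hs (φ j)) (by positivity) ?_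
    have : ‖Φ (b j)‖ ≤ ‖Φ‖ := by simpa [b.orthonormal.1 j] using Φ.le_opNorm (b j)
    gcongr
  · intro j; positivity
  · exact hsum
  · intro ε
    have := calcK_nonneg T ε
    positivity
  · linarith [norm_nonneg T]
  · norm_num
  · exact fun j z t ht => ww_nonneg φ j z ht
  · exact fun j z t ht => ww_le_log φ j z ht
  · intro j z t ht
    have := inner_FF_nonneg (T := T) (hd_pos φ j) z ht (φ j)
    rw [hfl, fl]
    positivity
  · intro j z t ht
    have h0 := inner_FF_nonneg (T := T) (hd_pos φ j) z ht (φ j)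
    have h1 := inner_FF (T := T) (hd_pos φ j) z ht (φ j)
    have h2 : 0 ≤ (⟪FF T (hd φ j) z t (φ j), hd φ j (FF T (hd φ j) z t (φ j))⟫_ℂ).re :=
      (hd_pos φ j).re_inner_nonneg_right _
    rw [hfl, fl, div_le_one (by positivity)]
    nlinarith [sq_nonneg ‖star (SS T z) (FF T (hd φ j) z t (φ j))‖]
  · intro j z t ht hz
    have hz0 : 0 < ‖z‖ := by linarith [norm_nonneg T]
    have hN := norm_FF_far (T := T) (hd_pos φ j) ht (z := z) (by linarith) (norm_pos_iff.1 hz0)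
    have h0 := inner_FF_nonneg (T := T) (hd_pos φ j) z ht (φ j)
    constructor
    · have h1 := Real.log_le_sub_one_of_pos
        (by positivity : 0 < 1 + (⟪φ j, FF T (hd φ j) z t (φ j)⟫_ℂ).re)
      have h2 := (le_abs_self _).trans (abs_re_om_le (φ j) (FF T (hd φ j) z t))
      have h3 := mul_le_mul_of_nonneg_left hN (sq_nonneg ‖φ j‖)
      have h4 : ‖φ j‖ ^ 2 * (4 / ‖z‖ ^ 2) ≤ 16 * ‖φ j‖ ^ 2 / ‖z‖ ^ 2 := by
        rw [← mul_div_assoc]
        exact div_le_div_of_nonneg_right (by nlinarith [sq_nonneg ‖φ j‖]) (by positivity)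
      rw [om_apply] at h2
      change Real.log (1 + (⟪φ j, FF T (hd φ j) z t (φ j)⟫_ℂ).re) ≤ 16 * ‖φ j‖ ^ 2 / ‖z‖ ^ 2
      linarith
    · rw [hfs]
      refine (div_le_self (by positivity) (by linarith)).trans ?_
      have h1 : ‖FF T (hd φ j) z t (φ j)‖ ≤ 4 / ‖z‖ ^ 2 * ‖φ j‖ :=
        ((FF T (hd φ j) z t).le_opNorm _).trans (mul_le_mul_of_nonneg_right hN (norm_nonneg _))
      calc _ ≤ (4 / ‖z‖ ^ 2 * ‖φ j‖) ^ 2 := by gcongr
        _ = 16 * ‖φ j‖ ^ 2 / ‖z‖ ^ 4 := by field_simp; ring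
  · exact fun k z t ht => calc_sup hc b hsum k z ht
  · exact fun j z t u σ ht hσ => ww_osc b j ht hσ

end Pool.Agent.Lib.MP_45cb44_an.Hy
end
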