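import Pool.Agent.Lib.MP_45cb44_an.HyStep

/-! A family of approximate eigenvectors over a set of positive area gives an invariant
subspace. -/

namespace Pool.Agent.Lib.MP_45cb44_an.Hy

open MeasureTheory Metric Set Filter Topology InnerProductSpace
open scoped InnerProductSpace ComplexConjugate ENNReal

variable {H : Type*} [NormedAddCommGroup H] [InnerProductSpace ℂ H] [CompleteSpace H]
  {T : H →L[ℂ] H} {v : H} {A E : Set ℂ} {y : ℂ → ℝ → H} {q : ℂ → ℝ → ℝ} {β C s0 : ℝ}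

/-- Dependent choice along the natural numbers. -/
lemma tree_rec {α : Type*} (P : ℕ → α → Prop) (R : ℕ → α → α → Prop) {a0 : α} (h0 : P 0 a0)
    (hs : ∀ n a, P n a → ∃ b, P (n + 1) b ∧ R n a b) :
    ∃ f : ℕ → α, f 0 = a0 ∧ ∀ n, P n (f n) ∧ R n (f n) (f (n + 1)) := by
  choose g hg hr using hs
  let F : (n : ℕ) → {a : α // P n a} := fun n =>
    Nat.rec (motive := fun n => {a : α // P n a}) ⟨a0, h0⟩
      (fun n a => ⟨g n a.1 a.2, hg n a.1 a.2⟩) n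
  exact ⟨fun n => (F n).1, rfl, fun n => ⟨(F n).2, hr n (F n).1 (F n).2⟩⟩

/-- A scale at which the error is at most one half. -/
lemma tree_small (h : Fam T v A y q β C s0) {z : ℂ} (hz : z ∈ A) :
    ∃ s, 0 < s ∧ s ≤ s0 ∧ q z s ≤ 1 / 2 := by
  have hC := h.C1
  have hβ := h.β0
  have hs0 := h.s0pos
  set δ : ℝ := 1 / (4 * C ^ 2) with hδ
  have hδ0 : 0 < δ := by positivity
  have hδ1 : δ ≤ 1 := by
    rw [hδ, div_le_one (by positivity)]
    nlinarith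
  have h1 : δ ^ (1 / β) ≤ 1 := Real.rpow_le_one hδ0.le hδ1 (by positivity)
  have h2 : 0 < δ ^ (1 / β) := Real.rpow_pos_of_pos hδ0 _
  refine ⟨s0 * δ ^ (1 / β), by positivity, by nlinarith, ?_⟩
  have h3 := h.q_le hz (s := s0 * δ ^ (1 / β)) (by positivity) (by nlinarith)
  have h4 : (s0 * δ ^ (1 / β) / s0) ^ β = δ := by
    rw [mul_div_cancel_left₀ _ hs0.ne', ← Real.rpow_mul hδ0.le, one_div_mul_cancel hβ.ne',
      Real.rpow_one]
  rw [h4, hδ] at h3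
  have h5 : C ^ 2 * (1 / (4 * C ^ 2)) = (1 / 2) ^ 2 := by
    field_simp
    norm_num
  rw [h5] at h3
  exact (pow_le_pow_iff_left₀ (h.q0 _ _) (by norm_num) two_ne_zero).1 h3

/-- Overlap of two far states. -/
lemma tree_far (h : Fam T v A y q β C s0) {z w : ℂ} (hz : z ∈ A) (hw : w ∈ A) {s s' d : ℝ}
    (hs : 0 < s) (hs' : 0 < s') (h1 : s ≤ d) (h2 : s' ≤ d) (hd : d ≤ ‖z - w‖ ^ 2)
    (h3 : ‖z - w‖ ^ 2 ≤ s0) : ‖⟪y z s, y w s'⟫_ℂ‖ ≤ C ^ 2 / d := by
  have hC := h.C1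
  have hd0 : 0 < d := hs.trans_le h1
  have hr : 0 < ‖z - w‖ ^ 2 := hd0.trans_le hd
  have a1 := h.mono z _ _ hr h3
  have a2 := h.mono w _ _ hr h3
  have b1 := h.top z hz
  have b2 := h.top w hw
  have c1 := h.q0 z (‖z - w‖ ^ 2)
  have c2 := h.q0 w (‖z - w‖ ^ 2)
  have d1 : q z (‖z - w‖ ^ 2) * q w (‖z - w‖ ^ 2) ≤ q z s0 * q w s0 :=
    mul_le_mul a1 a2 c2 (h.q0 _ _)
  have d2 : q z s0 * q w s0 ≤ C := by nlinarith [sq_nonneg (q z s0 - q w s0)]
  refine (h.farSt z w s s' hs (h1.trans hd) hs' (h2.trans hd)).trans ?_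
  have d3 : C * q z (‖z - w‖ ^ 2) * q w (‖z - w‖ ^ 2) ≤ C ^ 2 := by
    rw [mul_assoc, sq C]
    exact mul_le_mul_of_nonneg_left (d1.trans d2) (zero_le_one.trans hC)
  exact div_le_div₀ (by positivity) d3 hd0 hd

theorem Fam.start (h : Fam T v A y q β C s0) (hA : ∀ z ∈ A, ∀ z' ∈ A, ‖z - z'‖ ^ 2 ≤ s0)
    (h0 : mm A ≠ 0) : ∃ m, 0 < m ∧ ∀ w, 0 < w → ∃ G s x κ,
      Stage A y q s0 m w 0 (1 / 2) G s x κ ∧ 1 ≤ ‖x‖ := by
  have hC := h.C1
  obtain ⟨r, hr, hD⟩ := exists_dens (A := A) (B := univ) (a := 0)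
    (by rw [inter_univ]; exact pos_iff_ne_zero.2 h0)
  rw [inter_univ] at hD
  have hnt : (Dens A r).Nontrivial := by
    by_contra hc
    rw [Set.not_nontrivial_iff] at hc
    exact hD.ne' (hc.measure_zero mm)
  obtain ⟨O, hO, P, hP, hOP⟩ := hnt
  have hρ : 0 < ‖O - P‖ := norm_pos_iff.2 (sub_ne_zero.2 hOP)
  obtain ⟨s1, hs1, hs10, hq1⟩ := tree_small h hO.1
  set d : ℝ := ‖O - P‖ ^ 2 / 4 with hd
  have hd0 : 0 < d := by positivity
  set a : ℝ := min s1 (min (r ^ 2) d) with ha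
  have ha0 : 0 < a := lt_min hs1 (lt_min (by positivity) hd0)
  have ha1 : a ≤ s1 := min_le_left _ _
  have ha2 : a ≤ r ^ 2 := (min_le_right _ _).trans (min_le_left _ _)
  have ha3 : a ≤ d := (min_le_right _ _).trans (min_le_right _ _)
  have hsa : 0 < √a := Real.sqrt_pos.2 ha0
  have hq0 := h.q0 O a
  refine ⟨q O a / √a + 1, by positivity, fun w hw => ?_⟩
  set M : ℝ := C ^ 2 / d / w with hM
  have hM0 : 0 < M := by positivity
  obtain ⟨σ, hσ0, hσd, hσs, hσM⟩ := h.unbounded hP.1 M hd0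
  have hnM : ‖((M : ℂ))⁻¹‖ = M⁻¹ := by
    rw [norm_inv, Complex.norm_real, Real.norm_of_nonneg hM0.le]
  refine ⟨{O}, fun _ => a, ((M : ℂ))⁻¹ • y P σ, fun _ _ => 0, ?_, ?_⟩
  · refine ⟨Finset.singleton_nonempty O, ?_, fun _ _ => ha0, fun _ _ => ha1.trans hs10, ?_, ?_,
      ?_, ?_, (h.reg P hσ0 hσs).smul _, ?_, ?_, ?_⟩
    · intro O' hO'
      rw [Finset.mem_singleton.1 hO']
      exact hO.1
    · intro O' hO'
      rw [Finset.mem_singleton.1 hO', Finset.card_singleton, Nat.cast_one, mul_one]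
      have e1 : (q O a / √a) ^ 2 * a = q O a ^ 2 := by
        rw [div_pow, Real.sq_sqrt ha0.le, div_mul_cancel₀ _ ha0.ne']
      have e2 : 0 ≤ q O a / √a := by positivity
      rw [← e1]
      exact mul_le_mul_of_nonneg_right (pow_le_pow_left₀ e2 (by linarith) 2) ha0.le
    · intro O' hO'
      rw [Finset.mem_singleton.1 hO']
      exact (h.mono O a s1 ha0 ha1).trans hq1
    · intro O' hO'
      rw [Finset.mem_singleton.1 hO']
      refine lt_of_lt_of_le ?_ (hO.2 √a hsa (Real.sqrt_le_left hr.le |>.2 ha2))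
      rw [Real.sq_sqrt ha0.le, ENNReal.ofReal_lt_ofReal_iff (by positivity)]
      linarith
    · intro O1 h1 O2 h2 h12
      exact absurd ((Finset.mem_singleton.1 h1).trans (Finset.mem_singleton.1 h2).symm) h12
    · intro O' hO' z hz s' hs' hs'a hzO
      rw [Finset.mem_singleton.1 hO'] at hzO
      have f1 : ‖z - O‖ ≤ ‖O - P‖ / 2 := by
        refine (pow_le_pow_iff_left₀ (norm_nonneg _) (by positivity) two_ne_zero).1 ?_
        rw [div_pow]
        linarith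
      have f2 : ‖O - P‖ ≤ ‖z - O‖ + ‖z - P‖ := by
        have : O - P = -(z - O) + (z - P) := by ring
        rw [this]
        exact (norm_add_le _ _).trans (by rw [norm_neg])
      have f3 : d ≤ ‖z - P‖ ^ 2 := by
        have : ‖O - P‖ / 2 ≤ ‖z - P‖ := by linarith
        have := pow_le_pow_left₀ (by positivity) this 2
        rw [div_pow] at this
        linarith
      have f4 := tree_far h hz hP.1 hs' hσ0 (hs'a.trans ha3) hσd f3 (hA z hz P hP.1)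
      rw [inner_smul_right, norm_mul, hnM, inv_mul_le_iff₀ hM0, hM, div_mul_cancel₀ _ hw.ne']
      exact f4
    · intro O1 h1 O2 h2 h12
      exact absurd ((Finset.mem_singleton.1 h1).trans (Finset.mem_singleton.1 h2).symm) h12
    · simp
  · rw [norm_smul, hnM, le_inv_mul_iff₀ hM0, mul_one]
    exact hσM

/-- Powers of the adjoint applied to an approximate eigenvector. -/
lemma tree_pow (h : Fam T v A y q β C s0) {L : ℝ} (hT : ‖T‖ ≤ L) (k : ℕ) :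
    ∃ D, 0 ≤ D ∧ ∀ z s x, 0 < s → ‖z‖ ≤ L →
      ‖⟪(star T ^ k) (y z s), x⟫_ℂ‖ ≤ D * (q z s * ‖x‖ + ‖⟪y z s, x⟫_ℂ‖) := by
  have hL : 0 ≤ L := (norm_nonneg _).trans hT
  rcases k with _ | k
  · refine ⟨1, zero_le_one, fun z s x _ _ => ?_⟩
    have := mul_nonneg (h.q0 z s) (norm_nonneg x)
    rw [pow_zero, one_apply_eq_self]
    linarith
  · refine ⟨(k + 1) * L ^ k + L ^ (k + 1), by positivity, fun z s x hs hz => ?_⟩
    have e1 := h.eig_pow hs hT hz k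
    have e2 : ⟪(star T ^ (k + 1)) (y z s), x⟫_ℂ =
        ⟪(star T ^ (k + 1)) (y z s) - conj z ^ (k + 1) • y z s, x⟫_ℂ +
          ⟪conj z ^ (k + 1) • y z s, x⟫_ℂ := by
      rw [inner_sub_left, sub_add_cancel]
    have e3 : ‖⟪(star T ^ (k + 1)) (y z s) - conj z ^ (k + 1) • y z s, x⟫_ℂ‖ ≤
        (k + 1) * L ^ k * (q z s * ‖x‖) := by
      refine (norm_inner_le_norm _ _).trans ?_
      rw [← mul_assoc]
      exact mul_le_mul_of_nonneg_right e1 (norm_nonneg _)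
    have e4 : ‖⟪conj z ^ (k + 1) • y z s, x⟫_ℂ‖ ≤ L ^ (k + 1) * ‖⟪y z s, x⟫_ℂ‖ := by
      rw [inner_smul_left, norm_mul, RCLike.norm_conj, norm_pow, RCLike.norm_conj]
      exact mul_le_mul_of_nonneg_right (pow_le_pow_left₀ (norm_nonneg _) hz _) (norm_nonneg _)
    have p1 : 0 ≤ q z s * ‖x‖ := mul_nonneg (h.q0 z s) (norm_nonneg x)
    have p2 : 0 ≤ ((k : ℝ) + 1) * L ^ k * ‖⟪y z s, x⟫_ℂ‖ := by positivity
    have p3 : 0 ≤ L ^ (k + 1) * (q z s * ‖x‖) := by positivity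
    rw [e2]
    refine (norm_add_le _ _).trans ?_
    nlinarith

/-- The average of a generation. -/
noncomputable def treeAvg (y : ℂ → ℝ → H) (G : Finset ℂ) (s : ℂ → ℝ) : H :=
  ((G.card : ℂ))⁻¹ • ∑ O ∈ G, y O (s O)

section avg

variable {m w e ε : ℝ} {G : Finset ℂ} {s : ℂ → ℝ} {x : H} {κ : ℂ → ℂ → ℝ}

lemma tree_avg_norm (h : Fam T v A y q β C s0) (hA : ∀ z ∈ A, ∀ z' ∈ A, ‖z - z'‖ ^ 2 ≤ s0)
    (S : Stage A y q s0 m w e ε G s x κ) : ‖treeAvg y G s‖ ^ 2 ≤ m ^ 2 + C ^ 2 * e := by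
  have hc : (0 : ℝ) < G.card := Nat.cast_pos.2 S.ne.card_pos
  have := S.norm_sum_le h hA
  rw [treeAvg, norm_smul, norm_inv, Complex.norm_natCast, mul_pow, inv_pow,
    inv_mul_le_iff₀ (by positivity), mul_comm]
  exact this

lemma tree_avg_re (h : Fam T v A y q β C s0) (S : Stage A y q s0 m w e ε G s x κ) :
    1 - ε ≤ (⟪v, treeAvg y G s⟫_ℂ).re := by
  have hc : (0 : ℝ) < G.card := Nat.cast_pos.2 S.ne.card_pos
  have e1 : ((G.card : ℂ))⁻¹ = (((G.card : ℝ)⁻¹ : ℝ) : ℂ) := by push_cast; rfl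
  rw [treeAvg, inner_smul_right, e1, Complex.re_ofReal_mul, inner_sum, Complex.re_sum,
    le_inv_mul_iff₀ hc, ← nsmul_eq_mul]
  refine Finset.card_nsmul_le_sum _ _ _ fun O hO => ?_
  have a1 := h.nd O (S.sub O hO) _ (S.pos O hO)
  have a2 := S.qs O hO
  linarith

omit [CompleteSpace H] in
lemma tree_avg_pow (S : Stage A y q s0 m w e ε G s x κ) {U : H →L[ℂ] H} {D L : ℝ} (hD : 0 ≤ D)
    (hL : ∀ z ∈ A, ‖z‖ ≤ L) (hU : ∀ z s x, 0 < s → ‖z‖ ≤ L →
      ‖⟪U (y z s), x⟫_ℂ‖ ≤ D * (q z s * ‖x‖ + ‖⟪y z s, x⟫_ℂ‖)) :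
    ‖⟪U (treeAvg y G s), x⟫_ℂ‖ ≤ D * (ε * ‖x‖ + w) := by
  have hc : (0 : ℝ) < G.card := Nat.cast_pos.2 S.ne.card_pos
  rw [treeAvg, map_smul, inner_smul_left, norm_mul, RCLike.norm_conj, norm_inv,
    Complex.norm_natCast, map_sum, sum_inner, inv_mul_le_iff₀ hc, ← nsmul_eq_mul]
  refine (norm_sum_le _ _).trans (Finset.sum_le_card_nsmul _ _ _ fun O hO => ?_)
  refine (hU O (s O) x (S.pos O hO) (hL O (S.sub O hO))).trans ?_
  refine mul_le_mul_of_nonneg_left (add_le_add ?_ ?_) hD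
  · exact mul_le_mul_of_nonneg_right (S.qs O hO) (norm_nonneg _)
  · refine S.small O hO O (S.sub O hO) _ (S.pos O hO) le_rfl ?_
    rw [sub_self, norm_zero, zero_pow two_ne_zero]
    exact (S.pos O hO).le

end avg

/-- The statement for a set of small diameter. -/
lemma tree_not_tr (h : Fam T v A y q β C s0) (hA : ∀ z ∈ A, ∀ z' ∈ A, ‖z - z'‖ ^ 2 ≤ s0)
    {L : ℝ} (hT : ‖T‖ ≤ L) (hL : ∀ z ∈ A, ‖z‖ ≤ L) (h0 : mm A ≠ 0) : ¬Tr T := by
  obtain ⟨m, hm, hst⟩ := h.start hA h0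
  obtain ⟨C1, C2, hC1, hC2, hstep⟩ := h.step hA
  set w : ℝ := m / (4 * (C2 + 1)) with hw
  have hw0 : 0 < w := by positivity
  obtain ⟨G0, t0, x0, κ0, S0, hx0⟩ := hst w hw0
  let P : ℕ → Finset ℂ × (ℂ → ℝ) × H × (ℂ → ℂ → ℝ) → Prop := fun n a =>
    Stage A y q s0 (m / 2 ^ n) (w / 4 ^ n) (4 / 3 * C1 * m ^ 2 * (1 - (1 / 4) ^ n))
      (1 / ((n : ℝ) + 2)) a.1 a.2.1 a.2.2.1 a.2.2.2
  let R : ℕ → Finset ℂ × (ℂ → ℝ) × H × (ℂ → ℂ → ℝ) →
      Finset ℂ × (ℂ → ℝ) × H × (ℂ → ℂ → ℝ) → Prop := fun n a b =>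
    dist a.2.2.1 b.2.2.1 ≤ 1 / 2 / 2 / 2 ^ n
  have hP0 : P 0 (G0, t0, x0, κ0) := by
    have e1 : m / 2 ^ 0 = m := by simp
    have e2 : w / 4 ^ 0 = w := by simp
    have e3 : 4 / 3 * C1 * m ^ 2 * (1 - (1 / 4) ^ 0) = 0 := by simp
    have e4 : 1 / (((0 : ℕ) : ℝ) + 2) = 1 / 2 := by simp
    show Stage A y q s0 (m / 2 ^ 0) (w / 4 ^ 0) (4 / 3 * C1 * m ^ 2 * (1 - (1 / 4) ^ 0))
      (1 / (((0 : ℕ) : ℝ) + 2)) G0 t0 x0 κ0
    rw [e1, e2, e3, e4]
    exact S0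
  have hPs : ∀ n a, P n a → ∃ b, P (n + 1) b ∧ R n a b := by
    intro n a ha
    obtain ⟨G', s', x', κ', S', hx'⟩ := hstep (by positivity) (by positivity) ha
      (1 / (((n + 1 : ℕ) : ℝ) + 2)) (by positivity)
    have e1 : m / 2 ^ n / 2 = m / 2 ^ (n + 1) := by rw [pow_succ, div_div]
    have e2 : w / 4 ^ n / 4 = w / 4 ^ (n + 1) := by rw [pow_succ, div_div]
    have e0 : ((1 : ℝ) / 4) ^ n = 1 / (2 ^ n) ^ 2 := by
      rw [one_div_pow, ← pow_mul, mul_comm, pow_mul]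
      norm_num
    have e3 : 4 / 3 * C1 * m ^ 2 * (1 - (1 / 4) ^ n) + C1 * (m / 2 ^ n) ^ 2 =
        4 / 3 * C1 * m ^ 2 * (1 - (1 / 4) ^ (n + 1)) := by
      rw [pow_succ (1 / 4 : ℝ) n, e0, div_pow]
      ring
    rw [e1, e2, e3] at S'
    refine ⟨(G', s', x', κ'), S', ?_⟩
    show dist a.2.2.1 x' ≤ 1 / 2 / 2 / 2 ^ n
    rw [dist_comm, dist_eq_norm]
    refine hx'.trans ?_
    have e4 : (4 : ℝ) ^ n = 2 ^ n * 2 ^ n := by
      rw [← mul_pow]
      norm_num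
    have e5 : C2 * (w / 4 ^ n / (m / 2 ^ n)) = C2 / (C2 + 1) * (1 / 2 / 2 / 2 ^ n) := by
      rw [e4, hw]
      field_simp
      norm_num
    rw [e5]
    exact mul_le_of_le_one_left (by positivity) ((div_le_one (by positivity)).2 (by linarith))
  obtain ⟨f, hf0, hf⟩ := tree_rec P R hP0 hPs
  have hcau : CauchySeq fun n => (f n).2.2.1 :=
    cauchySeq_of_le_geometric_two fun n => (hf n).2
  obtain ⟨x, hx⟩ := cauchySeq_tendsto_of_complete hcau
  have hd := dist_le_of_le_geometric_two_of_tendsto₀ (fun n => (hf n).2) hx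
  have hx1 : x ≠ 0 := by
    rintro rfl
    rw [hf0, dist_zero_right] at hd
    have : ‖x0‖ ≤ 1 / 2 := hd
    linarith
  refine not_tr_of_seq (v := v) (Y := fun n => treeAvg y (f n).1 (f n).2.1) hx hx1
    (B := √(m ^ 2 + C ^ 2 * (4 / 3 * C1 * m ^ 2))) (fun n => ?_) (fun n => ?_) fun k => ?_
  · refine Real.le_sqrt_of_sq_le ((tree_avg_norm h hA (hf n).1).trans (add_le_add ?_ ?_))
    · exact pow_le_pow_left₀ (by positivity)
        (div_le_self hm.le (one_le_pow₀ (by norm_num))) 2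
    · refine mul_le_mul_of_nonneg_left (mul_le_of_le_one_right (by positivity) ?_) (sq_nonneg _)
      have : (0 : ℝ) ≤ (1 / 4) ^ n := by positivity
      linarith
  · refine le_trans ?_ (tree_avg_re h (hf n).1)
    have : 1 / ((n : ℝ) + 2) ≤ 1 / 2 :=
      one_div_le_one_div_of_le (by norm_num) (by linarith [Nat.cast_nonneg (α := ℝ) n])
    linarith
  · obtain ⟨D, hD, hU⟩ := tree_pow h hT k
    refine squeeze_zero_norm (fun n => tree_avg_pow (hf n).1 hD hL hU) ?_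
    have t1 : Tendsto (fun n : ℕ => 1 / ((n : ℝ) + 2)) atTop (𝓝 0) :=
      tendsto_const_nhds.div_atTop
        (tendsto_atTop_add_const_right _ _ tendsto_natCast_atTop_atTop)
    have t2 : Tendsto (fun n : ℕ => w / (4 : ℝ) ^ n) atTop (𝓝 0) :=
      tendsto_const_nhds.div_atTop (tendsto_pow_atTop_atTop_of_one_lt (by norm_num))
    have t3 := ((t1.mul hx.norm).add t2).const_mul D
    rw [zero_mul, zero_add, mul_zero] at t3
    exact t3

theorem Fam.not_tr (h : Fam T v A y q β C s0) (h0 : mm A ≠ 0) : ¬Tr T := by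
  have hs : 0 < √s0 := Real.sqrt_pos.2 h.s0pos
  obtain ⟨c, hc⟩ := exists_small_ball h0 (r := √s0 / 2) (by positivity)
  refine tree_not_tr (h.subset inter_subset_left) (fun z hz z' hz' => ?_)
    (L := ‖T‖ + ‖c‖ + √s0) (by linarith [norm_nonneg c]) (fun z hz => ?_) hc
  · have h1 : dist z z' ≤ √s0 := by
      have a1 := mem_closedBall.1 hz.2
      have a2 := mem_closedBall.1 hz'.2
      have a3 := dist_triangle_right z z' c
      linarith
    rw [dist_eq_norm] at h1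
    have := pow_le_pow_left₀ (norm_nonneg _) h1 2
    rwa [Real.sq_sqrt h.s0pos.le] at this
  · have a1 := mem_closedBall.1 hz.2
    rw [dist_eq_norm] at a1
    have a2 : ‖z‖ ≤ ‖c‖ + ‖z - c‖ := by
      have : z = c + (z - c) := by ring
      exact (congrArg norm this).le.trans (norm_add_le _ _)
    linarith [norm_nonneg T]

end Pool.Agent.Lib.MP_45cb44_an.Hy
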