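import Pool.Agent.Lib.MP_45cb44_an.HyAna1
import Pool.Agent.Lib.MP_45cb44_an.HyCalc
import Pool.Agent.Lib.MP_45cb44_an.HyTree
import Pool.Agent.Lib.MP_45cb44_an.HyBS

-- part Pool.Agent.Lib.MP_45cb44_an.HyAna2
section

/-! The growth exponent of each function is its plane density. -/

namespace Pool.Agent.Lib.MP_45cb44_an.Hy

open MeasureTheory Metric Set Filter Topology InnerProductSpace
open scoped InnerProductSpace ComplexConjugate ENNReal

variable {J : ℕ → Jet} {c : ℕ → ℝ} {K : ℝ → ℝ} {R A : ℝ} {δ : ℕ → ℂ → ℝ}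

/-- The first kernel as a function of `x = |z - u| ^ 2 + t`. -/
noncomputable def ana2_kf (σ x : ℝ) : ℝ := (x + σ)⁻¹ + σ / (x + σ) ^ 2

/-- Its derivative in the height. -/
noncomputable def ana2_ks (σ x : ℝ) : ℝ := -((x + σ) ^ 2)⁻¹ - 2 * σ / (x + σ) ^ 3

/-- Minus its Laplacian. -/
noncomputable def ana2_chi (σ x : ℝ) : ℝ := 6 * σ ^ 2 / (x + σ) ^ 4

/-- Difference of the kernels at two consecutive scales. -/
noncomputable def ana2_dk (σ x : ℝ) : ℝ := ana2_kf (σ / 2) x - ana2_kf σ x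

/-- Difference of the derivatives of the kernels at two consecutive scales. -/
noncomputable def ana2_ds (σ x : ℝ) : ℝ := ana2_ks (σ / 2) x - ana2_ks σ x

/-- Mean of `w` at scale `σ` around `u`. -/
noncomputable def ana2_M (w : Jet) (u : ℂ) (σ ε : ℝ) : ℝ :=
  ∫ p, w.f p.1 p.2 * ana2_chi σ (‖p.1 - u‖ ^ 2 + p.2) ∂strip ε

lemma ana2_dk_bd {σ x : ℝ} (hσ : 0 < σ) (hx : 0 ≤ x) :
    |ana2_dk σ x| ≤ 2 * (σ / (x + σ) ^ 2) := by
  have h1 : 0 < x + σ := by positivity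
  have h2 : 0 < x + σ / 2 := by positivity
  have e : ana2_dk σ x = σ * (σ * (3 * x + 2 * σ)) / (4 * (x + σ / 2) ^ 2 * (x + σ) ^ 2) := by
    unfold ana2_dk ana2_kf
    field_simp
    ring
  rw [e, abs_of_nonneg (by positivity), div_le_iff₀ (by positivity)]
  have e2 : 2 * (σ / (x + σ) ^ 2) * (4 * (x + σ / 2) ^ 2 * (x + σ) ^ 2) =
      σ * (8 * (x + σ / 2) ^ 2) := by
    field_simp
    ring
  rw [e2]
  refine mul_le_mul_of_nonneg_left ?_ hσ.le
  nlinarith [mul_nonneg hx hσ.le, sq_nonneg x]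

lemma ana2_ds_bd {σ x : ℝ} (hσ : 0 < σ) (hx : 0 ≤ x) :
    |ana2_ds σ x| ≤ 14 * σ * ((x + σ) ^ 3)⁻¹ := by
  have h1 : 0 < x + σ := by positivity
  have h2 : 0 < x + σ / 2 := by positivity
  set a := (x + σ)⁻¹ with ha
  set b := (x + σ / 2)⁻¹ with hb
  have ha0 : 0 < a := by positivity
  have hb0 : 0 < b := by positivity
  have hab : a ≤ b := inv_anti₀ h2 (by linarith)
  have hba : b ≤ 2 * a := by
    rw [ha, hb, ← div_eq_mul_inv, le_div_iff₀ h1, inv_mul_le_iff₀ h2]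
    linarith
  have hd : b - a = σ / 2 * (a * b) := by
    rw [ha, hb]
    field_simp
    ring
  have e : ana2_ds σ x = σ * (2 * a ^ 3 - b ^ 3 - (a * b) * (a + b) / 2) := by
    have : ana2_ds σ x = -(b - a) * (a + b) - σ * b ^ 3 + 2 * σ * a ^ 3 := by
      unfold ana2_ds ana2_ks
      simp only [div_eq_mul_inv, ← inv_pow, ← ha]
      rw [show x + σ * 2⁻¹ = x + σ / 2 by ring, ← hb]
      ring
    rw [this, hd]
    ring
  rw [e, ← inv_pow, ← ha, abs_mul, abs_of_pos hσ, mul_comm 14 σ, mul_assoc σ 14]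
  refine mul_le_mul_of_nonneg_left ?_ hσ.le
  have k1 : b ^ 3 ≤ 8 * a ^ 3 := by
    calc b ^ 3 ≤ (2 * a) ^ 3 := by gcongr
      _ = 8 * a ^ 3 := by ring
  have k2 : (a * b) * (a + b) ≤ 6 * a ^ 3 := by
    calc (a * b) * (a + b) ≤ (a * (2 * a)) * (a + 2 * a) := by gcongr
      _ = 6 * a ^ 3 := by ring
  have k3 : 0 ≤ (a * b) * (a + b) := by positivity
  have k4 : 0 ≤ a ^ 3 := by positivity
  have k5 : 0 ≤ b ^ 3 := by positivity
  rw [abs_le]
  constructor <;> linarith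

lemma ana2_kf_lip {σ x t : ℝ} (hσ : 0 < σ) (hx : 0 ≤ x) (ht : 0 ≤ t) :
    |ana2_kf σ (x + t) - ana2_kf σ (x + 0)| ≤ 3 / σ ^ 2 * t := by
  rw [add_zero]
  have h1 : 0 < x + σ := by positivity
  have h2 : 0 < x + t + σ := by positivity
  set a := (x + σ)⁻¹ with ha
  set b := (x + t + σ)⁻¹ with hb
  have ha0 : 0 < a := by positivity
  have hb0 : 0 < b := by positivity
  have ha1 : a ≤ σ⁻¹ := inv_anti₀ hσ (by linarith)
  have hb1 : b ≤ σ⁻¹ := inv_anti₀ hσ (by linarith)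
  have hd : a - b = t * (a * b) := by
    rw [ha, hb]
    field_simp
    ring
  have e : ana2_kf σ (x + t) - ana2_kf σ x = -(t * (a * b * (1 + σ * (a + b)))) := by
    have : ana2_kf σ (x + t) - ana2_kf σ x = -((a - b) * (1 + σ * (a + b))) := by
      unfold ana2_kf
      simp only [div_eq_mul_inv, ← inv_pow, ← ha, ← hb]
      ring
    rw [this, hd]
    ring
  rw [e, abs_neg, abs_of_nonneg (by positivity), mul_comm _ t]
  refine mul_le_mul_of_nonneg_left ?_ ht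
  calc a * b * (1 + σ * (a + b)) ≤ σ⁻¹ * σ⁻¹ * (1 + σ * (σ⁻¹ + σ⁻¹)) := by gcongr
    _ = 3 / σ ^ 2 := by field_simp; ring

lemma ana2_int_pow (u : ℂ) {t σ : ℝ} (ht : 0 ≤ t) (hσ : 0 < σ) (m : ℕ) :
    Integrable (fun z : ℂ => ((‖z - u‖ ^ 2 + t + σ) ^ (m + 2))⁻¹) mm ∧
      ∫ z : ℂ, ((‖z - u‖ ^ 2 + t + σ) ^ (m + 2))⁻¹ ∂mm =
        (((m : ℝ) + 1) * (t + σ) ^ (m + 1))⁻¹ := by
  simpa only [add_assoc] using int_pow u (a := t + σ) (by positivity) m

lemma ana2_int_dk (u : ℂ) {σ : ℝ} (hσ : 0 < σ) :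
    Integrable (fun z : ℂ => ana2_dk σ (‖z - u‖ ^ 2 + 0)) mm ∧
      ∫ z : ℂ, ana2_dk σ (‖z - u‖ ^ 2 + 0) ∂mm = Real.log 2 := by
  have hσ2 : 0 < σ / 2 := by positivity
  obtain ⟨i1, e1⟩ := int_log u hσ2 hσ
  obtain ⟨i2, e2⟩ := int_pow u hσ2 0
  obtain ⟨i3, e3⟩ := int_pow u hσ 0
  have e : (fun z : ℂ => ana2_dk σ (‖z - u‖ ^ 2 + 0)) = fun z : ℂ =>
      ((‖z - u‖ ^ 2 + σ / 2)⁻¹ - (‖z - u‖ ^ 2 + σ)⁻¹) +
        (σ / 2 * ((‖z - u‖ ^ 2 + σ / 2) ^ (0 + 2))⁻¹ - σ * ((‖z - u‖ ^ 2 + σ) ^ (0 + 2))⁻¹) := by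
    funext z
    unfold ana2_dk ana2_kf
    simp only [add_zero, zero_add, div_eq_mul_inv]
    ring
  have i4 : Integrable (fun z : ℂ => σ / 2 * ((‖z - u‖ ^ 2 + σ / 2) ^ (0 + 2))⁻¹ -
      σ * ((‖z - u‖ ^ 2 + σ) ^ (0 + 2))⁻¹) mm := (i2.const_mul (σ / 2)).sub (i3.const_mul σ)
  rw [e]
  refine ⟨i1.add i4, ?_⟩
  rw [integral_add i1 i4, integral_sub (i2.const_mul _) (i3.const_mul _), integral_const_mul,
    integral_const_mul, e1, e2, e3]
  have : σ / (σ / 2) = 2 := by field_simp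
  rw [this]
  push_cast
  field_simp
  ring

lemma ana2_green {w : Jet} {Kw : ℝ → ℝ} (hw : w.Dat Kw) (u : ℂ) {σ ε : ℝ} (hσ : 0 < σ)
    (hε : 0 < ε) (h1 : ε ≤ 1) :
    (∀ t, 0 < t → t ≤ 2 → Integrable (fun z => w.fs z t * ana2_kf σ (‖z - u‖ ^ 2 + t)) mm ∧
      Integrable (fun z => ana2_ks σ (‖z - u‖ ^ 2 + t) * w.f z t) mm) ∧
    Integrable (fun p : ℂ × ℝ => ana2_kf σ (‖p.1 - u‖ ^ 2 + p.2) * w.lap p.1 p.2) (strip ε) ∧
    ana2_M w u σ ε =
      ∫ z, 1 * (w.fs z 1 * ana2_kf σ (‖z - u‖ ^ 2 + 1) - ana2_ks σ (‖z - u‖ ^ 2 + 1) * w.f z 1) ∂mm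
      - ∫ z, ε * (w.fs z ε * ana2_kf σ (‖z - u‖ ^ 2 + ε) - ana2_ks σ (‖z - u‖ ^ 2 + ε) * w.f z ε) ∂mm
      - ∫ p, ana2_kf σ (‖p.1 - u‖ ^ 2 + p.2) * w.lap p.1 p.2 ∂strip ε := by
  obtain ⟨k, Kk, hk, e⟩ := exists_kerA u hσ.le
  have ef : ∀ z t, 0 < t → k.f z t = ana2_kf σ (‖z - u‖ ^ 2 + t) := fun z t ht => (e z t ht).1
  have es : ∀ z t, 0 < t → k.fs z t = ana2_ks σ (‖z - u‖ ^ 2 + t) := fun z t ht => (e z t ht).2.1
  have el : ∀ z t, 0 < t → k.lap z t = -ana2_chi σ (‖z - u‖ ^ 2 + t) :=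
    fun z t ht => (e z t ht).2.2
  have a1 : (fun p : ℂ × ℝ => k.f p.1 p.2 * w.lap p.1 p.2) =ᵐ[strip ε]
      fun p => ana2_kf σ (‖p.1 - u‖ ^ 2 + p.2) * w.lap p.1 p.2 := by
    filter_upwards [ae_strip ε] with p hp
    rw [ef _ _ (hε.trans hp.1)]
  have a2 : (fun p : ℂ × ℝ => w.f p.1 p.2 * k.lap p.1 p.2) =ᵐ[strip ε]
      fun p => -(w.f p.1 p.2 * ana2_chi σ (‖p.1 - u‖ ^ 2 + p.2)) := by
    filter_upwards [ae_strip ε] with p hp
    rw [el _ _ (hε.trans hp.1), mul_neg]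
  refine ⟨fun t ht h2 => ⟨?_, ?_⟩, (hw.integrable_f_lap hk hε).congr a1, ?_⟩
  · simpa only [ef _ t ht] using hw.integrable_fs_f hk ht h2
  · simpa only [es _ t ht] using hk.integrable_fs_f hw ht h2
  · have g := green hw hk hε h1
    rw [integral_congr_ae a1, integral_congr_ae a2, integral_neg] at g
    unfold WW at g
    simp only [ef _ 1 one_pos, es _ 1 one_pos, ef _ ε hε, es _ ε hε] at g
    unfold ana2_M
    linarith

/-- The Green identity for the difference of two kernels. -/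
lemma ana2_green2 {w : Jet} {Kw : ℝ → ℝ} (hw : w.Dat Kw) (u : ℂ) {σ ε : ℝ} (hσ : 0 < σ)
    (hε : 0 < ε) (h1 : ε ≤ 1) :
    ana2_M w u (σ / 2) ε - ana2_M w u σ ε =
      ∫ z, ana2_dk σ (‖z - u‖ ^ 2 + ε) * (-ε * w.fs z ε) ∂mm +
      ∫ z, ana2_ds σ (‖z - u‖ ^ 2 + ε) * (ε * w.f z ε) ∂mm -
      ∫ z, ana2_dk σ (‖z - u‖ ^ 2 + 1) * (-1 * w.fs z 1) ∂mm -
      ∫ z, ana2_ds σ (‖z - u‖ ^ 2 + 1) * (1 * w.f z 1) ∂mm -
      ∫ p, ana2_dk σ (‖p.1 - u‖ ^ 2 + p.2) * w.lap p.1 p.2 ∂strip ε := by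
  obtain ⟨i1, j1, e1⟩ := ana2_green hw u (σ := σ / 2) (by positivity) hε h1
  obtain ⟨i2, j2, e2⟩ := ana2_green hw u hσ hε h1
  have key : ∀ t, 0 < t → t ≤ 2 →
      ∫ z, t * (w.fs z t * ana2_kf (σ / 2) (‖z - u‖ ^ 2 + t) -
        ana2_ks (σ / 2) (‖z - u‖ ^ 2 + t) * w.f z t) ∂mm -
      ∫ z, t * (w.fs z t * ana2_kf σ (‖z - u‖ ^ 2 + t) -
        ana2_ks σ (‖z - u‖ ^ 2 + t) * w.f z t) ∂mm =
      -∫ z, ana2_dk σ (‖z - u‖ ^ 2 + t) * (-t * w.fs z t) ∂mm -
        ∫ z, ana2_ds σ (‖z - u‖ ^ 2 + t) * (t * w.f z t) ∂mm := by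
    intro t ht h2
    obtain ⟨a1, b1⟩ := i1 t ht h2
    obtain ⟨a2, b2⟩ := i2 t ht h2
    have c1 : (fun z => ana2_dk σ (‖z - u‖ ^ 2 + t) * (-t * w.fs z t)) = fun z =>
        -t * (w.fs z t * ana2_kf (σ / 2) (‖z - u‖ ^ 2 + t) -
          w.fs z t * ana2_kf σ (‖z - u‖ ^ 2 + t)) := by
      funext z
      unfold ana2_dk
      ring
    have c2 : (fun z => ana2_ds σ (‖z - u‖ ^ 2 + t) * (t * w.f z t)) = fun z =>
        t * (ana2_ks (σ / 2) (‖z - u‖ ^ 2 + t) * w.f z t -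
          ana2_ks σ (‖z - u‖ ^ 2 + t) * w.f z t) := by
      funext z
      unfold ana2_ds
      ring
    rw [c1, c2]
    simp only [integral_const_mul]
    rw [integral_sub a1 b1, integral_sub a2 b2, integral_sub a1 a2, integral_sub b1 b2]
    ring
  have c3 : (fun p : ℂ × ℝ => ana2_dk σ (‖p.1 - u‖ ^ 2 + p.2) * w.lap p.1 p.2) = fun p =>
      ana2_kf (σ / 2) (‖p.1 - u‖ ^ 2 + p.2) * w.lap p.1 p.2 -
        ana2_kf σ (‖p.1 - u‖ ^ 2 + p.2) * w.lap p.1 p.2 := by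
    funext p
    unfold ana2_dk
    ring
  rw [c3, integral_sub j1 j2, e1, e2]
  have k1 := key 1 one_pos one_le_two
  have k2 := key ε hε (h1.trans one_le_two)
  linarith

lemma ana2_abs_int_le {X : Type*} [MeasurableSpace X] {μ : Measure X} {f g : X → ℝ}
    (hg : Integrable g μ) (hb : ∀ᵐ x ∂μ, |f x| ≤ g x) : |∫ x, f x ∂μ| ≤ ∫ x, g x ∂μ := by
  simpa only [Real.norm_eq_abs] using norm_integral_le_of_norm_le (f := f) hg hb

lemma ana2_F_le (u : ℂ) {σ t : ℝ} (hσ : 0 < σ) (ht : 0 ≤ t) {g : ℂ → ℝ} (hg : ∀ z, |g z| ≤ 1) :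
    |∫ z, ana2_dk σ (‖z - u‖ ^ 2 + t) * g z ∂mm| ≤ 2 * σ / (t + σ) := by
  obtain ⟨i, e⟩ := ana2_int_pow u ht hσ 0
  refine (ana2_abs_int_le (i.const_mul (2 * σ)) (.of_forall fun z => ?_)).trans (le_of_eq ?_)
  · rw [abs_mul]
    calc _ ≤ 2 * (σ / (‖z - u‖ ^ 2 + t + σ) ^ 2) * 1 :=
          mul_le_mul (ana2_dk_bd hσ (by positivity)) (hg z) (abs_nonneg _) (by positivity)
      _ = _ := by rw [zero_add]; ring
  · rw [integral_const_mul, e]
    simp [div_eq_mul_inv]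

lemma ana2_B_le (u : ℂ) {σ t η : ℝ} (hσ : 0 < σ) (ht : 0 ≤ t) {g : ℂ → ℝ} (hg : ∀ z, |g z| ≤ η) :
    |∫ z, ana2_ds σ (‖z - u‖ ^ 2 + t) * g z ∂mm| ≤ 7 * σ * η / (t + σ) ^ 2 := by
  obtain ⟨i, e⟩ := ana2_int_pow u ht hσ 1
  refine (ana2_abs_int_le (i.const_mul (14 * σ * η)) (.of_forall fun z => ?_)).trans (le_of_eq ?_)
  · rw [abs_mul]
    calc _ ≤ 14 * σ * ((‖z - u‖ ^ 2 + t + σ) ^ 3)⁻¹ * η :=
          mul_le_mul (ana2_ds_bd hσ (by positivity)) (hg z) (abs_nonneg _) (by positivity)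
      _ = _ := by ring
  · rw [integral_const_mul, e]
    have : 0 < t + σ := by positivity
    push_cast
    field_simp
    ring

lemma ana2_meas_dk (u : ℂ) (σ t : ℝ) : Measurable fun z : ℂ => ana2_dk σ (‖z - u‖ ^ 2 + t) := by
  unfold ana2_dk ana2_kf
  fun_prop

lemma ana2_plane (hδ : Plane J δ) (j : ℕ) (u : ℂ) {σ : ℝ} (hσ : 0 < σ) :
    |∫ z, ana2_dk σ (‖z - u‖ ^ 2 + 0) * δ j z ∂mm - δ j u * Real.log 2| ≤
      2 * ∫ z, σ / (‖z - u‖ ^ 2 + σ) ^ 2 * |δ j z - δ j u| ∂mm := by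
  obtain ⟨i, e⟩ := ana2_int_dk u hσ
  have hb : ∀ z, ‖δ j z‖ ≤ 1 := fun z => by
    rw [Real.norm_eq_abs, abs_of_nonneg (hδ.nonneg j z)]
    exact hδ.le_one j z
  have i1 : Integrable (fun z => ana2_dk σ (‖z - u‖ ^ 2 + 0) * δ j z) mm :=
    i.mul_bdd (hδ.meas j).aestronglyMeasurable (.of_forall hb)
  have i2 : Integrable (fun z => σ / (‖z - u‖ ^ 2 + σ) ^ 2 * |δ j z - δ j u|) mm := by
    have i3 : Integrable (fun z : ℂ => σ / (‖z - u‖ ^ 2 + σ) ^ 2) mm := by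
      simpa only [div_eq_mul_inv, zero_add] using (int_pow u hσ 0).1.const_mul σ
    refine i3.mul_bdd (c := 2) ?_ (.of_forall fun z => ?_)
    · exact ((hδ.meas j).sub_const _).abs.aestronglyMeasurable
    · rw [Real.norm_eq_abs, abs_abs, abs_le]
      constructor <;> linarith [hδ.nonneg j z, hδ.le_one j z, hδ.nonneg j u, hδ.le_one j u]
  rw [← e, mul_comm (δ j u), ← integral_mul_const, ← integral_sub i1 (i.mul_const _),
    ← integral_const_mul]
  refine ana2_abs_int_le (i2.const_mul 2) (.of_forall fun z => ?_)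
  rw [← mul_sub, abs_mul, ← mul_assoc]
  refine mul_le_mul_of_nonneg_right ?_ (abs_nonneg _)
  rw [add_zero]
  exact ana2_dk_bd (x := ‖z - u‖ ^ 2) hσ (by positivity)

lemma ana2_bulk (h : Sys J c K R A) (j : ℕ) (u : ℂ) {σ ε : ℝ} (hσ : 0 < σ) (hε : 0 < ε)
    (h1 : ε ≤ 1) :
    |∫ p, ana2_dk σ (‖p.1 - u‖ ^ 2 + p.2) * (J j).lap p.1 p.2 ∂strip ε| ≤
      2 * (bulkT J j u σ).toReal + 2 * (bulkT J (j + 1) u σ).toReal := by
  have hi : ∀ n, Integrable (fun p : ℂ × ℝ =>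
      ana2_dk σ (‖p.1 - u‖ ^ 2 + p.2) * (tail J n).lap p.1 p.2) (strip ε) := by
    intro n
    have i1 := (ana2_green (h.tail_dat n) u (σ := σ / 2) (by positivity) hε h1).2.1
    have i2 := (ana2_green (h.tail_dat n) u hσ hε h1).2.1
    refine (i1.sub i2).congr (.of_forall fun p => ?_)
    simp only [ana2_dk, Pi.sub_apply]
    ring
  have hb : ∀ n, |∫ p, ana2_dk σ (‖p.1 - u‖ ^ 2 + p.2) * (tail J n).lap p.1 p.2 ∂strip ε| ≤
      2 * (bulkT J n u σ).toReal := fun n =>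
    h.abs_bulk_le n u hσ hε.le zero_le_two (g := fun p => ana2_dk σ (‖p.1 - u‖ ^ 2 + p.2))
      fun p hp => ana2_dk_bd hσ (by have := hε.trans hp.1; positivity)
  have e : ∫ p, ana2_dk σ (‖p.1 - u‖ ^ 2 + p.2) * (J j).lap p.1 p.2 ∂strip ε =
      ∫ p, ana2_dk σ (‖p.1 - u‖ ^ 2 + p.2) * (tail J j).lap p.1 p.2 ∂strip ε -
      ∫ p, ana2_dk σ (‖p.1 - u‖ ^ 2 + p.2) * (tail J (j + 1)).lap p.1 p.2 ∂strip ε := by
    rw [← integral_sub (hi j) (hi (j + 1))]
    refine integral_congr_ae ?_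
    filter_upwards [ae_strip ε] with p hp
    rw [h.lap_eq j p.1 (hε.trans hp.1) (hp.2.le.trans one_le_two), mul_sub]
  rw [e]
  exact (abs_sub _ _).trans (add_le_add (hb j) (hb (j + 1)))

lemma ana2_le_c (h : Sys J c K R A) (j : ℕ) (z : ℂ) {t : ℝ} (ht : 0 < t) :
    (J j).f z t ≤ c j / t := by
  have h0 : 0 ≤ c j / t := div_nonneg (h.c0 j) ht.le
  have := Real.log_le_sub_one_of_pos (x := 1 + c j / t) (by positivity)
  linarith [h.le_log j z t ht]

/-- The error of one dyadic step. -/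
noncomputable def ana2_err (J : ℕ → Jet) (c : ℕ → ℝ) (δ : ℕ → ℂ → ℝ) (j : ℕ) (u : ℂ) (σ : ℝ) : ℝ :=
  (2 + 7 * c j) * σ + (2 * (bulkT J j u σ).toReal + 2 * (bulkT J (j + 1) u σ).toReal) +
    2 * ∫ z, σ / (‖z - u‖ ^ 2 + σ) ^ 2 * |δ j z - δ j u| ∂mm

lemma ana2_step (h : Sys J c K R A) (hδ : Plane J δ) (j : ℕ) (u : ℂ) {σ η : ℝ} (hσ : 0 < σ)
    (hη : 0 < η) : ∀ᶠ l in hyperfilter ℕ,
      |ana2_M (J j) u (σ / 2) (ep l) - ana2_M (J j) u σ (ep l) - δ j u * Real.log 2| ≤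
        2 * η + ana2_err J c δ j u σ := by
  have hlim := Plane.lim' h hδ j (g := fun z t => ana2_dk σ (‖z - u‖ ^ 2 + t))
    (C := 2 / σ) (L := 15 / σ ^ 2) (ana2_meas_dk u σ) (fun z => ?_) (fun z t ht _ => ?_)
  rotate_left
  · refine (ana2_dk_bd hσ (by positivity)).trans ?_
    calc 2 * (σ / (‖z - u‖ ^ 2 + 0 + σ) ^ 2) ≤ 2 * (σ / σ ^ 2) := by
          gcongr
          linarith [sq_nonneg ‖z - u‖]
      _ = 2 / σ := by field_simp
  · have k1 := ana2_kf_lip (σ := σ / 2) (x := ‖z - u‖ ^ 2) (by positivity) (by positivity) ht.le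
    have k2 := ana2_kf_lip (x := ‖z - u‖ ^ 2) hσ (by positivity) ht.le
    have e : 15 / σ ^ 2 * t = 3 / (σ / 2) ^ 2 * t + 3 / σ ^ 2 * t := by
      field_simp
      ring
    rw [e]
    refine le_trans (le_of_eq ?_) ((abs_sub _ _).trans (add_le_add k1 k2))
    unfold ana2_dk
    ring_nf
  have hs := tendsto_ep.eventually (h.small j (η := η * σ / 7) (by positivity))
  filter_upwards [hs, Metric.tendsto_nhds.1 hlim η hη] with l hl hd
  rw [Real.dist_eq] at hd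
  have hε := ep_pos l
  have h1 := (ep_lt_one l).le
  have b1 := ana2_B_le u hσ hε.le (g := fun z => ep l * (J j).f z (ep l)) (η := η * σ / 7)
    fun z => by
      rw [abs_of_nonneg (mul_nonneg hε.le (h.nonneg j z _ hε))]
      exact hl z
  have b1' : 7 * σ * (η * σ / 7) / (ep l + σ) ^ 2 ≤ η := by
    rw [div_le_iff₀ (by positivity)]
    nlinarith [mul_pos hη (mul_pos hε hσ), mul_pos hη (mul_pos hε hε)]
  have b2 := ana2_F_le u hσ zero_le_one (g := fun z => -1 * (J j).fs z 1) fun z => by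
    rw [abs_of_nonneg (h.flux0 j z 1 one_pos)]
    exact h.flux1 j z 1 one_pos
  have b2' : 2 * σ / (1 + σ) ≤ 2 * σ := div_le_self (by positivity) (by linarith)
  have b3 := ana2_B_le u hσ zero_le_one (g := fun z => 1 * (J j).f z 1) (η := c j) fun z => by
    rw [one_mul, abs_of_nonneg (h.nonneg j z _ one_pos)]
    simpa using ana2_le_c h j z one_pos
  have b3' : 7 * σ * c j / (1 + σ) ^ 2 ≤ 7 * σ * c j :=
    div_le_self (by have := h.c0 j; positivity) (by nlinarith)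
  have b4 := ana2_bulk h j u hσ hε h1
  have b5 := ana2_plane hδ j u hσ
  rw [ana2_green2 (h.dat j) u hσ hε h1]
  unfold ana2_err
  rw [abs_le] at b1 b2 b3 b4 b5 ⊢
  rw [abs_lt] at hd
  constructor <;> linarith [b1.1, b1.2, b2.1, b2.2, b3.1, b3.2, b4.1, b4.2, b5.1, b5.2, hd.1, hd.2]

lemma ana2_strip_int {a G : ℝ → ℝ} (u : ℂ) {σ ε B : ℝ} (hσ : 0 < σ) (hε : 0 < ε) (h1 : ε ≤ 1)
    (m : ℕ) (ha : ContinuousOn a (Ioi 0)) (hb : ∀ t ∈ Ioo ε 1, |a t| ≤ B)
    (hG : ∀ t, 0 < t → HasDerivAt G (a t * (((m : ℝ) + 1) * (t + σ) ^ (m + 1))⁻¹) t) :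
    Integrable (fun p : ℂ × ℝ => a p.2 * ((‖p.1 - u‖ ^ 2 + p.2 + σ) ^ (m + 2))⁻¹) (strip ε) ∧
      ∫ p, a p.2 * ((‖p.1 - u‖ ^ 2 + p.2 + σ) ^ (m + 2))⁻¹ ∂strip ε = G 1 - G ε := by
  have hi : Integrable (fun p : ℂ × ℝ => a p.2 * ((‖p.1 - u‖ ^ 2 + p.2 + σ) ^ (m + 2))⁻¹)
      (strip ε) := by
    have i0 : Integrable (fun p : ℂ × ℝ => B * ((‖p.1 - u‖ ^ 2 + σ) ^ (m + 2))⁻¹) (strip ε) :=
      ((int_pow u hσ m).1.const_mul B).comp_fst _
    refine i0.mono' (aesm_strip hε.le ?_) ?_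
    · refine (ha.comp continuousOn_snd fun p hp => hp.2).mul (ContinuousOn.inv₀ (by fun_prop) ?_)
      intro p hp
      have : (0 : ℝ) < p.2 := hp.2
      positivity
    · filter_upwards [ae_strip ε] with p hp
      have h0 : 0 < p.2 := hε.trans hp.1
      rw [Real.norm_eq_abs, abs_mul, abs_of_pos (a := (_ : ℝ)⁻¹) (by positivity)]
      refine mul_le_mul (hb _ hp) ?_ (by positivity) ((abs_nonneg _).trans (hb _ hp))
      gcongr
      linarith
  refine ⟨hi, ?_⟩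
  unfold strip at hi ⊢
  rw [integral_prod_symm _ hi]
  have e : ∫ t in Ioo ε 1, ∫ z, a t * ((‖z - u‖ ^ 2 + t + σ) ^ (m + 2))⁻¹ ∂mm =
      ∫ t in Ioo ε 1, a t * (((m : ℝ) + 1) * (t + σ) ^ (m + 1))⁻¹ := by
    refine setIntegral_congr_fun measurableSet_Ioo fun t ht => ?_
    rw [integral_const_mul, (ana2_int_pow u (hε.trans ht.1).le hσ m).2]
  rw [e, ← integral_Ioc_eq_integral_Ioo, ← intervalIntegral.integral_of_le h1]
  have hs : ∀ t ∈ uIcc ε 1, 0 < t := fun t ht => by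
    rw [uIcc_of_le h1] at ht
    exact hε.trans_le ht.1
  refine intervalIntegral.integral_eq_sub_of_hasDerivAt (fun t ht => hG t (hs t ht)) ?_
  refine ContinuousOn.intervalIntegrable ?_
  refine (ha.mono hs).mul (ContinuousOn.inv₀ (by fun_prop) fun t ht => ?_)
  have := hs t ht
  positivity

lemma ana2_mass (u : ℂ) {σ ε : ℝ} (hσ : 0 < σ) (hε : 0 < ε) (h1 : ε ≤ 1) :
    Integrable (fun p : ℂ × ℝ => ana2_chi σ (‖p.1 - u‖ ^ 2 + p.2)) (strip ε) ∧
      |∫ p, ana2_chi σ (‖p.1 - u‖ ^ 2 + p.2) ∂strip ε - 1| ≤ 2 * ε / σ + σ ^ 2 := by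
  obtain ⟨i, e⟩ := ana2_strip_int (a := fun _ => 6 * σ ^ 2) (G := fun t => -σ ^ 2 * ((t + σ) ^ 2)⁻¹)
    (B := 6 * σ ^ 2) u hσ hε h1 2 continuousOn_const
    (fun _ _ => le_of_eq (abs_of_nonneg (by positivity))) (fun t ht => by
      have h0 : 0 < t + σ := by positivity
      refine ((((hasDerivAt_id' t).add_const σ).fun_pow 2).fun_inv (by positivity)).const_mul
        (-σ ^ 2) |>.congr_deriv ?_
      push_cast
      field_simp
      ring)
  have e0 : (fun p : ℂ × ℝ => ana2_chi σ (‖p.1 - u‖ ^ 2 + p.2)) =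
      fun p : ℂ × ℝ => 6 * σ ^ 2 * ((‖p.1 - u‖ ^ 2 + p.2 + σ) ^ (2 + 2))⁻¹ := by
    funext p
    simp only [ana2_chi, div_eq_mul_inv]
  rw [e0]
  refine ⟨i, ?_⟩
  rw [e]
  have k1 : σ ^ 2 * ((1 + σ) ^ 2)⁻¹ ≤ σ ^ 2 :=
    mul_le_of_le_one_right (by positivity) (inv_le_one_of_one_le₀ (by nlinarith))
  have k2 : 0 ≤ σ ^ 2 * ((1 + σ) ^ 2)⁻¹ := by positivity
  have k3 : σ ^ 2 * ((ε + σ) ^ 2)⁻¹ ≤ 1 := by
    rw [← div_eq_mul_inv, div_le_one (by positivity)]
    nlinarith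
  have k4 : 1 - 2 * ε / σ ≤ σ ^ 2 * ((ε + σ) ^ 2)⁻¹ := by
    rw [← div_eq_mul_inv, le_div_iff₀ (by positivity)]
    have : (1 - 2 * ε / σ) * (ε + σ) ^ 2 = σ ^ 2 - (3 * ε ^ 2 + 2 * ε ^ 3 / σ) := by
      field_simp
      ring
    rw [this]
    have : 0 ≤ 3 * ε ^ 2 + 2 * ε ^ 3 / σ := by positivity
    linarith
  have k5 : 0 ≤ 2 * ε / σ := by positivity
  rw [abs_le]
  constructor <;> nlinarith [sq_nonneg σ]

lemma ana2_psi (u : ℂ) {σ ε : ℝ} (hσ : 0 < σ) (hε : 0 < ε) (h1 : ε ≤ 1) :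
    Integrable (fun p : ℂ × ℝ => σ * (12 + 6 * (Real.log (p.2 + σ) - Real.log p.2)) *
      ((‖p.1 - u‖ ^ 2 + p.2 + σ) ^ (1 + 2))⁻¹) (strip ε) ∧
      ∫ p, σ * (12 + 6 * (Real.log (p.2 + σ) - Real.log p.2)) *
        ((‖p.1 - u‖ ^ 2 + p.2 + σ) ^ (1 + 2))⁻¹ ∂strip ε ≤ 12 := by
  have hl0 : ∀ t, 0 < t → 0 ≤ Real.log (t + σ) - Real.log t := fun t ht =>
    sub_nonneg.2 (Real.log_le_log ht (by linarith))
  have hl1 : ∀ t, 0 < t → Real.log (t + σ) - Real.log t ≤ σ / t := fun t ht => by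
    rw [← Real.log_div (by positivity) ht.ne']
    refine (Real.log_le_sub_one_of_pos (by positivity)).trans (le_of_eq ?_)
    field_simp
    ring
  obtain ⟨i, e⟩ := ana2_strip_int (a := fun t => σ * (12 + 6 * (Real.log (t + σ) - Real.log t)))
    (G := fun t => t * (t + σ)⁻¹ * (9 + 3 * (Real.log (t + σ) - Real.log t)))
    (B := σ * (12 + 6 * (σ / ε))) u hσ hε h1 1
    (fun t ht => by
      have h0 : (0 : ℝ) < t := ht
      refine ContinuousAt.continuousWithinAt ?_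
      have h2 : t + σ ≠ 0 := by positivity
      fun_prop (disch := positivity))
    (fun t ht => by
      have h0 : 0 < t := hε.trans ht.1
      have h2 := hl0 t h0
      have h3 : σ / t ≤ σ / ε := div_le_div_of_nonneg_left hσ.le hε ht.1.le
      rw [abs_of_nonneg (by positivity)]
      gcongr
      exact (hl1 t h0).trans h3)
    (fun t ht => by
      have h0 : 0 < t + σ := by positivity
      have d1 := (hasDerivAt_id' t).add_const σ
      refine (((hasDerivAt_id' t).fun_mul (d1.fun_inv h0.ne')).fun_mul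
        ((((d1.log h0.ne').fun_sub (Real.hasDerivAt_log ht.ne')).const_mul 3).const_add 9))
          |>.congr_deriv ?_
      push_cast
      field_simp
      ring)
  refine ⟨i, ?_⟩
  rw [e]
  have k1 : 0 ≤ ε * (ε + σ)⁻¹ * (9 + 3 * (Real.log (ε + σ) - Real.log ε)) := by
    have := hl0 ε hε
    positivity
  have k2 : 1 * (1 + σ)⁻¹ * (9 + 3 * (Real.log (1 + σ) - Real.log 1)) ≤ 12 := by
    have := hl1 1 one_pos
    rw [one_mul, inv_mul_le_iff₀ (by positivity)]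
    linarith
  linarith

lemma ana2_near (h : Sys J c K R A) (j : ℕ) (u : ℂ) {σ ε : ℝ} (hσ : 0 < σ) (hε : 0 < ε)
    (h1 : ε ≤ 1) :
    |ana2_M (J j) u σ ε - (J j).f u σ| ≤ 12 + c j / σ * (2 * ε / σ + σ ^ 2) := by
  obtain ⟨i1, e1⟩ := ana2_mass u hσ hε h1
  obtain ⟨i2, e2⟩ := ana2_psi u hσ hε h1
  have i3 : Integrable (fun p : ℂ × ℝ => (J j).f p.1 p.2 * ana2_chi σ (‖p.1 - u‖ ^ 2 + p.2))
      (strip ε) := by
    obtain ⟨k, Kk, hk, e⟩ := exists_kerA u hσ.le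
    refine (hk.integrable_f_lap (h.dat j) hε).neg.congr ?_
    filter_upwards [ae_strip ε] with p hp
    simp only [Pi.neg_apply, (e _ _ (hε.trans hp.1)).2.2, ana2_chi]
    ring
  have b1 : |ana2_M (J j) u σ ε -
      (J j).f u σ * ∫ p, ana2_chi σ (‖p.1 - u‖ ^ 2 + p.2) ∂strip ε| ≤ 12 := by
    unfold ana2_M
    rw [← integral_const_mul, ← integral_sub i3 (i1.const_mul _)]
    refine (ana2_abs_int_le i2 ?_).trans e2
    filter_upwards [ae_strip ε] with p hp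
    have ht : 0 < p.2 := hε.trans hp.1
    have o1 := h.osc j p.1 p.2 u σ ht hσ
    have o2 := h.osc j u σ p.1 p.2 hσ ht
    rw [norm_sub_rev u, add_right_comm _ σ] at o2
    have hl0 : 0 ≤ Real.log (p.2 + σ) - Real.log p.2 :=
      sub_nonneg.2 (Real.log_le_log ht (by linarith))
    unfold ana2_chi
    have hq : 0 ≤ ‖p.1 - u‖ ^ 2 := by positivity
    set P := ‖p.1 - u‖ ^ 2 + p.2 + σ with hP
    have hP1 : σ ≤ P := by linarith
    have hP0 : 0 < P := by positivity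
    have l1 : Real.log (2 * P / σ) ≤ 2 * P / σ := by
      linarith [Real.log_le_sub_one_of_pos (x := 2 * P / σ) (by positivity)]
    have l2 : Real.log (2 * P / p.2) ≤ 2 * P / σ + (Real.log (p.2 + σ) - Real.log p.2) := by
      have l3 := Real.log_le_sub_one_of_pos (x := 2 * P / (p.2 + σ)) (by positivity)
      have l4 : 2 * P / (p.2 + σ) ≤ 2 * P / σ :=
        div_le_div_of_nonneg_left (by positivity) hσ (by linarith)
      rw [Real.log_div (by positivity) (by positivity)] at l3 ⊢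
      linarith
    set lam := Real.log (p.2 + σ) - Real.log p.2
    have l5 : |(J j).f p.1 p.2 - (J j).f u σ| ≤ 2 * P / σ + lam := by
      rw [abs_le]
      constructor <;> linarith
    rw [← sub_mul, abs_mul, abs_of_nonneg (a := 6 * σ ^ 2 / P ^ 4) (by positivity)]
    calc _ ≤ (2 * P / σ + lam) * (6 * σ ^ 2 / P ^ 4) := by gcongr
      _ = σ * (12 + 6 * (lam * (σ / P))) * (P ^ (1 + 2))⁻¹ := by
          field_simp
          ring
      _ ≤ σ * (12 + 6 * (lam * 1)) * (P ^ (1 + 2))⁻¹ := by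
          gcongr
          exact (div_le_one hP0).2 hP1
      _ = _ := by rw [mul_one]
  have b2 : |(J j).f u σ * ∫ p, ana2_chi σ (‖p.1 - u‖ ^ 2 + p.2) ∂strip ε - (J j).f u σ| ≤
      c j / σ * (2 * ε / σ + σ ^ 2) := by
    rw [← mul_sub_one, abs_mul, abs_of_nonneg (h.nonneg j u σ hσ)]
    exact mul_le_mul (ana2_le_c h j u hσ) e1 (abs_nonneg _) (div_nonneg (h.c0 j) hσ.le)
  exact (abs_sub_le _ _ _).trans (add_le_add b1 b2)

lemma ana2_dy_pos (a : ℕ) : 0 < dy a := by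
  unfold dy
  positivity

lemma ana2_dy_succ (a : ℕ) : dy (a + 1) = dy a / 2 := by
  unfold dy
  ring

lemma ana2_tendsto_dy : Tendsto dy atTop (𝓝[>] 0) :=
  tendsto_nhdsWithin_iff.2 ⟨tendsto_pow_atTop_nhds_zero_of_lt_one (by norm_num) (by norm_num),
    .of_forall ana2_dy_pos⟩

lemma ana2_near' (h : Sys J c K R A) (j : ℕ) (u : ℂ) {σ : ℝ} (hσ : 0 < σ) (hc : c j * σ ≤ 1) :
    ∀ᶠ l in hyperfilter ℕ, |ana2_M (J j) u σ (ep l) - (J j).f u σ| ≤ 15 := by
  have hc0 := h.c0 j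
  have hs : ∀ᶠ t in 𝓝[>] (0 : ℝ), t < σ ^ 2 / (c j + 1) :=
    nhdsWithin_le_nhds (gt_mem_nhds (by positivity))
  filter_upwards [tendsto_ep.eventually hs] with l hl
  have hε := ep_pos l
  refine (ana2_near h j u hσ hε (ep_lt_one l).le).trans ?_
  rw [lt_div_iff₀ (by positivity)] at hl
  have e : c j / σ * (2 * ep l / σ + σ ^ 2) = 2 * (ep l * c j / σ ^ 2) + c j * σ := by
    field_simp
  have : ep l * c j / σ ^ 2 ≤ 1 := by
    rw [div_le_one (by positivity)]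
    nlinarith
  linarith

theorem Sys.expo (h : Sys J c K R A) (hδ : Plane J δ) : ∃ C0 : ℝ, ∀ᵐ u ∂mm, ∀ j η, 0 < η →
    ∃ k0 : ℕ, ∀ a b : ℕ, k0 ≤ a → a ≤ b →
      |(J j).f u (dy b) - (J j).f u (dy a) - δ j u * Real.log 2 * ((b : ℝ) - a)| ≤
        η * ((b : ℝ) - a) + C0 := by
  refine ⟨30, ?_⟩
  filter_upwards [h.bulk, ae_all_iff.2 fun j => approx_id (hδ.int j)] with u hb ha j η hη
  have hb' : ∀ n, Tendsto (fun σ => (bulkT J n u σ).toReal) (𝓝[>] 0) (𝓝 0) := fun n =>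
    (ENNReal.tendsto_toReal ENNReal.zero_ne_top).comp (hb n)
  have hid : Tendsto (fun σ : ℝ => σ) (𝓝[>] 0) (𝓝 0) := nhdsWithin_le_nhds
  have he : Tendsto (ana2_err J c δ j u) (𝓝[>] 0) (𝓝 0) := by
    have := ((hid.const_mul (2 + 7 * c j)).add
      (((hb' j).const_mul 2).add ((hb' (j + 1)).const_mul 2))).add ((ha j).const_mul 2)
    simp only [mul_zero, add_zero] at this
    exact this
  have hc : Tendsto (fun σ : ℝ => c j * σ) (𝓝[>] 0) (𝓝 0) := by
    simpa only [mul_zero] using hid.const_mul (c j)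
  obtain ⟨k0, hk⟩ := eventually_atTop.1 (ana2_tendsto_dy.eventually
    ((he.eventually (gt_mem_nhds (half_pos hη))).and (hc.eventually (gt_mem_nhds one_pos))))
  refine ⟨k0, fun a b hka hab => ?_⟩
  have tel : ∀ᶠ l in hyperfilter ℕ, |ana2_M (J j) u (dy b) (ep l) - ana2_M (J j) u (dy a) (ep l) -
      δ j u * Real.log 2 * ((b : ℝ) - a)| ≤ η * ((b : ℝ) - a) := by
    induction b, hab using Nat.le_induction with
    | base => exact .of_forall fun l => by simp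
    | succ b hab ih =>
      filter_upwards [ih, ana2_step h hδ j u (ana2_dy_pos b) (η := η / 4) (by positivity)]
        with l h1 h2
      have h3 := (hk b (hka.trans hab)).1
      rw [ana2_dy_succ]
      push_cast
      rw [abs_le] at h1 h2 ⊢
      constructor <;> linarith [h1.1, h1.2, h2.1, h2.2]
  obtain ⟨l, h1, h2, h3⟩ := (tel.and ((ana2_near' h j u (ana2_dy_pos a) (hk a hka).2.le).and
    (ana2_near' h j u (ana2_dy_pos b) (hk b (hka.trans hab)).2.le))).exists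
  rw [abs_le] at h1 h2 h3 ⊢
  constructor <;> linarith [h1.1, h1.2, h2.1, h2.2, h3.1, h3.2]

end Pool.Agent.Lib.MP_45cb44_an.Hy
end

-- part Pool.Agent.Lib.MP_45cb44_an.HyAna3
section

/-! The tails grow slowly; selection of the good set. -/

namespace Pool.Agent.Lib.MP_45cb44_an.Hy

open MeasureTheory Metric Set Filter Topology InnerProductSpace
open scoped InnerProductSpace ComplexConjugate ENNReal

variable {J : ℕ → Jet} {c : ℕ → ℝ} {K : ℝ → ℝ} {R A : ℝ} {δ : ℕ → ℂ → ℝ}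

/-- Integration by parts in the height. -/
lemma ana3_parts {v vs : ℝ → ℝ} (hv : ∀ t, 0 < t → HasDerivAt v (vs t) t)
    (hc : ContinuousOn vs (Ioi 0)) (h0 : ∀ t, 0 < t → 0 ≤ v t) (h1 : ∀ t, 0 < t → vs t ≤ 0)
    {q σ ε a : ℝ} (hq : 0 ≤ q) (hε : 0 < ε) (h2 : ε ≤ σ / 2) (h3 : σ ≤ 1)
    (ha : a ≤ 0 ∨ q ≤ σ ∧ a ≤ (v (σ / 2) - v σ) / (27 * σ)) :
    ∫ t in ε..1, v t * -(6 * σ ^ 2 / (q + t + σ) ^ 4 - 24 * σ ^ 2 * t / (q + t + σ) ^ 5) ≤
      ε * v ε * (6 * σ ^ 2 / (q + ε + σ) ^ 4) - a := by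
  have hσ : 0 < σ := by linarith
  have e1 : ε ≤ 1 := by linarith
  have hpos : ∀ t ∈ uIcc ε 1, 0 < t := fun t ht => by
    rw [uIcc_of_le e1] at ht
    exact hε.trans_le ht.1
  have hm : ∀ t, 0 < t → HasDerivAt (fun t => t * (6 * σ ^ 2 / (q + t + σ) ^ 4))
      (6 * σ ^ 2 / (q + t + σ) ^ 4 - 24 * σ ^ 2 * t / (q + t + σ) ^ 5) t := fun t ht => by
    have h4 : q + t + σ ≠ 0 := by positivity
    have := (hasDerivAt_id t).mul ((hasDerivAt_const t (6 * σ ^ 2)).div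
      ((((hasDerivAt_id t).const_add q).add_const σ).pow 4) (pow_ne_zero 4 h4))
    refine this.congr_deriv ?_
    simp only [id, Pi.div_apply, Pi.pow_apply, Nat.cast_ofNat, Nat.add_one_sub_one]
    field_simp
    ring
  have i1 : IntervalIntegrable vs volume ε 1 := (hc.mono hpos).intervalIntegrable
  have i2 : IntervalIntegrable (fun t => vs t * (t * (6 * σ ^ 2 / (q + t + σ) ^ 4))) volume ε 1 :=
    i1.mul_continuousOn fun t ht => (hm t (hpos t ht)).continuousAt.continuousWithinAt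
  have key := intervalIntegral.integral_mul_deriv_eq_deriv_mul (fun t ht => hv t (hpos t ht))
    (fun t ht => hm t (hpos t ht)) i1 (ContinuousOn.intervalIntegrable (by
      refine ContinuousOn.sub (ContinuousOn.div (by fun_prop) (by fun_prop) fun t ht => ?_)
        (ContinuousOn.div (by fun_prop) (by fun_prop) fun t ht => ?_) <;>
      · have := hpos t ht
        positivity))
  simp only [mul_neg, intervalIntegral.integral_neg]
  rw [key]
  have h4 : 0 ≤ v 1 * (1 * (6 * σ ^ 2 / (q + 1 + σ) ^ 4)) := mul_nonneg (h0 1 one_pos) (by positivity)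
  have h5 : ∀ t ∈ Icc ε 1, 0 ≤ -(vs t * (t * (6 * σ ^ 2 / (q + t + σ) ^ 4))) := fun t ht => by
    have := hε.trans_le ht.1
    exact neg_nonneg.2 (mul_nonpos_of_nonpos_of_nonneg (h1 t this) (by positivity))
  suffices a ≤ ∫ t in ε..1, -(vs t * (t * (6 * σ ^ 2 / (q + t + σ) ^ 4))) by
    rw [intervalIntegral.integral_neg] at this
    linarith
  rcases ha with ha | ⟨hq', ha⟩
  · exact ha.trans (intervalIntegral.integral_nonneg e1 h5)
  have h6 : σ / 2 ≤ σ := by linarith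
  have hsub : uIcc (σ / 2) σ ⊆ uIcc ε 1 := by
    rw [uIcc_of_le h6, uIcc_of_le e1]
    exact Icc_subset_Icc h2 h3
  refine ha.trans (le_trans ?_ (intervalIntegral.integral_mono_interval h2 h6 h3
    ((ae_restrict_mem measurableSet_Ioc).mono fun t ht => h5 t (Ioc_subset_Icc_self ht)) i2.neg))
  have h7 := intervalIntegral.integral_eq_sub_of_hasDerivAt (fun t ht => hv t (hpos t (hsub ht)))
    (i1.mono_set hsub)
  rw [← neg_sub, ← h7, ← intervalIntegral.integral_neg, ← intervalIntegral.integral_div]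
  refine intervalIntegral.integral_mono_on h6 ((i1.mono_set hsub).neg.div_const _)
    (i2.mono_set hsub).neg fun t ht => ?_
  have h8 : 0 < t := lt_of_lt_of_le (by positivity) ht.1
  rw [← neg_mul, div_eq_mul_one_div]
  refine mul_le_mul_of_nonneg_left ?_ (neg_nonneg.2 (h1 t h8))
  calc 1 / (27 * σ) = σ / 2 * (6 * σ ^ 2 / (3 * σ) ^ 4) := by
        field_simp
        ring
    _ ≤ _ := by
        gcongr
        · exact ht.1
        · linarith [ht.2]

lemma ana3_ker {q t σ : ℝ} (hq : 0 ≤ q) (ht : 0 < t) (hσ : 0 < σ) :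
    |σ / (q + t + σ) ^ 2 - 2 * σ * t / (q + t + σ) ^ 3| ≤ σ / (q + t + σ) ^ 2 := by
  have h1 : 2 * σ * t / (q + t + σ) ^ 3 ≤ 2 * (σ / (q + t + σ) ^ 2) := by
    rw [div_le_iff₀ (by positivity), show 2 * (σ / (q + t + σ) ^ 2) * (q + t + σ) ^ 3 =
      2 * σ * (q + t + σ) by field_simp]
    gcongr
    linarith
  have h2 : 0 ≤ 2 * σ * t / (q + t + σ) ^ 3 := by positivity
  exact abs_le.2 ⟨by linarith, by linarith⟩

lemma ana3_ker2 {q t σ x : ℝ} (hq : 0 ≤ q) (ht : 0 < t) (hσ : 0 < σ) (hx : x ≤ t + σ) :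
    6 * σ * x / (q + t + σ) ^ 4 ≤ 6 / σ * (σ / (q + σ) ^ 2) := by
  calc _ ≤ 6 * (q + t + σ) * (q + t + σ) / (q + t + σ) ^ 4 := by
        refine div_le_div_of_nonneg_right (le_trans (mul_le_mul_of_nonneg_left
          (show x ≤ q + t + σ by linarith) (by positivity)) ?_) (by positivity)
        gcongr
        linarith
    _ = 6 / (q + t + σ) ^ 2 := by field_simp
    _ ≤ 6 / (q + σ) ^ 2 := by
        gcongr
        linarith
    _ = _ := by field_simp

/-- The deterministic inequality. -/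
lemma ana3_main (h : Sys J c K R A) (n : ℕ) (u : ℂ) {σ ε η η' : ℝ} (hε : 0 < ε) (h2 : ε ≤ σ / 2)
    (h3 : σ ≤ 1) (hη' : ∀ z, ε * (tail J n).f z ε ≤ η')
    (hη : ∀ z, ‖z - u‖ ^ 2 ≤ σ → η ≤ (tail J n).f z (σ / 2) - (tail J n).f z σ) :
    η / 27 ≤ 12 * η' / σ + 11 * ((∑' j, c (j + n)) * K 1) * σ + (bulkT J n u σ).toReal +
      ∫ z, σ / (‖z - u‖ ^ 2 + σ) ^ 2 * (-ε * (tail J n).fs z ε) ∂mm := by
  have hσ : 0 < σ := by linarith
  have e1 : ε < 1 := by linarith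
  have hV := h.tail_dat n
  have v0 := fun z t => h.tail_nonneg n z (t := t)
  have v1 := fun z t => h.tail_flux n z (t := t)
  have v2 := h.integrable_tail_flux n hε e1
  have v3 := fun g hg => h.abs_bulk_le n u hσ hε.le zero_le_one (g := g) hg
  generalize tail J n = V at *
  generalize (∑' j, c (j + n)) = cn at *
  obtain ⟨k, Kk, hk, ek⟩ := exists_kerB u hσ.le
  obtain ⟨p1, p2⟩ := poisson_int u hσ
  obtain ⟨q1, q2⟩ := poisson_int u one_pos
  have η0 : 0 ≤ η' := (mul_nonneg hε.le (v0 0 ε hε)).trans (hη' 0)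
  have g0 := green hV hk hε e1.le
  have g1 : ∫ p, V.f p.1 p.2 * k.lap p.1 p.2 ∂strip ε ≤ 6 * η' / σ - η / 27 := by
    have i1 := hk.integrable_f_lap hV hε
    have i2 : Integrable ((closedBall u √σ).indicator fun _ => η / (27 * σ)) mm :=
      (integrable_indicator_iff measurableSet_closedBall).2
        (integrableOn_const (measure_closedBall_lt_top.ne))
    unfold strip at i1 ⊢
    rw [integral_prod _ i1]
    refine (integral_mono i1.integral_prod_left ((p1.const_mul (η' * (6 / σ))).sub i2)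
      fun z => ?_).trans (le_of_eq ?_)
    · have h4 := ana3_parts (v := V.f z) (vs := V.fs z) (fun t ht => hV.ds z t ht)
        (hV.cs.comp (f := fun t : ℝ => (z, t)) (by fun_prop) fun t ht => ⟨trivial, ht⟩) (v0 z)
        (fun t ht => by nlinarith [v1 z t ht]) (sq_nonneg ‖z - u‖) hε h2 h3
        (a := (closedBall u √σ).indicator (fun _ => η / (27 * σ)) z) (by
          by_cases hz : z ∈ closedBall u √σ
          · have h5 : ‖z - u‖ ^ 2 ≤ σ := by
              rw [mem_closedBall, dist_eq_norm] at hz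
              exact (Real.le_sqrt (norm_nonneg _) hσ.le).1 hz
            rw [indicator_of_mem hz]
            exact Or.inr ⟨h5, div_le_div_of_nonneg_right (hη z h5) (by positivity)⟩
          · exact Or.inl (indicator_of_notMem hz _).le)
      rw [intervalIntegral.integral_of_le e1.le, integral_Ioc_eq_integral_Ioo] at h4
      simp only [Pi.sub_apply]
      refine (setIntegral_congr_fun measurableSet_Ioo fun t ht => ?_).trans_le
        (h4.trans (sub_le_sub_right ?_ _))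
      · exact congrArg (V.f z t * ·) (ek z t (hε.trans ht.1)).2.2
      rw [mul_assoc η']
      refine mul_le_mul (hη' z) ?_ (by positivity) η0
      rw [sq σ, ← mul_assoc]
      exact ana3_ker2 (sq_nonneg _) hε hσ (by linarith)
    · rw [integral_sub' (p1.const_mul _) i2, integral_const_mul, p2,
        integral_indicator_const _ measurableSet_closedBall, Measure.real,
        mm_closedBall u (Real.sqrt_nonneg σ), Real.sq_sqrt hσ.le, ENNReal.toReal_ofReal hσ.le,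
        smul_eq_mul]
      field_simp
  have g2 : WW V k 1 ≤ 11 * (cn * K 1) * σ := by
    refine (Real.le_norm_self _).trans ((norm_integral_le_of_norm_le
      (q1.const_mul (11 * (cn * K 1) * σ)) (.of_forall fun z => ?_)).trans (by rw [integral_const_mul,
        q2, mul_one]))
    obtain ⟨b1, -, -, b2, -⟩ := hV.bd 1 one_pos 1 le_rfl z 1 norm_one
    obtain ⟨k1, k2, -⟩ := ek z 1 one_pos
    have b0 : 0 ≤ cn * K 1 := by
      have := (abs_nonneg _).trans b1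
      rwa [le_div_iff₀ (by positivity), zero_mul] at this
    have b3 : cn * K 1 / (‖z‖ ^ 2 + 1) ≤ cn * K 1 :=
      div_le_self b0 (by nlinarith [norm_nonneg z])
    have q0 := sq_nonneg ‖z - u‖
    generalize ‖z - u‖ ^ 2 = q at *
    have b4 : ∀ m : ℕ, σ / (q + 1 + σ) ^ (m + 2) ≤ σ * (1 / (q + 1) ^ 2) := fun m => by
      rw [mul_one_div]
      refine div_le_div_of_nonneg_left hσ.le (by positivity) ?_
      calc (q + 1) ^ 2 ≤ (q + 1 + σ) ^ 2 := pow_le_pow_left₀ (by linarith) (by linarith) 2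
        _ ≤ _ := pow_le_pow_right₀ (by linarith) (by omega)
    have b5 : |k.f z 1| ≤ σ * (1 / (q + 1) ^ 2) := k1 ▸ (ana3_ker q0 one_pos hσ).trans (b4 0)
    have b6 : |k.fs z 1| ≤ 10 * (σ * (1 / (q + 1) ^ 2)) := by
      have c1 := b4 1
      have c2 := b4 2
      have c3 : 0 ≤ σ / (q + 1 + σ) ^ (1 + 2) := by positivity
      have c4 : 0 ≤ σ / (q + 1 + σ) ^ (2 + 2) := by positivity
      rw [k2, mul_one, mul_div_assoc, mul_div_assoc]
      exact abs_le.2 ⟨by linarith, by linarith⟩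
    rw [one_mul, Real.norm_eq_abs]
    refine (abs_sub _ _).trans ?_
    rw [abs_mul, abs_mul]
    have c1 := mul_le_mul (b2.trans b3) b5 (abs_nonneg _) b0
    have c2 := mul_le_mul b6 (b1.trans b3) (abs_nonneg _) (by positivity)
    linarith
  have g3 : -WW V k ε ≤ 6 * η' / σ +
      ∫ z, σ / (‖z - u‖ ^ 2 + σ) ^ 2 * (-ε * V.fs z ε) ∂mm := by
    have i1 : Integrable (fun z => σ / (‖z - u‖ ^ 2 + σ) ^ 2 * (-ε * V.fs z ε)) mm :=
      v2.bdd_mul (c := σ / σ ^ 2) p1.1 (.of_forall fun z => by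
        rw [Real.norm_of_nonneg (by positivity)]
        gcongr
        linarith [sq_nonneg ‖z - u‖])
    rw [WW, ← integral_neg]
    refine (integral_mono (((hV.integrable_fs_f hk hε (by linarith)).sub
      (hk.integrable_fs_f hV hε (by linarith))).const_mul ε).neg
      ((p1.const_mul (η' * (6 / σ))).add i1) fun z => ?_).trans (le_of_eq ?_)
    · obtain ⟨k1, k2, -⟩ := ek z ε hε
      simp only [Pi.add_apply, Pi.neg_apply, Pi.sub_apply]
      have q0 := sq_nonneg ‖z - u‖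
      generalize ‖z - u‖ ^ 2 = q at *
      have b1 : k.f z ε ≤ σ / (q + σ) ^ 2 := by
        refine (k1 ▸ (le_abs_self _).trans (ana3_ker q0 hε hσ)).trans ?_
        gcongr
        linarith
      have b2 : k.fs z ε ≤ 6 / σ * (σ / (q + σ) ^ 2) := by
        have c1 := ana3_ker2 q0 hε hσ (x := ε) (by linarith)
        have c2 : 0 ≤ 4 * σ / (q + ε + σ) ^ 3 := by positivity
        linarith
      have c1 := mul_le_mul_of_nonneg_right b1 (v1 z ε hε)
      have c2 := mul_le_mul_of_nonneg_right b2 (mul_nonneg hε.le (v0 z ε hε))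
      have c3 := mul_le_mul_of_nonneg_left (hη' z) (by positivity : 0 ≤ 6 / σ * (σ / (q + σ) ^ 2))
      linarith
    · rw [integral_add' (p1.const_mul _) i1, integral_const_mul, p2]
      ring
  have g4 := v3 (fun p => k.f p.1 p.2) fun p hp => by
    rw [one_mul, (ek _ _ (hε.trans hp.1)).1]
    exact ana3_ker (sq_nonneg _) (hε.trans hp.1) hσ
  have g5 := (abs_le.1 g4).1
  have g6 : 12 * η' / σ = 6 * η' / σ + 6 * η' / σ := by ring
  linarith

/-- Passage to the limit in the flux term. -/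
lemma ana3_lim (h : Sys J c K R A) (hδ : Plane J δ) (n : ℕ) (u : ℂ) {σ ρ b : ℝ} (hσ : 0 < σ)
    (hρ : 0 < ρ) (hb : ∀ N, ∑ j ∈ Finset.range N,
      ∫ z, σ / (‖z - u‖ ^ 2 + σ) ^ 2 * δ (j + n) z ∂mm ≤ b) :
    ∀ᶠ l in (hyperfilter ℕ : Filter ℕ),
      ∫ z, σ / (‖z - u‖ ^ 2 + σ) ^ 2 * (-ep l * (tail J n).fs z (ep l)) ∂mm ≤ b + ρ := by
  obtain ⟨C, -, hC⟩ := h.mass
  have p1 := (poisson_int u hσ).1
  have p2 : ∀ z : ℂ, ‖σ / (‖z - u‖ ^ 2 + σ) ^ 2‖ ≤ σ / σ ^ 2 := fun z => by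
    rw [Real.norm_of_nonneg (by positivity)]
    gcongr
    linarith [sq_nonneg ‖z - u‖]
  have h1 := ((tendsto_sum_nat_add c).comp (tendsto_add_atTop_nat n)).const_mul (σ / σ ^ 2 * C)
  rw [mul_zero] at h1
  obtain ⟨N, hN⟩ := (h1.eventually_lt_const (half_pos hρ)).exists
  have h2 := tendsto_finsetSum (Finset.range N) fun j _ =>
    hδ.lim (j + n) (fun z => σ / (‖z - u‖ ^ 2 + σ) ^ 2) _ (by fun_prop) p2
  filter_upwards [h2.eventually_lt_const ((hb N).trans_lt (lt_add_of_pos_right b (half_pos hρ)))]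
    with l hl
  have e0 := ep_pos l
  have e1 := ep_lt_one l
  have i1 := fun j => (h.integrable_flux j e0 e1).bdd_mul p1.1 (.of_forall p2)
  have i2 := h.integrable_tail_flux (N + n) e0 e1
  have h3 : ∫ z, σ / (‖z - u‖ ^ 2 + σ) ^ 2 * (-ep l * (tail J (N + n)).fs z (ep l)) ∂mm ≤
      σ / σ ^ 2 * (C * ∑' j, c (j + (N + n))) := by
    refine (integral_mono (i2.bdd_mul p1.1 (.of_forall p2)) (i2.const_mul (σ / σ ^ 2)) fun z =>
      mul_le_mul_of_nonneg_right ((le_abs_self _).trans (p2 z)) (h.tail_flux _ z e0)).trans ?_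
    rw [integral_const_mul]
    exact mul_le_mul_of_nonneg_left ((hC _).1 _ e0 e1) (by positivity)
  simp only [h.tail_fs_eq n N _ e0 (by linarith), mul_add, Finset.mul_sum]
  rw [integral_add (integrable_finsetSum _ fun j _ => i1 _) (i2.bdd_mul p1.1 (.of_forall p2)),
    integral_finsetSum _ fun j _ => i1 _]
  simp only [Function.comp, mul_assoc] at hN
  linarith

/-- The tails of the plane densities. -/
lemma ana3_dens (h : Sys J c K R A) (hδ : Plane J δ) : ∃ g : ℕ → ℂ → ℝ,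
    (∀ n, Integrable (g n) mm) ∧ (∀ n, ∀ᵐ z ∂mm, ∀ N, ∑ j ∈ Finset.range N, δ (j + n) z ≤ g n z) ∧
      ∀ᵐ z ∂mm, Tendsto (fun n => g n z) atTop (𝓝 0) := by
  have hm : ∀ j, Measurable fun z => ENNReal.ofReal (δ j z) := fun j => (hδ.meas j).ennreal_ofReal
  have h1 : ∀ n, ∫⁻ z, ∑' j, ENNReal.ofReal (δ (j + n) z) ∂mm ≠ ⊤ := fun n => by
    rw [lintegral_tsum fun j => (hm _).aemeasurable]
    simp only [← ofReal_integral_eq_lintegral_ofReal (hδ.int _) (.of_forall (hδ.nonneg _))]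
    rw [← ENNReal.ofReal_tsum_of_nonneg (fun j => integral_nonneg (hδ.nonneg _))
      ((summable_nat_add_iff n).2 (Plane.summable h hδ))]
    exact ENNReal.ofReal_ne_top
  have h2 : ∀ n, Measurable fun z => ∑' j, ENNReal.ofReal (δ (j + n) z) := fun n =>
    Measurable.tsum fun j => hm _
  refine ⟨fun n z => (∑' j, ENNReal.ofReal (δ (j + n) z)).toReal,
    fun n => integrable_toReal_of_lintegral_ne_top (h2 n).aemeasurable (h1 n), fun n => ?_, ?_⟩
  · filter_upwards [ae_lt_top (h2 n) (h1 n)] with z hz N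
    refine (ENNReal.ofReal_le_iff_le_toReal hz.ne).1 ?_
    rw [ENNReal.ofReal_sum_of_nonneg fun j _ => hδ.nonneg _ _]
    exact ENNReal.sum_le_tsum _
  · filter_upwards [ae_lt_top (h2 0) (h1 0)] with z hz
    exact (ENNReal.tendsto_toReal ENNReal.zero_ne_top).comp
      (ENNReal.tendsto_sum_nat_add (fun j => ENNReal.ofReal (δ j z)) hz.ne)

lemma ana3_dy_pos (a : ℕ) : 0 < dy a := by
  unfold dy
  positivity

lemma ana3_dy_succ (a : ℕ) : dy (a + 1) = dy a / 2 := by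
  unfold dy
  ring

lemma ana3_tendsto_dy : Tendsto dy atTop (𝓝[>] 0) :=
  tendsto_nhdsWithin_iff.2 ⟨tendsto_pow_atTop_nhds_zero_of_lt_one (by norm_num) (by norm_num),
    .of_forall ana3_dy_pos⟩

theorem Sys.tail_slow (h : Sys J c K R A) (hδ : Plane J δ) : ∀ᵐ u ∂mm, ∀ η, 0 < η →
    ∃ n k0 : ℕ, ∀ a, k0 ≤ a → ∃ z, ‖z - u‖ ^ 2 ≤ dy a ∧
      (tail J n).f z (dy (a + 1)) - (tail J n).f z (dy a) ≤ η := by
  obtain ⟨g, g1, g2, g3⟩ := ana3_dens h hδ
  filter_upwards [g3, h.bulk, ae_all_iff.2 fun n => approx_id (g1 n)] with u h1 h2 h3 η hη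
  have η0 : 0 < η / 200 := by positivity
  obtain ⟨n, hn⟩ := (h1.eventually_lt_const η0).exists
  have h4 := (ENNReal.tendsto_toReal ENNReal.zero_ne_top).comp (h2 n)
  have h5 : Tendsto (fun σ : ℝ => σ) (𝓝[>] 0) (𝓝 0) := tendsto_id.mono_left nhdsWithin_le_nhds
  have h6 := h5.const_mul (11 * ((∑' j, c (j + n)) * K 1))
  rw [mul_zero] at h6
  obtain ⟨k0, hk⟩ := eventually_atTop.1 (ana3_tendsto_dy.eventually
    (((h3 n).eventually_lt_const η0).and ((h4.eventually_lt_const η0).and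
      ((h6.eventually_lt_const η0).and (h5.eventually_lt_const one_pos)))))
  refine ⟨n, k0, fun a ha => ?_⟩
  obtain ⟨k1, k2, k3, k4⟩ := hk a ha
  rw [ana3_dy_succ]
  have hσ := ana3_dy_pos a
  generalize dy a = σ at *
  by_contra hno
  push Not at hno
  obtain ⟨p1, p2⟩ := poisson_int u hσ
  have p3 : ∀ᵐ z ∂mm, ‖σ / (‖z - u‖ ^ 2 + σ) ^ 2‖ ≤ σ / σ ^ 2 := .of_forall fun z => by
    rw [Real.norm_of_nonneg (by positivity)]
    gcongr
    linarith [sq_nonneg ‖z - u‖]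
  have i1 : Integrable (fun z => σ / (‖z - u‖ ^ 2 + σ) ^ 2 * |g n z - g n u|) mm := by
    refine (((g1 n).bdd_mul p1.1 p3).sub (p1.mul_const (g n u))).abs.congr (.of_forall fun z => ?_)
    simp only [Pi.sub_apply]
    rw [← mul_sub, abs_mul, abs_of_nonneg (by positivity)]
  have hl := ana3_lim h hδ n u hσ η0 (b := η / 200 + η / 200) fun N => by
    have i2 := fun j => (hδ.int j).bdd_mul p1.1 p3
    rw [← integral_finsetSum _ fun j _ => i2 _]
    refine (integral_mono_ae (integrable_finsetSum _ fun j _ => i2 _)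
      (i1.add (p1.mul_const (g n u))) ?_).trans ?_
    · filter_upwards [g2 n] with z hz
      simp only [Pi.add_apply]
      rw [← Finset.mul_sum, ← mul_add]
      exact mul_le_mul_of_nonneg_left (by linarith [hz N, le_abs_self (g n z - g n u)])
        (by positivity)
    · rw [integral_add' i1 (p1.mul_const _), integral_mul_const, p2]
      linarith
  obtain ⟨l, l1, l2, l3⟩ := (hl.and (tendsto_ep.eventually ((h5.eventually_lt_const
    (half_pos hσ)).and (h.tail_small n (η := η / 200 * σ / 12) (by positivity))))).exists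
  have := ana3_main h n u (ep_pos l) l2.le k4.le l3 fun z hz => (hno z hz).le
  rw [show 12 * (η / 200 * σ / 12) / σ = η / 200 by field_simp] at this
  simp only [Function.comp] at k2
  linarith

lemma ana3_anti (h : Sys J c K R A) (j : ℕ) (z : ℂ) : AntitoneOn ((J j).f z) (Ioi 0) := by
  refine antitoneOn_of_deriv_nonpos (convex_Ioi 0)
    (fun t ht => ((h.dat j).ds z t ht).continuousAt.continuousWithinAt) ?_ ?_ <;>
    rw [interior_Ioi]
  · exact fun t ht => ((h.dat j).ds z t ht).differentiableAt.differentiableWithinAt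
  · intro t ht
    rw [((h.dat j).ds z t ht).deriv]
    nlinarith [h.flux0 j z t ht, mem_Ioi.1 ht]

lemma ana3_summable (h : Sys J c K R A) (z : ℂ) {t : ℝ} (ht : 0 < t) (n : ℕ) :
    Summable fun j => (J (j + n)).f z t :=
  (summable_nat_add_iff (f := fun j => (J j).f z t) n).2 (.of_norm_bounded
    ((h.sum.mul_right (K t)).div_const (‖z‖ ^ 2 + 1))
    fun j => ((h.dat j).bd t ht t le_rfl z 1 norm_one).1)

theorem Sys.ana (h : Sys J c K R A) {θ : ℝ} (hθ : 0 < θ)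
    (hp : ∀ ε, 0 < ε → ε < 1 → θ ≤ ∑' j, ∫ z, -ε * (J j).fs z ε ∂mm) {Cs : ℝ} (hC : 0 < Cs) :
    ∃ (i n k0 : ℕ) (x1 x3 C0 : ℝ), i < n ∧ 0 < x1 ∧ x1 < x3 ∧
      mm {u | Good (fun j => (J j).f) Cs i n k0 x1 x3 C0 u} ≠ 0 := by
  classical
  obtain ⟨δ, hδ⟩ := h.exists_plane
  obtain ⟨j0, hj⟩ := Plane.pos h hδ hθ hp
  obtain ⟨C0, hC0⟩ := h.expo hδ
  by_contra hno
  push Not at hno
  refine hj (measure_eq_zero_iff_ae_notMem.2 ?_)
  have h1 : ∀ᵐ u ∂mm, ∀ x : (ℕ × ℕ × ℕ) × ℚ × ℚ, x.1.1 < x.1.2.1 → (0 : ℝ) < x.2.1 →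
      (x.2.1 : ℝ) < x.2.2 →
        ¬ Good (fun j => (J j).f) Cs x.1.1 x.1.2.1 x.1.2.2 x.2.1 x.2.2 C0 u := by
    refine ae_all_iff.2 fun x => ?_
    simp only [eventually_imp_distrib_left]
    exact fun h1 h2 h3 => measure_eq_zero_iff_ae_notMem.1 (hno _ _ _ _ _ _ h1 h2 h3)
  filter_upwards [h1, hC0, h.tail_slow hδ] with u h1 h2 h3 (hu : 0 < δ j0 u)
  have l2 : 0 < Real.log 2 := Real.log_pos one_lt_two
  obtain ⟨n, k1, hk⟩ := h3 (δ j0 u * Real.log 2 / 2 / Cs) (by positivity)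
  obtain ⟨i, i1, i2, i3⟩ : ∃ i < j0 + 1 + n, δ j0 u ≤ δ i u ∧
      ∀ k ∈ Finset.Ioo i (j0 + 1 + n), δ k u < δ i u := by
    obtain ⟨m, m1, m2⟩ := Finset.exists_max_image (Finset.range (j0 + 1 + n)) (fun k => δ k u)
      ⟨0, Finset.mem_range.2 (by omega)⟩
    obtain ⟨i, i1, i2⟩ := Finset.exists_max_image
      ((Finset.range (j0 + 1 + n)).filter fun k => δ m u ≤ δ k u) id
      ⟨m, Finset.mem_filter.2 ⟨m1, le_rfl⟩⟩
    obtain ⟨i3, i4⟩ := Finset.mem_filter.1 i1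
    refine ⟨i, Finset.mem_range.1 i3, (m2 _ (Finset.mem_range.2 (by omega))).trans i4,
      fun k hk => lt_of_lt_of_le (not_le.1 fun h => ?_) i4⟩
    obtain ⟨k1, k2⟩ := Finset.mem_Ioo.1 hk
    exact k1.not_ge (i2 k (Finset.mem_filter.2 ⟨Finset.mem_range.2 k2, h⟩))
  obtain ⟨y, y1, y2, y3⟩ : ∃ y, y < δ i u * Real.log 2 ∧ δ j0 u * Real.log 2 / 2 ≤ y ∧
      ∀ k ∈ Finset.Ioo i (j0 + 1 + n), δ k u * Real.log 2 ≤ y :=
    ⟨(Finset.Ioo i (j0 + 1 + n)).fold max (δ j0 u * Real.log 2 / 2) fun k => δ k u * Real.log 2,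
      (Finset.fold_max_lt _).2 ⟨by nlinarith [mul_pos hu l2], fun k hk =>
        mul_lt_mul_of_pos_right (i3 k hk) l2⟩, (Finset.le_fold_max _).2 (Or.inl le_rfl),
      fun k hk => (Finset.le_fold_max _).2 (Or.inr ⟨k, hk, le_rfl⟩)⟩
  obtain ⟨x1, a1, a2⟩ := exists_rat_btwn y1
  obtain ⟨x3, a3, a4⟩ := exists_rat_btwn a2
  obtain ⟨k2, hk2⟩ := h2 i _ (sub_pos.2 a4)
  choose κ hκ using fun k => h2 k _ (sub_pos.2 a1)
  refine h1 ((i, j0 + 1 + n, k1 + k2 + ∑ k ∈ Finset.Ioo i (j0 + 1 + n), κ k), x1, x3) i1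
    (lt_of_lt_of_le (by positivity) (y2.trans a1.le)) a3
    ⟨fun a b ha hab => ?_, fun k b1 b2 a b ha hab => ?_, fun a ha => ?_⟩ <;> simp only at ha ⊢
  · linarith [(abs_le.1 (hk2 a b (le_trans (by omega) ha) hab)).1]
  · have b3 : k ∈ Finset.Ioo i (j0 + 1 + n) := Finset.mem_Ioo.2 ⟨b1, b2⟩
    have b4 := Finset.single_le_sum (f := κ) (fun _ _ => Nat.zero_le _) b3
    have b5 := mul_le_mul_of_nonneg_right (y3 k b3) (sub_nonneg.2 (Nat.cast_le.2 hab : (a : ℝ) ≤ b))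
    linarith [(abs_le.1 (hκ k a b (le_trans (by omega) ha) hab)).2]
  · obtain ⟨z, z1, z2⟩ := hk a (le_trans (by omega) ha)
    refine ⟨z, z1, ?_⟩
    have s1 := ana3_summable h z (ana3_dy_pos (a + 1)) n
    have s2 := ana3_summable h z (ana3_dy_pos a) n
    have s3 := (s1.sub s2).sum_add_tsum_nat_add (j0 + 1)
    rw [s1.tsum_sub s2] at s3
    have s4 : 0 ≤ ∑ j ∈ Finset.range (j0 + 1),
        ((J (j + n)).f z (dy (a + 1)) - (J (j + n)).f z (dy a)) :=
      Finset.sum_nonneg fun j _ => sub_nonneg.2 (ana3_anti h _ z (ana3_dy_pos _) (ana3_dy_pos _)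
        (by linarith [ana3_dy_succ a, ana3_dy_pos a]))
    simp only [add_assoc _ (j0 + 1) n] at s3
    simp only [tail] at z2
    rw [le_div_iff₀' hC] at z2
    refine le_trans (mul_le_mul_of_nonneg_left ?_ hC.le) (z2.trans (y2.trans a1.le))
    linarith

end Pool.Agent.Lib.MP_45cb44_an.Hy
end

-- part Pool.Agent.Lib.MP_45cb44_an.HyMain
section

/-! Assembly. -/

namespace Pool.Agent.Lib.MP_45cb44_an.Hy

open MeasureTheory Metric Set Filter Topology InnerProductSpace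
open scoped InnerProductSpace ComplexConjugate ENNReal

variable {H : Type*} [NormedAddCommGroup H] [InnerProductSpace ℂ H] [CompleteSpace H]
  {T Φ Ψ : H →L[ℂ] H}

theorem core (hc : star T * T + Ψ * star Ψ = T * star T + Φ * star Φ)
    (b : HilbertBasis ℕ ℂ H) (hΦ : Summable fun j => ‖Φ (b j)‖ ^ 2)
    (hΨ : Summable fun j => ‖Ψ (b j)‖ ^ 2) (hlt : ∑' j, ‖Ψ (b j)‖ ^ 2 < ∑' j, ‖Φ (b j)‖ ^ 2) :
    ¬Tr T := by
  intro ht
  obtain ⟨J, K, R, A, hS, hf, hfl⟩ := exists_sys hc b hΦ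
  obtain ⟨i, n, k0, x1, x3, C0, hin, h1, h3, hm⟩ := hS.ana (sub_pos.2 hlt) (Cs := 10000)
    (fun ε h0 _ => by
      simp only [hfl _ _ _ h0]
      exact trace_pos hc b hΦ hΨ h0) (by norm_num)
  rw [hf] at hm
  obtain ⟨x, β, C, s0, hD⟩ := exists_dir (k0 := k0) (C0 := C0) hc b hΦ hin h1 h3
  obtain ⟨C', hF⟩ := hD.fam hc (not_finiteDimensional b) ht
  exact hF.not_tr hm ht

lemma re_inner_sq (hΦ : star Φ = Φ) (x : H) : (⟪x, (Φ * Φ) x⟫_ℂ).re = ‖Φ x‖ ^ 2 := by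
  have := inner_mul_star Φ x
  rwa [hΦ] at this

lemma inner_sq (hΦ : star Φ = Φ) (x : H) : ⟪x, (Φ * Φ) x⟫_ℂ = ((‖Φ x‖ ^ 2 : ℝ) : ℂ) := by
  have : ⟪x, Φ (Φ x)⟫_ℂ = ⟪Φ x, Φ x⟫_ℂ := by
    rw [← ContinuousLinearMap.adjoint_inner_left, ← ContinuousLinearMap.star_eq_adjoint, hΦ]
  rw [ContinuousLinearMap.mul_apply, this, inner_self_eq_norm_sq_to_K]
  simp

/-- Self-commutators of trace class with nonzero trace. -/
theorem core' {S A B : H →L[ℂ] H} (hA : A.IsPositive) (hB : B.IsPositive)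
    (hc : star S * S - S * star S = A - B) (b : HilbertBasis ℕ ℂ H)
    (sA : Summable fun i => (⟪b i, A (b i)⟫_ℂ).re) (sB : Summable fun i => (⟪b i, B (b i)⟫_ℂ).re)
    (h : ¬HasSum (fun i => ⟪b i, (star S * S - S * star S) (b i)⟫_ℂ) 0) : ¬Tr S := by
  obtain ⟨Φ, hΦ, rfl⟩ := exists_sqrt hA
  obtain ⟨Ψ, hΨ, rfl⟩ := exists_sqrt hB
  simp only [re_inner_sq hΦ, re_inner_sq hΨ] at sA sB
  have e : star S * S + Ψ * star Ψ = S * star S + Φ * star Φ := by
    rw [hΦ, hΨ, sub_eq_iff_eq_add.1 hc]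
    abel
  rcases lt_trichotomy (∑' j, ‖Ψ (b j)‖ ^ 2) (∑' j, ‖Φ (b j)‖ ^ 2) with hl | hl | hl
  · exact core e b sA sB hl
  · refine (h ?_).elim
    have := Complex.hasSum_ofReal.2 (sA.hasSum.sub sB.hasSum)
    rw [hl, sub_self, Complex.ofReal_zero] at this
    simpa only [hc, ContinuousLinearMap.sub_apply, inner_sub_right, inner_sq hΦ, inner_sq hΨ,
      Complex.ofReal_sub] using this
  · intro ht
    refine core (T := star S) (Φ := Ψ) (Ψ := Φ) ?_ b sB sA hl ht.adj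
    rw [star_star, e]

lemma re_inner_comm (T : H →L[ℂ] H) (x : H) :
    (⟪x, (star T * T - T * star T) x⟫_ℂ).re = ‖T x‖ ^ 2 - ‖star T x‖ ^ 2 := by
  have h1 := inner_mul_star (star T) x
  rw [star_star] at h1
  rw [ContinuousLinearMap.sub_apply, inner_sub_right, Complex.sub_re, h1, inner_mul_star]

/-- The Berger-Shaw-Voiculescu theorem for transitive operators. -/
theorem summable_of_tr {K : H →L[ℂ] H} (ht : Tr T) (b : HilbertBasis ℕ ℂ H) (hK : K.IsPositive)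
    (hs : Summable fun i => (⟪b i, K (b i)⟫_ℂ).re)
    (hD : (K + (star T * T - T * star T)).IsPositive) :
    Summable fun i => (⟪b i, (K + (star T * T - T * star T)) (b i)⟫_ℂ).re := by
  obtain ⟨c, hc⟩ := ht.exists_basis (not_finiteDimensional b)
  have hs' := summable_basis b c hK hs
  refine summable_basis c b hD (summable_of_sum_range_le (c := ∑' i, (⟪c i, K (c i)⟫_ℂ).re +
    ‖T‖ ^ 2) (fun i => hD.re_inner_nonneg_right _) fun n => ?_)
  simp only [ContinuousLinearMap.add_apply, inner_add_right, Complex.add_re, re_inner_comm,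
    Finset.sum_add_distrib]
  exact add_le_add (hs'.sum_le_tsum _ fun i _ => hK.re_inner_nonneg_right _) (hc n)

lemma pos_conj {K : H →L[ℂ] H} (hK : K.IsPositive) (P : H →L[ℂ] H) :
    (star P * K * P).IsPositive := hK.adjoint_conj P

theorem not_tr_lower {K S : H →L[ℂ] H} (b : HilbertBasis ℕ ℂ H) (hK : K.IsPositive)
    (hs : Summable fun i => (⟪b i, K (b i)⟫_ℂ).re) {A : H →L[ℂ] H} (hA : A.IsPositive)
    (sA : Summable fun i => (⟪b i, A (b i)⟫_ℂ).re) (e : star T * T - T * star T = A - K)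
    (hS : S = T ∨ ∃ z : ℂ, ‖T‖ < ‖z‖ ∧ S = resolvent T z)
    (h : ¬HasSum (fun i => ⟪b i, (star S * S - S * star S) (b i)⟫_ℂ) 0) : ¬Tr T := by
  intro ht
  rcases hS with rfl | ⟨z, hz, rfl⟩
  · exact core' hA hK e b sA hs h ht
  obtain ⟨P, M, hPM⟩ := comm_resolvent hz
  refine core' (A := star P * A * P + star M * K * M) (B := star P * K * P + star M * A * M)
    ((pos_conj hA P).add (pos_conj hK M)) ((pos_conj hK P).add (pos_conj hA M)) ?_ b ?_ ?_ h
    (ht.res hz)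
  · rw [hPM, e]
    noncomm_ring
  · simpa only [ContinuousLinearMap.add_apply, inner_add_right, Complex.add_re] using
      (summable_conj b hA sA P).add (summable_conj b hK hs M)
  · simpa only [ContinuousLinearMap.add_apply, inner_add_right, Complex.add_re] using
      (summable_conj b hK hs P).add (summable_conj b hA sA M)

theorem not_tr_one_sided {K S : H →L[ℂ] H} (b : HilbertBasis ℕ ℂ H) (hK : K.IsPositive)
    (hs : Summable fun i => ⟪b i, K (b i)⟫_ℂ)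
    (hD : (K + (star T * T - T * star T)).IsPositive ∨ (K - (star T * T - T * star T)).IsPositive)
    (hS : S = T ∨ ∃ z : ℂ, ‖T‖ < ‖z‖ ∧ S = resolvent T z)
    (h : ¬HasSum (fun i => ⟪b i, (star S * S - S * star S) (b i)⟫_ℂ) 0) : ¬Tr T := by
  intro ht
  have hs' : Summable fun i => (⟪b i, K (b i)⟫_ℂ).re := (Complex.hasSum_re hs.hasSum).summable
  rcases hD with hD | hD
  · exact not_tr_lower b hK hs' hD (summable_of_tr ht b hK hs' hD) (by abel) hS h ht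
  · have e : K - (star T * T - T * star T) =
        K + (star (star T) * star T - star T * star (star T)) := by rw [star_star]; abel
    have := summable_of_tr ht.adj b hK hs' (e ▸ hD)
    rw [← e] at this
    exact not_tr_lower b hD this hK hs' (by abel) hS h ht

lemma not_tr_hypo (hd : ¬FiniteDimensional ℂ H) (h : ∀ x, ‖star T x‖ ≤ ‖T x‖) : ¬Tr T := by
  intro ht
  obtain ⟨b, -⟩ := ht.exists_basis hd
  have sa : IsSelfAdjoint (star T * T - T * star T) := by simp [IsSelfAdjoint]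
  have hD : (star T * T - T * star T).IsPositive := by
    refine ContinuousLinearMap.isPositive_def'.2 ⟨sa, fun x => ?_⟩
    rw [ContinuousLinearMap.reApplyInnerSelf_apply, inner_re_symm]
    have := re_inner_comm T x
    simp only [RCLike.re_to_complex, this]
    nlinarith [h x, norm_nonneg (star T x)]
  refine not_tr_one_sided (K := 0) (S := T) b ContinuousLinearMap.isPositive_zero
    (by simpa using summable_zero) (Or.inl (by rwa [zero_add])) (Or.inl rfl) (fun h0 => ?_) ht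
  obtain ⟨Φ, hΦ, e⟩ := exists_sqrt hD
  rw [← e] at h0
  have h1 := Complex.hasSum_re h0
  simp only [re_inner_sq hΦ, Complex.zero_re] at h1
  have h2 : ∀ i, Φ (b i) = 0 := fun i => by
    have := congrFun ((hasSum_zero_iff_of_nonneg fun i => by positivity).1 h1) i
    simpa using this
  have h3 : Φ = 0 := by
    ext x
    have := (b.hasSum_repr x).mapL Φ
    simp only [map_smul, h2, smul_zero] at this
    exact this.unique hasSum_zero
  rw [h3, zero_mul] at e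
  exact not_tr_normal (sub_eq_zero.1 e.symm) hd ht

theorem not_tr_semi (hd : ¬FiniteDimensional ℂ H)
    (h : (∀ x, ‖star T x‖ ≤ ‖T x‖) ∨ ∀ x, ‖T x‖ ≤ ‖star T x‖) : ¬Tr T := by
  rcases h with h | h
  · exact not_tr_hypo hd h
  · exact fun ht => not_tr_hypo (T := star T) hd (by rwa [star_star]) ht.adj

end Pool.Agent.Lib.MP_45cb44_an.Hy
end
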