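import Pool.Agent.Lib.MP_45cb44_an.Resolvent

-- part Pool.Agent.Lib.MP_45cb44_an.Cauchy
section

/-! Cauchy transforms of bounded densities. -/

namespace Pool.Agent.Lib.MP_45cb44_an

open MeasureTheory Metric Set Filter Topology
open scoped ENNReal NNReal Real ComplexConjugate

/-- Measurable and bounded on the unit disc. -/
def Bd (p : ℂ → ℂ) : Prop := Measurable p ∧ ∃ K : ℝ, 0 ≤ K ∧ ∀ ζ ∈ ball (0 : ℂ) 1, ‖p ζ‖ ≤ K

lemma Bd.of_bound {p : ℂ → ℂ} (hm : Measurable p) (K : ℝ) (h : ∀ ζ ∈ ball (0 : ℂ) 1, ‖p ζ‖ ≤ K) :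
    Bd p := ⟨hm, K, (norm_nonneg _).trans (h 0 (by simp)), h⟩

lemma Bd.const (c : ℂ) : Bd fun _ => c := .of_bound measurable_const ‖c‖ fun _ _ => le_rfl

lemma Bd.id : Bd fun z => z :=
  .of_bound measurable_id 1 fun _ h => (mem_ball_zero_iff.1 h).le

lemma Bd.add {p q : ℂ → ℂ} (hp : Bd p) (hq : Bd q) : Bd fun z => p z + q z := by
  obtain ⟨m1, K, -, h1⟩ := hp
  obtain ⟨m2, L, -, h2⟩ := hq
  exact .of_bound (m1.add m2) (K + L) fun ζ h => norm_add_le_of_le (h1 ζ h) (h2 ζ h)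

lemma Bd.mul {p q : ℂ → ℂ} (hp : Bd p) (hq : Bd q) : Bd fun z => p z * q z := by
  obtain ⟨m1, K, hK, h1⟩ := hp
  obtain ⟨m2, L, -, h2⟩ := hq
  refine .of_bound (m1.mul m2) (K * L) fun ζ h => ?_
  rw [norm_mul]
  exact mul_le_mul (h1 ζ h) (h2 ζ h) (norm_nonneg _) hK

lemma Bd.neg {p : ℂ → ℂ} (hp : Bd p) : Bd fun z => -p z := by
  simpa using (Bd.const (-1)).mul hp

lemma Bd.sub {p q : ℂ → ℂ} (hp : Bd p) (hq : Bd q) : Bd fun z => p z - q z := by
  simpa [sub_eq_add_neg] using hp.add hq.neg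

lemma Bd.conj {p : ℂ → ℂ} (hp : Bd p) : Bd fun z => conj (p z) := by
  obtain ⟨m1, K, -, h1⟩ := hp
  exact .of_bound (Complex.continuous_conj.measurable.comp m1) K fun ζ h => by simpa using h1 ζ h

lemma Bd.exp {p : ℂ → ℂ} (hp : Bd p) : Bd fun z => Complex.exp (p z) := by
  obtain ⟨m1, K, -, h1⟩ := hp
  refine .of_bound m1.cexp (Real.exp K) fun ζ h => ?_
  exact (Complex.norm_exp_le_exp_norm _).trans (Real.exp_le_exp.2 (h1 ζ h))

lemma Bd.pow {p : ℂ → ℂ} (hp : Bd p) (n : ℕ) : Bd fun z => p z ^ n := by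
  induction n with
  | zero => simpa using Bd.const 1
  | succ n ih => simpa [pow_succ] using ih.mul hp

lemma Bd.indicator {p : ℂ → ℂ} (hp : Bd p) {S : Set ℂ} (hS : MeasurableSet S) :
    Bd (indicator S p) := by
  obtain ⟨m1, K, hK, h1⟩ := hp
  refine .of_bound (m1.indicator hS) K fun ζ h => ?_
  exact (norm_indicator_le_norm_self _ _).trans (h1 ζ h)

lemma Bd.integrable {p : ℂ → ℂ} (hp : Bd p) {ν : Measure ℂ} (hν : ν ≤ mD) : Integrable p ν := by
  obtain ⟨m1, K, -, h1⟩ := hp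
  have := finite_of_le hν
  refine (integrable_const K).mono' m1.aestronglyMeasurable ?_
  filter_upwards [ae_ball_of_le hν] with z hz using h1 z hz

lemma Bd.mul_integrable {p : ℂ → ℂ} (hp : Bd p) {ν : Measure ℂ} (hν : ν ≤ mD) {f : ℂ → ℂ}
    (hf : Integrable f ν) : Integrable (fun z => p z * f z) ν := by
  obtain ⟨m1, K, -, h1⟩ := hp
  refine hf.bdd_mul (c := K) m1.aestronglyMeasurable ?_
  filter_upwards [ae_ball_of_le hν] with z hz using h1 z hz

lemma integrable_inv_sub {ν : Measure ℂ} (hν : ν ≤ mD) (z : ℂ) :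
    Integrable (fun ζ => (ζ - z)⁻¹) ν := by
  refine (newton_D hν z).1.mono' (by fun_prop) (.of_forall fun ζ => by simp)

/-- Cauchy transform of the density `p` against the measure `ν`. -/
noncomputable def CT (ν : Measure ℂ) (p : ℂ → ℂ) (z : ℂ) : ℂ := ∫ ζ, p ζ * (ζ - z)⁻¹ ∂ν

variable {ν ν' : Measure ℂ} {p q : ℂ → ℂ}

lemma Bd.integrable_ker (hp : Bd p) (hν : ν ≤ mD) (z : ℂ) :
    Integrable (fun ζ => p ζ * (ζ - z)⁻¹) ν := hp.mul_integrable hν (integrable_inv_sub hν z)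

lemma norm_CT_le' (hν : ν ≤ mD) {K : ℝ} {S : Set ℂ} {r : ℝ} (hr : 0 < r)
    (hm : ν S ≤ ENNReal.ofReal (r ^ 2)) (hK : 0 ≤ K) (h0 : ∀ ζ, ζ ∉ S → p ζ = 0)
    (h : ∀ ζ ∈ ball (0 : ℂ) 1, ‖p ζ‖ ≤ K) (z : ℂ) :
    ‖CT ν p z‖ ≤ K * (3 * r) := by
  have h1 := newton_le (ν := ν.restrict S) (Measure.restrict_le_self.trans (hν.trans mD_le)) hr
    (by simpa using hm) z
  have e : CT ν p z = ∫ ζ in S, p ζ * (ζ - z)⁻¹ ∂ν := by
    rw [CT, setIntegral_eq_integral_of_forall_compl_eq_zero]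
    intro ζ hζ
    simp [h0 ζ hζ]
  rw [e]
  refine (norm_integral_le_of_norm_le (h1.1.const_mul K) ?_).trans ?_
  · filter_upwards [ae_restrict_of_ae (s := S) (ae_ball_of_le hν)] with ζ hζ
    rw [norm_mul, norm_inv]
    exact mul_le_mul_of_nonneg_right (h ζ hζ) (by positivity)
  · rw [integral_const_mul]
    exact mul_le_mul_of_nonneg_left h1.2 hK

lemma norm_CT_le (hν : ν ≤ mD) {K : ℝ} (hK : 0 ≤ K)
    (h : ∀ ζ ∈ ball (0 : ℂ) 1, ‖p ζ‖ ≤ K) (z : ℂ) : ‖CT ν p z‖ ≤ K * 3 := by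
  have := norm_CT_le' (p := p) (S := univ) hν one_pos (by simpa [mD_univ] using hν univ) hK
    (by simp) h z
  simpa using this

lemma measurable_CT [SFinite ν] (hp : Measurable p) : Measurable (CT ν p) := by
  have : Measurable fun x : ℂ × ℂ => p x.2 * (x.2 - x.1)⁻¹ := by fun_prop
  exact (this.stronglyMeasurable.integral_prod_right' (ν := ν)).measurable

lemma Bd.CT (hp : Bd p) (hν : ν ≤ mD) : Bd (CT ν p) := by
  obtain ⟨m1, K, hK, h1⟩ := hp
  have := finite_of_le hν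
  exact .of_bound (measurable_CT m1) (K * 3) fun ζ _ => norm_CT_le hν hK h1 ζ

lemma CT_add (hν : ν ≤ mD) (hp : Bd p) (hq : Bd q) (z : ℂ) :
    CT ν (fun ζ => p ζ + q ζ) z = CT ν p z + CT ν q z := by
  simp only [CT, add_mul]
  exact integral_add (hp.integrable_ker hν z) (hq.integrable_ker hν z)

lemma CT_sub (hν : ν ≤ mD) (hp : Bd p) (hq : Bd q) (z : ℂ) :
    CT ν (fun ζ => p ζ - q ζ) z = CT ν p z - CT ν q z := by
  simp only [CT, sub_mul]
  exact integral_sub (hp.integrable_ker hν z) (hq.integrable_ker hν z)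

lemma CT_const_mul (c : ℂ) (z : ℂ) : CT ν (fun ζ => c * p ζ) z = c * CT ν p z := by
  simp only [CT, mul_assoc]
  exact integral_const_mul _ _

lemma CT_neg (z : ℂ) : CT ν (fun ζ => -p ζ) z = -CT ν p z := by
  simp only [CT, neg_mul, integral_neg]

lemma CT_add_measure (hν : ν ≤ mD) (hν' : ν' ≤ mD) (hp : Bd p) (z : ℂ) :
    CT (ν + ν') p z = CT ν p z + CT ν' p z :=
  integral_add_measure (hp.integrable_ker hν z) (hp.integrable_ker hν' z)

lemma CT_congr (hν : ν ≤ mD) (h : ∀ ζ ∈ ball (0 : ℂ) 1, p ζ = q ζ) (z : ℂ) :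
    CT ν p z = CT ν q z := by
  apply integral_congr_ae
  filter_upwards [ae_ball_of_le hν] with ζ hζ
  rw [h ζ hζ]

lemma CT_mul_sub (hν : ν ≤ mD) (hp : Bd p) (l z : ℂ) :
    CT ν (fun ζ => (ζ - l) * p ζ) z = (z - l) * CT ν p z + ∫ ζ, p ζ ∂ν := by
  rw [CT, CT, ← integral_const_mul, ← integral_add ((hp.integrable_ker hν z).const_mul _)
    (hp.integrable hν)]
  apply integral_congr_ae
  filter_upwards [ae_ne_of_le (hν.trans mD_le) z] with ζ hζ
  have : ζ - z ≠ 0 := sub_ne_zero.2 hζ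
  field_simp
  ring

lemma norm_CT_far (hν : ν ≤ mD) (hp : Bd p) {d : ℝ} (hd : 0 < d) {z : ℂ}
    (h : ∀ ζ, p ζ ≠ 0 → d ≤ ‖ζ - z‖) : ‖CT ν p z‖ ≤ (∫ ζ, ‖p ζ‖ ∂ν) / d := by
  rw [← integral_div]
  refine norm_integral_le_of_norm_le ((hp.integrable hν).norm.div_const d) (.of_forall fun ζ => ?_)
  by_cases h0 : p ζ = 0
  · simp [h0]
  · rw [norm_mul, norm_inv, div_eq_mul_inv]
    exact mul_le_mul_of_nonneg_left (inv_anti₀ hd (h ζ h0)) (norm_nonneg _)

lemma norm_CT_sub (hν : ν ≤ mD) (hp : Bd p) {d : ℝ} (hd : 0 < d) {z w : ℂ}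
    (hz : ∀ ζ, p ζ ≠ 0 → d ≤ ‖ζ - z‖) (hw : ∀ ζ, p ζ ≠ 0 → d ≤ ‖ζ - w‖) :
    ‖CT ν p z - CT ν p w‖ ≤ (∫ ζ, ‖p ζ‖ ∂ν) / d ^ 2 * ‖z - w‖ := by
  rw [CT, CT, ← integral_sub (hp.integrable_ker hν z) (hp.integrable_ker hν w), ← integral_div,
    ← integral_mul_const]
  refine norm_integral_le_of_norm_le (((hp.integrable hν).norm.div_const _).mul_const _)
    (.of_forall fun ζ => ?_)
  by_cases h0 : p ζ = 0
  · simp [h0]
  · have h1 := hz ζ h0
    have h2 := hw ζ h0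
    have h3 : ζ - z ≠ 0 := norm_pos_iff.1 (hd.trans_le h1)
    have h4 : ζ - w ≠ 0 := norm_pos_iff.1 (hd.trans_le h2)
    have e : p ζ * (ζ - z)⁻¹ - p ζ * (ζ - w)⁻¹ = p ζ * ((ζ - z)⁻¹ * (ζ - w)⁻¹) * (z - w) := by
      field_simp
      ring
    rw [e, norm_mul, norm_mul, norm_mul, norm_inv, norm_inv, div_eq_mul_inv, sq, mul_inv]
    gcongr

lemma prod_CT (hν : ν ≤ mD) (hν' : ν' ≤ mD) {f : ℂ → ℂ} (hfm : Measurable f)
    (hf : Integrable f ν) (hq : Bd q) :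
    Integrable (fun x : ℂ × ℂ => f x.1 * (q x.2 * (x.2 - x.1)⁻¹)) (ν.prod ν') ∧
    ∫ x : ℂ × ℂ, f x.1 * (q x.2 * (x.2 - x.1)⁻¹) ∂(ν.prod ν') = ∫ z, f z * CT ν' q z ∂ν := by
  have := finite_of_le hν
  have := finite_of_le hν'
  have hqm := hq.1
  have hm : Measurable fun x : ℂ × ℂ => f x.1 * (q x.2 * (x.2 - x.1)⁻¹) := by fun_prop
  have hi : Integrable (fun x : ℂ × ℂ => f x.1 * (q x.2 * (x.2 - x.1)⁻¹)) (ν.prod ν') := by
    rw [integrable_prod_iff hm.aestronglyMeasurable]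
    refine ⟨.of_forall fun z => (hq.integrable_ker hν' z).const_mul (f z), ?_⟩
    obtain ⟨-, K, hK, h1⟩ := hq
    refine (hf.norm.mul_const (K * 3)).mono'
      (hm.norm.stronglyMeasurable.integral_prod_right' (ν := ν')).aestronglyMeasurable
      (.of_forall fun z => ?_)
    rw [Real.norm_of_nonneg (integral_nonneg fun _ => norm_nonneg _)]
    simp only [norm_mul, norm_inv]
    rw [integral_const_mul]
    refine mul_le_mul_of_nonneg_left ?_ (norm_nonneg _)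
    refine (integral_mono_of_nonneg (.of_forall fun _ => by positivity)
      ((newton_D hν' z).1.const_mul K) ?_).trans ?_
    · filter_upwards [ae_ball_of_le hν'] with ζ hζ
      exact mul_le_mul_of_nonneg_right (h1 ζ hζ) (by positivity)
    · rw [integral_const_mul]
      exact mul_le_mul_of_nonneg_left (newton_D hν' z).2 hK
  refine ⟨hi, ?_⟩
  rw [integral_prod _ hi]
  simp only [integral_const_mul, CT]

lemma prod_CT' (hν : ν ≤ mD) (hν' : ν' ≤ mD) {f : ℂ → ℂ} (hfm : Measurable f)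
    (hf : Integrable f ν') (hq : Bd q) :
    Integrable (fun x : ℂ × ℂ => f x.2 * (q x.1 * (x.1 - x.2)⁻¹)) (ν.prod ν') ∧
    ∫ x : ℂ × ℂ, f x.2 * (q x.1 * (x.1 - x.2)⁻¹) ∂(ν.prod ν') = ∫ z, f z * CT ν q z ∂ν' := by
  have := finite_of_le hν
  have := finite_of_le hν'
  obtain ⟨h1, h2⟩ := prod_CT hν' hν hfm hf hq
  exact ⟨h1.swap, by rw [← h2, ← integral_prod_swap]; rfl⟩

lemma ae_ne_prod (hν : ν ≤ mD) (hν' : ν' ≤ mD) : ∀ᵐ x : ℂ × ℂ ∂(ν.prod ν'), x.1 ≠ x.2 := by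
  have := finite_of_le hν'
  refine (Measure.ae_prod_iff_ae_ae (p := fun x : ℂ × ℂ => x.1 ≠ x.2)
    (measurableSet_eq_fun measurable_fst measurable_snd).compl).2 (.of_forall fun z => ?_)
  filter_upwards [ae_ne_of_le (hν'.trans mD_le) z] with w hw using hw.symm

lemma CT_antisymm (hν : ν ≤ mD) (hν' : ν' ≤ mD) (hp : Bd p) (hq : Bd q) :
    ∫ z, p z * CT ν' q z ∂ν = -∫ z, q z * CT ν p z ∂ν' := by
  obtain ⟨-, h2⟩ := prod_CT hν hν' hp.1 (hp.integrable hν) hq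
  obtain ⟨-, h4⟩ := prod_CT' hν hν' hq.1 (hq.integrable hν') hp
  rw [← h2, ← h4, ← integral_neg]
  congr 1
  ext x
  rw [← neg_sub x.2 x.1, inv_neg]
  ring

lemma CT_mul (hν : ν ≤ mD) (hν' : ν' ≤ mD) (hp : Bd p) (hq : Bd q) (z : ℂ) :
    CT ν p z * CT ν' q z =
      CT ν (fun ζ => p ζ * CT ν' q ζ) z + CT ν' (fun ζ => q ζ * CT ν p ζ) z := by
  have := finite_of_le hν
  have := finite_of_le hν'
  have hpm := hp.1
  have hqm := hq.1
  obtain ⟨h1, h2⟩ := prod_CT hν hν' (f := fun ζ => p ζ * (ζ - z)⁻¹) (by fun_prop)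
    (hp.integrable_ker hν z) hq
  obtain ⟨h3, h4⟩ := prod_CT' hν hν' (f := fun ζ => q ζ * (ζ - z)⁻¹) (by fun_prop)
    (hq.integrable_ker hν' z) hp
  have e1 : CT ν (fun ζ => p ζ * CT ν' q ζ) z = ∫ ζ, p ζ * (ζ - z)⁻¹ * CT ν' q ζ ∂ν := by
    rw [CT]; congr 1; ext ζ; ring
  have e2 : CT ν' (fun ζ => q ζ * CT ν p ζ) z = ∫ ζ, q ζ * (ζ - z)⁻¹ * CT ν p ζ ∂ν' := by
    rw [CT]; congr 1; ext ζ; ring
  rw [e1, e2, ← h2, ← h4, ← integral_add h1 h3, CT, CT, ← integral_prod_mul]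
  apply integral_congr_ae
  filter_upwards [ae_ne_prod hν hν',
    (Measure.quasiMeasurePreserving_fst (μ := ν) (ν := ν')).ae (ae_ne_of_le (hν.trans mD_le) z),
    (Measure.quasiMeasurePreserving_snd (μ := ν) (ν := ν')).ae (ae_ne_of_le (hν'.trans mD_le) z)]
    with x h5 h6 h7
  have a1 : x.1 - z ≠ 0 := sub_ne_zero.2 h6
  have a2 : x.2 - z ≠ 0 := sub_ne_zero.2 h7
  have a3 : x.1 - x.2 ≠ 0 := sub_ne_zero.2 h5
  have a4 : x.2 - x.1 ≠ 0 := sub_ne_zero.2 h5.symm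
  field_simp
  ring

lemma CT_pow (hν : ν ≤ mD) (hp : Bd p) (n : ℕ) (z : ℂ) :
    CT ν p z ^ (n + 1) = (n + 1) * CT ν (fun ζ => p ζ * CT ν p ζ ^ n) z := by
  induction n generalizing z with
  | zero => simp
  | succ n ih =>
    have hb := hp.mul ((hp.CT hν).pow n)
    rw [pow_succ', ih, mul_left_comm, CT_mul hν hν hp hb, mul_add, ← CT_const_mul]
    have e1 : (fun ζ => ((n : ℂ) + 1) * (p ζ * CT ν (fun ζ => p ζ * CT ν p ζ ^ n) ζ)) =
        fun ζ => p ζ * CT ν p ζ ^ (n + 1) := by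
      ext ζ; rw [ih]; ring
    have e2 : (fun ζ => p ζ * CT ν p ζ ^ n * CT ν p ζ) = fun ζ => p ζ * CT ν p ζ ^ (n + 1) := by
      ext ζ; ring
    rw [e1, e2]
    push_cast
    ring

lemma CT_exp (hν : ν ≤ mD) (hp : Bd p) (z : ℂ) :
    Complex.exp (CT ν p z) = 1 + CT ν (fun ζ => p ζ * Complex.exp (CT ν p ζ)) z := by
  have hs : ∀ c : ℂ, HasSum (fun n : ℕ => c ^ n / n.factorial) (Complex.exp c) := by
    intro c
    rw [Complex.exp_eq_exp_ℂ]
    exact NormedSpace.expSeries_div_hasSum_exp c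
  obtain ⟨hcm, K, hK, hC⟩ := hp.CT hν
  have hpm := hp.1
  have h1 : HasSum (fun n : ℕ => ∫ ζ, p ζ * (ζ - z)⁻¹ * (CT ν p ζ ^ n / n.factorial) ∂ν)
      (∫ ζ, p ζ * (ζ - z)⁻¹ * Complex.exp (CT ν p ζ) ∂ν) := by
    refine hasSum_integral_of_dominated_convergence
      (fun n ζ => ‖p ζ * (ζ - z)⁻¹‖ * (K ^ n / n.factorial)) (fun n => by fun_prop) ?_ ?_ ?_ ?_
    · intro n
      filter_upwards [ae_ball_of_le hν] with ζ hζ
      rw [norm_mul _ (_ / _), norm_div, norm_pow, Complex.norm_natCast]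
      gcongr
      exact hC ζ hζ
    · exact .of_forall fun ζ => (Real.summable_pow_div_factorial K).mul_left _
    · simp only [tsum_mul_left]
      exact (hp.integrable_ker hν z).norm.mul_const _
    · exact .of_forall fun ζ => (hs _).mul_left _
  have h2 := (hasSum_nat_add_iff' 1).2 (hs (CT ν p z))
  have e : ∀ n : ℕ, CT ν p z ^ (n + 1) / (n + 1).factorial =
      ∫ ζ, p ζ * (ζ - z)⁻¹ * (CT ν p ζ ^ n / n.factorial) ∂ν := by
    intro n
    rw [CT_pow hν hp, Nat.factorial_succ]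
    have a1 : (n : ℂ) + 1 ≠ 0 := Nat.cast_add_one_ne_zero n
    have a2 : (n.factorial : ℂ) ≠ 0 := Nat.cast_ne_zero.2 n.factorial_ne_zero
    rw [show (fun ζ => p ζ * (ζ - z)⁻¹ * (CT ν p ζ ^ n / n.factorial)) =
      fun ζ => (n.factorial : ℂ)⁻¹ * (p ζ * CT ν p ζ ^ n * (ζ - z)⁻¹) by ext ζ; ring,
      integral_const_mul]
    push_cast
    rw [CT]
    field_simp
  simp only [e] at h2
  have h3 := h2.unique h1
  have e3 : CT ν (fun ζ => p ζ * Complex.exp (CT ν p ζ)) z =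
      ∫ ζ, p ζ * (ζ - z)⁻¹ * Complex.exp (CT ν p ζ) ∂ν := by
    rw [CT]; congr 1; ext ζ; ring
  rw [e3, ← h3]
  simp

end Pool.Agent.Lib.MP_45cb44_an
end

-- part Pool.Agent.Lib.MP_45cb44_an.Kernel
section

/-! Size estimates for the exponential kernel. -/

namespace Pool.Agent.Lib.MP_45cb44_an

open MeasureTheory Metric Set Filter Topology
open scoped ENNReal NNReal Real ComplexConjugate

lemma level_le (ν : Measure ℂ) (t : ℂ → ℝ) (c : ℝ≥0∞) :
    ν {w | ν {ζ | t w ≤ t ζ} ≤ c} ≤ c := by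
  set U := {x : ℝ | ν {ζ | x ≤ t ζ} ≤ c}
  have hU : IsUpperSet U := fun x y hxy hx =>
    le_trans (measure_mono fun ζ (hζ : y ≤ t ζ) => le_trans hxy hζ) hx
  have := hU.ordConnected
  have h1 : {w | ν {ζ | t w ≤ t ζ} ≤ c} ⊆ ⋃ x : U, {ζ | x.1 ≤ t ζ} := fun w hw =>
    mem_iUnion.2 ⟨⟨t w, hw⟩, le_refl (t w)⟩
  refine (measure_mono h1).trans ?_
  have h2 : Antitone fun x : U => {ζ | x.1 ≤ t ζ} := fun x y hxy ζ hζ =>
    le_trans (show x.1 ≤ y.1 from hxy) hζ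
  rw [h2.measure_iUnion]
  exact iSup_le fun x => x.2

lemma lintegral_exp_level (ν : Measure ℂ) {t : ℂ → ℝ} (ht : Measurable t)
    (h : ∀ᵐ w ∂ν, ν {ζ | t w ≤ t ζ} ≠ ∞) :
    ∫⁻ w, ENNReal.ofReal (Real.exp (-(ν {ζ | t w ≤ t ζ}).toReal)) ∂ν ≤ ENNReal.ofReal 4 := by
  let S : ℕ → Set ℂ := fun n => {w | ν {ζ | t w ≤ t ζ} ≤ ENNReal.ofReal (n + 1)}
  have hS : ∀ n, MeasurableSet (S n) := fun n => by
    have : IsUpperSet {x : ℝ | ν {ζ | x ≤ t ζ} ≤ ENNReal.ofReal (n + 1)} := fun x y hxy hx =>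
      le_trans (measure_mono fun ζ (hζ : y ≤ t ζ) => le_trans hxy hζ) hx
    exact ht this.ordConnected.measurableSet
  have hs : HasSum (fun n : ℕ => (1 / 2 : ℝ) ^ n * (n + 1)) 4 := by
    have h1 := hasSum_coe_mul_geometric_of_norm_lt_one (𝕜 := ℝ) (r := 1 / 2) (by norm_num)
    have h2 := h1.add hasSum_geometric_two
    have e1 : (fun n : ℕ => (1 / 2 : ℝ) ^ n * (n + 1)) =
      fun n : ℕ => (n : ℝ) * (1 / 2) ^ n + (1 / 2) ^ n := by ext n; ring
    have e2 : (4 : ℝ) = 1 / 2 / (1 - 1 / 2) ^ 2 + 2 := by norm_num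
    rw [e1, e2]
    exact h2
  calc _ ≤ ∫⁻ w, ∑' n, indicator (S n) (fun _ => ENNReal.ofReal ((1 / 2) ^ n)) w ∂ν := by
        refine lintegral_mono_ae ?_
        filter_upwards [h] with w hw
        set b := (ν {ζ | t w ≤ t ζ}).toReal
        refine le_trans ?_ (ENNReal.le_tsum ⌊b⌋₊)
        rw [indicator_of_mem]
        · apply ENNReal.ofReal_le_ofReal
          have h1 : Real.exp (-1) ≤ 1 / 2 := by
            rw [Real.exp_neg, one_div]
            exact inv_anti₀ two_pos (by linarith [Real.add_one_le_exp 1])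
          calc Real.exp (-b) ≤ Real.exp (⌊b⌋₊ * (-1)) := by
                apply Real.exp_le_exp.2
                have := Nat.floor_le (a := b) ENNReal.toReal_nonneg
                linarith
            _ ≤ _ := by rw [Real.exp_nat_mul]; gcongr
        · change ν {ζ | t w ≤ t ζ} ≤ _
          rw [← ENNReal.ofReal_toReal hw]
          exact ENNReal.ofReal_le_ofReal (Nat.lt_floor_add_one b).le
    _ = ∑' n, ENNReal.ofReal ((1 / 2) ^ n) * ν (S n) := by
        rw [lintegral_tsum fun n => (measurable_const.indicator (hS n)).aemeasurable]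
        simp only [lintegral_indicator_const (hS _)]
    _ ≤ ∑' n : ℕ, ENNReal.ofReal ((1 / 2) ^ n * (n + 1)) := by
        refine ENNReal.tsum_le_tsum fun n => ?_
        rw [ENNReal.ofReal_mul (by positivity)]
        exact mul_le_mul_right (level_le ν t _) _
    _ = _ := by
        rw [← ENNReal.ofReal_tsum_of_nonneg (fun n => by positivity) hs.summable, hs.tsum_eq]

/-- Absolute value version of the exponent. -/
noncomputable def MM (ν : Measure ℂ) (z w : ℂ) : ℝ := ∫ ζ, ‖ζ - w‖⁻¹ * ‖ζ - z‖⁻¹ ∂ν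

/-- Truncated diagonal exponent. -/
noncomputable def aa (ν : Measure ℂ) (z : ℂ) (r : ℝ) : ℝ :=
  ∫ ζ in {ζ | r ≤ ‖ζ - z‖}, (‖ζ - z‖ ^ 2)⁻¹ ∂ν

variable {ν μ ϱ : Measure ℂ}

lemma MM_comm (z w : ℂ) : MM ν z w = MM ν w z := by simp only [MM, mul_comm]

lemma MM_nonneg (z w : ℂ) : 0 ≤ MM ν z w := integral_nonneg fun _ => by positivity

lemma aa_nonneg (z : ℂ) (r : ℝ) : 0 ≤ aa ν z r := integral_nonneg fun _ => by positivity

lemma measurable_MM [SFinite ν] : Measurable fun x : ℂ × ℂ => MM ν x.1 x.2 := by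
  have : Measurable fun y : (ℂ × ℂ) × ℂ => ‖y.2 - y.1.2‖⁻¹ * ‖y.2 - y.1.1‖⁻¹ := by fun_prop
  exact (this.stronglyMeasurable.integral_prod_right' (ν := ν)).measurable

lemma measurable_aa [SFinite ν] : Measurable fun x : ℂ × ℝ => aa ν x.1 x.2 := by
  have h1 : MeasurableSet {y : (ℂ × ℝ) × ℂ | y.1.2 ≤ ‖y.2 - y.1.1‖} := by measurability
  have h2 : Measurable fun y : (ℂ × ℝ) × ℂ => (‖y.2 - y.1.1‖ ^ 2)⁻¹ := by fun_prop
  have := ((h2.indicator h1).stronglyMeasurable.integral_prod_right' (ν := ν)).measurable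
  convert this using 2 with x
  rw [aa, ← integral_indicator (by measurability)]
  rfl

lemma integrableOn_aa (hν : ν ≤ mD) (z : ℂ) {r : ℝ} (hr : 0 < r) :
    IntegrableOn (fun ζ => (‖ζ - z‖ ^ 2)⁻¹) {ζ | r ≤ ‖ζ - z‖} ν := by
  have := finite_of_le hν
  refine (integrable_const (r ^ 2)⁻¹).mono' (by fun_prop) ?_
  filter_upwards [ae_restrict_mem (by measurability)] with ζ (hζ : r ≤ ‖ζ - z‖)
  rw [Real.norm_of_nonneg (by positivity)]
  gcongr

lemma aa_mono {ν' : Measure ℂ} (h : ν ≤ ν') (hν : ν' ≤ mD) (z : ℂ) {r : ℝ} (hr : 0 < r) :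
    aa ν z r ≤ aa ν' z r :=
  integral_mono_measure (Measure.restrict_mono le_rfl h) (.of_forall fun _ => by positivity)
    (integrableOn_aa hν z hr)

lemma MM_le (hν : ν ≤ mD) {z w : ℂ} {r d : ℝ} (hr : 0 < r) (hd : 0 < d)
    (h : ∀ᵐ ζ ∂ν, d ≤ ‖ζ - z‖ ∨ d ≤ ‖ζ - w‖) :
    Integrable (fun ζ => ‖ζ - w‖⁻¹ * ‖ζ - z‖⁻¹) ν ∧
      MM ν z w ≤ (aa ν z r + aa ν w r) / 2 + 4 * r / d := by
  have hmm := hν.trans mD_le
  have m1 : ∀ z : ℂ, MeasurableSet {ζ : ℂ | r ≤ ‖ζ - z‖} := fun z => by measurability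
  have i1 : ∀ z, Integrable (indicator {ζ | r ≤ ‖ζ - z‖} fun ζ => (‖ζ - z‖ ^ 2)⁻¹) ν := fun z =>
    (integrable_indicator_iff (m1 z)).2 (integrableOn_aa hν z hr)
  have i2' : ∀ z, Integrable (indicator (ball z r) fun ζ => ‖ζ - z‖⁻¹) mm := fun z =>
    (integrable_indicator_iff measurableSet_ball).2 (newton_ball z hr.le).1
  have i2 : ∀ z, Integrable (indicator (ball z r) fun ζ => ‖ζ - z‖⁻¹) ν := fun z =>
    (i2' z).mono_measure hmm
  have j2 : ∀ z, ∫ ζ, indicator (ball z r) (fun ζ => ‖ζ - z‖⁻¹) ζ ∂ν ≤ 2 * r := fun z => by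
    rw [← (newton_ball z hr.le).2, ← integral_indicator measurableSet_ball]
    exact integral_mono_measure hmm
      (.of_forall fun ζ => indicator_nonneg (fun _ _ => by positivity) _) (i2' z)
  let F : ℂ → ℝ := fun ζ => (indicator {ζ | r ≤ ‖ζ - z‖} (fun ζ => (‖ζ - z‖ ^ 2)⁻¹) ζ +
    indicator {ζ | r ≤ ‖ζ - w‖} (fun ζ => (‖ζ - w‖ ^ 2)⁻¹) ζ) / 2 +
    (indicator (ball z r) (fun ζ => ‖ζ - z‖⁻¹) ζ + indicator (ball w r) (fun ζ => ‖ζ - w‖⁻¹) ζ) / d
  have a1 := ((i1 z).add (i1 w)).div_const 2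
  have a2 := ((i2 z).add (i2 w)).div_const d
  have hF : Integrable F ν := a1.add a2
  have hle : ∀ᵐ ζ ∂ν, ‖ζ - w‖⁻¹ * ‖ζ - z‖⁻¹ ≤ F ζ := by
    filter_upwards [h] with ζ hζ
    simp only [F, indicator, mem_ofPred_eq, mem_ball, dist_eq_norm]
    have ha := norm_nonneg (ζ - z)
    have hb := norm_nonneg (ζ - w)
    generalize ‖ζ - z‖ = a at *
    generalize ‖ζ - w‖ = b at *
    have key : ∀ a b : ℝ, 0 ≤ a → 0 ≤ b → d ≤ b → b⁻¹ * a⁻¹ ≤ a⁻¹ / d := fun a b ha hb h => by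
      rw [div_eq_inv_mul]; gcongr
    have anti : ∀ a b : ℝ, 0 ≤ a → a ≤ b → d ≤ a ∨ d ≤ b → b⁻¹ * a⁻¹ ≤ a⁻¹ / d :=
      fun a b ha hab h => key a b ha (ha.trans hab) (h.elim (fun h => h.trans hab) id)
    by_cases h1 : r ≤ a <;> by_cases h2 : r ≤ b
    · simp only [h1, h2, if_true, not_lt.2 h1, not_lt.2 h2, if_false, add_zero, zero_div,
        ← inv_pow]
      nlinarith [sq_nonneg (a⁻¹ - b⁻¹)]
    · have := anti b a hb (by linarith [not_le.1 h2]) hζ.symm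
      simp only [h1, h2, if_true, not_lt.2 h1, not_le.1 h2, if_false, add_zero, zero_add]
      rw [mul_comm]
      exact le_add_of_nonneg_of_le (by positivity) this
    · have := anti a b ha (by linarith [not_le.1 h1]) hζ
      simp only [h1, h2, if_true, not_lt.2 h2, not_le.1 h1, if_false, add_zero, zero_add]
      exact le_add_of_nonneg_of_le (by positivity) this
    · simp only [h1, h2, if_true, not_le.1 h2, not_le.1 h1, if_false, add_zero, zero_add,
        zero_div, add_div]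
      rcases le_total a b with h3 | h3
      · exact le_add_of_le_of_nonneg (anti a b ha h3 hζ) (by positivity)
      · rw [mul_comm]
        exact le_add_of_nonneg_of_le (by positivity) (anti b a hb h3 hζ.symm)
  have hi : Integrable (fun ζ => ‖ζ - w‖⁻¹ * ‖ζ - z‖⁻¹) ν := by
    refine hF.mono' (by fun_prop) ?_
    filter_upwards [hle] with ζ hζ
    rwa [Real.norm_of_nonneg (by positivity)]
  refine ⟨hi, (integral_mono_ae hi hF hle).trans ?_⟩
  refine (integral_add a1 a2).trans_le ?_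
  simp only [Pi.add_apply]
  rw [integral_div, integral_div, integral_add (i1 z) (i1 w), integral_add (i2 z) (i2 w),
    integral_indicator (m1 z), integral_indicator (m1 w)]
  gcongr
  · rfl
  · rfl
  · linarith [j2 z, j2 w]

lemma half_le_or (z w ζ : ℂ) : ‖z - w‖ / 2 ≤ ‖ζ - z‖ ∨ ‖z - w‖ / 2 ≤ ‖ζ - w‖ := by
  by_contra! h
  have := norm_sub_le_norm_sub_add_norm_sub z ζ w
  rw [norm_sub_rev z ζ] at this
  linarith [h.1, h.2]

lemma integrable_MM (hν : ν ≤ mD) {z w : ℂ} (h : z ≠ w) :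
    Integrable (fun ζ => ‖ζ - w‖⁻¹ * ‖ζ - z‖⁻¹) ν :=
  (MM_le hν one_pos (half_pos (norm_pos_iff.2 (sub_ne_zero.2 h)))
    (.of_forall (half_le_or z w))).1

lemma aa_split (hν : ν ≤ mD) (z : ℂ) {r s : ℝ} (hr : 0 < r) (hrs : r ≤ s) :
    aa ν z r = aa ν z s + ∫ ζ in {ζ | r ≤ ‖ζ - z‖ ∧ ‖ζ - z‖ < s}, (‖ζ - z‖ ^ 2)⁻¹ ∂ν := by
  rw [aa, aa, ← setIntegral_union _ (by measurability) (integrableOn_aa hν z (hr.trans_le hrs))
    ((integrableOn_aa hν z hr).mono_set fun ζ hζ => hζ.1)]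
  · congr 2
    ext ζ
    simp only [mem_ofPred_eq, mem_union]
    constructor
    · intro h
      rcases le_or_gt s ‖ζ - z‖ with h1 | h1
      · exact Or.inl h1
      · exact Or.inr ⟨h, h1⟩
    · rintro (h | h)
      · exact hrs.trans h
      · exact h.1
  · rw [Set.disjoint_left]
    exact fun ζ h1 h2 => absurd h2.2 (not_lt.2 h1)

lemma aa_scale (hν : ν ≤ mD) (z : ℂ) {r s : ℝ} (hr : 0 < r) (hrs : r ≤ s) :
    aa ν z r ≤ aa ν z s + ν.real (ball z s) / r ^ 2 := by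
  have := finite_of_le hν
  rw [aa_split hν z hr hrs]
  refine add_le_add le_rfl ?_
  refine (Real.le_norm_self _).trans ((norm_setIntegral_le_of_norm_le_const (C := (r ^ 2)⁻¹)
    (measure_lt_top _ _) fun ζ hζ => ?_).trans ?_)
  · rw [Real.norm_of_nonneg (by positivity)]
    have := hζ.1
    gcongr
  · rw [div_eq_inv_mul]
    refine mul_le_mul_of_nonneg_left (measureReal_mono fun ζ hζ => ?_) (by positivity)
    rw [mem_ball, dist_eq_norm]; exact hζ.2

lemma aa_le (hν : ν ≤ mD) (z : ℂ) {s : ℝ} (hs : 0 < s) : aa ν z s ≤ (s ^ 2)⁻¹ := by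
  have := finite_of_le hν
  rw [aa]
  refine (Real.le_norm_self _).trans ((norm_setIntegral_le_of_norm_le_const (C := (s ^ 2)⁻¹)
    (measure_lt_top _ _) fun ζ hζ => ?_).trans ?_)
  · rw [Real.norm_of_nonneg (by positivity)]
    have : s ≤ ‖ζ - z‖ := hζ
    gcongr
  · refine mul_le_of_le_one_right (by positivity) ?_
    refine ENNReal.toReal_le_of_le_ofReal zero_le_one ((hν _).trans ?_)
    rw [ENNReal.ofReal_one, ← mD_univ]
    exact measure_mono (subset_univ _)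

/-- A splitting of area measure on the disc; `μ` lives in the disc of radius one half. -/
structure Pair (μ ϱ : Measure ℂ) : Prop where
  sum : μ + ϱ = mD
  supp : μ ≤ mm.restrict (ball 0 (1 / 2))

lemma Pair.μ_le (h : Pair μ ϱ) : μ ≤ mD := h.sum ▸ Measure.le_add_right le_rfl

lemma Pair.ϱ_le (h : Pair μ ϱ) : ϱ ≤ mD := h.sum ▸ Measure.le_add_left le_rfl

lemma Pair.ae_half (h : Pair μ ϱ) : ∀ᵐ z ∂μ, ‖z‖ < 1 / 2 := by
  filter_upwards [(Measure.absolutelyContinuous_of_le h.supp).ae_le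
    (ae_restrict_mem measurableSet_ball)] with z hz
  exact mem_ball_zero_iff.1 hz

lemma Pair.exp_aa_le (h : Pair μ ϱ) (z : ℂ) {r s : ℝ} (hr : 0 < r) (hrs : r ≤ s) :
    Real.exp (aa ϱ z r) ≤ Real.exp (aa ϱ z s) * s ^ 2 * (r ^ 2)⁻¹ *
      Real.exp (-∫ ζ in {ζ | r ≤ ‖ζ - z‖ ∧ ‖ζ - z‖ < s}, (‖ζ - z‖ ^ 2)⁻¹ ∂μ) := by
  obtain ⟨l1, l2⟩ := log_annulus z hr hrs
  have i1 : ∀ ν ≤ mD, IntegrableOn (fun ζ => (‖ζ - z‖ ^ 2)⁻¹)
      {ζ | r ≤ ‖ζ - z‖ ∧ ‖ζ - z‖ < s} ν := fun ν hν => l1.mono_measure (hν.trans mD_le)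
  have e : ∫ ζ in {ζ | r ≤ ‖ζ - z‖ ∧ ‖ζ - z‖ < s}, (‖ζ - z‖ ^ 2)⁻¹ ∂μ +
      ∫ ζ in {ζ | r ≤ ‖ζ - z‖ ∧ ‖ζ - z‖ < s}, (‖ζ - z‖ ^ 2)⁻¹ ∂ϱ ≤ 2 * Real.log (s / r) := by
    rw [← integral_add_measure (i1 μ h.μ_le) (i1 ϱ h.ϱ_le), ← Measure.restrict_add, h.sum, ← l2]
    exact integral_mono_measure (Measure.restrict_mono le_rfl mD_le)
      (.of_forall fun _ => by positivity) l1
  have e2 : s ^ 2 * (r ^ 2)⁻¹ = Real.exp (2 * Real.log (s / r)) := by
    have : 0 < s / r := div_pos (hr.trans_le hrs) hr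
    rw [two_mul, Real.exp_add, Real.exp_log this]
    ring
  rw [mul_assoc (Real.exp _), e2, ← Real.exp_add, ← Real.exp_add, Real.exp_le_exp,
    aa_split h.ϱ_le z hr hrs]
  linarith

lemma Pair.schur (h : Pair μ ϱ) (z : ℂ) {s : ℝ} (hs : 0 < s) :
    ∫⁻ w in ball z s, ENNReal.ofReal (Real.exp (aa ϱ z ‖w - z‖)) ∂μ ≤
      ENNReal.ofReal (Real.exp (aa ϱ z s) * s ^ 2 * 4) := by
  set ν := (μ.restrict (ball z s)).withDensity fun ζ => ENNReal.ofReal (‖ζ - z‖ ^ 2)⁻¹ with hν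
  have hm : Measurable fun ζ : ℂ => ENNReal.ofReal (‖ζ - z‖ ^ 2)⁻¹ := by fun_prop
  have e : ∀ w, w ≠ z → ν {ζ | ‖w - z‖ ≤ ‖ζ - z‖} = ENNReal.ofReal
      (∫ ζ in {ζ | ‖w - z‖ ≤ ‖ζ - z‖ ∧ ‖ζ - z‖ < s}, (‖ζ - z‖ ^ 2)⁻¹ ∂μ) := by
    intro w hw
    have hr : 0 < ‖w - z‖ := norm_pos_iff.2 (sub_ne_zero.2 hw)
    rw [ofReal_integral_eq_lintegral_ofReal
      ((integrableOn_aa h.μ_le z hr).mono_set fun ζ hζ => hζ.1) (.of_forall fun _ => by positivity),
      hν, withDensity_apply _ (by measurability), Measure.restrict_restrict (by measurability)]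
    congr 2
    ext ζ
    simp [mem_ball, dist_eq_norm]
  have hne : ∀ᵐ w ∂μ.restrict (ball z s), w ≠ z :=
    ae_ne_of_le (Measure.restrict_le_self.trans (h.μ_le.trans mD_le)) z
  have key := lintegral_exp_level ν (t := fun ζ => ‖ζ - z‖) (by fun_prop) (by
    filter_upwards [(withDensity_absolutelyContinuous _ _).ae_le hne] with w hw
    rw [e w hw]; exact ENNReal.ofReal_ne_top)
  rw [ENNReal.ofReal_mul (by positivity)]
  refine le_trans ?_ (mul_le_mul_right key _)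
  rw [← lintegral_const_mul' _ _ ENNReal.ofReal_ne_top]
  conv_rhs => rw [hν, lintegral_withDensity_eq_lintegral_mul_non_measurable _ hm (by simp), ← hν]
  refine lintegral_mono_ae ?_
  filter_upwards [hne, ae_restrict_mem measurableSet_ball] with w hw hw2
  have hr : 0 < ‖w - z‖ := norm_pos_iff.2 (sub_ne_zero.2 hw)
  rw [mem_ball, dist_eq_norm] at hw2
  simp only [Pi.mul_apply]
  rw [e w hw, ENNReal.toReal_ofReal (integral_nonneg fun _ => by positivity),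
    ← ENNReal.ofReal_mul (by positivity), ← ENNReal.ofReal_mul (by positivity)]
  apply ENNReal.ofReal_le_ofReal
  refine (h.exp_aa_le z hr hw2.le).trans (le_of_eq ?_)
  ring

lemma Pair.energy_lintegral (h : Pair μ ϱ) {B : Set ℂ} (hB : MeasurableSet B) {s ω : ℝ}
    (hs : 0 < s) (hd : ∀ z ∈ B, ∀ w ∈ B, ‖w - z‖ < s) (hω : ∀ z ∈ B, Real.exp (aa ϱ z s) ≤ ω) :
    ∫⁻ x : ℂ × ℂ, ENNReal.ofReal (Real.exp (MM ϱ x.1 x.2)) ∂(μ.restrict B).prod (μ.restrict B) ≤
      ENNReal.ofReal (Real.exp 8 * (ω * s ^ 2 * 4)) * μ B := by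
  have := finite_of_le h.μ_le
  have := finite_of_le h.ϱ_le
  have hle : μ.restrict B ≤ mD := Measure.restrict_le_self.trans h.μ_le
  let G : ℂ × ℂ → ℝ≥0∞ := fun x => ENNReal.ofReal (Real.exp (aa ϱ x.1 ‖x.2 - x.1‖))
  have hG : Measurable G := by
    have : Measurable fun x : ℂ × ℂ => aa ϱ x.1 ‖x.2 - x.1‖ :=
      measurable_aa.comp (f := fun x : ℂ × ℂ => (x.1, ‖x.2 - x.1‖)) (by fun_prop)
    fun_prop
  have b1 : ∫⁻ x, G x ∂(μ.restrict B).prod (μ.restrict B) ≤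
      ENNReal.ofReal (ω * s ^ 2 * 4) * μ B := by
    rw [lintegral_prod _ hG.aemeasurable, ← setLIntegral_const]
    refine setLIntegral_mono' hB fun z hz => ?_
    refine le_trans (lintegral_mono_set fun w hw => ?_) ((h.schur z hs).trans ?_)
    · rw [mem_ball, dist_eq_norm]; exact hd z hz w hw
    · apply ENNReal.ofReal_le_ofReal
      have := hω z hz
      gcongr
  have b2 : ∫⁻ x, G x.swap ∂(μ.restrict B).prod (μ.restrict B) ≤
      ENNReal.ofReal (ω * s ^ 2 * 4) * μ B := by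
    rwa [lintegral_prod_swap]
  calc _ ≤ ∫⁻ x, ENNReal.ofReal (Real.exp 8 / 2) * (G x + G x.swap)
        ∂(μ.restrict B).prod (μ.restrict B) := by
        refine lintegral_mono_ae ?_
        filter_upwards [ae_ne_prod hle hle] with x hx
        have hr : 0 < ‖x.1 - x.2‖ := norm_pos_iff.2 (sub_ne_zero.2 hx)
        have h1 := (MM_le h.ϱ_le hr (half_pos hr) (.of_forall (half_le_or x.1 x.2))).2
        simp only [G, Prod.fst_swap, Prod.snd_swap]
        rw [← ENNReal.ofReal_add (by positivity) (by positivity),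
          ← ENNReal.ofReal_mul (by positivity), norm_sub_rev x.2]
        apply ENNReal.ofReal_le_ofReal
        have e : 4 * ‖x.1 - x.2‖ / (‖x.1 - x.2‖ / 2) = 8 := by field_simp; norm_num
        rw [e] at h1
        refine (Real.exp_le_exp.2 h1).trans ?_
        generalize aa ϱ x.1 ‖x.1 - x.2‖ = a
        generalize aa ϱ x.2 ‖x.1 - x.2‖ = b
        have ea : Real.exp a = Real.exp (a / 2) ^ 2 := by rw [← Real.exp_nat_mul]; congr 1; push_cast; ring
        have eb : Real.exp b = Real.exp (b / 2) ^ 2 := by rw [← Real.exp_nat_mul]; congr 1; push_cast; ring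
        rw [Real.exp_add, add_div, Real.exp_add, ea, eb]
        nlinarith [mul_nonneg (Real.exp_pos 8).le (sq_nonneg (Real.exp (a / 2) - Real.exp (b / 2)))]
    _ ≤ ENNReal.ofReal (Real.exp 8 / 2) * (ENNReal.ofReal (ω * s ^ 2 * 4) * μ B +
        ENNReal.ofReal (ω * s ^ 2 * 4) * μ B) := by
        rw [lintegral_const_mul' _ _ ENNReal.ofReal_ne_top, lintegral_add_left hG]
        gcongr
    _ = _ := by
        rw [← two_mul, ← mul_assoc, ← mul_assoc, ← ENNReal.ofReal_ofNat 2,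
          ← ENNReal.ofReal_mul (by positivity), ← ENNReal.ofReal_mul (by positivity)]
        congr 2
        ring

lemma Pair.integrable_expM (h : Pair μ ϱ) :
    Integrable (fun x : ℂ × ℂ => Real.exp (MM ϱ x.1 x.2)) (μ.prod μ) := by
  have := finite_of_le h.μ_le
  have := finite_of_le h.ϱ_le
  have h1 := h.energy_lintegral (B := ball 0 (1 / 2)) measurableSet_ball (ω := Real.exp 1) one_pos
    (fun z hz w hw => by
      rw [mem_ball_zero_iff] at hz hw
      linarith [norm_sub_le w z])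
    (fun z _ => Real.exp_le_exp.2 (by simpa using aa_le h.ϱ_le z one_pos))
  rw [Measure.restrict_eq_self_of_ae_mem (by
    filter_upwards [h.ae_half] with z hz using mem_ball_zero_iff.2 hz)] at h1
  refine ⟨measurable_MM.exp.aestronglyMeasurable, ?_⟩
  rw [hasFiniteIntegral_iff_ofReal (.of_forall fun _ => (Real.exp_pos _).le)]
  exact lt_of_le_of_lt h1 (ENNReal.mul_lt_top ENNReal.ofReal_lt_top (measure_lt_top _ _))

end Pool.Agent.Lib.MP_45cb44_an
end

-- part Pool.Agent.Lib.MP_45cb44_an.Disc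
section

/-! The Cauchy transform of a disc. -/

namespace Pool.Agent.Lib.MP_45cb44_an

open MeasureTheory Metric Set Filter Topology Real
open scoped ENNReal NNReal ComplexConjugate

lemma integral_polar {f : ℂ → ℂ} (hm : Measurable f) (hf : Integrable f mm) :
    ∫ z, f z ∂mm = ∫ r in Ioi (0 : ℝ), (2 * r) • circleAverage f 0 r := by
  have hpi : (NNReal.pi⁻¹ : ℝ≥0) ≠ 0 := inv_ne_zero NNReal.pi_ne_zero
  have hf' : Integrable f volume := by
    rw [mm, ENNReal.smul_def] at hf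
    exact (integrable_smul_measure (by exact_mod_cast hpi) ENNReal.coe_ne_top).1 hf
  have e0 : ∀ p : ℝ × ℝ, Complex.polarCoord.symm p = circleMap 0 p.1 p.2 := by
    intro p
    rw [Complex.polarCoord_symm_apply, circleMap, Complex.exp_mul_I]
    simp
  have hmeas : Measurable fun p : ℝ × ℝ => p.1 • f (circleMap 0 p.1 p.2) := by
    have : Continuous fun p : ℝ × ℝ => circleMap 0 p.1 p.2 := by fun_prop
    exact measurable_fst.smul (hm.comp this.measurable)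
  have hi : IntegrableOn (fun p : ℝ × ℝ => p.1 • f (circleMap 0 p.1 p.2))
      (Ioi 0 ×ˢ Ioo (-π) π) := by
    refine ⟨hmeas.aestronglyMeasurable, ?_⟩
    have h1 := Complex.lintegral_comp_polarCoord_symm (fun z => ‖f z‖ₑ)
    have h2 := hf'.2
    rw [hasFiniteIntegral_iff_enorm] at h2 ⊢
    rw [← h1, polarCoord_target] at h2
    refine lt_of_eq_of_lt ?_ h2
    refine setLIntegral_congr_fun (measurableSet_Ioi.prod measurableSet_Ioo) fun p hp => ?_
    have : 0 < p.1 := hp.1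
    simp only [e0, enorm_smul, smul_eq_mul]
    rw [Real.enorm_of_nonneg this.le]
  rw [mm, integral_smul_nnreal_measure, ← Complex.integral_comp_polarCoord_symm, polarCoord_target]
  simp only [e0]
  rw [Measure.volume_eq_prod, setIntegral_prod _ (by simpa [Measure.volume_eq_prod] using hi),
    NNReal.smul_def, ← integral_smul]
  refine setIntegral_congr_fun measurableSet_Ioi fun r _ => ?_
  simp only
  rw [circleAverage_eq_integral_add (-π),
    intervalIntegral.integral_comp_add_right (fun θ => f (circleMap 0 r θ)),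
    intervalIntegral.integral_of_le (by linarith [pi_pos]), integral_Ioc_eq_integral_Ioo,
    integral_smul, smul_smul, smul_smul]
  congr 1
  · simp only [NNReal.coe_inv, NNReal.coe_real_pi]
    field_simp
  · congr 3 <;> ring

lemma avg_inv_sub_in {z : ℂ} {y : ℝ} (hy : 0 < y) (h : y < ‖z‖) :
    circleAverage (fun ζ => (ζ - z)⁻¹) 0 y = -z⁻¹ := by
  rw [DiffContOnCl.circleAverage]
  · simp
  · apply DifferentiableOn.diffContOnCl
    rw [abs_of_pos hy, closure_ball _ hy.ne']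
    intro ζ hζ
    refine ((differentiableAt_id.sub_const z).inv ?_).differentiableWithinAt
    rw [mem_closedBall_zero_iff] at hζ
    intro h0
    have : ζ = z := sub_eq_zero.1 h0
    rw [this] at hζ
    linarith

lemma avg_inv_sub_out {z : ℂ} {y : ℝ} (h : ‖z‖ < y) :
    circleAverage (fun ζ => (ζ - z)⁻¹) 0 y = 0 := by
  have hy : 0 < y := lt_of_le_of_lt (norm_nonneg _) h
  have hne : ∀ ζ ∈ closedBall (0 : ℂ) y, (y : ℂ) ^ 2 - conj z * ζ ≠ 0 := by
    intro ζ hζ h0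
    rw [mem_closedBall_zero_iff] at hζ
    have h1 : ‖(y : ℂ) ^ 2‖ = ‖conj z * ζ‖ := by rw [sub_eq_zero.1 h0]
    rw [norm_pow, norm_mul, Complex.norm_conj, Complex.norm_real, Real.norm_of_nonneg hy.le] at h1
    nlinarith [norm_nonneg z, norm_nonneg ζ]
  have hd : DifferentiableOn ℂ (fun ζ : ℂ => ζ / ((y : ℂ) ^ 2 - conj z * ζ)) (closedBall 0 y) := by
    intro ζ hζ
    have : DifferentiableAt ℂ (fun ζ : ℂ => (y : ℂ) ^ 2 - conj z * ζ) ζ := by fun_prop
    exact (differentiableAt_id.div this (hne ζ hζ)).differentiableWithinAt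
  have h1 : circleAverage (fun ζ : ℂ => ζ / ((y : ℂ) ^ 2 - conj z * ζ)) 0 y = 0 := by
    rw [DiffContOnCl.circleAverage]
    · simp
    · apply DifferentiableOn.diffContOnCl
      rwa [abs_of_pos hy, closure_ball _ hy.ne']
  have h2 := Complex.conjCLE.toContinuousLinearMap.circleAverage_comp_comm
    (f := fun ζ : ℂ => ζ / ((y : ℂ) ^ 2 - conj z * ζ)) (c := 0) (R := y)
    ((hd.continuousOn.mono sphere_subset_closedBall).circleIntegrable hy.le)
  rw [h1, map_zero] at h2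
  refine Eq.trans ?_ h2
  apply circleAverage_congr_sphere
  intro ζ hζ
  rw [abs_of_pos hy, mem_sphere_zero_iff_norm] at hζ
  have h3 : (y : ℂ) ^ 2 = ζ * conj ζ := by
    rw [Complex.mul_conj, Complex.normSq_eq_norm_sq, hζ]; simp
  have h4 : conj ζ ≠ 0 := by
    rw [map_ne_zero, ← norm_pos_iff, hζ]; exact hy
  have h5 : ζ - z ≠ 0 := by
    intro h0
    rw [sub_eq_zero.1 h0] at hζ
    linarith
  simp only [Function.comp_apply, ContinuousLinearEquiv.coe_coe, Complex.conjCLE_apply, map_div₀,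
    map_sub, map_pow, Complex.conj_ofReal, map_mul, Complex.conj_conj]
  rw [h3]
  have : ζ * conj ζ - z * conj ζ = (ζ - z) * conj ζ := by ring
  rw [this]
  field_simp

lemma integral_disc_zero (z : ℂ) {r : ℝ} (hr : 0 < r) :
    ∫ ζ in ball 0 r, (ζ - z)⁻¹ ∂mm = -z⁻¹ * ((min r ‖z‖ : ℝ) : ℂ) ^ 2 := by
  have hi : Integrable (fun ζ => (ζ - z)⁻¹) (mm.restrict (ball 0 r)) := by
    refine (newton_le Measure.restrict_le_self hr (by simp [mm_ball 0 hr.le]) z).1.mono'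
      (by fun_prop) (.of_forall fun ζ => by simp)
  have hm0 : 0 ≤ min r ‖z‖ := le_min hr.le (norm_nonneg _)
  rw [← integral_indicator measurableSet_ball, integral_polar
    ((by fun_prop : Measurable fun ζ : ℂ => (ζ - z)⁻¹).indicator measurableSet_ball)
    ((integrable_indicator_iff measurableSet_ball).2 hi)]
  have e : ∀ᵐ y : ℝ, y ∈ Ioi (0 : ℝ) →
      (2 * y) • circleAverage (indicator (ball 0 r) fun ζ => (ζ - z)⁻¹) 0 y =
      indicator (Ioo 0 (min r ‖z‖)) (fun y : ℝ => ((2 * y : ℝ) : ℂ) * -z⁻¹) y := by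
    filter_upwards [compl_mem_ae_iff.2 (measure_singleton ‖z‖)] with y hy hy0
    have hy0 : 0 < y := hy0
    have hy : y ≠ ‖z‖ := hy
    by_cases h1 : y < r
    · have : circleAverage (indicator (ball 0 r) fun ζ => (ζ - z)⁻¹) 0 y =
          circleAverage (fun ζ => (ζ - z)⁻¹) 0 y := by
        apply circleAverage_congr_sphere
        intro ζ hζ
        rw [abs_of_pos hy0, mem_sphere_zero_iff_norm] at hζ
        exact indicator_of_mem (by rw [mem_ball_zero_iff, hζ]; exact h1) _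
      rw [this]
      rcases lt_or_gt_of_ne hy with h2 | h2
      · rw [avg_inv_sub_in hy0 h2, indicator_of_mem (show y ∈ Ioo 0 (min r ‖z‖) from
          ⟨hy0, lt_min h1 h2⟩), Complex.real_smul]
      · rw [avg_inv_sub_out h2, indicator_of_notMem, smul_zero]
        exact fun h => absurd (h.2.trans_le (min_le_right _ _)) (not_lt.2 h2.le)
    · rw [indicator_of_notMem (fun h => h1 (h.2.trans_le (min_le_left _ _))),
        circleAverage_const_on_circle (a := 0), smul_zero]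
      intro ζ hζ
      rw [abs_of_pos hy0, mem_sphere_zero_iff_norm] at hζ
      exact indicator_of_notMem (by rw [mem_ball_zero_iff, hζ]; exact h1) _
  rw [setIntegral_congr_ae measurableSet_Ioi e, setIntegral_indicator measurableSet_Ioo,
    inter_eq_right.2 Ioo_subset_Ioi_self, integral_mul_const, integral_complex_ofReal,
    ← integral_Ioc_eq_integral_Ioo, ← intervalIntegral.integral_of_le hm0,
    intervalIntegral.integral_const_mul, integral_id]
  push_cast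
  ring

lemma integral_disc (c z : ℂ) {r : ℝ} (hr : 0 < r) :
    ∫ ζ in ball c r, (ζ - z)⁻¹ ∂mm = -(z - c)⁻¹ * ((min r ‖z - c‖ : ℝ) : ℂ) ^ 2 := by
  rw [← integral_disc_zero (z - c) hr, ← integral_indicator measurableSet_ball,
    ← integral_indicator measurableSet_ball,
    ← integral_sub_right_eq_self (indicator (ball 0 r) fun ζ => (ζ - (z - c))⁻¹) c]
  congr 1
  ext ζ
  simp [indicator, mem_ball, dist_eq_norm]

lemma integral_disc_in {c z : ℂ} {r : ℝ} (h : ‖z - c‖ < r) :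
    ∫ ζ in ball c r, (ζ - z)⁻¹ ∂mm = -conj (z - c) := by
  rw [integral_disc c z (lt_of_le_of_lt (norm_nonneg _) h), min_eq_right h.le]
  by_cases h0 : z - c = 0
  · simp [h0]
  · rw [← Complex.ofReal_pow, ← Complex.normSq_eq_norm_sq, ← Complex.mul_conj]
    field_simp

lemma integral_disc_out {c z : ℂ} {r : ℝ} (hr : 0 < r) (h : r ≤ ‖z - c‖) :
    ∫ ζ in ball c r, (ζ - z)⁻¹ ∂mm = -(r : ℂ) ^ 2 / (z - c) := by
  rw [integral_disc c z hr, min_eq_left h]
  ring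

lemma CT_one_in {z : ℂ} (h : ‖z‖ < 1) : CT mD (fun _ => 1) z = -conj z := by
  have := integral_disc_in (c := 0) (z := z) (r := 1) (by simpa using h)
  simpa [CT, mD] using this

lemma CT_one_out {z : ℂ} (h : 1 ≤ ‖z‖) : CT mD (fun _ => 1) z = -z⁻¹ := by
  have := integral_disc_out (c := 0) (z := z) one_pos (by simpa using h)
  simpa [CT, mD, div_eq_mul_inv] using this

end Pool.Agent.Lib.MP_45cb44_an
end

-- part Pool.Agent.Lib.MP_45cb44_an.Ident
section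

/-! Integral identities for the exponential kernel. -/

namespace Pool.Agent.Lib.MP_45cb44_an

open MeasureTheory Metric Set Filter Topology
open scoped ENNReal NNReal Real ComplexConjugate

/-- The exponent. -/
noncomputable def AA (ν : Measure ℂ) (z w : ℂ) : ℂ := CT ν (fun ζ => (conj (ζ - w))⁻¹) z

/-- The kernel of the model. -/
noncomputable def HH (ν : Measure ℂ) (z w : ℂ) : ℂ := (1 - z * conj w)⁻¹ * Complex.exp (AA ν z w)

variable {ν μ ϱ : Measure ℂ}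

lemma norm_AA_le (z w : ℂ) : ‖AA ν z w‖ ≤ MM ν z w := by
  refine (norm_integral_le_integral_norm _).trans (le_of_eq ?_)
  simp only [MM, norm_mul, norm_inv, Complex.norm_conj]

lemma conj_AA (z w : ℂ) : conj (AA ν z w) = AA ν w z := by
  rw [AA, CT, ← integral_conj, AA, CT]
  simp [mul_comm]

lemma conj_HH (z w : ℂ) : conj (HH ν z w) = HH ν w z := by
  rw [HH, HH, map_mul, ← Complex.exp_conj, conj_AA]
  simp [mul_comm]

lemma measurable_AA [SFinite ν] : Measurable fun x : ℂ × ℂ => AA ν x.1 x.2 := by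
  have : Measurable fun y : (ℂ × ℂ) × ℂ => (conj (y.2 - y.1.2))⁻¹ * (y.2 - y.1.1)⁻¹ :=
    (Complex.continuous_conj.measurable.comp (by fun_prop)).inv.mul (by fun_prop)
  exact (this.stronglyMeasurable.integral_prod_right' (ν := ν)).measurable

lemma measurable_HH [SFinite ν] : Measurable fun x : ℂ × ℂ => HH ν x.1 x.2 :=
  (measurable_const.sub (measurable_fst.mul
    (Complex.continuous_conj.measurable.comp measurable_snd))).inv.mul measurable_AA.cexp

lemma norm_exp_AA_le (z w : ℂ) : ‖Complex.exp (AA ν z w)‖ ≤ Real.exp (MM ν z w) :=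
  (Complex.norm_exp_le_exp_norm _).trans (Real.exp_le_exp.2 (norm_AA_le z w))

lemma half_le_norm {z w : ℂ} (hz : ‖z‖ ≤ 1) (hw : ‖w‖ ≤ 1 / 2) : 1 / 2 ≤ ‖1 - z * conj w‖ := by
  have := norm_sub_norm_le 1 (z * conj w)
  rw [norm_one, norm_mul, Complex.norm_conj] at this
  nlinarith [norm_nonneg z, norm_nonneg w]

lemma norm_inv_le_two {z w : ℂ} (hz : ‖z‖ ≤ 1) (hw : ‖w‖ ≤ 1 / 2) :
    ‖(1 - z * conj w)⁻¹‖ ≤ 2 := by
  rw [norm_inv]
  exact inv_le_of_inv_le₀ two_pos (by simpa using half_le_norm hz hw)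

lemma norm_HH_le {z w : ℂ} (hz : ‖z‖ ≤ 1) (hw : ‖w‖ ≤ 1 / 2) :
    ‖HH ν z w‖ ≤ 2 * Real.exp (MM ν z w) := by
  rw [HH, norm_mul]
  exact mul_le_mul (norm_inv_le_two hz hw) (norm_exp_AA_le z w) (norm_nonneg _) zero_le_two

lemma bd_szego {w : ℂ} (hw : ‖w‖ ≤ 1 / 2) : Bd fun ζ => (1 - ζ * conj w)⁻¹ :=
  .of_bound (by fun_prop) 2 fun _ h => norm_inv_le_two (mem_ball_zero_iff.1 h).le hw

lemma integral_szego {w : ℂ} (hw : ‖w‖ ≤ 1 / 2) : ∫ ζ, (1 - ζ * conj w)⁻¹ ∂mD = 1 := by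
  by_cases h0 : w = 0
  · simp [h0, Measure.real, mD_univ]
  · have h1 : conj w ≠ 0 := by simpa using h0
    have h2 : 1 ≤ ‖(conj w)⁻¹‖ := by
      rw [norm_inv, Complex.norm_conj]
      exact (one_le_inv₀ (norm_pos_iff.2 h0)).2 (by linarith)
    have h3 := CT_one_out h2
    have e : (fun ζ => (1 - ζ * conj w)⁻¹) = fun ζ => -(conj w)⁻¹ * (1 * (ζ - (conj w)⁻¹)⁻¹) := by
      ext ζ
      rw [one_mul, ← inv_neg, ← mul_inv]
      congr 1
      field_simp
      ring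
    rw [e, integral_const_mul, ← CT, h3]
    field_simp

lemma CT_szego {w z : ℂ} (hw : ‖w‖ ≤ 1 / 2) (hz : 1 - z * conj w ≠ 0) :
    CT mD (fun ζ => (1 - ζ * conj w)⁻¹) z =
      (1 - z * conj w)⁻¹ * (CT mD (fun _ => 1) z + conj w) := by
  have e : conj w = ∫ ζ, conj w * (1 - ζ * conj w)⁻¹ ∂mD := by
    rw [integral_const_mul, integral_szego hw, mul_one]
  conv_rhs => rw [e]
  rw [CT, CT, ← integral_add ((Bd.const 1).integrable_ker le_rfl z)
    (((bd_szego hw).integrable le_rfl).const_mul _), ← e, ← integral_const_mul]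
  apply integral_congr_ae
  filter_upwards [ae_ball_of_le le_rfl, ae_ne_of_le mD_le z] with ζ h1 h2
  have h3 : 1 - ζ * conj w ≠ 0 :=
    norm_pos_iff.1 (lt_of_lt_of_le (by norm_num) (half_le_norm (mem_ball_zero_iff.1 h1).le hw))
  have h4 : ζ - z ≠ 0 := sub_ne_zero.2 h2
  generalize conj w = c at *
  have h5 : 1 - c * z ≠ 0 := by rwa [mul_comm]
  have h6 : 1 - c * ζ ≠ 0 := by rwa [mul_comm]
  simp only [mul_comm _ c]
  field_simp
  ring

lemma CT_szego_in {w z : ℂ} (hw : ‖w‖ ≤ 1 / 2) (hz : ‖z‖ < 1) :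
    CT mD (fun ζ => (1 - ζ * conj w)⁻¹) z = -(conj (z - w) * (1 - z * conj w)⁻¹) := by
  rw [CT_szego hw (norm_pos_iff.1 (lt_of_lt_of_le (by norm_num) (half_le_norm hz.le hw))),
    CT_one_in hz, map_sub]
  ring

lemma CT_szego_out {w z : ℂ} (hw : ‖w‖ ≤ 1 / 2) (hz : 1 ≤ ‖z‖) (h : 1 - z * conj w ≠ 0) :
    CT mD (fun ζ => (1 - ζ * conj w)⁻¹) z = -z⁻¹ := by
  rw [CT_szego hw h, CT_one_out hz]
  have : z ≠ 0 := norm_pos_iff.1 (lt_of_lt_of_le one_pos hz)
  field_simp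
  ring

/-- Truncated conjugate Cauchy kernel. -/
noncomputable def qq (w : ℂ) (ε : ℝ) : ℂ → ℂ :=
  indicator (closedBall w ε)ᶜ fun ζ => (conj (ζ - w))⁻¹

lemma bd_qq (w : ℂ) {ε : ℝ} (hε : 0 < ε) : Bd (qq w ε) := by
  refine .of_bound ((Complex.continuous_conj.measurable.comp (by fun_prop)).inv.indicator
    measurableSet_closedBall.compl) ε⁻¹ fun ζ _ => ?_
  by_cases h : ζ ∈ (closedBall w ε)ᶜ
  · rw [qq, indicator_of_mem h, norm_inv, Complex.norm_conj]
    rw [mem_compl_iff, mem_closedBall, dist_eq_norm, not_le] at h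
    exact inv_anti₀ hε h.le
  · rw [qq, indicator_of_notMem h, norm_zero]; positivity

/-- Truncated kernel. -/
noncomputable def He (ν : Measure ℂ) (w : ℂ) (ε : ℝ) (ζ : ℂ) : ℂ :=
  (1 - ζ * conj w)⁻¹ * Complex.exp (CT ν (qq w ε) ζ)

lemma bd_He (hν : ν ≤ mD) {w : ℂ} (hw : ‖w‖ ≤ 1 / 2) {ε : ℝ} (hε : 0 < ε) : Bd (He ν w ε) :=
  (bd_szego hw).mul ((bd_qq w hε).CT hν).exp

lemma qq_mul {w : ℂ} (hw : ‖w‖ ≤ 1 / 2) {ε : ℝ} (hε : 0 < ε) :
    ∀ ζ ∈ ball (0 : ℂ) 1, qq w ε ζ * Complex.exp (CT ν (qq w ε) ζ) *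
      CT mD (fun ζ => (1 - ζ * conj w)⁻¹) ζ =
      indicator (closedBall w ε) (He ν w ε) ζ - He ν w ε ζ := by
  intro ζ hζ
  rw [CT_szego_in hw (mem_ball_zero_iff.1 hζ)]
  by_cases h : ζ ∈ closedBall w ε
  · rw [indicator_of_mem h, show qq w ε ζ = 0 from indicator_of_notMem (by simpa using h) _]
    simp
  · rw [indicator_of_notMem h, show qq w ε ζ = (conj (ζ - w))⁻¹ from indicator_of_mem h _, He]
    have : conj (ζ - w) ≠ 0 := by
      rw [map_ne_zero, sub_ne_zero]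
      rintro rfl
      exact h (mem_closedBall_self hε.le)
    field_simp
    ring

lemma Pair.trunc_CT (h : Pair μ ϱ) {w : ℂ} (hw : ‖w‖ ≤ 1 / 2) {ε : ℝ} (hε : 0 < ε) (z : ℂ) :
    CT mD (fun ζ => (1 - ζ * conj w)⁻¹) z * Complex.exp (CT ϱ (qq w ε) z) =
      CT μ (He ϱ w ε) z + CT ϱ (indicator (closedBall w ε) (He ϱ w ε)) z := by
  have hq := bd_qq w hε
  have hp := bd_szego hw
  have hqe := hq.mul (hq.CT h.ϱ_le).exp
  have hH := bd_He h.ϱ_le hw hε
  rw [CT_exp h.ϱ_le hq, mul_add, mul_one, CT_mul le_rfl h.ϱ_le hp hqe, ← add_assoc,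
    ← CT_add le_rfl hp (hp.mul (hqe.CT h.ϱ_le)), CT_congr h.ϱ_le (qq_mul hw hε),
    CT_sub h.ϱ_le (hH.indicator measurableSet_closedBall) hH,
    CT_congr (q := He ϱ w ε) le_rfl, ← h.sum, CT_add_measure h.μ_le h.ϱ_le hH]
  · ring
  · intro ζ _
    rw [He, CT_exp h.ϱ_le hq]
    ring

lemma Pair.trunc_one (h : Pair μ ϱ) {w : ℂ} (hw : ‖w‖ ≤ 1 / 2) {ε : ℝ} (hε : 0 < ε) :
    1 = ∫ ζ, He ϱ w ε ζ ∂μ + ∫ ζ, indicator (closedBall w ε) (He ϱ w ε) ζ ∂ϱ := by
  have hq := bd_qq w hε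
  have hp := bd_szego hw
  have hqe := hq.mul (hq.CT h.ϱ_le).exp
  have hH := bd_He h.ϱ_le hw hε
  have h1 := CT_antisymm le_rfl h.ϱ_le hp hqe
  have e1 : ∫ z, (1 - z * conj w)⁻¹ *
      CT ϱ (fun z => qq w ε z * Complex.exp (CT ϱ (qq w ε) z)) z ∂mD =
      ∫ z, He ϱ w ε z ∂mD - 1 := by
    have := integral_sub (hH.integrable le_rfl) (hp.integrable le_rfl)
    rw [integral_szego hw] at this
    rw [← this]
    congr 1
    ext ζ
    rw [He, CT_exp h.ϱ_le hq]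
    ring
  have e2 : ∫ z, qq w ε z * Complex.exp (CT ϱ (qq w ε) z) *
      CT mD (fun ζ => (1 - ζ * conj w)⁻¹) z ∂ϱ =
      ∫ ζ, indicator (closedBall w ε) (He ϱ w ε) ζ ∂ϱ - ∫ z, He ϱ w ε z ∂ϱ := by
    rw [← integral_sub ((hH.indicator measurableSet_closedBall).integrable h.ϱ_le)
      (hH.integrable h.ϱ_le)]
    apply integral_congr_ae
    filter_upwards [ae_ball_of_le h.ϱ_le] with ζ hζ using qq_mul hw hε ζ hζ
  rw [e1, e2, ← h.sum, integral_add_measure (hH.integrable h.μ_le) (hH.integrable h.ϱ_le)] at h1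
  linear_combination -h1

/-- The sequence of truncation radii. -/
noncomputable def ep (n : ℕ) : ℝ := 1 / ((n : ℝ) + 1)

lemma ep_pos (n : ℕ) : 0 < ep n := Nat.one_div_pos_of_nat

lemma ep_le (n : ℕ) : ep n ≤ 1 := by
  rw [ep, div_le_one (by positivity)]; linarith [n.cast_nonneg (α := ℝ)]

lemma ep_anti : Antitone ep := fun _ _ h => Nat.one_div_le_one_div h

lemma ep_tendsto : Tendsto ep atTop (𝓝 0) := tendsto_one_div_add_atTop_nhds_zero_nat

lemma norm_qq_le (w : ℂ) (ε : ℝ) (ζ z : ℂ) :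
    ‖qq w ε ζ * (ζ - z)⁻¹‖ ≤ ‖ζ - w‖⁻¹ * ‖ζ - z‖⁻¹ := by
  rw [norm_mul, norm_inv]
  refine mul_le_mul_of_nonneg_right ((norm_indicator_le_norm_self _ _).trans ?_) (by positivity)
  rw [norm_inv, Complex.norm_conj]

lemma tendsto_CT_qq (hν : ν ≤ mD) {z w : ℂ} (h : z ≠ w) :
    Tendsto (fun n => CT ν (qq w (ep n)) z) atTop (𝓝 (AA ν z w)) := by
  refine tendsto_integral_of_dominated_convergence _
    (fun n => ((bd_qq w (ep_pos n)).integrable_ker hν z).1) (integrable_MM hν h)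
    (fun n => .of_forall fun ζ => norm_qq_le w _ ζ z) ?_
  filter_upwards [ae_ne_of_le (hν.trans mD_le) w] with ζ hζ
  refine tendsto_const_nhds.congr' ?_
  filter_upwards [ep_tendsto.eventually (gt_mem_nhds (dist_pos.2 hζ))] with n hn
  rw [show qq w (ep n) ζ = (conj (ζ - w))⁻¹ from indicator_of_mem (by simpa using hn) _]

lemma norm_CT_qq_le (hν : ν ≤ mD) {z w : ℂ} (h : z ≠ w) (ε : ℝ) :
    ‖CT ν (qq w ε) z‖ ≤ MM ν z w :=
  norm_integral_le_of_norm_le (integrable_MM hν h) (.of_forall fun ζ => norm_qq_le w _ ζ z)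

/-- Points at which the truncation can be removed. -/
structure GoodPt (μ ϱ : Measure ℂ) (w : ℂ) : Prop where
  half : ‖w‖ ≤ 1 / 2
  int : Integrable (fun ζ => Real.exp (MM ϱ ζ w)) μ
  lim : Tendsto (fun n => ep n * Real.exp (aa ϱ w (ep n) / 2)) atTop (𝓝 0)

lemma Pair.lim_main (h : Pair μ ϱ) {w : ℂ} (hw : GoodPt μ ϱ w) {k : ℂ → ℂ} (hk : Bd k) :
    Tendsto (fun n => ∫ ζ, k ζ * He ϱ w (ep n) ζ ∂μ) atTop (𝓝 (∫ ζ, k ζ * HH ϱ ζ w ∂μ)) := by
  obtain ⟨-, K, hK, hb⟩ := id hk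
  refine tendsto_integral_of_dominated_convergence _
    (fun n => ((hk.mul (bd_He h.ϱ_le hw.half (ep_pos n))).integrable h.μ_le).1)
    ((hw.int.const_mul 2).const_mul K) (fun n => ?_) ?_
  · filter_upwards [ae_ball_of_le h.μ_le, ae_ne_of_le (h.μ_le.trans mD_le) w] with ζ h1 h2
    rw [norm_mul, He, norm_mul]
    refine mul_le_mul (hb ζ h1) (mul_le_mul (norm_inv_le_two (mem_ball_zero_iff.1 h1).le hw.half)
      ?_ (norm_nonneg _) zero_le_two) (by positivity) hK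
    exact (Complex.norm_exp_le_exp_norm _).trans (Real.exp_le_exp.2 (norm_CT_qq_le h.ϱ_le h2 _))
  · filter_upwards [ae_ne_of_le (h.μ_le.trans mD_le) w] with ζ h2
    exact ((tendsto_CT_qq h.ϱ_le h2).cexp.const_mul _).const_mul _

lemma Pair.lim_err (h : Pair μ ϱ) {w : ℂ} (hw : GoodPt μ ϱ w) {k : ℂ → ℂ}
    (hk : ∃ K, 0 ≤ K ∧ ∀ ζ ∈ ball (0 : ℂ) 1, ‖k ζ‖ ≤ K) :
    Tendsto (fun n => ∫ ζ, indicator (closedBall w (ep n)) (He ϱ w (ep n)) ζ * k ζ ∂ϱ)
      atTop (𝓝 0) := by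
  obtain ⟨K, hK, hb⟩ := hk
  have := finite_of_le h.ϱ_le
  refine squeeze_zero_norm (a := fun n => (2 * Real.exp (1 / 2 + 4) * K) *
    (ep n * Real.exp (aa ϱ w (ep n) / 2))) (fun n => ?_) (by simpa using hw.lim.const_mul _)
  have hε := ep_pos n
  set ε := ep n
  simp only [← indicator_mul_left]
  rw [integral_indicator measurableSet_closedBall]
  refine (norm_setIntegral_le_of_norm_le_const_ae' (C := 2 * (Real.exp (1 / 2 + 4) * ε⁻¹ *
    Real.exp (aa ϱ w ε / 2)) * K) (measure_lt_top _ _) ?_).trans ?_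
  · filter_upwards [ae_ball_of_le h.ϱ_le] with ζ h1 h2
    rw [norm_mul, He, norm_mul]
    refine mul_le_mul (mul_le_mul (norm_inv_le_two (mem_ball_zero_iff.1 h1).le hw.half)
      ?_ (norm_nonneg _) zero_le_two) (hb ζ h1) (norm_nonneg _) (by positivity)
    have hle : ϱ.restrict (closedBall w ε)ᶜ ≤ mD := Measure.restrict_le_self.trans h.ϱ_le
    have a1 := MM_le hle (z := ζ) (w := w) hε hε (by
      filter_upwards [ae_restrict_mem measurableSet_closedBall.compl] with ξ hξ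
      rw [mem_compl_iff, mem_closedBall, dist_eq_norm, not_le] at hξ
      exact Or.inr hξ.le)
    have a2 : ‖CT ϱ (qq w ε) ζ‖ ≤ MM (ϱ.restrict (closedBall w ε)ᶜ) ζ w := by
      rw [CT, ← setIntegral_eq_integral_of_forall_compl_eq_zero (s := (closedBall w ε)ᶜ)
        fun ξ hξ => by rw [qq, indicator_of_notMem hξ, zero_mul]]
      exact norm_integral_le_of_norm_le a1.1 (.of_forall fun ξ => norm_qq_le w _ ξ ζ)
    have a3 := aa_mono (Measure.restrict_le_self (s := (closedBall w ε)ᶜ)) h.ϱ_le ζ hε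
    have a4 := aa_mono (Measure.restrict_le_self (s := (closedBall w ε)ᶜ)) h.ϱ_le w hε
    have a5 : Real.exp (aa ϱ ζ ε / 2) ≤ Real.exp (1 / 2) * ε⁻¹ := by
      refine abs_le_of_sq_le_sq' ?_ (by positivity) |>.2
      rw [← Real.exp_nat_mul, mul_pow, ← Real.exp_nat_mul, inv_pow]
      have b1 := h.exp_aa_le ζ hε (ep_le n)
      have b2 : Real.exp (aa ϱ ζ 1) ≤ Real.exp 1 :=
        Real.exp_le_exp.2 (by simpa using aa_le h.ϱ_le ζ one_pos)
      have b3 : Real.exp (-∫ ξ in {ξ | ε ≤ ‖ξ - ζ‖ ∧ ‖ξ - ζ‖ < 1}, (‖ξ - ζ‖ ^ 2)⁻¹ ∂μ) ≤ 1 :=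
        Real.exp_le_one_iff.2 (neg_nonpos.2 (integral_nonneg fun _ => by positivity))
      calc _ = Real.exp (aa ϱ ζ ε) := by congr 1; push_cast; ring
        _ ≤ Real.exp 1 * 1 ^ 2 * (ε ^ 2)⁻¹ * 1 := b1.trans (by gcongr)
        _ = _ := by norm_num
    have e : 4 * ε / ε = 4 := by field_simp
    calc _ ≤ Real.exp (aa ϱ ζ ε / 2 + 4 + aa ϱ w ε / 2) :=
          (Complex.norm_exp_le_exp_norm _).trans (Real.exp_le_exp.2 (by linarith [a1.2]))
      _ ≤ Real.exp (1 / 2) * ε⁻¹ * Real.exp 4 * Real.exp (aa ϱ w ε / 2) := by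
          rw [Real.exp_add, Real.exp_add]; gcongr
      _ = _ := by rw [Real.exp_add]; ring
  · have : ϱ.real (closedBall w ε) ≤ ε ^ 2 := by
      refine ENNReal.toReal_le_of_le_ofReal (by positivity) ?_
      rw [← mm_closedBall w hε.le]
      exact h.ϱ_le.trans mD_le _
    refine (mul_le_mul_of_nonneg_left this (by positivity)).trans (le_of_eq ?_)
    field_simp

lemma Pair.HH_one (h : Pair μ ϱ) {w : ℂ} (hw : GoodPt μ ϱ w) : ∫ ζ, HH ϱ ζ w ∂μ = 1 := by
  have h1 := (h.lim_main hw (Bd.const 1)).add (h.lim_err hw (Bd.const 1).2)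
  simp only [one_mul, mul_one, add_zero, ← h.trunc_one hw.half (ep_pos _)] at h1
  exact tendsto_nhds_unique h1 tendsto_const_nhds

lemma Pair.HH_CT (h : Pair μ ϱ) {w : ℂ} (hw : GoodPt μ ϱ w) {k : ℂ → ℂ} (hk : Bd k) :
    ∫ z, k z * conj (z - w) * HH ϱ z w ∂μ = ∫ ζ, CT μ k ζ * HH ϱ ζ w ∂μ := by
  have hc := hk.CT h.μ_le
  have h1 := (h.lim_main hw hc).add (h.lim_err hw hc.2)
  have h2 := h.lim_main hw (hk.mul (Bd.id.sub (Bd.const w)).conj)
  rw [add_zero] at h1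
  refine tendsto_nhds_unique h2 (h1.congr fun n => ?_)
  have hH := bd_He h.ϱ_le hw.half (ep_pos n)
  have hI := hH.indicator (measurableSet_closedBall (x := w) (ε := ep n))
  have e1 := CT_antisymm h.μ_le h.μ_le hH hk
  have e2 := CT_antisymm h.ϱ_le h.μ_le hI hk
  simp only [mul_comm (CT μ k _)]
  rw [e1, e2, ← neg_add, ← integral_add ((hk.mul (hH.CT h.μ_le)).integrable h.μ_le)
      ((hk.mul (hI.CT h.ϱ_le)).integrable h.μ_le), ← integral_neg]
  apply integral_congr_ae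
  filter_upwards [ae_ball_of_le h.μ_le] with z hz
  rw [← mul_add, ← h.trunc_CT hw.half (ep_pos n), CT_szego_in hw.half (mem_ball_zero_iff.1 hz), He]
  ring

lemma bd_inv_sub {u : ℂ} (hu : 1 < ‖u‖) : Bd fun ζ => (ζ - u)⁻¹ := by
  refine .of_bound (by fun_prop) (‖u‖ - 1)⁻¹ fun ζ hζ => ?_
  rw [norm_inv]
  refine inv_anti₀ (by linarith) ?_
  linarith [norm_sub_norm_le u ζ, norm_sub_rev u ζ, mem_ball_zero_iff.1 hζ]

lemma Pair.HH_out (h : Pair μ ϱ) {w : ℂ} (hw : GoodPt μ ϱ w) {u : ℂ} (hu : 1 < ‖u‖)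
    (hne : 1 - u * conj w ≠ 0) :
    ∫ z, (z - u)⁻¹ * HH ϱ z w ∂μ = -u⁻¹ * Complex.exp (AA ϱ u w) := by
  have hc := bd_inv_sub hu
  have h1 := (h.lim_main hw hc).add (h.lim_err hw hc.2)
  have huw : u ≠ w := by
    rintro rfl
    linarith [hw.half]
  have h2 := (tendsto_CT_qq h.ϱ_le huw).cexp.const_mul (-u⁻¹)
  rw [add_zero] at h1
  refine tendsto_nhds_unique h1 (h2.congr fun n => ?_)
  rw [← CT_szego_out hw.half hu.le hne, h.trunc_CT hw.half (ep_pos n)]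
  simp only [CT, mul_comm]

lemma out_ident {α β : Measure ℂ} (h : α + β = mD) {u : ℂ} (hu : 1 < ‖u‖) :
    (1 - (conj u)⁻¹ * u⁻¹) * Complex.exp (AA β u u) =
      1 + (conj u)⁻¹ * CT α (fun ζ => Complex.exp (AA β ζ u)) u := by
  have hα : α ≤ mD := h ▸ Measure.le_add_right le_rfl
  have hβ : β ≤ mD := h ▸ Measure.le_add_left le_rfl
  have hq : Bd fun ζ => (conj (ζ - u))⁻¹ := by simpa using (bd_inv_sub hu).conj
  have he : Bd fun ζ => Complex.exp (AA β ζ u) := (hq.CT hβ).exp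
  have hqe := hq.mul he
  have hu0 : conj u ≠ 0 := by
    rw [map_ne_zero, ← norm_pos_iff]; linarith
  have e0 := CT_exp hβ hq
  have e1 := CT_mul le_rfl hβ (Bd.const 1) hqe u
  rw [CT_one_out hu.le, CT_congr (q := fun ζ => Complex.exp (AA β ζ u) - 1) le_rfl
    (fun ζ _ => by rw [AA, e0]; simp [AA]), CT_sub le_rfl he (Bd.const 1), CT_one_out hu.le,
    CT_congr (p := fun ζ => _ * _ * CT mD (fun _ => 1) ζ) (q := fun ζ => -conj u *
      ((conj (ζ - u))⁻¹ * Complex.exp (AA β ζ u)) - Complex.exp (AA β ζ u)) hβ,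
    CT_sub hβ ((Bd.const _).mul hqe) he, CT_const_mul, ← h, CT_add_measure hα hβ he] at e1
  · rw [AA, e0]
    simp only [AA] at e1 ⊢
    field_simp
    field_simp at e1
    linear_combination e1
  · intro ζ hζ
    rw [CT_one_in (mem_ball_zero_iff.1 hζ)]
    have : conj (ζ - u) ≠ 0 := by
      rw [map_ne_zero, sub_ne_zero]
      rintro rfl
      linarith [mem_ball_zero_iff.1 hζ]
    rw [map_sub] at this ⊢
    field_simp
    ring

lemma Pair.out_exp (h : Pair μ ϱ) {u : ℂ} (hu : 1 < ‖u‖) :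
    1 + (conj u)⁻¹ * CT μ (fun ζ => Complex.exp (AA ϱ ζ u)) u =
      (Real.exp (-∫ z, (‖z - u‖ ^ 2)⁻¹ ∂μ) : ℝ) := by
  have hq : Bd fun ζ => (conj (ζ - u))⁻¹ := by simpa using (bd_inv_sub hu).conj
  have h1 := out_ident (zero_add mD) hu
  have e1 : AA mD u u = AA μ u u + AA ϱ u u := by
    rw [AA, ← h.sum, CT_add_measure h.μ_le h.ϱ_le hq]; rfl
  have e2 : AA μ u u = (∫ z, (‖z - u‖ ^ 2)⁻¹ ∂μ : ℝ) := by
    rw [AA, CT, ← integral_complex_ofReal]
    congr 1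
    ext z
    rw [← mul_inv, mul_comm, Complex.mul_conj, Complex.normSq_eq_norm_sq]
    simp
  rw [← out_ident h.sum hu, Complex.ofReal_exp, Complex.ofReal_neg, ← e2, Complex.exp_neg]
  rw [e1, Complex.exp_add, CT, integral_zero_measure, mul_zero, add_zero] at h1
  apply eq_inv_of_mul_eq_one_left
  linear_combination h1

lemma Pair.ae_good (h : Pair μ ϱ) : ∀ᵐ w ∂μ, GoodPt μ ϱ w := by
  have := finite_of_le h.μ_le
  have hac : μ ≪ mm := Measure.absolutelyContinuous_of_le (h.μ_le.trans mD_le)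
  filter_upwards [h.ae_half, h.integrable_expM.prod_left_ae, Measure.rnDeriv_pos hac,
    hac.ae_le (Besicovitch.ae_tendsto_rnDeriv μ mm)] with w h1 h2 h3 h4
  refine ⟨h1.le, h2, ?_⟩
  set ν := μ.withDensity fun ζ => ENNReal.ofReal (‖ζ - w‖ ^ 2)⁻¹ with hν
  have hne := ae_ne_of_le (h.μ_le.trans mD_le) w
  have hνw : ν {w} = 0 := withDensity_absolutelyContinuous _ _ (hac (measure_singleton w))
  have hA : ν (ball w 1) = ∞ := by
    by_contra hfin
    have t1 := tendsto_measure_iInter_atTop (μ := ν) (s := fun n => closedBall w (ep (n + 1)))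
      (fun n => measurableSet_closedBall.nullMeasurableSet)
      (fun m n hmn => closedBall_subset_closedBall (ep_anti (by omega)))
      ⟨0, ne_top_of_le_ne_top hfin (measure_mono (closedBall_subset_ball (by norm_num [ep])))⟩
    have t0 : Tendsto (fun n => ep (n + 1)) atTop (𝓝 0) := ep_tendsto.comp (tendsto_add_atTop_nat 1)
    have e : ⋂ n, closedBall w (ep (n + 1)) = {w} := by
      ext ζ
      simp only [mem_iInter, mem_closedBall, mem_singleton_iff]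
      exact ⟨fun hζ => dist_le_zero.1 (ge_of_tendsto' t0 hζ), fun hζ n => by
        simp [hζ, (ep_pos _).le]⟩
    rw [e, hνw] at t1
    have t2 := Tendsto.comp h4 (tendsto_nhdsWithin_iff.2 ⟨t0, .of_forall fun n => ep_pos _⟩)
    refine absurd (le_of_tendsto_of_tendsto' t2 t1 fun n => ?_) (not_le.2 h3)
    have hε := ep_pos (n + 1)
    simp only [Function.comp_apply]
    rw [mm_closedBall w hε.le, hν, withDensity_apply _ measurableSet_closedBall,
      ENNReal.div_eq_inv_mul, ← ENNReal.ofReal_inv_of_pos (by positivity), ← setLIntegral_const]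
    refine lintegral_mono_ae ?_
    filter_upwards [ae_restrict_of_ae hne, ae_restrict_mem measurableSet_closedBall] with ζ a1 a2
    rw [mem_closedBall, dist_eq_norm] at a2
    have := norm_pos_iff.2 (sub_ne_zero.2 a1)
    gcongr
  have t3 := tendsto_measure_iUnion_atTop (μ := ν)
    (s := fun n => {ζ | ep n ≤ ‖ζ - w‖ ∧ ‖ζ - w‖ < 1})
    (fun m n hmn ζ hζ => ⟨(ep_anti hmn).trans hζ.1, hζ.2⟩)
  have e3 : ⋃ n, {ζ | ep n ≤ ‖ζ - w‖ ∧ ‖ζ - w‖ < 1} = ball w 1 \ {w} := by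
    ext ζ
    simp only [mem_iUnion, mem_ofPred_eq, Set.mem_sdiff, mem_ball, dist_eq_norm, mem_singleton_iff]
    constructor
    · rintro ⟨n, a1, a2⟩
      refine ⟨a2, ?_⟩
      rintro rfl
      simp at a1
      linarith [ep_pos n]
    · rintro ⟨a1, a2⟩
      obtain ⟨n, hn⟩ := (ep_tendsto.eventually
        (gt_mem_nhds (norm_pos_iff.2 (sub_ne_zero.2 a2)))).exists
      exact ⟨n, hn.le, a1⟩
  rw [e3, measure_sdiff_null hνw, hA] at t3
  have t4 : Tendsto (fun n => ∫ ζ in {ζ | ep n ≤ ‖ζ - w‖ ∧ ‖ζ - w‖ < 1}, (‖ζ - w‖ ^ 2)⁻¹ ∂μ)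
      atTop atTop := by
    rw [← ENNReal.tendsto_ofReal_nhds_top]
    refine t3.congr fun n => ?_
    rw [Function.comp_apply, hν, withDensity_apply _ (by measurability),
      ofReal_integral_eq_lintegral_ofReal
        ((integrableOn_aa h.μ_le w (ep_pos n)).mono_set fun ζ hζ => hζ.1)
        (.of_forall fun _ => by positivity)]
  have t5 := (Real.tendsto_exp_neg_atTop_nhds_zero.comp t4).const_mul (Real.exp (aa ϱ w 1))
  rw [mul_zero] at t5
  have t6 := t5.sqrt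
  rw [Real.sqrt_zero] at t6
  refine squeeze_zero (fun n => mul_nonneg (ep_pos n).le (Real.exp_pos _).le) (fun n => ?_) t6
  apply Real.le_sqrt_of_sq_le
  have hε := ep_pos n
  have b1 := mul_le_mul_of_nonneg_left (h.exp_aa_le w hε (ep_le n)) (sq_nonneg (ep n))
  rw [mul_pow, ← Real.exp_nat_mul]
  refine le_trans (le_of_eq ?_) (b1.trans (le_of_eq ?_))
  · congr 2; push_cast; ring
  · simp only [Function.comp_apply]
    field_simp

end Pool.Agent.Lib.MP_45cb44_an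
end
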