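import Pool.Agent.Lib.MP_45cb44_an.Ident

/-! Squares and their subdivision. -/

namespace Pool.Agent.Lib.MP_45cb44_an

open MeasureTheory Metric Set Filter Topology
open scoped ENNReal NNReal Real ComplexConjugate

/-- Closed square with centre `c` and side `s`. -/
def Sq (c : ℂ) (s : ℝ) : Set ℂ := {z | |z.re - c.re| ≤ s / 2 ∧ |z.im - c.im| ≤ s / 2}

lemma measurableSet_Sq (c : ℂ) (s : ℝ) : MeasurableSet (Sq c s) := by
  unfold Sq; measurability

lemma Sq.norm_le {c z : ℂ} {s : ℝ} (h : z ∈ Sq c s) : ‖z - c‖ ≤ s := by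
  have := Complex.norm_le_abs_re_add_abs_im (z - c)
  simp only [Complex.sub_re, Complex.sub_im] at this
  linarith [h.1, h.2]

lemma ball_subset_Sq (c : ℂ) (s : ℝ) : ball c (s / 2) ⊆ Sq c s := fun z hz => by
  rw [mem_ball, dist_eq_norm] at hz
  exact ⟨(Complex.abs_re_le_norm (z - c)).trans hz.le, (Complex.abs_im_le_norm (z - c)).trans hz.le⟩

lemma mm_Sq (c : ℂ) {s : ℝ} (hs : 0 ≤ s) : mm (Sq c s) ≤ ENNReal.ofReal (s ^ 2) := by
  rw [← mm_closedBall c hs]
  exact measure_mono fun z hz => by rw [mem_closedBall, dist_eq_norm]; exact Sq.norm_le hz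

/-- Relative measure of `G` in a square. -/
noncomputable def gam (G : Set ℂ) (c : ℂ) (s : ℝ) : ℝ := mm.real (Sq c s ∩ G) / s ^ 2

lemma gam_nonneg (G : Set ℂ) (c : ℂ) (s : ℝ) : 0 ≤ gam G c s := by unfold gam; positivity

lemma gam_le_one (G : Set ℂ) (c : ℂ) {s : ℝ} (hs : 0 < s) : gam G c s ≤ 1 := by
  rw [gam, div_le_one (by positivity)]
  exact ENNReal.toReal_le_of_le_ofReal (by positivity)
    ((measure_mono inter_subset_left).trans (mm_Sq c hs.le))

lemma cover_one {x : ℝ} (h : |x| ≤ 32) : ∃ i : ℤ, 0 ≤ i ∧ i < 64 ∧ |x - (i - 63 / 2)| ≤ 1 / 2 := by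
  rw [abs_le] at h
  rcases eq_or_lt_of_le h.2 with rfl | h2
  · exact ⟨63, by norm_num, by norm_num, by norm_num [abs_le]⟩
  · have h3 := Int.floor_le (x + 32)
    have h4 := Int.lt_floor_add_one (x + 32)
    refine ⟨⌊x + 32⌋, Int.floor_nonneg.2 (by linarith), Int.floor_lt.2 (by push_cast; linarith),
      abs_le.2 ⟨by linarith, by linarith⟩⟩

lemma near_int {y : ℝ} {i : ℤ} (h : |y - i| < 2) : i ∈ Finset.Icc (⌊y⌋ - 1) (⌊y⌋ + 2) := by
  rw [abs_lt] at h
  have h3 := Int.floor_le y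
  have h4 := Int.lt_floor_add_one y
  have a1 : ((⌊y⌋ - 2 : ℤ) : ℝ) < i := by push_cast; linarith
  have a2 : (i : ℝ) < (⌊y⌋ + 3 : ℤ) := by push_cast; linarith
  rw [Int.cast_lt] at a1 a2
  rw [Finset.mem_Icc]
  omega

lemma exists_pair (G : Set ℂ) (c : ℂ) {s : ℝ} (hs : 0 < s) (ϱ : Measure ℂ) [IsFiniteMeasure ϱ]
    (B : Set ℂ) {X W : ℝ} (hX : 0 ≤ X) (hW : 0 ≤ W) :
    ∃ a : ℂ, Sq a (s / 64) ⊆ Sq c s ∧ Sq (a + (s / 2 : ℝ)) (s / 64) ⊆ Sq c s ∧
      X * gam G c s - W * ϱ.real B / 4 ≤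
        X * ((gam G a (s / 64) + gam G (a + (s / 2 : ℝ)) (s / 64)) / 2) -
          W * ϱ.real ((ball a (s / 32) ∪ ball (a + (s / 2 : ℝ)) (s / 32)) ∩ B) := by
  let a : ℤ × ℤ → ℂ := fun p => ⟨c.re + s / 64 * (p.1 - 63 / 2), c.im + s / 64 * (p.2 - 63 / 2)⟩
  let I := Finset.Ico (0 : ℤ) 32 ×ˢ Finset.Ico (0 : ℤ) 64
  let U : ℤ × ℤ → Set ℂ := fun p => ball (a p) (s / 32) ∪ ball (a p + (s / 2 : ℝ)) (s / 32)
  have hI : I.card = 2048 := by simp [I]
  have fin : ∀ a t, 0 ≤ t → mm (Sq a t ∩ G) ≠ ∞ := fun a t ht =>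
    ne_top_of_le_ne_top ENNReal.ofReal_ne_top ((measure_mono inter_subset_left).trans (mm_Sq a ht))
  have h1 : mm.real (Sq c s ∩ G) ≤ ∑ p ∈ I, (mm.real (Sq (a p) (s / 64) ∩ G) +
      mm.real (Sq (a p + (s / 2 : ℝ)) (s / 64) ∩ G)) := by
    refine le_trans (measureReal_mono ?_ ?_) ((measureReal_biUnion_finset_le I fun p =>
      Sq (a p) (s / 64) ∩ G ∪ Sq (a p + (s / 2 : ℝ)) (s / 64) ∩ G).trans
      (Finset.sum_le_sum fun p _ => measureReal_union_le _ _))
    · rintro z ⟨⟨h1, h2⟩, hG⟩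
      have key : ∀ x : ℝ, |x| ≤ s / 2 → ∃ i : ℤ, 0 ≤ i ∧ i < 64 ∧
          |x - s / 64 * (i - 63 / 2)| ≤ s / 64 / 2 := fun x hx => by
        obtain ⟨i, i0, i1, i2⟩ := cover_one (x := x / (s / 64)) (by
          rw [abs_div, abs_of_pos (by positivity : 0 < s / 64), div_le_iff₀ (by positivity)]
          linarith)
        refine ⟨i, i0, i1, ?_⟩
        rw [show x - s / 64 * (i - 63 / 2) = s / 64 * (x / (s / 64) - (i - 63 / 2)) by field_simp,
          abs_mul, abs_of_pos (by positivity : 0 < s / 64)]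
        exact (mul_le_mul_of_nonneg_left i2 (by positivity)).trans_eq (by ring)
      obtain ⟨i, i0, i1, i2⟩ := key _ h1
      obtain ⟨k, k0, k1, k2⟩ := key _ h2
      rw [mem_iUnion₂]
      by_cases hi : i < 32
      · refine ⟨(i, k), by simp [I, *], Or.inl ⟨⟨?_, ?_⟩, hG⟩⟩ <;> simp only [a, sub_add_eq_sub_sub]
        exacts [i2, k2]
      · refine ⟨(i - 32, k), by simp only [I, Finset.mem_product, Finset.mem_Ico]; omega,
          Or.inr ⟨⟨?_, ?_⟩, hG⟩⟩
        · convert i2 using 2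
          simp [a]
          ring
        · simpa [a, sub_add_eq_sub_sub] using k2
    · exact (measure_biUnion_lt_top I.finite_toSet fun p _ => measure_union_lt_top
        (fin _ _ (by positivity)).lt_top (fin _ _ (by positivity)).lt_top).ne
  have h2 : ∑ p ∈ I, ϱ.real (U p ∩ B) ≤ 512 * ϱ.real B := by
    have hU : ∀ p, MeasurableSet (U p) := fun p => measurableSet_ball.union measurableSet_ball
    have e : ∀ p, ϱ.real (U p ∩ B) = ∫ ζ in B, indicator (U p) 1 ζ ∂ϱ := fun p => by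
      rw [integral_indicator_one (hU p), measureReal_restrict_apply (hU p)]
    simp only [e]
    rw [← integral_finsetSum _ fun p _ => (integrable_const 1).indicator (hU p)]
    refine (integral_mono (integrable_finsetSum _ fun p _ => (integrable_const 1).indicator (hU p))
      (integrable_const (512 : ℝ)) fun ζ => ?_).trans (by simp [mul_comm])
    classical
    simp only [indicator, Pi.one_apply]
    set y := (ζ.re - c.re) / (s / 64) + 63 / 2
    have : (I.filter fun p => ζ ∈ U p) ⊆ (Finset.Icc (⌊y⌋ - 1) (⌊y⌋ + 2) ∪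
        Finset.Icc (⌊y - 32⌋ - 1) (⌊y - 32⌋ + 2)) ×ˢ Finset.Ico (0 : ℤ) 64 := by
      intro p hp
      rw [Finset.mem_filter, Finset.mem_product] at hp
      refine Finset.mem_product.2 ⟨Finset.mem_union.2 (hp.2.imp ?_ ?_), hp.1.2⟩
      all_goals
        intro h
        apply near_int
        rw [mem_ball, dist_eq_norm] at h
        have := (Complex.abs_re_le_norm _).trans_lt h
        rw [← mul_lt_mul_iff_right₀ (by positivity : 0 < s / 64),
          ← abs_of_pos (by positivity : 0 < s / 64), ← abs_mul, abs_of_pos (by positivity : 0 < s / 64)]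
        refine lt_of_eq_of_lt (congrArg _ ?_) (this.trans_eq (by ring))
        simp only [a, y, Complex.sub_re, Complex.add_re, Complex.ofReal_re]
        field_simp
        ring
    have h3 := Finset.card_le_card this
    have h4 := Finset.card_union_le (Finset.Icc (⌊y⌋ - 1) (⌊y⌋ + 2))
      (Finset.Icc (⌊y - 32⌋ - 1) (⌊y - 32⌋ + 2))
    rw [Finset.card_product] at h3
    simp only [Int.card_Icc, Int.card_Ico, show (64 - 0 : ℤ).toNat = 64 from rfl] at h3 h4
    have h5 : (I.filter fun p => ζ ∈ U p).card ≤ 512 := by omega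
    rw [Finset.sum_boole]
    exact Nat.cast_le.2 h5
  obtain ⟨p, hp, h3⟩ := Finset.exists_le_of_sum_le (s := I) (Finset.card_pos.1 (by omega))
    (f := fun _ => X * gam G c s - W * ϱ.real B / 4)
    (g := fun p => X * ((gam G (a p) (s / 64) + gam G (a p + (s / 2 : ℝ)) (s / 64)) / 2) -
      W * ϱ.real (U p ∩ B)) (by
      have e : ∀ p, (gam G (a p) (s / 64) + gam G (a p + (s / 2 : ℝ)) (s / 64)) / 2 =
          2048 / s ^ 2 * (mm.real (Sq (a p) (s / 64) ∩ G) +
            mm.real (Sq (a p + (s / 2 : ℝ)) (s / 64) ∩ G)) := fun p => by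
        simp only [gam]; field_simp; ring
      simp only [e, Finset.sum_const, hI, Finset.sum_sub_distrib, ← Finset.mul_sum, nsmul_eq_mul]
      rw [gam]
      have a1 := mul_le_mul_of_nonneg_left (mul_le_mul_of_nonneg_left h1
        (by positivity : 0 ≤ 2048 / s ^ 2)) hX
      have a2 := mul_le_mul_of_nonneg_left h2 hW
      refine le_trans (le_of_eq ?_) (sub_le_sub a1 a2)
      push_cast
      ring)
  simp only [I, Finset.mem_product, Finset.mem_Ico] at hp
  have b1 : (0 : ℝ) ≤ p.1 := by exact_mod_cast hp.1.1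
  have b2 : (p.1 : ℝ) ≤ 31 := by exact_mod_cast (by omega : p.1 ≤ 31)
  have b3 : (0 : ℝ) ≤ p.2 := by exact_mod_cast hp.2.1
  have b4 : (p.2 : ℝ) ≤ 63 := by exact_mod_cast (by omega : p.2 ≤ 63)
  refine ⟨a p, fun z hz => ?_, fun z hz => ?_, h3⟩
  all_goals
    simp only [Sq, a, mem_ofPred_eq, abs_le, Complex.add_re, Complex.add_im, Complex.ofReal_re,
      Complex.ofReal_im] at hz ⊢
    obtain ⟨⟨c1, c2⟩, c3, c4⟩ := hz
    have d1 := mul_le_mul_of_nonneg_left b1 hs.le
    have d2 := mul_le_mul_of_nonneg_left b2 hs.le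
    have d3 := mul_le_mul_of_nonneg_left b3 hs.le
    have d4 := mul_le_mul_of_nonneg_left b4 hs.le
    refine ⟨⟨?_, ?_⟩, ?_, ?_⟩ <;> linarith

end Pool.Agent.Lib.MP_45cb44_an
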