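import Pool.Agent.Lib.MP_45cb44_an.Dual
import Pool.Agent.Lib.MP_45cb44_an.Weak
import Pool.Agent.Lib.MP_45cb44_an.Square

-- part Pool.Agent.Lib.MP_45cb44_an.Exist
section

/-! Existence of non-degenerate families at accumulation points of the spectrum. -/

namespace Pool.Agent.Lib.MP_45cb44_an

open MeasureTheory Metric Set Filter Topology InnerProductSpace ContinuousLinearMap
open scoped ENNReal NNReal Real ComplexConjugate InnerProductSpace

variable {H : Type*} [NormedAddCommGroup H] [InnerProductSpace ℂ H] [CompleteSpace H]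
  {N : H →L[ℂ] H} {u v : H} {F : ℂ → ℂ} {c : ℂ} {R : ℝ}

lemma WZ.point (hN : IsStarNormal N) {h : ℕ → ℂ → ℂ} (w : WZ fun k => cfc (h k) N)
    (hc : ∀ k, Continuous (h k)) {z : ℂ} (hz : z ∈ spectrum ℂ N) (h0 : 0 < R)
    (hd : ∀ k, DifferentiableOn ℂ (h k) (ball z R)) {C : ℝ} (hC : 0 ≤ C)
    (hb : ∀ k, ∀ w ∈ ball z R, ‖h k w‖ ≤ C) : Tendsto (fun k => h k z) (hyperfilter ℕ) (𝓝 0) := by
  refine NormedAddGroup.tendsto_nhds_zero.2 fun ε hε => ?_
  obtain ⟨δ, δ0, δ1, δ2⟩ : ∃ δ, 0 < δ ∧ δ ≤ R ∧ 2 * C / R * δ ≤ ε / 4 :=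
    ⟨min R (ε / 4 / (2 * C / R + 1)), by positivity, min_le_left _ _,
      (mul_le_mul_of_nonneg_left (min_le_right _ _) (by positivity)).trans (by
        rw [← mul_div_assoc, div_le_iff₀ (by positivity)]
        nlinarith)⟩
  let f : ℂ → ℂ := fun ζ => (max 0 (δ - ‖ζ - z‖) : ℝ)
  have hf : Continuous f := by fun_prop
  have n1 := norm_apply_le_norm_cfc f N hz hf.continuousOn hN
  simp only [f, sub_self, norm_zero, sub_zero, max_eq_right δ0.le, Complex.norm_real,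
    Real.norm_of_nonneg δ0.le] at n1
  obtain ⟨x, hx⟩ := (cfc f N).exists_mul_lt_of_lt_opNorm (r := δ / 2) (by positivity)
    ((half_lt_self δ0).trans_le n1)
  have p : 0 < ‖cfc f N x‖ := lt_of_le_of_lt (by positivity) hx
  filter_upwards [NormedAddGroup.tendsto_nhds_zero.1 (w (cfc f N x) (cfc f N x))
    (ε / 2 * ‖cfc f N x‖ ^ 2) (by positivity)] with k hk
  have := hc k
  have e : cfc (fun ζ => (h k ζ - h k z) * f ζ) N x = cfc (h k) N (cfc f N x) - h k z • cfc f N x := by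
    rw [cfc_mul _ _ _ (by fun_prop) (by fun_prop), cfc_sub _ _ _ (by fun_prop) (by fun_prop),
      cfc_const _ N]
    simp [Algebra.algebraMap_eq_smul_one]
  have n2 : ‖cfc (fun ζ => (h k ζ - h k z) * f ζ) N‖ ≤ ε / 4 * δ := by
    refine norm_cfc_le (by positivity) fun ζ _ => ?_
    by_cases h1 : δ ≤ ‖ζ - z‖
    · simp only [f, max_eq_left (sub_nonpos.2 h1), Complex.ofReal_zero, mul_zero, norm_zero]
      positivity
    rw [not_le] at h1
    have a1 := Complex.dist_le_div_mul_dist_of_mapsTo_ball (R₂ := 2 * C) (hd k) (fun w hw => by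
      rw [mem_closedBall, dist_eq_norm]
      linarith [norm_sub_le (h k w) (h k z), hb k w hw, hb k z (mem_ball_self h0)])
      (mem_ball_iff_norm.2 (h1.trans_le δ1))
    rw [dist_eq_norm, dist_eq_norm] at a1
    rw [norm_mul]
    refine mul_le_mul (a1.trans ((mul_le_mul_of_nonneg_left h1.le (by positivity)).trans δ2)) ?_
      (norm_nonneg _) (by positivity)
    simp only [f, max_eq_right (sub_nonneg.2 h1.le), Complex.norm_real,
      Real.norm_of_nonneg (sub_nonneg.2 h1.le)]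
    linarith [norm_nonneg (ζ - z)]
  have n3 := (norm_inner_le_norm (𝕜 := ℂ) (cfc f N x) _).trans
    (mul_le_mul_of_nonneg_left (le_of_opNorm_le _ n2 x) p.le)
  rw [e, inner_sub_right, inner_smul_right, inner_self_eq_norm_sq_to_K, norm_sub_rev] at n3
  have n4 := (norm_sub_norm_le _ _).trans n3
  simp only [norm_mul, norm_pow, Complex.coe_algebraMap, Complex.norm_real, norm_norm] at n4
  refine lt_of_mul_lt_mul_right ?_ (sq_nonneg ‖cfc f N x‖)
  have n5 := mul_le_mul_of_nonneg_left hx.le (by positivity : 0 ≤ ε / 2 * ‖cfc f N x‖)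
  nlinarith

lemma Pert.exists_fam (P : Pert N u v F) (h0 : 0 < R) (h1 : R ≤ 1 / 2)
    (hD : ball c (2 * R) ⊆ ball 0 1) (hc : AccPt c (𝓟 (spectrum ℂ N))) {Z : Set ℂ}
    (hZ : Z.Infinite) (hZ' : ∀ z ∈ Z, z ∈ spectrum ℂ N ∧ 6 * R ≤ ‖z - c‖) :
    ∃ Θ, Fam F c R Θ ∧ ¬WZ fun k => cfc (CT mD (Θ k)) N := by
  have hN := P.normal
  rcases dichotomy P.mF P.iF h0 h1 hD with ⟨θ, b, s, h⟩ | ⟨C, h⟩
  · have b' := (Bd.id.sub (Bd.const c)).mul b
    obtain ⟨-, K, hK, hb⟩ := b'.CT le_rfl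
    refine ⟨fun _ ζ => (ζ - c) * θ ζ, ⟨fun _ => b', fun _ ζ hζ => (s ζ (right_ne_zero_of_mul hζ)).1,
      ⟨K, hK, fun _ => hb⟩, 0, tendsto_const_nhds, fun _ φ L bφ d _ => ?_⟩, fun w => ?_⟩
    · have := h (fun ζ => (ζ - c) * φ ζ) ((Bd.id.sub (Bd.const c)).mul bφ) (by fun_prop)
      simp only [sub_self, zero_mul] at this
      simp only [Pi.zero_apply, mul_zero, norm_le_zero_iff, ← this]
      congr 1
      ext ζ
      ring
    have e : cfc (CT mD fun ζ => (ζ - c) * θ ζ) N = 0 := by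
      ext x
      exact inner_self_eq_zero.1 (tendsto_nhds_unique tendsto_const_nhds (w _ x))
    have e1 := eqOn_of_cfc_eq_cfc (e.trans (cfc_const_zero ℂ N).symm)
      (continuous_CT le_rfl b').continuousOn continuousOn_const hN
    have d : DifferentiableOn ℂ (CT mD fun ζ => (ζ - c) * θ ζ) (ball c (R / 8)) := fun z hz => by
      refine (differentiableAt_CT (d := R / 8) le_rfl b' (by positivity)
        fun ζ hζ => ?_).differentiableWithinAt
      have := (s ζ (right_ne_zero_of_mul hζ)).2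
      rw [mem_ball_iff_norm, not_lt] at this
      linarith [mem_ball_iff_norm.1 hz, norm_sub_le_norm_sub_add_norm_sub ζ z c]
    have e2 := (d.analyticOnNhd isOpen_ball).eqOn_zero_of_preconnected_of_frequently_eq_zero
      (convex_ball _ _).isPreconnected (mem_ball_self (by positivity))
      ((accPt_iff_frequently_nhdsNE.1 hc).mono fun z hz => e1 hz)
    have hD' := (ball_subset_ball (by linarith : R / 8 ≤ 2 * R)).trans hD
    have e3 := P.pair b' (bd_chi (c := c) (r := R / 8))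
    have e4 : ∫ ζ, chi c (R / 8) ζ * CT mD (fun ζ => (ζ - c) * θ ζ) ζ * F ζ ∂mD = 0 := by
      refine integral_eq_zero_of_ae (.of_forall fun ζ => ?_)
      by_cases hζ : ζ ∈ ball c (R / 8)
      · simp [e2 hζ]
      · simp [chi, hζ]
    have e5 : ∫ ζ, (ζ - c) * θ ζ * CT mD (chi c (R / 8)) ζ * F ζ ∂mD = -((R / 8 : ℝ) : ℂ) ^ 2 := by
      refine Eq.trans ?_ (h (fun _ => -((R / 8 : ℝ) : ℂ) ^ 2) (Bd.const _) (by fun_prop))
      congr 1
      ext ζ
      by_cases hζ : θ ζ = 0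
      · simp [hζ]
      have := (s ζ hζ).2
      rw [mem_ball_iff_norm, not_lt] at this
      have h2 : ζ - c ≠ 0 := norm_pos_iff.1 (by linarith)
      rw [CT_chi_out (by positivity) hD' (by linarith)]
      field_simp
    rw [e, e4, e5] at e3
    simp [h0.ne', eq_comm (a := (0 : ℂ))] at e3
  · choose Θ b s hC h2 h3 using fun k : ℕ => h (1 / ((k : ℝ) + 1)) (by positivity)
    have C0 : 0 ≤ C := (norm_nonneg _).trans (hC 0 0 (by simp))
    have f : Fam F c R Θ := ⟨b, s, ⟨C, C0, hC⟩, _, tendsto_one_div_add_atTop_nhds_zero_nat,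
      fun k φ K bφ _ hK => by
        have K0 : 0 ≤ K := (norm_nonneg _).trans (hK 0 (by simp))
        refine (norm_integral_le_of_norm_le (((b k).integrable_norm_mul P.iF.norm).const_mul K)
          ?_).trans ?_
        · filter_upwards [ae_ball_of_le le_rfl] with z hz
          rw [norm_mul, norm_mul, mul_right_comm, mul_comm]
          exact mul_le_mul_of_nonneg_right (hK z hz) (by positivity)
        · rw [integral_const_mul]
          exact mul_le_mul_of_nonneg_left (h2 k) K0⟩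
    refine ⟨Θ, f, fun w => ?_⟩
    obtain ⟨n, hn⟩ := exists_pow_lt_of_lt_one (x := R ^ 2 / 100 / (3 * R * (C + 1)))
      (y := 3 / 4) (by positivity) (by norm_num)
    obtain ⟨k, hk⟩ := (shrink (l := hyperfilter ℕ) h0 hD n Θ (C + 1) Z (by positivity) hZ b s
      (fun z hz => ⟨(hZ' z hz).2, w.point hN (fun k => continuous_CT le_rfl (b k)) (hZ' z hz).1 h0
        (fun k => (f.diff h0 (by linarith [(hZ' z hz).2, norm_sub_rev c z]) k).mono
          (ball_subset_ball (by linarith))) C0 fun k y hy => hC k y (ball_subset_ball' (by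
            linarith [mem_ball.1 (P.spec (hZ' z hz).1)]) hy)⟩)
      (.of_forall fun k z hz => (hC k z (hD hz.1)).trans (by linarith))).exists
    rw [lt_div_iff₀' (by positivity)] at hn
    linarith [h3 k]

lemma Pert.two_acc (P : Pert N u v F) (hu : u ≠ 0) (hv : v ≠ 0) {c' : ℂ}
    (hc : AccPt c (𝓟 (spectrum ℂ N))) (hc' : AccPt c' (𝓟 (spectrum ℂ N))) (h : c ≠ c') :
    ¬Trans (N + rankOne ℂ u v) := by
  have key : ∀ a b : ℂ, AccPt a (𝓟 (spectrum ℂ N)) → AccPt b (𝓟 (spectrum ℂ N)) → a ≠ b →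
      ball a (2 * (‖a - b‖ / 8)) ⊆ ball 0 1 ∧
      ∃ Θ, Fam F a (‖a - b‖ / 8) Θ ∧ ¬WZ fun k => cfc (CT mD (Θ k)) N := fun a b ha hb hab => by
    have m : ∀ a : ℂ, AccPt a (𝓟 (spectrum ℂ N)) → ‖a‖ < 1 / 2 := fun a ha => mem_ball_zero_iff.1
      (P.spec ((spectrum.isClosed N).closure_subset ha.clusterPt.mem_closure))
    have p : 0 < ‖a - b‖ := norm_pos_iff.2 (sub_ne_zero.2 hab)
    have q := norm_sub_le a b
    have hD : ball a (2 * (‖a - b‖ / 8)) ⊆ ball 0 1 := ball_subset_ball' (by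
      rw [dist_zero_right]
      linarith [m a ha, m b hb])
    refine ⟨hD, P.exists_fam (by positivity) (by linarith [m a ha, m b hb]) hD ha
      (Z := ball b (‖a - b‖ / 8) ∩ spectrum ℂ N)
      (Infinite.of_accPt (hb.nhds_inter (ball_mem_nhds b (by positivity)))) fun z hz => ⟨hz.2, ?_⟩⟩
    linarith [mem_ball_iff_norm.1 hz.1, norm_sub_le_norm_sub_add_norm_sub a z b, norm_sub_rev a z]
  obtain ⟨hD, Θ, f, n⟩ := key c c' hc hc' h
  obtain ⟨-, Θ', f', n'⟩ := key c' c hc' hc h.symm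
  rw [norm_sub_rev] at f'
  have p : 0 < ‖c - c'‖ := norm_pos_iff.2 (sub_ne_zero.2 h)
  exact P.not_trans hu hv (by positivity) hD (by linarith) f f' n n'

end Pool.Agent.Lib.MP_45cb44_an
end

-- part Pool.Agent.Lib.MP_45cb44_an.Thick
section

/-! Orbits in the model; the case where the complementary density is bounded below. -/

namespace Pool.Agent.Lib.MP_45cb44_an

open MeasureTheory Metric Set Filter Topology InnerProductSpace ContinuousLinearMap
open scoped ENNReal NNReal Real ComplexConjugate InnerProductSpace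

variable {μ ϱ : Measure ℂ} {H : Type*} [NormedAddCommGroup H] [InnerProductSpace ℂ H]
  [CompleteSpace H] {J : BB →ₗ[ℂ] H} {T : H →L[ℂ] H}

lemma not_trans_of_seq (x y : ℕ → H) {C : ℝ} (hx : ∀ N, ‖x N‖ ≤ C) (hy : ∀ M, ‖y M‖ ≤ C)
    {v w : H} {ε : ℝ} (hε : 0 < ε) (hv : ∀ N, ε ≤ ‖⟪x N, v⟫_ℂ‖) (hw : ∀ M, ε ≤ ‖⟪w, y M⟫_ℂ‖)
    {η : ℕ → ℝ} (hη : Tendsto η atTop (𝓝 0))
    (h : ∀ n M N, M ≤ N → ‖⟪(T ^ n) (x N), y M⟫_ℂ‖ ≤ η M) : ¬Trans T := by
  let U := hyperfilter ℕ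
  have hU : (U : Filter ℕ) ≤ atTop := Nat.hyperfilter_le_atTop
  obtain ⟨a, ha⟩ := exists_weak_limit (𝕜 := ℂ) U x C hx
  obtain ⟨b, hb⟩ := exists_weak_limit' (𝕜 := ℂ) U y C hy
  intro ht
  refine (ht a b fun n => ?_).elim (fun e => ?_) fun e => ?_
  rotate_left
  all_goals try subst e
  · have := ge_of_tendsto' (ha v).norm hv
    simp at this
    linarith
  · have := ge_of_tendsto' (hb w).norm hw
    simp at this
    linarith
  · rw [← norm_le_zero_iff]
    refine le_of_tendsto_of_tendsto' (hb _).norm (hη.mono_left hU) fun M => ?_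
    simp only [← adjoint_inner_right] at h ⊢
    refine le_of_tendsto (ha _).norm ?_
    filter_upwards [hU (eventually_ge_atTop M)] with N hN using h n M N hN

lemma Rep.orbit (r : Rep μ ϱ J (star T)) (h : Pair μ ϱ) {x : H} {f : ℂ → ℂ} (hf : Bd f)
    (hx : ∀ k : BB, ⟪x, J k⟫_ℂ = ∫ z, conj (f z) * k.1 z ∂μ) (n : ℕ) (k : BB) :
    ‖⟪(T ^ n) x, J k⟫_ℂ‖ ≤ ∫ z, ‖f z‖ * ‖k.1 z‖ ∂μ := by
  induction n generalizing k with
  | zero =>
    rw [pow_zero, one_apply_eq_self, hx]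
    simpa using norm_integral_le_integral_norm (μ := μ) fun z => conj (f z) * k.1 z
  | succ n ih =>
    rw [pow_succ', mul_apply_eq_comp, ← adjoint_inner_right, ← star_eq_adjoint, r.mul]
    refine (ih _).trans (integral_mono_of_nonneg (.of_forall fun _ => by positivity)
      (by simpa using ((hf.mul k.2).integrable h.μ_le).norm) ?_)
    filter_upwards [ae_ball_of_le h.μ_le] with z hz
    simp only [mulB_apply, norm_mul, RCLike.norm_conj]
    exact mul_le_mul_of_nonneg_left (mul_le_of_le_one_left (norm_nonneg _)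
      (mem_ball_zero_iff.1 hz).le) (norm_nonneg _)

omit [CompleteSpace H] in
lemma Rep.mass {S : H →L[ℂ] H} (r : Rep μ ϱ J S) (h : Pair μ ϱ) :
    ‖J oneB‖ ^ 2 = μ.real univ := by
  have := r.inner_one h oneB
  rw [inner_self_eq_norm_sq_to_K] at this
  apply Complex.ofReal_injective
  simpa [oneB] using this

lemma Rep.thick (r : Rep μ ϱ J (star T)) (h : Pair μ ϱ) (h0 : J oneB ≠ 0) {δ : ℝ} (hδ : 0 < δ)
    (hρ : ∀ᵐ z ∂mm, z ∈ ball (0 : ℂ) (3 / 4) → ENNReal.ofReal δ ≤ ϱ.rnDeriv mm z) : ¬Trans T := by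
  have := finite_of_le h.μ_le
  have := finite_of_le h.ϱ_le
  have hm : 0 < μ.real univ := by rw [← r.mass h]; positivity
  have hb : μ (ball 0 (1 / 2)) ≠ 0 := fun h1 => by
    have : μ univ = 0 := by
      rw [← h1]
      refine measure_congr ?_
      filter_upwards [h.ae_half] with z hz
      exact eq_iff_iff.2 ⟨fun _ => mem_ball_zero_iff.2 hz, fun _ => trivial⟩
    simp [Measure.real, this] at hm
  obtain ⟨c, hc, hpos⟩ := exists_mem_forall_mem_nhdsWithin_pos_measure hb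
  rw [mem_ball_zero_iff] at hc
  obtain ⟨s, s0, s1, s2⟩ : ∃ s : ℝ, 0 < s ∧ s ≤ 1 / 4 ∧ s ^ 2 < μ.real univ :=
    ⟨min (1 / 4) (μ.real univ), by positivity, min_le_left _ _, by
      have := min_le_left (1 / 4) (μ.real univ)
      have := min_le_right (1 / 4) (μ.real univ)
      have : 0 < min (1 / 4) (μ.real univ) := by positivity
      nlinarith⟩
  have hsub : ball c s ⊆ ball 0 (3 / 4) := ball_subset_ball' (by rw [dist_zero_right]; linarith)
  have hsub1 : ball c s ⊆ ball 0 1 := hsub.trans (ball_subset_ball (by norm_num))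
  let g : ℂ → ℂ := fun ζ => ((max (ϱ.rnDeriv mm ζ).toReal δ)⁻¹ : ℝ)
  have hg : Bd g := by
    refine .of_bound (by have := Measure.measurable_rnDeriv ϱ mm; fun_prop) δ⁻¹ fun ζ _ => ?_
    rw [Complex.norm_real, Real.norm_of_nonneg (by positivity)]
    exact inv_anti₀ hδ (le_max_right _ _)
  have hχ : Bd (indicator (ball c s) fun _ => (1 : ℂ)) := (Bd.const 1).indicator measurableSet_ball
  have hθ := hg.mul ((Bd.id.sub (Bd.const c)).mul hχ)
  have e1 : ∀ z, CT ϱ (fun ζ => g ζ * ((ζ - c) * indicator (ball c s) (fun _ => (1 : ℂ)) ζ)) z =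
      (z - c) * (∫ ζ in ball c s, (ζ - z)⁻¹ ∂mm) + (s ^ 2 : ℝ) := fun z => by
    have e2 : mD.restrict (ball c s) = mm.restrict (ball c s) := by
      rw [mD, Measure.restrict_restrict measurableSet_ball, inter_eq_left.2 hsub1]
    have e3 : ∀ f : ℂ → ℂ, ∫ ζ, f ζ * indicator (ball c s) (fun _ => (1 : ℂ)) ζ * (ζ - z)⁻¹ ∂mD =
        ∫ ζ in ball c s, f ζ * (ζ - z)⁻¹ ∂mm := fun f => by
      rw [← e2, ← integral_indicator measurableSet_ball]
      congr 1
      ext ζ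
      by_cases hζ : ζ ∈ ball c s <;> simp [hζ]
    have := CT_mul_sub le_rfl hχ c z
    have e4 := e3 fun _ => 1
    simp only [one_mul] at e4
    rw [integral_indicator measurableSet_ball, e2, CT, CT, e3, e4] at this
    simp only [mul_one, integral_const, measureReal_restrict_apply_univ,
      mm_real_ball c s0.le, Complex.real_smul] at this
    rw [← this, CT, ← integral_rnDeriv_smul (Measure.absolutelyContinuous_of_le
      (h.ϱ_le.trans mD_le)), ← integral_indicator measurableSet_ball]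
    apply integral_congr_ae
    filter_upwards [hρ, Measure.rnDeriv_lt_top ϱ mm] with ζ h1 h2
    by_cases hζ : ζ ∈ ball c s
    · have h3 : δ ≤ (ϱ.rnDeriv mm ζ).toReal := (ENNReal.ofReal_le_iff_le_toReal h2.ne).1 (h1 (hsub hζ))
      have h4 : ((ϱ.rnDeriv mm ζ).toReal : ℂ) ≠ 0 := by exact_mod_cast (hδ.trans_le h3).ne'
      simp only [g, max_eq_left h3, indicator_of_mem hζ, Complex.real_smul, Complex.ofReal_inv]
      field_simp
    · simp [hζ]
  obtain ⟨x, -, hx⟩ := r.exists_x h hθ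
  let k : BB := ⟨_, (Bd.const 1).indicator (measurableSet_ball (x := c) (ε := s)).compl⟩
  intro ht
  refine (ht x (J k) fun n => ?_).elim (fun h1 => ?_) fun h1 => ?_
  rotate_left
  · have h2 := hx oneB
    rw [h1, inner_zero_left] at h2
    have h3 : ∫ z, indicator (ball c s) (fun z => s ^ 2 - ‖z - c‖ ^ 2) z ∂μ = 0 := by
      apply Complex.ofReal_injective
      rw [← integral_complex_ofReal, Complex.ofReal_zero, h2]
      congr 1
      ext z
      by_cases hz : z ∈ ball c s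
      · rw [e1, integral_disc_in (by rwa [← dist_eq_norm]), indicator_of_mem hz, mul_neg,
          Complex.mul_conj, Complex.normSq_eq_norm_sq]
        simp [oneB]
        ring
      · have hz' : s ≤ ‖z - c‖ := by rwa [mem_ball, dist_eq_norm, not_lt] at hz
        have : z - c ≠ 0 := norm_pos_iff.1 (s0.trans_le hz')
        rw [e1, integral_disc_out s0 hz', indicator_of_notMem hz, mul_div_cancel₀ _ this]
        simp [oneB]
    rw [integral_indicator measurableSet_ball, setIntegral_eq_zero_iff_of_nonneg_ae] at h3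
    · refine (hpos (ball c s) (mem_nhdsWithin_of_mem_nhds (ball_mem_nhds c s0))).ne' ?_
      rw [← Measure.restrict_eq_zero, ← ae_eq_bot, ← eventually_false_iff_eq_bot]
      filter_upwards [h3, ae_restrict_mem measurableSet_ball] with z h4 h5
      rw [mem_ball, dist_eq_norm] at h5
      simp only [Pi.zero_apply] at h4
      nlinarith [norm_nonneg (z - c)]
    · filter_upwards [ae_restrict_mem measurableSet_ball] with z h5
      rw [mem_ball, dist_eq_norm] at h5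
      simp only [Pi.zero_apply]
      nlinarith [norm_nonneg (z - c)]
    · exact ((by fun_prop : Continuous fun z : ℂ => s ^ 2 - ‖z - c‖ ^ 2).continuousOn.integrableOn_compact
        (isCompact_closedBall c s)).mono_set ball_subset_closedBall
  · have h2 := r.inner_one h k
    rw [h1, inner_zero_right] at h2
    simp only [k, integral_indicator measurableSet_ball.compl, integral_const,
      measureReal_restrict_apply_univ, Complex.real_smul, mul_one] at h2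
    have h3 : μ.real (ball c s)ᶜ = 0 := by exact_mod_cast h2.symm
    have h4 : μ.real (ball c s) ≤ s ^ 2 := by
      rw [← mm_real_ball c s0.le]
      exact ENNReal.toReal_mono (by simp [mm_ball c s0.le]) ((h.μ_le.trans mD_le) _)
    rw [measureReal_compl measurableSet_ball] at h3
    linarith
  · rw [← norm_le_zero_iff]
    refine (r.orbit h (hθ.CT h.ϱ_le) hx n k).trans (le_of_eq ?_)
    refine integral_eq_zero_of_ae (.of_forall fun z => ?_)
    by_cases hz : z ∈ ball c s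
    · simp [k, hz]
    · have hz' : s ≤ ‖z - c‖ := by rwa [mem_ball, dist_eq_norm, not_lt] at hz
      have : z - c ≠ 0 := norm_pos_iff.1 (s0.trans_le hz')
      simp only [e1, integral_disc_out s0 hz', Pi.zero_apply, mul_eq_zero, norm_eq_zero]
      left
      push_cast
      field_simp
      simp

end Pool.Agent.Lib.MP_45cb44_an
end

-- part Pool.Agent.Lib.MP_45cb44_an.Tree
section

/-! The branching construction: densities of bounded energy. -/

namespace Pool.Agent.Lib.MP_45cb44_an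

open MeasureTheory Metric Set Filter Topology
open scoped ENNReal NNReal Real ComplexConjugate

/-- Energy pairing. -/
noncomputable def En (μ ϱ : Measure ℂ) (h k : ℂ → ℝ) : ℝ :=
  ∫ x : ℂ × ℂ, h x.1 * Real.exp (MM ϱ x.1 x.2) * k x.2 ∂(μ.prod μ)

/-- A bounded nonnegative density of mass at most one living in a set. -/
structure Den (μ : Measure ℂ) (S : Set ℂ) (h : ℂ → ℝ) : Prop where
  meas : Measurable h
  nonneg : ∀ z, 0 ≤ h z
  bdd : ∃ K, ∀ z, h z ≤ K
  supp : ∀ z, h z ≠ 0 → z ∈ S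
  mass : ∫ z, h z ∂μ ≤ 1

/-- Data of the branching construction. -/
structure Tree (μ ϱ : Measure ℂ) (X : Type) where
  c : X → ℂ
  s : X → ℝ
  u : X → ℝ
  α : X → ℝ
  ω : X → ℝ
  γ : X → ℝ
  l : X → X
  r : X → X
  g : X → ℂ → ℝ
  s_pos : ∀ x, 0 < s x
  u_pos : ∀ x, 0 < u x
  u_le : ∀ x, u x ≤ 1
  α_pos : ∀ x, 0 < α x
  ω_pos : ∀ x, 0 < ω x
  g_den : ∀ x, Den μ (Sq (c x) (s x)) (g x)
  g_le : ∀ x z, g x z ≤ 8 / s x ^ 2
  g_mass : ∀ x, γ x ≤ ∫ z, g x z ∂μ
  g_en : ∀ x, En μ ϱ (g x) (g x) ≤ 32 * Real.exp 32 * ω x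
  sub_l : ∀ x, Sq (c (l x)) (s (l x)) ⊆ Sq (c x) (s x)
  sub_r : ∀ x, Sq (c (r x)) (s (r x)) ⊆ Sq (c x) (s x)
  s_l : ∀ x, s (l x) = s x / 64
  s_r : ∀ x, s (r x) = s x / 64
  step : ∀ x, (r x = l x ∧ u (l x) = u x / 2 ∧ α (l x) = α x ∧
      γ x - α x * ω x ≤ γ (l x) - α x * ω (l x)) ∨
    (c (r x) = c (l x) + (s x / 2 : ℝ) ∧ u (l x) = 1 ∧ u (r x) = 1 ∧ α (l x) = α x / 2 ∧
      α (r x) = α x / 2 ∧ ω (l x) = 10 / 9 * ω x ∧ ω (r x) = 10 / 9 * ω x ∧
      γ x - α x * ω x / 4 ≤ (γ (l x) + γ (r x)) / 2 ∧ u x ≤ 1 / 8 ∧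
      u x * s x ^ 2 / 327680 ≤ ϱ.real (ball (c x) (2 * s x) \
        (ball (c (l x)) (s x / 32) ∪ ball (c (r x)) (s x / 32))) ∧
      ∀ z ∈ Sq (c x) (s x), Real.exp (aa ϱ z (s x)) ≤ ω x)

variable {μ ϱ : Measure ℂ} {X : Type} {S S' : Set ℂ} {h k : ℂ → ℝ}

lemma Den.bd (d : Den μ S h) : Bd fun z => (h z : ℂ) := by
  obtain ⟨K, hK⟩ := d.bdd
  refine .of_bound (Complex.measurable_ofReal.comp d.meas) K fun z _ => ?_
  rw [Complex.norm_real, Real.norm_of_nonneg (d.nonneg z)]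
  exact hK z

lemma Den.norm (d : Den μ S h) (z : ℂ) : ‖(h z : ℂ)‖ = h z := by
  rw [Complex.norm_real, Real.norm_of_nonneg (d.nonneg z)]

lemma Den.integrable (d : Den μ S h) (hμ : μ ≤ mD) : Integrable h μ := by
  simpa only [d.norm] using (d.bd.integrable hμ).norm

lemma Den.mono (d : Den μ S h) (hS : S ⊆ S') : Den μ S' h :=
  ⟨d.meas, d.nonneg, d.bdd, fun z hz => hS (d.supp z hz), d.mass⟩

lemma Den.avg (hμ : μ ≤ mD) (d : Den μ S h) (e : Den μ S k) :
    Den μ S fun z => (h z + k z) / 2 := by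
  obtain ⟨K, hK⟩ := d.bdd
  obtain ⟨L, hL⟩ := e.bdd
  refine ⟨(d.meas.add e.meas).div_const 2, fun z => by linarith [d.nonneg z, e.nonneg z],
    ⟨(K + L) / 2, fun z => by linarith [hK z, hL z]⟩, fun z hz => ?_, ?_⟩
  · by_contra hS
    have a1 : h z = 0 := by_contra fun a => hS (d.supp z a)
    have a2 : k z = 0 := by_contra fun a => hS (e.supp z a)
    simp [a1, a2] at hz
  · rw [integral_div, integral_add (d.integrable hμ) (e.integrable hμ)]
    linarith [d.mass, e.mass]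

lemma Den.integrable_en (p : Pair μ ϱ) (d : Den μ S h) (e : Den μ S' k) :
    Integrable (fun x : ℂ × ℂ => h x.1 * Real.exp (MM ϱ x.1 x.2) * k x.2) (μ.prod μ) := by
  simpa only [d.norm, e.norm] using p.integrable_bd d.bd e.bd

lemma Den.en_le (p : Pair μ ϱ) (d : Den μ S h) (e : Den μ S' k) {C : ℝ} (hC : 0 ≤ C)
    (hb : ∀ z ∈ S, ∀ w ∈ S', Real.exp (MM ϱ z w) ≤ C) : En μ ϱ h k ≤ C := by
  have := finite_of_le p.μ_le
  have i := ((d.integrable p.μ_le).mul_prod (e.integrable p.μ_le)).const_mul C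
  refine (integral_mono (d.integrable_en p e) i fun x => ?_).trans ?_
  · by_cases h1 : h x.1 = 0
    · simp [h1]
    by_cases h2 : k x.2 = 0
    · simp [h2]
    have := mul_le_mul_of_nonneg_right (hb _ (d.supp _ h1) _ (e.supp _ h2))
      (mul_nonneg (d.nonneg x.1) (e.nonneg x.2))
    simp only
    linarith
  · rw [integral_const_mul, integral_prod_mul]
    exact mul_le_of_le_one_right hC (mul_le_one₀ d.mass (integral_nonneg e.nonneg) e.mass)

lemma Den.en_avg (p : Pair μ ϱ) (d : Den μ S h) (e : Den μ S' k) :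
    En μ ϱ (fun z => (h z + k z) / 2) (fun z => (h z + k z) / 2) =
      (En μ ϱ h h + En μ ϱ h k + (En μ ϱ k h + En μ ϱ k k)) / 4 := by
  simp only [En]
  rw [← integral_add' (d.integrable_en p d) (d.integrable_en p e),
    ← integral_add' (e.integrable_en p d) (e.integrable_en p e), ← integral_add'
    ((d.integrable_en p d).add (d.integrable_en p e))
    ((e.integrable_en p d).add (e.integrable_en p e)), ← integral_div]
  congr 1
  ext x
  simp only [Pi.add_apply]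
  ring

/-- The densities at depth `M`. -/
noncomputable def Tree.hh (t : Tree μ ϱ X) : ℕ → X → ℂ → ℝ
  | 0, x => t.g x
  | M + 1, x => fun z => (t.hh M (t.l x) z + t.hh M (t.r x) z) / 2

lemma Tree.den (t : Tree μ ϱ X) (p : Pair μ ϱ) (M : ℕ) (x : X) :
    Den μ (Sq (t.c x) (t.s x)) (t.hh M x) := by
  induction M generalizing x with
  | zero => exact t.g_den x
  | succ M ih => exact ((ih _).mono (t.sub_l x)).avg p.μ_le ((ih _).mono (t.sub_r x))

lemma Tree.energy (t : Tree μ ϱ X) (p : Pair μ ϱ) (M : ℕ) (x : X) :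
    t.α x * En μ ϱ (t.hh M x) (t.hh M x) ≤
      32 * Real.exp 32 * (∫ z, t.hh M x z ∂μ - t.γ x + t.α x * t.ω x) := by
  have hE := Real.exp_pos 32
  induction M generalizing x with
  | zero =>
    have h1 := mul_le_mul_of_nonneg_left (t.g_en x) (t.α_pos x).le
    have h2 := mul_le_mul_of_nonneg_left (t.g_mass x) hE.le
    simp only [Tree.hh]
    linarith
  | succ M ih =>
    have dl := t.den p M (t.l x)
    have dr := t.den p M (t.r x)
    have il := ih (t.l x)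
    have ir := ih (t.r x)
    rcases t.step x with ⟨e1, -, e2, e3⟩ | ⟨e1, -, -, e2, e3, e4, e5, e6, -, -, e7⟩
    · simp only [Tree.hh, e1, add_self_div_two]
      rw [e2] at il
      nlinarith
    · have hs := t.s_pos x
      have hω := t.ω_pos x
      have hα := t.α_pos x
      have cr : ∀ z ∈ Sq (t.c (t.l x)) (t.s (t.l x)), ∀ w ∈ Sq (t.c (t.r x)) (t.s (t.r x)),
          Real.exp (MM ϱ z w) ≤ Real.exp 32 * t.ω x := fun z hz w hw => by
        have a1 := e7 z (t.sub_l x hz)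
        have a2 := e7 w (t.sub_r x hw)
        have a3 : t.s x / 8 ≤ ‖z - w‖ / 2 := by
          have b1 := Sq.norm_le hz
          have b2 := Sq.norm_le hw
          rw [t.s_l] at b1
          rw [t.s_r, e1] at b2
          have b3 := norm_sub_le (z - t.c (t.l x) - (w - (t.c (t.l x) + (t.s x / 2 : ℝ)))) (z - w)
          rw [show z - t.c (t.l x) - (w - (t.c (t.l x) + (t.s x / 2 : ℝ))) - (z - w) =
            (t.s x / 2 : ℝ) by ring, Complex.norm_real, Real.norm_of_nonneg (by positivity)] at b3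
          linarith [norm_sub_le (z - t.c (t.l x)) (w - (t.c (t.l x) + (t.s x / 2 : ℝ)))]
        have a4 := (MM_le p.ϱ_le (z := z) (w := w) hs (by positivity : 0 < t.s x / 8)
          (.of_forall fun ζ => (half_le_or z w ζ).imp a3.trans a3.trans)).2
        rw [show 4 * t.s x / (t.s x / 8) = 32 by field_simp; norm_num] at a4
        refine (Real.exp_le_exp.2 a4).trans ?_
        rw [Real.exp_add, mul_comm]
        refine mul_le_mul_of_nonneg_left ?_ hE.le
        rcases le_total (aa ϱ z (t.s x)) (aa ϱ w (t.s x)) with a | a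
        · exact (Real.exp_le_exp.2 (by linarith)).trans a2
        · exact (Real.exp_le_exp.2 (by linarith)).trans a1
      have c1 := mul_le_mul_of_nonneg_left (dl.en_le p dr (by positivity) cr) hα.le
      have c2 := mul_le_mul_of_nonneg_left (dr.en_le p dl (C := Real.exp 32 * t.ω x)
        (by positivity) fun z hz w hw => by
        rw [MM_comm]; exact cr w hw z hz) hα.le
      simp only [Tree.hh]
      rw [dl.en_avg p dr, integral_div, integral_add (dl.integrable p.μ_le) (dr.integrable p.μ_le)]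
      rw [e2, e4] at il
      rw [e3, e5] at ir
      have c3 := mul_le_mul_of_nonneg_left e6 hE.le
      have c4 : 0 ≤ Real.exp 32 * (t.α x * t.ω x) := by positivity
      linarith

end Pool.Agent.Lib.MP_45cb44_an
end

-- part Pool.Agent.Lib.MP_45cb44_an.Kill
section

/-! The branching construction: functions that are small against the densities. -/

namespace Pool.Agent.Lib.MP_45cb44_an

open MeasureTheory Metric Set Filter Topology
open scoped ENNReal NNReal Real ComplexConjugate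

variable {μ ϱ : Measure ℂ} {X : Type}

lemma one_sub_CT_mul {p q : ℂ → ℂ} (hν : ϱ ≤ mD) (hp : Bd p) (hq : Bd q) (z : ℂ) :
    1 - CT ϱ (fun ζ => p ζ * (1 - CT ϱ q ζ) + q ζ * (1 - CT ϱ p ζ)) z =
      (1 - CT ϱ p z) * (1 - CT ϱ q z) := by
  have a := hp.mul (hq.CT hν)
  have b := hq.mul (hp.CT hν)
  simp only [mul_sub, mul_one]
  rw [CT_add hν (hp.sub a) (hq.sub b), CT_sub hν hp a, CT_sub hν hq b]
  linear_combination -CT_mul hν hν hp hq z

/-- Size conditions on a density `Θ` attached to the point `l`. -/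
structure Kl (ϱ : Measure ℂ) (l : ℂ) (Θ : ℂ → ℂ) (b e : ℝ) : Prop where
  bd : Bd Θ
  supp : ∀ ζ, Θ ζ ≠ 0 → ‖ζ - l‖ ≤ b / 4
  l1 : ∫ ζ, ‖Θ ζ‖ ∂ϱ ≤ e / 4
  l2 : ∫ ζ, ‖(ζ - l) * Θ ζ‖ ^ 2 ∂ϱ ≤ b ^ 2

lemma Kl.far (hν : ϱ ≤ mD) {l a z : ℂ} {Θ : ℂ → ℂ} {b : ℝ} (k : Kl ϱ l Θ b b) (hb : 0 < b)
    (hl : ‖l - a‖ ≤ b) (hz : 2 * b ≤ ‖z - a‖) : ‖1 - CT ϱ Θ z‖ ≤ 2 := by
  have := norm_CT_far hν k.bd (d := b / 4) (z := z) (by positivity) fun ζ hζ => by
    have h1 := norm_sub_le_norm_sub_add_norm_sub z ζ a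
    have h2 := norm_sub_le_norm_sub_add_norm_sub ζ l a
    rw [norm_sub_rev z ζ] at h1
    linarith [k.supp ζ hζ]
  have h3 := (div_le_one (by positivity)).2 k.l1
  have h4 := norm_sub_le 1 (CT ϱ Θ z)
  rw [norm_one] at h4
  linarith

lemma Bd.integrable_sq {f : ℂ → ℂ} (hf : Bd f) (hν : ϱ ≤ mD) :
    Integrable (fun z => ‖f z‖ ^ 2) ϱ := by
  simpa [sq] using ((hf.mul hf).integrable hν).norm

lemma split_kill (hν : ϱ ≤ mD) {a c l1 l2 : ℂ} {s : ℝ} (hs : 0 < s) {Θ1 Θ2 : ℂ → ℂ}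
    (h1 : ‖l1 - a‖ ≤ s / 64) (h2 : ‖l2 - (a + (s / 2 : ℝ))‖ ≤ s / 64) (c1 : ‖l1 - c‖ ≤ s)
    (c2 : ‖l2 - c‖ ≤ s) (k1 : Kl ϱ l1 Θ1 (s / 64) (s / 64)) (k2 : Kl ϱ l2 Θ2 (s / 64) (s / 64))
    {m : ℝ} (hm : 0 < m)
    (hP : m ≤ ϱ.real (ball c (2 * s) \ (ball a (s / 32) ∪ ball (a + (s / 2 : ℝ)) (s / 32)))) :
    ∃ Θ, Bd Θ ∧ (∀ ζ, Θ ζ ≠ 0 → ‖ζ - l1‖ ≤ 3 * s) ∧ ∫ ζ, ‖Θ ζ‖ ∂ϱ ≤ 14 * s ∧
      ∫ ζ, ‖(ζ - l1) * Θ ζ‖ ^ 2 ∂ϱ ≤ 96 * s ^ 2 + 3888 * s ^ 4 / m ∧
      (∀ z, ‖z - a‖ ≤ s / 64 → ‖z - l1‖ * ‖1 - CT ϱ Θ z‖ ≤ 256 * (‖z - l1‖ * ‖1 - CT ϱ Θ1 z‖)) ∧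
      ∀ z, ‖z - (a + (s / 2 : ℝ))‖ ≤ s / 64 →
        ‖z - l1‖ * ‖1 - CT ϱ Θ z‖ ≤ 256 * (‖z - l2‖ * ‖1 - CT ϱ Θ2 z‖) := by
  have := finite_of_le hν
  set a' := a + (s / 2 : ℝ) with ha'
  set P := ball c (2 * s) \ (ball a (s / 32) ∪ ball a' (s / 32))
  have mP : MeasurableSet P := measurableSet_ball.diff (measurableSet_ball.union measurableSet_ball)
  have hP0 : 0 < ϱ.real P := hm.trans_le hP
  have tri := @norm_sub_le_norm_sub_add_norm_sub ℂ _
  have d0 : ‖a' - a‖ = s / 2 := by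
    rw [ha', add_sub_cancel_left, Complex.norm_real, Real.norm_of_nonneg (by positivity)]
  have d1 : ‖a - a'‖ = s / 2 := by rw [norm_sub_rev, d0]
  have hPm : ∀ ζ ∈ P, ‖ζ - c‖ < 2 * s ∧ s / 32 ≤ ‖ζ - a‖ ∧ s / 32 ≤ ‖ζ - a'‖ := fun ζ hζ => by
    simpa [P, dist_eq_norm] using hζ
  let p : ℂ → ℂ := indicator P fun _ => ((ϱ.real P)⁻¹ : ℝ)
  have hp : Bd p := (Bd.const _).indicator mP
  have hpP : ∀ ζ, p ζ ≠ 0 → ζ ∈ P := fun ζ h => mem_of_indicator_ne_zero h
  have ip : ∫ ζ, p ζ ∂ϱ = 1 := by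
    simp [p, integral_indicator mP, hP0.ne']
  have np : ∀ ζ, ‖p ζ‖ ≤ m⁻¹ := fun ζ => (norm_indicator_le_norm_self _ _).trans (by
    rw [Complex.norm_real, Real.norm_of_nonneg (by positivity)]; exact inv_anti₀ hm hP)
  have ip' : ∫ ζ, ‖p ζ‖ ∂ϱ = 1 := by
    simp [p, norm_indicator_eq_indicator_norm, integral_indicator mP, hP0.ne', abs_of_pos hP0]
  have hθ : Bd fun ζ => (ζ - l2) * p ζ := (Bd.id.sub (Bd.const _)).mul hp
  set θ := fun ζ => (ζ - l2) * p ζ
  have w : ∀ z, ‖z - a‖ ≤ 5 * s / 256 ∨ ‖z - a'‖ ≤ 5 * s / 256 →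
      ‖1 - CT ϱ θ z‖ ≤ ‖z - l2‖ * (128 / s) := fun z hz => by
    rw [CT_mul_sub hν hp, ip, show ∀ x : ℂ, 1 - (x + 1) = -x by intro x; ring, norm_neg, norm_mul]
    refine mul_le_mul_of_nonneg_left ((norm_CT_far hν hp (d := s / 128) (by positivity)
      fun ζ hζ => ?_).trans_eq (by rw [ip']; field_simp)) (norm_nonneg _)
    obtain ⟨-, q1, q2⟩ := hPm ζ (hpP ζ hζ)
    rcases hz with hz | hz <;> linarith [tri ζ z a, tri ζ z a']
  have w' : ∀ x : ℝ, x ≤ s → x * (128 / s) ≤ 128 := fun x hx =>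
    (mul_le_mul_of_nonneg_right hx (by positivity)).trans_eq (by field_simp)
  have A1 : ∀ z, ‖z - a‖ ≤ 5 * s / 256 → ‖1 - CT ϱ Θ2 z‖ * ‖1 - CT ϱ θ z‖ ≤ 256 := fun z hz => by
    have q1 := k2.far hν (by positivity) h2 (z := z) (by linarith [tri a z a', norm_sub_rev a z])
    have q2 := (w z (Or.inl hz)).trans (w' _
      (by linarith [tri z a l2, tri a a' l2, norm_sub_rev a' l2]))
    exact (mul_le_mul q1 q2 (norm_nonneg _) zero_le_two).trans_eq (by norm_num)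
  have A2 : ∀ z, ‖z - a'‖ ≤ 5 * s / 256 → ‖1 - CT ϱ Θ1 z‖ * ‖1 - CT ϱ θ z‖ ≤ 256 ∧
      ‖z - l1‖ * (‖1 - CT ϱ Θ1 z‖ * ‖1 - CT ϱ θ z‖) ≤ 256 * ‖z - l2‖ := fun z hz => by
    have q1 := k1.far hν (by positivity) h1 (z := z) (by linarith [tri a' z a, norm_sub_rev a' z])
    have q2 := mul_le_mul q1 (w z (Or.inr hz)) (norm_nonneg _) zero_le_two
    have q3 := w' ‖z - l2‖ (by linarith [tri z a' l2, norm_sub_rev a' l2])
    have q4 := w' ‖z - l1‖ (by linarith [tri z a' l1, tri a' a l1, norm_sub_rev a l1])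
    refine ⟨by linarith, (mul_le_mul_of_nonneg_left q2 (norm_nonneg _)).trans ?_⟩
    nlinarith [norm_nonneg (z - l2)]
  have A3 : ∀ z ∈ P, ‖1 - CT ϱ Θ1 z‖ * ‖1 - CT ϱ Θ2 z‖ ≤ 4 := fun z hz => by
    obtain ⟨-, q1, q2⟩ := hPm z hz
    exact (mul_le_mul (k1.far hν (by positivity) h1 (by linarith))
      (k2.far hν (by positivity) h2 (by linarith)) (norm_nonneg _) zero_le_two).trans_eq (by norm_num)
  have o : ∀ {f : ℂ → ℂ}, Bd f → Bd fun z => 1 - CT ϱ f z := fun hf => (Bd.const 1).sub (hf.CT hν)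
  have b12 := (k1.bd.mul (o k2.bd)).add (k2.bd.mul (o k1.bd))
  have bΘ := (b12.mul (o hθ)).add (hθ.mul (o b12))
  have n1 : ∀ ζ, Θ1 ζ ≠ 0 → ‖ζ - a‖ ≤ 5 * s / 256 := fun ζ h => by
    linarith [tri ζ l1 a, k1.supp ζ h]
  have n2 : ∀ ζ, Θ2 ζ ≠ 0 → ‖ζ - a'‖ ≤ 5 * s / 256 := fun ζ h => by
    linarith [tri ζ l2 a', k2.supp ζ h]
  have n3 : ∀ ζ ∈ P, ‖ζ - l1‖ ≤ 3 * s ∧ ‖ζ - l2‖ ≤ 3 * s := fun ζ h => by
    constructor <;> linarith [tri ζ c l1, tri ζ c l2, (hPm ζ h).1, norm_sub_rev c l1,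
      norm_sub_rev c l2]
  have t1 : ∀ ζ, ‖Θ1 ζ * (1 - CT ϱ Θ2 ζ) * (1 - CT ϱ θ ζ)‖ ≤ 256 * ‖Θ1 ζ‖ := fun ζ => by
    by_cases h : Θ1 ζ = 0
    · simp [h]
    · rw [norm_mul, norm_mul, mul_assoc, mul_comm 256]
      exact mul_le_mul_of_nonneg_left (A1 ζ (n1 ζ h)) (norm_nonneg _)
  have t2 : ∀ ζ, ‖Θ2 ζ * (1 - CT ϱ Θ1 ζ) * (1 - CT ϱ θ ζ)‖ ≤ 256 * ‖Θ2 ζ‖ ∧
      ‖ζ - l1‖ * ‖Θ2 ζ * (1 - CT ϱ Θ1 ζ) * (1 - CT ϱ θ ζ)‖ ≤ 256 * ‖(ζ - l2) * Θ2 ζ‖ := fun ζ => by
    by_cases h : Θ2 ζ = 0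
    · simp [h]
    · obtain ⟨q1, q2⟩ := A2 ζ (n2 ζ h)
      have q3 := mul_le_mul_of_nonneg_left q1 (norm_nonneg (Θ2 ζ))
      have q4 := mul_le_mul_of_nonneg_left q2 (norm_nonneg (Θ2 ζ))
      simp only [norm_mul]
      constructor <;> linarith
  have t3 : ∀ ζ, ‖θ ζ * ((1 - CT ϱ Θ1 ζ) * (1 - CT ϱ Θ2 ζ))‖ ≤ 12 * s * ‖p ζ‖ ∧
      ‖ζ - l1‖ * ‖θ ζ * ((1 - CT ϱ Θ1 ζ) * (1 - CT ϱ Θ2 ζ))‖ ≤ 36 * s ^ 2 * ‖p ζ‖ := fun ζ => by
    by_cases h : p ζ = 0
    · simp [θ, h]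
    · obtain ⟨q1, q2⟩ := n3 ζ (hpP ζ h)
      have q3 : ‖θ ζ * ((1 - CT ϱ Θ1 ζ) * (1 - CT ϱ Θ2 ζ))‖ ≤ 12 * s * ‖p ζ‖ := by
        simp only [θ, norm_mul]
        exact (mul_le_mul (mul_le_mul_of_nonneg_right q2 (norm_nonneg _)) (A3 ζ (hpP ζ h))
          (by positivity) (by positivity)).trans_eq (by ring)
      exact ⟨q3, (mul_le_mul q1 q3 (norm_nonneg _) (by positivity)).trans_eq (by ring)⟩
  have i1 := (k1.bd.integrable hν).norm.const_mul 256
  have i2 := (k2.bd.integrable hν).norm.const_mul 256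
  have i3 := (hp.integrable hν).norm
  have j1 := (((Bd.id.sub (Bd.const l1)).mul k1.bd).integrable_sq hν).const_mul (3 * 256 ^ 2)
  have j2 := (((Bd.id.sub (Bd.const l2)).mul k2.bd).integrable_sq hν).const_mul (3 * 256 ^ 2)
  refine ⟨_, bΘ, fun ζ hζ => ?_, ?_, ?_, fun z hz => ?_, fun z hz => ?_⟩
  · by_contra! h
    have q1 : Θ1 ζ = 0 := by_contra fun q => by linarith [k1.supp ζ q]
    have q2 : Θ2 ζ = 0 := by_contra fun q => by
      linarith [k2.supp ζ q, tri ζ l2 l1, tri l2 c l1, norm_sub_rev c l1]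
    have q3 : p ζ = 0 := by_contra fun q => by linarith [(n3 ζ (hpP ζ q)).1]
    simp [θ, q1, q2, q3] at hζ
  · refine (integral_mono_of_nonneg (.of_forall fun _ => norm_nonneg _)
      ((i1.add i2).add (i3.const_mul (12 * s))) (.of_forall fun ζ => ?_)).trans ?_
    · simp only [Pi.add_apply, one_sub_CT_mul hν k1.bd k2.bd, add_mul]
      exact norm_add₃_le.trans (add_le_add (add_le_add (t1 ζ) (t2 ζ).1) (t3 ζ).1)
    · rw [integral_add' (i1.add i2) (i3.const_mul _), integral_add' i1 i2]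
      simp only [integral_const_mul, ip']
      linarith [k1.l1, k2.l1]
  · refine (integral_mono_of_nonneg (.of_forall fun _ => by positivity)
      ((j1.add j2).add (i3.const_mul (3888 * s ^ 4 / m))) (.of_forall fun ζ => ?_)).trans ?_
    · simp only [Pi.add_apply, one_sub_CT_mul hν k1.bd k2.bd, add_mul]
      have q1 := mul_le_mul_of_nonneg_left (norm_add₃_le (a := Θ1 ζ * (1 - CT ϱ Θ2 ζ) *
        (1 - CT ϱ θ ζ)) (b := Θ2 ζ * (1 - CT ϱ Θ1 ζ) * (1 - CT ϱ θ ζ))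
        (c := θ ζ * ((1 - CT ϱ Θ1 ζ) * (1 - CT ϱ Θ2 ζ)))) (norm_nonneg (ζ - l1))
      have q2 := mul_le_mul_of_nonneg_left (t1 ζ) (norm_nonneg (ζ - l1))
      rw [mul_left_comm, ← norm_mul (ζ - l1) (Θ1 ζ)] at q2
      have q3 : ‖p ζ‖ ^ 2 ≤ m⁻¹ * ‖p ζ‖ := by
        rw [sq]; exact mul_le_mul_of_nonneg_right (np ζ) (norm_nonneg _)
      have q4 := mul_le_mul_of_nonneg_left q3 (by positivity : 0 ≤ 3888 * s ^ 4)
      rw [norm_mul (ζ - l1)]
      refine (pow_le_pow_left₀ (by positivity) (show _ ≤ 256 * ‖(ζ - l1) * Θ1 ζ‖ +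
        256 * ‖(ζ - l2) * Θ2 ζ‖ + 36 * s ^ 2 * ‖p ζ‖ by linarith [(t2 ζ).2, (t3 ζ).2]) 2).trans ?_
      rw [div_eq_mul_inv]
      nlinarith [sq_nonneg (256 * ‖(ζ - l1) * Θ1 ζ‖ - 256 * ‖(ζ - l2) * Θ2 ζ‖),
        sq_nonneg (256 * ‖(ζ - l1) * Θ1 ζ‖ - 36 * s ^ 2 * ‖p ζ‖),
        sq_nonneg (256 * ‖(ζ - l2) * Θ2 ζ‖ - 36 * s ^ 2 * ‖p ζ‖)]
    · rw [integral_add' (j1.add j2) (i3.const_mul _), integral_add' j1 j2]
      simp only [integral_const_mul, ip']
      linarith [k1.l2, k2.l2]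
  · rw [one_sub_CT_mul hν b12 hθ, one_sub_CT_mul hν k1.bd k2.bd, norm_mul, norm_mul]
    have := mul_le_mul_of_nonneg_left (A1 z (by linarith))
      (mul_nonneg (norm_nonneg (z - l1)) (norm_nonneg (1 - CT ϱ Θ1 z)))
    linarith
  · rw [one_sub_CT_mul hν b12 hθ, one_sub_CT_mul hν k1.bd k2.bd, norm_mul, norm_mul]
    have := mul_le_mul_of_nonneg_left (A2 z (by linarith)).2 (norm_nonneg (1 - CT ϱ Θ2 z))
    linarith

lemma integral_norm_CT_le (hμ : μ ≤ mD) (hν : ϱ ≤ mD) {f q : ℂ → ℂ} (hf : Bd f) (hq : Bd q)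
    {S : Set ℂ} {K r : ℝ} (hr : 0 < r) (hm : μ S ≤ ENNReal.ofReal (r ^ 2)) (hK : 0 ≤ K)
    (h0 : ∀ ζ, ζ ∉ S → f ζ = 0) (h : ∀ ζ, ‖f ζ‖ ≤ K) :
    ∫ z, ‖CT ϱ q z‖ * ‖f z‖ ∂μ ≤ (∫ ζ, ‖q ζ‖ ∂ϱ) * (K * (3 * r)) := by
  have hc := hq.CT hν
  let v : ℂ → ℂ := fun z => ‖f z‖ * (conj (CT ϱ q z) / ‖CT ϱ q z‖)
  have n : ∀ z, ‖v z‖ ≤ ‖f z‖ := fun z => by
    simp only [v, norm_mul, norm_div, Complex.norm_real, norm_norm, RCLike.norm_conj]
    exact mul_le_of_le_one_right (norm_nonneg _) (div_self_le_one _)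
  have hv : Bd v := .of_bound (by
    have := hf.1; have := hc.1; have := hc.conj.1; fun_prop) K fun z _ => (n z).trans (h z)
  have e : ((∫ z, ‖CT ϱ q z‖ * ‖f z‖ ∂μ : ℝ) : ℂ) = ∫ z, v z * CT ϱ q z ∂μ := by
    rw [← integral_complex_ofReal]
    congr 1
    ext z
    by_cases h : CT ϱ q z = 0
    · simp [h]
    · have : (‖CT ϱ q z‖ : ℂ) ≠ 0 := by simpa using h
      simp only [v]
      rw [mul_assoc, div_mul_eq_mul_div, Complex.conj_mul']
      push_cast
      field_simp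
  refine (Real.le_norm_self _).trans ?_
  rw [← Complex.norm_real, e, CT_antisymm hμ hν hv hq, norm_neg, ← integral_mul_const]
  refine norm_integral_le_of_norm_le ((hq.integrable hν).norm.mul_const _) (.of_forall fun z => ?_)
  rw [norm_mul]
  exact mul_le_mul_of_nonneg_left (norm_CT_le' hμ hr hm hK (fun ζ hζ => by simp [v, h0 ζ hζ])
    (fun ζ _ => (n ζ).trans (h ζ)) z) (norm_nonneg _)

lemma Den.integrable_fn {S : Set ℂ} {h : ℂ → ℝ} (d : Den μ S h) (p : Pair μ ϱ) {Θ : ℂ → ℂ}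
    (hΘ : Bd Θ) (l : ℂ) : Integrable (fun z => ‖z - l‖ * ‖1 - CT ϱ Θ z‖ * h z) μ := by
  simpa only [norm_mul, d.norm] using ((((Bd.id.sub (Bd.const l)).mul
    ((Bd.const 1).sub (hΘ.CT p.ϱ_le))).mul d.bd).integrable p.μ_le).norm

lemma Tree.base (t : Tree μ ϱ X) (p : Pair μ ϱ) (x : X) {l : ℂ} (hl : l ∈ Sq (t.c x) (t.s x))
    {Θ : ℂ → ℂ} {b : ℝ} (k : Kl ϱ l Θ b (t.s x / t.u x ^ 5)) :
    ∫ z, ‖z - l‖ * ‖1 - CT ϱ Θ z‖ * t.g x z ∂μ ≤ 14 * (t.s x / t.u x ^ 5) := by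
  have d := t.g_den x
  have hs := t.s_pos x
  have hu := t.u_pos x
  have h1 := integral_norm_CT_le p.μ_le p.ϱ_le d.bd k.bd (S := Sq (t.c x) (t.s x))
    (K := 8 / t.s x ^ 2) hs (((p.μ_le.trans mD_le) _).trans (mm_Sq _ hs.le)) (by positivity)
    (fun ζ hζ => by simpa using by_contra fun h => hζ (d.supp ζ h))
    fun ζ => by rw [d.norm]; exact t.g_le x ζ
  have i1 := d.integrable p.μ_le
  have i2 : Integrable (fun z => ‖CT ϱ Θ z‖ * ‖(t.g x z : ℂ)‖) μ := by
    simpa only [norm_mul] using (((k.bd.CT p.ϱ_le).mul d.bd).integrable p.μ_le).norm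
  refine (integral_mono (d.integrable_fn p k.bd l) ((i1.add i2).const_mul (2 * t.s x))
    fun z => ?_).trans ?_
  · simp only [Pi.add_apply, d.norm]
    by_cases h : t.g x z = 0
    · simp [h]
    · have a1 : ‖z - l‖ ≤ 2 * t.s x := by
        linarith [norm_sub_le_norm_sub_add_norm_sub z (t.c x) l, Sq.norm_le hl,
          Sq.norm_le (d.supp z h), norm_sub_rev l (t.c x)]
      have a2 := norm_sub_le 1 (CT ϱ Θ z)
      rw [norm_one] at a2
      exact (mul_le_mul_of_nonneg_right (mul_le_mul a1 a2 (norm_nonneg _) (by positivity))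
        (d.nonneg z)).trans_eq (by ring)
  · rw [integral_const_mul, integral_add' i1 i2]
    have a1 : t.s x ≤ t.s x / t.u x ^ 5 :=
      le_div_self hs.le (by positivity) (pow_le_one₀ hu.le (t.u_le x))
    have a2 := h1.trans (mul_le_mul_of_nonneg_right k.l1 (by positivity))
    refine (mul_le_mul_of_nonneg_left (add_le_add d.mass a2) (by positivity)).trans ?_
    generalize t.s x / t.u x ^ 5 = e at *
    rw [show 2 * t.s x * (1 + e / 4 * (8 / t.s x ^ 2 * (3 * t.s x))) = 2 * t.s x + 12 * e by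
      field_simp; ring]
    linarith

lemma Tree.fn (t : Tree μ ϱ X) (p : Pair μ ϱ) (N : ℕ) (x : X) :
    ∃ l ∈ Sq (t.c x) (t.s x), ∃ Θ, Kl ϱ l Θ (t.s x / t.u x ^ 6) (t.s x / t.u x ^ 5) ∧ ∀ M ≤ N,
      ∫ z, ‖z - l‖ * ‖1 - CT ϱ Θ z‖ * t.hh M x z ∂μ ≤ 14 * (t.s x / t.u x ^ 5) * (1 / 2) ^ M := by
  induction N generalizing x with
  | zero =>
    have hs := t.s_pos x
    have hu := t.u_pos x
    have hc := ball_subset_Sq (t.c x) _ (mem_ball_self (half_pos hs))
    have k : Kl ϱ (t.c x) (fun _ => 0) (t.s x / t.u x ^ 6) (t.s x / t.u x ^ 5) :=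
      ⟨Bd.const 0, by simp, by simp; positivity, by simp; positivity⟩
    refine ⟨_, hc, _, k, fun M hM => ?_⟩
    obtain rfl := Nat.le_zero.1 hM
    simpa [Tree.hh] using t.base p x hc k
  | succ N ih =>
    have hs := t.s_pos x
    have hu := t.u_pos x
    suffices h : ∃ l ∈ Sq (t.c x) (t.s x), ∃ Θ, Kl ϱ l Θ (t.s x / t.u x ^ 6) (t.s x / t.u x ^ 5) ∧
        ∀ M ≤ N, ∫ z, ‖z - l‖ * ‖1 - CT ϱ Θ z‖ * t.hh (M + 1) x z ∂μ ≤
          14 * (t.s x / t.u x ^ 5) * (1 / 2) ^ (M + 1) by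
      obtain ⟨l, hl, Θ, k, h⟩ := h
      refine ⟨l, hl, Θ, k, fun M hM => ?_⟩
      cases M with
      | zero => simpa [Tree.hh] using t.base p x hl k
      | succ M => exact h M (by omega)
    obtain ⟨l1, hl1, Θ1, k1, h1⟩ := ih (t.l x)
    obtain ⟨l2, hl2, Θ2, k2, h2⟩ := ih (t.r x)
    rcases t.step x with ⟨e1, e2, -⟩ | ⟨e1, e2, e3, -, -, -, -, -, e4, e5, -⟩
    · rw [t.s_l, e2, show t.s x / 64 / (t.u x / 2) ^ 5 = t.s x / t.u x ^ 5 / 2 by
        field_simp; norm_num] at k1 h1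
      rw [show t.s x / 64 / (t.u x / 2) ^ 6 = t.s x / t.u x ^ 6 by field_simp; norm_num] at k1
      refine ⟨l1, t.sub_l x hl1, Θ1, ⟨k1.bd, k1.supp, k1.l1.trans ?_, k1.l2⟩, fun M hM => ?_⟩
      · have : 0 < t.s x / t.u x ^ 5 := by positivity
        linarith
      · simp only [Tree.hh, e1, add_self_div_two]
        exact (h1 M hM).trans_eq (by ring)
    · have dl := fun M => t.den p M (t.l x)
      have dr := fun M => t.den p M (t.r x)
      have n1 := Sq.norm_le (t.sub_l x hl1)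
      have n2 := Sq.norm_le (t.sub_r x hl2)
      have n3 := t.sub_l x hl1
      simp only [t.s_l, t.s_r, e1, e2, e3, one_pow, div_one] at k1 k2 h1 h2 hl1 hl2 e5 dl dr
      obtain ⟨Θ, b, q1, q2, q3, q4, q5⟩ := split_kill p.ϱ_le hs (Sq.norm_le hl1) (Sq.norm_le hl2)
        n1 n2 k1 k2 (by positivity) e5
      have u5 : 64 * t.s x ≤ t.s x / t.u x ^ 5 := by
        rw [le_div_iff₀ (by positivity)]
        have := pow_le_pow_left₀ hu.le e4 5
        nlinarith
      have u6 : 64 * t.s x ≤ t.s x / t.u x ^ 6 := by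
        rw [le_div_iff₀ (by positivity)]
        have := pow_le_pow_left₀ hu.le e4 6
        nlinarith
      refine ⟨l1, n3, Θ, ⟨b, fun ζ hζ => by linarith [q1 ζ hζ], by linarith, q3.trans ?_⟩,
        fun M hM => ?_⟩
      · rw [div_pow, le_div_iff₀ (by positivity), show (96 * t.s x ^ 2 + 3888 * t.s x ^ 4 /
          (t.u x * t.s x ^ 2 / 327680)) * (t.u x ^ 6) ^ 2 = t.s x ^ 2 * (96 * t.u x ^ 12 +
          3888 * 327680 * t.u x ^ 11) by field_simp]
        refine mul_le_of_le_one_right (by positivity) ?_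
        have := pow_le_pow_left₀ hu.le e4 11
        have := pow_le_pow_left₀ hu.le e4 12
        linarith
      · have i1 := ((dl M).integrable_fn p k1.bd l1).const_mul 128
        have i2 := ((dr M).integrable_fn p k2.bd l2).const_mul 128
        refine (integral_mono ((t.den p (M + 1) x).integrable_fn p b l1) (i1.add i2)
          fun z => ?_).trans ?_
        · have a1 : ‖z - l1‖ * ‖1 - CT ϱ Θ z‖ * t.hh M (t.l x) z ≤
              256 * (‖z - l1‖ * ‖1 - CT ϱ Θ1 z‖) * t.hh M (t.l x) z := by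
            by_cases h : t.hh M (t.l x) z = 0
            · simp [h]
            · exact mul_le_mul_of_nonneg_right (q4 z (Sq.norm_le ((dl M).supp z h)))
                ((dl M).nonneg z)
          have a2 : ‖z - l1‖ * ‖1 - CT ϱ Θ z‖ * t.hh M (t.r x) z ≤
              256 * (‖z - l2‖ * ‖1 - CT ϱ Θ2 z‖) * t.hh M (t.r x) z := by
            by_cases h : t.hh M (t.r x) z = 0
            · simp [h]
            · exact mul_le_mul_of_nonneg_right (q5 z (Sq.norm_le ((dr M).supp z h)))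
                ((dr M).nonneg z)
          simp only [Tree.hh, Pi.add_apply]
          linarith
        · rw [integral_add' i1 i2, integral_const_mul, integral_const_mul, pow_succ _ M]
          have := mul_le_mul_of_nonneg_right u5 (by positivity : (0 : ℝ) ≤ (1 / 2) ^ M)
          have : 0 ≤ t.s x * (1 / 2) ^ M := by positivity
          linarith [h1 M hM, h2 M hM]

end Pool.Agent.Lib.MP_45cb44_an
end

-- part Pool.Agent.Lib.MP_45cb44_an.Grow
section

/-! Existence of the branching data over a set where the complementary measure is thin. -/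

namespace Pool.Agent.Lib.MP_45cb44_an

open MeasureTheory Metric Set Filter Topology
open scoped ENNReal NNReal Real ComplexConjugate

/-- A node of the construction. -/
structure Nd (ϱ : Measure ℂ) (G : Set ℂ) (s0 : ℝ) where
  c : ℂ
  s : ℝ
  u : ℝ
  α : ℝ
  ω : ℝ
  s_pos : 0 < s
  s_le : s ≤ s0
  u_pos : 0 < u
  u_le : u ≤ 1
  α_pos : 0 < α
  ω_pos : 0 < ω
  val : (Sq c s ∩ G).Nonempty → ∀ z ∈ Sq c s, Real.exp (aa ϱ z s + u / 20) ≤ ω

/-- The complementary measure is thin at the points of `G` below scale `3 s0`. -/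
structure Thin (ϱ : Measure ℂ) (G : Set ℂ) (s0 : ℝ) : Prop where
  sub : G ⊆ ball 0 (3 / 4)
  le : s0 ≤ 1 / 8
  thin : ∀ z ∈ G, ∀ r, 0 < r → r ≤ 3 * s0 → ϱ.real (ball z r) ≤ r ^ 2 / 10 ^ 8

variable {μ ϱ : Measure ℂ} {G : Set ℂ} {s0 : ℝ}

lemma Nd.small (x : Nd ϱ G s0) (p : Pair μ ϱ) (t : Thin ϱ G s0) (h : (Sq x.c x.s ∩ G).Nonempty) :
    ϱ.real (ball x.c (2 * x.s)) ≤ 9 * x.s ^ 2 / 10 ^ 8 := by
  have := finite_of_le p.ϱ_le
  obtain ⟨z, h1, h2⟩ := h
  have hs := x.s_pos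
  refine (measureReal_mono (ball_subset_ball' ?_)).trans
    ((t.thin z h2 (3 * x.s) (by positivity) (by linarith [x.s_le])).trans_eq (by ring))
  rw [dist_comm, dist_eq_norm]
  linarith [Sq.norm_le h1]

lemma Nd.exists_g (x : Nd ϱ G s0) (p : Pair μ ϱ) (t : Thin ϱ G s0) :
    ∃ g, Den μ (Sq x.c x.s) g ∧ (∀ z, g z ≤ 8 / x.s ^ 2) ∧ gam G x.c x.s ≤ ∫ z, g z ∂μ ∧
      En μ ϱ g g ≤ 32 * Real.exp 32 * x.ω := by
  have := finite_of_le p.ϱ_le
  have := finite_of_le p.μ_le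
  have hs := x.s_pos
  have hω := x.ω_pos
  by_cases h : (Sq x.c x.s ∩ G).Nonempty
  swap
  · refine ⟨fun _ => 0, ⟨measurable_const, fun _ => le_rfl, ⟨0, fun _ => le_rfl⟩, by simp, by simp⟩,
      fun _ => by positivity, by simp [gam, not_nonempty_iff_eq_empty.1 h], ?_⟩
    simp only [En, mul_zero, integral_zero]
    positivity
  set B := ball x.c (x.s / 2)
  have mB : MeasurableSet B := measurableSet_ball
  have hm : x.s ^ 2 / 8 ≤ μ.real B := by
    have h1 := x.small p t h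
    obtain ⟨z, h2, h3⟩ := h
    have h4 : B ⊆ ball 0 1 := ball_subset_ball' (by
      have := norm_sub_norm_le x.c z
      rw [norm_sub_rev] at this
      rw [dist_zero_right]
      linarith [Sq.norm_le h2, mem_ball_zero_iff.1 (t.sub h3), x.s_le, t.le])
    have h5 : μ.real B + ϱ.real B = (x.s / 2) ^ 2 := by
      rw [← measureReal_add_apply, p.sum, mD, measureReal_restrict_apply mB, inter_eq_left.2 h4,
        mm_real_ball _ (by positivity)]
    have h6 : ϱ.real B ≤ ϱ.real (ball x.c (2 * x.s)) :=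
      measureReal_mono (ball_subset_ball (by linarith))
    nlinarith
  have hm0 : 0 < μ.real B := lt_of_lt_of_le (by positivity) hm
  have e : ∫ z, indicator B (fun _ => (μ.real B)⁻¹) z ∂μ = 1 := by
    simp [integral_indicator mB, hm0.ne']
  have hb : ∀ z, indicator B (fun _ => (μ.real B)⁻¹) z ≤ 8 / x.s ^ 2 := fun z =>
    indicator_apply_le' (fun _ => by rw [← inv_div]; exact inv_anti₀ (by positivity) hm)
      fun _ => by positivity
  refine ⟨indicator B fun _ => (μ.real B)⁻¹, ⟨measurable_const.indicator mB,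
    indicator_nonneg fun _ _ => by positivity, ⟨_, hb⟩,
    fun z hz => ball_subset_Sq _ _ (mem_of_indicator_ne_zero hz), e.le⟩, hb,
    e ▸ gam_le_one _ _ hs, ?_⟩
  have h1 := p.energy_lintegral mB hs (ω := x.ω) (fun z hz w hw => by
      rw [← dist_eq_norm]
      linarith [dist_triangle_right w z x.c, mem_ball.1 hz, mem_ball.1 hw])
    fun z hz => le_trans (Real.exp_le_exp.2 (by linarith [x.u_pos])) (x.val h z (ball_subset_Sq _ _ hz))
  have h2 : En μ ϱ (indicator B fun _ => (μ.real B)⁻¹) (indicator B fun _ => (μ.real B)⁻¹) =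
      (μ.real B)⁻¹ ^ 2 * ∫ y : ℂ × ℂ, Real.exp (MM ϱ y.1 y.2) ∂(μ.restrict B).prod (μ.restrict B) := by
    rw [En, Measure.prod_restrict, ← integral_const_mul, ← integral_indicator (mB.prod mB)]
    congr 1
    ext y
    by_cases a1 : y.1 ∈ B <;> by_cases a2 : y.2 ∈ B <;> simp [indicator, a1, a2]
    ring
  have h3 : ∫ y : ℂ × ℂ, Real.exp (MM ϱ y.1 y.2) ∂(μ.restrict B).prod (μ.restrict B) ≤
      Real.exp 8 * (x.ω * x.s ^ 2 * 4) * μ.real B := by
    rw [integral_eq_lintegral_of_nonneg_ae (.of_forall fun _ => (Real.exp_pos _).le)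
      measurable_MM.exp.aestronglyMeasurable]
    refine ENNReal.toReal_le_of_le_ofReal (by positivity) (h1.trans_eq ?_)
    rw [ENNReal.ofReal_mul (p := _ * _) (by positivity), ofReal_measureReal]
  rw [h2]
  refine (mul_le_mul_of_nonneg_left h3 (by positivity)).trans ?_
  rw [show (μ.real B)⁻¹ ^ 2 * (Real.exp 8 * (x.ω * x.s ^ 2 * 4) * μ.real B) =
    32 * Real.exp 8 * x.ω * (x.s ^ 2 / 8 / μ.real B) by field_simp; norm_num]
  refine (mul_le_of_le_one_right (by positivity) ((div_le_one hm0).2 hm)).trans ?_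
  gcongr
  norm_num

lemma Nd.scale (x : Nd ϱ G s0) (p : Pair μ ϱ) {z : ℂ} (hz : z ∈ Sq x.c x.s) :
    aa ϱ z (x.s / 64) ≤ aa ϱ z x.s + 4096 * ϱ.real (ball x.c (2 * x.s)) / x.s ^ 2 := by
  have := finite_of_le p.ϱ_le
  have hs := x.s_pos
  refine (aa_scale p.ϱ_le z (by positivity) (by linarith : x.s / 64 ≤ x.s)).trans
    (add_le_add le_rfl ?_)
  have : ϱ.real (ball z x.s) ≤ ϱ.real (ball x.c (2 * x.s)) := measureReal_mono (ball_subset_ball'
    (by rw [dist_eq_norm]; linarith [Sq.norm_le hz]))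
  exact (div_le_div_of_nonneg_right this (by positivity)).trans_eq (by field_simp; norm_num)

lemma Nd.child (x : Nd ϱ G s0) {a : ℂ} (ha : Sq a (x.s / 64) ⊆ Sq x.c x.s) {u α ω : ℝ} (u0 : 0 < u)
    (u1 : u ≤ 1) (hα : 0 < α) (hω : 0 < ω) (h : (Sq x.c x.s ∩ G).Nonempty →
      ∀ z ∈ Sq x.c x.s, Real.exp (aa ϱ z (x.s / 64) + u / 20) ≤ ω) :
    ∃ y : Nd ϱ G s0, y.c = a ∧ y.s = x.s / 64 ∧ y.u = u ∧ y.α = α ∧ y.ω = ω :=
  ⟨⟨a, x.s / 64, u, α, ω, by linarith [x.s_pos], by linarith [x.s_pos, x.s_le], u0, u1, hα, hω,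
    fun hn z hz => h (hn.mono (inter_subset_inter_left _ ha)) z (ha hz)⟩, rfl, rfl, rfl, rfl, rfl⟩

lemma Nd.exists_step (x : Nd ϱ G s0) (p : Pair μ ϱ) (t : Thin ϱ G s0) : ∃ l r : Nd ϱ G s0,
    Sq l.c l.s ⊆ Sq x.c x.s ∧ Sq r.c r.s ⊆ Sq x.c x.s ∧ l.s = x.s / 64 ∧ r.s = x.s / 64 ∧
    ((r = l ∧ l.u = x.u / 2 ∧ l.α = x.α ∧
      gam G x.c x.s - x.α * x.ω ≤ gam G l.c l.s - x.α * l.ω) ∨
    (r.c = l.c + (x.s / 2 : ℝ) ∧ l.u = 1 ∧ r.u = 1 ∧ l.α = x.α / 2 ∧
      r.α = x.α / 2 ∧ l.ω = 10 / 9 * x.ω ∧ r.ω = 10 / 9 * x.ω ∧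
      gam G x.c x.s - x.α * x.ω / 4 ≤ (gam G l.c l.s + gam G r.c r.s) / 2 ∧ x.u ≤ 1 / 8 ∧
      x.u * x.s ^ 2 / 327680 ≤ ϱ.real (ball x.c (2 * x.s) \
        (ball l.c (x.s / 32) ∪ ball r.c (x.s / 32))) ∧
      ∀ z ∈ Sq x.c x.s, Real.exp (aa ϱ z x.s) ≤ x.ω)) := by
  have := finite_of_le p.ϱ_le
  have hs := x.s_pos
  have hu := x.u_pos
  have hu1 := x.u_le
  have hα := x.α_pos
  have hω := x.ω_pos
  have better : ∀ a b : ℂ, Sq a (x.s / 64) ⊆ Sq x.c x.s → Sq b (x.s / 64) ⊆ Sq x.c x.s →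
      ∃ e, Sq e (x.s / 64) ⊆ Sq x.c x.s ∧
        (gam G a (x.s / 64) + gam G b (x.s / 64)) / 2 ≤ gam G e (x.s / 64) := fun a b ha hb => by
    rcases le_total (gam G a (x.s / 64)) (gam G b (x.s / 64)) with h | h
    · exact ⟨b, hb, by linarith⟩
    · exact ⟨a, ha, by linarith⟩
  set B := ball x.c (2 * x.s)
  by_cases h : (Sq x.c x.s ∩ G).Nonempty → ϱ.real B < x.u * x.s ^ 2 / 163840
  · obtain ⟨a, h1, h2, h3⟩ := exists_pair G x.c hs ϱ B zero_le_one le_rfl
    obtain ⟨e, h4, h5⟩ := better _ _ h1 h2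
    obtain ⟨y, rfl, y2, y3, y4, y5⟩ := x.child h4 (u := x.u / 2) (by positivity) (by linarith) hα hω
      fun hn z hz => by
        refine le_trans (Real.exp_le_exp.2 ?_) (x.val hn z hz)
        have a1 := x.scale p hz
        have a2 : 4096 * ϱ.real B / x.s ^ 2 ≤ x.u / 40 := by
          rw [div_le_iff₀ (by positivity)]; linarith [h hn]
        linarith
    rw [← y2] at h4 h5
    refine ⟨y, y, h4, h4, y2, y2, Or.inl ⟨rfl, y3, y4, ?_⟩⟩
    rw [y5]
    rw [← y2] at h3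
    linarith
  push Not at h
  obtain ⟨hn, h⟩ := h
  have hB : 0 < ϱ.real B := lt_of_lt_of_le (by positivity) h
  have sm := x.small p t hn
  have v : ∀ u ≤ 1, (Sq x.c x.s ∩ G).Nonempty → ∀ z ∈ Sq x.c x.s,
      Real.exp (aa ϱ z (x.s / 64) + u / 20) ≤ 10 / 9 * x.ω := fun u hu _ z hz => by
    have a1 := x.scale p hz
    have a2 : 4096 * ϱ.real B / x.s ^ 2 ≤ 1 / 20 := by
      rw [div_le_iff₀ (by positivity)]; nlinarith
    have a3 := Real.exp_bound_div_one_sub_of_interval (x := 1 / 10) (by norm_num) (by norm_num)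
    calc _ ≤ Real.exp (1 / 10 + (aa ϱ z x.s + x.u / 20)) := Real.exp_le_exp.2 (by linarith [x.u_pos])
      _ ≤ _ := by
        rw [Real.exp_add]
        exact mul_le_mul (a3.trans_eq (by norm_num)) (x.val hn z hz) (by positivity) (by norm_num)
  obtain ⟨a, h1, h2, h3⟩ := exists_pair G x.c hs ϱ B hB.le (W := x.α * x.ω) (by positivity)
  set U := ball a (x.s / 32) ∪ ball (a + (x.s / 2 : ℝ)) (x.s / 32)
  have hW : 0 < x.α * x.ω := by positivity
  rcases le_total (ϱ.real B / 2) (ϱ.real (U ∩ B)) with hc | hc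
  · obtain ⟨e, h4, h5⟩ := better _ _ h1 h2
    obtain ⟨y, rfl, y2, y3, y4, y5⟩ := x.child h4 (u := x.u / 2) (by positivity) (by linarith) hα
      (by positivity) (v _ (by linarith))
    rw [← y2] at h3 h4 h5
    refine ⟨y, y, h4, h4, y2, y2, Or.inl ⟨rfl, y3, y4, ?_⟩⟩
    rw [y5]
    have a1 := mul_le_mul_of_nonneg_left hc hW.le
    have a2 := mul_le_mul_of_nonneg_left h5 hB.le
    refine le_of_mul_le_mul_left ?_ hB
    nlinarith [mul_pos hW hB]
  · obtain ⟨y, rfl, y2, y3, y4, y5⟩ := x.child h1 one_pos le_rfl (half_pos hα)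
      (by positivity) (v _ le_rfl)
    obtain ⟨w, w1, w2, w3, w4, w5⟩ := x.child h2 one_pos le_rfl (half_pos hα)
      (by positivity) (v _ le_rfl)
    refine ⟨y, w, y2 ▸ h1, by rw [w1, w2]; exact h2, y2, w2, Or.inr ⟨w1, y3, w3, y4, w4, y5, w5, ?_,
      ?_, ?_, fun z hz => le_trans (Real.exp_le_exp.2 (by linarith)) (x.val hn z hz)⟩⟩
    · rw [w1, w2, y2]
      refine le_of_mul_le_mul_left ?_ hB
      have : 0 ≤ x.α * x.ω * ϱ.real (U ∩ B) := by positivity
      linarith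
    · refine le_of_mul_le_mul_right ?_ (by positivity : 0 < x.s ^ 2)
      nlinarith
    · have := measureReal_inter_add_sdiff (μ := ϱ) (s := B) (t := U)
        (measurableSet_ball.union measurableSet_ball)
      rw [inter_comm] at this
      rw [w1]
      linarith

lemma exists_tree (p : Pair μ ϱ) (t : Thin ϱ G s0) : ∃ τ : Tree μ ϱ (Nd ϱ G s0),
    ∀ x, τ.c x = x.c ∧ τ.s x = x.s ∧ τ.u x = x.u ∧ τ.α x = x.α ∧ τ.ω x = x.ω ∧
      τ.γ x = gam G x.c x.s := by
  choose g g1 g2 g3 g4 using fun x : Nd ϱ G s0 => x.exists_g p t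
  choose l r h1 h2 h3 h4 h5 using fun x : Nd ϱ G s0 => x.exists_step p t
  exact ⟨⟨Nd.c, Nd.s, Nd.u, Nd.α, Nd.ω, fun x => gam G x.c x.s, l, r, g, Nd.s_pos, Nd.u_pos, Nd.u_le,
    Nd.α_pos, Nd.ω_pos, g1, g2, g3, g4, h1, h2, h3, h4, h5⟩, fun _ => ⟨rfl, rfl, rfl, rfl, rfl, rfl⟩⟩

end Pool.Agent.Lib.MP_45cb44_an
end

-- part Pool.Agent.Lib.MP_45cb44_an.Main
section

/-! Assembly. -/

namespace Pool.Agent.Lib.MP_45cb44_an

open MeasureTheory Metric Set Filter Topology InnerProductSpace ContinuousLinearMap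
open scoped ENNReal NNReal Real ComplexConjugate InnerProductSpace

variable {μ ϱ : Measure ℂ} {H : Type*} [NormedAddCommGroup H] [InnerProductSpace ℂ H]
  [CompleteSpace H] {J : BB →ₗ[ℂ] H} {T : H →L[ℂ] H}

lemma Rep.thin (r : Rep μ ϱ J (star T)) (h : Pair μ ϱ) {G : Set ℂ} {s0 : ℝ} (t : Thin ϱ G s0)
    (hs : 0 < s0) {c : ℂ} (hγ : 0 < gam G c s0) {v : H} (h1 : ⟪J oneB, v⟫_ℂ = 0)
    (h2 : ⟪T (J oneB), v⟫_ℂ = (‖v‖ ^ 2 : ℝ)) (h3 : 2 * s0 ≤ ‖v‖) : ¬Trans T := by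
  obtain ⟨τ, hτ⟩ := exists_tree h t
  set ω := Real.exp ((s0 ^ 2)⁻¹ + 1 / 20)
  have hω : 0 < ω := Real.exp_pos _
  set α := gam G c s0 / (2 * ω) with hα
  have hα0 : 0 < α := by positivity
  let x0 : Nd ϱ G s0 := ⟨c, s0, 1, α, ω, hs, le_rfl, one_pos, le_rfl, hα0, hω, fun _ z _ =>
    Real.exp_le_exp.2 (add_le_add (aa_le h.ϱ_le z hs) le_rfl)⟩
  obtain ⟨e1, e2, e3, e4, e5, e6⟩ := hτ x0
  have en := fun M => τ.energy h M x0
  have fn := fun N => τ.fn h N x0
  have de := fun M => τ.den h M x0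
  simp only [e1, e2, e3, e4, e5, e6, x0, one_pow, div_one] at en fn de
  have aw : α * ω = gam G c s0 / 2 := by rw [hα]; field_simp
  rw [aw] at en
  choose l hl Θ k hk using fn
  have b := fun N => (Bd.id.sub (Bd.const (l N))).mul (k N).bd
  choose x hx hx' using fun N => r.exists_x h (b N)
  have nx : ∀ N, ‖x N‖ ≤ s0 := fun N => (hx N).trans (Real.sqrt_le_iff.2 ⟨hs.le, (k N).l2⟩)
  let a : ℕ → ℂ := fun N => l N - ∫ ζ, Θ N ζ ∂ϱ
  have na : ∀ N, ‖a N‖ ≤ ‖c‖ + 2 * s0 := fun N => by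
    linarith [norm_sub_le (l N) (∫ ζ, Θ N ζ ∂ϱ), norm_integral_le_integral_norm (μ := ϱ) (Θ N),
      (k N).l1, Sq.norm_le (hl N), norm_sub_norm_le (l N) c]
  have hE := Real.exp_pos 32
  have en0 : ∀ M, 0 ≤ En μ ϱ (τ.hh M x0) (τ.hh M x0) := fun M => integral_nonneg fun y =>
    mul_nonneg (mul_nonneg ((de M).nonneg _) (Real.exp_pos _).le) ((de M).nonneg _)
  refine not_trans_of_seq (fun N => T (J oneB) - a N • J oneB - x N) (fun M => J ⟨_, (de M).bd⟩)
    (C := max (‖T (J oneB)‖ + (‖c‖ + 2 * s0) * ‖J oneB‖ + s0) √(2 * (32 * Real.exp 32 / α)))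
    (fun N => le_max_of_le_left ?_) (fun M => le_max_of_le_right ?_) (v := v) (w := J oneB)
    (ε := min (‖v‖ ^ 2 / 2) (gam G c s0 / 2)) (lt_min (by nlinarith) (by positivity))
    (fun N => min_le_of_left_le ?_) (fun M => min_le_of_right_le ?_)
    (η := fun M => 14 * s0 * (1 / 2) ^ M) ?_ fun n M N hMN => ?_
  · refine (norm_sub_le _ _).trans (add_le_add ((norm_sub_le _ _).trans (add_le_add le_rfl ?_))
      (nx N))
    rw [norm_smul]
    exact mul_le_mul_of_nonneg_right (na N) (norm_nonneg _)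
  · refine Real.le_sqrt_of_sq_le ((r.norm_sq_le h _).trans
      (mul_le_mul_of_nonneg_left ?_ zero_le_two))
    simp only [(de M).norm]
    rw [le_div_iff₀' hα0]
    refine (en M).trans (mul_le_of_le_one_right (by positivity) ?_)
    linarith [(de M).mass]
  · rw [inner_sub_left, inner_sub_left, inner_smul_left, h1, h2, mul_zero, sub_zero]
    have a1 := norm_sub_norm_le ((‖v‖ ^ 2 : ℝ) : ℂ) ⟪x N, v⟫_ℂ
    rw [Complex.norm_real, Real.norm_of_nonneg (by positivity)] at a1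
    have a2 := (norm_inner_le_norm (𝕜 := ℂ) (x N) v).trans
      (mul_le_mul_of_nonneg_right (nx N) (norm_nonneg v))
    nlinarith [norm_nonneg v]
  · rw [r.inner_one h, integral_complex_ofReal, Complex.norm_real]
    refine le_trans ?_ (Real.le_norm_self _)
    have := (mul_nonneg hα0.le (en0 M)).trans (en M)
    have := nonneg_of_mul_nonneg_right this (by positivity)
    linarith
  · simpa using (tendsto_pow_atTop_nhds_zero_of_lt_one (r := (1 / 2 : ℝ)) (by norm_num)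
      (by norm_num)).const_mul (14 * s0)
  · have bf := (Bd.id.sub (Bd.const (l N))).mul ((Bd.const 1).sub ((k N).bd.CT h.ϱ_le))
    refine (r.orbit h bf (fun f => ?_) n _).trans (le_trans (le_of_eq ?_) (hk N M hMN))
    · have i1 := (Bd.id.conj.mul f.2).integrable h.μ_le
      have i2 := (f.2.integrable h.μ_le).const_mul (conj (a N))
      have i3 := (((b N).CT h.ϱ_le).conj.mul f.2).integrable h.μ_le
      rw [inner_sub_left, inner_sub_left, inner_smul_left, hx', ← adjoint_inner_right,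
        ← star_eq_adjoint, r.mul, r.inner_one h, r.inner_one h, ← integral_const_mul]
      simp only [mulB_apply]
      rw [← integral_sub' i1 i2, ← integral_sub' (i1.sub i2) i3]
      congr 1
      ext z
      simp only [Pi.sub_apply, CT_mul_sub h.ϱ_le (k N).bd, a, map_sub, map_add, map_mul, map_one]
      ring
    · simp only [norm_mul, (de M).norm]

lemma exists_thin (h : Pair μ ϱ)
    (hρ : ¬∀ᵐ z ∂mm, z ∈ ball (0 : ℂ) (3 / 4) → ENNReal.ofReal (1 / 10 ^ 8) ≤ ϱ.rnDeriv mm z)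
    {ε : ℝ} (hε : 0 < ε) : ∃ G s0 c, Thin ϱ G s0 ∧ 0 < s0 ∧ s0 ≤ ε ∧ 0 < gam G c s0 := by
  have := finite_of_le h.ϱ_le
  let G : ℕ → Set ℂ := fun n => {z | z ∈ ball 0 (3 / 4) ∧
    ∀ r, 0 < r → r ≤ 1 / ((n : ℝ) + 1) → ϱ.real (ball z r) ≤ r ^ 2 / 10 ^ 8}
  obtain ⟨n, hn⟩ : ∃ n, mm (G n) ≠ 0 := by
    by_contra! h0
    apply hρ
    filter_upwards [Besicovitch.ae_tendsto_rnDeriv ϱ mm,
      measure_eq_zero_iff_ae_notMem.1 (measure_iUnion_null h0)] with z h1 h2 h3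
    by_contra! h4
    obtain ⟨δ, hδ, h5⟩ := (nhdsGT_basis (0 : ℝ)).eventually_iff.1 (h1.eventually (gt_mem_nhds h4))
    obtain ⟨n, hn⟩ := exists_nat_one_div_lt hδ
    refine h2 (mem_iUnion.2 ⟨n, h3, fun r r0 r1 => ?_⟩)
    have h6 := h5 ⟨r0, r1.trans_lt hn⟩
    rw [mm_closedBall z r0.le, ENNReal.div_lt_iff (by left; simp; positivity) (by simp),
      ← ENNReal.ofReal_mul (by norm_num)] at h6
    refine ENNReal.toReal_le_of_le_ofReal (by positivity)
      ((measure_mono ball_subset_closedBall).trans (h6.le.trans_eq ?_))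
    congr 1
    ring
  obtain ⟨c, -, hc⟩ := exists_mem_forall_mem_nhdsWithin_pos_measure hn
  obtain ⟨s, s0, s1, s2, s3⟩ : ∃ s : ℝ, 0 < s ∧ s ≤ ε ∧ s ≤ 1 / 8 ∧ s ≤ 1 / ((n : ℝ) + 1) / 3 :=
    ⟨min ε (min (1 / 8) (1 / ((n : ℝ) + 1) / 3)), by positivity, min_le_left _ _,
      (min_le_right _ _).trans (min_le_left _ _), (min_le_right _ _).trans (min_le_right _ _)⟩
  refine ⟨G n, s, c, ⟨fun z hz => hz.1, s2, fun z hz r r0 r1 => hz.2 r r0 (by linarith)⟩, s0, s1,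
    div_pos (ENNReal.toReal_pos (hc _ ?_).ne' ?_) (by positivity)⟩
  · exact inter_mem (mem_nhdsWithin_of_mem_nhds (mem_of_superset (ball_mem_nhds c (half_pos s0))
      (ball_subset_Sq c s))) self_mem_nhdsWithin
  · exact ne_top_of_le_ne_top ENNReal.ofReal_ne_top
      ((measure_mono inter_subset_left).trans (mm_Sq c s0.le))

lemma not_trans_small {φ : H} (hc : star T * T = T * star T + rankOne ℂ φ φ) (hT : ‖T‖ ≤ 1 / 4)
    (h0 : φ ≠ 0) : ¬Trans T := by
  intro ht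
  obtain ⟨μ, ϱ, J, h, r, rfl⟩ := exists_rep hc hT ht h0
  by_cases hρ : ∀ᵐ z ∂mm, z ∈ ball (0 : ℂ) (3 / 4) →
      ENNReal.ofReal (1 / 10 ^ 8) ≤ ϱ.rnDeriv mm z
  · exact r.thick h h0 (by norm_num) hρ ht
  set φ := J oneB
  set a := ⟪φ, T φ⟫_ℂ / ⟪φ, φ⟫_ℂ
  have h1 : ⟪φ, SS T a φ⟫_ℂ = 0 := by
    have : ⟪φ, φ⟫_ℂ ≠ 0 := inner_self_ne_zero.2 h0
    simp only [SS, sub_apply, smul_apply, one_apply_eq_self, inner_sub_right, inner_smul_right, a]
    field_simp
    simp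
  have h2 : 0 < ‖SS T a φ‖ := by
    have := norm_comm_sq (T := SS T a) (φ := φ)
      (by simpa using SS_comm (T := T) (φ := φ) (ε := 1) (by simpa using hc) a) φ
    have h3 : 0 < ‖⟪φ, φ⟫_ℂ‖ := norm_pos_iff.2 (inner_self_ne_zero.2 h0)
    refine (norm_nonneg _).lt_of_ne fun h4 => ?_
    rw [← h4] at this
    nlinarith [sq_nonneg ‖star (SS T a) φ‖]
  obtain ⟨G, s0, c, t, s1, s2, hγ⟩ := exists_thin h hρ (half_pos h2)
  refine r.thin h t s1 hγ h1 ?_ (by linarith) ht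
  have : T φ = SS T a φ + a • φ := by simp [SS]
  rw [this, inner_add_left, inner_smul_left, h1, inner_self_eq_norm_sq_to_K]
  simp

omit [CompleteSpace H] in
lemma rankOne_smul_real (t : ℝ) (φ : H) :
    rankOne ℂ ((t : ℂ) • φ) ((t : ℂ) • φ) = ((t : ℂ) * t) • rankOne ℂ φ φ := by
  ext x
  simp only [rankOne_apply, inner_smul_left, Complex.conj_ofReal, smul_apply, smul_smul]
  congr 1
  ring

lemma not_trans_rankOne {φ : H} (hc : star T * T = T * star T + rankOne ℂ φ φ) (h0 : φ ≠ 0) :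
    ¬Trans T := by
  intro ht
  set t : ℝ := (4 * ‖T‖ + 1)⁻¹ with e
  have t0 : 0 < t := by positivity
  refine not_trans_small (T := (t : ℂ) • T) (φ := (t : ℂ) • φ) ?_ ?_
    (smul_ne_zero (by exact_mod_cast t0.ne') h0) fun x y hx => ht x y fun n => ?_
  · rw [rankOne_smul_real, star_smul, smul_mul_smul_comm, smul_mul_smul_comm, hc]
    simp
  · rw [norm_smul, Complex.norm_real, Real.norm_of_nonneg t0.le, e, inv_mul_le_iff₀ (by positivity)]
    linarith
  · simpa [smul_pow, inner_smul_left, t0.ne'] using hx n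

lemma not_trans_normal (hc : star T * T = T * star T) (hd : ¬FiniteDimensional ℂ H) :
    ¬Trans T := by
  intro ht
  have hN : IsStarNormal T := ⟨hc⟩
  have : Nontrivial H := by
    by_contra h
    rw [not_nontrivial_iff_subsingleton] at h
    exact hd inferInstance
  obtain ⟨a, ha⟩ := spectrum.nonempty T
  by_cases h : spectrum ℂ T ⊆ {a}
  · obtain ⟨x, hx⟩ := exists_ne (0 : H)
    have e := CFC.eq_algebraMap_of_spectrum_subset_singleton T a h
    have := ht.eq_top (M := ℂ ∙ x) (Submodule.closed_of_finiteDimensional _) (fun y hy => by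
      rw [e]; exact Submodule.smul_mem _ a hy) (Submodule.mem_span_singleton_self x) hx
    exact hd (Module.finite_def.2 (this ▸ Submodule.fg_span_singleton x))
  obtain ⟨b, hb, hab⟩ := not_subset.1 h
  let f : ℂ → ℂ → ℂ → ℂ := fun a b z => (max 0 (‖z - b‖ - ‖z - a‖) : ℝ)
  have hf : ∀ a b, Continuous (f a b) := fun a b => by fun_prop
  have nz : ∀ a b, a ∈ spectrum ℂ T → a ≠ b → ∃ x, cfc (f a b) T x ≠ 0 := fun a b ha hab => by
    by_contra! h0
    have e : cfc (f a b) T = cfc (fun _ => (0 : ℂ)) T := by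
      rw [cfc_const_zero]; exact ContinuousLinearMap.ext h0
    have := eqOn_of_cfc_eq_cfc e (hf a b).continuousOn continuousOn_const hN ha
    simp [f, sub_eq_zero, hab] at this
  obtain ⟨x, hx⟩ := nz b a hb hab
  obtain ⟨y, hy⟩ := nz a b ha (Ne.symm hab)
  refine (ht _ _ fun n => ?_).elim hx hy
  have e : star (cfc (f a b) T) * T ^ n * cfc (f b a) T = 0 := by
    rw [← cfc_star, ← cfc_pow_id (R := ℂ) T n, ← cfc_mul _ _ _ (by fun_prop) (by fun_prop),
      ← cfc_mul _ _ _ (by fun_prop) (by fun_prop), ← cfc_const_zero ℂ T]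
    refine cfc_congr fun z _ => ?_
    rcases le_total ‖z - a‖ ‖z - b‖ with h | h <;> simp [f, h]
  rw [← adjoint_inner_left, ← star_eq_adjoint, ← mul_apply_eq_comp, ← mul_apply_eq_comp, e]
  simp

lemma not_trans_of_rank (hd : ¬FiniteDimensional ℂ H) (w : H)
    (h : ∀ x, ∃ c : ℂ, c • w = (star T * T - T * star T) x) : ¬Trans T := by
  have key : ∀ (S : H →L[ℂ] H) (t : ℝ), 0 ≤ t →
      star S * S - S * star S = (t : ℂ) • rankOne ℂ w w → ¬Trans S := fun S t ht e => by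
    have e1 : star S * S = S * star S + rankOne ℂ ((√t : ℂ) • w) ((√t : ℂ) • w) := by
      rw [← sub_eq_iff_eq_add', e, rankOne_smul_real, ← Complex.ofReal_mul, Real.mul_self_sqrt ht]
    by_cases h0 : (√t : ℂ) • w = 0
    · exact not_trans_normal (by simpa [h0] using e1) hd
    · exact not_trans_rankOne e1 h0
  set D := star T * T - T * star T with hD
  have sa : star D = D := by simp [hD]
  obtain ⟨t, e⟩ : ∃ t : ℝ, D = (t : ℂ) • rankOne ℂ w w := by
    by_cases h0 : w = 0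
    · exact ⟨0, by ext x; obtain ⟨c, hc⟩ := h x; simp [← hc, h0]⟩
    have n0 : ⟪w, w⟫_ℂ ≠ 0 := inner_self_ne_zero.2 h0
    have s : ∀ x, ⟪w, D x⟫_ℂ = ⟪D w, x⟫_ℂ := fun x => by
      rw [← adjoint_inner_left, ← star_eq_adjoint, sa]
    obtain ⟨c, hc⟩ := h w
    have hr : conj c = c := by
      have := s w
      rw [← hc, inner_smul_left, inner_smul_right] at this
      exact (mul_right_cancel₀ n0 this).symm
    refine ⟨c.re / ‖w‖ ^ 2, ?_⟩
    ext x
    obtain ⟨d, hd⟩ := h x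
    have := s x
    rw [← hc, ← hd, inner_smul_left, inner_smul_right, hr] at this
    rw [inner_self_eq_norm_sq_to_K] at this n0
    rw [← hd, smul_apply, rankOne_apply, smul_smul]
    congr 1
    push_cast
    rw [Complex.conj_eq_iff_re.1 hr, div_mul_eq_mul_div, ← this]
    exact (mul_div_cancel_right₀ _ n0).symm
  rcases le_total 0 t with ht | ht
  · exact key T t ht e
  · intro hT
    refine key (star T) (-t) (by linarith) ?_ hT.star
    rw [star_star, ← neg_sub, ← hD, e]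
    simp

theorem exists_invariant (hd : ¬FiniteDimensional ℂ H) (w : H)
    (h : ∀ x, ∃ c : ℂ, c • w = (star T * T - T * star T) x) :
    ∃ M : Submodule ℂ H, IsClosed (M : Set H) ∧ (∀ x ∈ M, T x ∈ M) ∧ M ≠ ⊥ ∧ M ≠ ⊤ := by
  have := not_trans_of_rank hd w h
  unfold Trans at this
  push Not at this
  obtain ⟨x, y, h1, hx, hy⟩ := this
  let M := (Submodule.span ℂ (range fun n : ℕ => (T ^ n) x)).topologicalClosure
  have hm : ∀ n, (T ^ n) x ∈ M := fun n =>
    Submodule.le_topologicalClosure _ (Submodule.subset_span ⟨n, rfl⟩)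
  have hc : IsClosed (M : Set H) := Submodule.isClosed_topologicalClosure _
  refine ⟨M, hc, fun z hz => ?_, fun h0 => hx ?_, fun h0 => hy ?_⟩
  · have : M ≤ M.comap T.toLinearMap := by
      refine Submodule.topologicalClosure_minimal _ (Submodule.span_le.2 ?_)
        (hc.preimage T.continuous)
      rintro _ ⟨n, rfl⟩
      simpa [pow_succ'] using hm (n + 1)
    exact this hz
  · simpa [h0] using hm 0
  · have : M ≤ (ℂ ∙ y)ᗮ := by
      refine Submodule.topologicalClosure_minimal _ (Submodule.span_le.2 ?_)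
        (Submodule.isClosed_orthogonal _)
      rintro _ ⟨n, rfl⟩
      exact Submodule.mem_orthogonal_singleton_iff_inner_left.2 (h1 n)
    exact inner_self_eq_zero.1 (Submodule.mem_orthogonal_singleton_iff_inner_left.1
      (this (h0 ▸ Submodule.mem_top : y ∈ M)))

end Pool.Agent.Lib.MP_45cb44_an
end
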