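import Pool.Agent.Lib.MP_45cb44_an.Final

/-! Every rank one perturbation of a normal operator has a non-trivial closed invariant
subspace. -/

namespace Pool.Agent.Lib.MP_45cb44_an.NormalPlusRankOneResult

theorem result {H : Type*} [NormedAddCommGroup H] [InnerProductSpace ℂ H] [CompleteSpace H]
    (hH : ¬FiniteDimensional ℂ H) (N K : H →L[ℂ] H)
    (hN : (ContinuousLinearMap.adjoint N).comp N = N.comp (ContinuousLinearMap.adjoint N))
    (hK : LinearMap.rank K.toLinearMap ≤ 1) :
    ∃ M : Submodule ℂ H, IsClosed (M : Set H) ∧ (∀ x ∈ M, (N + K) x ∈ M) ∧ M ≠ ⊥ ∧ M ≠ ⊤ := by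
  obtain ⟨w, hw⟩ := (rank_submodule_le_one_iff' _).1 hK
  exact Pool.Agent.Lib.MP_45cb44_an.exists_invariant_pert hH hN w fun x =>
    Submodule.mem_span_singleton.1 (hw (LinearMap.mem_range_self _ x))

end Pool.Agent.Lib.MP_45cb44_an.NormalPlusRankOneResult
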