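import Mathlib

-- part Pool.Agent.Lib.MP_45cb44_an.Basic
section

/-! Normalised area measure and radial integrals. -/

namespace Pool.Agent.Lib.MP_45cb44_an

open MeasureTheory Metric Set Filter Topology
open scoped ENNReal NNReal Real

/-- Area measure divided by pi. -/
noncomputable def mm : Measure ℂ := (NNReal.pi⁻¹ : ℝ≥0) • volume

instance : mm.IsAddHaarMeasure := by
  unfold mm
  exact Measure.IsAddHaarMeasure.nnreal_smul _ (inv_ne_zero NNReal.pi_ne_zero)

/-- Normalised area measure on the unit disc. -/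
noncomputable def mD : Measure ℂ := mm.restrict (ball 0 1)

lemma mm_ball (z : ℂ) {r : ℝ} (hr : 0 ≤ r) : mm (ball z r) = ENNReal.ofReal (r ^ 2) := by
  simp only [mm, Measure.smul_apply, Complex.volume_ball, ENNReal.smul_def, smul_eq_mul]
  rw [ENNReal.ofReal_pow hr, mul_comm, mul_assoc, ← ENNReal.coe_mul,
    mul_inv_cancel₀ NNReal.pi_ne_zero]
  simp

lemma mm_closedBall (z : ℂ) {r : ℝ} (hr : 0 ≤ r) :
    mm (closedBall z r) = ENNReal.ofReal (r ^ 2) := by
  simp only [mm, Measure.smul_apply, Complex.volume_closedBall, ENNReal.smul_def, smul_eq_mul]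
  rw [ENNReal.ofReal_pow hr, mul_comm, mul_assoc, ← ENNReal.coe_mul,
    mul_inv_cancel₀ NNReal.pi_ne_zero]
  simp

lemma mm_real_ball (z : ℂ) {r : ℝ} (hr : 0 ≤ r) : mm.real (ball z r) = r ^ 2 := by
  rw [Measure.real, mm_ball z hr, ENNReal.toReal_ofReal (by positivity)]

lemma mD_le : mD ≤ mm := Measure.restrict_le_self

lemma mD_univ : mD univ = 1 := by
  simp [mD, mm_ball 0 zero_le_one]

instance : IsFiniteMeasure mD := ⟨by simp [mD_univ]⟩

lemma finite_of_le {ν : Measure ℂ} (h : ν ≤ mD) : IsFiniteMeasure ν :=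
  isFiniteMeasure_of_le mD h

lemma ae_ball_of_le {ν : Measure ℂ} (h : ν ≤ mD) : ∀ᵐ z ∂ν, z ∈ ball (0 : ℂ) 1 :=
  (Measure.absolutelyContinuous_of_le h).ae_le (ae_restrict_mem measurableSet_ball)

lemma ae_ne_of_le {ν : Measure ℂ} (h : ν ≤ mm) (w : ℂ) : ∀ᵐ z ∂ν, z ≠ w := by
  refine (Measure.absolutelyContinuous_of_le h).ae_le ?_
  have : mm {w} = 0 := measure_singleton w
  rw [mem_ae_iff]
  convert this using 2
  ext z; simp

lemma integral_radial (f : ℝ → ℝ) (z : ℂ) :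
    ∫ ζ, f ‖ζ - z‖ ∂mm = 2 * ∫ y in Ioi (0 : ℝ), y * f y := by
  rw [integral_sub_right_eq_self (fun ζ : ℂ => f ‖ζ‖) z, integral_fun_norm_addHaar,
    mm_real_ball 0 zero_le_one]
  simp

lemma integrable_radial {f : ℝ → ℝ} (z : ℂ) (hf : IntegrableOn (fun y => y * f y) (Ioi 0)) :
    Integrable (fun ζ => f ‖ζ - z‖) mm := by
  have : Integrable (fun ζ : ℂ => f ‖ζ‖) mm := by
    rw [integrable_fun_norm_addHaar]
    simpa using hf
  exact this.comp_sub_right z

lemma radial_Ioo {f : ℝ → ℝ} {a b : ℝ} (ha : 0 ≤ a) (hab : a ≤ b) (z : ℂ)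
    (hf : IntervalIntegrable (fun y => y * f y) volume a b) :
    IntegrableOn (fun ζ => f ‖ζ - z‖) {ζ | a ≤ ‖ζ - z‖ ∧ ‖ζ - z‖ < b} mm ∧
    ∫ ζ in {ζ | a ≤ ‖ζ - z‖ ∧ ‖ζ - z‖ < b}, f ‖ζ - z‖ ∂mm = 2 * ∫ y in a..b, y * f y := by
  have hm : MeasurableSet {ζ : ℂ | a ≤ ‖ζ - z‖ ∧ ‖ζ - z‖ < b} := by measurability
  have e : (indicator {ζ : ℂ | a ≤ ‖ζ - z‖ ∧ ‖ζ - z‖ < b} fun ζ => f ‖ζ - z‖) =
      fun ζ => (indicator (Ico a b) f) ‖ζ - z‖ := by
    ext ζ; simp [indicator]
  have e2 : (fun y => y * indicator (Ico a b) f y) = indicator (Ico a b) (fun y => y * f y) := by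
    ext y; by_cases h : y ∈ Ico a b <;> simp [h]
  have hi : IntegrableOn (fun y => y * f y) (Ico a b) := by
    rw [intervalIntegrable_iff_integrableOn_Ioc_of_le hab] at hf
    exact (integrableOn_Ico_iff_integrableOn_Ioo).2 (hf.mono_set Ioo_subset_Ioc_self)
  constructor
  · rw [← integrable_indicator_iff hm, e]
    apply integrable_radial
    rw [e2]
    exact ((integrable_indicator_iff measurableSet_Ico).2 hi).integrableOn
  · rw [← integral_indicator hm, e, integral_radial, e2, setIntegral_indicator measurableSet_Ico,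
      intervalIntegral.integral_of_le hab, integral_Ioc_eq_integral_Ioo]
    congr 1
    apply setIntegral_congr_set
    have h0 : (Ioi 0 ∩ Ico a b : Set ℝ) =ᵐ[volume] (Ioi 0 ∩ Ioo a b : Set ℝ) :=
      (ae_eq_refl _).inter Ioo_ae_eq_Ico.symm
    refine h0.trans ?_
    rw [inter_eq_right.2]
    intro y hy
    exact lt_of_le_of_lt ha hy.1

lemma newton_ball (z : ℂ) {r : ℝ} (hr : 0 ≤ r) :
    IntegrableOn (fun ζ => ‖ζ - z‖⁻¹) (ball z r) mm ∧
    ∫ ζ in ball z r, ‖ζ - z‖⁻¹ ∂mm = 2 * r := by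
  have e : ball z r = {ζ : ℂ | 0 ≤ ‖ζ - z‖ ∧ ‖ζ - z‖ < r} := by
    ext ζ; simp [mem_ball, dist_eq_norm]
  have e1 : ∀ᵐ y : ℝ, y * y⁻¹ = 1 := by
    filter_upwards [compl_mem_ae_iff.2 (measure_singleton (0 : ℝ))] with y hy
    exact mul_inv_cancel₀ hy
  have hi : IntervalIntegrable (fun y : ℝ => y * y⁻¹) volume 0 r := by
    refine (intervalIntegrable_const (c := (1 : ℝ))).congr_ae ?_
    exact ae_restrict_of_ae (by filter_upwards [e1] with y hy using hy.symm)
  obtain ⟨h1, h2⟩ := radial_Ioo (f := fun y => y⁻¹) le_rfl hr z hi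
  rw [e]
  refine ⟨h1, ?_⟩
  rw [h2, intervalIntegral.integral_congr_ae (g := fun _ => (1 : ℝ))]
  · simp
  · filter_upwards [e1] with y hy _ using hy

lemma newton_le {ν : Measure ℂ} (hν : ν ≤ mm) {r : ℝ} (hr : 0 < r)
    (hm : ν univ ≤ ENNReal.ofReal (r ^ 2)) (z : ℂ) :
    Integrable (fun ζ => ‖ζ - z‖⁻¹) ν ∧ ∫ ζ, ‖ζ - z‖⁻¹ ∂ν ≤ 3 * r := by
  have : IsFiniteMeasure ν := ⟨lt_of_le_of_lt hm ENNReal.ofReal_lt_top⟩
  obtain ⟨h1, h2⟩ := newton_ball z hr.le
  have h3 : Integrable (indicator (ball z r) fun ζ => ‖ζ - z‖⁻¹) mm :=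
    (integrable_indicator_iff measurableSet_ball).2 h1
  have h4 : Integrable (fun ζ => indicator (ball z r) (fun ζ => ‖ζ - z‖⁻¹) ζ + r⁻¹) ν :=
    (h3.mono_measure hν).add (integrable_const _)
  have hle : ∀ ζ, ‖ζ - z‖⁻¹ ≤ indicator (ball z r) (fun ζ => ‖ζ - z‖⁻¹) ζ + r⁻¹ := by
    intro ζ
    by_cases h : ζ ∈ ball z r
    · simp only [h, indicator_of_mem]; have := inv_pos.2 hr; linarith
    · simp only [h, not_false_eq_true, indicator_of_notMem, zero_add]
      rw [mem_ball, dist_eq_norm, not_lt] at h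
      exact inv_anti₀ hr h
  have h5 : Integrable (fun ζ => ‖ζ - z‖⁻¹) ν := by
    refine h4.mono' (by fun_prop) (.of_forall fun ζ => ?_)
    rw [Real.norm_of_nonneg (by positivity)]
    exact hle ζ
  refine ⟨h5, (integral_mono h5 h4 hle).trans ?_⟩
  rw [integral_add (h3.mono_measure hν) (integrable_const _), integral_const]
  have h6 : ∫ ζ, indicator (ball z r) (fun ζ => ‖ζ - z‖⁻¹) ζ ∂ν ≤ 2 * r := by
    rw [← h2, ← integral_indicator measurableSet_ball]
    exact integral_mono_measure hν (.of_forall fun ζ => indicator_nonneg (fun _ _ => by positivity) _) h3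
  have h7 : ν.real univ ≤ r ^ 2 := ENNReal.toReal_le_of_le_ofReal (by positivity) hm
  have h8 : ν.real univ • r⁻¹ ≤ r := by
    rw [smul_eq_mul]
    calc _ ≤ r ^ 2 * r⁻¹ := by gcongr
      _ = r := by field_simp
  linarith

lemma newton_D {ν : Measure ℂ} (hν : ν ≤ mD) (z : ℂ) :
    Integrable (fun ζ => ‖ζ - z‖⁻¹) ν ∧ ∫ ζ, ‖ζ - z‖⁻¹ ∂ν ≤ 3 := by
  have := newton_le (hν.trans mD_le) one_pos (by simpa [mD_univ] using hν univ) z
  simpa using this

lemma log_annulus (z : ℂ) {r s : ℝ} (hr : 0 < r) (hrs : r ≤ s) :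
    IntegrableOn (fun ζ => (‖ζ - z‖ ^ 2)⁻¹) {ζ | r ≤ ‖ζ - z‖ ∧ ‖ζ - z‖ < s} mm ∧
    ∫ ζ in {ζ | r ≤ ‖ζ - z‖ ∧ ‖ζ - z‖ < s}, (‖ζ - z‖ ^ 2)⁻¹ ∂mm = 2 * Real.log (s / r) := by
  have hc : ContinuousOn (fun y : ℝ => y * (y ^ 2)⁻¹) (uIcc r s) := by
    rw [uIcc_of_le hrs]
    refine continuousOn_id.mul (ContinuousOn.inv₀ (by fun_prop) fun y hy => ?_)
    exact pow_ne_zero 2 (lt_of_lt_of_le hr hy.1).ne'
  obtain ⟨h1, h2⟩ := radial_Ioo (f := fun y => (y ^ 2)⁻¹) hr.le hrs z hc.intervalIntegrable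
  refine ⟨h1, ?_⟩
  rw [h2, intervalIntegral.integral_congr (g := fun y => y⁻¹), integral_inv_of_pos hr (hr.trans_le hrs)]
  intro y hy
  rw [uIcc_of_le hrs] at hy
  have := (lt_of_lt_of_le hr hy.1).ne'
  field_simp

lemma poisson_int (u : ℂ) {s : ℝ} (hs : 0 < s) :
    Integrable (fun z => s / (‖z - u‖ ^ 2 + s) ^ 2) mm ∧
    ∫ z, s / (‖z - u‖ ^ 2 + s) ^ 2 ∂mm = 1 := by
  have hd : ∀ y ∈ Ici (0 : ℝ), HasDerivAt (fun y : ℝ => -(s / 2) * (y ^ 2 + s)⁻¹)
      (y * (s / (y ^ 2 + s) ^ 2)) y := by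
    intro y _
    have h0 : y ^ 2 + s ≠ 0 := by positivity
    have := (((hasDerivAt_pow 2 y).add_const s).inv h0).const_mul (-(s / 2))
    refine this.congr_deriv ?_
    simp only [Nat.cast_ofNat, Nat.add_one_sub_one, pow_one]
    field_simp
  have hl : Tendsto (fun y : ℝ => -(s / 2) * (y ^ 2 + s)⁻¹) atTop (𝓝 0) := by
    have : Tendsto (fun y : ℝ => (y ^ 2 + s)⁻¹) atTop (𝓝 0) :=
      tendsto_inv_atTop_zero.comp (tendsto_atTop_add_const_right _ _ (tendsto_pow_atTop two_ne_zero))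
    simpa using this.const_mul (-(s / 2))
  have hpos : ∀ y ∈ Ioi (0 : ℝ), 0 ≤ y * (s / (y ^ 2 + s) ^ 2) := fun y hy => by
    have : 0 < y := hy
    positivity
  have h1 := integrableOn_Ioi_deriv_of_nonneg' hd hpos hl
  have h2 := integral_Ioi_of_hasDerivAt_of_nonneg' hd hpos hl
  refine ⟨integrable_radial (f := fun y => s / (y ^ 2 + s) ^ 2) u h1, ?_⟩
  rw [integral_radial (fun y => s / (y ^ 2 + s) ^ 2) u, h2]
  field_simp
  simp

lemma integrable_decay : Integrable (fun z : ℂ => ((‖z‖ ^ 2 + 1) ^ 2)⁻¹) mm := by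
  simpa using (poisson_int 0 one_pos).1

end Pool.Agent.Lib.MP_45cb44_an
end

-- part Pool.Agent.Lib.MP_45cb44_an.Green
section

/-! A Green identity for functions on the upper half space that are harmonic in four dimensions. -/

namespace Pool.Agent.Lib.MP_45cb44_an

open MeasureTheory Metric Set Filter Topology
open scoped ENNReal NNReal Real

/-- Derivative data of a function with decay. -/
structure Data (f : ℂ → ℝ → ℝ) (f1 f2 : ℂ → ℂ → ℝ → ℝ) (fs fss : ℂ → ℝ → ℝ) : Prop where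
  d1 : ∀ v z s, ‖v‖ = 1 → 0 < s → HasDerivAt (fun t : ℝ => f (z + t • v) s) (f1 v z s) 0
  d2 : ∀ v z s, ‖v‖ = 1 → 0 < s → HasDerivAt (fun t : ℝ => f1 v (z + t • v) s) (f2 v z s) 0
  ds : ∀ z s, 0 < s → HasDerivAt (f z) (fs z s) s
  dss : ∀ z s, 0 < s → HasDerivAt (fs z) (fss z s) s
  c0 : ∀ s, 0 < s → Continuous fun z => f z s
  c1 : ∀ v s, 0 < s → Continuous fun z => f1 v z s
  c2 : ∀ v s, 0 < s → Continuous fun z => f2 v z s
  cs : ∀ s, 0 < s → Continuous fun z => fs z s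
  css : ∀ s, 0 < s → Continuous fun z => fss z s
  bd : ∀ s0, 0 < s0 → ∃ C, ∀ s, s0 ≤ s → ∀ z v, ‖v‖ = 1 → |f z s| ≤ C / (‖z‖ ^ 2 + 1) ∧
    |f1 v z s| ≤ C / (‖z‖ ^ 2 + 1) ∧ |f2 v z s| ≤ C / (‖z‖ ^ 2 + 1) ∧
    |fs z s| ≤ C / (‖z‖ ^ 2 + 1) ∧ |fss z s| ≤ C / (‖z‖ ^ 2 + 1)
  bd' : ∃ C, ∀ s, 1 ≤ s → ∀ z, |f z s| ≤ C / (‖z‖ ^ 2 + s) ∧ |s * fs z s| ≤ C / (‖z‖ ^ 2 + s)

/-- Derivative data of a solution of `Δ f + 4 (f_s + s f_ss) = 0` with decay. -/
structure Harm (f : ℂ → ℝ → ℝ) (f1 f2 : ℂ → ℂ → ℝ → ℝ) (fs fss : ℂ → ℝ → ℝ) : Prop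
    extends Data f f1 f2 fs fss where
  pde : ∀ z s, 0 < s → f2 1 z s + f2 Complex.I z s + 4 * (fs z s + s * fss z s) = 0

lemma abs_mul_decay {a b C D x : ℝ} (ha : |a| ≤ C / x) (hb : |b| ≤ D / x) :
    |a * b| ≤ C * D * (x ^ 2)⁻¹ := by
  rw [abs_mul]
  refine (mul_le_mul ha hb (abs_nonneg _) ((abs_nonneg _).trans ha)).trans (le_of_eq ?_)
  rw [div_mul_div_comm, sq, div_eq_mul_inv]

lemma integrable_mul_decay {a b : ℂ → ℝ} {C D : ℝ} (ha : Continuous a) (hb : Continuous b)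
    (h1 : ∀ z, |a z| ≤ C / (‖z‖ ^ 2 + 1)) (h2 : ∀ z, |b z| ≤ D / (‖z‖ ^ 2 + 1)) :
    Integrable (fun z => a z * b z) mm :=
  (integrable_decay.const_mul (C * D)).mono' (ha.mul hb).aestronglyMeasurable
    (.of_forall fun z => abs_mul_decay (h1 z) (h2 z))

variable {f k : ℂ → ℝ → ℝ} {f1 f2 k1 k2 : ℂ → ℂ → ℝ → ℝ} {fs fss ks kss : ℂ → ℝ → ℝ}

lemma Harm.parts (hf : Harm f f1 f2 fs fss) (hk : Harm k k1 k2 ks kss) {v : ℂ} (hv : ‖v‖ = 1)
    {s : ℝ} (hs : 0 < s) :
    Integrable (fun z => k z s * f2 v z s) mm ∧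
      ∫ z, k z s * f2 v z s ∂mm = -∫ z, k1 v z s * f1 v z s ∂mm := by
  obtain ⟨C, hC⟩ := hf.bd s hs
  obtain ⟨D, hD⟩ := hk.bd s hs
  have i1 := integrable_mul_decay (hk.c0 s hs) (hf.c2 v s hs) (fun z => (hD s le_rfl z v hv).1)
    (fun z => (hC s le_rfl z v hv).2.2.1)
  have i2 := integrable_mul_decay (hk.c1 v s hs) (hf.c1 v s hs) (fun z => (hD s le_rfl z v hv).2.1)
    (fun z => (hC s le_rfl z v hv).2.1)
  have i3 := integrable_mul_decay (hk.c0 s hs) (hf.c1 v s hs) (fun z => (hD s le_rfl z v hv).1)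
    (fun z => (hC s le_rfl z v hv).2.1)
  refine ⟨i1, ?_⟩
  exact integral_bilinear_hasLineDerivAt_right_eq_neg_left_of_integrable (μ := mm) (v := v)
    (B := ContinuousLinearMap.mul ℝ ℝ) (f := fun z => k z s) (f' := fun z => k1 v z s)
    (g := fun z => f1 v z s) (g' := fun z => f2 v z s) i2 i1 i3
    (fun z _ => hk.d1 v z s hv hs) (fun z _ => hf.d2 v z s hv hs)

lemma Harm.deriv_zero (hf : Harm f f1 f2 fs fss) (hk : Harm k k1 k2 ks kss) {s0 : ℝ}
    (hs0 : 0 < s0) :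
    HasDerivAt (fun s => ∫ z, s * (fs z s * k z s - ks z s * f z s) ∂mm) 0 s0 := by
  obtain ⟨C, hC⟩ := hf.bd (s0 / 2) (by positivity)
  obtain ⟨D, hD⟩ := hk.bd (s0 / 2) (by positivity)
  have h1 : ‖(1 : ℂ)‖ = 1 := norm_one
  have hI : ‖Complex.I‖ = 1 := Complex.norm_I
  have hle : s0 / 2 ≤ s0 := by linarith
  have key := hasDerivAt_integral_of_dominated_loc_of_deriv_le (μ := mm)
    (F := fun s z => s * (fs z s * k z s - ks z s * f z s))
    (F' := fun s z => (fs z s * k z s - ks z s * f z s) + s * (fss z s * k z s - kss z s * f z s))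
    (x₀ := s0) (s := Ioo (s0 / 2) (2 * s0)) (Ioo_mem_nhds (by linarith) (by linarith))
    (bound := fun z => (2 * (C * D) + 2 * s0 * (2 * (C * D))) * ((‖z‖ ^ 2 + 1) ^ 2)⁻¹)
    ?_ ?_ ?_ ?_ (integrable_decay.const_mul _) ?_
  · refine key.2.congr_deriv ?_
    obtain ⟨a1, b1⟩ := hf.parts hk h1 hs0
    obtain ⟨a2, b2⟩ := hf.parts hk hI hs0
    obtain ⟨a3, b3⟩ := hk.parts hf h1 hs0
    obtain ⟨a4, b4⟩ := hk.parts hf hI hs0
    have e : (fun z => (fs z s0 * k z s0 - ks z s0 * f z s0) +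
        s0 * (fss z s0 * k z s0 - kss z s0 * f z s0)) = fun z => (-1 / 4 : ℝ) *
        ((k z s0 * f2 1 z s0 + k z s0 * f2 Complex.I z s0) -
          (f z s0 * k2 1 z s0 + f z s0 * k2 Complex.I z s0)) := by
      ext z
      have p1 := hf.pde z s0 hs0
      have p2 := hk.pde z s0 hs0
      linear_combination (k z s0 / 4) * p1 - (f z s0 / 4) * p2
    have a5 : Integrable (fun z => k z s0 * f2 1 z s0 + k z s0 * f2 Complex.I z s0) mm := a1.add a2
    have a6 : Integrable (fun z => f z s0 * k2 1 z s0 + f z s0 * k2 Complex.I z s0) mm := a3.add a4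
    rw [e, integral_const_mul, integral_sub a5 a6, integral_add a1 a2,
      integral_add a3 a4, b1, b2, b3, b4]
    simp only [mul_comm]
    ring
  · filter_upwards [Ioi_mem_nhds hs0] with s hs
    have := hf.c0 s hs; have := hf.cs s hs; have := hk.c0 s hs; have := hk.cs s hs
    exact Continuous.aestronglyMeasurable (by fun_prop)
  · exact ((integrable_mul_decay (hf.cs s0 hs0) (hk.c0 s0 hs0)
      (fun z => (hC s0 hle z 1 h1).2.2.2.1) (fun z => (hD s0 hle z 1 h1).1)).sub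
      (integrable_mul_decay (hk.cs s0 hs0) (hf.c0 s0 hs0)
      (fun z => (hD s0 hle z 1 h1).2.2.2.1) (fun z => (hC s0 hle z 1 h1).1))).const_mul _
  · have := hf.c0 s0 hs0; have := hf.cs s0 hs0; have := hk.c0 s0 hs0; have := hk.cs s0 hs0
    have := hf.css s0 hs0; have := hk.css s0 hs0
    exact Continuous.aestronglyMeasurable (by fun_prop)
  · refine .of_forall fun z s hs => ?_
    obtain ⟨c1, -, -, c2, c3⟩ := hC s hs.1.le z 1 h1
    obtain ⟨d1, -, -, d2, d3⟩ := hD s hs.1.le z 1 h1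
    have e1 := abs_mul_decay c2 d1
    have e2 := abs_mul_decay c1 d2
    have e3 := abs_mul_decay c3 d1
    have e4 := abs_mul_decay c1 d3
    have hs' : 0 < s := lt_trans (by positivity) hs.1
    rw [mul_comm (f z s)] at e2 e4
    rw [Real.norm_eq_abs]
    refine (abs_add_le _ _).trans ?_
    rw [abs_mul, abs_of_pos hs']
    have g1 := (abs_sub _ _).trans (add_le_add e1 e2)
    have g2 := (abs_sub _ _).trans (add_le_add e3 e4)
    have g3 := mul_le_mul hs.2.le g2 (abs_nonneg _) (by positivity)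
    linarith
  · refine .of_forall fun z s hs => ?_
    have hs' : 0 < s := lt_trans (by positivity) hs.1
    have := (hasDerivAt_id s).mul (((hf.dss z s hs').mul (hk.ds z s hs')).sub
      ((hk.dss z s hs').mul (hf.ds z s hs')))
    refine this.congr_deriv ?_
    simp only [id, Pi.sub_apply, Pi.mul_apply]
    ring

lemma Harm.green (hf : Harm f f1 f2 fs fss) (hk : Harm k k1 k2 ks kss) {s : ℝ} (hs : 0 < s) :
    ∫ z, s * (fs z s * k z s - ks z s * f z s) ∂mm = 0 := by
  set W : ℝ → ℝ := fun s => ∫ z, s * (fs z s * k z s - ks z s * f z s) ∂mm with hW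
  have hc : ∀ t, 0 < t → W t = W s := fun t ht =>
    isOpen_Ioi.is_const_of_deriv_eq_zero isPreconnected_Ioi
      (fun x hx => (hf.deriv_zero hk hx).differentiableAt.differentiableWithinAt)
      (fun x hx => (hf.deriv_zero hk hx).deriv) ht hs
  obtain ⟨C, hC⟩ := hf.bd'
  obtain ⟨D, hD⟩ := hk.bd'
  have hb : ∀ t, 1 ≤ t → ‖W t‖ ≤ 2 * (C * D) * t⁻¹ := by
    intro t ht
    have ht0 : 0 < t := lt_of_lt_of_le one_pos ht
    obtain ⟨p1, p2⟩ := poisson_int 0 ht0
    refine (norm_integral_le_of_norm_le (p1.const_mul (2 * (C * D) * t⁻¹))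
      (.of_forall fun z => ?_)).trans ?_
    · have e1 := abs_mul_decay (hC t ht z).2 (hD t ht z).1
      have e2 := abs_mul_decay (hC t ht z).1 (hD t ht z).2
      have e : t * (fs z t * k z t - ks z t * f z t) =
        t * fs z t * k z t - f z t * (t * ks z t) := by ring
      rw [Real.norm_eq_abs, e]
      refine ((abs_sub _ _).trans (add_le_add e1 e2)).trans (le_of_eq ?_)
      rw [sub_zero]
      field_simp
      ring
    · rw [integral_const_mul, p2, mul_one]
  have h1 : Tendsto W atTop (𝓝 0) := by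
    refine squeeze_zero_norm' (a := fun t => 2 * (C * D) * t⁻¹) ?_ ?_
    · filter_upwards [eventually_ge_atTop 1] with t ht using hb t ht
    · simpa using tendsto_inv_atTop_zero.const_mul (2 * (C * D))
  have h2 : Tendsto W atTop (𝓝 (W s)) := by
    refine tendsto_const_nhds.congr' ?_
    filter_upwards [eventually_gt_atTop 0] with t ht using (hc t ht).symm
  exact tendsto_nhds_unique h2 h1

lemma Data.log (hf : Data f f1 f2 fs fss) (h0 : ∀ z s, 0 < s → 0 ≤ f z s) :
    Data (fun z s => Real.log (1 + f z s)) (fun v z s => f1 v z s / (1 + f z s))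
      (fun v z s => f2 v z s / (1 + f z s) - f1 v z s ^ 2 / (1 + f z s) ^ 2)
      (fun z s => fs z s / (1 + f z s))
      (fun z s => fss z s / (1 + f z s) - fs z s ^ 2 / (1 + f z s) ^ 2) := by
  have hne : ∀ z s, 0 < s → 1 + f z s ≠ 0 := fun z s hs => by have := h0 z s hs; positivity
  have hdiv : ∀ z s, 0 < s → ∀ a : ℝ, |a / (1 + f z s)| ≤ |a| := fun z s hs a => by
    have := h0 z s hs
    rw [abs_div, abs_of_pos (by positivity : 0 < 1 + f z s)]
    exact div_le_self (abs_nonneg _) (by linarith)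
  have hlog : ∀ z s, 0 < s → |Real.log (1 + f z s)| ≤ |f z s| := fun z s hs => by
    have := h0 z s hs
    rw [abs_of_nonneg (Real.log_nonneg (by linarith)), abs_of_nonneg this]
    have := Real.log_le_sub_one_of_pos (by positivity : 0 < 1 + f z s)
    linarith
  have hsec : ∀ z s, 0 < s → ∀ a b C : ℝ, |a| ≤ C / (‖z‖ ^ 2 + 1) → |b| ≤ C / (‖z‖ ^ 2 + 1) →
      |a / (1 + f z s) - b ^ 2 / (1 + f z s) ^ 2| ≤ (C + C ^ 2) / (‖z‖ ^ 2 + 1) := by
    intro z s hs a b C ha hb
    have h1 : 1 ≤ ‖z‖ ^ 2 + 1 := by nlinarith [norm_nonneg z]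
    have hC : 0 ≤ C := by
      have := (abs_nonneg _).trans ha
      rwa [le_div_iff₀ (by positivity), zero_mul] at this
    refine (abs_sub _ _).trans ?_
    rw [add_div, ← div_pow, abs_pow]
    refine add_le_add ((hdiv z s hs a).trans ha) ?_
    have h2 := (hdiv z s hs b).trans hb
    have h3 : C / (‖z‖ ^ 2 + 1) ≤ C := div_le_self hC h1
    calc _ ≤ C / (‖z‖ ^ 2 + 1) * C := by
          rw [sq]; exact mul_le_mul h2 (h2.trans h3) (abs_nonneg _) (by positivity)
      _ = _ := by ring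
  constructor
  · intro v z s hv hs
    have := ((hf.d1 v z s hv hs).const_add 1).log (by simpa using hne z s hs)
    simpa using this
  · intro v z s hv hs
    have := (hf.d2 v z s hv hs).div ((hf.d1 v z s hv hs).const_add 1) (by simpa using hne z s hs)
    refine this.congr_deriv ?_
    have := hne z s hs
    simp only [zero_smul, add_zero]
    field_simp
  · intro z s hs
    exact ((hf.ds z s hs).const_add 1).log (hne z s hs)
  · intro z s hs
    have := (hf.dss z s hs).div ((hf.ds z s hs).const_add 1) (hne z s hs)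
    refine this.congr_deriv ?_
    have := hne z s hs
    field_simp
  · intro s hs
    exact (continuous_const.add (hf.c0 s hs)).log fun z => hne z s hs
  · intro v s hs
    exact (hf.c1 v s hs).div (continuous_const.add (hf.c0 s hs)) fun z => hne z s hs
  · intro v s hs
    exact ((hf.c2 v s hs).div (continuous_const.add (hf.c0 s hs)) fun z => hne z s hs).sub
      (((hf.c1 v s hs).pow 2).div ((continuous_const.add (hf.c0 s hs)).pow 2)
        fun z => pow_ne_zero 2 (hne z s hs))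
  · intro s hs
    exact (hf.cs s hs).div (continuous_const.add (hf.c0 s hs)) fun z => hne z s hs
  · intro s hs
    exact ((hf.css s hs).div (continuous_const.add (hf.c0 s hs)) fun z => hne z s hs).sub
      (((hf.cs s hs).pow 2).div ((continuous_const.add (hf.c0 s hs)).pow 2)
        fun z => pow_ne_zero 2 (hne z s hs))
  · intro s0 hs0
    obtain ⟨C, hC⟩ := hf.bd s0 hs0
    refine ⟨C + C ^ 2, fun s hs z v hv => ?_⟩
    have hs' := hs0.trans_le hs
    obtain ⟨a0, a1, a2, a3, a4⟩ := hC s hs z v hv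
    have hm : C / (‖z‖ ^ 2 + 1) ≤ (C + C ^ 2) / (‖z‖ ^ 2 + 1) := by
      gcongr; nlinarith [sq_nonneg C]
    exact ⟨((hlog z s hs').trans a0).trans hm, ((hdiv z s hs' _).trans a1).trans hm,
      hsec z s hs' _ _ _ a2 a1, ((hdiv z s hs' _).trans a3).trans hm, hsec z s hs' _ _ _ a4 a3⟩
  · obtain ⟨C, hC⟩ := hf.bd'
    refine ⟨C, fun s hs z => ⟨(hlog z s (by linarith)).trans (hC s hs z).1, ?_⟩⟩
    rw [← mul_div_assoc]
    exact (hdiv z s (by linarith) _).trans (hC s hs z).2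

end Pool.Agent.Lib.MP_45cb44_an
end

-- part Pool.Agent.Lib.MP_45cb44_an.Alg
section

/-! The algebraic identity behind harmonicity of the regularised determinant. -/

namespace Pool.Agent.Lib.MP_45cb44_an

lemma pde_alg {A : Type*} [Ring A] [Algebra ℂ A] (ω : A →ₗ[ℂ] ℂ) (Φ S S' R : A) (s ε : ℂ)
    (hΦ : ∀ X Y, ω (X * Φ * Y) = ω X * ω Y) (hΦ2 : ∀ X, Φ * X * Φ = ω X • Φ)
    (h1 : (S * S' + s • 1) * R = 1) (h2 : R * (S * S' + s • 1) = 1)
    (hc : S' * S = S * S' + ε • Φ) (hb : 1 + ε * ω R ≠ 0) :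
    (1 + ε * ω R) * (ω (R * S' * R * S * R) + ω (R * S * R * S' * R)) =
      (1 + ε * ω R) * (2 * ω (R * R) - 2 * s * ω (R * R * R)) +
        ε * (s * ω (R * R) ^ 2 + ω (R * S * R) * ω (R * S' * R)) := by
  set c := ε * (1 + ε * ω R)⁻¹ with hcd
  have hc0 : ε - c - c * ε * ω R = 0 := by rw [hcd]; field_simp; ring
  set R' := R - c • (R * Φ * R) with hR'
  set P := S * S' + s • (1 : A) with hP
  have hQ : S' * S + s • (1 : A) = P + ε • Φ := by rw [hc, hP]; abel
  clear_value P R' c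
  have a1 : (S' * S + s • (1 : A)) * R' = 1 := by
    have e1 : P * (R * Φ * R) = Φ * R := by rw [← mul_assoc, ← mul_assoc, h1, one_mul]
    have e2 : Φ * (R * Φ * R) = ω R • (Φ * R) := by
      rw [← mul_assoc, ← mul_assoc, hΦ2, smul_mul_assoc]
    have e3 : (P + ε • Φ) * (R - c • (R * Φ * R)) = P * R + ε • (Φ * R) - c • (P * (R * Φ * R))
        - (ε * c) • (Φ * (R * Φ * R)) := by
      simp only [mul_sub, add_mul, mul_smul_comm, smul_mul_assoc]
      module
    have e4 : 1 + ε • (Φ * R) - c • (Φ * R) - (ε * c) • ω R • (Φ * R) =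
        1 + (ε - c - c * ε * ω R) • (Φ * R) := by module
    rw [hQ, hR', e3, h1, e1, e2, e4, hc0, zero_smul, add_zero]
  have a2 : R' * (S' * S + s • (1 : A)) = 1 := by
    have e1 : R * Φ * R * P = R * Φ := by rw [mul_assoc, h2, mul_one]
    have e2 : R * Φ * R * Φ = ω R • (R * Φ) := by
      rw [mul_assoc, mul_assoc, ← mul_assoc Φ, hΦ2, mul_smul_comm]
    have e3 : (R - c • (R * Φ * R)) * (P + ε • Φ) = R * P + ε • (R * Φ) - c • (R * Φ * R * P)
        - (ε * c) • (R * Φ * R * Φ) := by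
      simp only [sub_mul, mul_add, mul_smul_comm, smul_mul_assoc]
      module
    have e4 : 1 + ε • (R * Φ) - c • (R * Φ) - (ε * c) • ω R • (R * Φ) =
        1 + (ε - c - c * ε * ω R) • (R * Φ) := by module
    rw [hQ, hR', e3, h2, e1, e2, e4, hc0, zero_smul, add_zero]
  have b1 : S' * R = R' * S' := by
    calc S' * R = R' * (S' * S + s • (1 : A)) * S' * R := by rw [a2, one_mul]
      _ = R' * S' * (P * R) := by
        simp only [hP, mul_add, add_mul, mul_assoc, mul_smul_comm, smul_mul_assoc, one_mul, mul_one]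
      _ = R' * S' := by rw [h1, mul_one]
  have b2 : S * R' = R * S := by
    calc S * R' = R * P * S * R' := by rw [h2, one_mul]
      _ = R * S * ((S' * S + s • (1 : A)) * R') := by
        simp only [hP, mul_add, add_mul, mul_assoc, mul_smul_comm, smul_mul_assoc, one_mul, mul_one]
      _ = R * S := by rw [a1, mul_one]
  have c1 : S' * R * S = 1 - s • R' := by
    rw [b1, ← a2, mul_add, mul_smul_comm, mul_one, mul_assoc]; abel
  have c2 : S * R * S' = 1 - s • R + c • (S * R * Φ * R * S') := by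
    have : R = R' + c • (R * Φ * R) := by rw [hR']; abel
    calc S * R * S' = S * (R' + c • (R * Φ * R)) * S' := by rw [← this]
      _ = S * R' * S' + c • (S * R * Φ * R * S') := by
        simp only [mul_add, add_mul, mul_assoc, mul_smul_comm, smul_mul_assoc]
      _ = _ := by
        rw [b2, ← h2, hP, mul_add, mul_smul_comm, mul_one, mul_assoc]; abel
  have d1 : ω (R * S' * R * S * R) = ω (R * R) - s * ω (R * R * R) + s * c * ω (R * R) ^ 2 := by
    have : R * S' * R * S * R = R * R - s • (R * R * R) + (s * c) • (R * R * Φ * (R * R)) := by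
      calc R * S' * R * S * R = R * (S' * R * S) * R := by simp only [mul_assoc]
        _ = _ := by
          rw [c1, hR']
          simp only [mul_sub, sub_mul, mul_assoc, mul_smul_comm, smul_mul_assoc, mul_one, smul_sub,
            mul_smul]
          abel
    rw [this, map_add, map_sub, map_smul, map_smul, hΦ]
    simp only [smul_eq_mul]; ring
  have d2 : ω (R * S * R * S' * R) =
      ω (R * R) - s * ω (R * R * R) + c * (ω (R * S * R) * ω (R * S' * R)) := by
    have : R * S * R * S' * R = R * R - s • (R * R * R) + c • (R * S * R * Φ * (R * S' * R)) := by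
      calc R * S * R * S' * R = R * (S * R * S') * R := by simp only [mul_assoc]
        _ = _ := by
          rw [c2]
          simp only [mul_sub, sub_mul, mul_add, add_mul, mul_assoc, mul_smul_comm, smul_mul_assoc,
            mul_one]
    rw [this, map_add, map_sub, map_smul, map_smul, hΦ]
    simp only [smul_eq_mul]
  rw [d1, d2, hcd]
  field_simp
  ring

end Pool.Agent.Lib.MP_45cb44_an
end

-- part Pool.Agent.Lib.MP_45cb44_an.Resolvent
section

/-! Calculus of the regularised resolvent. -/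

namespace Pool.Agent.Lib.MP_45cb44_an

open Metric Set Filter Topology
open scoped InnerProductSpace ComplexConjugate

variable {H : Type*} [NormedAddCommGroup H] [InnerProductSpace ℂ H] [CompleteSpace H]

/-- `T - z`. -/
noncomputable def SS (T : H →L[ℂ] H) (z : ℂ) : H →L[ℂ] H := T - z • 1

/-- `(T - z)(T - z)^* + s`. -/
noncomputable def PP (T : H →L[ℂ] H) (z : ℂ) (s : ℝ) : H →L[ℂ] H :=
  SS T z * star (SS T z) + (s : ℂ) • 1

/-- Inverse of `PP`. -/
noncomputable def RR (T : H →L[ℂ] H) (z : ℂ) (s : ℝ) : H →L[ℂ] H := Ring.inverse (PP T z s)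

/-- Directional derivative of `PP`. -/
noncomputable def EE (T : H →L[ℂ] H) (v z : ℂ) : H →L[ℂ] H :=
  -(conj v • SS T z + v • star (SS T z))

/-- Vector functional. -/
noncomputable def om (φ : H) : (H →L[ℂ] H) →L[ℂ] ℂ :=
  (innerSL ℂ φ).comp (ContinuousLinearMap.apply ℂ H φ)

omit [CompleteSpace H] in
lemma om_apply (φ : H) (X : H →L[ℂ] H) : om φ X = ⟪φ, X φ⟫_ℂ := rfl

omit [CompleteSpace H] in
lemma norm_om_le (φ : H) (X : H →L[ℂ] H) : ‖om φ X‖ ≤ ‖φ‖ ^ 2 * ‖X‖ := by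
  rw [om_apply]
  refine (norm_inner_le_norm _ _).trans ?_
  have := X.le_opNorm φ
  nlinarith [norm_nonneg φ]

lemma om_real (φ : H) {X : H →L[ℂ] H} (h : IsSelfAdjoint X) : (((om φ X).re : ℝ) : ℂ) = om φ X := by
  rw [← Complex.conj_eq_iff_re, om_apply, inner_conj_symm, ← ContinuousLinearMap.adjoint_inner_right,
    ← ContinuousLinearMap.star_eq_adjoint, h.star_eq]

variable (T : H →L[ℂ] H) (φ : H)

lemma star_SS (z : ℂ) : star (SS T z) = star T - conj z • 1 := by
  simp [SS, star_smul]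

lemma PP_sa (z : ℂ) (s : ℝ) : IsSelfAdjoint (PP T z s) := by
  simp [PP, isSelfAdjoint_iff, star_smul]

lemma RR_sa (z : ℂ) (s : ℝ) : IsSelfAdjoint (RR T z s) := (PP_sa T z s).ringInverse

lemma EE_sa (v z : ℂ) : IsSelfAdjoint (EE T v z) := by
  simp [EE, isSelfAdjoint_iff, star_smul, add_comm]

lemma inner_PP (z : ℂ) (s : ℝ) (x : H) :
    ⟪PP T z s x, x⟫_ℂ = ((‖star (SS T z) x‖ ^ 2 + s * ‖x‖ ^ 2 : ℝ) : ℂ) := by
  simp only [PP, add_apply, mul_apply_eq_comp,
    smul_apply, one_apply_eq_self, inner_add_left, inner_smul_left,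
    Complex.conj_ofReal]
  rw [← ContinuousLinearMap.adjoint_inner_right, ← ContinuousLinearMap.star_eq_adjoint,
    inner_self_eq_norm_sq_to_K, inner_self_eq_norm_sq_to_K]
  simp

lemma unit_PP {z : ℂ} {s κ : ℝ} (hκ : 0 < κ)
    (h : ∀ x, κ * ‖x‖ ^ 2 ≤ ‖star (SS T z) x‖ ^ 2 + s * ‖x‖ ^ 2) :
    IsUnit (PP T z s) ∧ ‖RR T z s‖ ≤ κ⁻¹ := by
  have h1 : ∀ x, κ * ‖x‖ ^ 2 ≤ ‖⟪PP T z s x, x⟫_ℂ‖ := fun x => by
    rw [inner_PP, Complex.norm_real]
    exact (h x).trans (le_abs_self _)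
  have hu : IsUnit (PP T z s) := by
    refine ContinuousLinearMap.isUnit_of_forall_le_norm_inner_map _ (c := ⟨κ, hκ.le⟩) hκ fun x => ?_
    rw [mul_comm]; exact h1 x
  refine ⟨hu, ContinuousLinearMap.opNorm_le_bound _ (by positivity) fun y => ?_⟩
  have e : PP T z s (RR T z s y) = y := by
    rw [← mul_apply_eq_comp, RR, Ring.mul_inverse_cancel _ hu]; rfl
  have h2 := (h1 (RR T z s y)).trans (norm_inner_le_norm _ _)
  rw [e] at h2
  rcases (norm_nonneg (RR T z s y)).eq_or_lt with h3 | h3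
  · rw [← h3]; positivity
  · rw [← div_eq_inv_mul, le_div_iff₀ hκ]
    nlinarith

lemma lower_SS (z : ℂ) (x : H) : ‖z‖ * ‖x‖ ≤ ‖star (SS T z) x‖ + ‖T‖ * ‖x‖ := by
  have h1 : ‖star T x‖ ≤ ‖T‖ * ‖x‖ := by
    simpa using (star T).le_opNorm x
  have h2 : conj z • x = star T x - star (SS T z) x := by simp [star_SS]
  have h3 : ‖conj z • x‖ = ‖z‖ * ‖x‖ := by simp [norm_smul]
  rw [← h3, h2]
  linarith [norm_sub_le (star T x) (star (SS T z) x)]

lemma unit_PP_pos (z : ℂ) {s : ℝ} (hs : 0 < s) : IsUnit (PP T z s) ∧ ‖RR T z s‖ ≤ s⁻¹ :=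
  unit_PP T hs fun x => by nlinarith [sq_nonneg ‖star (SS T z) x‖]

lemma unit_PP_far {z : ℂ} {s d : ℝ} (hs : 0 ≤ s) (hd : 0 < d) (hz : ‖T‖ + d ≤ ‖z‖) :
    IsUnit (PP T z s) ∧ ‖RR T z s‖ ≤ (d ^ 2)⁻¹ :=
  unit_PP T (by positivity) fun x => by
    have h1 := lower_SS T z x
    have h2 : d * ‖x‖ ≤ ‖star (SS T z) x‖ := by nlinarith [norm_nonneg x]
    have h3 := mul_self_le_mul_self (by positivity) h2
    nlinarith [sq_nonneg ‖x‖]

lemma norm_RR_decay (z : ℂ) {s a C : ℝ} (ha : 0 < a) (hC : 2 ≤ C)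
    (h : 2 * ‖T‖ ^ 2 + a ≤ C * s) : ‖RR T z s‖ ≤ C / (‖z‖ ^ 2 + a) := by
  have := (unit_PP T (z := z) (s := s) (κ := (‖z‖ ^ 2 + a) / C) (by positivity) fun x => by
    have h1 := lower_SS T z x
    have h2 := mul_self_le_mul_self (by positivity) h1
    rw [div_mul_eq_mul_div, div_le_iff₀ (by positivity)]
    have h3 := mul_le_mul_of_nonneg_right h (sq_nonneg ‖x‖)
    have h4 := mul_le_mul_of_nonneg_right hC (sq_nonneg ‖star (SS T z) x‖)
    nlinarith [sq_nonneg (‖star (SS T z) x‖ - ‖T‖ * ‖x‖)]).2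
  rwa [inv_div] at this

lemma norm_EE {v : ℂ} (hv : ‖v‖ = 1) (z : ℂ) : ‖EE T v z‖ ≤ 2 * (1 + ‖T‖) * (‖z‖ ^ 2 + 1) := by
  have h1 : ‖SS T z‖ ≤ ‖T‖ + ‖z‖ := by
    refine (norm_sub_le _ _).trans (add_le_add le_rfl ?_)
    rw [norm_smul]
    exact mul_le_of_le_one_right (norm_nonneg _) ContinuousLinearMap.norm_id_le
  rw [EE, norm_neg]
  refine (norm_add_le _ _).trans ?_
  rw [norm_smul, norm_smul, norm_star, Complex.norm_conj, hv]
  nlinarith [norm_nonneg T, norm_nonneg z, sq_nonneg (‖z‖ - 1), mul_nonneg (norm_nonneg T) (sq_nonneg ‖z‖)]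

lemma hasDerivAt_inv {A : Type*} [NormedRing A] [NormedAlgebra ℂ A] [CompleteSpace A]
    {P : ℂ → A} {P' : A} {t : ℂ} (h : HasDerivAt P P' t) (hu : IsUnit (P t)) :
    HasDerivAt (fun t => Ring.inverse (P t))
      (-(Ring.inverse (P t) * P' * Ring.inverse (P t))) t := by
  obtain ⟨u, hu⟩ := hu
  have h1 := hasFDerivAt_ringInverse (𝕜 := ℂ) u
  rw [hu] at h1
  have := h1.comp_hasDerivAt t h
  rw [← hu, Ring.inverse_unit]
  refine HasDerivAt.congr_deriv this ?_
  simp

lemma continuous_PP : Continuous fun x : ℂ × ℝ => PP T x.1 x.2 := by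
  unfold PP SS
  fun_prop

lemma continuousAt_RR {x : ℂ × ℝ} (h : IsUnit (PP T x.1 x.2)) :
    ContinuousAt (fun x : ℂ × ℝ => RR T x.1 x.2) x := by
  obtain ⟨u, hu⟩ := h
  have h1 := NormedRing.inverse_continuousAt u
  rw [hu] at h1
  exact ContinuousAt.comp (f := fun x : ℂ × ℝ => PP T x.1 x.2) h1 (continuous_PP T).continuousAt

lemma continuous_RR {s : ℝ} (hs : 0 < s) : Continuous fun z => RR T z s :=
  continuous_iff_continuousAt.2 fun z =>
    ContinuousAt.comp (f := fun z : ℂ => (z, s)) (continuousAt_RR T (unit_PP_pos T z hs).1)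
      (by fun_prop)

lemma continuous_EE (v : ℂ) : Continuous fun z => EE T v z := by
  unfold EE SS
  fun_prop

/-- The function beta and its derivatives. -/
noncomputable def b0 (z : ℂ) (s : ℝ) : ℝ := (om φ (RR T z s)).re
/-- First directional derivative. -/
noncomputable def b1 (v z : ℂ) (s : ℝ) : ℝ := (-om φ (RR T z s * EE T v z * RR T z s)).re
/-- Second directional derivative. -/
noncomputable def b2 (v z : ℂ) (s : ℝ) : ℝ :=
  (2 * om φ (RR T z s * EE T v z * RR T z s * EE T v z * RR T z s) -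
    2 * om φ (RR T z s * RR T z s)).re
/-- First derivative in `s`. -/
noncomputable def bs (z : ℂ) (s : ℝ) : ℝ := (-om φ (RR T z s * RR T z s)).re
/-- Second derivative in `s`. -/
noncomputable def bss (z : ℂ) (s : ℝ) : ℝ := (2 * om φ (RR T z s * RR T z s * RR T z s)).re

lemma path_z (v z : ℂ) {s : ℝ} (hs : 0 < s) :
    ∃ R E : ℂ → H →L[ℂ] H, (∀ t : ℝ, R t = RR T (z + t • v) s) ∧ (∀ t : ℝ, E t = EE T v (z + t • v))
      ∧ HasDerivAt R (-(RR T z s * EE T v z * RR T z s)) 0 ∧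
      HasDerivAt E ((2 * (v * conj v)) • 1) 0 := by
  let a : ℂ → H →L[ℂ] H := fun t => SS T z - (t * v) • 1
  let b : ℂ → H →L[ℂ] H := fun t => star (SS T z) - (t * conj v) • 1
  have ha : HasDerivAt a (-(v • 1)) 0 := by
    simpa using (((hasDerivAt_id (0 : ℂ)).mul_const v).smul_const
      (1 : H →L[ℂ] H)).const_sub (SS T z)
  have hb : HasDerivAt b (-(conj v • 1)) 0 := by
    simpa using (((hasDerivAt_id (0 : ℂ)).mul_const (conj v)).smul_const
      (1 : H →L[ℂ] H)).const_sub (star (SS T z))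
  have ea : ∀ t : ℝ, a t = SS T (z + t • v) := fun t => by
    simp only [a, SS, Complex.real_smul, add_smul]; abel
  have eb : ∀ t : ℝ, b t = star (SS T (z + t • v)) := fun t => by
    simp only [b, star_SS, Complex.real_smul, map_add, map_mul, Complex.conj_ofReal, add_smul]; abel
  refine ⟨fun t => Ring.inverse (a t * b t + (s : ℂ) • 1), fun t => -(conj v • a t + v • b t),
    fun t => by simp only [ea, eb, RR, PP], fun t => by simp only [ea, eb, EE], ?_, ?_⟩
  · have h0 : a 0 * b 0 + (s : ℂ) • 1 = PP T z s := by simp [a, b, PP]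
    have := hasDerivAt_inv ((ha.mul hb).add_const ((s : ℂ) • 1))
      (by simpa only [Pi.mul_apply, h0] using (unit_PP_pos T z hs).1)
    simp only [Pi.mul_apply, h0] at this
    refine this.congr_deriv ?_
    congr 3
    simp [a, b, EE]
  · refine ((ha.const_smul (conj v)).add (hb.const_smul v)).neg.congr_deriv ?_
    module

lemma path_s (z : ℂ) {s : ℝ} (hs : 0 < s) :
    ∃ R : ℂ → H →L[ℂ] H, (∀ t : ℝ, R t = RR T z t) ∧ HasDerivAt R (-(RR T z s * RR T z s)) s := by
  refine ⟨fun t => Ring.inverse (SS T z * star (SS T z) + t • 1), fun t => rfl, ?_⟩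
  have := hasDerivAt_inv ((((hasDerivAt_id (s : ℂ)).smul_const
      (1 : H →L[ℂ] H))).const_add (SS T z * star (SS T z))) (unit_PP_pos T z hs).1
  simpa [RR, PP] using this

omit [CompleteSpace H] in
lemma abs_re_om_le (X : H →L[ℂ] H) : |(om φ X).re| ≤ ‖φ‖ ^ 2 * ‖X‖ :=
  (Complex.abs_re_le_norm _).trans (norm_om_le φ X)

lemma data_b : Data (b0 T φ) (b1 T φ) (b2 T φ) (bs T φ) (bss T φ) := by
  constructor
  · intro v z s _ hs
    obtain ⟨R, E, hR, -, dR, -⟩ := path_z T v z hs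
    have := ((om φ).hasFDerivAt.comp_hasDerivAt _ dR)
    rw [← Complex.ofReal_zero] at this
    simpa [b0, b1, hR] using this.real_of_complex
  · intro v z s hv hs
    obtain ⟨R, E, hR, hE, dR, dE⟩ := path_z T v z hs
    have := ((om φ).hasFDerivAt.comp_hasDerivAt _ ((dR.mul dE).mul dR)).neg
    rw [← Complex.ofReal_zero] at this
    have h2 := this.real_of_complex
    have e1 : v * conj v = 1 := by rw [Complex.mul_conj, Complex.normSq_eq_norm_sq, hv]; simp
    simp only [Pi.neg_apply, Function.comp_apply, Pi.mul_apply, hR, hE, e1] at h2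
    refine h2.congr_deriv ?_
    rw [b2]
    congr 1
    simp only [zero_smul, add_zero, mul_one, add_mul, mul_neg, neg_mul, mul_smul_comm,
      smul_mul_assoc, map_add, map_neg, map_smul, mul_assoc, smul_eq_mul]
    ring
  · intro z s hs
    obtain ⟨R, hR, dR⟩ := path_s T z hs
    have := ((om φ).hasFDerivAt.comp_hasDerivAt _ dR).real_of_complex
    simp only [Function.comp_apply, hR, map_neg] at this
    exact this
  · intro z s hs
    obtain ⟨R, hR, dR⟩ := path_s T z hs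
    have h2 := ((om φ).hasFDerivAt.comp_hasDerivAt _ (dR.mul dR)).neg.real_of_complex
    simp only [Pi.neg_apply, Function.comp_apply, Pi.mul_apply, hR] at h2
    refine h2.congr_deriv ?_
    rw [bss]
    congr 1
    simp only [mul_neg, neg_mul, map_add, map_neg, mul_assoc]
    ring
  · intro s hs
    have := continuous_RR T hs
    unfold b0; fun_prop
  · intro v s hs
    have := continuous_RR T hs
    have := continuous_EE T v
    unfold b1; fun_prop
  · intro v s hs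
    have := continuous_RR T hs
    have := continuous_EE T v
    unfold b2; fun_prop
  · intro s hs
    have := continuous_RR T hs
    unfold bs; fun_prop
  · intro s hs
    have := continuous_RR T hs
    unfold bss; fun_prop
  · intro s0 hs0
    set C := 2 + (2 * ‖T‖ ^ 2 + 1) / s0 with hC
    set L := C * (2 * (1 + ‖T‖)) with hL
    have hC0 : 2 ≤ C := by rw [hC]; exact le_add_of_nonneg_right (by positivity)
    have hL0 : C ≤ L := by rw [hL]; nlinarith [norm_nonneg T]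
    refine ⟨‖φ‖ ^ 2 * (4 * L ^ 2 * C), fun s hs z v hv => ?_⟩
    have hy : 1 ≤ ‖z‖ ^ 2 + 1 := by nlinarith [norm_nonneg z]
    have hN : ‖RR T z s‖ ≤ C / (‖z‖ ^ 2 + 1) := by
      refine norm_RR_decay T z one_pos hC0 ?_
      have : (2 * ‖T‖ ^ 2 + 1) / s0 * s0 ≤ C * s := by
        refine mul_le_mul (by rw [hC]; linarith) hs hs0.le (by positivity)
      rwa [div_mul_cancel₀ _ hs0.ne'] at this
    have hN1 : ‖RR T z s‖ ≤ L := (hN.trans (div_le_self (by positivity) hy)).trans hL0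
    have hE : ‖RR T z s * EE T v z‖ ≤ L := by
      refine (norm_mul_le _ _).trans ((mul_le_mul hN (norm_EE T hv z) (norm_nonneg _)
        (by positivity)).trans (le_of_eq ?_))
      rw [hL]; field_simp
    set y := C / (‖z‖ ^ 2 + 1)
    have hy0 : 0 ≤ y := by positivity
    have key : ∀ a b : ℝ, |a| ≤ ‖φ‖ ^ 2 * (b * y) → b ≤ 4 * L ^ 2 →
        |a| ≤ ‖φ‖ ^ 2 * (4 * L ^ 2 * C) / (‖z‖ ^ 2 + 1) := by
      intro a b h1 h2
      refine h1.trans ?_
      rw [mul_div_assoc, mul_div_assoc]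
      gcongr
    have m2 : ∀ X : H →L[ℂ] H, ∀ c, ‖X‖ ≤ c → |(om φ (X * RR T z s)).re| ≤ ‖φ‖ ^ 2 * (c * y) := by
      intro X c h
      refine (abs_re_om_le φ _).trans (mul_le_mul_of_nonneg_left ?_ (by positivity))
      exact (norm_mul_le _ _).trans (mul_le_mul h hN (norm_nonneg _) ((norm_nonneg _).trans h))
    have m3 : ∀ X Y : H →L[ℂ] H, ‖X‖ ≤ L → ‖Y‖ ≤ L → ‖X * Y‖ ≤ L * L := fun X Y h1 h2 =>
      (norm_mul_le _ _).trans (mul_le_mul h1 h2 (norm_nonneg _) (by linarith))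
    refine ⟨key _ 1 ?_ (by nlinarith), key _ L ?_ (by nlinarith), key _ (2 * (L * L) + 2 * L) ?_
      (by nlinarith), key _ L ?_ (by nlinarith), key _ (2 * (L * L)) ?_ (by nlinarith)⟩
    · simpa [b0] using m2 1 1 ContinuousLinearMap.norm_id_le
    · simpa [b1] using m2 _ _ hE
    · have h1 := m2 _ _ (m3 _ _ hE hE)
      have h2 := m2 _ _ hN1
      rw [← mul_assoc] at h1
      simp only [b2, Complex.sub_re, Complex.mul_re, Complex.re_ofNat, Complex.im_ofNat, zero_mul,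
        sub_zero]
      refine (abs_sub _ _).trans ?_
      rw [abs_mul, abs_mul, abs_two]
      linarith
    · simpa [bs] using m2 _ _ hN1
    · have h1 := m2 _ _ (m3 _ _ hN1 hN1)
      simp only [bss, Complex.mul_re, Complex.re_ofNat, Complex.im_ofNat, zero_mul, sub_zero]
      rw [abs_mul, abs_two]
      linarith
  · refine ⟨‖φ‖ ^ 2 * (2 + 2 * ‖T‖ ^ 2), fun s hs z => ?_⟩
    have hs0 : 0 < s := by linarith
    have hN : ‖RR T z s‖ ≤ (2 + 2 * ‖T‖ ^ 2) / (‖z‖ ^ 2 + s) :=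
      norm_RR_decay T z hs0 (by nlinarith) (by nlinarith)
    rw [mul_div_assoc]
    refine ⟨(abs_re_om_le φ _).trans (by gcongr), ?_⟩
    rw [abs_mul, abs_of_pos hs0, bs, Complex.neg_re, abs_neg]
    have h1 := (abs_re_om_le φ (RR T z s * RR T z s)).trans (mul_le_mul_of_nonneg_left
      ((norm_mul_le _ _).trans (mul_le_mul (unit_PP_pos T z hs0).2 hN (norm_nonneg _)
        (by positivity))) (by positivity))
    refine (mul_le_mul_of_nonneg_left h1 hs0.le).trans (le_of_eq ?_)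
    field_simp

end Pool.Agent.Lib.MP_45cb44_an
end
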